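import Mathlib

/-! MODULE Cram (about 170 lines, ONLY MATHLIB). Exponential growth (MP_301213_nt), step (3): small integer linear forms whose
rational span contains `1` force a large dimension.

PROOF. H := span ℚ (range z), finite dimensional, r := finrank H. (a) Basis θ of H (`Module.finBasis ℚ H`), z_i = ∑_j M i j • θ_j,
1 = ∑_j e j • θ_j (1 ∈ H because of the hypothesis for one N: each value lies in H). Choose q ≥ 1 with q M i j = m i j, q e j = ε j integers
(product of denominators). Let C1 = max(1, ∑_i ∑_j |m i j|), E = ∑_j |ε j|. (b) Fix N as in the hypothesis, F. For u ∈ F put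
n(u) : Fin r → ℤ, n(u)_j = ∑_i u_i m i j; |n(u)_j| ≤ C1 e^{cN}; q * val(u) = ∑_j n(u)_j θ_j, val(u) = ∑_i u_i z_i. The linear map
Fin r → ℚ ≃ H (coordinates) shows ε (as rational vector) ∈ span ℚ {n(u) : u ∈ F} (from 1 ∈ span of the values: multiply by q).
(c) `exists_linearIndependent ℚ (set)` (or `exists_linearIndepOn_extension`): a finite linearly independent family n_1..n_R (R ≤ r, indexed by Fin R) of
vectors n(u_k), u_k ∈ F, with ε ∈ span: ε = ∑_k x_k n_k, x_k ∈ ℚ. (d) G = matrix (n_k · n_l) (integers, R × R). det G ≠ 0: G = n nᵀ, rank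
(n nᵀ) = rank n = R (`Matrix.rank_self_mul_transpose`, `LinearIndependent.rank_matrix`), or: v ᵀ G v = |nᵀ v|² and linear independence.
(e) y_l := ε · n_l = ∑_k x_k G k l, so det G • x = adj(G) y (up to transpose, G symmetric; `Matrix.mulVec_cramer` / `Matrix.adjugate_mul`).
(f) bounds: |G k l| ≤ r C1² e^{2cN} =: g (≥ 1), |adj G| ≤ (R-1)! g^{R-1} ≤ r! g^{r-1}... (`Matrix.det_le`-type bound: |det M| ≤ n! max^n; the adjugate entry is the
determinant of G with a row replaced by a unit vector: bounded by R! g^{R-1}, because the unit vector row has entries ≤ 1: expand, or use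
g ≥ 1 and `Matrix.adjugate_apply`, each of the R! terms is a product of R entries one of which is from the unit row, hence ≤ g^{R-1}),
|y_l| ≤ E C1 e^{cN}. So |det G x_k| ≤ R R! g^{R-1} E C1 e^{cN} ≤ C2 e^{(2(r-1)+1) c N} with C2 independent of N (R ≤ r).
(g) q * 1 = ∑_j ε_j θ_j = ∑_k x_k ∑_j n_k,j θ_j = ∑_k x_k q val(u_k), so det G = ∑_k (det G x_k) val(u_k), |det G| ≥ 1 (integer ≠ 0), hence
1 ≤ r C2 e^{(2r-1) c N} e^{-lam N} for infinitely many N, so lam ≤ (2r-1) c. -/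

open Filter Finset

namespace Pool.MZExp

private lemma det_upd_le {κ : Type*} [Fintype κ] [DecidableEq κ] (G : Matrix κ κ ℝ) (y : κ → ℝ) (k : κ) {g Y : ℝ}
    (hg : ∀ i j, |G i j| ≤ g) (hy : ∀ i, |y i| ≤ Y) :
    |(G.updateCol k y).det| ≤ ((Fintype.card κ).factorial : ℝ) * (Y * g ^ (Fintype.card κ - 1)) := by
  classical
  rw [Matrix.det_apply]
  refine (Finset.abs_sum_le_sum_abs _ _).trans ?_
  have h1 : ∀ σ : Equiv.Perm κ, |Equiv.Perm.sign σ • ∏ i, (G.updateCol k y) (σ i) i| ≤ Y * g ^ (Fintype.card κ - 1) := by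
    intro σ
    have h2 : |Equiv.Perm.sign σ • ∏ i, (G.updateCol k y) (σ i) i| = ∏ i, |(G.updateCol k y) (σ i) i| := by
      rw [← Finset.abs_prod]
      rcases Int.units_eq_one_or (Equiv.Perm.sign σ) with h | h <;> rw [h] <;> simp
    rw [h2]
    have h3 : ∏ i, |(G.updateCol k y) (σ i) i| ≤ ∏ i, Function.update (fun _ : κ => g) k Y i := by
      refine Finset.prod_le_prod (fun i _ => abs_nonneg _) ?_
      intro i _
      by_cases hi : i = k
      · subst hi
        rw [Matrix.updateCol_self, Function.update_self]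
        exact hy _
      · rw [Matrix.updateCol_ne hi, Function.update_of_ne hi]
        exact hg _ _
    refine h3.trans (le_of_eq ?_)
    rw [Finset.prod_update_of_mem (Finset.mem_univ k), Finset.prod_const]
    congr 2
    rw [Finset.card_sdiff_of_subset (Finset.subset_univ _), Finset.card_univ, Finset.card_singleton]
  refine (Finset.sum_le_sum (fun σ _ => h1 σ)).trans (le_of_eq ?_)
  rw [Finset.sum_const, Finset.card_univ, Fintype.card_perm, nsmul_eq_mul]

private lemma lemA {ι : Type*} [Fintype ι] (z : ι → ℝ) (h1 : (1 : ℝ) ∈ Submodule.span ℚ (Set.range z)) :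
    ∃ (θ : Fin (Module.finrank ℚ (Submodule.span ℚ (Set.range z))) → ℝ), LinearIndependent ℚ θ ∧
      ∃ (m : ι → Fin (Module.finrank ℚ (Submodule.span ℚ (Set.range z))) → ℤ)
        (ε : Fin (Module.finrank ℚ (Submodule.span ℚ (Set.range z))) → ℤ),
        (∀ i, z i = ∑ j, ((m i j : ℤ) : ℝ) * θ j) ∧ (1 : ℝ) = ∑ j, ((ε j : ℤ) : ℝ) * θ j := by
  classical
  set H := Submodule.span ℚ (Set.range z) with hH
  have : FiniteDimensional ℚ H := FiniteDimensional.span_of_finite ℚ (Set.finite_range z)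
  let b := Module.finBasis ℚ H
  have hz : ∀ i, z i ∈ H := fun i => Submodule.subset_span ⟨i, rfl⟩
  let f : (ι × Fin (Module.finrank ℚ H)) ⊕ Fin (Module.finrank ℚ H) → ℚ :=
    Sum.elim (fun p => b.repr ⟨z p.1, hz p.1⟩ p.2) (fun j => b.repr ⟨1, h1⟩ j)
  obtain ⟨q, hq⟩ := IsLocalization.exist_integer_multiples_of_finite (nonZeroDivisors ℤ) f
  have hq0 : ((q : ℤ) : ℚ) ≠ 0 := by
    have := nonZeroDivisors.coe_ne_zero q
    exact_mod_cast this
  have hq0R : ((q : ℤ) : ℝ) ≠ 0 := by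
    have := nonZeroDivisors.coe_ne_zero q
    exact_mod_cast this
  choose w hw using hq
  have hw' : ∀ a, ((w a : ℤ) : ℚ) = ((q : ℤ) : ℚ) * f a := by
    intro a
    have := hw a
    rw [zsmul_eq_mul] at this
    simpa using this
  have hrep : ∀ x : H, (x : ℝ) = ∑ j, ((b.repr x j : ℚ) : ℝ) * (b j : ℝ) := by
    intro x
    have := congrArg (fun y : H => (y : ℝ)) (b.sum_repr x)
    simp only [Submodule.coe_sum, Submodule.coe_smul] at this
    rw [← this]
    refine Finset.sum_congr rfl (fun j _ => ?_)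
    rw [Rat.smul_def]
  refine ⟨fun j => (b j : ℝ) / ((q : ℤ) : ℝ), ?_, fun i j => w (Sum.inl (i, j)), fun j => w (Sum.inr j), ?_, ?_⟩
  · have hli : LinearIndependent ℚ (fun j => (b j : ℝ)) := by
      have := b.linearIndependent.map' H.subtype (Submodule.ker_subtype H)
      exact this
    rw [Fintype.linearIndependent_iff] at hli ⊢
    intro g hg j
    apply hli g _ j
    have h2 : (∑ i, g i • ((b i : ℝ) / ((q : ℤ) : ℝ))) = (∑ i, g i • (b i : ℝ)) / ((q : ℤ) : ℝ) := by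
      rw [Finset.sum_div]
      refine Finset.sum_congr rfl (fun i _ => ?_)
      rw [Rat.smul_def, Rat.smul_def, mul_div_assoc]
    rw [h2] at hg
    rcases div_eq_zero_iff.mp hg with h | h
    · exact h
    · exact absurd h hq0R
  · intro i
    have h2 := hrep ⟨z i, hz i⟩
    refine h2.trans (Finset.sum_congr rfl (fun j _ => ?_))
    have h3 : ((w (Sum.inl (i, j)) : ℤ) : ℝ) = ((q : ℤ) : ℝ) * ((b.repr ⟨z i, hz i⟩ j : ℚ) : ℝ) := by
      have := hw' (Sum.inl (i, j))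
      have h4 : (((w (Sum.inl (i, j)) : ℤ) : ℚ) : ℝ) = ((((q : ℤ) : ℚ) * b.repr ⟨z i, hz i⟩ j : ℚ) : ℝ) := by
        rw [this]; rfl
      push_cast at h4
      exact h4
    rw [h3]
    field_simp
  · have h2 := hrep ⟨1, h1⟩
    refine h2.trans (Finset.sum_congr rfl (fun j _ => ?_))
    have h3 : ((w (Sum.inr j) : ℤ) : ℝ) = ((q : ℤ) : ℝ) * ((b.repr ⟨1, h1⟩ j : ℚ) : ℝ) := by
      have := hw' (Sum.inr j)
      have h4 : (((w (Sum.inr j) : ℤ) : ℚ) : ℝ) = ((((q : ℤ) : ℚ) * b.repr ⟨1, h1⟩ j : ℚ) : ℝ) := by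
        rw [this]; rfl
      push_cast at h4
      exact h4
    rw [h3]
    field_simp

private lemma lemB {r : ℕ} (hr : 1 ≤ r) (θ : Fin r → ℝ) (hθ : LinearIndependent ℚ θ) (ε : Fin r → ℤ)
    (hε : (1 : ℝ) = ∑ j, ((ε j : ℤ) : ℝ) * θ j) (S : Set (Fin r → ℤ)) {A B : ℝ} (hA : 1 ≤ A)
    (hSA : ∀ n ∈ S, ∀ j, |((n j : ℤ) : ℝ)| ≤ A) (hSB : ∀ n ∈ S, |∑ j, ((n j : ℤ) : ℝ) * θ j| ≤ B)
    (h1 : (1 : ℝ) ∈ Submodule.span ℚ {x : ℝ | ∃ n ∈ S, x = ∑ j, ((n j : ℤ) : ℝ) * θ j}) :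
    1 ≤ (r : ℝ) * (r.factorial : ℝ) * (∑ j, |((ε j : ℤ) : ℝ)|) * (r : ℝ) ^ (r - 1) * A ^ (2 * r - 1) * B := by
  classical
  -- the linear map
  let L : (Fin r → ℚ) →ₗ[ℚ] ℝ := Fintype.linearCombination ℚ θ
  have hLapp : ∀ v : Fin r → ℚ, L v = ∑ j, ((v j : ℚ) : ℝ) * θ j := by
    intro v
    show Fintype.linearCombination ℚ θ v = _
    rw [Fintype.linearCombination_apply]
    exact Finset.sum_congr rfl (fun j _ => Rat.smul_def _ _)
  have hLinj : Function.Injective L := by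
    have : LinearMap.ker L = ⊥ := by
      rw [LinearMap.ker_eq_bot']
      intro v hv
      rw [Fintype.linearIndependent_iff] at hθ
      funext j
      apply hθ v _ j
      have := hv
      rw [show L v = Fintype.linearCombination ℚ θ v from rfl, Fintype.linearCombination_apply] at this
      exact this
    exact LinearMap.ker_eq_bot.mp this
  let cst : (Fin r → ℤ) → (Fin r → ℚ) := fun n j => ((n j : ℤ) : ℚ)
  have hset : {x : ℝ | ∃ n ∈ S, x = ∑ j, ((n j : ℤ) : ℝ) * θ j} = L '' (cst '' S) := by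
    ext x
    constructor
    · rintro ⟨n, hn, rfl⟩
      refine ⟨cst n, ⟨n, hn, rfl⟩, ?_⟩
      rw [hLapp]
      refine Finset.sum_congr rfl (fun j _ => ?_)
      simp [cst]
    · rintro ⟨v, ⟨n, hn, rfl⟩, rfl⟩
      refine ⟨n, hn, ?_⟩
      rw [hLapp]
      refine Finset.sum_congr rfl (fun j _ => ?_)
      simp [cst]
  have hεL : L (cst ε) = 1 := by
    rw [hLapp, hε]
    refine Finset.sum_congr rfl (fun j _ => ?_)
    simp [cst]
  have hεmem : cst ε ∈ Submodule.span ℚ (cst '' S) := by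
    rw [hset, Submodule.span_image] at h1
    obtain ⟨v, hv, hv1⟩ := h1
    have : v = cst ε := hLinj (hv1.trans hεL.symm)
    rw [← this]
    exact hv
  obtain ⟨b, hbS, hbspan, hbli⟩ := exists_linearIndependent ℚ (cst '' S)
  rw [← hbspan] at hεmem
  have hfinb : Finite b := hbli.setFinite
  cases nonempty_fintype b
  have hcard : Fintype.card b ≤ r := by
    have := hbli.fintype_card_le_finrank
    simpa using this
  have hchoose : ∀ k : b, ∃ n ∈ S, cst n = (k : Fin r → ℚ) := by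
    intro k
    obtain ⟨n, hn, hk⟩ := hbS k.2
    exact ⟨n, hn, hk⟩
  choose w hwS hwk using hchoose
  have hx : ∃ x : b → ℚ, ∑ k, x k • (k : Fin r → ℚ) = cst ε := by
    have h2 : cst ε ∈ Submodule.span ℚ (Set.range (fun k : b => (k : Fin r → ℚ))) := by
      rw [Subtype.range_coe]
      exact hεmem
    exact (Submodule.mem_span_range_iff_exists_fun ℚ).mp h2
  obtain ⟨x, hx⟩ := hx
  -- coordinates
  have hxj : ∀ j, ∑ k, ((x k : ℚ) : ℝ) * ((w k j : ℤ) : ℝ) = ((ε j : ℤ) : ℝ) := by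
    intro j
    have h2 := congrFun hx j
    rw [Finset.sum_apply] at h2
    have h3 : (∑ k, x k * ((w k j : ℤ) : ℚ)) = ((ε j : ℤ) : ℚ) := by
      refine Eq.trans (Finset.sum_congr rfl (fun k _ => ?_)) h2
      rw [Pi.smul_apply, smul_eq_mul, ← hwk k]
    have h4 : (((∑ k, x k * ((w k j : ℤ) : ℚ)) : ℚ) : ℝ) = ((((ε j : ℤ) : ℚ)) : ℝ) := by rw [h3]
    push_cast at h4
    exact h4
  let GZ : Matrix b b ℤ := fun k l => ∑ j, w k j * w l j
  have hdet : GZ.det ≠ 0 := by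
    intro h0
    obtain ⟨v, hv0, hv⟩ := Matrix.exists_mulVec_eq_zero_iff.mpr h0
    apply hv0
    have h2 : ∑ j, (∑ k, v k * w k j) * (∑ k, v k * w k j) = 0 := by
      have h3 : ∑ k, v k * (Matrix.mulVec GZ v k) = 0 := by
        rw [hv]; simp
      rw [← h3]
      simp only [Matrix.mulVec, dotProduct, GZ]
      simp_rw [Finset.sum_mul, Finset.mul_sum]
      rw [Finset.sum_comm]
      refine Finset.sum_congr rfl (fun k _ => ?_)
      rw [Finset.sum_comm]
      refine Finset.sum_congr rfl (fun l _ => ?_)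
      refine Finset.sum_congr rfl (fun j _ => ?_)
      ring
    have h3 : ∀ j, ∑ k, v k * w k j = 0 := by
      intro j
      have h4 := (Finset.sum_eq_zero_iff_of_nonneg (fun j _ => mul_self_nonneg _)).mp h2 j (Finset.mem_univ j)
      exact mul_self_eq_zero.mp h4
    rw [Fintype.linearIndependent_iff] at hbli
    funext k
    have h5 := hbli (fun k => ((v k : ℤ) : ℚ)) ?_ k
    · exact_mod_cast h5
    · funext j
      rw [Finset.sum_apply]
      have h6 : (∑ k, ((v k : ℤ) : ℚ) * ((w k j : ℤ) : ℚ)) = 0 := by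
        exact_mod_cast h3 j
      refine Eq.trans (Finset.sum_congr rfl (fun k _ => ?_)) h6
      rw [Pi.smul_apply, smul_eq_mul, ← hwk k]
  let GR : Matrix b b ℝ := fun k l => ∑ j, ((w k j : ℤ) : ℝ) * ((w l j : ℤ) : ℝ)
  have hGR : GR = (Int.castRingHom ℝ).mapMatrix GZ := by
    ext k l
    show (∑ j, ((w k j : ℤ) : ℝ) * ((w l j : ℤ) : ℝ)) = ((∑ j, w k j * w l j : ℤ) : ℝ)
    push_cast
    rfl
  have hdetR : GR.det = ((GZ.det : ℤ) : ℝ) := by
    rw [hGR, ← RingHom.map_det]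
    rfl
  have hdet1 : 1 ≤ |GR.det| := by
    rw [hdetR, ← Int.cast_abs]
    have : 1 ≤ |GZ.det| := Int.one_le_abs hdet
    exact_mod_cast this
  let y : b → ℝ := fun l => ∑ j, ((w l j : ℤ) : ℝ) * ((ε j : ℤ) : ℝ)
  have hGx : GR.mulVec (fun k => ((x k : ℚ) : ℝ)) = y := by
    funext l
    simp only [Matrix.mulVec, dotProduct, GR, y]
    simp_rw [Finset.sum_mul]
    rw [Finset.sum_comm]
    refine Finset.sum_congr rfl (fun j _ => ?_)
    rw [← hxj j, Finset.mul_sum]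
    refine Finset.sum_congr rfl (fun k _ => ?_)
    ring
  have hcram : ∀ k, GR.det * ((x k : ℚ) : ℝ) = (GR.updateCol k y).det := by
    intro k
    rw [← Matrix.cramer_apply, Matrix.cramer_eq_adjugate_mulVec, ← hGx, Matrix.mulVec_mulVec, Matrix.adjugate_mul,
      Matrix.smul_mulVec, Matrix.one_mulVec]
    rfl
  have hr0 : (1 : ℝ) ≤ (r : ℝ) := by exact_mod_cast hr
  have hA0 : (0 : ℝ) ≤ A := by linarith
  set E : ℝ := ∑ j, |((ε j : ℤ) : ℝ)| with hE
  have hE0 : 0 ≤ E := Finset.sum_nonneg (fun j _ => abs_nonneg _)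
  have hy : ∀ l, |y l| ≤ E * A := by
    intro l
    refine (Finset.abs_sum_le_sum_abs _ _).trans ?_
    rw [hE, Finset.sum_mul]
    refine Finset.sum_le_sum (fun j _ => ?_)
    rw [abs_mul, mul_comm]
    exact mul_le_mul_of_nonneg_left (hSA _ (hwS l) j) (abs_nonneg _)
  have hg : ∀ k l, |GR k l| ≤ (r : ℝ) * A ^ 2 := by
    intro k l
    refine (Finset.abs_sum_le_sum_abs _ _).trans ?_
    have h2 : ∀ j ∈ (Finset.univ : Finset (Fin r)), |((w k j : ℤ) : ℝ) * ((w l j : ℤ) : ℝ)| ≤ A ^ 2 := by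
      intro j _
      rw [abs_mul, pow_two]
      exact mul_le_mul (hSA _ (hwS k) j) (hSA _ (hwS l) j) (abs_nonneg _) hA0
    refine (Finset.sum_le_sum h2).trans (le_of_eq ?_)
    rw [Finset.sum_const, Finset.card_univ, Fintype.card_fin, nsmul_eq_mul]
  have hval : ∀ k : b, |∑ j, ((w k j : ℤ) : ℝ) * θ j| ≤ B := fun k => hSB _ (hwS k)
  have hB0 : ∀ k : b, 0 ≤ B := fun k => (abs_nonneg _).trans (hval k)
  have hsum : GR.det = ∑ k, (GR.det * ((x k : ℚ) : ℝ)) * (∑ j, ((w k j : ℤ) : ℝ) * θ j) := by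
    have h2 : GR.det = GR.det * ∑ j, ((ε j : ℤ) : ℝ) * θ j := by rw [← hε, mul_one]
    refine h2.trans ?_
    simp_rw [← hxj, Finset.mul_sum, Finset.sum_mul, Finset.mul_sum]
    rw [Finset.sum_comm]
    refine Finset.sum_congr rfl (fun k _ => ?_)
    refine Finset.sum_congr rfl (fun j _ => ?_)
    ring
  have hg1 : (1 : ℝ) ≤ (r : ℝ) * A ^ 2 := by
    have : (1 : ℝ) ≤ A ^ 2 := one_le_pow₀ hA
    nlinarith
  have hfin : |GR.det| ≤ (Fintype.card b : ℝ) * (((Fintype.card b).factorial : ℝ) * (E * A * ((r : ℝ) * A ^ 2) ^ (Fintype.card b - 1)) * B) := by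
    conv_lhs => rw [hsum]
    refine (Finset.abs_sum_le_sum_abs _ _).trans ?_
    have h2 : ∀ k ∈ (Finset.univ : Finset b), |(GR.det * ((x k : ℚ) : ℝ)) * (∑ j, ((w k j : ℤ) : ℝ) * θ j)| ≤
        ((Fintype.card b).factorial : ℝ) * (E * A * ((r : ℝ) * A ^ 2) ^ (Fintype.card b - 1)) * B := by
      intro k _
      rw [abs_mul, hcram k]
      refine mul_le_mul (det_upd_le GR y k hg hy) (hval k) (abs_nonneg _) ?_
      positivity
    refine (Finset.sum_le_sum h2).trans (le_of_eq ?_)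
    rw [Finset.sum_const, Finset.card_univ, nsmul_eq_mul]
  have hb0 : 0 < Fintype.card b := by
    by_contra h0
    have h0' : Fintype.card b = 0 := by omega
    rw [h0'] at hfin
    simp at hfin
    rw [hfin] at hdet1
    simp at hdet1
    linarith
  have hBB : 0 ≤ B := by
    obtain ⟨k⟩ := Fintype.card_pos_iff.mp hb0
    exact hB0 k
  refine hdet1.trans (hfin.trans ?_)
  have e1 : (Fintype.card b : ℝ) ≤ (r : ℝ) := by exact_mod_cast hcard
  have e2 : ((Fintype.card b).factorial : ℝ) ≤ (r.factorial : ℝ) := by exact_mod_cast Nat.factorial_le hcard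
  have e3 : ((r : ℝ) * A ^ 2) ^ (Fintype.card b - 1) ≤ ((r : ℝ) * A ^ 2) ^ (r - 1) :=
    pow_le_pow_right₀ hg1 (by omega)
  have e4 : ((r : ℝ) * A ^ 2) ^ (r - 1) * A = (r : ℝ) ^ (r - 1) * A ^ (2 * r - 1) := by
    rw [mul_pow, ← pow_mul, mul_assoc, ← pow_succ]
    congr 2
    omega
  calc (Fintype.card b : ℝ) * (((Fintype.card b).factorial : ℝ) * (E * A * ((r : ℝ) * A ^ 2) ^ (Fintype.card b - 1)) * B)
      ≤ (r : ℝ) * ((r.factorial : ℝ) * (E * A * ((r : ℝ) * A ^ 2) ^ (r - 1)) * B) := by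
        gcongr
    _ = (r : ℝ) * (r.factorial : ℝ) * E * (((r : ℝ) * A ^ 2) ^ (r - 1) * A) * B := by ring
    _ = (r : ℝ) * (r.factorial : ℝ) * E * (r : ℝ) ^ (r - 1) * A ^ (2 * r - 1) * B := by
        rw [e4]; ring


theorem cramer_dim {ι : Type*} [Fintype ι] (z : ι → ℝ) (c lam : ℝ) (hc : 0 ≤ c)
    (h : ∀ᶠ N : ℕ in atTop, ∃ F : Set (ι → ℤ), (∀ u ∈ F, ∀ i, |((u i : ℤ) : ℝ)| ≤ Real.exp (c * N)) ∧
      (∀ u ∈ F, |∑ i, ((u i : ℤ) : ℝ) * z i| ≤ Real.exp (-(lam * N))) ∧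
      (1 : ℝ) ∈ Submodule.span ℚ {x : ℝ | ∃ u ∈ F, x = ∑ i, ((u i : ℤ) : ℝ) * z i}) :
    lam ≤ c * (2 * (Module.finrank ℚ (Submodule.span ℚ (Set.range z)) : ℝ) - 1) := by
  classical
  by_contra hcon
  push Not at hcon
  have hmem : (1 : ℝ) ∈ Submodule.span ℚ (Set.range z) := by
    obtain ⟨N, hN⟩ := h.exists
    obtain ⟨F, -, -, h1⟩ := hN
    refine (Submodule.span_le.mpr ?_) h1
    rintro x ⟨u, -, rfl⟩
    refine Submodule.sum_mem _ (fun i _ => ?_)
    have : ((u i : ℤ) : ℝ) * z i = ((u i : ℤ) : ℚ) • z i := by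
      rw [Rat.smul_def]; simp
    rw [this]
    exact Submodule.smul_mem _ _ (Submodule.subset_span ⟨i, rfl⟩)
  have hA0 : ∃ r : ℕ, r = Module.finrank ℚ (Submodule.span ℚ (Set.range z)) ∧ ∃ (θ : Fin r → ℝ), LinearIndependent ℚ θ ∧
      ∃ (m : ι → Fin r → ℤ) (ε : Fin r → ℤ),
        (∀ i, z i = ∑ j, ((m i j : ℤ) : ℝ) * θ j) ∧ (1 : ℝ) = ∑ j, ((ε j : ℤ) : ℝ) * θ j :=
    ⟨_, rfl, lemA z hmem⟩
  obtain ⟨r, hrdef, θ, hθ, m, ε, hm, hε⟩ := hA0
  rw [← hrdef] at hcon
  have hr : 1 ≤ r := by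
    rcases Nat.eq_zero_or_pos r with h0 | h0
    · exfalso
      have : (1 : ℝ) = 0 := by
        rw [hε]
        have : IsEmpty (Fin r) := by rw [h0]; infer_instance
        exact Finset.sum_eq_zero (fun j _ => (IsEmpty.false j).elim)
      norm_num at this
    · exact h0
  set C1 : ℝ := 1 + ∑ i, ∑ j, |((m i j : ℤ) : ℝ)| with hC1
  have hC1' : 1 ≤ C1 := by
    rw [hC1]
    have : 0 ≤ ∑ i, ∑ j, |((m i j : ℤ) : ℝ)| := Finset.sum_nonneg (fun i _ => Finset.sum_nonneg (fun j _ => abs_nonneg _))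
    linarith
  set K : ℝ := (r : ℝ) * (r.factorial : ℝ) * (∑ j, |((ε j : ℤ) : ℝ)|) * (r : ℝ) ^ (r - 1) * C1 ^ (2 * r - 1) with hK
  have hev : ∀ᶠ N : ℕ in atTop, 1 ≤ K * Real.exp (-((lam - c * (2 * (r : ℝ) - 1)) * N)) := by
    filter_upwards [h] with N hN
    obtain ⟨F, hF1, hF2, hF3⟩ := hN
    let T : (ι → ℤ) → (Fin r → ℤ) := fun u j => ∑ i, u i * m i j
    have hTval : ∀ u : ι → ℤ, ∑ j, ((T u j : ℤ) : ℝ) * θ j = ∑ i, ((u i : ℤ) : ℝ) * z i := by
      intro u
      simp only [T]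
      push_cast
      simp_rw [hm, Finset.sum_mul, Finset.mul_sum]
      rw [Finset.sum_comm]
      refine Finset.sum_congr rfl (fun i _ => Finset.sum_congr rfl (fun j _ => ?_))
      ring
    have hexp1 : (1 : ℝ) ≤ Real.exp (c * N) := Real.one_le_exp (by positivity)
    have hA : (1 : ℝ) ≤ C1 * Real.exp (c * N) := by nlinarith
    have key := lemB hr θ hθ ε hε (T '' F) (A := C1 * Real.exp (c * N)) (B := Real.exp (-(lam * N))) hA ?_ ?_ ?_
    · refine key.trans (le_of_eq ?_)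
      have h9 : (C1 * Real.exp (c * N)) ^ (2 * r - 1) = C1 ^ (2 * r - 1) * Real.exp (((2 * r - 1 : ℕ) : ℝ) * (c * N)) := by
        rw [mul_pow, ← Real.exp_nat_mul]
      rw [h9, hK]
      have h5 : Real.exp (-((lam - c * (2 * (r : ℝ) - 1)) * N)) = Real.exp (((2 * r - 1 : ℕ) : ℝ) * (c * N)) * Real.exp (-(lam * N)) := by
        rw [← Real.exp_add]
        congr 1
        rw [Nat.cast_sub (by omega)]
        push_cast
        ring
      rw [h5]
      generalize C1 ^ (2 * r - 1) = X1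
      generalize Real.exp (((2 * r - 1 : ℕ) : ℝ) * (c * N)) = X2
      ring
    · rintro n ⟨u, hu, rfl⟩ j
      simp only [T]
      push_cast
      refine (Finset.abs_sum_le_sum_abs _ _).trans ?_
      have h6 : ∀ i ∈ (Finset.univ : Finset ι), |((u i : ℤ) : ℝ) * ((m i j : ℤ) : ℝ)| ≤ Real.exp (c * N) * |((m i j : ℤ) : ℝ)| := by
        intro i _
        rw [abs_mul]
        exact mul_le_mul_of_nonneg_right (hF1 u hu i) (abs_nonneg _)
      refine (Finset.sum_le_sum h6).trans ?_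
      rw [← Finset.mul_sum, mul_comm]
      refine mul_le_mul_of_nonneg_right ?_ (Real.exp_pos _).le
      have h7 : ∑ i, |((m i j : ℤ) : ℝ)| ≤ ∑ i, ∑ j, |((m i j : ℤ) : ℝ)| := by
        refine Finset.sum_le_sum (fun i _ => ?_)
        exact Finset.single_le_sum (f := fun j => |((m i j : ℤ) : ℝ)|) (fun j _ => abs_nonneg _) (Finset.mem_univ j)
      rw [hC1]
      linarith
    · rintro n ⟨u, hu, rfl⟩
      rw [hTval]
      exact hF2 u hu
    · refine Submodule.span_mono ?_ hF3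
      rintro x ⟨u, hu, rfl⟩
      exact ⟨T u, ⟨u, hu, rfl⟩, (hTval u).symm⟩
  have hδ : 0 < lam - c * (2 * (r : ℝ) - 1) := by linarith
  have ht : Tendsto (fun N : ℕ => K * Real.exp (-((lam - c * (2 * (r : ℝ) - 1)) * N))) atTop (nhds (K * 0)) := by
    refine Tendsto.const_mul K ?_
    refine Real.tendsto_exp_neg_atTop_nhds_zero.comp ?_
    exact Tendsto.const_mul_atTop hδ tendsto_natCast_atTop_atTop
  rw [mul_zero] at ht
  have h8 := ht.eventually (gt_mem_nhds (show (0 : ℝ) < 1 by norm_num))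
  obtain ⟨N, hN1, hN2⟩ := (hev.and h8).exists
  linarith

end Pool.MZExp
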