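import Mathlib

/-! MP_301213_nt, exponential growth of `dim Z_k`, ZERO ESTIMATE, module `ZFwd` (140 lines).

ONLY MATHLIB. Duality of divided differences on `0, 1, .., 2N`.
PROOF. `w u = (-1)^u / (u! (2N-u)!)`.
(1) `sum_w`: for `q` with `natDegree q ≤ 2N`: `∑ u ∈ range (2N+1), w u * q.eval u = q.coeff (2N)`.
Lagrange interpolation: the coefficient of `X^(2N)` of the interpolation polynomial of `q` at the
nodes `0..2N` is `∑ q(u) / ∏_(j ≠ u) (u - j)`, `∏_(j ≠ u) (u - j) = u! * (-1)^(2N-u) (2N-u)!`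
(`Lagrange.eq_interpolate`, `Lagrange.interpolate`, `Lagrange.leadingCoeff_..`/`nodalWeight`); or by
linearity from `q = X^k`: `∑ (-1)^u C(m,u) u^k = 0` for `k < m` and `= (-1)^m m!` for `k = m`
(`Polynomial.sum_range_choose_..`/ `fwdDiff_iter_eq_factorial`, `fwdDiff_iter_pow_lt`,
`Finset.sum_pow_fwdDiff..`), `w u = (-1)^u C(2N,u) / (2N)!`, `(-1)^(2N) = 1`.
(2) The polynomial `P i = C ((-1)^i / i!) * ascPochhammer ℚ i` has degree `i` and
`(P i).eval u = (-1)^i * C(u+i-1, i)` (`ascPochhammer_nat_eq_ascFactorial`,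
`Nat.ascFactorial_eq_factorial_mul_choose'`; `u = 0`: both sides are `1` for `i = 0`, `0` for
`i ≥ 1`). So by induction on the degree: if `∑ w u * (P i).eval u * G u = 0` for all `i ≤ M'` then
`∑ w u * p.eval u * G u = 0` for all polynomials `p` with `natDegree p ≤ M'` (subtract a multiple of
`P (natDegree p)` to kill the leading term).
(3) `dual`: let `b` be the interpolation polynomial of `G` at `0..2N` (`natDegree b ≤ 2N`,
`Lagrange.interpolate`, `degree_interpolate_lt`). If `D = natDegree b > 2N - 1 - M'` then `b ≠ 0`,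
`2N - D ≤ M'`; take `p = X^(2N-D)`: `0 = ∑ w u * p(u) * G u = ∑ w u * (p * b)(u) = (p*b).coeff (2N)
= b.leadingCoeff ≠ 0`. -/

open Polynomial Finset

namespace Pool.MZExp

private lemma w_eq (m u : ℕ) (hu : u ≤ 2 * m) :
    (-1 : ℚ) ^ u / ((u.factorial : ℚ) * ((2 * m - u).factorial : ℚ)) =
      (-1 : ℚ) ^ (2 * m - u) * ((2 * m).choose u : ℚ) / ((2 * m).factorial : ℚ) := by
  have h1 : (((2 * m).choose u : ℕ) : ℚ) * (u.factorial : ℚ) * ((2 * m - u).factorial : ℚ) =
      ((2 * m).factorial : ℚ) := by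
    exact_mod_cast Nat.choose_mul_factorial_mul_factorial hu
  have hs : (-1 : ℚ) ^ (2 * m - u) = (-1 : ℚ) ^ u := by
    have h2 : (-1 : ℚ) ^ (2 * m - u) * (-1 : ℚ) ^ u = 1 := by
      rw [← pow_add, Nat.sub_add_cancel hu, pow_mul]
      simp
    have h3 : (-1 : ℚ) ^ u * (-1 : ℚ) ^ u = 1 := by
      rw [← mul_pow]; simp
    have h4 : (-1 : ℚ) ^ u ≠ 0 := by simp
    exact mul_right_cancel₀ h4 (h2.trans h3.symm)
  have hf1 : (u.factorial : ℚ) ≠ 0 := by exact_mod_cast u.factorial_ne_zero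
  have hf2 : ((2 * m - u).factorial : ℚ) ≠ 0 := by exact_mod_cast (2 * m - u).factorial_ne_zero
  have hf3 : ((2 * m).factorial : ℚ) ≠ 0 := by exact_mod_cast (2 * m).factorial_ne_zero
  rw [hs, div_eq_div_iff (mul_ne_zero hf1 hf2) hf3, ← h1]
  ring

theorem sum_w (N : ℕ) (q : ℚ[X]) (hq : q.natDegree ≤ 2 * N) :
    ∑ u ∈ range (2 * N + 1), (-1) ^ u / ((u.factorial : ℚ) * ((2 * N - u).factorial : ℚ)) *
      q.eval (u : ℚ) = q.coeff (2 * N) := by
  have hf3 : ((2 * N).factorial : ℚ) ≠ 0 := by exact_mod_cast (2 * N).factorial_ne_zero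
  have key := fwdDiff_iter_eq_sum_shift (1 : ℚ) (fun x : ℚ => q.eval x) (2 * N) (0 : ℚ)
  have hval : ((fwdDiff (1 : ℚ))^[2 * N] (fun x : ℚ => q.eval x)) 0 =
      q.coeff (2 * N) * ((2 * N).factorial : ℚ) := by
    rcases Nat.lt_or_ge q.natDegree (2 * N) with hlt | hge
    · have h := congrFun (Polynomial.fwdDiff_iter_eq_zero_of_degree_lt hlt) (0 : ℚ)
      rw [Polynomial.coeff_eq_zero_of_natDegree_lt hlt, zero_mul]
      exact h
    · have he : q.natDegree = 2 * N := le_antisymm hq hge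
      have h := congrFun (Polynomial.fwdDiff_iter_degree_eq_factorial q) (0 : ℚ)
      rw [he, Polynomial.leadingCoeff, he] at h
      rw [h]
      simp
  rw [hval] at key
  have h2 : ∑ u ∈ range (2 * N + 1), (-1) ^ u / ((u.factorial : ℚ) *
      ((2 * N - u).factorial : ℚ)) * q.eval (u : ℚ) =
      (∑ k ∈ range (2 * N + 1), ((-1 : ℤ) ^ (2 * N - k) * ((2 * N).choose k : ℤ)) •
        q.eval ((0 : ℚ) + k • (1 : ℚ))) / ((2 * N).factorial : ℚ) := by
    rw [Finset.sum_div]
    refine Finset.sum_congr rfl fun u hu => ?_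
    have hu' : u ≤ 2 * N := by have := Finset.mem_range.1 hu; omega
    rw [w_eq N u hu']
    simp only [zsmul_eq_mul, nsmul_eq_mul, mul_one, zero_add, Int.cast_mul, Int.cast_pow,
      Int.cast_neg, Int.cast_one, Int.cast_natCast]
    ring
  rw [h2]
  have key' : ∑ k ∈ range (2 * N + 1), ((-1 : ℤ) ^ (2 * N - k) * ((2 * N).choose k : ℤ)) •
        q.eval ((0 : ℚ) + k • (1 : ℚ)) = q.coeff (2 * N) * ((2 * N).factorial : ℚ) := key.symm
  rw [key', mul_div_assoc, div_self hf3, mul_one]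

/-- The test polynomials. -/
private noncomputable def tp (i : ℕ) : ℚ[X] :=
  C ((-1 : ℚ) ^ i / (i.factorial : ℚ)) * ascPochhammer ℚ i

private lemma tp_eval (i u : ℕ) :
    (tp i).eval (u : ℚ) = (-1 : ℚ) ^ i * (((u + i - 1).choose i : ℕ) : ℚ) := by
  have hf : (i.factorial : ℚ) ≠ 0 := by exact_mod_cast i.factorial_ne_zero
  have h1 : (ascPochhammer ℚ i).eval (u : ℚ) = ((u.ascFactorial i : ℕ) : ℚ) := by
    rw [ascPochhammer_nat_eq_natCast_ascFactorial]
  have h2 : u.ascFactorial i = i.factorial * (u + i - 1).choose i := by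
    rw [Nat.ascFactorial_eq_factorial_mul_choose']
  unfold tp
  rw [eval_mul, eval_C, h1, h2]
  push_cast
  field_simp

private lemma tp_natDegree (i : ℕ) : (tp i).natDegree = i := by
  have hf : (i.factorial : ℚ) ≠ 0 := by exact_mod_cast i.factorial_ne_zero
  have hc : (-1 : ℚ) ^ i / (i.factorial : ℚ) ≠ 0 := div_ne_zero (by simp) hf
  unfold tp
  rw [natDegree_C_mul hc, ascPochhammer_natDegree]

private lemma tp_lc (i : ℕ) : (tp i).coeff i ≠ 0 := by
  have h := tp_natDegree i
  have hne : tp i ≠ 0 := by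
    intro h0
    have hf : (i.factorial : ℚ) ≠ 0 := by exact_mod_cast i.factorial_ne_zero
    have hc : (-1 : ℚ) ^ i / (i.factorial : ℚ) ≠ 0 := div_ne_zero (by simp) hf
    unfold tp at h0
    rcases mul_eq_zero.1 h0 with h1 | h1
    · exact hc (C_eq_zero.1 h1)
    · exact (monic_ascPochhammer ℚ i).ne_zero h1
  have h2 : (tp i).leadingCoeff ≠ 0 := leadingCoeff_ne_zero.2 hne
  rw [Polynomial.leadingCoeff, h] at h2
  exact h2

/-- Every polynomial of degree at most `M'` is a combination of the test polynomials. -/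
private lemma test_all (L : ℚ[X] →ₗ[ℚ] ℚ) (M' : ℕ) (h : ∀ i ≤ M', L (tp i) = 0) :
    ∀ (d : ℕ) (p : ℚ[X]), p.natDegree ≤ d → d ≤ M' → L p = 0 := by
  intro d
  induction d with
  | zero =>
    intro p hp _
    have h0 := h 0 (Nat.zero_le _)
    have h1 : p = C (p.coeff 0) := eq_C_of_natDegree_le_zero hp
    have h2 : tp 0 = C ((tp 0).coeff 0) := eq_C_of_natDegree_le_zero (by rw [tp_natDegree])
    have h3 : p = (p.coeff 0 / (tp 0).coeff 0) • tp 0 := by
      rw [h2, h1, smul_C]
      simp only [coeff_C_zero]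
      rw [smul_eq_mul, div_mul_cancel₀ _ (tp_lc 0)]
    rw [h3, map_smul, h0, smul_zero]
  | succ d ih =>
    intro p hp hd
    set c := p.coeff (d + 1) / (tp (d + 1)).coeff (d + 1) with hc
    have h1 : (p - c • tp (d + 1)).natDegree ≤ d := by
      rw [natDegree_le_iff_coeff_eq_zero]
      intro n hn
      rcases Nat.lt_or_ge (d + 1) n with h2 | h2
      · rw [coeff_sub, coeff_smul, coeff_eq_zero_of_natDegree_lt (lt_of_le_of_lt hp h2),
          coeff_eq_zero_of_natDegree_lt (by rw [tp_natDegree]; exact h2)]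
        simp
      · have h3 : n = d + 1 := le_antisymm h2 hn
        subst h3
        rw [coeff_sub, coeff_smul, smul_eq_mul, hc, div_mul_cancel₀ _ (tp_lc (d + 1)), sub_self]
    have h2 := ih (p - c • tp (d + 1)) h1 (by omega)
    rw [map_sub, map_smul, h (d + 1) hd, smul_zero, sub_zero] at h2
    exact h2

theorem dual (N M' : ℕ) (G : ℕ → ℚ) (hM : M' + 1 ≤ 2 * N)
    (h : ∀ i ≤ M', ∑ u ∈ range (2 * N + 1), (-1) ^ u / ((u.factorial : ℚ) *
      ((2 * N - u).factorial : ℚ)) * ((-1) ^ i * (((u + i - 1).choose i : ℕ) : ℚ)) * G u = 0) :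
    ∃ b : ℚ[X], b.natDegree ≤ 2 * N - M' - 1 ∧ ∀ u ≤ 2 * N, G u = b.eval (u : ℚ) := by
  classical
  -- the functional
  let L : ℚ[X] →ₗ[ℚ] ℚ :=
    { toFun := fun p => ∑ u ∈ range (2 * N + 1), (-1) ^ u / ((u.factorial : ℚ) *
        ((2 * N - u).factorial : ℚ)) * p.eval (u : ℚ) * G u
      map_add' := by
        intro p q
        rw [← Finset.sum_add_distrib]
        refine Finset.sum_congr rfl fun u _ => ?_
        rw [eval_add]; ring
      map_smul' := by
        intro c p
        rw [RingHom.id_apply, smul_eq_mul, Finset.mul_sum]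
        refine Finset.sum_congr rfl fun u _ => ?_
        rw [eval_smul, smul_eq_mul]; ring }
  have hL : ∀ p : ℚ[X], L p = ∑ u ∈ range (2 * N + 1), (-1) ^ u / ((u.factorial : ℚ) *
        ((2 * N - u).factorial : ℚ)) * p.eval (u : ℚ) * G u := fun p => rfl
  have hLtp : ∀ i ≤ M', L (tp i) = 0 := by
    intro i hi
    rw [hL, ← h i hi]
    refine Finset.sum_congr rfl fun u _ => ?_
    rw [tp_eval]
  have hall := test_all L M' hLtp
  -- interpolation
  have hinj : Set.InjOn (fun u : ℕ => (u : ℚ)) (range (2 * N + 1) : Finset ℕ) := by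
    intro a _ b _ hab
    have hab' : (a : ℚ) = (b : ℚ) := hab
    exact_mod_cast hab'
  set b : ℚ[X] := Lagrange.interpolate (range (2 * N + 1)) (fun u : ℕ => (u : ℚ)) G with hb
  have hbe : ∀ u ≤ 2 * N, G u = b.eval (u : ℚ) := by
    intro u hu
    have := Lagrange.eval_interpolate_at_node (r := G) hinj
      (i := u) (Finset.mem_range.2 (by omega))
    exact this.symm
  have hbd : b.natDegree ≤ 2 * N := by
    have h1 := Lagrange.degree_interpolate_lt (r := G) hinj
    rw [Finset.card_range] at h1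
    rw [← hb] at h1
    by_cases hb0 : b = 0
    · rw [hb0]; simp
    · rw [degree_eq_natDegree hb0] at h1
      have h2 : b.natDegree < 2 * N + 1 := by exact_mod_cast h1
      omega
  refine ⟨b, ?_, hbe⟩
  by_contra hcon
  rw [not_le] at hcon
  have hb0 : b ≠ 0 := by
    intro h0
    rw [h0] at hcon
    simp at hcon
  set D := b.natDegree with hD
  have h1 : L (X ^ (2 * N - D)) = 0 :=
    hall (2 * N - D) (X ^ (2 * N - D)) (by rw [natDegree_X_pow]) (by omega)
  have h2 : L (X ^ (2 * N - D)) = (X ^ (2 * N - D) * b).coeff (2 * N) := by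
    rw [hL, ← sum_w N (X ^ (2 * N - D) * b)]
    · refine Finset.sum_congr rfl fun u hu => ?_
      have hu' : u ≤ 2 * N := by have := Finset.mem_range.1 hu; omega
      rw [eval_mul, hbe u hu']
      ring
    · rw [natDegree_mul (pow_ne_zero _ X_ne_zero) hb0, natDegree_X_pow, ← hD]
      omega
  have h3 : (X ^ (2 * N - D) * b).coeff (2 * N) = b.coeff D := by
    rw [coeff_X_pow_mul', if_pos (by omega)]
    congr 1
    omega
  rw [h1, h3] at h2
  have h4 : b.leadingCoeff = 0 := h2.symm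
  exact hb0 (leadingCoeff_eq_zero.1 h4)

end Pool.MZExp
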