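import Mathlib

/-! MP_301213_nt, exponential growth of `dim Z_k`: definitions for part (4), the ZERO ESTIMATE
(pure algebra, only Mathlib). Words are lists of natural numbers, `S`, `S0`, `S1` finite sets of
words. `Dm x S` is the matrix of the nilpotent operator: the entry `(u, w)` is `(-1/x)^a` if
`w = a :: u` and `0` otherwise. `1 + Dm x S` is the unipotent operator of the shift. -/

open Polynomial

namespace Pool.MZExp

/-- `Dm x S u w = (-1/x) ^ a` if `w = a :: u`, and `0` otherwise -/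
noncomputable def Dm {K : Type*} [Field K] (x : K) (S : Finset (List ℕ)) : Matrix S S K :=
  fun u w => if w.1 = w.1.headI :: u.1 then (-x⁻¹) ^ w.1.headI else 0

/-- the unipotent operator of the shift -/
noncomputable def Tm {K : Type*} [Field K] (x : K) (S : Finset (List ℕ)) : Matrix S S K :=
  1 + Dm x S

/-- a sum `∑ κ_m (-1/x)^m`, `m ≥ 1`, with invariant coefficients is a difference `A - τ A` only if
all the coefficients vanish -/
def NoSol {K : Type*} [Field K] (τ : K ≃+* K) (x : K) : Prop :=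
  ∀ (κ : ℕ →₀ K) (A : K), (∀ m, τ (κ m) = κ m) → κ 0 = 0 →
    A - τ A = κ.sum (fun m k => k * (-x⁻¹) ^ m) → κ = 0

/-- the unipotent operator of the shift on functions of words: `(T f) (a :: u) = f (a :: u) + x^a f u` -/
def tp (x : ℚ) (f : List ℕ → ℚ) : List ℕ → ℚ
  | [] => f []
  | a :: u => f (a :: u) + x ^ a * f u

/-- the shift recursion `c_(j-1)(u, v) = c_j(T u, T v) + ρ_j(u, v)`, `T (a :: u) = a :: u + (-1/j)^a u`,
`ρ_j` a polynomial in `1/j`, `ρ_j([], []) = 1/j` -/
def RecC (c : List ℕ → List ℕ → ℕ → ℚ) : Prop :=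
  ∃ R : List ℕ → List ℕ → ℚ[X], R [] [] = X ∧
    (∀ u v, (R u v).natDegree ≤ u.sum + v.sum + 1) ∧
    ∀ (j : ℕ) (u v : List ℕ), (∀ a ∈ u, 2 ≤ a) → (∀ a ∈ v, 2 ≤ a) →
      c u v j = tp (-((j : ℚ) + 1)⁻¹) (fun u' => tp (-((j : ℚ) + 1)⁻¹) (fun v' => c u' v' (j + 1)) v) u
        + (R u v).eval ((j : ℚ) + 1)⁻¹

/-- the field of rational functions -/
abbrev KK : Type := FractionRing ℚ[X]

/-- the shift `X ↦ X - 1` of rational functions -/
noncomputable def tau : KK ≃+* KK :=
  IsFractionRing.ringEquivOfRingEquiv (algEquivAevalXAddC (-1 : ℚ)).toRingEquiv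

/-- the rational function `X` -/
noncomputable def xx : KK := algebraMap ℚ[X] KK X

/-- the relation between a pair `p = (a, b)` and its shift `q = (a#, b#)` -/
def Rel {K : Type*} [Field K] (τ : K ≃+* K) (x : K) (S0 S1 : Finset (List ℕ))
    (Rx : List ℕ → List ℕ → K) (p q : (S0 → K) × (S1 → K)) : Prop :=
  (q.1 = (Tm x S0).mulVec (fun u => τ (p.1 u))) ∧
  ∀ v : S1, Matrix.vecMul q.2 (Tm x S1) v = τ (p.2 v) - ∑ u : S0, τ (p.1 u) * Rx u v

/-- the pairs `(a, b)` of vectors of polynomials of degrees `≤ y`, `≤ z` with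
`∑ a_u(j) c_j(u, v) = b_v(j)` for `0 ≤ j ≤ M`, as a subspace of the vectors of rational functions -/
noncomputable def QQ (S0 S1 : Finset (List ℕ)) (c : List ℕ → List ℕ → ℕ → ℚ) (M y z : ℕ) :
    Submodule ℚ ((S0 → KK) × (S1 → KK)) where
  carrier := {p | ∃ (a : S0 → ℚ[X]) (b : S1 → ℚ[X]), (∀ u, (a u).natDegree ≤ y) ∧
    (∀ v, (b v).natDegree ≤ z) ∧
    (∀ j : ℕ, j ≤ M → ∀ v : S1, ∑ u : S0, (a u).eval (j : ℚ) * c u v j = (b v).eval (j : ℚ)) ∧
    p = (fun u => algebraMap ℚ[X] KK (a u), fun v => algebraMap ℚ[X] KK (b v))}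
  add_mem' := by
    rintro p q ⟨a, b, ha, hb, hc, rfl⟩ ⟨a', b', ha', hb', hc', rfl⟩
    refine ⟨a + a', b + b', fun u => ?_, fun v => ?_, fun j hj v => ?_, ?_⟩
    · exact (natDegree_add_le _ _).trans (max_le (ha u) (ha' u))
    · exact (natDegree_add_le _ _).trans (max_le (hb v) (hb' v))
    · simp only [Pi.add_apply, eval_add, add_mul, Finset.sum_add_distrib, hc j hj v, hc' j hj v]
    · ext i <;> simp
  zero_mem' := by
    refine ⟨0, 0, fun u => ?_, fun v => ?_, fun j hj v => ?_, ?_⟩ <;> simp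
    rfl
  smul_mem' := by
    rintro k p ⟨a, b, ha, hb, hc, rfl⟩
    refine ⟨k • a, k • b, fun u => ?_, fun v => ?_, fun j hj v => ?_, ?_⟩
    · exact (natDegree_smul_le k _).trans (ha u)
    · exact (natDegree_smul_le k _).trans (hb v)
    · simp only [Pi.smul_apply, eval_smul, smul_eq_mul, mul_assoc, ← Finset.mul_sum, hc j hj v]
    · ext i
      · exact (map_rat_smul (algebraMap ℚ[X] KK) k (a i)).symm
      · exact (map_rat_smul (algebraMap ℚ[X] KK) k (b i)).symm

end Pool.MZExp
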