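import Pool.Agent.Lib.MZExp.Defs
import Pool.Agent.Lib.MZExp.ZDefs

/-! MP_301213_nt, exponential growth of `dim Z_k`, ZERO ESTIMATE, module `ZLF` (220 lines): from the
coefficient vector `x` to polynomials.

PROOF. `aL N l = C (N! : ℚ) * ∏ j ∈ range l, (C j - X) * ∏ j ∈ Ioc (l+N) (2N), (C j - X)`,
`natDegree (aL N l) ≤ l + (N - l) = N` for `l ≤ N` (`natDegree_prod_le`, `Nat.card_Ioc`).
(1) `aL_eval`: for `u ≤ 2N`, `l ≤ N`: if `u < l` the first product has the factor `j = u`, if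
`u > l + N` the second one has, so the value is `0`. If `l ≤ u ≤ l + N`:
`∏_(j<l) (j - u) = (-1)^l u!/(u-l)!` and `∏_(j=l+N+1..2N) (j - u) = (2N-u)!/(l+N-u)!`, so
`(-1)^u / (u! (2N-u)!) * aL(u) = (-1)^(u-l) * N!/((u-l)! (N-(u-l))!) = (-1)^(u-l) C(N, u-l)`.
(Products: induction on `l`, resp. on `2N - (l+N)`; or `Nat.descFactorial`/`Finset.prod_range_..`.)
(2) `aP A N x α = ∑ l : Fin (N+1), C (x (l, α)) * aL N l`. `LF_eq`: in `LF`, substitute
`u = l + j` (`j = u - l`, `0 ≤ j ≤ N`): `∑_(l,α) x_(l,α) ∑_(u=0..2N) [l ≤ u ≤ l+N] (-1)^(u-l) C(N,u-l)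
bneg(u,i) c(α,v,u)`, use (1), exchange the sums; `∑ p : Fin (N+1) × A = ∑ α, ∑ l`
(`Fintype.sum_prod_type_right`), `bneg u i = (-1)^i * C(u+i-1, i)`.
(3) `aP_ne_zero`: if all `aP A N x α = 0` then for every `α` and `u ≤ N`:
`∑_(l ≤ u) x (l, α) (-1)^(u-l) C(N, u-l) = 0` (evaluate at `u`, multiply by `w u`, (1)); by strong
induction on `u`: `x (u, α) = 0` (the term `l = u` is `x (u, α)`). So `x = 0`. -/

open Polynomial Finset

namespace Pool.MZExp

/-- the polynomial with `aL(-t) / ∏_(j ≤ 2N) (t + j) = β_l(t)` -/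
noncomputable def aL (N l : ℕ) : ℚ[X] :=
  C (N.factorial : ℚ) * (∏ j ∈ range l, (C (j : ℚ) - X)) * ∏ j ∈ Ioc (l + N) (2 * N), (C (j : ℚ) - X)

/-- the polynomials attached to the coefficient vector `x` -/
noncomputable def aP (A : Finset (List ℕ)) (N : ℕ) (x : Fin (N + 1) × A → ℚ) (α : A) : ℚ[X] :=
  ∑ l : Fin (N + 1), C (x (l, α)) * aL N l

private lemma ZLF_natDegree_lin (s : Finset ℕ) :
    (∏ j ∈ s, (C (j : ℚ) - X)).natDegree ≤ s.card := by
  refine (natDegree_prod_le _ _).trans ?_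
  refine (Finset.sum_le_card_nsmul s _ 1 fun j _ => ?_).trans (by simp)
  refine (natDegree_sub_le _ _).trans ?_
  rw [natDegree_C, natDegree_X]
  exact max_le (Nat.zero_le _) le_rfl

private lemma ZLF_natDegree_aL (N l : ℕ) (hl : l ≤ N) : (aL N l).natDegree ≤ N := by
  unfold aL
  have h1 := ZLF_natDegree_lin (range l)
  have h2 := ZLF_natDegree_lin (Ioc (l + N) (2 * N))
  rw [card_range] at h1
  rw [Nat.card_Ioc] at h2
  refine natDegree_mul_le.trans ?_
  have h3 : (C (N.factorial : ℚ) * (∏ j ∈ range l, (C (j : ℚ) - X))).natDegree ≤ l :=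
    (natDegree_C_mul_le _ _).trans h1
  omega

theorem aP_natDegree (A : Finset (List ℕ)) (N : ℕ) (x : Fin (N + 1) × A → ℚ) (α : A) :
    (aP A N x α).natDegree ≤ N := by
  unfold aP
  refine natDegree_sum_le_of_forall_le _ _ fun l _ => ?_
  exact (natDegree_C_mul_le _ _).trans (ZLF_natDegree_aL N l (Nat.lt_succ_iff.1 l.2))

private lemma ZLF_P1 (l u : ℕ) (h : l ≤ u) :
    (∏ j ∈ range l, ((j : ℚ) - u)) * ((u - l).factorial : ℚ) = (-1) ^ l * (u.factorial : ℚ) := by
  induction l with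
  | zero => simp
  | succ l ih =>
    have h1 := ih (by omega)
    rw [prod_range_succ]
    obtain ⟨k, rfl⟩ : ∃ k, u = l + 1 + k := ⟨u - (l + 1), by omega⟩
    have e1 : l + 1 + k - l = k + 1 := by omega
    have e2 : l + 1 + k - (l + 1) = k := by omega
    rw [e1, Nat.factorial_succ] at h1
    rw [e2]
    push_cast at h1 ⊢
    rw [pow_succ]
    linear_combination -h1

private lemma ZLF_P2 (a b u : ℕ) (hab : a ≤ b) (hu : u ≤ a) :
    (∏ j ∈ Ioc a b, ((j : ℚ) - u)) * ((a - u).factorial : ℚ) = ((b - u).factorial : ℚ) := by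
  induction b, hab using Nat.le_induction with
  | base => simp
  | succ b hb ih =>
    rw [Finset.prod_Ioc_succ_top (by omega)]
    have e1 : b + 1 - u = (b - u) + 1 := by omega
    rw [e1, Nat.factorial_succ]
    push_cast
    rw [Nat.cast_sub (show u ≤ b by omega)]
    linear_combination ((b : ℚ) + 1 - u) * ih

private lemma ZLF_eval (N l u : ℕ) : (aL N l).eval (u : ℚ) =
    (N.factorial : ℚ) * (∏ j ∈ range l, ((j : ℚ) - u)) *
      ∏ j ∈ Ioc (l + N) (2 * N), ((j : ℚ) - u) := by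
  unfold aL
  simp only [eval_mul, eval_C, eval_prod, eval_sub, eval_X]

private lemma ZLF_key (N l u : ℕ) (hl : l ≤ N) (hu : u ≤ 2 * N) :
    (-1) ^ u / ((u.factorial : ℚ) * ((2 * N - u).factorial : ℚ)) * (aL N l).eval (u : ℚ)
      = if l ≤ u ∧ u ≤ l + N then (-1) ^ (u - l) * (N.choose (u - l) : ℚ) else 0 := by
  rw [ZLF_eval]
  split_ifs with h
  · obtain ⟨h1, h2⟩ := h
    have p1 := ZLF_P1 l u h1
    have p2 := ZLF_P2 (l + N) (2 * N) u (by omega) h2
    obtain ⟨k, rfl⟩ : ∃ k, u = l + k := ⟨u - l, by omega⟩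
    have e1 : l + k - l = k := by omega
    have e2 : l + N - (l + k) = N - k := by omega
    rw [e1] at p1 ⊢
    rw [e2] at p2
    have hk : k ≤ N := by omega
    have p3 : (N.choose k : ℚ) * (k.factorial : ℚ) * ((N - k).factorial : ℚ) =
        (N.factorial : ℚ) := by exact_mod_cast Nat.choose_mul_factorial_mul_factorial hk
    have f1 : ((l + k).factorial : ℚ) ≠ 0 := by exact_mod_cast (Nat.factorial_pos _).ne'
    have f2 : ((2 * N - (l + k)).factorial : ℚ) ≠ 0 := by
      exact_mod_cast (Nat.factorial_pos _).ne'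
    have f3 : (k.factorial : ℚ) ≠ 0 := by exact_mod_cast (Nat.factorial_pos _).ne'
    have f4 : ((N - k).factorial : ℚ) ≠ 0 := by exact_mod_cast (Nat.factorial_pos _).ne'
    set A := ∏ j ∈ range l, ((j : ℚ) - (l + k : ℕ)) with hA
    set B := ∏ j ∈ Ioc (l + N) (2 * N), ((j : ℚ) - (l + k : ℕ)) with hB
    have g1 : A = (-1) ^ l * ((l + k).factorial : ℚ) / (k.factorial : ℚ) := by
      rw [eq_div_iff f3]
      exact p1
    have g2 : B = ((2 * N - (l + k)).factorial : ℚ) / ((N - k).factorial : ℚ) := by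
      rw [eq_div_iff f4]
      exact p2
    have g3 : ((-1 : ℚ)) ^ (l + k) * (-1) ^ l = (-1) ^ k := by
      rw [pow_add]
      have : ((-1 : ℚ)) ^ l * (-1) ^ l = 1 := by
        rw [← mul_pow]
        norm_num
      linear_combination (-1 : ℚ) ^ k * this
    rw [g1, g2, ← p3, ← g3]
    field_simp
  · rw [not_and_or, not_le, not_le] at h
    rcases h with h | h
    · have : ∏ j ∈ range l, ((j : ℚ) - u) = 0 :=
        prod_eq_zero (mem_range.2 h) (sub_self _)
      rw [this]
      ring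
    · have : ∏ j ∈ Ioc (l + N) (2 * N), ((j : ℚ) - u) = 0 :=
        prod_eq_zero (mem_Ioc.2 ⟨h, hu⟩) (sub_self _)
      rw [this]
      ring

private lemma ZLF_aP_eval (A : Finset (List ℕ)) (N : ℕ) (x : Fin (N + 1) × A → ℚ) (α : A) (u : ℕ) :
    (aP A N x α).eval (u : ℚ) = ∑ l : Fin (N + 1), x (l, α) * (aL N l).eval (u : ℚ) := by
  unfold aP
  rw [eval_finset_sum]
  simp only [eval_mul, eval_C]

theorem aP_ne_zero (A : Finset (List ℕ)) (N : ℕ) (x : Fin (N + 1) × A → ℚ) (hx : x ≠ 0) :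
    aP A N x ≠ 0 := by
  intro h0
  apply hx
  have key : ∀ (α : A) (k : ℕ) (hk : k < N + 1), x (⟨k, hk⟩, α) = 0 := by
    intro α k
    induction k using Nat.strong_induction_on with
    | _ k ih =>
      intro hk
      have h1 : (aP A N x α).eval (k : ℚ) = 0 := by
        rw [h0]
        simp
      rw [ZLF_aP_eval] at h1
      have h2 : ∑ l : Fin (N + 1), x (l, α) *
          ((-1) ^ k / ((k.factorial : ℚ) * ((2 * N - k).factorial : ℚ)) *
            (aL N l).eval (k : ℚ)) = 0 := by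
        have : ∑ l : Fin (N + 1), x (l, α) *
          ((-1) ^ k / ((k.factorial : ℚ) * ((2 * N - k).factorial : ℚ)) *
            (aL N l).eval (k : ℚ)) = (-1) ^ k / ((k.factorial : ℚ) * ((2 * N - k).factorial : ℚ)) *
            ∑ l : Fin (N + 1), x (l, α) * (aL N l).eval (k : ℚ) := by
          rw [mul_sum]
          exact sum_congr rfl fun l _ => by ring
        rw [this, h1, mul_zero]
      rw [Finset.sum_eq_single (⟨k, hk⟩ : Fin (N + 1))] at h2
      · rw [ZLF_key N _ k (by show k ≤ N; omega) (by omega), if_pos ⟨le_rfl, by omega⟩] at h2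
        simpa using h2
      · intro l _ hne
        rcases Nat.lt_or_ge (l : ℕ) k with h3 | h3
        · have h4 := ih (l : ℕ) h3 l.2
          have h5 : x (l, α) = 0 := h4
          rw [h5, zero_mul]
        · have h6 : k < (l : ℕ) := by
            rcases Nat.eq_or_lt_of_le h3 with h7 | h7
            · exact absurd (Fin.ext h7.symm) hne
            · exact h7
          rw [ZLF_key N l k (Nat.lt_succ_iff.1 l.2) (by omega), if_neg (by omega), mul_zero]
      · intro h
        exact absurd (mem_univ _) h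
  funext p
  obtain ⟨l, α⟩ := p
  exact key α l l.2

private lemma ZLF_reindex (N l : ℕ) (hl : l ≤ N) (g : ℕ → ℕ → ℚ) :
    ∑ u ∈ range (2 * N + 1), (if l ≤ u ∧ u ≤ l + N then g (u - l) u else 0)
      = ∑ j ∈ range (N + 1), g j (l + j) := by
  rw [← Finset.sum_filter]
  refine Finset.sum_nbij' (fun u => u - l) (fun j => l + j) ?_ ?_ ?_ ?_ ?_
  · intro u hu
    rw [mem_filter, mem_range] at hu
    rw [mem_range]
    omega
  · intro j hj
    rw [mem_range] at hj
    rw [mem_filter, mem_range]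
    omega
  · intro u hu
    rw [mem_filter, mem_range] at hu
    show l + (u - l) = u
    omega
  · intro j hj
    show l + j - l = j
    omega
  · intro u hu
    rw [mem_filter, mem_range] at hu
    show g (u - l) u = g (u - l) (l + (u - l))
    rw [show l + (u - l) = u by omega]

theorem LF_eq (A : Finset (List ℕ)) (N : ℕ) (c : List ℕ → List ℕ → ℕ → ℚ)
    (x : Fin (N + 1) × A → ℚ) (i : ℕ) (v : List ℕ) :
    LF A N c x i v = ∑ u ∈ range (2 * N + 1), (-1) ^ u / ((u.factorial : ℚ) *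
      ((2 * N - u).factorial : ℚ)) * ((-1) ^ i * (((u + i - 1).choose i : ℕ) : ℚ)) *
        ∑ α : A, (aP A N x α).eval (u : ℚ) * c α v u := by
  have h1 : ∀ u ∈ range (2 * N + 1), (-1) ^ u / ((u.factorial : ℚ) *
      ((2 * N - u).factorial : ℚ)) * ((-1) ^ i * (((u + i - 1).choose i : ℕ) : ℚ)) *
        ∑ α : A, (aP A N x α).eval (u : ℚ) * c α v u =
      ∑ p : Fin (N + 1) × A, x p * (if (p.1 : ℕ) ≤ u ∧ u ≤ (p.1 : ℕ) + N then
        (-1) ^ (u - (p.1 : ℕ)) * (N.choose (u - (p.1 : ℕ)) : ℚ) *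
          ((-1) ^ i * (((u + i - 1).choose i : ℕ) : ℚ)) * c p.2 v u else 0) := by
    intro u hu
    rw [mem_range] at hu
    rw [Fintype.sum_prod_type_right, mul_sum]
    refine sum_congr rfl fun α _ => ?_
    rw [ZLF_aP_eval, sum_mul, mul_sum]
    refine sum_congr rfl fun l _ => ?_
    have h2 := ZLF_key N l u (Nat.lt_succ_iff.1 l.2) (by omega)
    have h3 : (-1) ^ u / ((u.factorial : ℚ) * ((2 * N - u).factorial : ℚ)) *
        ((-1) ^ i * (((u + i - 1).choose i : ℕ) : ℚ)) *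
        (x (l, α) * (aL N l).eval (u : ℚ) * c α v u) =
        x (l, α) * (((-1) ^ u / ((u.factorial : ℚ) * ((2 * N - u).factorial : ℚ)) *
          (aL N l).eval (u : ℚ)) * ((-1) ^ i * (((u + i - 1).choose i : ℕ) : ℚ)) * c α v u) := by
      ring
    rw [h3, h2]
    split_ifs
    · rfl
    · ring
  rw [sum_congr rfl h1, sum_comm]
  unfold LF
  refine sum_congr rfl fun p _ => ?_
  rw [← mul_sum]
  congr 1
  have h4 := ZLF_reindex N (p.1 : ℕ) (Nat.lt_succ_iff.1 p.1.2) (fun j u => (-1) ^ j *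
    (N.choose j : ℚ) * ((-1) ^ i * (((u + i - 1).choose i : ℕ) : ℚ)) * c p.2 v u)
  rw [h4]
  refine sum_congr rfl fun j _ => ?_
  unfold bneg
  push_cast
  ring

end Pool.MZExp
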