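import Pool.Agent.Lib.MZExp.ZUnip

/-! MP_301213_nt, exponential growth of `dim Z_k`, ZERO ESTIMATE, module `ZRec` (60 lines): the shift
recursion in terms of matrices.

PROOF. `tp_eq`: for `S` closed under tails, `u ∈ S`:
`∑ u' : S, Tm x S u' u * f u' = tp (-x⁻¹) f u`: this is `vecMul f (Tm x S) u` (`Matrix.vecMul`,
`dotProduct`, `mul_comm`), cases on `u.1 = []` (`Tm_vecMul_nil`) or `u.1 = a :: l`
(`Tm_vecMul_cons`). `rec_matrix`: apply it in both variables (`Finset.mul_sum`, `mul_assoc`). -/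

open Polynomial

namespace Pool.MZExp

theorem tp_eq (x : ℚ) (S : Finset (List ℕ)) (hS : ∀ a l, a :: l ∈ S → l ∈ S) (f : List ℕ → ℚ)
    (u : S) : ∑ u' : S, Tm x S u' u * f u' = tp (-x⁻¹) f u := by
  have h1 : ∑ u' : S, Tm x S u' u * f u' = Matrix.vecMul (fun u' : S => f u') (Tm x S) u := by
    simp only [Matrix.vecMul, dotProduct]
    exact Finset.sum_congr rfl fun i _ => mul_comm _ _
  rw [h1]
  obtain ⟨w, hw⟩ := u
  cases w with
  | nil => rw [Tm_vecMul_nil x S _ _ rfl]; rfl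
  | cons a l =>
    rw [Tm_vecMul_cons x S _ ⟨a :: l, hw⟩ ⟨l, hS a l hw⟩ a rfl]
    rfl

theorem rec_matrix (x : ℚ) (S0 S1 : Finset (List ℕ)) (hS0 : ∀ a l, a :: l ∈ S0 → l ∈ S0)
    (hS1 : ∀ a l, a :: l ∈ S1 → l ∈ S1) (g : List ℕ → List ℕ → ℚ) (u : S0) (v : S1) :
    ∑ u' : S0, ∑ v' : S1, Tm x S0 u' u * Tm x S1 v' v * g u' v' =
      tp (-x⁻¹) (fun u' => tp (-x⁻¹) (fun v' => g u' v') v) u := by
  rw [← tp_eq x S0 hS0 (fun u' => tp (-x⁻¹) (fun v' => g u' v') v) u]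
  refine Finset.sum_congr rfl fun u' _ => ?_
  rw [← tp_eq x S1 hS1 (fun v' => g u' v') v, Finset.mul_sum]
  exact Finset.sum_congr rfl fun v' _ => mul_assoc _ _ _

end Pool.MZExp
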