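import Pool.Agent.Lib.MZExp.UAlg
import Pool.Agent.Lib.MZExp.ZFwd
import Pool.Agent.Lib.MZExp.ZLF
import Pool.Agent.Lib.MZExp.ZRec

/-! MP_301213_nt, exponential growth of `dim Z_k`, PHASE 2, module `UMain`: the ZERO ESTIMATE for tails,
letters `≥ 1`, interface `zero_estU`.

The recursion `RecU` has the poles `0` and `-1` of the shift at the same time; the numbers
`c'_j = -(c_j + F / j)` satisfy the recursion `c'_(j+1) = c'_j(T u, T v) + R'(1/j)` with
`R' = X * TT F - R`, and `(a, b)` becomes `(X a, -X b - ∑ F a)`. -/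

open Polynomial

namespace Pool.MZExp

/-- polynomial version of `tp` -/
private noncomputable def tpX (f : List ℕ → ℚ[X]) : List ℕ → ℚ[X]
  | [] => f []
  | a :: u => f (a :: u) + (-X) ^ a * f u

private theorem negX_deg (a : ℕ) : ((-X : ℚ[X]) ^ a).natDegree ≤ a := by
  refine natDegree_pow_le.trans ?_
  rw [natDegree_neg, natDegree_X, mul_one]

private theorem tpX_deg (f : List ℕ → ℚ[X]) (n : ℕ) (hf : ∀ u, (f u).natDegree ≤ n)
    (u : List ℕ) : (tpX f u).natDegree ≤ u.sum + n := by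
  rcases u with _ | ⟨a, u⟩
  · simpa [tpX] using hf []
  · rw [tpX, List.sum_cons]
    refine (natDegree_add_le _ _).trans (max_le ((hf _).trans (by omega)) ?_)
    refine natDegree_mul_le.trans ?_
    have h1 := negX_deg a
    have h2 := hf u
    omega

private theorem tpX_eval (f : List ℕ → ℚ[X]) (x : ℚ) (u : List ℕ) :
    (tpX f u).eval x = tp (-x) (fun u' => (f u').eval x) u := by
  rcases u with _ | ⟨a, u⟩
  · rfl
  · simp [tpX, tp]

private theorem tp_lin (x : ℚ) (f g : List ℕ → List ℕ → ℚ) (y : ℚ) (u v : List ℕ) :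
    tp x (fun u' => tp x (fun v' => -(f u' v' + g u' v' * y)) v) u =
      -(tp x (fun u' => tp x (fun v' => f u' v') v) u +
        tp x (fun u' => tp x (fun v' => g u' v') v) u * y) := by
  rcases u with _ | ⟨a, u⟩ <;> rcases v with _ | ⟨b, v⟩ <;> simp only [tp] <;> ring

theorem zero_estU (A B : Finset (List ℕ)) (hA : TC1 A) (hB : TC1 B) (h : 4 * A.card < B.card) :
    ∃ N0 : ℕ, ∀ N : ℕ, N0 ≤ N → ∀ c : List ℕ → List ℕ → ℕ → ℚ, RecU c →
      ∀ x : Fin (N + 1) × A → ℚ, x ≠ 0 → ∃ i, i ≤ N / 2 ∧ ∃ v ∈ B, LF A N c x i v ≠ 0 := by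
  obtain ⟨hA0, hA1, hA2⟩ := hA
  obtain ⟨hB0, hB1, hB2⟩ := hB
  obtain ⟨N0, hN0⟩ := zero_algU A B hA2 hB2 (fun l hl a ha => (hA1 l hl).1 a ha)
    (fun l hl a ha => (hB1 l hl).1 a ha) hA0 hB0 (A.sup List.sum + B.sup List.sum + 1) h
  refine ⟨N0 + 2, fun N hN c hc x hx => ?_⟩
  by_contra hcon
  push Not at hcon
  obtain ⟨R, F, hR0, hF0, hR1, hR2⟩ := hc
  set R' : List ℕ → List ℕ → ℚ[X] := fun u v =>
    X * tpX (fun u' => tpX (fun v' => C (F u' v')) v) u - R u v with hR'
  have hR'deg : ∀ u v, (R' u v).natDegree ≤ u.sum + v.sum + 1 := by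
    intro u v
    refine (natDegree_sub_le _ _).trans (max_le ?_ (hR1 u v))
    refine natDegree_mul_le.trans ?_
    have h1 := tpX_deg (fun u' => tpX (fun v' => C (F u' v')) v) (v.sum + 0)
      (fun u' => tpX_deg (fun v' => C (F u' v')) 0 (fun v' => by simp) v) u
    rw [natDegree_X]
    omega
  have hR'0 : R' [] [] = X := by
    simp [hR', tpX, hR0, hF0]
  set c' : List ℕ → List ℕ → ℕ → ℚ := fun u v j => -(c u v j + F u v * (j : ℚ)⁻¹) with hc'
  refine hN0 N (by omega) c' R' (fun u hu v hv => ?_) hR'0 (fun j u v hj => ?_)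
    (fun u => X * aP A N x u) ?_ (fun u => ?_) (fun v => ?_)
  · have h1 : u.sum ≤ A.sup List.sum := Finset.le_sup (f := List.sum) hu
    have h2 : v.sum ≤ B.sup List.sum := Finset.le_sup (f := List.sum) hv
    exact (hR'deg u v).trans (by omega)
  · rw [rec_matrix (j : ℚ) A B hA2 hB2 (fun u' v' => c' u' v' j) u v]
    have h1 := hR2 j u v hj (hA1 u u.2) (hB1 v v.2)
    have h2 : c' u v (j + 1) = -(c u v (j + 1) + F u v * ((j : ℚ) + 1)⁻¹) := by
      simp only [hc']
      push_cast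
      rfl
    have h3 : tp (-(j : ℚ)⁻¹) (fun u' => tp (-(j : ℚ)⁻¹) (fun v' => c' u' v' j) v) u =
        -(tp (-(j : ℚ)⁻¹) (fun u' => tp (-(j : ℚ)⁻¹) (fun v' => c u' v' j) v) u +
        tp (-(j : ℚ)⁻¹) (fun u' => tp (-(j : ℚ)⁻¹) (fun v' => F u' v') v) u * (j : ℚ)⁻¹) :=
      tp_lin _ (fun u' v' => c u' v' j) F _ u v
    have h4 : (R' u v).eval (j : ℚ)⁻¹ = (j : ℚ)⁻¹ *
        tp (-(j : ℚ)⁻¹) (fun u' => tp (-(j : ℚ)⁻¹) (fun v' => F u' v') v) u -
        (R u v).eval (j : ℚ)⁻¹ := by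
      simp only [hR', eval_sub, eval_mul, eval_X, tpX_eval, eval_C]
    rw [h2, h3, h4, h1]
    ring
  · intro h0
    refine aP_ne_zero A N x hx ?_
    funext u
    have h1 := congrFun h0 u
    exact (mul_eq_zero.1 h1).resolve_left X_ne_zero
  · refine natDegree_mul_le.trans ?_
    rw [natDegree_X]
    have := aP_natDegree A N x u
    omega
  · have h3 : N / 2 + 1 ≤ 2 * N := by omega
    obtain ⟨b, hb1, hb2⟩ := dual N (N / 2)
      (fun u => ∑ α : A, (aP A N x α).eval (u : ℚ) * c α v u) h3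
      (fun i hi => (LF_eq A N c x i v).symm.trans (hcon i hi v v.2))
    refine ⟨-(X * b) - ∑ u : A, C (F u v) * aP A N x u, ?_, ?_⟩
    · refine (natDegree_sub_le _ _).trans (max_le ?_ ?_)
      · rw [natDegree_neg]
        refine natDegree_mul_le.trans ?_
        rw [natDegree_X]
        omega
      · refine natDegree_sum_le_of_forall_le _ _ fun u _ => ?_
        refine (natDegree_C_mul_le _ _).trans ((aP_natDegree A N x u).trans ?_)
        omega
    · intro j hj1 hj
      have hj0 : (j : ℚ) ≠ 0 := by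
        have : j ≠ 0 := by omega
        exact_mod_cast this
      have h4 := hb2 j hj
      simp only [eval_sub, eval_neg, eval_mul, eval_X, eval_finsetSum, eval_C, ← h4, hc']
      rw [Finset.mul_sum, ← Finset.sum_neg_distrib, ← Finset.sum_sub_distrib]
      refine Finset.sum_congr rfl fun u _ => ?_
      field_simp
      ring

end Pool.MZExp
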