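import Pool.Agent.Lib.MZExp.XTE

/-! MP_301213_nt, exponential growth, PHASE 2 (helper65): INVERSE FACTORIAL SERIES WITH NONNEGATIVE
COEFFICIENTS: `expd_T`. `ef s M = ek s (M + 1)`. -/

open Finset Filter Topology
open scoped ENNReal

namespace Pool.MZExp

/-! ### division by `t + m` -/

/-- `κ_n = ∏_{i < n} (s + 1 + i - m) / (s + 1 + i)` -/
noncomputable def kap (s m : ℕ) : ℕ → ℝ
  | 0 => 1
  | n + 1 => kap s m n * (((s : ℝ) + n + 1 - m) / ((s : ℝ) + n + 1))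

theorem kap_nonneg {s m : ℕ} (h : m ≤ s + 1) : ∀ n, 0 ≤ kap s m n
  | 0 => zero_le_one
  | n + 1 => by
    have h1 : (m : ℝ) ≤ (s : ℝ) + 1 := by exact_mod_cast h
    have h2 : (0 : ℝ) ≤ n := Nat.cast_nonneg _
    exact mul_nonneg (kap_nonneg h n) (div_nonneg (by linarith) (by positivity))

theorem kap_le_one {s m : ℕ} (h : m ≤ s + 1) : ∀ n, kap s m n ≤ 1
  | 0 => le_rfl
  | n + 1 => by
    have h1 : (m : ℝ) ≤ (s : ℝ) + 1 := by exact_mod_cast h
    have h2 : (0 : ℝ) ≤ n := Nat.cast_nonneg _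
    have h3 : (0 : ℝ) ≤ m := Nat.cast_nonneg _
    have h4 : ((s : ℝ) + n + 1 - m) / ((s : ℝ) + n + 1) ≤ 1 := by
      rw [div_le_one (by positivity)]
      linarith
    exact mul_le_one₀ (kap_le_one h n) (div_nonneg (by linarith) (by positivity)) h4

/-- one step: `e_r(t)/(t+m) = e_{r+1}(t)/(r+1) + ((r+1-m)/(r+1)) e_{r+1}(t)/(t+m)` -/
theorem ef_div_step (r m M : ℕ) : ef r M * ((M : ℝ) + 1 + m)⁻¹ =
    ef (r + 1) M * ((r : ℝ) + 1)⁻¹ +
      (((r : ℝ) + 1 - m) / ((r : ℝ) + 1)) * (ef (r + 1) M * ((M : ℝ) + 1 + m)⁻¹) := by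
  have h1 := ef_succ r M
  have h2 : ((M : ℝ) + 1 + m) ≠ 0 := by positivity
  have h3 : ((r : ℝ) + 1) ≠ 0 := by positivity
  have h4 : ef r M = ((M : ℝ) + 1 + ((r : ℝ) + 1)) * ef (r + 1) M / ((r : ℝ) + 1) := by
    rw [h1]
    field_simp
  rw [h4]
  field_simp
  ring

theorem ef_div_hasSum {s m : ℕ} (h : m ≤ s + 1) (M : ℕ) :
    HasSum (fun n => kap s m n * ((s : ℝ) + n + 1)⁻¹ * ef (s + n + 1) M)
      (ef s M * ((M : ℝ) + 1 + m)⁻¹) := by
  rw [hasSum_iff_tendsto_nat_of_nonneg (fun n => mul_nonneg (mul_nonneg (kap_nonneg h n)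
    (by positivity)) (ef_pos _ _).le)]
  have h1 : ∀ n, ∑ i ∈ range n, kap s m i * ((s : ℝ) + i + 1)⁻¹ * ef (s + i + 1) M =
      ef s M * ((M : ℝ) + 1 + m)⁻¹ - kap s m n * (ef (s + n) M * ((M : ℝ) + 1 + m)⁻¹) := by
    intro n
    induction n with
    | zero => simp [kap]
    | succ n ih =>
      rw [Finset.sum_range_succ, ih, kap]
      have h2 := ef_div_step (s + n) m M
      push_cast at h2
      rw [h2]
      have h3 : s + (n + 1) = s + n + 1 := by ring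
      rw [h3]
      ring
  simp_rw [h1]
  have h2 : Tendsto (fun n => kap s m n * (ef (s + n) M * ((M : ℝ) + 1 + m)⁻¹)) atTop (𝓝 0) := by
    have h3 : Tendsto (fun n => ef (s + n) M * ((M : ℝ) + 1 + m)⁻¹) atTop (𝓝 0) := by
      have h4 := ((ef_tendsto' M).comp (tendsto_add_atTop_nat s)).mul_const (((M : ℝ) + 1 + m)⁻¹)
      rw [zero_mul] at h4
      refine h4.congr fun n => ?_
      simp [Function.comp, add_comm]
    refine squeeze_zero (fun n => mul_nonneg (kap_nonneg h n)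
      (mul_nonneg (ef_pos _ _).le (by positivity))) (fun n => ?_) h3
    exact mul_le_of_le_one_left (mul_nonneg (ef_pos _ _).le (by positivity)) (kap_le_one h n)
  simpa using tendsto_const_nhds.sub h2

/-! ### the cone, in `ℝ≥0∞` -/

/-- `F(t) = ∑ g_s e_s(t)` with `g_s ≥ 0`, `g_s = 0` for `s < c` -/
def ECone (c : ℕ) (F : ℕ → ℝ≥0∞) : Prop :=
  ∃ g : ℕ → ℝ≥0∞, (∀ s, s < c → g s = 0) ∧ ∀ M, F M = ∑' s, g s * ENNReal.ofReal (ef s M)

theorem ECone.congr {c : ℕ} {F G : ℕ → ℝ≥0∞} (h : ECone c F) (h2 : ∀ M, G M = F M) : ECone c G := by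
  obtain ⟨g, h3, h4⟩ := h
  exact ⟨g, h3, fun M => by rw [h2, h4]⟩

theorem cone_ef (s : ℕ) : ECone s (fun M => ENNReal.ofReal (ef s M)) := by
  refine ⟨fun i => if i = s then 1 else 0, fun i hi => if_neg (by omega), fun M => ?_⟩
  rw [tsum_eq_single s]
  · simp
  · intro i hi
    simp [hi]

theorem ECone.sum {c : ℕ} {F : ℕ → ℕ → ℝ≥0∞} (h : ∀ k, ECone c (F k)) :
    ECone c (fun M => ∑' k, F k M) := by
  choose g hg hg2 using h
  refine ⟨fun s => ∑' k, g k s, fun s hs => ?_, fun M => ?_⟩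
  · simp [hg _ s hs]
  · simp_rw [← ENNReal.tsum_mul_right]
    rw [ENNReal.tsum_comm]
    exact tsum_congr fun k => hg2 k M

theorem ECone.const_mul {c : ℕ} {F : ℕ → ℝ≥0∞} (h : ECone c F) (a : ℝ≥0∞) :
    ECone c (fun M => a * F M) := by
  obtain ⟨g, h3, h4⟩ := h
  refine ⟨fun s => a * g s, fun s hs => ?_, fun M => ?_⟩
  · show a * g s = 0
    rw [h3 s hs, mul_zero]
  · show a * F M = _
    rw [h4, ← ENNReal.tsum_mul_left]
    exact tsum_congr fun s => (mul_assoc _ _ _).symm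

theorem ECone.mono {c c' : ℕ} (hc : c' ≤ c) {F : ℕ → ℝ≥0∞} (h : ECone c F) : ECone c' F := by
  obtain ⟨g, h3, h4⟩ := h
  exact ⟨g, fun s hs => h3 s (by omega), h4⟩

theorem cone_ef_div {s m : ℕ} (h : m ≤ s + 1) :
    ECone (s + 1) (fun M => ENNReal.ofReal (ef s M) * (((M + 1 + m : ℕ) : ℝ≥0∞))⁻¹) := by
  have h1 : ∀ M : ℕ, ENNReal.ofReal (ef s M) * (((M + 1 + m : ℕ) : ℝ≥0∞))⁻¹ =
      ∑' n, ENNReal.ofReal (kap s m n * ((s : ℝ) + n + 1)⁻¹) * ENNReal.ofReal (ef (s + n + 1) M) := by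
    intro M
    have h2 := ef_div_hasSum h M
    have h3 : ENNReal.ofReal (ef s M) * (((M + 1 + m : ℕ) : ℝ≥0∞))⁻¹ =
        ENNReal.ofReal (ef s M * ((M : ℝ) + 1 + m)⁻¹) := by
      rw [ENNReal.ofReal_mul (ef_pos s M).le, ENNReal.ofReal_inv_of_pos (by positivity)]
      congr 2
      rw [← ENNReal.ofReal_natCast]
      congr 1
      push_cast
      ring
    rw [h3, ← h2.tsum_eq, ENNReal.ofReal_tsum_of_nonneg (fun n => mul_nonneg (mul_nonneg
      (kap_nonneg h n) (by positivity)) (ef_pos _ _).le) h2.summable]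
    refine tsum_congr fun n => ?_
    rw [ENNReal.ofReal_mul (mul_nonneg (kap_nonneg h n) (by positivity))]
  refine ECone.congr (F := fun M => ∑' n, ENNReal.ofReal (kap s m n * ((s : ℝ) + n + 1)⁻¹) *
    ENNReal.ofReal (ef (s + n + 1) M)) (ECone.sum fun n => ?_) h1
  exact ((cone_ef (s + n + 1)).mono (by omega)).const_mul _

theorem ECone.div {c m : ℕ} (hm : m ≤ c + 1) {F : ℕ → ℝ≥0∞} (h : ECone c F) :
    ECone (c + 1) (fun M => F M * (((M + 1 + m : ℕ) : ℝ≥0∞))⁻¹) := by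
  obtain ⟨g, h3, h4⟩ := h
  refine ECone.congr (F := fun M => ∑' s, g s * (ENNReal.ofReal (ef s M) *
    (((M + 1 + m : ℕ) : ℝ≥0∞))⁻¹)) (ECone.sum fun s => ?_) fun M => ?_
  · rcases Nat.lt_or_ge s c with hs | hs
    · rw [h3 s hs]
      simp only [zero_mul]
      exact ⟨fun _ => 0, fun _ _ => rfl, fun M => by simp⟩
    · exact ((cone_ef_div (s := s) (m := m) (by omega)).mono (by omega)).const_mul _
  · rw [h4, ← ENNReal.tsum_mul_right]
    exact tsum_congr fun s => mul_assoc _ _ _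

/-- tail sums of an element of the cone -/
theorem cone_tail {g : ℕ → ℝ≥0∞} (h0 : g 0 = 0) {F : ℕ → ℝ≥0∞}
    (h : ∀ M, F M = ∑' s, g s * ENNReal.ofReal (ef s M)) (M : ℕ) :
    ∑' n, F (M + n) = ∑' s, g (s + 1) * ENNReal.ofReal (ef s M) := by
  simp_rw [h]
  rw [ENNReal.tsum_comm, tsum_eq_zero_add' ENNReal.summable, h0]
  simp only [zero_mul, tsum_zero, zero_add]
  refine tsum_congr fun s => ?_
  rw [ENNReal.tsum_mul_left]
  congr 1
  have h2 := ef_hasSum s M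
  rw [← h2.tsum_eq, ENNReal.ofReal_tsum_of_nonneg (fun n => (ef_pos _ _).le) h2.summable]

/-! ### the tails of multiple zeta values -/

open HofPers

theorem ECone.div_pow {c : ℕ} {F : ℕ → ℝ≥0∞} (h : ECone c F) : ∀ a : ℕ,
    ECone (c + a) (fun M => F M * ((((M + 1 : ℕ) : ℝ≥0∞)) ^ a)⁻¹)
  | 0 => h.congr fun M => by simp
  | a + 1 => by
    have h1 := (ECone.div_pow h a).div (m := 0) (Nat.zero_le _)
    refine ECone.congr (c := c + (a + 1)) h1 fun M => ?_
    rw [pow_succ, add_zero, ENNReal.mul_inv (Or.inr (ENNReal.natCast_ne_top _))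
      (Or.inr (by simp)), mul_assoc]

/-- `h_l(t) = ∑ c_s e_s(t+1)` -/
theorem tail_expand : ∀ {l : List ℕ} (_ : Adm1 l) (_ : l ≠ []),
    ∃ c : ℕ → ℝ≥0∞, ∀ M, TE l M = ∑' k, c k * ENNReal.ofReal (ef k M)
  | [], _, h0 => absurd rfl h0
  | (a :: l), h, _ => by
    -- the summand is in the cone, index at least one
    have key : ECone 1 (fun m => ((((m + 1 : ℕ) : ℝ≥0∞)) ^ a)⁻¹ * TE l (m + 1)) := by
      cases l with
      | nil =>
        have ha : 2 ≤ a := adm1_single.1 h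
        obtain ⟨b, rfl⟩ : ∃ b, a = b + 2 := ⟨a - 2, by omega⟩
        have h1 := (cone_ef 0).div_pow (b + 1)
        refine (h1.mono (c' := 1) (by omega)).congr fun m => ?_
        have h2 : ENNReal.ofReal (ef 0 m) = (((m + 1 : ℕ) : ℝ≥0∞))⁻¹ := by
          rw [ef_zero]
          have h5 : ((m : ℝ) + 1) = ((m + 1 : ℕ) : ℝ) := by push_cast; ring
          rw [h5, ENNReal.ofReal_inv_of_pos (by positivity), ENNReal.ofReal_natCast]
        rw [TE, mul_one, h2, ← ENNReal.mul_inv (Or.inl (by simp))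
          (Or.inl (ENNReal.natCast_ne_top _)), ← pow_succ']
      | cons b l =>
        have ha : 1 ≤ a := h.head
        obtain ⟨a', rfl⟩ : ∃ a', a = a' + 1 := ⟨a - 1, by omega⟩
        obtain ⟨c, hc⟩ := tail_expand h.tail (by simp)
        have h1 : ECone 1 (fun m => (((m + 1 : ℕ) : ℝ≥0∞))⁻¹ * TE (b :: l) (m + 1)) := by
          refine ECone.congr (F := fun m => ∑' k, (c k * ENNReal.ofReal (((k : ℝ) + 1)⁻¹)) *
            ENNReal.ofReal (ef (k + 1) m)) (ECone.sum fun k =>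
              ((cone_ef (k + 1)).mono (by omega)).const_mul _) fun m => ?_
          rw [hc, ← ENNReal.tsum_mul_left]
          refine tsum_congr fun k => ?_
          have h2 := ef_shift k m
          have h3 : (((m + 1 : ℕ) : ℝ≥0∞))⁻¹ * ENNReal.ofReal (ef k (m + 1)) =
              ENNReal.ofReal (((k : ℝ) + 1)⁻¹) * ENNReal.ofReal (ef (k + 1) m) := by
            rw [← ENNReal.ofReal_mul (by positivity), ← h2, ENNReal.ofReal_mul (by positivity)]
            congr 1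
            have h5 : ((m : ℝ) + 1) = ((m + 1 : ℕ) : ℝ) := by push_cast; ring
            rw [h5, ENNReal.ofReal_inv_of_pos (by positivity), ENNReal.ofReal_natCast]
          rw [mul_left_comm, h3, mul_assoc]
        refine ((h1.div_pow a').mono (c' := 1) (by omega)).congr fun m => ?_
        rw [pow_succ, ENNReal.mul_inv (Or.inr (ENNReal.natCast_ne_top _)) (Or.inr (by simp))]
        ring
    obtain ⟨g, hg0, hg⟩ := key
    refine ⟨fun s => g (s + 1), fun M => ?_⟩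
    rw [TE_cons_tail, ← cone_tail (hg0 0 one_pos) hg M]

/-- `e_k h_l` is in the cone, `l ≠ []` -/
theorem prod_cone {l : List ℕ} (h : Adm1 l) (h0 : l ≠ []) (k : ℕ) :
    ECone (k + 1) (fun M => ENNReal.ofReal (ef k M) * TE l (M + 1)) := by
  induction k with
  | zero =>
    obtain ⟨c, hc⟩ := tail_expand h h0
    refine ECone.congr (F := fun m => ∑' k, (c k * ENNReal.ofReal (((k : ℝ) + 1)⁻¹)) *
      ENNReal.ofReal (ef (k + 1) m)) (ECone.sum fun k =>
        ((cone_ef (k + 1)).mono (by omega)).const_mul _) fun m => ?_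
    rw [hc, ← ENNReal.tsum_mul_left]
    refine tsum_congr fun k => ?_
    have h2 := ef_shift k m
    have h3 : ENNReal.ofReal (ef 0 m) * ENNReal.ofReal (ef k (m + 1)) =
        ENNReal.ofReal (((k : ℝ) + 1)⁻¹) * ENNReal.ofReal (ef (k + 1) m) := by
      rw [← ENNReal.ofReal_mul (ef_pos 0 m).le, ef_zero, h2, ENNReal.ofReal_mul (by positivity)]
    rw [mul_left_comm, h3, mul_assoc]
  | succ k ih =>
    have h1 := (ih.div (m := k + 1) (by omega)).const_mul (ENNReal.ofReal ((k : ℝ) + 1))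
    refine h1.congr fun M => ?_
    have h2 : ef (k + 1) M = ((k : ℝ) + 1) * (ef k M * ((M : ℝ) + 1 + ((k : ℝ) + 1))⁻¹) := by
      rw [← mul_assoc, ← ef_succ]
      have : ((M : ℝ) + 1 + ((k : ℝ) + 1)) ≠ 0 := by positivity
      field_simp
    have h3 : ENNReal.ofReal (((M : ℝ) + 1 + ((k : ℝ) + 1))⁻¹) =
        (((M + 1 + (k + 1) : ℕ) : ℝ≥0∞))⁻¹ := by
      have h5 : ((M : ℝ) + 1 + ((k : ℝ) + 1)) = ((M + 1 + (k + 1) : ℕ) : ℝ) := by push_cast; ring
      rw [h5, ENNReal.ofReal_inv_of_pos (by positivity), ENNReal.ofReal_natCast]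
    rw [h2, ENNReal.ofReal_mul (by positivity), ENNReal.ofReal_mul (ef_pos _ _).le, h3]
    ring

/-- from the cone to real expansions -/
theorem ECone.real {c : ℕ} {F : ℕ → ℝ≥0∞} (h : ECone c F) (h1 : ∀ M, F M ≠ ∞) :
    ∃ g : ℕ → ℝ, (∀ i, 0 ≤ g i) ∧ (∀ i, i < c → g i = 0) ∧
      ∀ M, HasSum (fun i => g i * ef i M) (F M).toReal := by
  obtain ⟨g, hg0, hg⟩ := h
  have h2 : ∀ i, g i ≠ ∞ := by
    intro i hi
    have h3 : g i * ENNReal.ofReal (ef i 0) ≤ F 0 := by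
      rw [hg]
      exact ENNReal.le_tsum i
    rw [hi, ENNReal.top_mul (by simpa using ef_pos i 0)] at h3
    exact h1 0 (top_le_iff.1 h3)
  refine ⟨fun i => (g i).toReal, fun i => ENNReal.toReal_nonneg, fun i hi => by
    show (g i).toReal = 0
    rw [hg0 i hi, ENNReal.toReal_zero], fun M => ?_⟩
  have h3 : ∀ i, (g i * ENNReal.ofReal (ef i M)).toReal = (g i).toReal * ef i M := by
    intro i
    rw [ENNReal.toReal_mul, ENNReal.toReal_ofReal (ef_pos i M).le]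
  have h4 : ∑' i, g i * ENNReal.ofReal (ef i M) ≠ ∞ := by
    rw [← hg]
    exact h1 M
  have h5 := ENNReal.summable_toReal h4
  have h6 := ENNReal.tsum_toReal_eq (fun i => ENNReal.mul_ne_top (h2 i)
    (ENNReal.ofReal_ne_top (r := ef i M)))
  rw [← hg] at h6
  simp only [h3] at h5 h6
  rw [h6]
  exact h5.hasSum

/-- nonnegative coefficients: bounds for the coefficients and the tails -/
theorem expd_of_hasSum {C : ℝ} {k : ℕ} {F : ℕ → ℝ} {g : ℕ → ℝ} (h0 : ∀ i, 0 ≤ g i)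
    (h1 : ∀ i, i < k → g i = 0) (h2 : ∀ M, HasSum (fun i => g i * ef i M) (F (M + 1)))
    (hC : F 1 ≤ C) : Expd C k F := by
  have hs : HasSum (fun i => g i * ((i : ℝ) + 1)⁻¹) (F 1) := by
    have := h2 0
    simpa only [ef_at_zero] using this
  have hb : ∀ i, g i * ((i : ℝ) + 1)⁻¹ ≤ C := fun i =>
    (le_hasSum hs i fun j _ => mul_nonneg (h0 j) (by positivity)).trans hC
  refine ⟨g, h0, h1, fun i => ?_, fun t ht V => ?_⟩
  · have h3 := hb i
    have h4 : (0 : ℝ) < (i : ℝ) + 1 := by positivity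
    rw [← div_eq_mul_inv, div_le_iff₀ h4] at h3
    linarith
  · obtain ⟨M, rfl⟩ : ∃ M, t = M + 1 := ⟨t - 1, by omega⟩
    simp only [← ef_eq]
    have h3 := h2 M
    have h4 : HasSum (fun i => g (i + V) * ef (i + V) M)
        (F (M + 1) - ∑ i ∈ range V, g i * ef i M) := (hasSum_nat_add_iff' V).2 h3
    have h5 : 0 ≤ F (M + 1) - ∑ i ∈ range V, g i * ef i M :=
      h4.nonneg fun i => mul_nonneg (h0 _) (ef_pos _ _).le
    rw [abs_of_nonneg h5]
    have h6 : HasSum (fun i => g (i + V) * ((((i + V : ℕ) : ℝ)) + 1)⁻¹)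
        (F 1 - ∑ i ∈ range V, g i * ((i : ℝ) + 1)⁻¹) := (hasSum_nat_add_iff' V).2 hs
    have h7 := h6.mul_right (((V : ℝ) + 1) * ef V M)
    have h8 : F (M + 1) - ∑ i ∈ range V, g i * ef i M ≤
        (F 1 - ∑ i ∈ range V, g i * ((i : ℝ) + 1)⁻¹) * (((V : ℝ) + 1) * ef V M) := by
      refine hasSum_le (fun i => ?_) h4 h7
      have h9 := ef_mono (V := V) (i := i + V) (by omega) M
      have h10 : (0 : ℝ) < ((i + V : ℕ) : ℝ) + 1 := by positivity
      rw [mul_assoc]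
      refine mul_le_mul_of_nonneg_left ?_ (h0 _)
      rw [inv_mul_eq_div, le_div_iff₀ h10]
      linarith
    have h11 : 0 ≤ ∑ i ∈ range V, g i * ((i : ℝ) + 1)⁻¹ :=
      Finset.sum_nonneg fun i _ => mul_nonneg (h0 i) (by positivity)
    have h12 : 0 ≤ ((V : ℝ) + 1) * ef V M := mul_nonneg (by positivity) (ef_pos _ _).le
    calc F (M + 1) - ∑ i ∈ range V, g i * ef i M
        ≤ (F 1 - ∑ i ∈ range V, g i * ((i : ℝ) + 1)⁻¹) * (((V : ℝ) + 1) * ef V M) := h8
      _ ≤ C * (((V : ℝ) + 1) * ef V M) := mul_le_mul_of_nonneg_right (by linarith) h12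
      _ = C * ((V : ℝ) + 1) * ef V M := by ring

/-- the expansion of `e_k h_l` -/
theorem hasSum_T {l : List ℕ} (h : Adm1 l) (k : ℕ) :
    ∃ g : ℕ → ℝ, (∀ i, 0 ≤ g i) ∧ (∀ i, i < k → g i = 0) ∧
      ∀ M, HasSum (fun i => g i * ef i M) (ek k (M + 1) * HofPers.T l (M + 1)) := by
  have h1 : ECone k (fun M => ENNReal.ofReal (ef k M) * TE l (M + 1)) := by
    rcases eq_or_ne l [] with rfl | h0
    · refine (cone_ef k).congr fun M => ?_
      rw [TE, mul_one]
    · exact (prod_cone h h0 k).mono (by omega)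
  obtain ⟨g, h2, h3, h4⟩ := h1.real fun M =>
    ENNReal.mul_ne_top ENNReal.ofReal_ne_top (TE_ne_top1 h _)
  refine ⟨g, h2, h3, fun M => ?_⟩
  have h5 := h4 M
  rwa [ENNReal.toReal_mul, ENNReal.toReal_ofReal (ef_pos _ _).le, ef_eq] at h5

theorem cone_T {l : List ℕ} (h : Adm1 l) (m : ℕ) : Cone m (fun t => ek m t * HofPers.T l t) := by
  obtain ⟨g, h2, h3, h4⟩ := hasSum_T h m
  refine ⟨g, h2, h3, fun t ht => ?_⟩
  have h5 := h4 (t - 1)
  simp only [ef_eq] at h5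
  rwa [Nat.sub_add_cancel ht] at h5

theorem expd_T {l : List ℕ} (h : Adm1 l) (k : ℕ) :
    Expd (HofPers.T l 1) k (fun t => ek k t * HofPers.T l t) := by
  obtain ⟨g, h2, h3, h4⟩ := hasSum_T h k
  refine expd_of_hasSum h2 h3 h4 ?_
  have h5 := xc_ek_le (le_refl 1) k
  have h6 : ((k : ℝ) + 1)⁻¹ ≤ 1 := by
    rw [inv_le_one₀ (by positivity)]
    have : (0 : ℝ) ≤ k := Nat.cast_nonneg _
    linarith
  calc ek k 1 * HofPers.T l 1 ≤ 1 * HofPers.T l 1 :=
        mul_le_mul_of_nonneg_right (h5.trans h6) (T_nonneg l 1)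
    _ = _ := one_mul _

end Pool.MZExp
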