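import Pool.Agent.Lib.MZExp.XFPf
import Pool.Agent.Lib.MZExp.ZDefs

/-! MODULE XFRec (about 200 lines). MP_301213_nt, exponential growth, PHASE 2 (helper41). The shift recursion of `φ (ct u v j)`, `j ≥ 1`.
TEMPLATE: MZExp/CcRec.lean.

PROOF. Apply φ to `ct_step` and `Wt_pf` (j ≥ 1). For one term: φ (Wt a l v j) = (-1)^a (j^a)⁻¹ φ (ct l v j) + ∑_{i ∈ Ico 1 a} (-1)^(a-1-i) (j^(a-i))⁻¹ φ (Zt (i+1) l v) = (-(j⁻¹))^a φ (ct l v j) + (Rm a l v).eval j⁻¹,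
 Rm a l v = ∑_{i ∈ Ico 1 a} C ((-1)^(a-1-i) φ (Zt (i+1) l v)) X^(a-i) : natDegree ≤ a - 1, coeff 0 = 0 (a - i ≥ 1). (φ ((r:ℝ) x) = r φ x for r : ℚ: phi_mul in CcRec.)
Define R [] [] = 0, R (a::l) [] = Rm a l [], R [] (b::v) = Rm b [] v, R (a::l) (b::v) = Rm a l (b::v) + Rm b (a::l) v + Rm (a+b) l v. And
 tp x (fun u' => tp x (fun v' => c u' v') (b::v)) (a::l) = c (a::l) (b::v) + x^b c (a::l) v + x^a c l (b::v) + x^(a+b) c l v with x = -(j⁻¹); tp x f [] = f []. -/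

open HofPers Finset Polynomial Pool.MZDim

namespace Pool.MZExp

private theorem xfrec_phi (φ : ℝ →ₗ[ℚ] ℚ) (r : ℚ) (x : ℝ) : φ ((r : ℝ) * x) = r * φ x := by
  rw [← Rat.smul_def, φ.map_smul, smul_eq_mul]

/-- the polynomial in `1/j` of one term -/
private noncomputable def xfrecRm (φ : ℝ →ₗ[ℚ] ℚ) (a : ℕ) (l v : List ℕ) : ℚ[X] :=
  ∑ i ∈ Ico 1 a, C ((-1) ^ (a - 1 - i) * φ (Zt (i + 1) l v)) * X ^ (a - i)

private theorem xfrecRm_deg (φ : ℝ →ₗ[ℚ] ℚ) (a : ℕ) (l v : List ℕ) :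
    (xfrecRm φ a l v).natDegree ≤ a := by
  unfold xfrecRm
  refine natDegree_sum_le_of_forall_le _ _ fun i _ => ?_
  exact (natDegree_C_mul_X_pow_le _ _).trans (by omega)

private theorem xfrecRm_zero (φ : ℝ →ₗ[ℚ] ℚ) (a : ℕ) (l v : List ℕ) :
    (xfrecRm φ a l v).coeff 0 = 0 := by
  unfold xfrecRm
  rw [finsetSum_coeff]
  refine Finset.sum_eq_zero fun i hi => ?_
  have h1 := Finset.mem_Ico.1 hi
  rw [coeff_C_mul, coeff_X_pow, if_neg (by omega), mul_zero]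

private theorem xfrec_W (φ : ℝ →ₗ[ℚ] ℚ) {l v : List ℕ} (hl : Adm1 l) (hv : Adm1 v) {a : ℕ}
    (ha : 1 ≤ a) {j : ℕ} (hj : 1 ≤ j) :
    φ (Wt a l v j) = (-(j : ℚ)⁻¹) ^ a * φ (ct l v j) + (xfrecRm φ a l v).eval (j : ℚ)⁻¹ := by
  rw [Wt_pf hl hv ha hj, map_add, map_sum, xfrecRm, eval_finsetSum]
  congr 1
  · have h1 := xfrec_phi φ ((-(j : ℚ)⁻¹) ^ a) (ct l v j)
    rw [← h1]
    congr 1
    push_cast
    rw [← inv_pow, ← mul_pow]
    ring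
  · refine Finset.sum_congr rfl fun i _ => ?_
    have h1 := xfrec_phi φ ((-1) ^ (a - 1 - i) * ((j : ℚ)⁻¹) ^ (a - i)) (Zt (i + 1) l v)
    simp only [eval_mul, eval_C, eval_pow, eval_X]
    have h2 : ((-1 : ℝ) ^ (a - 1 - i) * ((j : ℝ) ^ (a - i))⁻¹ * Zt (i + 1) l v) =
        (((-1) ^ (a - 1 - i) * ((j : ℚ)⁻¹) ^ (a - i) : ℚ) : ℝ) * Zt (i + 1) l v := by
      push_cast
      rw [← inv_pow]
    rw [h2, h1]
    ring

/-- the remainder polynomials -/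
private noncomputable def xfrecR (φ : ℝ →ₗ[ℚ] ℚ) : List ℕ → List ℕ → ℚ[X]
  | [], [] => 0
  | a :: l, [] => xfrecRm φ a l []
  | [], b :: v => xfrecRm φ b [] v
  | a :: l, b :: v => xfrecRm φ a l (b :: v) + xfrecRm φ b (a :: l) v + xfrecRm φ (a + b) l v

private theorem xfrecR_zero (φ : ℝ →ₗ[ℚ] ℚ) (u v : List ℕ) : (xfrecR φ u v).coeff 0 = 0 := by
  rcases u with _ | ⟨a, l⟩ <;> rcases v with _ | ⟨b, v⟩
  · simp [xfrecR]
  · exact xfrecRm_zero _ _ _ _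
  · exact xfrecRm_zero _ _ _ _
  · simp only [xfrecR, coeff_add, xfrecRm_zero, add_zero]

private theorem xfrecR_deg (φ : ℝ →ₗ[ℚ] ℚ) (u v : List ℕ) :
    (xfrecR φ u v).natDegree ≤ u.sum + v.sum := by
  rcases u with _ | ⟨a, l⟩ <;> rcases v with _ | ⟨b, v⟩
  · simp [xfrecR]
  · simp only [xfrecR, List.sum_nil, List.sum_cons]
    exact (xfrecRm_deg _ _ _ _).trans (by omega)
  · simp only [xfrecR, List.sum_nil, List.sum_cons]
    exact (xfrecRm_deg _ _ _ _).trans (by omega)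
  · simp only [xfrecR, List.sum_cons]
    refine (natDegree_add_le _ _).trans (max_le ?_ ?_)
    · refine (natDegree_add_le _ _).trans (max_le ?_ ?_)
      · exact (xfrecRm_deg _ _ _ _).trans (by omega)
      · exact (xfrecRm_deg _ _ _ _).trans (by omega)
    · exact (xfrecRm_deg _ _ _ _).trans (by omega)

theorem ct_rec (φ : ℝ →ₗ[ℚ] ℚ) :
    ∃ R : List ℕ → List ℕ → ℚ[X], R [] [] = 0 ∧ (∀ u v, (R u v).coeff 0 = 0) ∧
      (∀ u v, (R u v).natDegree ≤ u.sum + v.sum) ∧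
      ∀ (j : ℕ), 1 ≤ j → ∀ (u v : List ℕ), Adm1 u → Adm1 v →
      φ (ct u v (j + 1)) =
        tp (-(j : ℚ)⁻¹) (fun u' => tp (-(j : ℚ)⁻¹) (fun v' => φ (ct u' v' j)) v) u
          + (R u v).eval (j : ℚ)⁻¹ - φ (T u 0 * T v 0) * ((j : ℚ) + 1)⁻¹ := by
  refine ⟨xfrecR φ, rfl, xfrecR_zero φ, xfrecR_deg φ, ?_⟩
  intro j hj u v hu hv
  have h1 := congrArg φ (ct_step hu hv j)
  have h2 : φ (T u 0 * T v 0 * ((j : ℝ) + 1)⁻¹) = φ (T u 0 * T v 0) * ((j : ℚ) + 1)⁻¹ := by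
    have h3 := xfrec_phi φ ((j : ℚ) + 1)⁻¹ (T u 0 * T v 0)
    push_cast at h3
    rw [mul_comm (T u 0 * T v 0), h3, mul_comm]
  rw [h1, map_add, map_sub, h2]
  rcases u with _ | ⟨a, l⟩ <;> rcases v with _ | ⟨b, w⟩
  · simp only [tp, Ws, xfrecR, map_zero, eval_zero]
    ring
  · simp only [tp, Ws, xfrecR]
    rw [xfrec_W φ adm1_nil hv.tail hv.head hj]
    ring
  · simp only [tp, Ws, xfrecR]
    rw [xfrec_W φ hu.tail adm1_nil hu.head hj]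
    ring
  · have hab : 1 ≤ a + b := by have := hu.head; omega
    simp only [tp, Ws, xfrecR, map_add, eval_add]
    rw [xfrec_W φ hu.tail hv hu.head hj, xfrec_W φ hu hv.tail hv.head hj,
      xfrec_W φ hu.tail hv.tail hab hj, pow_add]
    ring

end Pool.MZExp
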