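import Pool.Agent.Lib.MZExp.XFDefs

/-! MODULE XFRp. MP_301213_nt, exponential growth, PHASE 2 (helper41). Closure properties of `Rep1 n k B x`. -/

open HofPers Finset Pool.MZDim

namespace Pool.MZExp

private theorem adm_nilR : Adm1 [] := adm1_nil

/-- the sums over a larger set -/
private theorem sum_ext {b : List ℕ →₀ ℚ} {s : Finset (List ℕ)} (hs : b.support ⊆ s)
    (F : List ℕ → ℚ → ℝ) (h0 : ∀ l, F l 0 = 0) :
    ∑ l ∈ b.support, F l (b l) = ∑ l ∈ s, F l (b l) := by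
  refine Finset.sum_subset hs fun l _ hl => ?_
  rw [Finsupp.notMem_support_iff.1 hl, h0]

/-- sufficient conditions with sums over a larger set -/
private theorem rep1_of {n k : ℕ} {B x : ℝ} (b : List ℕ →₀ ℚ) (s : Finset (List ℕ))
    (hs : b.support ⊆ s) (h1 : ∀ l, b l ≠ 0 → Adm1 l ∧ l.sum ≤ k)
    (h2 : ∀ l, ∃ z : ℤ, ((Nat.lcmUpto n : ℕ) : ℚ) ^ k * b l = z)
    (h3 : ∑ l ∈ s, |((b l : ℚ) : ℝ)| ≤ B) (h4 : ∑ l ∈ s, ((b l : ℚ) : ℝ) * T l 0 = x) :
    Rep1 n k B x := by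
  refine ⟨b, fun l hl => h1 l (Finsupp.mem_support_iff.1 hl), h2, ?_, ?_⟩
  · rw [sum_ext hs (fun _ t => |((t : ℚ) : ℝ)|) (by simp)]
    exact h3
  · rw [sum_ext hs (fun l t => ((t : ℚ) : ℝ) * T l 0) (by simp)]
    exact h4

theorem rep1_T {n k : ℕ} {l : List ℕ} (hl : Adm1 l) (hk : l.sum ≤ k) : Rep1 n k 1 (T l 0) := by
  classical
  refine rep1_of (Finsupp.single l 1) {l} Finsupp.support_single_subset ?_ ?_ ?_ ?_
  · intro l' h
    have h2 : l' = l := by
      by_contra h3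
      exact h (Finsupp.single_eq_of_ne h3)
    rw [h2]
    exact ⟨hl, hk⟩
  · intro l'
    by_cases h : l' = l
    · refine ⟨(Nat.lcmUpto n : ℤ) ^ k, ?_⟩
      rw [h, Finsupp.single_eq_same]
      push_cast
      ring
    · refine ⟨0, ?_⟩
      rw [Finsupp.single_eq_of_ne h]
      simp
  · rw [Finset.sum_singleton, Finsupp.single_eq_same]
    simp
  · rw [Finset.sum_singleton, Finsupp.single_eq_same]
    simp

theorem rep1_one (n k : ℕ) : Rep1 n k 1 1 := by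
  have h := rep1_T (n := n) (k := k) adm_nilR (by simp)
  rwa [T_nil] at h

theorem rep1_zero (n k : ℕ) : Rep1 n k 0 0 := by
  refine rep1_of 0 ∅ (by simp) ?_ ?_ ?_ ?_
  · intro l hl
    simp at hl
  · intro l
    exact ⟨0, by simp⟩
  · simp
  · simp

theorem rep1_mono {n k k' : ℕ} {B B' x : ℝ} (h : Rep1 n k B x) (hk : k ≤ k') (hB : B ≤ B') :
    Rep1 n k' B' x := by
  obtain ⟨b, h1, h2, h3, h4⟩ := h
  refine ⟨b, fun l hl => ⟨(h1 l hl).1, (h1 l hl).2.trans hk⟩, ?_, h3.trans hB, h4⟩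
  intro l
  obtain ⟨z, hz⟩ := h2 l
  refine ⟨(Nat.lcmUpto n : ℤ) ^ (k' - k) * z, ?_⟩
  push_cast
  rw [← hz, ← mul_assoc, ← pow_add, Nat.sub_add_cancel hk]

theorem rep1_add {n k : ℕ} {B B' x y : ℝ} (h : Rep1 n k B x) (h' : Rep1 n k B' y) :
    Rep1 n k (B + B') (x + y) := by
  classical
  obtain ⟨b, h1, h2, h3, h4⟩ := h
  obtain ⟨c, g1, g2, g3, g4⟩ := h'
  rw [sum_ext (Finset.subset_union_left (s₂ := c.support))
    (fun _ t => |((t : ℚ) : ℝ)|) (by simp)] at h3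
  rw [sum_ext (Finset.subset_union_left (s₂ := c.support))
    (fun l t => ((t : ℚ) : ℝ) * T l 0) (by simp)] at h4
  rw [sum_ext (Finset.subset_union_right (s₁ := b.support))
    (fun _ t => |((t : ℚ) : ℝ)|) (by simp)] at g3
  rw [sum_ext (Finset.subset_union_right (s₁ := b.support))
    (fun l t => ((t : ℚ) : ℝ) * T l 0) (by simp)] at g4
  refine rep1_of (b + c) (b.support ∪ c.support) Finsupp.support_add ?_ ?_ ?_ ?_
  · intro l hl
    by_cases hb : b l = 0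
    · have hc : c l ≠ 0 := by
        intro hc
        apply hl
        rw [Finsupp.add_apply, hb, hc, add_zero]
      exact g1 l (Finsupp.mem_support_iff.2 hc)
    · exact h1 l (Finsupp.mem_support_iff.2 hb)
  · intro l
    obtain ⟨z, hz⟩ := h2 l
    obtain ⟨w, hw⟩ := g2 l
    refine ⟨z + w, ?_⟩
    rw [Finsupp.add_apply, mul_add, hz, hw]
    push_cast
    ring
  · refine le_trans ?_ (add_le_add h3 g3)
    rw [← Finset.sum_add_distrib]
    refine Finset.sum_le_sum fun l _ => ?_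
    rw [Finsupp.add_apply]
    push_cast
    exact abs_add_le _ _
  · rw [← h4, ← g4, ← Finset.sum_add_distrib]
    refine Finset.sum_congr rfl fun l _ => ?_
    rw [Finsupp.add_apply]
    push_cast
    ring

/-- multiplication by a rational number -/
private theorem rep1_smul {n k k' : ℕ} {B x : ℝ} (h : Rep1 n k B x) (hk : k ≤ k') (t : ℚ)
    (ht : ∃ z : ℤ, ((Nat.lcmUpto n : ℕ) : ℚ) ^ (k' - k) * t = z) :
    Rep1 n k' (|(t : ℝ)| * B) ((t : ℝ) * x) := by
  classical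
  obtain ⟨b, h1, h2, h3, h4⟩ := h
  refine rep1_of (t • b) b.support Finsupp.support_smul ?_ ?_ ?_ ?_
  · intro l hl
    have hb : b l ≠ 0 := by
      intro hb
      apply hl
      rw [Finsupp.smul_apply, hb, smul_zero]
    obtain ⟨h5, h6⟩ := h1 l (Finsupp.mem_support_iff.2 hb)
    exact ⟨h5, h6.trans hk⟩
  · intro l
    obtain ⟨z, hz⟩ := h2 l
    obtain ⟨w, hw⟩ := ht
    refine ⟨w * z, ?_⟩
    rw [Finsupp.smul_apply, smul_eq_mul]
    push_cast
    rw [← hz, ← hw]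
    have h5 : ((Nat.lcmUpto n : ℕ) : ℚ) ^ k' =
        ((Nat.lcmUpto n : ℕ) : ℚ) ^ (k' - k) * ((Nat.lcmUpto n : ℕ) : ℚ) ^ k := by
      rw [← pow_add, Nat.sub_add_cancel hk]
    rw [h5]
    ring
  · refine le_trans (le_of_eq ?_) (mul_le_mul_of_nonneg_left h3 (abs_nonneg _))
    rw [Finset.mul_sum]
    refine Finset.sum_congr rfl fun l _ => ?_
    rw [Finsupp.smul_apply, smul_eq_mul]
    push_cast
    exact abs_mul _ _
  · rw [← h4, Finset.mul_sum]
    refine Finset.sum_congr rfl fun l _ => ?_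
    rw [Finsupp.smul_apply, smul_eq_mul]
    push_cast
    ring

theorem rep1_zmul {n k : ℕ} {B x : ℝ} (h : Rep1 n k B x) (z : ℤ) :
    Rep1 n k (|(z : ℝ)| * B) ((z : ℝ) * x) := by
  have h1 := rep1_smul h (le_refl k) (z : ℚ) ⟨z, by simp⟩
  simpa using h1

theorem rep1_nonneg {n k : ℕ} {B x : ℝ} (h : Rep1 n k B x) : 0 ≤ B := by
  obtain ⟨b, _, _, h3, _⟩ := h
  exact le_trans (Finset.sum_nonneg fun l _ => abs_nonneg _) h3

theorem rep1_div {n k : ℕ} {B x : ℝ} (h : Rep1 n k B x) {v : ℕ} (hv1 : 1 ≤ v) (hv : v ≤ n) :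
    Rep1 n (k + 1) B (x / v) := by
  have hv0 : (v : ℚ) ≠ 0 := by
    have : v ≠ 0 := by omega
    exact_mod_cast this
  have hd : v ∣ Nat.lcmUpto n := by
    unfold Nat.lcmUpto
    exact Finset.dvd_lcm (f := id) (Finset.mem_Icc.2 ⟨hv1, hv⟩)
  obtain ⟨w, hw⟩ := hd
  have h1 := rep1_smul h (Nat.le_succ k) ((v : ℚ)⁻¹) ⟨w, by
    rw [Nat.succ_sub (le_refl k), Nat.sub_self, pow_one, hw]
    push_cast
    field_simp⟩
  have h2 : (((v : ℚ)⁻¹ : ℚ) : ℝ) * x = x / v := by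
    push_cast
    rw [div_eq_inv_mul]
  rw [h2] at h1
  refine rep1_mono h1 le_rfl ?_
  have h3 : |(((v : ℚ)⁻¹ : ℚ) : ℝ)| ≤ 1 := by
    push_cast
    rw [abs_of_nonneg (by positivity)]
    apply inv_le_one_of_one_le₀
    exact_mod_cast hv1
  calc |(((v : ℚ)⁻¹ : ℚ) : ℝ)| * B ≤ 1 * B := mul_le_mul_of_nonneg_right h3 (rep1_nonneg h)
    _ = B := one_mul B

theorem rep1_div_pow {n k : ℕ} {B x : ℝ} (h : Rep1 n k B x) {v : ℕ} (hv1 : 1 ≤ v) (hv : v ≤ n)
    (j : ℕ) : Rep1 n (k + j) B (x / (v : ℝ) ^ j) := by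
  induction j with
  | zero => simpa using h
  | succ j ih =>
    have h1 := rep1_div ih hv1 hv
    rw [div_div, ← pow_succ] at h1
    exact h1

theorem rep1_sum {n k : ℕ} {ι : Type*} (s : Finset ι) (B x : ι → ℝ)
    (h : ∀ i ∈ s, Rep1 n k (B i) (x i)) : Rep1 n k (∑ i ∈ s, B i) (∑ i ∈ s, x i) := by
  classical
  induction s using Finset.induction_on with
  | empty => simpa using rep1_zero n k
  | insert a s ha ih =>
    rw [Finset.sum_insert ha, Finset.sum_insert ha]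
    exact rep1_add (h a (Finset.mem_insert_self a s))
      (ih fun i hi => h i (Finset.mem_insert_of_mem hi))

end Pool.MZExp
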