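import Pool.Agent.Lib.MZExp.XFPf
import Pool.Agent.Lib.MZExp.XFRp

/-! MODULE XFInd (about 150 lines). MP_301213_nt, exponential growth, PHASE 2 (helper41). `ct l [] u` is representable.
TEMPLATE: MZDim/RInd.lean (copy ri_step, ri_neg, ri_sgn, ri_Bl_one, ri_Bl_cons; `Bl` is the one of MZDim/RDefs).

PROOF. Induction on l, for all u ≤ n. `ct_zero`: ct l [] 0 = 0, rep1_zero. Step u → u + 1 ≤ n (ri_step with B0 = 0, B1 = (c+1)^2 * Bl n l'):
l = []: ct_step: ct [] [] (u+1) - ct [] [] u = -(1 * 1 * (u+1)⁻¹) + 0: rep1_one n 0, rep1_div (v = u + 1 ≤ n), sign: Rep1 n 1 1; total bound n ≤ Bl n [] = (n+2) * 9.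
l = c :: l', c ≥ 1 (Adm1.head), l' Adm1 (Adm1.tail), B' = Bl n l' ≥ 1. ct_step (v = [], T_nil): the increment is -(T (c::l') 0)/(u+1) + Wt c l' [] u. The first term: rep1_T (weight l.sum),
 rep1_div: counter l.sum + 1, bound 1. Wt for u = 0: Wt_zero, Zt_nil (c + 1 ≥ 2): T ((c+1) :: l') 0, weight l.sum + 1, bound 1. Wt for u ≥ 1 (Wt_pf, Zt_nil for i + 1 ≥ 2, i ∈ Ico 1 c; (i+1) :: l' is Adm1):
 T ((i+1) :: l') 0 / u^(c-i): counter i + 1 + l'.sum + c - i = l.sum + 1; ct l' [] u / u^c: counter l'.sum + 1 + c, bound B'. Total ≤ 1 + (c-1) + B' ≤ (c+1)^2 B' . Then ri_Bl_cons. -/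

open HofPers Finset Pool.MZDim

namespace Pool.MZExp

private theorem xfind_step {n k : ℕ} {F : ℕ → ℝ} {B0 B1 : ℝ} (hB : 0 ≤ B1)
    (h0 : Rep1 n k B0 (F 0))
    (hs : ∀ u, u + 1 ≤ n → Rep1 n k B1 (F (u + 1) - F u)) (u : ℕ) (hu : u ≤ n) :
    Rep1 n k (B0 + n * B1) (F u) := by
  have key : ∀ u, u ≤ n → Rep1 n k (B0 + u * B1) (F u) := by
    intro u
    induction u with
    | zero =>
      intro _
      simpa using h0
    | succ u ih =>
      intro hu
      have h1 := rep1_add (ih (by omega)) (hs u hu)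
      have e1 : F u + (F (u + 1) - F u) = F (u + 1) := by ring
      rw [e1] at h1
      refine rep1_mono h1 le_rfl (le_of_eq ?_)
      push_cast
      ring
  refine rep1_mono (key u hu) le_rfl ?_
  have h2 : (u : ℝ) ≤ n := by exact_mod_cast hu
  nlinarith

private theorem xfind_neg {n k : ℕ} {B x : ℝ} (h : Rep1 n k B x) : Rep1 n k B (-x) := by
  have h1 := rep1_zmul h (-1)
  simpa using h1

private theorem xfind_sgn {n k : ℕ} {B x : ℝ} (h : Rep1 n k B x) (j : ℕ) :
    Rep1 n k B ((-1) ^ j * x) := by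
  have h1 := rep1_zmul h ((-1) ^ j)
  simpa using h1

private theorem xfind_Bl_one (n : ℕ) (l : List ℕ) : 1 ≤ Bl n l := by
  unfold Bl
  apply one_le_pow₀
  have h1 : (0 : ℝ) ≤ n := Nat.cast_nonneg n
  have h2 : (0 : ℝ) ≤ (l.sum : ℝ) := Nat.cast_nonneg _
  nlinarith [mul_nonneg h1 (sq_nonneg ((l.sum : ℝ) + 3)), sq_nonneg (l.sum : ℝ)]

private theorem xfind_Bl_cons (n c : ℕ) (l : List ℕ) (hc : 1 ≤ c) :
    1 + n * (((c : ℝ) + 1) ^ 2 * Bl n l) ≤ Bl n (c :: l) := by
  have hB := xfind_Bl_one n l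
  have h1 : (0 : ℝ) ≤ n := Nat.cast_nonneg n
  have h2 : (0 : ℝ) ≤ (l.sum : ℝ) := Nat.cast_nonneg _
  have h3 : (0 : ℝ) ≤ (c : ℝ) := Nat.cast_nonneg _
  have h4 : (((c :: l).sum : ℕ) : ℝ) = c + l.sum := by
    rw [List.sum_cons]
    push_cast
    ring
  set q : ℝ := ((n : ℝ) + 2) * (((c : ℝ) + l.sum) + 3) ^ 2 with hq
  have h5 : Bl n (c :: l) = q * q ^ (l.length + 1) := by
    unfold Bl
    rw [h4, List.length_cons, pow_succ q (l.length + 1), mul_comm, hq]
  have h6 : Bl n l ≤ q ^ (l.length + 1) := by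
    unfold Bl
    apply pow_le_pow_left₀ (by positivity)
    rw [hq]
    apply mul_le_mul_of_nonneg_left _ (by positivity)
    apply pow_le_pow_left₀ (by positivity)
    linarith
  have h7 : ((n : ℝ) + 1) * ((c : ℝ) + 1) ^ 2 ≤ q := by
    rw [hq]
    apply mul_le_mul (by linarith) _ (by positivity) (by positivity)
    apply pow_le_pow_left₀ (by positivity)
    linarith
  have h8 : (1 : ℝ) ≤ ((c : ℝ) + 1) ^ 2 := by nlinarith
  have h9 : 0 ≤ q := by rw [hq]; positivity
  rw [h5]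
  calc 1 + n * (((c : ℝ) + 1) ^ 2 * Bl n l)
      ≤ ((c : ℝ) + 1) ^ 2 * Bl n l + n * (((c : ℝ) + 1) ^ 2 * Bl n l) := by
        nlinarith [mul_le_mul h8 hB zero_le_one (by positivity)]
    _ = (((n : ℝ) + 1) * ((c : ℝ) + 1) ^ 2) * Bl n l := by ring
    _ ≤ q * q ^ (l.length + 1) := mul_le_mul h7 h6 (by linarith) h9

private theorem xfind_cons_adm {a : ℕ} {l : List ℕ} (ha : 2 ≤ a) (hl : Adm1 l) :
    Adm1 (a :: l) := by
  cases l with
  | nil => exact adm1_single.2 ha
  | cons b l => exact adm1_cons_cons.2 ⟨by omega, hl⟩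

theorem rep1_ct0 (n : ℕ) (l : List ℕ) (hl : Adm1 l) (u : ℕ) (hu : u ≤ n) :
    Rep1 n (l.sum + 1) (Bl n l) (ct l [] u) := by
  induction l generalizing u with
  | nil =>
    have hn : (0 : ℝ) ≤ n := Nat.cast_nonneg n
    have hB : Bl n [] = ((n : ℝ) + 2) * 9 := by
      unfold Bl
      norm_num
    have h0 : Rep1 n 1 0 (ct [] [] 0) := by
      rw [ct_zero]
      exact rep1_zero n 1
    have h1 := xfind_step (F := fun u => ct [] [] u) (B1 := 1) zero_le_one h0 (fun u hu => by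
      have e1 : ct [] [] (u + 1) - ct [] [] u = -((1 : ℝ) / ((u + 1 : ℕ) : ℝ)) := by
        rw [ct_step hl hl u, T_nil, Ws]
        push_cast
        rw [one_div]
        ring
      show Rep1 n 1 1 (ct [] [] (u + 1) - ct [] [] u)
      rw [e1]
      apply xfind_neg
      exact rep1_div (rep1_one n 0) (v := u + 1) (by omega) hu) u hu
    refine rep1_mono h1 (by simp) ?_
    rw [hB]
    linarith
  | cons c l ih =>
    have hl' : Adm1 l := hl.tail
    have hc : 1 ≤ c := hl.head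
    have hB1 := xfind_Bl_one n l
    have hB0 : (0 : ℝ) ≤ Bl n l := by linarith
    have hBc := xfind_Bl_cons n c l hc
    have hcR : (1 : ℝ) ≤ c := by exact_mod_cast hc
    have hsum : (c :: l).sum = c + l.sum := List.sum_cons
    have h0 : Rep1 n ((c :: l).sum + 1) 0 (ct (c :: l) [] 0) := by
      rw [ct_zero]
      exact rep1_zero n _
    refine rep1_mono (xfind_step (F := fun u => ct (c :: l) [] u)
      (B1 := ((c : ℝ) + 1) ^ 2 * Bl n l) (by positivity) h0 ?_ u hu) le_rfl (by linarith)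
    intro u hu
    show Rep1 n _ _ (ct (c :: l) [] (u + 1) - ct (c :: l) [] u)
    have e1 : ct (c :: l) [] (u + 1) - ct (c :: l) [] u =
        -(T (c :: l) 0 / ((u + 1 : ℕ) : ℝ)) + Wt c l [] u := by
      rw [ct_step hl adm1_nil u, T_nil, Ws]
      push_cast
      rw [div_eq_mul_inv]
      ring
    rw [e1]
    have a0 : Rep1 n ((c :: l).sum + 1) 1 (-(T (c :: l) 0 / ((u + 1 : ℕ) : ℝ))) :=
      xfind_neg (rep1_div (rep1_T hl le_rfl) (v := u + 1) (by omega) hu)
    have a1 : Rep1 n ((c :: l).sum + 1) ((c : ℝ) + Bl n l) (Wt c l [] u) := by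
      rcases Nat.eq_zero_or_pos u with h | h
      · subst h
        rw [Wt_zero, Zt_nil hl' (by omega : 2 ≤ c + 1)]
        have h2 := rep1_T (n := n) (k := (c :: l).sum + 1) (l := (c + 1) :: l)
          (xfind_cons_adm (by omega) hl') (by rw [List.sum_cons, hsum]; omega)
        exact rep1_mono h2 le_rfl (by linarith)
      · rw [Wt_pf hl' adm1_nil hc h]
        have hD := ih hl' u (by omega)
        have b1 : Rep1 n ((c :: l).sum + 1) (Bl n l) ((-1) ^ c * ((u : ℝ) ^ c)⁻¹ * ct l [] u) := by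
          have h3 := xfind_sgn (rep1_div_pow hD h (by omega) c) c
          have e2 : (-1) ^ c * ((u : ℝ) ^ c)⁻¹ * ct l [] u = (-1) ^ c * (ct l [] u / (u : ℝ) ^ c) := by
            rw [div_eq_mul_inv]
            ring
          rw [e2]
          exact rep1_mono h3 (by rw [hsum]; omega) le_rfl
        have b2 : Rep1 n ((c :: l).sum + 1) (∑ i ∈ Ico 1 c, (1 : ℝ))
            (∑ i ∈ Ico 1 c, (-1) ^ (c - 1 - i) * ((u : ℝ) ^ (c - i))⁻¹ * Zt (i + 1) l []) := by
          apply rep1_sum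
          intro i hi
          have hi' := mem_Ico.1 hi
          have h4 := rep1_T (n := n) (k := i + 1 + l.sum) (l := (i + 1) :: l)
            (xfind_cons_adm (by omega) hl') (by rw [List.sum_cons])
          have h5 := xfind_sgn (rep1_div_pow h4 h (by omega : u ≤ n) (c - i)) (c - 1 - i)
          rw [Zt_nil hl' (by omega : 2 ≤ i + 1)]
          have e3 : (-1) ^ (c - 1 - i) * ((u : ℝ) ^ (c - i))⁻¹ * T ((i + 1) :: l) 0 =
              (-1) ^ (c - 1 - i) * (T ((i + 1) :: l) 0 / (u : ℝ) ^ (c - i)) := by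
            rw [div_eq_mul_inv]
            ring
          rw [e3]
          exact rep1_mono h5 (by rw [hsum]; omega) le_rfl
        refine rep1_mono (rep1_add b1 b2) le_rfl ?_
        rw [sum_const, Nat.card_Ico, nsmul_eq_mul, mul_one]
        have h6 : ((c - 1 : ℕ) : ℝ) ≤ c := by exact_mod_cast Nat.sub_le c 1
        linarith
    refine rep1_mono (rep1_add a0 a1) le_rfl ?_
    nlinarith [mul_le_mul_of_nonneg_left hB1 (by positivity : (0 : ℝ) ≤ (c : ℝ) * c),
      mul_le_mul_of_nonneg_left hB1 (by positivity : (0 : ℝ) ≤ (c : ℝ))]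

end Pool.MZExp
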