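import Pool.Agent.Lib.MZExp.XFDefs

/-! MODULE XFStuf (about 130 lines). MP_301213_nt, exponential growth, PHASE 2 (helper41). The stuffle product of the
tails `T l M` (head of the list = SMALLEST variable), for all words of `Adm1`. TEMPLATE: MZDim/Stuf.lean (copy it).

PROOF. Induction on n = l.length + l'.length (statement for all l, l') as in MZDim/Stuf.lean. If l = [] take L = [l'] (T_nil), if l' = [] take
L = [l]. Let l = a :: u, l' = b :: v, L1 for (a :: u, v), L2 for (u, b :: v), L3 for (u, v), L = L1.map (b :: ·) ++ L2.map (a :: ·) ++ L3.map ((a+b) :: ·).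
Admissibility: the words g of L1, L2 are not empty (their sum is ≥ a resp. ≥ b ≥ 1), so `b :: g` is Adm1 (`adm1_cons_cons`, letters a, b ≥ 1: Adm1.head);
(a+b) :: g: a + b ≥ 2, so it is fine also for g = [] (`adm1_single`, `adm1_cons_cons`).
Identity: with F M = T (a::u) M, G M = T (b::v) M, f = T u, g = T v, s = ((M+1)^a)⁻¹, t = ((M+1)^b)⁻¹ (T_step1):
 F M * G M = F (M+1) G (M+1) + t F(M+1) g(M+1) + s f(M+1) G(M+1) + s t f(M+1) g(M+1), and for S M = (L.map fun g => T g M).sum, again by T_step1,
 S M = S (M+1) + t ∑_{L1} T · (M+1) + s ∑_{L2} T · (M+1) + s t ∑_{L3} T · (M+1). So E M = F M G M - S M satisfies E M = E (M+1) for all M, so E M = E (M + n) for all n;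
 E tends to 0 at infinity (`T_tendsto1` for F, G and for all the words of L, none of them is empty; finite sum of a list: induction on L), hence E M = 0
 (tendsto_nhds_unique with the constant sequence). -/

open HofPers Finset Filter Topology Pool.MZDim

namespace Pool.MZExp

private lemma xfstuf_step (L : List (List ℕ)) (c : ℕ) (hL : ∀ g ∈ L, Adm1 (c :: g)) (M : ℕ) :
    ((L.map fun g => c :: g).map fun g => T g M).sum =
      (((M : ℝ) + 1) ^ c)⁻¹ * (L.map fun g => T g (M + 1)).sum +
        ((L.map fun g => c :: g).map fun g => T g (M + 1)).sum := by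
  induction L with
  | nil => simp
  | cons g L ih =>
    simp only [List.map_cons, List.sum_cons]
    rw [ih (fun q hq => hL q (List.mem_cons_of_mem _ hq)), T_step1 (hL g List.mem_cons_self)]
    ring

private lemma xfstuf_lim (L : List (List ℕ)) (hL : ∀ g ∈ L, Adm1 g ∧ g ≠ []) :
    Tendsto (fun M : ℕ => (L.map fun g => T g M).sum) atTop (𝓝 0) := by
  induction L with
  | nil => simp
  | cons g L ih =>
    simp only [List.map_cons, List.sum_cons]
    have h1 := T_tendsto1 (hL g List.mem_cons_self).1 (hL g List.mem_cons_self).2
    have h2 := ih (fun q hq => hL q (List.mem_cons_of_mem _ hq))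
    have h3 := h1.add h2
    rw [add_zero] at h3
    exact h3

private lemma xfstuf_const (E : ℕ → ℝ) (h : ∀ M, E M = E (M + 1))
    (ht : Tendsto E atTop (𝓝 0)) (M : ℕ) : E M = 0 := by
  have h1 : ∀ n, E n = E 0 := by
    intro n
    induction n with
    | zero => rfl
    | succ n ih => rw [← h n, ih]
  have h2 : E = fun _ => E 0 := funext h1
  have h3 : Tendsto (fun _ : ℕ => E 0) atTop (𝓝 0) := by rw [← h2]; exact ht
  rw [h1 M]
  exact tendsto_nhds_unique tendsto_const_nhds h3

private lemma xfstuf_adm {b : ℕ} (hb : 1 ≤ b) {g : List ℕ} (hg : Adm1 g) (h0 : g ≠ []) :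
    Adm1 (b :: g) := by
  cases g with
  | nil => exact absurd rfl h0
  | cons c g => exact adm1_cons_cons.2 ⟨hb, hg⟩

private lemma xfstuf_adm2 {b : ℕ} (hb : 2 ≤ b) {g : List ℕ} (hg : Adm1 g) : Adm1 (b :: g) := by
  cases g with
  | nil => exact adm1_single.2 hb
  | cons c g => exact adm1_cons_cons.2 ⟨by omega, hg⟩

private lemma xfstuf_aux (n : ℕ) : ∀ l l' : List ℕ, l.length + l'.length = n → Adm1 l → Adm1 l' →
    ∃ L : List (List ℕ), (∀ g ∈ L, Adm1 g ∧ g.sum = l.sum + l'.sum) ∧
      ∀ M : ℕ, T l M * T l' M = (L.map fun g => T g M).sum := by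
  induction n using Nat.strong_induction_on with
  | _ n ih =>
    intro l l' hn hl hl'
    cases l with
    | nil =>
      refine ⟨[l'], ?_, ?_⟩
      · intro g hg
        rw [List.mem_singleton] at hg
        subst hg
        exact ⟨hl', by simp⟩
      · intro M
        simp [T_nil]
    | cons a u =>
      cases l' with
      | nil =>
        refine ⟨[a :: u], ?_, ?_⟩
        · intro g hg
          rw [List.mem_singleton] at hg
          subst hg
          exact ⟨hl, by simp⟩
        · intro M
          simp [T_nil]
      | cons b v =>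
        simp only [List.length_cons] at hn
        have ha : 1 ≤ a := hl.head
        have hb : 1 ≤ b := hl'.head
        have hu : Adm1 u := hl.tail
        have hv : Adm1 v := hl'.tail
        obtain ⟨L1, h1, e1⟩ := ih ((a :: u).length + v.length) (by simp only [List.length_cons]; omega)
          (a :: u) v rfl hl hv
        obtain ⟨L2, h2, e2⟩ := ih (u.length + (b :: v).length) (by simp only [List.length_cons]; omega)
          u (b :: v) rfl hu hl'
        obtain ⟨L3, h3, e3⟩ := ih (u.length + v.length) (by omega) u v rfl hu hv
        have hL1 : ∀ g ∈ L1, Adm1 (b :: g) := by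
          intro g hg
          refine xfstuf_adm hb (h1 g hg).1 ?_
          rintro rfl
          have := (h1 _ hg).2
          simp only [List.sum_cons, List.sum_nil] at this
          omega
        have hL2 : ∀ g ∈ L2, Adm1 (a :: g) := by
          intro g hg
          refine xfstuf_adm ha (h2 g hg).1 ?_
          rintro rfl
          have := (h2 _ hg).2
          simp only [List.sum_cons, List.sum_nil] at this
          omega
        have hL3 : ∀ g ∈ L3, Adm1 ((a + b) :: g) := fun g hg =>
          xfstuf_adm2 (by omega) (h3 g hg).1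
        set L : List (List ℕ) := (L1.map fun g => b :: g) ++ (L2.map fun g => a :: g) ++
          (L3.map fun g => (a + b) :: g) with hLdef
        have hL : ∀ g ∈ L, Adm1 g ∧ g.sum = (a :: u).sum + (b :: v).sum := by
          intro g hg
          rw [hLdef, List.mem_append, List.mem_append, List.mem_map, List.mem_map,
            List.mem_map] at hg
          rcases hg with (⟨q, hq, rfl⟩ | ⟨q, hq, rfl⟩) | ⟨q, hq, rfl⟩
          · refine ⟨hL1 q hq, ?_⟩
            have := (h1 q hq).2
            simp only [List.sum_cons] at this ⊢
            omega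
          · refine ⟨hL2 q hq, ?_⟩
            have := (h2 q hq).2
            simp only [List.sum_cons] at this ⊢
            omega
          · refine ⟨hL3 q hq, ?_⟩
            have := (h3 q hq).2
            simp only [List.sum_cons] at this ⊢
            omega
        refine ⟨L, hL, ?_⟩
        have hstep : ∀ M : ℕ, T (a :: u) M * T (b :: v) M - (L.map fun g => T g M).sum =
            T (a :: u) (M + 1) * T (b :: v) (M + 1) - (L.map fun g => T g (M + 1)).sum := by
          intro M
          rw [hLdef]
          simp only [List.map_append, List.sum_append]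
          rw [xfstuf_step L1 b hL1 M, xfstuf_step L2 a hL2 M, xfstuf_step L3 (a + b) hL3 M,
            ← e1, ← e2, ← e3, T_step1 hl, T_step1 hl']
          have e4 : ((((M : ℝ) + 1) ^ (a + b))⁻¹) =
              (((M : ℝ) + 1) ^ a)⁻¹ * (((M : ℝ) + 1) ^ b)⁻¹ := by
            rw [pow_add, mul_inv]
          rw [e4]
          ring
        have hlim : Tendsto (fun M : ℕ => T (a :: u) M * T (b :: v) M -
            (L.map fun g => T g M).sum) atTop (𝓝 0) := by
          have t1 := T_tendsto1 hl (by simp)
          have t2 := T_tendsto1 hl' (by simp)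
          have t3 := xfstuf_lim L (fun g hg => ⟨(hL g hg).1, by
            rintro rfl
            have := (hL _ hg).2
            simp only [List.sum_cons, List.sum_nil] at this
            omega⟩)
          have t4 := (t1.mul t2).sub t3
          rw [mul_zero, sub_zero] at t4
          exact t4
        intro M
        exact sub_eq_zero.1 (xfstuf_const _ hstep hlim M)

theorem stuffle_t (l l' : List ℕ) (hl : Adm1 l) (hl' : Adm1 l') :
    ∃ L : List (List ℕ), (∀ g ∈ L, Adm1 g ∧ g.sum = l.sum + l'.sum) ∧
      ∀ M : ℕ, T l M * T l' M = (L.map fun g => T g M).sum :=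
  xfstuf_aux _ l l' rfl hl hl'

end Pool.MZExp
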