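import Pool.Agent.Lib.MZExp.XFEq
import Pool.Agent.Lib.MZExp.XFInd
import Pool.Agent.Lib.MZExp.XFStuf

/-! MODULE XFRep (about 150 lines). MP_301213_nt, exponential growth, PHASE 2 (helper41). Heights of the linear forms over the tails.
TEMPLATE: MZExp/FormRep.lean (the same proof, if it is already there).

PROOF. ct_rep: `stuffle_t` gives a list L of Adm1 words with g.sum = a.sum + v.sum and T a M * T v M = (L.map (T · M)).sum, hence ct a v u = (L.map fun g => ct g [] u).sum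
(induction on the list, T_nil, `summ_ct`, Summable.tsum_add). By rep1_ct0 (2N) g _ u each ct g [] u is Rep1 (2N) (g.sum+1) (Bl (2N) g); letters ≥ 1, so g.length ≤ g.sum ≤ w + w'
and Bl (2N) g ≤ Bm := ((2N+2)(w+w'+3)^2)^(w+w'+1). By rep1_add, rep1_mono, rep1_sum: ct a v u is Rep1 (2N) (w+w'+1) (L.length * Bm). L depends only on (a, v): finitely many pairs (a ∈ A, v ∈ B),
so there is Lm ≥ all L.length.
formt_rep: `formt_eq` (i ≤ N/2 and N ≥ 1 give i + 1 ≤ N for N ≥ 2; for N = 1 i = 0 and 0 + 1 ≤ 1): integer combination with coefficients y l a * (-1)^j * C(N,j) * bneg(l+j,i): |y| ≤ Y, ∑_j C(N,j) = 2^N,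
|bneg u i| ≤ C(u+i-1,i) ≤ 2^(u+i) ≤ 2^(2N+N/2) ≤ 8^N. Total bound (N+1) |A| Y 2^N 8^N Lm Bm ≤ 16^N Y (C (N+1)^C) for C large: (2N+2)^(w+w'+1) = 2^(w+w'+1) (N+1)^(w+w'+1);
take C = max of |A| Lm 2^(w+w'+1) (w+w'+3)^(2(w+w'+1)) and w+w'+2, and use N + 1 ≥ 1 (pow_le_pow_right₀). -/

open HofPers Finset Pool.MZDim

namespace Pool.MZExp

private theorem xfr_cc (a v : List ℕ) (ha : Adm1 a) (hv : Adm1 v) :
    ∃ L : List (List ℕ), (∀ g ∈ L, Adm1 g ∧ g.sum = a.sum + v.sum) ∧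
      ∀ u, ct a v u = (L.map fun g => ct g [] u).sum := by
  obtain ⟨L, h1, h2⟩ := stuffle_t a v ha hv
  refine ⟨L, h1, fun u => ?_⟩
  have key : ∀ L : List (List ℕ), (∀ g ∈ L, Adm1 g) →
      Summable (fun M : ℕ => (L.map fun g => T g (M + 1)).sum *
        (((M : ℝ) + 1 + u)⁻¹ - ((M : ℝ) + 1)⁻¹)) ∧
      ∑' M : ℕ, (L.map fun g => T g (M + 1)).sum * (((M : ℝ) + 1 + u)⁻¹ - ((M : ℝ) + 1)⁻¹) =
        (L.map fun g => ct g [] u).sum := by
    intro L
    induction L with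
    | nil => intro _; simp [summable_zero]
    | cons g L ih =>
      intro h
      obtain ⟨i1, i2⟩ := ih (fun g' hg' => h g' (List.mem_cons_of_mem _ hg'))
      have hg := summ_ct (h g List.mem_cons_self) adm1_nil u
      have e : ∀ M : ℕ, ((g :: L).map fun g => T g (M + 1)).sum *
          (((M : ℝ) + 1 + u)⁻¹ - ((M : ℝ) + 1)⁻¹) =
          T g (M + 1) * T [] (M + 1) * (((M : ℝ) + 1 + u)⁻¹ - ((M : ℝ) + 1)⁻¹) +
          (L.map fun g => T g (M + 1)).sum * (((M : ℝ) + 1 + u)⁻¹ - ((M : ℝ) + 1)⁻¹) := by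
        intro M
        rw [List.map_cons, List.sum_cons, add_mul, T_nil, mul_one]
      simp_rw [e]
      refine ⟨hg.add i1, ?_⟩
      rw [hg.tsum_add i1, i2, List.map_cons, List.sum_cons]
      rfl
  obtain ⟨-, k2⟩ := key L (fun g hg => (h1 g hg).1)
  rw [← k2]
  unfold ct
  refine tsum_congr fun M => ?_
  rw [← h2 (M + 1)]

private theorem xfr_len (g : List ℕ) (hg : Adm1 g) : g.length ≤ g.sum := by
  induction g with
  | nil => simp
  | cons a g ih =>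
    have h1 := ih hg.tail
    have h2 : 1 ≤ a := hg.head
    rw [List.length_cons, List.sum_cons]
    omega

private theorem xfr_Bl (N W : ℕ) (g : List ℕ) (hg : Adm1 g) (hs : g.sum ≤ W) :
    Bl (2 * N) g ≤ ((2 * N + 2 : ℝ) * ((W : ℝ) + 3) ^ 2) ^ (W + 1) := by
  unfold Bl
  have h1 : (g.sum : ℝ) ≤ W := by exact_mod_cast hs
  have h0 : (0 : ℝ) ≤ (g.sum : ℝ) := Nat.cast_nonneg _
  have hN : (0 : ℝ) ≤ (N : ℝ) := Nat.cast_nonneg _
  have h2 : ((((2 * N : ℕ) : ℝ) + 2) * ((g.sum : ℝ) + 3) ^ 2) ≤ (2 * N + 2 : ℝ) * ((W : ℝ) + 3) ^ 2 := by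
    have e2 : ((2 * N : ℕ) : ℝ) = 2 * N := by rw [Nat.cast_mul, Nat.cast_two]
    rw [e2]
    exact mul_le_mul_of_nonneg_left (pow_le_pow_left₀ (by linarith) (by linarith) 2) (by linarith)
  have h3 : (1 : ℝ) ≤ (2 * N + 2 : ℝ) * ((W : ℝ) + 3) ^ 2 := by
    have hW : (0 : ℝ) ≤ (W : ℝ) := Nat.cast_nonneg _
    nlinarith [mul_nonneg hN (sq_nonneg ((W : ℝ) + 3)), sq_nonneg (W : ℝ)]
  calc ((((2 * N : ℕ) : ℝ) + 2) * ((g.sum : ℝ) + 3) ^ 2) ^ (g.length + 1)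
      ≤ ((2 * N + 2 : ℝ) * ((W : ℝ) + 3) ^ 2) ^ (g.length + 1) :=
        pow_le_pow_left₀ (by positivity) h2 _
    _ ≤ _ := pow_le_pow_right₀ h3 (by have := xfr_len g hg; omega)

private theorem xfr_list {n k : ℕ} {Bm : ℝ} (u : ℕ) : ∀ L : List (List ℕ),
    (∀ g ∈ L, Rep1 n k Bm (ct g [] u)) → Rep1 n k (L.length * Bm) ((L.map fun g => ct g [] u).sum) := by
  intro L
  induction L with
  | nil => intro _; simpa using rep1_zero n k
  | cons g L ih =>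
    intro h
    have h1 := ih (fun g' hg' => h g' (List.mem_cons_of_mem _ hg'))
    have h2 := rep1_add (h g List.mem_cons_self) h1
    rw [List.map_cons, List.sum_cons]
    refine rep1_mono h2 le_rfl (le_of_eq ?_)
    rw [List.length_cons]
    push_cast
    ring

private theorem xfr_bneg (N u i : ℕ) (hu : u ≤ 2 * N) (hi : i ≤ N / 2) :
    |((bneg u i : ℤ) : ℝ)| ≤ 8 ^ N := by
  unfold bneg
  push_cast
  rw [abs_mul, abs_pow, abs_neg, abs_one, one_pow, one_mul, abs_of_nonneg (Nat.cast_nonneg _)]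
  have h1 : (u + i - 1).choose i ≤ 2 ^ (u + i - 1) := Nat.choose_le_two_pow _ _
  have h2 : 2 ^ (u + i - 1) ≤ 2 ^ (3 * N) := Nat.pow_le_pow_right (by norm_num) (by omega)
  have h3 : (2 : ℕ) ^ (3 * N) = 8 ^ N := by rw [pow_mul]; norm_num
  have h4 : (u + i - 1).choose i ≤ 8 ^ N := by
    rw [← h3]
    exact h1.trans h2
  exact_mod_cast h4

theorem formt_rep (A B : Finset (List ℕ)) (w w' : ℕ) (hA : ∀ l ∈ A, Adm1 l ∧ l.sum ≤ w)
    (hB : ∀ l ∈ B, Adm1 l ∧ l.sum ≤ w') :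
    ∃ C : ℕ, ∀ N : ℕ, 1 ≤ N → ∀ (y : ℕ → List ℕ → ℤ) (Y : ℝ), 1 ≤ Y → (∀ i l, |(y i l : ℝ)| ≤ Y) →
      ∀ i, i ≤ N / 2 → ∀ v ∈ B,
      Rep1 (2 * N) (w + w' + 1) (16 ^ N * Y * (C * ((N : ℝ) + 1) ^ C)) (formt A N y i v) := by
  classical
  have hf : ∀ p : List ℕ × List ℕ, ∃ L : List (List ℕ), Adm1 p.1 → Adm1 p.2 →
      (∀ g ∈ L, Adm1 g ∧ g.sum = p.1.sum + p.2.sum) ∧
      ∀ u, ct p.1 p.2 u = (L.map fun g => ct g [] u).sum := by
    intro p
    by_cases h : Adm1 p.1 ∧ Adm1 p.2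
    · obtain ⟨L, h1, h2⟩ := xfr_cc p.1 p.2 h.1 h.2
      exact ⟨L, fun _ _ => ⟨h1, h2⟩⟩
    · exact ⟨[], fun h1 h2 => (h ⟨h1, h2⟩).elim⟩
  choose f hf using hf
  set m : ℕ := ∑ a ∈ A, ∑ v ∈ B, (f (a, v)).length with hm
  set W : ℕ := w + w' with hW
  set Cc : ℕ := A.card * m * (2 * (W + 3) ^ 2) ^ (W + 1) with hCc
  refine ⟨Cc + W + 2, fun N hN y Y hY hy i hi v hv => ?_⟩
  obtain ⟨hv1, hv2⟩ := hB v hv
  rw [formt_eq A (fun l hl => (hA l hl).1) N y i (by omega) v hv1]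
  set Bm : ℝ := ((2 * N + 2 : ℝ) * ((W : ℝ) + 3) ^ 2) ^ (W + 1) with hBm
  have hBm0 : 0 ≤ Bm := by positivity
  have hcc : ∀ a ∈ A, ∀ u, u ≤ 2 * N → Rep1 (2 * N) (W + 1) (m * Bm) (ct a v u) := by
    intro a ha u hu
    obtain ⟨ha1, ha2⟩ := hA a ha
    obtain ⟨h1, h2⟩ := hf (a, v) ha1 hv1
    rw [h2 u]
    have h3 : Rep1 (2 * N) (W + 1) ((f (a, v)).length * Bm)
        (((f (a, v)).map fun g => ct g [] u).sum) := by
      apply xfr_list
      intro g hg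
      obtain ⟨hg1, hg2⟩ := h1 g hg
      have hg3 : g.sum ≤ W := by
        rw [hg2, hW]
        exact Nat.add_le_add ha2 hv2
      exact rep1_mono (rep1_ct0 (2 * N) g hg1 u hu) (by omega) (xfr_Bl N W g hg1 hg3)
    refine rep1_mono h3 le_rfl ?_
    have h4 : (f (a, v)).length ≤ m := by
      have h5 : (f (a, v)).length ≤ ∑ v ∈ B, (f (a, v)).length :=
        Finset.single_le_sum (f := fun v => (f (a, v)).length) (fun _ _ => Nat.zero_le _) hv
      have h6 : ∑ v ∈ B, (f (a, v)).length ≤ m :=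
        Finset.single_le_sum (f := fun a => ∑ v ∈ B, (f (a, v)).length)
          (fun _ _ => Nat.zero_le _) ha
      exact h5.trans h6
    have h7 : ((f (a, v)).length : ℝ) ≤ m := by exact_mod_cast h4
    exact mul_le_mul_of_nonneg_right h7 hBm0
  have hin : ∀ l ∈ range (N + 1), ∀ a ∈ A, Rep1 (2 * N) (W + 1) (Y * (2 ^ N * (8 ^ N * (m * Bm))))
      ((y l a : ℝ) * ∑ j ∈ range (N + 1), (-1) ^ j * (N.choose j : ℝ) * (bneg (l + j) i : ℝ) *
        ct a v (l + j)) := by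
    intro l hl a ha
    have hl' : l ≤ N := Nat.lt_succ_iff.1 (mem_range.1 hl)
    have h1 : Rep1 (2 * N) (W + 1) (∑ j ∈ range (N + 1), (N.choose j : ℝ) * (8 ^ N * (m * Bm)))
        (∑ j ∈ range (N + 1), (-1) ^ j * (N.choose j : ℝ) * (bneg (l + j) i : ℝ) *
          ct a v (l + j)) := by
      apply rep1_sum
      intro j hj
      have hj' : j ≤ N := Nat.lt_succ_iff.1 (mem_range.1 hj)
      have h2 := rep1_zmul (hcc a ha (l + j) (by omega)) ((-1) ^ j * (N.choose j : ℤ) * bneg (l + j) i)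
      have e1 : (((-1) ^ j * (N.choose j : ℤ) * bneg (l + j) i : ℤ) : ℝ) =
          (-1) ^ j * (N.choose j : ℝ) * (bneg (l + j) i : ℝ) := by push_cast; ring
      rw [e1] at h2
      refine rep1_mono h2 le_rfl ?_
      rw [abs_mul, abs_mul, abs_pow, abs_neg, abs_one, one_pow, one_mul,
        abs_of_nonneg (Nat.cast_nonneg (N.choose j))]
      have h3 := xfr_bneg N (l + j) i (by omega) hi
      rw [mul_assoc]
      gcongr
    have h4 : ∑ j ∈ range (N + 1), (N.choose j : ℝ) * (8 ^ N * (m * Bm)) =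
        2 ^ N * (8 ^ N * (m * Bm)) := by
      rw [← Finset.sum_mul]
      congr 1
      have h5 := Nat.sum_range_choose N
      exact_mod_cast h5
    rw [h4] at h1
    have h6 := rep1_zmul h1 (y l a)
    refine rep1_mono h6 le_rfl ?_
    have h7 := hy l a
    have h8 : (0 : ℝ) ≤ 2 ^ N * (8 ^ N * (m * Bm)) := by positivity
    exact mul_le_mul_of_nonneg_right h7 h8
  have hout := rep1_sum (n := 2 * N) (k := W + 1) (range (N + 1))
    (fun _ => ∑ _a ∈ A, Y * (2 ^ N * (8 ^ N * (m * Bm)))) _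
    (fun l hl => rep1_sum A (fun _ => Y * (2 ^ N * (8 ^ N * (m * Bm)))) _ (fun a ha => hin l hl a ha))
  refine rep1_mono hout le_rfl ?_
  rw [Finset.sum_const, Finset.sum_const, Finset.card_range, nsmul_eq_mul, nsmul_eq_mul]
  have hBm' : Bm = (2 * ((W : ℝ) + 3) ^ 2) ^ (W + 1) * ((N : ℝ) + 1) ^ (W + 1) := by
    rw [hBm, ← mul_pow]
    congr 1
    ring
  have h16 : (2 : ℝ) ^ N * 8 ^ N = 16 ^ N := by rw [← mul_pow]; norm_num
  have hN1 : (1 : ℝ) ≤ (N : ℝ) + 1 := by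
    have : (0 : ℝ) ≤ N := Nat.cast_nonneg N
    linarith
  have hCcr : (Cc : ℝ) = A.card * m * (2 * ((W : ℝ) + 3) ^ 2) ^ (W + 1) := by
    rw [hCc]
    push_cast
    ring
  calc ((N + 1 : ℕ) : ℝ) * ((A.card : ℝ) * (Y * (2 ^ N * (8 ^ N * (m * Bm)))))
      = (2 ^ N * 8 ^ N) * Y * (Cc * ((N : ℝ) + 1) ^ (W + 2)) := by
        rw [hBm', hCcr]
        push_cast
        ring
    _ = 16 ^ N * Y * (Cc * ((N : ℝ) + 1) ^ (W + 2)) := by rw [h16]
    _ ≤ 16 ^ N * Y * (((Cc + W + 2 : ℕ) : ℝ) * ((N : ℝ) + 1) ^ (Cc + W + 2)) := by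
        have hY0 : 0 ≤ Y := by linarith
        apply mul_le_mul_of_nonneg_left _ (by positivity)
        apply mul_le_mul _ _ (by positivity) (by positivity)
        · push_cast
          have : (0 : ℝ) ≤ W := Nat.cast_nonneg W
          linarith
        · exact pow_le_pow_right₀ hN1 (by omega)

end Pool.MZExp
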