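import Pool.Agent.Lib.MZDim.RDefs
import Pool.Agent.Lib.MZDim.Smp

/-! MP_301213_nt, EXPONENTIAL GROWTH of dim Z_k (paper store `MP_301213_nt_paper22b.md`): definitions.

Conventions of `MZDim/Defs.lean`: words have letters `≥ 2`, the HEAD of the list is the exponent of the
LARGEST summation variable, `h_l(t) = sR l (t - 1)`, `t = M + 1`, `beta N i M = β_i(M+1)`,
`fy A N y M = f_y(M+1)`. -/

open HofPers Finset Pool.MZDim

namespace Pool.MZExp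

/-- test function: the binomial coefficient `C(t,i)`, `t = M + 1` -/
noncomputable def bt (i M : ℕ) : ℝ := (((M + 1).choose i : ℕ) : ℝ)

/-- the binomial coefficient `C(-u,i) = (-1)^i C(u+i-1,i)` -/
def bneg (u i : ℕ) : ℤ := (-1) ^ i * ((u + i - 1).choose i : ℕ)

/-- the linear form `∑_{t ≥ 1} f_y(t) C(t,i) h_v(t)` -/
noncomputable def form (A : Finset (List ℕ)) (N : ℕ) (y : ℕ → List ℕ → ℤ) (i : ℕ) (v : List ℕ) : ℝ :=
  ∑' M : ℕ, fy A N y M * bt i M * sR v M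

/-- `c_j(α,v) = ∑_{t ≥ 1} h_α(t) h_v(t) (1/(t+j) - 1/t)` -/
noncomputable def cc (l v : List ℕ) (j : ℕ) : ℝ :=
  ∑' M : ℕ, sR l M * sR v M * (((M : ℝ) + 1 + j)⁻¹ - ((M : ℝ) + 1)⁻¹)

/-- number of samples divided by `N`, times `1 + δ`; `A0 = 4 Dl + 8`, `P = (Dl + 2) N`, `δ = 4 Dl + 6` -/
def rho (Dl : ℕ) : ℕ := (4 * Dl + 10) * (Dl + 2) * (4 * Dl + 7) + 1

/-- `y` has coefficients at most `e^N` and `f_y(s) C(s,i)` is small at all samples, for all `i ≤ N/2` -/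
def SmallS (A : Finset (List ℕ)) (N Dl : ℕ) (y : ℕ → List ℕ → ℤ) : Prop :=
  (∀ i l, |(y i l : ℝ)| ≤ Real.exp N) ∧
  ∀ s ∈ smp ((Dl + 2) * N) (4 * Dl + 8), ∀ i, i ≤ N / 2 →
    |fy A N y (s - 1) * bt i (s - 1)| ≤ Real.exp (-(((4 * Dl + 6 : ℕ) : ℝ) * N))

/-- the coefficient vector -/
def vec (A : Finset (List ℕ)) (N : ℕ) (y : ℕ → List ℕ → ℤ) : Fin (N + 1) × A → ℚ :=
  fun p => (y p.1 p.2 : ℚ)

/-- the value of the form `(x, i, v)` when `c_j(α,v)` is replaced by `c α v j` -/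
def LF (A : Finset (List ℕ)) (N : ℕ) (c : List ℕ → List ℕ → ℕ → ℚ) (x : Fin (N + 1) × A → ℚ)
    (i : ℕ) (v : List ℕ) : ℚ :=
  ∑ p : Fin (N + 1) × A, x p * ∑ j ∈ range (N + 1),
    (-1) ^ j * (N.choose j : ℚ) * (bneg (p.1 + j) i : ℚ) * c p.2 v (p.1 + j)

/-- closed under taking tails, all letters at least `2`, contains the empty word -/
def TC (A : Finset (List ℕ)) : Prop :=
  [] ∈ A ∧ (∀ l ∈ A, Adm l) ∧ ∀ a l, a :: l ∈ A → l ∈ A

end Pool.MZExp
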