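import Pool.Agent.Lib.MZExp.XDefs
import Pool.Agent.Lib.MZDim.Defs

/-! MODULE XConv (about 130 lines). MP_301213_nt phase 2: change of basis between e_{N+k}(t) (k ≤ N) and β_l(t) = e_N(t+l) (l ≤ N).

PROOFS (t ≥ 1). beta_eq_ek: definitions (casts). ek_shift: ek (k+1) t = ek k t * (k+1)/(t+k+1) and ek k (t+1) = ek k t * t/(t+k+1) (the products differ by one factor at each end:
∏_{j ≤ k} (t+1+j) = ∏_{j ≤ k} (t+j) * (t+k+1)/t, `prod_range_succ`, `prod_range_succ'`). ek_eq_sum: induction on k for all N, t: ek (N+k+1) t = ek (N+k) t - ek (N+k) (t+1) and Pascal's rule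
(`Nat.choose_succ_succ`, `Finset.sum_range_succ`, `sum_range_succ'`).
conv: y l a := (-1)^l * ∑_{k ∈ range (N+1)} C(k,l) y'(k,a) for l ≤ N, 0 for l > N (C(k,l) = 0 for k < l). Bound: C(k,l) ≤ 2^k ≤ 2^N, N + 1 terms. Nonzero: choose (k,a) with y'(k,a) ≠ 0 and k
maximal for this a (finitely many k); then y k a = (-1)^k y'(k,a) ≠ 0. Identity: ∑_l ∑_a y_l,a e_N(t+l) φ_a(t) = ∑_a ∑_k y'(k,a) (∑_{l ≤ k} (-1)^l C(k,l) e_N(t+l)) φ_a(t) (the terms with
l > k vanish) and ek_eq_sum; Fintype.sum_prod_type, Finset.sum_range (Fin sums), Finset.sum_comm. -/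

open Finset Pool.MZDim

namespace Pool.MZExp

theorem beta_eq_ek (N l M : ℕ) : beta N l M = ek N (M + 1 + l) := by
  unfold beta ek
  push_cast
  rfl

theorem ek_shift {t : ℕ} (ht : 1 ≤ t) (k : ℕ) : ek k (t + 1) = ek k t - ek (k + 1) t := by
  have ht' : (0 : ℝ) < t := by exact_mod_cast ht
  have h1 : ∏ j ∈ range (k + 1 + 1), ((t : ℝ) + j) =
      (∏ j ∈ range (k + 1), ((t : ℝ) + j)) * ((t : ℝ) + (k + 1)) := by
    rw [prod_range_succ]
    push_cast
    ring
  have h2 : ∏ j ∈ range (k + 1 + 1), ((t : ℝ) + j) =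
      (∏ j ∈ range (k + 1), (((t + 1 : ℕ) : ℝ) + j)) * t := by
    rw [prod_range_succ']
    congr 1
    · refine prod_congr rfl fun j _ => ?_
      push_cast
      ring
    · simp
  have hP : 0 < ∏ j ∈ range (k + 1), ((t : ℝ) + j) := prod_pos fun j _ => by positivity
  have hQ : 0 < ∏ j ∈ range (k + 1), (((t + 1 : ℕ) : ℝ) + j) := prod_pos fun j _ => by positivity
  unfold ek
  rw [h1]
  rw [h1] at h2
  generalize (∏ j ∈ range (k + 1), ((t : ℝ) + j)) = P at *
  generalize (∏ j ∈ range (k + 1), (((t + 1 : ℕ) : ℝ) + j)) = Q at *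
  have hQt : Q = P * ((t : ℝ) + (k + 1)) / t := by
    field_simp
    linarith
  have h3 : (0 : ℝ) < (t : ℝ) + (k + 1) := by positivity
  rw [hQt, Nat.factorial_succ]
  push_cast
  field_simp
  ring

theorem ek_eq_sum {t : ℕ} (ht : 1 ≤ t) (N k : ℕ) :
    ek (N + k) t = ∑ l ∈ range (k + 1), (-1 : ℝ) ^ l * ((k.choose l : ℕ) : ℝ) * ek N (t + l) := by
  induction k generalizing t with
  | zero => simp
  | succ k ih =>
    have h1 : ek (N + (k + 1)) t = ek (N + k) t - ek (N + k) (t + 1) := by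
      have := ek_shift ht (N + k)
      rw [← add_assoc]
      linarith
    rw [h1, ih ht, ih (t := t + 1) (by omega)]
    have h2 : ∑ l ∈ range (k + 1), (-1 : ℝ) ^ l * ((k.choose l : ℕ) : ℝ) * ek N (t + l) =
        ∑ l ∈ range (k + 1 + 1), (-1 : ℝ) ^ l * ((k.choose l : ℕ) : ℝ) * ek N (t + l) := by
      rw [sum_range_succ _ (k + 1), Nat.choose_succ_self]
      simp
    rw [h2, sum_range_succ' _ (k + 1), sum_range_succ' _ (k + 1)]
    have h3 : ∑ l ∈ range (k + 1), (-1 : ℝ) ^ (l + 1) * (((k + 1).choose (l + 1) : ℕ) : ℝ) *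
        ek N (t + (l + 1)) =
        ∑ l ∈ range (k + 1), (-1 : ℝ) ^ (l + 1) * ((k.choose (l + 1) : ℕ) : ℝ) *
          ek N (t + (l + 1)) -
        ∑ l ∈ range (k + 1), (-1 : ℝ) ^ l * ((k.choose l : ℕ) : ℝ) * ek N (t + 1 + l) := by
      rw [← sum_sub_distrib]
      refine sum_congr rfl fun l _ => ?_
      rw [Nat.choose_succ_succ, show t + (l + 1) = t + 1 + l by omega]
      push_cast
      ring
    rw [h3]
    simp
    ring

theorem conv {ι : Type*} [Fintype ι] (N : ℕ) (y' : Fin (N + 1) × ι → ℤ) (hy : y' ≠ 0) {Y : ℝ}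
    (hY : ∀ p, |(y' p : ℝ)| ≤ Y) :
    ∃ y : ℕ → ι → ℤ, (∃ i ≤ N, ∃ a, y i a ≠ 0) ∧
      (∀ i a, |(y i a : ℝ)| ≤ 2 ^ N * ((N : ℝ) + 1) * Y) ∧
      ∀ (φ : ι → ℕ → ℝ) (t : ℕ), 1 ≤ t →
        ∑ l ∈ range (N + 1), ∑ a, (y l a : ℝ) * (ek N (t + l) * φ a t) =
          ∑ p, (y' p : ℝ) * (ek (N + p.1) t * φ p.2 t) := by
  classical
  obtain ⟨⟨k0, a0⟩, hk0⟩ : ∃ p, y' p ≠ 0 := by
    by_contra h
    push Not at h
    exact hy (funext h)
  have hY0 : 0 ≤ Y := (abs_nonneg _).trans (hY (k0, a0))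
  refine ⟨fun l a => (-1) ^ l * ∑ k : Fin (N + 1), ((k.1.choose l : ℕ) : ℤ) * y' (k, a),
    ?_, ?_, ?_⟩
  · obtain ⟨k, hk, hmax⟩ := (univ.filter fun k : Fin (N + 1) => y' (k, a0) ≠ 0).exists_max_image
      (fun k => k.1) ⟨k0, by simpa using hk0⟩
    have hkne : y' (k, a0) ≠ 0 := by simpa using hk
    refine ⟨k.1, by omega, a0, ?_⟩
    have hs : ∑ j : Fin (N + 1), ((j.1.choose k.1 : ℕ) : ℤ) * y' (j, a0) = y' (k, a0) := by
      rw [Finset.sum_eq_single k]
      · simp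
      · intro j _ hj
        rcases lt_or_gt_of_ne (fun h => hj (Fin.ext h) : j.1 ≠ k.1) with h | h
        · rw [Nat.choose_eq_zero_of_lt h]
          simp
        · have : y' (j, a0) = 0 := by
            by_contra hne
            have := hmax j (by simpa using hne)
            omega
          rw [this, mul_zero]
      · intro h
        exact absurd (mem_univ _) h
    show (-1) ^ k.1 * ∑ j : Fin (N + 1), ((j.1.choose k.1 : ℕ) : ℤ) * y' (j, a0) ≠ 0
    rw [hs]
    exact mul_ne_zero (pow_ne_zero _ (by norm_num)) hkne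
  · intro i a
    show |(((-1) ^ i * ∑ k : Fin (N + 1), ((k.1.choose i : ℕ) : ℤ) * y' (k, a) : ℤ) : ℝ)| ≤ _
    push_cast
    rw [abs_mul, abs_pow, abs_neg, abs_one, one_pow, one_mul]
    calc |∑ k : Fin (N + 1), ((k.1.choose i : ℕ) : ℝ) * (y' (k, a) : ℝ)|
        ≤ ∑ k : Fin (N + 1), |((k.1.choose i : ℕ) : ℝ) * (y' (k, a) : ℝ)| :=
          abs_sum_le_sum_abs _ _
      _ ≤ ∑ _k : Fin (N + 1), 2 ^ N * Y := by
          refine sum_le_sum fun k _ => ?_
          rw [abs_mul, Nat.abs_cast]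
          refine mul_le_mul ?_ (hY _) (abs_nonneg _) (by positivity)
          have h1 : k.1.choose i ≤ 2 ^ k.1 := Nat.choose_le_two_pow _ _
          have h2 : 2 ^ k.1 ≤ 2 ^ N := Nat.pow_le_pow_right (by norm_num) (by omega)
          exact_mod_cast h1.trans h2
      _ = 2 ^ N * ((N : ℝ) + 1) * Y := by
          rw [sum_const, card_univ, Fintype.card_fin, nsmul_eq_mul]
          push_cast
          ring
  · intro φ t ht
    rw [Fintype.sum_prod_type]
    have hE : ∀ k : Fin (N + 1), ek (N + k.1) t =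
        ∑ l ∈ range (N + 1), (-1 : ℝ) ^ l * ((k.1.choose l : ℕ) : ℝ) * ek N (t + l) := by
      intro k
      rw [ek_eq_sum ht N k.1]
      refine sum_subset ?_ ?_
      · intro l hl
        simp only [mem_range] at *
        omega
      · intro l _ hl
        simp only [mem_range] at hl
        rw [Nat.choose_eq_zero_of_lt (by omega)]
        simp
    calc ∑ l ∈ range (N + 1), ∑ a,
          (((-1) ^ l * ∑ k : Fin (N + 1), ((k.1.choose l : ℕ) : ℤ) * y' (k, a) : ℤ) : ℝ) *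
            (ek N (t + l) * φ a t)
        = ∑ l ∈ range (N + 1), ∑ a, ∑ k : Fin (N + 1),
            (y' (k, a) : ℝ) * ((-1 : ℝ) ^ l * ((k.1.choose l : ℕ) : ℝ) * ek N (t + l) * φ a t) := by
          refine sum_congr rfl fun l _ => sum_congr rfl fun a _ => ?_
          push_cast
          rw [mul_sum, sum_mul]
          refine sum_congr rfl fun k _ => ?_
          ring
      _ = ∑ l ∈ range (N + 1), ∑ k : Fin (N + 1), ∑ a,
            (y' (k, a) : ℝ) * ((-1 : ℝ) ^ l * ((k.1.choose l : ℕ) : ℝ) * ek N (t + l) * φ a t) :=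
          sum_congr rfl fun l _ => sum_comm
      _ = ∑ k : Fin (N + 1), ∑ l ∈ range (N + 1), ∑ a,
            (y' (k, a) : ℝ) * ((-1 : ℝ) ^ l * ((k.1.choose l : ℕ) : ℝ) * ek N (t + l) * φ a t) :=
          sum_comm
      _ = ∑ k : Fin (N + 1), ∑ a, ∑ l ∈ range (N + 1),
            (y' (k, a) : ℝ) * ((-1 : ℝ) ^ l * ((k.1.choose l : ℕ) : ℝ) * ek N (t + l) * φ a t) :=
          sum_congr rfl fun k _ => sum_comm
      _ = ∑ k : Fin (N + 1), ∑ a, (y' (k, a) : ℝ) * (ek (N + k.1) t * φ a t) := by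
          refine sum_congr rfl fun k _ => sum_congr rfl fun a _ => ?_
          rw [hE k, sum_mul, mul_sum]

end Pool.MZExp
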