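import Pool.Agent.Lib.MZExp.XSmall
import Pool.Agent.Lib.MZExp.XConv
import Pool.Agent.Lib.MZExp.Defs

/-! MODULE XMain (about 60 lines). MP_301213_nt phase 2: small functions in the beta basis.

PROOF. small_e gives y' for large N; conv (Y = exp(κN)) gives y with |y| ≤ 2^N (N+1) exp(κN) ≤ exp((κ+1) N) (evx_d), and the two sums agree for t = M + 1 (beta_eq_ek: beta N l M = ek N (M+1+l));
bt i M = C(M+1,i) by definition, cast of M + 1. -/

open Finset Filter Topology Pool.MZDim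

namespace Pool.MZExp

theorem exists_small {ι : Type*} [Fintype ι] (φ : ι → ℕ → ℝ) {C : ℝ} (hC : 1 ≤ C)
    (h0 : ∀ a t, 0 ≤ φ a t)
    (hφ : ∀ a k, Expd C k (fun t => ek k t * φ a t)) (Dl κ : ℕ) (hκ : 1 ≤ κ) (hD : Dl ≤ 2 ^ κ)
    (hcard : 2 * (Dl + 2 * κ + 10) ^ 2 + 1 ≤ κ * Fintype.card ι) :
    ∀ᶠ N : ℕ in atTop, ∃ y : ℕ → ι → ℤ, (∃ i ≤ N, ∃ a, y i a ≠ 0) ∧
      (∀ i a, |(y i a : ℝ)| ≤ Real.exp (((κ : ℝ) + 1) * N)) ∧
      ∀ i, i ≤ N / 2 → ∀ M : ℕ,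
        |(∑ l ∈ range (N + 1), ∑ a, (y l a : ℝ) * (beta N l M * φ a (M + 1))) * bt i M| ≤
          Real.exp (-((Dl : ℝ) * N)) / ((M : ℝ) + 1) ^ 2 := by
  filter_upwards [small_e φ hC h0 hφ Dl κ hκ hD hcard, evx_d] with N hN hd
  obtain ⟨y', hy0, hyb, hys⟩ := hN
  obtain ⟨y, hne, hyY, hid⟩ := conv N y' hy0 hyb
  refine ⟨y, hne, fun i a => ?_, fun i hi M => ?_⟩
  · refine (hyY i a).trans ?_
    have h1 : Real.exp (((κ : ℝ) + 1) * N) = Real.exp N * Real.exp (κ * N) := by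
      rw [← Real.exp_add]
      congr 1
      ring
    rw [h1]
    exact mul_le_mul_of_nonneg_right hd (Real.exp_pos _).le
  · have h2 := hys i hi (M + 1) (by omega)
    have h3 := hid φ (M + 1) (by omega)
    have h4 : ∑ l ∈ range (N + 1), ∑ a, (y l a : ℝ) * (beta N l M * φ a (M + 1)) =
        ∑ p, (y' p : ℝ) * (ek (N + p.1) (M + 1) * φ p.2 (M + 1)) := by
      rw [← h3]
      apply Finset.sum_congr rfl
      intro l _
      apply Finset.sum_congr rfl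
      intro a _
      rw [beta_eq_ek]
    rw [h4]
    unfold bt
    have h5 : (((M + 1 : ℕ) : ℝ)) = (M : ℝ) + 1 := by push_cast; ring
    rw [h5] at h2
    exact h2

end Pool.MZExp
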