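import Pool.Agent.Lib.MZExp.XFEq
import Pool.Agent.Lib.MZExp.XFRep
import Pool.Agent.Lib.MZExp.XFRec
import Pool.Agent.Lib.MZExp.UMain
import Pool.Agent.Lib.MZExp.XMain
import Pool.Agent.Lib.MZExp.XCone
import Pool.Agent.Lib.MZExp.Cram

/-! MP_301213_nt, PHASE 2 (all admissible words): from the small linear forms and the zero estimate to a lower
bound of the dimension of the span of all multiple zeta values of weight at most `K`. -/

open Finset Pool.MZDim Filter Topology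

namespace Pool.MZExp

/-! ### all admissible words of weight at most `K` -/

private def xup : List ℕ → List ℕ
  | [] => []
  | (a :: l) => (a + 1) :: l

/-- the nonempty admissible words of weight `n + 2` -/
private def PT : ℕ → Finset (List ℕ)
  | 0 => {[2]}
  | n + 1 => (PT n).image xup ∪ (PT n).image (fun l => 1 :: l)

private theorem mem_PT (n : ℕ) : ∀ l : List ℕ, l ∈ PT n ↔ Adm1 l ∧ l ≠ [] ∧ l.sum = n + 2 := by
  induction n with
  | zero =>
    intro l
    unfold PT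
    rw [Finset.mem_singleton]
    constructor
    · rintro rfl
      exact ⟨adm1_single.2 le_rfl, by simp, by simp⟩
    · rintro ⟨h1, h2, h3⟩
      match l, h2 with
      | [a], _ =>
        have : a = 2 := by simpa using h3
        rw [this]
      | a :: b :: l, _ =>
        exfalso
        obtain ⟨h4, h5⟩ := adm1_cons_cons.1 h1
        have h6 : 2 ≤ (b :: l).sum := by
          have : ∀ l : List ℕ, ∀ b, Adm1 (b :: l) → 2 ≤ (b :: l).sum := by
            intro l
            induction l with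
            | nil =>
              intro b hb
              have := adm1_single.1 hb
              simpa using this
            | cons c l ih =>
              intro b hb
              have := ih c (adm1_cons_cons.1 hb).2
              rw [List.sum_cons]
              omega
          exact this l b h5
        rw [List.sum_cons] at h3
        omega
  | succ n ih =>
    intro l
    have hPT : PT (n + 1) = (PT n).image xup ∪ (PT n).image (fun l => 1 :: l) := rfl
    rw [hPT, Finset.mem_union, Finset.mem_image, Finset.mem_image]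
    constructor
    · rintro (⟨m, hm, rfl⟩ | ⟨m, hm, rfl⟩)
      · obtain ⟨h1, h2, h3⟩ := (ih m).1 hm
        match m, h2 with
        | [a], _ =>
          have := adm1_single.1 h1
          refine ⟨?_, by simp [xup], ?_⟩
          · show Adm1 [a + 1]
            exact adm1_single.2 (by omega)
          · simp [xup] at h3 ⊢
            omega
        | a :: b :: l, _ =>
          obtain ⟨h4, h5⟩ := adm1_cons_cons.1 h1
          refine ⟨?_, by simp [xup], ?_⟩
          · show Adm1 ((a + 1) :: b :: l)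
            exact adm1_cons_cons.2 ⟨by omega, h5⟩
          · simp [xup] at h3 ⊢
            omega
      · obtain ⟨h1, h2, h3⟩ := (ih m).1 hm
        match m, h2 with
        | b :: l, _ =>
          refine ⟨adm1_cons_cons.2 ⟨le_rfl, h1⟩, by simp, ?_⟩
          rw [List.sum_cons, h3]
          omega
    · rintro ⟨h1, h2, h3⟩
      match l, h2 with
      | [a], _ =>
        have ha : a = n + 3 := by simpa using h3
        refine Or.inl ⟨[n + 2], (ih _).2 ⟨adm1_single.2 (by omega), by simp, by simp⟩, ?_⟩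
        simp [xup, ha]
      | a :: b :: l, _ =>
        obtain ⟨h4, h5⟩ := adm1_cons_cons.1 h1
        rw [List.sum_cons] at h3
        rcases Nat.lt_or_ge 1 a with h6 | h6
        · obtain ⟨c, rfl⟩ : ∃ c, a = c + 1 := ⟨a - 1, by omega⟩
          refine Or.inl ⟨c :: b :: l, (ih _).2 ⟨adm1_cons_cons.2 ⟨by omega, h5⟩, by simp, ?_⟩, rfl⟩
          rw [List.sum_cons]
          omega
        · have : a = 1 := by omega
          subst this
          exact Or.inr ⟨b :: l, (ih _).2 ⟨h5, by simp, by omega⟩, rfl⟩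

private theorem card_PT (n : ℕ) : (PT n).card = 2 ^ n := by
  induction n with
  | zero => rfl
  | succ n ih =>
    have hPT : PT (n + 1) = (PT n).image xup ∪ (PT n).image (fun l => 1 :: l) := rfl
    rw [hPT, Finset.card_union_of_disjoint, Finset.card_image_of_injOn,
      Finset.card_image_of_injective _ (List.cons_injective), ih]
    · ring
    · intro x hx y hy h
      have hx' := ((mem_PT n x).1 hx).2.1
      have hy' := ((mem_PT n y).1 hy).2.1
      match x, y, hx', hy' with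
      | a :: l, b :: m, _, _ =>
        simp only [xup, List.cons.injEq] at h
        obtain ⟨h1, h2⟩ := h
        rw [h2, Nat.add_right_cancel h1]
    · rw [Finset.disjoint_left]
      intro x hx hx'
      rw [Finset.mem_image] at hx hx'
      obtain ⟨l, hl, rfl⟩ := hx
      obtain ⟨m, hm, h⟩ := hx'
      obtain ⟨h1, h2, h3⟩ := (mem_PT n l).1 hl
      match l, h2 with
      | a :: l, _ =>
        simp only [xup, List.cons.injEq] at h
        have := h1.head
        omega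

/-- all admissible words of weight at most `K` -/
noncomputable def WT (K : ℕ) : Finset (List ℕ) := insert [] ((range (K - 1)).biUnion PT)

theorem mem_WT {K : ℕ} {l : List ℕ} : l ∈ WT K ↔ Adm1 l ∧ l.sum ≤ K := by
  unfold WT
  rw [Finset.mem_insert, Finset.mem_biUnion]
  constructor
  · rintro (rfl | ⟨n, hn, hl⟩)
    · exact ⟨adm1_nil, by simp⟩
    · obtain ⟨h1, h2, h3⟩ := (mem_PT n l).1 hl
      rw [Finset.mem_range] at hn
      exact ⟨h1, by omega⟩
  · rintro ⟨h1, h2⟩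
    rcases eq_or_ne l [] with h3 | h3
    · exact Or.inl h3
    · right
      have h4 : 2 ≤ l.sum := by
        have : ∀ l : List ℕ, l ≠ [] → Adm1 l → 2 ≤ l.sum := by
          intro l
          induction l with
          | nil => intro h; exact absurd rfl h
          | cons a l ih =>
            intro _ h
            rw [List.sum_cons]
            rcases eq_or_ne l [] with rfl | h5
            · have := adm1_single.1 h
              simpa using this
            · have := ih h5 h.tail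
              omega
        exact this l h3 h1
      refine ⟨l.sum - 2, Finset.mem_range.2 (by omega), (mem_PT _ l).2 ⟨h1, h3, by omega⟩⟩

theorem card_WT (K : ℕ) : (WT K).card = 2 ^ (K - 1) := by
  unfold WT
  rw [Finset.card_insert_of_notMem, Finset.card_biUnion]
  · simp only [card_PT]
    have : ∀ n : ℕ, ∑ i ∈ range n, 2 ^ i + 1 = 2 ^ n := by
      intro n
      induction n with
      | zero => rfl
      | succ n ih => rw [Finset.sum_range_succ, pow_succ]; omega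
    exact this _
  · intro i _ j _ hij
    show Disjoint (PT i) (PT j)
    rw [Finset.disjoint_left]
    intro l h1 h2
    have h3 := ((mem_PT _ _).1 h1).2.2
    have h4 := ((mem_PT _ _).1 h2).2.2
    omega
  · rw [Finset.mem_biUnion]
    rintro ⟨n, _, h⟩
    exact ((mem_PT _ _).1 h).2.1 rfl

theorem TC1_WT (K : ℕ) : TC1 (WT K) := by
  refine ⟨mem_WT.2 ⟨adm1_nil, by simp⟩, fun l hl => (mem_WT.1 hl).1, fun a l hl => ?_⟩
  obtain ⟨h1, h2⟩ := mem_WT.1 hl
  rw [List.sum_cons] at h2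
  exact mem_WT.2 ⟨h1.tail, by omega⟩

/-- the span of all multiple zeta values of weight at most `K` -/
noncomputable def HT (K : ℕ) : Submodule ℚ ℝ :=
  Submodule.span ℚ (Set.range fun l : WT K => HofPers.T (l : List ℕ) 0)

/-! ### the forms -/

private theorem LF_vecT (A : Finset (List ℕ)) (hA : ∀ l ∈ A, Adm1 l) (N : ℕ) (y : ℕ → List ℕ → ℤ) (i : ℕ)
    (hi : i + 1 ≤ N) (v : List ℕ) (hv : Adm1 v) (φ : ℝ →ₗ[ℚ] ℚ) :
    φ (formt A N y i v) = LF A N (fun l v j => φ (ct l v j)) (vec A N y) i v := by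
  have key : ∀ (q : ℚ) (x : ℝ), φ ((q : ℝ) * x) = q * φ x := by
    intro q x
    have : (q : ℝ) * x = q • x := by rw [Rat.smul_def]
    rw [this, map_smul, smul_eq_mul]
  rw [formt_eq A hA N y i hi v hv]
  unfold LF vec
  rw [Fintype.sum_prod_type]
  have h1 : ∀ l a, (y l a : ℝ) *
      ∑ j ∈ range (N + 1), (-1) ^ j * (N.choose j : ℝ) * (bneg (l + j) i : ℝ) * ct a v (l + j) =
      ∑ j ∈ range (N + 1),
        (((y l a : ℚ) * ((-1) ^ j * (N.choose j : ℚ) * (bneg (l + j) i : ℚ)) : ℚ) : ℝ) * ct a v (l + j) := by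
    intro l a
    rw [Finset.mul_sum]
    refine Finset.sum_congr rfl fun j _ => ?_
    push_cast
    ring
  simp only [h1, map_sum, key]
  rw [Finset.sum_range]
  refine Finset.sum_congr rfl fun l _ => ?_
  rw [← Finset.sum_coe_sort A]
  refine Finset.sum_congr rfl fun a _ => ?_
  rw [Finset.mul_sum]
  refine Finset.sum_congr rfl fun j _ => ?_
  ring

private theorem xlow_sqs : Summable (fun M : ℕ => (((M : ℝ) + 1) ^ 2)⁻¹) ∧
    ∑' M : ℕ, (((M : ℝ) + 1) ^ 2)⁻¹ ≤ 2 := by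
  have hs : Summable (fun M : ℕ => (((M : ℝ) + 1) ^ 2)⁻¹) := by
    have h := (summable_nat_add_iff 1).2 (Real.summable_nat_pow_inv.2 (show 1 < 2 by norm_num))
    refine h.congr fun M => ?_
    push_cast
    rfl
  refine ⟨hs, ?_⟩
  refine hs.tsum_le_of_sum_range_le fun n => ?_
  have key : ∀ n : ℕ, ∑ M ∈ range (n + 1), (((M : ℝ) + 1) ^ 2)⁻¹ ≤ 2 - ((n : ℝ) + 1)⁻¹ := by
    intro n
    induction n with
    | zero => simp; norm_num
    | succ n ih =>
      rw [Finset.sum_range_succ]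
      have h2 : (0 : ℝ) ≤ n := Nat.cast_nonneg n
      push_cast
      have h3 : ((n : ℝ) + 1)⁻¹ - ((n : ℝ) + 1 + 1)⁻¹ = (((n : ℝ) + 1) * ((n : ℝ) + 1 + 1))⁻¹ := by
        field_simp
        ring
      have h4 : (((n : ℝ) + 1 + 1) ^ 2)⁻¹ ≤ (((n : ℝ) + 1) * ((n : ℝ) + 1 + 1))⁻¹ := by
        apply inv_anti₀ (by positivity)
        nlinarith
      linarith
  refine (Finset.sum_le_sum_of_subset_of_nonneg (Finset.range_mono (Nat.le_succ n))
    (fun M _ _ => by positivity)).trans ((key n).trans ?_)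
  have : (0 : ℝ) ≤ ((n : ℝ) + 1)⁻¹ := by positivity
  linarith

private theorem expd_mono {C C' : ℝ} (h : C ≤ C') {k : ℕ} {F : ℕ → ℝ} (hF : Expd C k F) : Expd C' k F := by
  obtain ⟨g, h1, h2, h3, h4⟩ := hF
  refine ⟨g, h1, h2, fun i => (h3 i).trans ?_, fun t ht V => (h4 t ht V).trans ?_⟩
  · exact mul_le_mul_of_nonneg_left h (by positivity)
  · have := xc_ek_nonneg V t
    have hV : (0 : ℝ) ≤ (V : ℝ) + 1 := by positivity
    exact mul_le_mul_of_nonneg_right (mul_le_mul_of_nonneg_right h hV) this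

private theorem T_le2 {l : List ℕ} (h : Adm1 l) (M : ℕ) : HofPers.T l M ≤ 2 := by
  rcases eq_or_ne l [] with rfl | h0
  · rw [HofPers.T_nil]
    norm_num
  · refine (T_le_two h h0 M).trans ?_
    have : (0 : ℝ) ≤ M := Nat.cast_nonneg M
    rw [div_le_iff₀ (by positivity)]
    linarith

private theorem T_nn (l : List ℕ) (M : ℕ) : 0 ≤ HofPers.T l M := ENNReal.toReal_nonneg

/-- nonzero `y` with small `f_y` -/
theorem exists_yT (A : Finset (List ℕ)) (hA : ∀ l ∈ A, Adm1 l) (Dl κ : ℕ) (hκ : 1 ≤ κ)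
    (hD : Dl ≤ 2 ^ κ) (hcard : 2 * (Dl + 2 * κ + 10) ^ 2 + 1 ≤ κ * A.card) :
    ∀ᶠ N : ℕ in atTop, ∃ y : ℕ → List ℕ → ℤ, (∃ i ≤ N, ∃ a ∈ A, y i a ≠ 0) ∧
      (∀ i a, |(y i a : ℝ)| ≤ Real.exp (((κ : ℝ) + 1) * N)) ∧
      ∀ i, i ≤ N / 2 → ∀ M : ℕ,
        |(∑ l ∈ range (N + 1), ∑ a ∈ A, (y l a : ℝ) * (beta N l M * HofPers.T a (M + 1))) * bt i M| ≤
          Real.exp (-((Dl : ℝ) * N)) * (((M : ℝ) + 1) ^ 2)⁻¹ := by
  classical
  have h := exists_small (ι := A) (fun a t => HofPers.T (a : List ℕ) t) (C := 2) (by norm_num)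
    (fun a t => T_nn _ _) (fun a k => expd_mono (T_le2 (hA a a.2) 1) (expd_T (hA a a.2) k)) Dl κ hκ hD
    (by rw [Fintype.card_coe]; exact hcard)
  filter_upwards [h] with N hN
  obtain ⟨y, ⟨i0, hi0, a0, ha0⟩, h2, h3⟩ := hN
  refine ⟨fun i a => if ha : a ∈ A then y i ⟨a, ha⟩ else 0, ⟨i0, hi0, a0, a0.2, ?_⟩, fun i a => ?_,
    fun i hi M => ?_⟩
  · show (if ha : (a0 : List ℕ) ∈ A then y i0 ⟨a0, ha⟩ else 0) ≠ 0
    rw [dif_pos a0.2]
    exact ha0
  · show |(((if ha : a ∈ A then y i ⟨a, ha⟩ else 0) : ℤ) : ℝ)| ≤ _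
    split_ifs with ha
    · exact h2 i ⟨a, ha⟩
    · simp
      positivity
  · have h4 := h3 i hi M
    rw [div_eq_mul_inv] at h4
    have e : (∑ l ∈ range (N + 1), ∑ a ∈ A, (((fun i a => if ha : a ∈ A then y i ⟨a, ha⟩ else 0) l a : ℤ) : ℝ) *
        (beta N l M * HofPers.T a (M + 1))) =
        ∑ l ∈ range (N + 1), ∑ a : A, (y l a : ℝ) * (beta N l M * HofPers.T (a : List ℕ) (M + 1)) := by
      refine Finset.sum_congr rfl fun l _ => ?_
      rw [← Finset.sum_coe_sort A]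
      refine Finset.sum_congr rfl fun a _ => ?_
      show (((if ha : (a : List ℕ) ∈ A then y l ⟨a, ha⟩ else 0 : ℤ)) : ℝ) * _ = _
      rw [dif_pos a.2]
    rw [e]
    exact h4

private theorem formt_small (A B : Finset (List ℕ)) (hB : ∀ l ∈ B, Adm1 l) (N Dl : ℕ)
    (y : ℕ → List ℕ → ℤ) (hN : 2 ≤ N)
    (h : ∀ i, i ≤ N / 2 → ∀ M : ℕ,
        |(∑ l ∈ range (N + 1), ∑ a ∈ A, (y l a : ℝ) * (beta N l M * HofPers.T a (M + 1))) * bt i M| ≤
          Real.exp (-((Dl : ℝ) * N)) * (((M : ℝ) + 1) ^ 2)⁻¹) (i : ℕ)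
    (hi : i ≤ N / 2) (v : List ℕ) (hv : v ∈ B) :
    |formt A N y i v| ≤ Real.exp (-(((Dl : ℝ) - 1) * N)) := by
  unfold formt
  obtain ⟨hs, hs2⟩ := xlow_sqs
  have h1 : ∀ M : ℕ, ‖(∑ l ∈ range (N + 1), ∑ a ∈ A, (y l a : ℝ) * (beta N l M * HofPers.T a (M + 1))) *
      bt i M * HofPers.T v (M + 1)‖ ≤ 2 * Real.exp (-((Dl : ℝ) * N)) * (((M : ℝ) + 1) ^ 2)⁻¹ := by
    intro M
    rw [Real.norm_eq_abs, abs_mul, abs_of_nonneg (T_nn v (M + 1))]
    calc _ ≤ (Real.exp (-((Dl : ℝ) * N)) * (((M : ℝ) + 1) ^ 2)⁻¹) * 2 :=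
          mul_le_mul (h i hi M) (T_le2 (hB v hv) (M + 1)) (T_nn v (M + 1)) (by positivity)
      _ = _ := by ring
  have h2 := tsum_of_norm_bounded ((hs.hasSum).mul_left (2 * Real.exp (-((Dl : ℝ) * N)))) h1
  rw [Real.norm_eq_abs] at h2
  refine h2.trans ?_
  have h3 : (4 : ℝ) ≤ Real.exp N := by
    have h4 : (2 : ℝ) ≤ N := by exact_mod_cast hN
    have h5 : Real.exp 2 ≤ Real.exp N := Real.exp_le_exp.2 h4
    have h6 : (2.7182818283 : ℝ) < Real.exp 1 := Real.exp_one_gt_d9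
    have h7 : Real.exp 2 = Real.exp 1 * Real.exp 1 := by
      rw [← Real.exp_add]
      norm_num
    nlinarith
  have h4 : Real.exp (-(((Dl : ℝ) - 1) * N)) = Real.exp N * Real.exp (-((Dl : ℝ) * N)) := by
    rw [← Real.exp_add]
    congr 1
    ring
  rw [h4]
  have h5 := Real.exp_pos (-((Dl : ℝ) * N))
  calc 2 * Real.exp (-((Dl : ℝ) * N)) * ∑' M : ℕ, (((M : ℝ) + 1) ^ 2)⁻¹
      ≤ 2 * Real.exp (-((Dl : ℝ) * N)) * 2 := mul_le_mul_of_nonneg_left hs2 (by positivity)
    _ = 4 * Real.exp (-((Dl : ℝ) * N)) := by ring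
    _ ≤ _ := mul_le_mul_of_nonneg_right h3 h5.le

private theorem ct_recU (φ : ℝ →ₗ[ℚ] ℚ) (h : φ 1 = 1) : RecU (fun l v j => φ (ct l v j)) := by
  obtain ⟨R, h1, -, h3, h4⟩ := ct_rec φ
  refine ⟨R, fun u v => φ (HofPers.T u 0 * HofPers.T v 0), h1, ?_, fun u v => (h3 u v).trans (Nat.le_succ _),
    fun j u v hj hu hv => h4 j hj u v hu hv⟩
  show φ (HofPers.T [] 0 * HofPers.T [] 0) = 1
  rw [HofPers.T_nil, mul_one, h]

private theorem lcm3 : ∀ᶠ N : ℕ in atTop, ((Nat.lcmUpto (2 * N) : ℕ) : ℝ) ≤ Real.exp (3 * N) := by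
  have h1 : ∀ᶠ x : ℝ in atTop, ‖Real.log x‖ ≤ 1 / 20 * ‖x ^ ((1 : ℝ) / 2)‖ :=
    (isLittleO_log_rpow_atTop (by norm_num : (0 : ℝ) < 1 / 2)).bound (by norm_num)
  have h2 : Tendsto (fun N : ℕ => ((2 * N : ℕ) : ℝ)) atTop atTop :=
    tendsto_natCast_atTop_atTop.comp (tendsto_id.const_mul_atTop' (by norm_num))
  filter_upwards [h2.eventually h1, eventually_ge_atTop 1] with N hN hN1
  have hpos : (0 : ℝ) < ((Nat.lcmUpto (2 * N) : ℕ) : ℝ) := by
    exact_mod_cast Nat.lcmUpto_pos (2 * N)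
  rw [← Real.log_le_iff_le_exp hpos, ← Chebyshev.psi_eq_log_lcmUpto]
  have hx1 : (1 : ℝ) ≤ ((2 * N : ℕ) : ℝ) := by exact_mod_cast (by omega : 1 ≤ 2 * N)
  refine (Chebyshev.psi_le hx1).trans ?_
  have h4 : Real.log 4 = 2 * Real.log 2 := by
    rw [show (4 : ℝ) = 2 ^ 2 by norm_num, Real.log_pow]
    norm_num
  have h5 := Real.log_two_lt_d9
  have hl0 : 0 ≤ Real.log ((2 * N : ℕ) : ℝ) := Real.log_nonneg hx1
  rw [← Real.sqrt_eq_rpow, Real.norm_of_nonneg hl0, Real.norm_of_nonneg (Real.sqrt_nonneg _)] at hN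
  have h6 : √((2 * N : ℕ) : ℝ) * Real.log ((2 * N : ℕ) : ℝ) ≤ 1 / 20 * ((2 * N : ℕ) : ℝ) := by
    calc √((2 * N : ℕ) : ℝ) * Real.log ((2 * N : ℕ) : ℝ)
        ≤ √((2 * N : ℕ) : ℝ) * (1 / 20 * √((2 * N : ℕ) : ℝ)) :=
          mul_le_mul_of_nonneg_left hN (Real.sqrt_nonneg _)
      _ = 1 / 20 * (√((2 * N : ℕ) : ℝ) * √((2 * N : ℕ) : ℝ)) := by ring
      _ = _ := by rw [Real.mul_self_sqrt (by positivity)]
  rw [h4]
  push_cast at h6 ⊢
  have hN0 : (0 : ℝ) ≤ N := Nat.cast_nonneg N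
  nlinarith

private theorem ev_coeffT (C κ : ℕ) :
    ∀ᶠ N : ℕ in atTop, (16 : ℝ) ^ N * Real.exp (((κ : ℝ) + 1) * N) * (C * ((N : ℝ) + 1) ^ C) ≤
      Real.exp (((κ : ℝ) + 4) * N) := by
  have h1 : (fun x : ℝ => x ^ C) =o[atTop] fun x => Real.exp (1 / 10 * x) :=
    isLittleO_pow_exp_pos_mul_atTop C (by norm_num)
  have h2 : ∀ᶠ x : ℝ in atTop, ‖x ^ C‖ ≤ 1 / ((C : ℝ) + 1) * ‖Real.exp (1 / 10 * x)‖ :=
    h1.bound (by positivity)
  have h3 : Tendsto (fun N : ℕ => (N : ℝ) + 1) atTop atTop :=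
    tendsto_atTop_add_const_right _ _ tendsto_natCast_atTop_atTop
  filter_upwards [h3.eventually h2, eventually_ge_atTop 1] with N hN hN1
  have hNr : (1 : ℝ) ≤ N := by exact_mod_cast hN1
  have hC0 : (0 : ℝ) ≤ C := Nat.cast_nonneg C
  rw [Real.norm_of_nonneg (by positivity), Real.norm_of_nonneg (Real.exp_pos _).le] at hN
  have h4 : (C : ℝ) * ((N : ℝ) + 1) ^ C ≤ Real.exp (1 / 10 * ((N : ℝ) + 1)) := by
    calc (C : ℝ) * ((N : ℝ) + 1) ^ C ≤ ((C : ℝ) + 1) * ((N : ℝ) + 1) ^ C :=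
          mul_le_mul_of_nonneg_right (by linarith) (by positivity)
      _ ≤ ((C : ℝ) + 1) * (1 / ((C : ℝ) + 1) * Real.exp (1 / 10 * ((N : ℝ) + 1))) :=
          mul_le_mul_of_nonneg_left hN (by positivity)
      _ = _ := by field_simp
  have h5 : (16 : ℝ) ^ N = Real.exp (N * (4 * Real.log 2)) := by
    rw [Real.exp_nat_mul]
    congr 1
    rw [show (4 : ℝ) * Real.log 2 = ((4 : ℕ) : ℝ) * Real.log 2 by norm_num, Real.exp_nat_mul,
      Real.exp_log (by norm_num)]
    norm_num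
  have hlog := Real.log_two_lt_d9
  calc (16 : ℝ) ^ N * Real.exp (((κ : ℝ) + 1) * N) * (C * ((N : ℝ) + 1) ^ C)
      ≤ Real.exp (N * (4 * Real.log 2)) * Real.exp (((κ : ℝ) + 1) * N) *
          Real.exp (1 / 10 * ((N : ℝ) + 1)) := by
        rw [h5]
        exact mul_le_mul_of_nonneg_left h4 (by positivity)
    _ = Real.exp (N * (4 * Real.log 2) + ((κ : ℝ) + 1) * N + 1 / 10 * ((N : ℝ) + 1)) := by
        rw [← Real.exp_add, ← Real.exp_add]
    _ ≤ Real.exp (((κ : ℝ) + 4) * N) := by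
        rw [Real.exp_le_exp]
        nlinarith

theorem lowerT (A B : Finset (List ℕ)) (w w' Dl κ : ℕ) (hA : TC1 A) (hB : TC1 B)
    (hAw : ∀ l ∈ A, l.sum ≤ w) (hBw : ∀ l ∈ B, l.sum ≤ w') (hκ : 1 ≤ κ) (hD : Dl ≤ 2 ^ κ)
    (h1 : 2 * (Dl + 2 * κ + 10) ^ 2 + 1 ≤ κ * A.card) (h2 : 4 * A.card < B.card) :
    (Dl : ℝ) - 1 - 3 * ((w + w' + 1 : ℕ) : ℝ) ≤ (3 * ((w + w' + 1 : ℕ) : ℝ) + (κ + 4)) *
      (2 * (Module.finrank ℚ (HT (w + w' + 1)) : ℝ) - 1) := by
  set K : ℕ := w + w' + 1 with hK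
  obtain ⟨C, hC⟩ := formt_rep A B w w' (fun l hl => ⟨hA.2.1 l hl, hAw l hl⟩)
    (fun l hl => ⟨hB.2.1 l hl, hBw l hl⟩)
  obtain ⟨N0, hN0⟩ := zero_estU A B hA hB h2
  refine cramer_dim (fun l : WT K => HofPers.T (l : List ℕ) 0) _ _ (by positivity) ?_
  filter_upwards [ev_coeffT C κ, exists_yT A hA.2.1 Dl κ hκ hD h1,
    eventually_ge_atTop N0, eventually_ge_atTop 2, lcm3] with N e1 e2 e4 e5 e6
  obtain ⟨y, hyne, hyb, hys⟩ := e2
  have hY1 : (1 : ℝ) ≤ Real.exp (((κ : ℝ) + 1) * N) := Real.one_le_exp (by positivity)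
  have hrep := hC N (by omega) y (Real.exp (((κ : ℝ) + 1) * N)) hY1 hyb
  have hsmall := formt_small A B hB.2.1 N Dl y e5 hys
  set D : ℕ := Nat.lcmUpto (2 * N) with hD'
  have hDle : (D : ℝ) ^ K ≤ Real.exp (3 * K * N) := by
    calc (D : ℝ) ^ K ≤ Real.exp (3 * N) ^ K := pow_le_pow_left₀ (Nat.cast_nonneg _) e6 K
      _ = Real.exp (3 * K * N) := by
        rw [← Real.exp_nat_mul]
        congr 1
        ring
  refine ⟨{u | ∃ i, i ≤ N / 2 ∧ ∃ v ∈ B, (∀ l, |((u l : ℤ) : ℝ)| ≤ Real.exp ((3 * K + (κ + 4)) * N)) ∧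
    ∑ l, ((u l : ℤ) : ℝ) * HofPers.T (l : List ℕ) 0 = (D : ℝ) ^ K * formt A N y i v}, ?_, ?_, ?_⟩
  · rintro u ⟨i, hi, v, hv, h3, h4⟩ l
    exact h3 l
  · rintro u ⟨i, hi, v, hv, h3, h4⟩
    rw [h4, abs_mul, abs_of_nonneg (by positivity)]
    calc (D : ℝ) ^ K * |formt A N y i v|
        ≤ Real.exp (3 * K * N) * Real.exp (-(((Dl : ℝ) - 1) * N)) :=
          mul_le_mul hDle (hsmall i hi v hv) (abs_nonneg _) (Real.exp_pos _).le
      _ = Real.exp (-(((Dl : ℝ) - 1 - 3 * K) * N)) := by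
          rw [← Real.exp_add]
          congr 1
          ring
  · by_contra hcon
    obtain ⟨φ, hφ1, hφ2⟩ : ∃ φ : ℝ →ₗ[ℚ] ℚ, φ 1 = 1 ∧ ∀ x ∈ Submodule.span ℚ {x : ℝ | ∃ u ∈
        {u : WT K → ℤ | ∃ i, i ≤ N / 2 ∧ ∃ v ∈ B,
          (∀ l, |((u l : ℤ) : ℝ)| ≤ Real.exp ((3 * K + (κ + 4)) * N)) ∧
          ∑ l, ((u l : ℤ) : ℝ) * HofPers.T (l : List ℕ) 0 = (D : ℝ) ^ K * formt A N y i v},
        x = ∑ l, ((u l : ℤ) : ℝ) * HofPers.T (l : List ℕ) 0}, φ x = 0 := by
      obtain ⟨f, hf1, hf2⟩ := Submodule.exists_le_ker_of_notMem hcon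
      refine ⟨(f 1)⁻¹ • f, ?_, ?_⟩
      · rw [LinearMap.smul_apply, smul_eq_mul, inv_mul_cancel₀ hf1]
      · intro x hx
        rw [LinearMap.smul_apply, smul_eq_mul]
        have := hf2 hx
        rw [LinearMap.mem_ker] at this
        rw [this, mul_zero]
    have hx : vec A N y ≠ 0 := by
      obtain ⟨i, hi, l, hl, hne⟩ := hyne
      intro h0
      have := congrFun h0 (⟨i, by omega⟩, ⟨l, hl⟩)
      simp [vec] at this
      exact hne this
    obtain ⟨i, hi, v, hv, hLF⟩ := hN0 N e4 _ (ct_recU φ hφ1) (vec A N y) hx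
    apply hLF
    have hi' : i + 1 ≤ N := by omega
    rw [← LF_vecT A hA.2.1 N y i hi' v (hB.2.1 v hv) φ]
    obtain ⟨b, hb1, hb2, hb3, hb4⟩ := hrep i hi v hv
    choose zz hzz using hb2
    have hsupp : b.support ⊆ WT K := fun l hl => mem_WT.2 (hb1 l hl)
    have hval : ∑ l : WT K, ((zz l : ℤ) : ℝ) * HofPers.T (l : List ℕ) 0 = (D : ℝ) ^ K * formt A N y i v := by
      rw [← hb4, Finset.mul_sum]
      rw [Finset.sum_coe_sort (WT K) (fun l => ((zz l : ℤ) : ℝ) * HofPers.T l 0)]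
      rw [← Finset.sum_subset hsupp]
      · refine Finset.sum_congr rfl fun l _ => ?_
        have := hzz l
        have h5 : ((zz l : ℤ) : ℝ) = (D : ℝ) ^ K * ((b l : ℚ) : ℝ) := by
          have h6 : (((zz l : ℤ) : ℚ) : ℝ) = (((D : ℚ) ^ K * b l : ℚ) : ℝ) := by rw [← this]
          push_cast at h6
          exact_mod_cast h6
        rw [h5]
        ring
      · intro l _ hl
        rw [Finsupp.notMem_support_iff] at hl
        have := hzz l
        rw [hl, mul_zero] at this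
        have h6 : zz l = 0 := by exact_mod_cast this.symm
        rw [h6]
        simp
    have hbd : ∀ l : WT K, |((zz l : ℤ) : ℝ)| ≤ Real.exp ((3 * K + (κ + 4)) * N) := by
      intro l
      have h5 : ((zz l : ℤ) : ℝ) = (D : ℝ) ^ K * ((b l : ℚ) : ℝ) := by
        have := hzz l
        have h6 : (((zz l : ℤ) : ℚ) : ℝ) = (((D : ℚ) ^ K * b l : ℚ) : ℝ) := by rw [← this]
        push_cast at h6
        exact_mod_cast h6
      have h7 : |((b l : ℚ) : ℝ)| ≤
          16 ^ N * Real.exp (((κ : ℝ) + 1) * N) * (C * ((N : ℝ) + 1) ^ C) := by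
        by_cases hl : (l : List ℕ) ∈ b.support
        · exact (Finset.single_le_sum (f := fun l => |((b l : ℚ) : ℝ)|) (fun _ _ => abs_nonneg _) hl).trans hb3
        · rw [Finsupp.notMem_support_iff] at hl
          rw [hl]
          simp
          positivity
      rw [h5, abs_mul, abs_of_nonneg (by positivity)]
      calc (D : ℝ) ^ K * |((b l : ℚ) : ℝ)| ≤ Real.exp (3 * K * N) * Real.exp (((κ : ℝ) + 4) * N) :=
            mul_le_mul hDle (h7.trans e1) (abs_nonneg _) (Real.exp_pos _).le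
        _ = Real.exp ((3 * K + (κ + 4)) * N) := by
            rw [← Real.exp_add]
            congr 1
            ring
    have h8 : φ ((D : ℝ) ^ K * formt A N y i v) = 0 := by
      refine hφ2 _ (Submodule.subset_span ⟨fun l => zz l, ⟨i, hi, v, hv, hbd, hval⟩, hval.symm⟩)
    have h9 : (D : ℝ) ^ K * formt A N y i v = ((D : ℚ) ^ K) • formt A N y i v := by
      rw [Rat.smul_def]
      push_cast
      rfl
    rw [h9, map_smul, smul_eq_mul] at h8
    have h10 : ((D : ℚ) ^ K) ≠ 0 := by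
      have : 0 < D := Nat.lcmUpto_pos (2 * N)
      positivity
    exact (mul_eq_zero.1 h8).resolve_left h10

end Pool.MZExp
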