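import Pool.Agent.Lib.MZExp.XTE
import Pool.Agent.Lib.MZExp.Defs

/-! MP_301213_nt, exponential growth, PHASE 2, group XF (forms for ALL admissible words): definitions.

Words: lists, the HEAD belongs to the SMALLEST variable, `Adm1 l` (letters `≥ 1`, last letter `≥ 2`),
`h_l(t) = HofPers.T l t = ∑_{t < n_1 < ... < n_r} ∏ n_i^(-l_i)`, `T l 0` is the multiple zeta value.
Sums over `t ≥ 1` are sums over `M : ℕ` with `t = M + 1`. -/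

open HofPers Finset Pool.MZDim

namespace Pool.MZExp

/-- `c_j(α,v) = ∑_{t ≥ 1} h_α(t) h_v(t) (1/(t+j) - 1/t)` -/
noncomputable def ct (l v : List ℕ) (j : ℕ) : ℝ :=
  ∑' M : ℕ, T l (M + 1) * T v (M + 1) * (((M : ℝ) + 1 + j)⁻¹ - ((M : ℝ) + 1)⁻¹)

/-- `D(l;u) = ∑_{t ≥ 1} h_l(t) (1/t - 1/(t+u))` -/
noncomputable def Dt (l : List ℕ) (u : ℕ) : ℝ :=
  ∑' M : ℕ, T l (M + 1) * (((M : ℝ) + 1)⁻¹ - ((M : ℝ) + 1 + u)⁻¹)

/-- `W_a(l,v;u) = ∑_{t ≥ 1} t^(-a) h_l(t) h_v(t) / (t+u)` -/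
noncomputable def Wt (a : ℕ) (l v : List ℕ) (u : ℕ) : ℝ :=
  ∑' M : ℕ, (((M : ℝ) + 1) ^ a)⁻¹ * ((M : ℝ) + 1 + u)⁻¹ * (T l (M + 1) * T v (M + 1))

/-- the linear form `∑_{t ≥ 1} f_y(t) C(t,i) h_v(t)` -/
noncomputable def formt (A : Finset (List ℕ)) (N : ℕ) (y : ℕ → List ℕ → ℤ) (i : ℕ) (v : List ℕ) : ℝ :=
  ∑' M : ℕ, (∑ l ∈ range (N + 1), ∑ a ∈ A, (y l a : ℝ) * (beta N l M * T a (M + 1))) * bt i M *
    T v (M + 1)

/-- `x` is a rational combination of the values `T l 0` of admissible words (letters `≥ 1`) of weight at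
most `k`, the coefficients have common denominator `(lcm (1..n)) ^ k`, the sum of their absolute values is
at most `B` -/
def Rep1 (n k : ℕ) (B x : ℝ) : Prop :=
  ∃ b : List ℕ →₀ ℚ, (∀ l ∈ b.support, Adm1 l ∧ l.sum ≤ k) ∧
    (∀ l, ∃ z : ℤ, ((Nat.lcmUpto n : ℕ) : ℚ) ^ k * b l = z) ∧
    ∑ l ∈ b.support, |((b l : ℚ) : ℝ)| ≤ B ∧
    ∑ l ∈ b.support, ((b l : ℚ) : ℝ) * T l 0 = x

end Pool.MZExp
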