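import Pool.Agent.Lib.MZExp.UDefs
import Pool.Agent.Lib.MZExp.XFDefs

/-! MP_301213_nt, EXPONENT 1/3 (paper: team store `MP_301213_nt_paper56.md`): definitions.

`dim_ℚ Z_k ≥ c 2^(k/3) / k^(5/3)`: Siegel's lemma over ALL coordinates of the linear forms (all
coordinates but the first one vanish), zero estimate for the first coordinate modulo the others. -/

open HofPers Finset Polynomial Pool.MZDim

namespace Pool.MZExp

/-- the shift recursion of `RecU` with `F [] [] = e` -/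
def RecV (e : ℚ) (c : List ℕ → List ℕ → ℕ → ℚ) : Prop :=
  ∃ (R : List ℕ → List ℕ → ℚ[X]) (F : List ℕ → List ℕ → ℚ), R [] [] = 0 ∧ F [] [] = e ∧
    (∀ u v, (R u v).natDegree ≤ u.sum + v.sum + 1) ∧
    ∀ (j : ℕ) (u v : List ℕ), 1 ≤ j → Adm1 u → Adm1 v →
      c u v (j + 1) = tp (-(j : ℚ)⁻¹) (fun u' => tp (-(j : ℚ)⁻¹) (fun v' => c u' v' j) v) u
        + (R u v).eval (j : ℚ)⁻¹ - F u v * ((j : ℚ) + 1)⁻¹

/-- value of a functional at the column `(k, α)` and the test function `C(t,i) h_v(t)`; `c j` is the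
value of the functional at `c_j(v,α)` -/
def LC (N : ℕ) (c : ℕ → ℚ) (k i : ℕ) : ℚ :=
  ∑ j ∈ range (N + k + 1), (-1) ^ j * ((N + k).choose j : ℚ) * (bneg j i : ℚ) * c j

/-- `∑_(t ≥ 1) e_(N+k)(t) h_α(t) C(t,i) h_v(t)`, `t = M + 1` -/
noncomputable def Lv (N k : ℕ) (α : List ℕ) (i : ℕ) (v : List ℕ) : ℝ :=
  ∑' M : ℕ, ek (N + k) (M + 1) * T α (M + 1) * bt i M * T v (M + 1)

/-- `(dI S I f) u = f (I ++ u)` if `I ++ u ∈ S`, and `0` otherwise -/
noncomputable def dI {K : Type*} [Field K] (S : Finset (List ℕ)) (I : List ℕ) (f : S → K) : S → K :=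
  fun u => if h : I ++ u.1 ∈ S then f ⟨I ++ u.1, h⟩ else 0

/-- a retraction onto the invariants of `τ` -/
structure Retr {K : Type*} [Field K] (τ : K ≃+* K) (ρ : K → K) : Prop where
  add : ∀ a b, ρ (a + b) = ρ a + ρ b
  smul : ∀ k a, τ k = k → ρ (k * a) = k * ρ a
  inv : ∀ a, τ (ρ a) = ρ a
  one : ρ 1 = 1

/-- a family of functions of words as one function of words: the value at `v ++ [i + 1]` is the value of
the `i`-th function at `v` -/
def encf {β : Type*} [Zero β] (g : ℕ → List ℕ → β) (u : List ℕ) : β :=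
  if u = [] then 0 else g (u.getLastD 0 - 1) u.dropLast

/-- the words `[]` and `v ++ [i + 1]`, `v ∈ S`, `i < r` -/
def encW (S : Finset (List ℕ)) (r : ℕ) : Finset (List ℕ) :=
  insert [] ((S ×ˢ range r).image fun p => p.1 ++ [p.2 + 1])

/-- the span of the multiple zeta values of the words of `U` -/
noncomputable def HU (U : Finset (List ℕ)) : Submodule ℚ ℝ :=
  Submodule.span ℚ (Set.range fun l : U => T (l : List ℕ) 0)

/-- the numbers `Lv N k α i v` are combinations of the values of words of `U` with coefficients of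
denominator `(lcm (1..2N)) ^ K` and height `32^N poly (N)` -/
def RepU (A S U : Finset (List ℕ)) (K : ℕ) : Prop :=
  ∃ C : ℕ, ∀ N : ℕ, 1 ≤ N → ∀ k ≤ N, ∀ α ∈ A, ∀ i ≤ N / 2, ∀ v ∈ S, ∃ b : List ℕ →₀ ℚ,
    b.support ⊆ U ∧ (∀ l, ∃ z : ℤ, ((Nat.lcmUpto (2 * N) : ℕ) : ℚ) ^ K * b l = z) ∧
    ∑ l ∈ b.support, |((b l : ℚ) : ℝ)| ≤ 32 ^ N * (C * ((N : ℝ) + 1) ^ C) ∧
    ∑ l ∈ b.support, ((b l : ℚ) : ℝ) * T l 0 = Lv N k α i v

end Pool.MZExp
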