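import Mathlib

/-! MP_301213_nt, EXPONENT 1/3, module `VBas` (130 lines, only Mathlib): coordinates with respect to a basis
of the span which contains `1`.

PROOF. `H = span`, `r = finrank H ≥ 1`. A functional `φ0 : ℝ →ₗ[ℚ] ℚ` with `φ0 1 = 1` exists (e.g.
`Module.exists_dual_forall_apply_eq_zero_iff`, `exists_dual_map_eq_bot`, or
`LinearMap.exists_leftInverse_of_injective`, or `Submodule.exists_le_ker_of_notMem` as in `XLower`).
`H0 = H ⊓ ker φ0`, `finrank H0 = r - 1`: `H = H0 ⊕ ℚ 1` (only `finrank H0 ≤ r - 1` is needed: `H0 < H`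
because `1 ∈ H \ H0`, `Submodule.finrank_lt_finrank_of_lt`). `b` a basis of `H0` indexed by
`Fin (finrank H0)`; extend the coordinate functionals to `ψ_i : ℝ →ₗ[ℚ] ℚ` (`LinearMap.exists_extend`).
`Φ 0 = φ0`, `Φ (i+1) = ψ_i ∘ (id - φ0 • 1)` for `i < finrank H0` and `0` for larger `i`. Then `Φ (i+1) 1 = 0`.
If `x ∈ H` and `Φ i x = 0` for `1 ≤ i < r`, then `x - φ0 x • 1 ∈ H0` has zero coordinates, so it is `0`.
Integrality: only finitely many `i` matter; `IsLocalization.exist_integer_multiples_of_finite` for the family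
`(i, l) ↦ Φ i (z l)`, `i < r` (see the private `lemA` in `Cram`), `q` its absolute value (or `q^2`), `C0` the
sum of the absolute values of the integers. -/

open Finset

namespace Pool.MZExp

private theorem vbas_int {κ : Type*} [Fintype κ] (f : κ → ℚ) :
    ∃ q C0 : ℕ, 1 ≤ q ∧ ∀ k, ∃ m : ℤ, (q : ℚ) * f k = m ∧ |m| ≤ (C0 : ℤ) := by
  classical
  have h1 : ∀ k, ∃ m : ℤ, ((∏ k', (f k').den : ℕ) : ℚ) * f k = m := by
    intro k
    obtain ⟨c, hc⟩ := dvd_prod_of_mem (fun k' => (f k').den) (mem_univ k)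
    refine ⟨c * (f k).num, ?_⟩
    rw [hc]
    push_cast
    have h2 : ((f k).den : ℚ) * f k = (f k).num := Rat.den_mul_eq_num (f k)
    calc ((f k).den : ℚ) * c * f k = c * (((f k).den : ℚ) * f k) := by ring
      _ = _ := by rw [h2]
  choose m hm using h1
  refine ⟨∏ k', (f k').den, ∑ k, (m k).natAbs, ?_, fun k => ⟨m k, hm k, ?_⟩⟩
  · exact Nat.one_le_iff_ne_zero.2 (prod_ne_zero_iff.2 fun k _ => (f k).den_nz)
  · have h3 : (m k).natAbs ≤ ∑ k, (m k).natAbs :=
      single_le_sum (f := fun k => (m k).natAbs) (fun _ _ => Nat.zero_le _) (mem_univ k)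
    rw [Int.abs_eq_natAbs]
    exact_mod_cast h3

theorem exists_coord {ι : Type*} [Fintype ι] (z : ι → ℝ)
    (h1 : (1 : ℝ) ∈ Submodule.span ℚ (Set.range z)) :
    ∃ (Φ : ℕ → (ℝ →ₗ[ℚ] ℚ)) (q C0 : ℕ), 1 ≤ q ∧ (∀ i, Φ i 1 = if i = 0 then 1 else 0) ∧
      (∀ x ∈ Submodule.span ℚ (Set.range z),
        (∀ i, 1 ≤ i → i < Module.finrank ℚ (Submodule.span ℚ (Set.range z)) → Φ i x = 0) →
        x = ((Φ 0 x : ℚ) : ℝ)) ∧
      ∀ i l, ∃ m : ℤ, (q : ℚ) * Φ i (z l) = m ∧ |m| ≤ (C0 : ℤ) := by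
  classical
  obtain ⟨φ0, hφ0⟩ := LinearMap.exists_leftInverse_of_injective
    (LinearMap.toSpanSingleton ℚ ℝ (1 : ℝ)) (by
      rw [LinearMap.ker_eq_bot']
      intro a ha
      have : a • (1 : ℝ) = 0 := ha
      rcases smul_eq_zero.1 this with h | h
      · exact h
      · exact absurd h one_ne_zero)
  have hφ1 : φ0 1 = 1 := by
    have h := LinearMap.congr_fun hφ0 1
    simpa using h
  set H := Submodule.span ℚ (Set.range z) with hH
  have hfin : FiniteDimensional ℚ H := FiniteDimensional.span_of_finite ℚ (Set.finite_range z)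
  set H0 : Submodule ℚ ℝ := H ⊓ LinearMap.ker φ0 with hH0
  have hlt : H0 < H := by
    refine lt_of_le_of_ne inf_le_left fun h => ?_
    have h2 : (1 : ℝ) ∈ H0 := by rw [h]; exact h1
    have h3 : φ0 1 = 0 := h2.2
    rw [hφ1] at h3
    exact one_ne_zero h3
  have hd : Module.finrank ℚ H0 < Module.finrank ℚ H := Submodule.finrank_lt_finrank_of_lt hlt
  have : FiniteDimensional ℚ H0 := Submodule.finiteDimensional_of_le hlt.le
  let b := Module.finBasis ℚ H0
  have hψ : ∀ i : Fin (Module.finrank ℚ H0), ∃ g : ℝ →ₗ[ℚ] ℚ, g ∘ₗ H0.subtype = b.coord i :=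
    fun i => LinearMap.exists_extend (b.coord i)
  choose ψ hψ using hψ
  let π : ℝ →ₗ[ℚ] ℝ := LinearMap.id - (LinearMap.toSpanSingleton ℚ ℝ (1 : ℝ)) ∘ₗ φ0
  have hπ : ∀ x, π x = x - φ0 x • (1 : ℝ) := fun x => rfl
  have hπ1 : π 1 = 0 := by rw [hπ, hφ1, one_smul, sub_self]
  let Φ : ℕ → (ℝ →ₗ[ℚ] ℚ) := fun i => if i = 0 then φ0 else
    if h : i - 1 < Module.finrank ℚ H0 then (ψ ⟨i - 1, h⟩) ∘ₗ π else 0
  have hΦ0 : Φ 0 = φ0 := rfl
  have hΦs : ∀ i : Fin (Module.finrank ℚ H0), Φ (i.1 + 1) = (ψ i) ∘ₗ π := by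
    intro i
    simp only [Φ, Nat.succ_ne_zero, if_false, Nat.add_sub_cancel, dif_pos i.2]
  have hΦb : ∀ i, Module.finrank ℚ H0 < i → Φ i = 0 := by
    intro i hi
    have h : ¬ (i - 1 < Module.finrank ℚ H0) := by omega
    have h0 : i ≠ 0 := by omega
    simp only [Φ, if_neg h0, dif_neg h]
  obtain ⟨q, C0, hq, hm⟩ := vbas_int
    (fun p : Fin (Module.finrank ℚ H0 + 1) × ι => Φ p.1 (z p.2))
  refine ⟨Φ, q, C0, hq, fun i => ?_, fun x hx hi => ?_, fun i l => ?_⟩
  · rcases Nat.eq_zero_or_pos i with rfl | hi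
    · simp [hΦ0, hφ1]
    · rw [if_neg hi.ne']
      rcases lt_or_ge (Module.finrank ℚ H0) i with h | h
      · rw [hΦb i h]; rfl
      · have h2 := hΦs ⟨i - 1, by omega⟩
        have h3 : (i - 1) + 1 = i := by omega
        simp only [h3] at h2
        rw [h2, LinearMap.comp_apply, hπ1, map_zero]
  · have hy : π x ∈ H0 := by
      refine ⟨?_, ?_⟩
      · rw [hπ]
        exact H.sub_mem hx (H.smul_mem _ h1)
      · show φ0 (π x) = 0
        rw [hπ, map_sub, map_smul, hφ1, smul_eq_mul, mul_one, sub_self]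
    have h2 : (⟨π x, hy⟩ : H0) = 0 := by
      refine b.ext_elem fun i => ?_
      rw [map_zero, Finsupp.zero_apply]
      have h3 := LinearMap.congr_fun (hψ i) ⟨π x, hy⟩
      rw [Module.Basis.coord_apply] at h3
      rw [← h3]
      have h4 := hi (i.1 + 1) (by omega) (by omega)
      rw [hΦs i] at h4
      exact h4
    have h3 : π x = 0 := congrArg Subtype.val h2
    rw [hπ, sub_eq_zero] at h3
    rw [hΦ0]
    calc x = φ0 x • (1 : ℝ) := h3
      _ = _ := by rw [Rat.smul_def, mul_one]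
  · rcases lt_or_ge (Module.finrank ℚ H0) i with h | h
    · refine ⟨0, ?_, by simp⟩
      rw [hΦb i h]
      simp
    · exact hm (⟨i, by omega⟩, l)

end Pool.MZExp
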