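import Mathlib

/-! MP_301213_nt, EXPONENT 1/3, module `VCnt` (150 lines, only Mathlib): the count for the box principle.
(Compare `XPick.xpick_count`, `xpick_ev`.)

PROOF. `v = Dl + 2 κ + 10`, `δ = Dl + κ + 10`, `κ + δ = v`; `X = ⌊exp (κ N)⌋₊ ≤ exp (κ N) < X + 1`,
`Q0 = ⌊exp (c N)⌋₊ ≤ exp (c N)`, `n = (N+1) G`, `T = (N/2+1) m ≥ m N / 2` (real division).
(1) `2 n X Q0 + 1 ≤ 3 (N+1) G exp ((κ + c) N) ≤ exp ((κ + c + 1) N)` for large `N`
(`3 (N+1) G ≤ exp N` eventually; the left side is at least `1`).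
(2) `n X (C (N+1)) / exp (-δ N) + 1 ≤ 2 G C (N+1)^2 exp (v N) = exp (v N + L)`, `L = log (2 G C (N+1)^2)`,
`4 v L ≤ N` for large `N` (`L` is `O(log N)`), so the second factor is at most
`exp ((v N + L) 2 v N) ≤ exp (2 v^2 N^2 + N^2 / 2)`.
(3) The left side is at most `exp (s T (κ + c + 1) N + (2 v^2 + 1) N^2)`, the right side is
`(X+1)^(s T + T) > exp (κ N (s T + T))` (`T ≥ 1`). It remains
`s T (c + 1) + (2 v^2 + 1) N ≤ κ T`: by `h`, `m (κ - s (c+1)) ≥ 2 (2 v^2 + 1)`, and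
`T (κ - s (c+1)) ≥ (m N / 2) (κ - s (c+1)) ≥ (2 v^2 + 1) N`. -/

open Finset Filter Topology

namespace Pool.MZExp

private theorem vcnt_ev {K c : ℝ} (hK : 0 < K) (hc : 0 < c) :
    ∀ᶠ N : ℕ in atTop, K * Real.log (c * ((N : ℝ) + 1)) ≤ N := by
  have h1 : ∀ᶠ x : ℝ in atTop, ‖Real.log x‖ ≤ 1 / (2 * K * c) * ‖id x‖ :=
    Real.isLittleO_log_id_atTop.bound (by positivity)
  have h2 : Tendsto (fun N : ℕ => c * ((N : ℝ) + 1)) atTop atTop :=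
    Tendsto.const_mul_atTop hc (tendsto_atTop_add_const_right _ _ tendsto_natCast_atTop_atTop)
  filter_upwards [h2.eventually h1, eventually_ge_atTop 1] with N hN hN1
  have h3 : (1 : ℝ) ≤ N := by exact_mod_cast hN1
  rw [id, Real.norm_eq_abs, Real.norm_eq_abs, abs_of_pos (show 0 < c * ((N : ℝ) + 1) by positivity)]
    at hN
  have h4 := (le_abs_self _).trans hN
  calc K * Real.log (c * ((N : ℝ) + 1)) ≤ K * (1 / (2 * K * c) * (c * ((N : ℝ) + 1))) :=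
        mul_le_mul_of_nonneg_left h4 hK.le
    _ = ((N : ℝ) + 1) / 2 := by field_simp
    _ ≤ N := by linarith

theorem count_V (G m s c Dl κ : ℕ) (C : ℝ) (hC : 1 ≤ C) (hG : 1 ≤ G) (hm : 1 ≤ m) (hκ : 1 ≤ κ)
    (h : 2 * (2 * (Dl + 2 * κ + 10) ^ 2 + 1) + m * s * (c + 1) ≤ m * κ) :
    ∀ᶠ N : ℕ in atTop,
      (2 * ((((N + 1) * G : ℕ) : ℝ)) * ((⌊Real.exp (κ * N)⌋₊ : ℕ) : ℝ) *
          ((⌊Real.exp (c * N)⌋₊ : ℕ) : ℝ) + 1) ^ (s * ((N / 2 + 1) * m)) *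
        ((((N + 1) * G : ℕ) : ℝ) * ((⌊Real.exp (κ * N)⌋₊ : ℕ) : ℝ) * (C * ((N : ℝ) + 1)) /
          Real.exp (-(((Dl + κ + 10 : ℕ) : ℝ) * N)) + 1) ^ (2 * (Dl + 2 * κ + 10) * N) <
      (((⌊Real.exp (κ * N)⌋₊ : ℕ) : ℝ) + 1) ^ (s * ((N / 2 + 1) * m) + (N / 2 + 1) * m) := by
  obtain ⟨v, hv⟩ : ∃ v, v = Dl + 2 * κ + 10 := ⟨_, rfl⟩
  obtain ⟨δ, hδ⟩ : ∃ δ, δ = Dl + κ + 10 := ⟨_, rfl⟩
  have hvδ : κ + δ = v := by omega
  rw [← hv] at h
  rw [← hv, ← hδ]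
  have hGr : (1 : ℝ) ≤ G := by exact_mod_cast hG
  have hmr : (1 : ℝ) ≤ m := by exact_mod_cast hm
  have hv0 : (0 : ℝ) < v := by
    have : 0 < v := by omega
    exact_mod_cast this
  filter_upwards [vcnt_ev (K := 8 * (v : ℝ)) (by positivity) (show (0 : ℝ) < 2 * G * C by positivity),
    vcnt_ev (K := 1) one_pos (show (0 : ℝ) < 3 * G by positivity)] with N e1 e2
  have hN0 : (0 : ℝ) ≤ N := Nat.cast_nonneg _
  have hX : ((⌊Real.exp (κ * N)⌋₊ : ℕ) : ℝ) ≤ Real.exp (κ * N) := Nat.floor_le (Real.exp_pos _).le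
  have hX1 : Real.exp (κ * N) < ((⌊Real.exp (κ * N)⌋₊ : ℕ) : ℝ) + 1 := Nat.lt_floor_add_one _
  have hQ : ((⌊Real.exp (c * N)⌋₊ : ℕ) : ℝ) ≤ Real.exp (c * N) := Nat.floor_le (Real.exp_pos _).le
  have hX0 : (0 : ℝ) ≤ ((⌊Real.exp (κ * N)⌋₊ : ℕ) : ℝ) := Nat.cast_nonneg _
  have hQ0 : (0 : ℝ) ≤ ((⌊Real.exp (c * N)⌋₊ : ℕ) : ℝ) := Nat.cast_nonneg _
  generalize ((⌊Real.exp (κ * N)⌋₊ : ℕ) : ℝ) = X at *
  generalize ((⌊Real.exp (c * N)⌋₊ : ℕ) : ℝ) = Q at *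
  obtain ⟨n, hn⟩ : ∃ n : ℝ, n = (((N + 1) * G : ℕ) : ℝ) := ⟨_, rfl⟩
  have hn' : n = ((N : ℝ) + 1) * G := by rw [hn]; push_cast; ring
  rw [← hn]
  have hn1 : 1 ≤ n := by
    rw [hn']
    nlinarith
  obtain ⟨T, hT⟩ : ∃ T, T = (N / 2 + 1) * m := ⟨_, rfl⟩
  rw [← hT]
  have hT1 : 1 ≤ T := by
    rw [hT]
    exact Nat.mul_pos (by omega) hm
  -- base 1
  have hEκ : (1 : ℝ) ≤ Real.exp (κ * N) := Real.one_le_exp (by positivity)
  have hEc : (1 : ℝ) ≤ Real.exp (c * N) := Real.one_le_exp (by positivity)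
  have hEδ : (1 : ℝ) ≤ Real.exp (δ * N) := Real.one_le_exp (by positivity)
  have b1 : 2 * n * X * Q + 1 ≤ Real.exp (((κ : ℝ) + c + 1) * N) := by
    have h1 : 3 * n ≤ Real.exp N := by
      rw [one_mul] at e2
      have h2 : 0 < 3 * (G : ℝ) * ((N : ℝ) + 1) := by positivity
      have h3 := Real.exp_le_exp.2 e2
      rw [Real.exp_log h2] at h3
      rw [hn']
      linarith
    have h2 : 2 * n * X * Q ≤ 2 * n * Real.exp (κ * N) * Real.exp (c * N) := by gcongr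
    have h3 : 1 ≤ n * Real.exp (κ * N) * Real.exp (c * N) :=
      one_le_mul_of_one_le_of_one_le (one_le_mul_of_one_le_of_one_le hn1 hEκ) hEc
    have h4 : Real.exp (((κ : ℝ) + c + 1) * N) = Real.exp N * (Real.exp (κ * N) * Real.exp (c * N)) := by
      rw [← Real.exp_add, ← Real.exp_add]
      congr 1
      ring
    rw [h4]
    have h5 : 3 * n * (Real.exp (κ * N) * Real.exp (c * N)) ≤
        Real.exp N * (Real.exp (κ * N) * Real.exp (c * N)) :=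
      mul_le_mul_of_nonneg_right h1 (by positivity)
    calc 2 * n * X * Q + 1 ≤ 2 * n * Real.exp (κ * N) * Real.exp (c * N) +
          n * Real.exp (κ * N) * Real.exp (c * N) := add_le_add h2 h3
      _ = 3 * n * (Real.exp (κ * N) * Real.exp (c * N)) := by ring
      _ ≤ _ := h5
  have b1' : 0 ≤ 2 * n * X * Q + 1 := by positivity
  -- base 2
  obtain ⟨L, hL⟩ : ∃ L, L = Real.log (2 * G * C * ((N : ℝ) + 1)) := ⟨_, rfl⟩
  rw [← hL] at e1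
  have hc1 : 1 ≤ 2 * G * C * ((N : ℝ) + 1) := by
    have h1 : (1 : ℝ) ≤ 2 * G * C := by nlinarith
    exact one_le_mul_of_one_le_of_one_le h1 (by linarith)
  have hL0 : 0 ≤ L := by
    rw [hL]
    exact Real.log_nonneg hc1
  have b2 : n * X * (C * ((N : ℝ) + 1)) / Real.exp (-((δ : ℝ) * N)) + 1 ≤
      Real.exp (2 * L + v * N) := by
    rw [Real.exp_neg, div_inv_eq_mul]
    have h1 : n * X * (C * ((N : ℝ) + 1)) * Real.exp (δ * N) ≤
        n * Real.exp (κ * N) * (C * ((N : ℝ) + 1)) * Real.exp (δ * N) := by gcongr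
    have h2 : 1 ≤ n * Real.exp (κ * N) * (C * ((N : ℝ) + 1)) * Real.exp (δ * N) := by
      have h3 : (1 : ℝ) ≤ C * ((N : ℝ) + 1) := by nlinarith
      exact one_le_mul_of_one_le_of_one_le (one_le_mul_of_one_le_of_one_le
        (one_le_mul_of_one_le_of_one_le hn1 hEκ) h3) hEδ
    have h4 : Real.exp (2 * L + v * N) =
        (2 * G * C * ((N : ℝ) + 1)) * (2 * G * C * ((N : ℝ) + 1)) *
          (Real.exp (κ * N) * Real.exp (δ * N)) := by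
      have h5 : (v : ℝ) * N = κ * N + δ * N := by
        rw [← hvδ]
        push_cast
        ring
      rw [Real.exp_add, two_mul, Real.exp_add, hL, Real.exp_log (by linarith), h5, Real.exp_add]
    rw [h4]
    have h6 : 2 * n * (C * ((N : ℝ) + 1)) ≤
        (2 * G * C * ((N : ℝ) + 1)) * (2 * G * C * ((N : ℝ) + 1)) := by
      have h7 : 2 * n * (C * ((N : ℝ) + 1)) = 2 * G * C * ((N : ℝ) + 1) * ((N : ℝ) + 1) := by
        rw [hn']
        ring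
      rw [h7]
      refine mul_le_mul_of_nonneg_left ?_ (by linarith)
      have h8 : (1 : ℝ) ≤ 2 * G * C := by nlinarith
      have h9 : (0 : ℝ) ≤ (N : ℝ) + 1 := by positivity
      nlinarith
    calc n * X * (C * ((N : ℝ) + 1)) * Real.exp (δ * N) + 1
        ≤ n * Real.exp (κ * N) * (C * ((N : ℝ) + 1)) * Real.exp (δ * N) +
          n * Real.exp (κ * N) * (C * ((N : ℝ) + 1)) * Real.exp (δ * N) := add_le_add h1 h2
      _ = 2 * n * (C * ((N : ℝ) + 1)) * (Real.exp (κ * N) * Real.exp (δ * N)) := by ring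
      _ ≤ _ := mul_le_mul_of_nonneg_right h6 (by positivity)
  have b2' : 0 ≤ n * X * (C * ((N : ℝ) + 1)) / Real.exp (-((δ : ℝ) * N)) + 1 := by positivity
  -- the exponents
  have hmain : ((s * T : ℕ) : ℝ) * (((κ : ℝ) + c + 1) * N) + ((2 * v * N : ℕ) : ℝ) * (2 * L + v * N) ≤
      ((s * T + T : ℕ) : ℝ) * (κ * N) := by
    have h1 : (2 * (2 * (v : ℝ) ^ 2 + 1)) + m * s * (c + 1) ≤ m * κ := by exact_mod_cast h
    have h2 : (N : ℝ) / 2 ≤ ((N / 2 + 1 : ℕ) : ℝ) := by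
      have h3 : N ≤ 2 * (N / 2 + 1) := by omega
      have h4 : (N : ℝ) ≤ 2 * ((N / 2 + 1 : ℕ) : ℝ) := by exact_mod_cast h3
      linarith
    have hTr : (T : ℝ) = ((N / 2 + 1 : ℕ) : ℝ) * m := by rw [hT]; push_cast; ring
    have h3 : (N : ℝ) * (2 * (v : ℝ) ^ 2 + 1) + T * s * (c + 1) ≤ T * κ := by
      have h4 : ((N / 2 + 1 : ℕ) : ℝ) * ((2 * (2 * (v : ℝ) ^ 2 + 1)) + m * s * (c + 1)) ≤
          ((N / 2 + 1 : ℕ) : ℝ) * (m * κ) := mul_le_mul_of_nonneg_left h1 (Nat.cast_nonneg _)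
      have h5 : (N : ℝ) / 2 * (2 * (2 * (v : ℝ) ^ 2 + 1)) ≤
          ((N / 2 + 1 : ℕ) : ℝ) * (2 * (2 * (v : ℝ) ^ 2 + 1)) :=
        mul_le_mul_of_nonneg_right h2 (by positivity)
      rw [hTr]
      linarith
    have h6 : (N : ℝ) * ((N : ℝ) * (2 * (v : ℝ) ^ 2 + 1) + T * s * (c + 1)) ≤ N * (T * κ) :=
      mul_le_mul_of_nonneg_left h3 hN0
    have h7 : (N : ℝ) * (8 * v * L) ≤ N * N := mul_le_mul_of_nonneg_left e1 hN0
    push_cast
    nlinarith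
  calc (2 * n * X * Q + 1) ^ (s * T) *
        (n * X * (C * ((N : ℝ) + 1)) / Real.exp (-((δ : ℝ) * N)) + 1) ^ (2 * v * N)
      ≤ Real.exp (((κ : ℝ) + c + 1) * N) ^ (s * T) * Real.exp (2 * L + v * N) ^ (2 * v * N) :=
        mul_le_mul (pow_le_pow_left₀ b1' b1 _) (pow_le_pow_left₀ b2' b2 _) (pow_nonneg b2' _)
          (pow_nonneg (Real.exp_pos _).le _)
    _ = Real.exp (((s * T : ℕ) : ℝ) * (((κ : ℝ) + c + 1) * N) +
          ((2 * v * N : ℕ) : ℝ) * (2 * L + v * N)) := by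
        rw [← Real.exp_nat_mul, ← Real.exp_nat_mul, ← Real.exp_add]
    _ ≤ Real.exp (((s * T + T : ℕ) : ℝ) * (κ * N)) := Real.exp_le_exp.2 hmain
    _ = Real.exp (κ * N) ^ (s * T + T) := by rw [← Real.exp_nat_mul]
    _ < (X + 1) ^ (s * T + T) := pow_lt_pow_left₀ hX1 (Real.exp_pos _).le (by omega)

end Pool.MZExp
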