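import Pool.Agent.Lib.MZExp.XDefs

/-! MODULE XBin (about 200 lines, ONLY MATHLIB + XDefs). MP_301213_nt phase 2: closed form of `e_k(t)` and binomial estimates.

PROOFS (t ≥ 1).
* ek_eq: ∏_{j ≤ k} (t+j) = t * C(t+k,k) * k! (induction on k: (t+k+1) C(t+k,k) = (k+1) C(t+k+1,k+1) is `Nat.add_one_mul_choose_eq`/`Nat.add_one_mul_choose_eq`; or
  `Nat.ascFactorial_eq_prod_range`, `Nat.ascFactorial_eq_factorial_mul_choose`).
* ek_pos, ek_le_one: closed form. ek_anti: C(t+k,k) ≤ C(t+m,m) for k ≤ m (C(t+k,k) = C(t+k,t), `Nat.choose_symm_add`, `Nat.choose_le_choose`).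
* choose_exp: C(n,N) ≤ n^N / N! (`Nat.choose_le_pow_div`), n = vN + N = (v+1) N, so ≤ (v+1)^N (N^N/N!) ≤ (v+1)^N exp(N) (`Real.pow_div_factorial_le_exp`).
* choose_small: C(t,i) ≤ C(V,i) ≤ C(V+i,i) = C(V+i,V) ≤ C(V+N,V) = C(V+N,N).
* ek_choose_small (i+1 ≤ N): (t+1) C(t,i) = (i+1) C(t+1,i+1) (`Nat.add_one_mul_choose_eq`), C(t+1,i+1) ≤ C(t+i+1,i+1) ≤ C(t+N,N). So t C(t,i) ≤ (i+1) C(t+N,N) ≤ N C(t+N,N),
  and ek N t = 1/(t C(t+N,N)).
* ek_choose_big (i+1 ≤ V, i ≤ N, V ≤ t): C(t,i) ≤ C(t+i,i). Identity C(t+V,V) C(V,i) = C(t+V,V-i) C(t+i,i) (`Nat.choose_mul` or both sides times t! i! (V-i)!; it is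
  (t+V)!/(t! i! (V-i)!)), so C(t+i,i)/C(t+V,V) = C(V,i)/C(t+V,V-i). Next C(t+V,V-i) (V-i) = (t+V) C(t+V-1,V-i-1) ≥ t C(2V-1,V-i-1) and 2V C(2V-1,V-i-1) = (V-i) C(2V,V-i), so
  C(t+V,V-i) ≥ (t/(2V)) C(2V,V-i). So ek V t C(t,i) ≤ C(V,i) / (t C(t+V,V-i)) ≤ 2V C(V,i) / (t^2 C(2V,V-i)), by the identity for t = V: C(V,i)/C(2V,V-i) = C(V+i,i)/C(2V,V),
  and 4^V ≤ 2V C(2V,V) (`Nat.four_pow_le_two_mul_self_mul_centralBinom`), C(V+i,i) ≤ C(V+N,N). Together ≤ 4 V^2 C(V+N,N)/(4^V t^2) ≤ 4 V^3 C(V+N,N)/(4^V t^2). -/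

open Finset

namespace Pool.MZExp

private lemma prod_eq (t k : ℕ) :
    ∏ j ∈ range (k + 1), ((t : ℝ) + j) = (t : ℝ) * (((t + k).choose k : ℕ) : ℝ) * (k.factorial : ℝ) := by
  have h : ∏ j ∈ range (k + 1), (t + j) = t * (t + k).choose k * k.factorial := by
    rw [Finset.prod_range_succ']
    have h1 : ∏ j ∈ range k, (t + (j + 1)) = (t + 1).ascFactorial k := by
      rw [Nat.ascFactorial_eq_prod_range]
      refine Finset.prod_congr rfl fun j _ => ?_
      ring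
    rw [h1, Nat.ascFactorial_eq_factorial_mul_choose]
    ring
  have h2 : ((∏ j ∈ range (k + 1), (t + j) : ℕ) : ℝ) = ∏ j ∈ range (k + 1), ((t : ℝ) + j) := by
    push_cast
    rfl
  rw [← h2, h]
  push_cast
  ring

private lemma choose_mono_diag (t : ℕ) {k m : ℕ} (h : k ≤ m) :
    (t + k).choose k ≤ (t + m).choose m := by
  rw [← Nat.choose_symm_add (a := t) (b := k), ← Nat.choose_symm_add (a := t) (b := m)]
  exact Nat.choose_le_choose t (by omega)

theorem ek_eq {t : ℕ} (ht : 1 ≤ t) (k : ℕ) :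
    ek k t = 1 / ((t : ℝ) * (((t + k).choose k : ℕ) : ℝ)) := by
  have h1 : (0 : ℝ) < t := by exact_mod_cast ht
  have h2 : (0 : ℝ) < (((t + k).choose k : ℕ) : ℝ) := by
    exact_mod_cast Nat.choose_pos (Nat.le_add_left k t)
  have h3 : (0 : ℝ) < (k.factorial : ℝ) := by exact_mod_cast k.factorial_pos
  rw [ek, prod_eq]
  field_simp

theorem ek_pos {t : ℕ} (ht : 1 ≤ t) (k : ℕ) : 0 < ek k t := by
  have h1 : (0 : ℝ) < t := by exact_mod_cast ht
  have h2 : (0 : ℝ) < (((t + k).choose k : ℕ) : ℝ) := by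
    exact_mod_cast Nat.choose_pos (Nat.le_add_left k t)
  rw [ek_eq ht]
  positivity

theorem ek_le_one {t : ℕ} (ht : 1 ≤ t) (k : ℕ) : ek k t ≤ 1 := by
  have h1 : (1 : ℝ) ≤ t := by exact_mod_cast ht
  have h2 : (1 : ℝ) ≤ (((t + k).choose k : ℕ) : ℝ) := by
    exact_mod_cast Nat.choose_pos (Nat.le_add_left k t)
  rw [ek_eq ht, div_le_one (by positivity)]
  nlinarith

theorem ek_anti {t : ℕ} (ht : 1 ≤ t) {k m : ℕ} (h : k ≤ m) : ek m t ≤ ek k t := by
  have h1 : (0 : ℝ) < t := by exact_mod_cast ht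
  have h2 : (0 : ℝ) < (((t + k).choose k : ℕ) : ℝ) := by
    exact_mod_cast Nat.choose_pos (Nat.le_add_left k t)
  have h3 : (((t + k).choose k : ℕ) : ℝ) ≤ (((t + m).choose m : ℕ) : ℝ) := by
    exact_mod_cast choose_mono_diag t h
  rw [ek_eq ht, ek_eq ht]
  apply one_div_le_one_div_of_le (by positivity)
  exact mul_le_mul_of_nonneg_left h3 h1.le

theorem choose_exp (v : ℕ) {N : ℕ} (hN : 1 ≤ N) :
    (((v * N + N).choose N : ℕ) : ℝ) ≤ (((v : ℝ) + 1) * Real.exp 1) ^ N := by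
  have h1 : (((v * N + N).choose N : ℕ) : ℝ) ≤ ((v * N + N : ℕ) : ℝ) ^ N / (N.factorial : ℝ) :=
    Nat.choose_le_pow_div N (v * N + N)
  have h2 : ((v * N + N : ℕ) : ℝ) ^ N / (N.factorial : ℝ)
      = ((v : ℝ) + 1) ^ N * ((N : ℝ) ^ N / (N.factorial : ℝ)) := by
    have : ((v * N + N : ℕ) : ℝ) = ((v : ℝ) + 1) * N := by push_cast; ring
    rw [this, mul_pow, mul_div_assoc]
  have h3 : (N : ℝ) ^ N / (N.factorial : ℝ) ≤ Real.exp N :=
    Real.pow_div_factorial_le_exp (N : ℝ) (Nat.cast_nonneg N) N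
  have h4 : Real.exp (N : ℝ) = Real.exp 1 ^ N := by
    rw [← Real.exp_nat_mul, mul_one]
  rw [mul_pow, ← h4]
  calc (((v * N + N).choose N : ℕ) : ℝ) ≤ ((v : ℝ) + 1) ^ N * ((N : ℝ) ^ N / (N.factorial : ℝ)) := by
        rw [← h2]; exact h1
    _ ≤ ((v : ℝ) + 1) ^ N * Real.exp N := mul_le_mul_of_nonneg_left h3 (by positivity)

theorem choose_small {V N i t : ℕ} (ht : t ≤ V) (hi : i ≤ N) :
    ((t.choose i : ℕ) : ℝ) ≤ (((V + N).choose N : ℕ) : ℝ) := by
  have h : t.choose i ≤ (V + N).choose N :=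
    calc t.choose i ≤ (V + i).choose i := Nat.choose_le_choose i (by omega)
      _ ≤ (V + N).choose N := choose_mono_diag V hi
  exact_mod_cast h

theorem ek_choose_small {N i t : ℕ} (hi : i + 1 ≤ N) (ht : 1 ≤ t) :
    ek N t * ((t.choose i : ℕ) : ℝ) ≤ (N : ℝ) / (t : ℝ) ^ 2 := by
  have h1 : (0 : ℝ) < t := by exact_mod_cast ht
  have h2 : (0 : ℝ) < (((t + N).choose N : ℕ) : ℝ) := by
    exact_mod_cast Nat.choose_pos (Nat.le_add_left N t)
  have h3 : t * t.choose i ≤ N * (t + N).choose N := by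
    calc t * t.choose i ≤ (t + 1) * t.choose i := Nat.mul_le_mul_right _ (by omega)
      _ = (t + 1).choose (i + 1) * (i + 1) := Nat.add_one_mul_choose_eq t i
      _ ≤ (t + N).choose N * N := by
        refine Nat.mul_le_mul ?_ hi
        calc (t + 1).choose (i + 1) ≤ (t + (i + 1)).choose (i + 1) :=
              Nat.choose_le_choose (i + 1) (by omega)
          _ ≤ (t + N).choose N := choose_mono_diag t hi
      _ = N * (t + N).choose N := Nat.mul_comm _ _
  have h4 : (t : ℝ) * ((t.choose i : ℕ) : ℝ) ≤ (N : ℝ) * (((t + N).choose N : ℕ) : ℝ) := by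
    exact_mod_cast h3
  rw [ek_eq ht, one_div, inv_mul_eq_div, div_le_div_iff₀ (by positivity) (by positivity)]
  calc ((t.choose i : ℕ) : ℝ) * (t : ℝ) ^ 2 = (t : ℝ) * ((t : ℝ) * ((t.choose i : ℕ) : ℝ)) := by ring
    _ ≤ (t : ℝ) * ((N : ℝ) * (((t + N).choose N : ℕ) : ℝ)) := mul_le_mul_of_nonneg_left h4 h1.le
    _ = (N : ℝ) * ((t : ℝ) * (((t + N).choose N : ℕ) : ℝ)) := by ring

private lemma big_nat {V N i t : ℕ} (hV : i + 1 ≤ V) (hi : i ≤ N) (ht : V ≤ t) :
    4 ^ V * (t * t.choose i) ≤ 4 * V ^ 3 * (V + N).choose N * (t + V).choose V := by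
  obtain ⟨m, hm⟩ : ∃ m, V = i + (m + 1) := ⟨V - i - 1, by omega⟩
  -- identity for a general `t`
  have key : ∀ s : ℕ, (s + V).choose V * V.choose (m + 1)
      = (s + V).choose (m + 1) * (s + i).choose i := by
    intro s
    have h := Nat.choose_mul (n := s + V) (k := V) (s := m + 1) (by omega)
    have e1 : s + V - (m + 1) = s + i := by omega
    have e2 : V - (m + 1) = i := by omega
    rw [e1, e2] at h
    exact h
  have hc : 0 < V.choose (m + 1) := Nat.choose_pos (by omega)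
  have k1 := key t
  have k2 := key V
  have k3 : t * (V + V).choose (m + 1) ≤ 2 * V * (t + V).choose (m + 1) := by
    have a1 : (t + V - 1 + 1) * (t + V - 1).choose m = (t + V - 1 + 1).choose (m + 1) * (m + 1) :=
      Nat.add_one_mul_choose_eq (t + V - 1) m
    have a2 : (V + V - 1 + 1) * (V + V - 1).choose m = (V + V - 1 + 1).choose (m + 1) * (m + 1) :=
      Nat.add_one_mul_choose_eq (V + V - 1) m
    have e1 : t + V - 1 + 1 = t + V := by omega
    have e2 : V + V - 1 + 1 = V + V := by omega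
    rw [e1] at a1
    rw [e2] at a2
    have a3 : (V + V - 1).choose m ≤ (t + V - 1).choose m := Nat.choose_le_choose m (by omega)
    have a4 : (t * (V + V).choose (m + 1)) * (m + 1) ≤ (2 * V * (t + V).choose (m + 1)) * (m + 1) := by
      calc (t * (V + V).choose (m + 1)) * (m + 1) = t * ((V + V).choose (m + 1) * (m + 1)) := by ring
        _ = t * ((V + V) * (V + V - 1).choose m) := by rw [a2]
        _ ≤ (t + V) * ((V + V) * (t + V - 1).choose m) :=
            Nat.mul_le_mul (by omega) (Nat.mul_le_mul_left _ a3)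
        _ = (V + V) * ((t + V) * (t + V - 1).choose m) := by ring
        _ = (V + V) * ((t + V).choose (m + 1) * (m + 1)) := by rw [a1]
        _ = (2 * V * (t + V).choose (m + 1)) * (m + 1) := by ring
    exact Nat.le_of_mul_le_mul_right a4 (by omega)
  have k4 : 4 ^ V ≤ 2 * V * (V + V).choose V := by
    have := Nat.four_pow_le_two_mul_self_mul_centralBinom V (by omega)
    rw [Nat.centralBinom_eq_two_mul_choose, two_mul V] at this
    rw [two_mul V]
    exact this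
  have k5 : (V + i).choose i ≤ (V + N).choose N := choose_mono_diag V hi
  have k6 : t.choose i ≤ (t + i).choose i := Nat.choose_le_choose i (by omega)
  have k7 : (2 * V * (V + V).choose V * t * (t + i).choose i) * V.choose (m + 1)
      ≤ (4 * V ^ 2 * (V + i).choose i * (t + V).choose V) * V.choose (m + 1) := by
    calc (2 * V * (V + V).choose V * t * (t + i).choose i) * V.choose (m + 1)
        = 2 * V * t * (t + i).choose i * ((V + V).choose V * V.choose (m + 1)) := by ring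
      _ = 2 * V * t * (t + i).choose i * ((V + V).choose (m + 1) * (V + i).choose i) := by rw [k2]
      _ = 2 * V * (t + i).choose i * (V + i).choose i * (t * (V + V).choose (m + 1)) := by ring
      _ ≤ 2 * V * (t + i).choose i * (V + i).choose i * (2 * V * (t + V).choose (m + 1)) :=
          Nat.mul_le_mul_left _ k3
      _ = 4 * V ^ 2 * (V + i).choose i * ((t + V).choose (m + 1) * (t + i).choose i) := by ring
      _ = 4 * V ^ 2 * (V + i).choose i * ((t + V).choose V * V.choose (m + 1)) := by rw [k1]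
      _ = (4 * V ^ 2 * (V + i).choose i * (t + V).choose V) * V.choose (m + 1) := by ring
  have k8 := Nat.le_of_mul_le_mul_right k7 hc
  calc 4 ^ V * (t * t.choose i) ≤ (2 * V * (V + V).choose V) * (t * (t + i).choose i) :=
        Nat.mul_le_mul k4 (Nat.mul_le_mul_left _ k6)
    _ = 2 * V * (V + V).choose V * t * (t + i).choose i := by ring
    _ ≤ 4 * V ^ 2 * (V + i).choose i * (t + V).choose V := k8
    _ ≤ 4 * V ^ 3 * (V + N).choose N * (t + V).choose V := by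
        refine Nat.mul_le_mul_right _ (Nat.mul_le_mul (Nat.mul_le_mul_left _ ?_) k5)
        exact Nat.pow_le_pow_right (by omega) (by norm_num)

theorem ek_choose_big {V N i t : ℕ} (hV : i + 1 ≤ V) (hi : i ≤ N) (ht : V ≤ t) :
    ek V t * ((t.choose i : ℕ) : ℝ) ≤
      4 * (V : ℝ) ^ 3 * (((V + N).choose N : ℕ) : ℝ) / (4 ^ V * (t : ℝ) ^ 2) := by
  have ht1 : 1 ≤ t := by omega
  have h1 : (0 : ℝ) < t := by exact_mod_cast ht1
  have h2 : (0 : ℝ) < (((t + V).choose V : ℕ) : ℝ) := by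
    exact_mod_cast Nat.choose_pos (Nat.le_add_left V t)
  have h3 : (4 : ℝ) ^ V * ((t : ℝ) * ((t.choose i : ℕ) : ℝ))
      ≤ 4 * (V : ℝ) ^ 3 * (((V + N).choose N : ℕ) : ℝ) * (((t + V).choose V : ℕ) : ℝ) := by
    exact_mod_cast big_nat hV hi ht
  rw [ek_eq ht1, one_div, inv_mul_eq_div, div_le_div_iff₀ (by positivity) (by positivity)]
  calc ((t.choose i : ℕ) : ℝ) * (4 ^ V * (t : ℝ) ^ 2)
      = (t : ℝ) * ((4 : ℝ) ^ V * ((t : ℝ) * ((t.choose i : ℕ) : ℝ))) := by ring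
    _ ≤ (t : ℝ) * (4 * (V : ℝ) ^ 3 * (((V + N).choose N : ℕ) : ℝ) * (((t + V).choose V : ℕ) : ℝ)) :=
        mul_le_mul_of_nonneg_left h3 h1.le
    _ = 4 * (V : ℝ) ^ 3 * (((V + N).choose N : ℕ) : ℝ) * ((t : ℝ) * (((t + V).choose V : ℕ) : ℝ)) := by
        ring

end Pool.MZExp
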