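import Pool.Agent.Lib.MZExp.XFTel
import Pool.Agent.Lib.MZDim.RExp

/-! MODULE XFEq (about 150 lines). MP_301213_nt, exponential growth, PHASE 2 (helper41). The linear form over the tails as a combination
of the `c_j(α,v)`. TEMPLATE: MZExp/FormEq.lean (COPY IT): the private lemmas formeq_pascal, formeq_V, formeq_V', formeq_bneg, formeq_bt, formeq_S, formeq_S' are used unchanged
(rename them xfeq_..), `formeq_summable` is replaced by `summ_ct`, `sR a M` by `T a (M + 1)`, `sR v M` by `T v (M + 1)`, `cc` by `ct`, `fy` by its definition (the double sum). -/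

open HofPers Finset Pool.MZDim

namespace Pool.MZExp

private theorem xfeq_pascal (N : ℕ) (h : ℕ → ℝ) :
    ∑ j ∈ range (N + 1 + 1), (-1 : ℝ) ^ j * ((N + 1).choose j : ℝ) * h j =
      ∑ j ∈ range (N + 1), (-1 : ℝ) ^ j * (N.choose j : ℝ) * (h j - h (j + 1)) := by
  rw [Finset.sum_range_succ' _ (N + 1)]
  have e4 : ∑ j ∈ range (N + 1), (-1 : ℝ) ^ j * (N.choose j : ℝ) * h j =
      ∑ j ∈ range (N + 1), (-1 : ℝ) ^ (j + 1) * (N.choose (j + 1) : ℝ) * h (j + 1) +
        (-1 : ℝ) ^ 0 * (N.choose 0 : ℝ) * h 0 := by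
    rw [← Finset.sum_range_succ' (fun j => (-1 : ℝ) ^ j * (N.choose j : ℝ) * h j) (N + 1),
      Finset.sum_range_succ _ (N + 1), Nat.choose_succ_self]
    simp
  have e5 : ∑ j ∈ range (N + 1), (-1 : ℝ) ^ j * (N.choose j : ℝ) * (h j - h (j + 1)) =
      ∑ j ∈ range (N + 1), (-1 : ℝ) ^ j * (N.choose j : ℝ) * h j -
        ∑ j ∈ range (N + 1), (-1 : ℝ) ^ j * (N.choose j : ℝ) * h (j + 1) := by
    rw [← Finset.sum_sub_distrib]
    exact Finset.sum_congr rfl fun j _ => by ring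
  have e6 : ∑ j ∈ range (N + 1), (-1 : ℝ) ^ (j + 1) * ((N + 1).choose (j + 1) : ℝ) * h (j + 1) =
      ∑ j ∈ range (N + 1), (-1 : ℝ) ^ (j + 1) * (N.choose (j + 1) : ℝ) * h (j + 1) -
        ∑ j ∈ range (N + 1), (-1 : ℝ) ^ j * (N.choose j : ℝ) * h (j + 1) := by
    rw [← Finset.sum_sub_distrib]
    refine Finset.sum_congr rfl fun j _ => ?_
    rw [Nat.choose_succ_succ]
    push_cast
    ring
  rw [e5, e4, e6]
  simp only [Nat.choose_zero_right, pow_zero, Nat.cast_one]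
  ring

/-- `V(i)` without sign -/
private theorem xfeq_V (N : ℕ) : ∀ (i l : ℕ), i < N →
    ∑ j ∈ range (N + 1), (-1 : ℝ) ^ j * (N.choose j : ℝ) * ((l + j + i - 1).choose i : ℝ) = 0 := by
  induction N with
  | zero => intro i l h; omega
  | succ N ih =>
    intro i l h
    rw [xfeq_pascal N (fun j => ((l + j + i - 1).choose i : ℝ))]
    rcases Nat.eq_zero_or_pos i with rfl | hi
    · simp
    · obtain ⟨k, rfl⟩ : ∃ k, i = k + 1 := ⟨i - 1, by omega⟩
      have h1 := ih k (l + 1) (by omega)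
      have h2 : ∀ j ∈ range (N + 1), (-1 : ℝ) ^ j * (N.choose j : ℝ) *
          (((l + j + (k + 1) - 1).choose (k + 1) : ℝ) - ((l + (j + 1) + (k + 1) - 1).choose (k + 1) : ℝ)) =
          -((-1 : ℝ) ^ j * (N.choose j : ℝ) * ((l + 1 + j + k - 1).choose k : ℝ)) := by
        intro j _
        have a1 : l + j + (k + 1) - 1 = l + j + k := by omega
        have a2 : l + (j + 1) + (k + 1) - 1 = l + j + k + 1 := by omega
        have a3 : l + 1 + j + k - 1 = l + j + k := by omega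
        rw [a1, a2, a3, Nat.choose_succ_succ]
        push_cast
        ring
      rw [Finset.sum_congr rfl h2, Finset.sum_neg_distrib, h1, neg_zero]

private theorem xfeq_V' (N i l : ℕ) (h : i < N) :
    ∑ j ∈ range (N + 1), (-1 : ℝ) ^ j * (N.choose j : ℝ) * (bneg (l + j) i : ℝ) = 0 := by
  have h1 := xfeq_V N i l h
  have h2 : ∀ j ∈ range (N + 1), (-1 : ℝ) ^ j * (N.choose j : ℝ) * (bneg (l + j) i : ℝ) =
      (-1) ^ i * ((-1 : ℝ) ^ j * (N.choose j : ℝ) * ((l + j + i - 1).choose i : ℝ)) := by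
    intro j _
    unfold bneg
    push_cast
    ring
  rw [Finset.sum_congr rfl h2, ← Finset.mul_sum, h1, mul_zero]

private theorem xfeq_bneg (u i : ℕ) :
    ((i : ℝ) + 1) * (bneg u (i + 1) : ℝ) = (bneg u i : ℝ) * (-(u : ℝ) - i) := by
  unfold bneg
  push_cast
  rcases Nat.eq_zero_or_pos (u + i) with h0 | hpos
  · have hu : u = 0 := by omega
    have hi : i = 0 := by omega
    subst hu; subst hi
    simp
  · have h1 : (u + i).choose (i + 1) * (i + 1) = (u + i) * (u + i - 1).choose i := by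
      obtain ⟨k, hk⟩ : ∃ k, u + i = k + 1 := ⟨u + i - 1, by omega⟩
      rw [hk, Nat.add_sub_cancel]
      exact (Nat.add_one_mul_choose_eq k i).symm
    have h2 : u + (i + 1) - 1 = u + i := by omega
    rw [h2]
    have h3 : (((u + i).choose (i + 1) : ℕ) : ℝ) * ((i : ℝ) + 1) =
        ((u : ℝ) + i) * (((u + i - 1).choose i : ℕ) : ℝ) := by
      exact_mod_cast h1
    linear_combination ((-1 : ℝ) ^ (i + 1)) * h3

private theorem xfeq_bt (i M : ℕ) :
    ((i : ℝ) + 1) * bt (i + 1) M = bt i M * (((M : ℝ) + 1) - i) := by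
  unfold bt
  rcases Nat.lt_or_ge (M + 1) i with h | h
  · rw [Nat.choose_eq_zero_of_lt h, Nat.choose_eq_zero_of_lt (by omega)]
    simp
  · have h1 := Nat.choose_succ_right_eq (M + 1) i
    have h2 : (((M + 1).choose (i + 1) : ℕ) : ℝ) * ((i : ℝ) + 1) =
        (((M + 1).choose i : ℕ) : ℝ) * (((M + 1 - i : ℕ)) : ℝ) := by
      exact_mod_cast h1
    rw [Nat.cast_sub h] at h2
    push_cast at h2 ⊢
    linear_combination h2

private theorem xfeq_S (N l M : ℕ) : ∀ i : ℕ, i ≤ N →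
    bt i M * beta N l M = ∑ j ∈ range (N + 1), (-1 : ℝ) ^ j * (N.choose j : ℝ) *
      (bneg (l + j) i : ℝ) * ((M : ℝ) + 1 + l + j)⁻¹ := by
  intro i
  induction i with
  | zero =>
    intro _
    have h1 : bt 0 M = 1 := by simp [bt]
    rw [h1, one_mul, beta_pf]
    refine Finset.sum_congr rfl fun j _ => ?_
    have h2 : bneg (l + j) 0 = 1 := by simp [bneg]
    rw [h2, Int.cast_one, mul_one]
  | succ i ih =>
    intro hi
    have h1 := ih (by omega)
    have h2 := xfeq_V' N i l (by omega)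
    have h3 : ((i : ℝ) + 1) ≠ 0 := by positivity
    apply mul_left_cancel₀ h3
    rw [← mul_assoc, xfeq_bt, mul_right_comm, h1, Finset.mul_sum, Finset.sum_mul]
    rw [← sub_eq_zero, ← Finset.sum_sub_distrib]
    rw [← h2]
    refine Finset.sum_congr rfl fun j _ => ?_
    have h4 := xfeq_bneg (l + j) i
    have h5 : ((M : ℝ) + 1 + l + j) ≠ 0 := by positivity
    push_cast at h4
    have h6 : ((M : ℝ) + 1 - i) * ((M : ℝ) + 1 + l + j)⁻¹ =
        1 - ((i : ℝ) + (l + j)) * ((M : ℝ) + 1 + l + j)⁻¹ := by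
      field_simp
      ring
    linear_combination ((-1 : ℝ) ^ j * (N.choose j : ℝ) * (bneg (l + j) i : ℝ)) * h6 -
      ((-1 : ℝ) ^ j * (N.choose j : ℝ) * ((M : ℝ) + 1 + l + j)⁻¹) * h4

private theorem xfeq_S' (N l M i : ℕ) (hi : i + 1 ≤ N) :
    bt i M * beta N l M = ∑ j ∈ range (N + 1), (-1 : ℝ) ^ j * (N.choose j : ℝ) *
      (bneg (l + j) i : ℝ) * (((M : ℝ) + 1 + (l + j : ℕ))⁻¹ - ((M : ℝ) + 1)⁻¹) := by
  have h1 := xfeq_S N l M i (by omega)
  have h2 := xfeq_V' N i l (by omega)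
  have h3 : ∀ j ∈ range (N + 1), (-1 : ℝ) ^ j * (N.choose j : ℝ) *
      (bneg (l + j) i : ℝ) * (((M : ℝ) + 1 + (l + j : ℕ))⁻¹ - ((M : ℝ) + 1)⁻¹) =
      (-1 : ℝ) ^ j * (N.choose j : ℝ) * (bneg (l + j) i : ℝ) * ((M : ℝ) + 1 + l + j)⁻¹ -
      (-1 : ℝ) ^ j * (N.choose j : ℝ) * (bneg (l + j) i : ℝ) * ((M : ℝ) + 1)⁻¹ := by
    intro j _
    push_cast
    rw [← add_assoc, mul_sub]
  rw [Finset.sum_congr rfl h3, Finset.sum_sub_distrib, ← Finset.sum_mul, h2, h1]
  ring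

theorem formt_eq (A : Finset (List ℕ)) (hA : ∀ l ∈ A, Adm1 l) (N : ℕ) (y : ℕ → List ℕ → ℤ) (i : ℕ)
    (hi : i + 1 ≤ N) (v : List ℕ) (hv : Adm1 v) :
    formt A N y i v = ∑ l ∈ range (N + 1), ∑ a ∈ A, (y l a : ℝ) *
      ∑ j ∈ range (N + 1), (-1) ^ j * (N.choose j : ℝ) * (bneg (l + j) i : ℝ) * ct a v (l + j) := by
  have h1 : ∀ M : ℕ, (∑ l ∈ range (N + 1), ∑ a ∈ A, (y l a : ℝ) * (beta N l M * T a (M + 1))) *
      bt i M * T v (M + 1) =
      ∑ l ∈ range (N + 1), ∑ a ∈ A, ∑ j ∈ range (N + 1),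
        ((y l a : ℝ) * ((-1) ^ j * (N.choose j : ℝ) * (bneg (l + j) i : ℝ))) *
          (T a (M + 1) * T v (M + 1) * (((M : ℝ) + 1 + (l + j : ℕ))⁻¹ - ((M : ℝ) + 1)⁻¹)) := by
    intro M
    rw [Finset.sum_mul, Finset.sum_mul]
    refine Finset.sum_congr rfl fun l _ => ?_
    rw [Finset.sum_mul, Finset.sum_mul]
    refine Finset.sum_congr rfl fun a _ => ?_
    have h2 := xfeq_S' N l M i hi
    have h3 : (y l a : ℝ) * (beta N l M * T a (M + 1)) * bt i M * T v (M + 1) =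
        (bt i M * beta N l M) * ((y l a : ℝ) * (T a (M + 1) * T v (M + 1))) := by ring
    rw [h3, h2, Finset.sum_mul]
    refine Finset.sum_congr rfl fun j _ => ?_
    ring
  have hs : ∀ l, ∀ a ∈ A, ∀ j, Summable fun M : ℕ =>
      ((y l a : ℝ) * ((-1) ^ j * (N.choose j : ℝ) * (bneg (l + j) i : ℝ))) *
          (T a (M + 1) * T v (M + 1) * (((M : ℝ) + 1 + (l + j : ℕ))⁻¹ - ((M : ℝ) + 1)⁻¹)) :=
    fun l a ha j => (summ_ct (hA a ha) hv (l + j)).mul_left _
  unfold formt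
  rw [tsum_congr h1]
  rw [Summable.tsum_finsetSum fun l _ => summable_sum fun a ha => summable_sum fun j _ => hs l a ha j]
  refine Finset.sum_congr rfl fun l _ => ?_
  rw [Summable.tsum_finsetSum fun a ha => summable_sum fun j _ => hs l a ha j]
  refine Finset.sum_congr rfl fun a ha => ?_
  rw [Summable.tsum_finsetSum fun j _ => hs l a ha j, Finset.mul_sum]
  refine Finset.sum_congr rfl fun j _ => ?_
  rw [tsum_mul_left, ct]
  ring

end Pool.MZExp
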