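import Pool.Agent.Lib.MZExp.VDefs
import Pool.Agent.Lib.MZExp.XFEq
import Pool.Agent.Lib.MZExp.XFRep
import Pool.Agent.Lib.MZExp.XFRec
import Pool.Agent.Lib.MZExp.XConv
import Pool.Agent.Lib.MZExp.XBin
import Pool.Agent.Lib.MZExp.XLower

/-! MP_301213_nt, EXPONENT 1/3, module `VForm`: the numbers `Lv N k α i v`.

`Lv N k α i v` is a value of `formt` in two ways: with `N + k` in place of `N` and the single
coefficient at `l = 0` (this gives its values under functionals), and with `N` and the coefficients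
`(-1)^l C(k,l)` (this gives its representation by multiple zeta values). -/

open HofPers Finset Pool.MZDim

namespace Pool.MZExp

private lemma vf_phi_mul (φ : ℝ →ₗ[ℚ] ℚ) (q : ℚ) (x : ℝ) : φ ((q : ℝ) * x) = q * φ x := by
  have : (q : ℝ) * x = q • x := by rw [Rat.smul_def]
  rw [this, map_smul, smul_eq_mul]

private lemma vf_ct_comm (α v : List ℕ) (j : ℕ) : ct α v j = ct v α j := by
  unfold ct
  refine tsum_congr fun M => ?_
  rw [mul_comm (T α (M + 1))]

private lemma vf_Lv_formt (N k : ℕ) (α : List ℕ) (i : ℕ) (v : List ℕ) :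
    Lv N k α i v = formt {α} (N + k) (fun l _ => if l = 0 then 1 else 0) i v := by
  unfold Lv formt
  refine tsum_congr fun M => ?_
  congr 2
  rw [Finset.sum_range_succ', Finset.sum_eq_zero]
  · simp [beta_eq_ek]
  · intro l _
    simp

theorem Lv_phi (φ : ℝ →ₗ[ℚ] ℚ) (N k : ℕ) (α v : List ℕ) (hα : Adm1 α) (hv : Adm1 v) (i : ℕ)
    (hi : i + 1 ≤ N) :
    φ (Lv N k α i v) = LC N (fun j => φ (ct v α j)) k i := by
  rw [vf_Lv_formt, formt_eq {α} (by intro l hl; rw [Finset.mem_singleton.1 hl]; exact hα) (N + k) _ i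
    (by omega) v hv]
  have h1 : ∑ l ∈ range (N + k + 1), ∑ a ∈ ({α} : Finset (List ℕ)),
      (((fun l _ => if l = 0 then 1 else 0 : ℕ → List ℕ → ℤ) l a : ℤ) : ℝ) *
      ∑ j ∈ range (N + k + 1), (-1) ^ j * ((N + k).choose j : ℝ) * (bneg (l + j) i : ℝ) *
        ct a v (l + j) =
      ∑ j ∈ range (N + k + 1),
        (((-1) ^ j * ((N + k).choose j : ℚ) * (bneg j i : ℚ) : ℚ) : ℝ) * ct v α j := by
    rw [Finset.sum_range_succ', Finset.sum_eq_zero]
    · rw [Finset.sum_singleton]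
      simp only [zero_add, if_true, Int.cast_one, one_mul]
      refine Finset.sum_congr rfl fun j _ => ?_
      rw [vf_ct_comm]
      push_cast
      rfl
    · intro l _
      simp
  rw [h1, map_sum]
  unfold LC
  refine Finset.sum_congr rfl fun j _ => ?_
  rw [vf_phi_mul]

theorem Lv_rep (W W' : ℕ) : RepU (WT W) (WT W') (WT (W + W' + 1)) (W + W' + 1) := by
  classical
  obtain ⟨C, hC⟩ := formt_rep (WT W) (WT W') W W' (fun l hl => mem_WT.1 hl) (fun l hl => mem_WT.1 hl)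
  refine ⟨C, fun N hN k hk α hα i hi v hv => ?_⟩
  set y : ℕ → List ℕ → ℤ := fun l a => if a = α then (-1) ^ l * ((k.choose l : ℕ) : ℤ) else 0 with hy
  have hY : ∀ l a, |(y l a : ℝ)| ≤ 2 ^ N := by
    intro l a
    rw [hy]
    show |(((if a = α then (-1) ^ l * ((k.choose l : ℕ) : ℤ) else 0 : ℤ)) : ℝ)| ≤ 2 ^ N
    split_ifs
    · push_cast
      rw [abs_mul, abs_pow, abs_neg, abs_one, one_pow, one_mul, abs_of_nonneg (by positivity)]
      have h1 : k.choose l ≤ 2 ^ N := (Nat.choose_le_two_pow k l).trans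
        (Nat.pow_le_pow_right (by norm_num) hk)
      exact_mod_cast h1
    · simp
  obtain ⟨b, hb1, hb2, hb3, hb4⟩ := hC N hN y (2 ^ N) (one_le_pow₀ (by norm_num)) hY i hi v hv
  have e : formt (WT W) N y i v = Lv N k α i v := by
    unfold formt Lv
    refine tsum_congr fun M => ?_
    congr 2
    have h1 : ∀ l, ∑ a ∈ WT W, (y l a : ℝ) * (beta N l M * T a (M + 1)) =
        ((-1 : ℝ) ^ l * ((k.choose l : ℕ) : ℝ) * ek N (M + 1 + l)) * T α (M + 1) := by
      intro l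
      rw [Finset.sum_eq_single α]
      · rw [beta_eq_ek]
        simp only [hy, if_true]
        push_cast
        ring
      · intro a _ ha
        simp [hy, ha]
      · intro h
        exact absurd hα h
    simp only [h1]
    rw [← Finset.sum_mul, ek_eq_sum (by omega : 1 ≤ M + 1) N k]
    congr 1
    rw [← Finset.sum_subset (Finset.range_mono (by omega : k + 1 ≤ N + 1))]
    intro l _ hl
    rw [Finset.mem_range] at hl
    rw [Nat.choose_eq_zero_of_lt (by omega)]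
    simp
  refine ⟨b, fun l hl => mem_WT.2 (hb1 l hl), hb2, hb3.trans (le_of_eq ?_), by rw [hb4, e]⟩
  rw [← mul_pow]
  norm_num

private theorem vf_sqs : Summable (fun M : ℕ => (((M : ℝ) + 1) ^ 2)⁻¹) ∧
    ∑' M : ℕ, (((M : ℝ) + 1) ^ 2)⁻¹ ≤ 2 := by
  have hs : Summable (fun M : ℕ => (((M : ℝ) + 1) ^ 2)⁻¹) := by
    have h := (summable_nat_add_iff 1).2 (Real.summable_nat_pow_inv.2 (show 1 < 2 by norm_num))
    refine h.congr fun M => ?_
    push_cast
    rfl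
  refine ⟨hs, ?_⟩
  refine hs.tsum_le_of_sum_range_le fun n => ?_
  have key : ∀ n : ℕ, ∑ M ∈ range (n + 1), (((M : ℝ) + 1) ^ 2)⁻¹ ≤ 2 - ((n : ℝ) + 1)⁻¹ := by
    intro n
    induction n with
    | zero => simp; norm_num
    | succ n ih =>
      rw [Finset.sum_range_succ]
      have h2 : (0 : ℝ) ≤ n := Nat.cast_nonneg n
      push_cast
      have h3 : ((n : ℝ) + 1)⁻¹ - ((n : ℝ) + 1 + 1)⁻¹ = (((n : ℝ) + 1) * ((n : ℝ) + 1 + 1))⁻¹ := by
        field_simp
        ring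
      have h4 : (((n : ℝ) + 1 + 1) ^ 2)⁻¹ ≤ (((n : ℝ) + 1) * ((n : ℝ) + 1 + 1))⁻¹ := by
        apply inv_anti₀ (by positivity)
        nlinarith
      linarith
  refine (Finset.sum_le_sum_of_subset_of_nonneg (Finset.range_mono (Nat.le_succ n))
    (fun M _ _ => by positivity)).trans ((key n).trans ?_)
  have : (0 : ℝ) ≤ ((n : ℝ) + 1)⁻¹ := by positivity
  linarith

private theorem vf_T_le2 {l : List ℕ} (h : Adm1 l) (M : ℕ) : HofPers.T l M ≤ 2 := by
  rcases eq_or_ne l [] with rfl | h0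
  · rw [HofPers.T_nil]
    norm_num
  · refine (T_le_two h h0 M).trans ?_
    have : (0 : ℝ) ≤ M := Nat.cast_nonneg M
    rw [div_le_iff₀ (by positivity)]
    linarith

private theorem vf_T_nn (l : List ℕ) (M : ℕ) : 0 ≤ HofPers.T l M := ENNReal.toReal_nonneg

private theorem vf_bt_nn (i M : ℕ) : 0 ≤ bt i M := by
  unfold bt
  positivity

private theorem vf_term_bound {N i : ℕ} (hi : i + 1 ≤ N) (k : ℕ) {α v : List ℕ} (hα : Adm1 α)
    (hv : Adm1 v) (M : ℕ) :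
    ek (N + k) (M + 1) * T α (M + 1) * bt i M * T v (M + 1) ≤
      4 * (N : ℝ) * (((M : ℝ) + 1) ^ 2)⁻¹ := by
  have h0 : (1 : ℕ) ≤ M + 1 := by omega
  have h1 : ek (N + k) (M + 1) ≤ ek N (M + 1) := ek_anti h0 (by omega)
  have h2 : ek N (M + 1) * (((M + 1).choose i : ℕ) : ℝ) ≤ (N : ℝ) / ((M + 1 : ℕ) : ℝ) ^ 2 :=
    ek_choose_small hi h0
  have h3 := ek_pos h0 (N + k)
  have h4 := vf_T_le2 hα (M + 1)
  have h5 := vf_T_le2 hv (M + 1)
  have h6 := vf_T_nn α (M + 1)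
  have h7 := vf_T_nn v (M + 1)
  have h8 := vf_bt_nn i M
  have h9 : ek (N + k) (M + 1) * bt i M ≤ (N : ℝ) * (((M : ℝ) + 1) ^ 2)⁻¹ := by
    calc ek (N + k) (M + 1) * bt i M ≤ ek N (M + 1) * bt i M :=
          mul_le_mul_of_nonneg_right h1 h8
      _ ≤ (N : ℝ) / ((M + 1 : ℕ) : ℝ) ^ 2 := h2
      _ = (N : ℝ) * (((M : ℝ) + 1) ^ 2)⁻¹ := by
          push_cast
          rw [div_eq_mul_inv]
  calc ek (N + k) (M + 1) * T α (M + 1) * bt i M * T v (M + 1)
      = (ek (N + k) (M + 1) * bt i M) * (T α (M + 1) * T v (M + 1)) := by ring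
    _ ≤ ((N : ℝ) * (((M : ℝ) + 1) ^ 2)⁻¹) * (2 * 2) := by
        apply mul_le_mul h9 _ (by positivity) (by positivity)
        exact mul_le_mul h4 h5 h7 (by norm_num)
    _ = _ := by ring

private theorem vf_term_summable {N i : ℕ} (hi : i + 1 ≤ N) (k : ℕ) {α v : List ℕ} (hα : Adm1 α)
    (hv : Adm1 v) :
    Summable fun M : ℕ => ek (N + k) (M + 1) * T α (M + 1) * bt i M * T v (M + 1) := by
  refine Summable.of_nonneg_of_le (fun M => ?_) (vf_term_bound hi k hα hv)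
    (vf_sqs.1.mul_left (4 * (N : ℝ)))
  have h0 : (1 : ℕ) ≤ M + 1 := by omega
  exact mul_nonneg (mul_nonneg (mul_nonneg (ek_pos h0 _).le (vf_T_nn _ _)) (vf_bt_nn _ _))
    (vf_T_nn _ _)

theorem Lv_sum (A : Finset (List ℕ)) (hA : ∀ l ∈ A, Adm1 l) (N : ℕ) (y : Fin (N + 1) × A → ℤ)
    (i : ℕ) (hi : i + 1 ≤ N) (v : List ℕ) (hv : Adm1 v) (E : ℝ) (hE : 0 ≤ E)
    (h : ∀ t : ℕ, 1 ≤ t →
      |(∑ p, (y p : ℝ) * (ek (N + p.1) t * T (p.2 : List ℕ) t)) * ((t.choose i : ℕ) : ℝ)| ≤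
        E / (t : ℝ) ^ 2) :
    |∑ p, (y p : ℝ) * Lv N p.1 p.2 i v| ≤ 4 * E := by
  have hsum : ∀ p : Fin (N + 1) × A, Summable fun M : ℕ => (y p : ℝ) *
      (ek (N + p.1) (M + 1) * T (p.2 : List ℕ) (M + 1) * bt i M * T v (M + 1)) :=
    fun p => (vf_term_summable hi p.1 (hA _ p.2.2) hv).mul_left _
  have e : ∑ p, (y p : ℝ) * Lv N p.1 p.2 i v =
      ∑' M : ℕ, ∑ p, (y p : ℝ) *
        (ek (N + p.1) (M + 1) * T (p.2 : List ℕ) (M + 1) * bt i M * T v (M + 1)) := by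
    rw [Summable.tsum_finsetSum fun p _ => hsum p]
    refine Finset.sum_congr rfl fun p _ => ?_
    unfold Lv
    rw [tsum_mul_left]
  rw [e]
  obtain ⟨hs, hs2⟩ := vf_sqs
  have h1 : ∀ M : ℕ, ‖∑ p, (y p : ℝ) *
        (ek (N + p.1) (M + 1) * T (p.2 : List ℕ) (M + 1) * bt i M * T v (M + 1))‖ ≤
      2 * E * (((M : ℝ) + 1) ^ 2)⁻¹ := by
    intro M
    have e2 : ∑ p, (y p : ℝ) *
        (ek (N + p.1) (M + 1) * T (p.2 : List ℕ) (M + 1) * bt i M * T v (M + 1)) =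
        (∑ p, (y p : ℝ) * (ek (N + p.1) (M + 1) * T (p.2 : List ℕ) (M + 1))) *
          (((M + 1).choose i : ℕ) : ℝ) * T v (M + 1) := by
      rw [Finset.sum_mul, Finset.sum_mul]
      refine Finset.sum_congr rfl fun p _ => ?_
      unfold bt
      ring
    rw [e2, Real.norm_eq_abs, abs_mul, abs_of_nonneg (vf_T_nn v (M + 1))]
    calc _ ≤ (E / ((M + 1 : ℕ) : ℝ) ^ 2) * 2 :=
          mul_le_mul (h (M + 1) (by omega)) (vf_T_le2 hv (M + 1)) (vf_T_nn v (M + 1)) (by positivity)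
      _ = _ := by
          push_cast
          rw [div_eq_mul_inv]
          ring
  have h2 := tsum_of_norm_bounded ((hs.hasSum).mul_left (2 * E)) h1
  rw [Real.norm_eq_abs] at h2
  refine h2.trans ?_
  calc 2 * E * ∑' M : ℕ, (((M : ℝ) + 1) ^ 2)⁻¹ ≤ 2 * E * 2 :=
        mul_le_mul_of_nonneg_left hs2 (by positivity)
    _ = 4 * E := by ring

theorem ct_recV (φ : ℝ →ₗ[ℚ] ℚ) : RecV (φ 1) (fun u v j => φ (ct u v j)) := by
  obtain ⟨R, h1, -, h3, h4⟩ := ct_rec φ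
  refine ⟨R, fun u v => φ (T u 0 * T v 0), h1, ?_, fun u v => (h3 u v).trans (by omega),
    fun j u v hj hu hv => h4 j hj u v hu hv⟩
  show φ (T [] 0 * T [] 0) = φ 1
  rw [T_nil, mul_one]

end Pool.MZExp
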