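import Pool.Agent.Lib.MZExp.VDefs

/-! MP_301213_nt, EXPONENT 1/3, module `VInt` (120 lines): the coordinates of the numbers `Lv` are rational
numbers with common denominator `q D^K` and bounded height, `D = lcm (1..2N)`.

PROOF. `lcmV`: copy of the private `XLower.lcm3` (`MZExp/XLower.lean`). `int_V`: `RepU` gives
`C` and, for `N ≥ 1`, `b : List ℕ →₀ ℚ` with support in `U`, `D^K * b l = zz l` an integer,
`∑ |b l| ≤ 32^N C (N+1)^C`, `Lv = ∑ b l T l 0`. So `Lv ∈ HU U` (`Submodule.sum_mem`, `Rat.smul_def`), and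
`q D^K Φ i0 (Lv) = ∑_(l ∈ supp) (D^K b l) (q Φ i0 (T l 0)) = ∑ zz l * m l` with the integers `m l` of `hq`,
`|m l| ≤ C0`; its absolute value is at most `C0 D^K ∑ |b l| ≤ C0 exp (3 K N) 32^N C (N+1)^C ≤
exp ((3K+4) N)` for large `N`: `lcmV`, and `32^N ≤ exp (7/2 N)` (`5 log 2 ≤ 3.4658`, `Real.log_two_lt_d9`),
`C0 C (N+1)^C ≤ exp (N/2)` for large `N` (as in `XLower.ev_coeffT`: `isLittleO_pow_exp_pos_mul_atTop`). -/

open HofPers Finset Pool.MZDim Filter Topology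

namespace Pool.MZExp

theorem lcmV : ∀ᶠ N : ℕ in atTop, ((Nat.lcmUpto (2 * N) : ℕ) : ℝ) ≤ Real.exp (3 * N) := by
  have h1 : ∀ᶠ x : ℝ in atTop, ‖Real.log x‖ ≤ 1 / 20 * ‖x ^ ((1 : ℝ) / 2)‖ :=
    (isLittleO_log_rpow_atTop (by norm_num : (0 : ℝ) < 1 / 2)).bound (by norm_num)
  have h2 : Tendsto (fun N : ℕ => ((2 * N : ℕ) : ℝ)) atTop atTop :=
    tendsto_natCast_atTop_atTop.comp (tendsto_id.const_mul_atTop' (by norm_num))
  filter_upwards [h2.eventually h1, eventually_ge_atTop 1] with N hN hN1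
  have hpos : (0 : ℝ) < ((Nat.lcmUpto (2 * N) : ℕ) : ℝ) := by
    exact_mod_cast Nat.lcmUpto_pos (2 * N)
  rw [← Real.log_le_iff_le_exp hpos, ← Chebyshev.psi_eq_log_lcmUpto]
  have hx1 : (1 : ℝ) ≤ ((2 * N : ℕ) : ℝ) := by exact_mod_cast (by omega : 1 ≤ 2 * N)
  refine (Chebyshev.psi_le hx1).trans ?_
  have h4 : Real.log 4 = 2 * Real.log 2 := by
    rw [show (4 : ℝ) = 2 ^ 2 by norm_num, Real.log_pow]
    norm_num
  have h5 := Real.log_two_lt_d9
  have hl0 : 0 ≤ Real.log ((2 * N : ℕ) : ℝ) := Real.log_nonneg hx1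
  rw [← Real.sqrt_eq_rpow, Real.norm_of_nonneg hl0, Real.norm_of_nonneg (Real.sqrt_nonneg _)] at hN
  have h6 : √((2 * N : ℕ) : ℝ) * Real.log ((2 * N : ℕ) : ℝ) ≤ 1 / 20 * ((2 * N : ℕ) : ℝ) := by
    calc √((2 * N : ℕ) : ℝ) * Real.log ((2 * N : ℕ) : ℝ)
        ≤ √((2 * N : ℕ) : ℝ) * (1 / 20 * √((2 * N : ℕ) : ℝ)) :=
          mul_le_mul_of_nonneg_left hN (Real.sqrt_nonneg _)
      _ = 1 / 20 * (√((2 * N : ℕ) : ℝ) * √((2 * N : ℕ) : ℝ)) := by ring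
      _ = _ := by rw [Real.mul_self_sqrt (by positivity)]
  rw [h4]
  push_cast at h6 ⊢
  have hN0 : (0 : ℝ) ≤ N := Nat.cast_nonneg N
  nlinarith

private theorem ev_V (C C0 K : ℕ) :
    ∀ᶠ N : ℕ in atTop, (C0 : ℝ) * Real.exp (3 * K * N) * (32 ^ N * (C * ((N : ℝ) + 1) ^ C)) ≤
      Real.exp (((3 * K + 4 : ℕ) : ℝ) * N) := by
  have h1 : (fun x : ℝ => x ^ C) =o[atTop] fun x => Real.exp (1 / 10 * x) :=
    isLittleO_pow_exp_pos_mul_atTop C (by norm_num)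
  have h2 : ∀ᶠ x : ℝ in atTop, ‖x ^ C‖ ≤ 1 / ((C0 * C : ℝ) + 1) * ‖Real.exp (1 / 10 * x)‖ :=
    h1.bound (by positivity)
  have h3 : Tendsto (fun N : ℕ => (N : ℝ) + 1) atTop atTop :=
    tendsto_atTop_add_const_right _ _ tendsto_natCast_atTop_atTop
  filter_upwards [h3.eventually h2, eventually_ge_atTop 1] with N hN hN1
  have hNr : (1 : ℝ) ≤ N := by exact_mod_cast hN1
  have hC0 : (0 : ℝ) ≤ C0 * C := by positivity
  rw [Real.norm_of_nonneg (by positivity), Real.norm_of_nonneg (Real.exp_pos _).le] at hN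
  have h4 : ((C0 : ℝ) * C) * ((N : ℝ) + 1) ^ C ≤ Real.exp (1 / 10 * ((N : ℝ) + 1)) := by
    calc ((C0 : ℝ) * C) * ((N : ℝ) + 1) ^ C ≤ ((C0 * C : ℝ) + 1) * ((N : ℝ) + 1) ^ C :=
          mul_le_mul_of_nonneg_right (by linarith) (by positivity)
      _ ≤ ((C0 * C : ℝ) + 1) * (1 / ((C0 * C : ℝ) + 1) * Real.exp (1 / 10 * ((N : ℝ) + 1))) :=
          mul_le_mul_of_nonneg_left hN (by positivity)
      _ = _ := by field_simp
  have h5 : (32 : ℝ) ^ N = Real.exp (N * (5 * Real.log 2)) := by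
    rw [Real.exp_nat_mul]
    congr 1
    rw [show (5 : ℝ) * Real.log 2 = ((5 : ℕ) : ℝ) * Real.log 2 by norm_num, Real.exp_nat_mul,
      Real.exp_log (by norm_num)]
    norm_num
  have hlog := Real.log_two_lt_d9
  calc (C0 : ℝ) * Real.exp (3 * K * N) * (32 ^ N * (C * ((N : ℝ) + 1) ^ C))
      = Real.exp (3 * K * N) * Real.exp (N * (5 * Real.log 2)) *
          (((C0 : ℝ) * C) * ((N : ℝ) + 1) ^ C) := by
        rw [h5]
        ring
    _ ≤ Real.exp (3 * K * N) * Real.exp (N * (5 * Real.log 2)) *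
          Real.exp (1 / 10 * ((N : ℝ) + 1)) := mul_le_mul_of_nonneg_left h4 (by positivity)
    _ = Real.exp (3 * K * N + N * (5 * Real.log 2) + 1 / 10 * ((N : ℝ) + 1)) := by
        rw [← Real.exp_add, ← Real.exp_add]
    _ ≤ Real.exp (((3 * K + 4 : ℕ) : ℝ) * N) := by
        rw [Real.exp_le_exp]
        push_cast
        nlinarith

theorem int_V (A S U : Finset (List ℕ)) (K : ℕ) (hrep : RepU A S U K) (Φ : ℕ → (ℝ →ₗ[ℚ] ℚ)) (q C0 : ℕ)
    (hq : ∀ i (l : U), ∃ m : ℤ, (q : ℚ) * Φ i (T (l : List ℕ) 0) = m ∧ |m| ≤ (C0 : ℤ)) :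
    ∀ᶠ N : ℕ in atTop, ∀ k ≤ N, ∀ α ∈ A, ∀ i ≤ N / 2, ∀ v ∈ S,
      Lv N k α i v ∈ HU U ∧
      ∀ i0, ∃ m : ℤ, (q : ℚ) * ((Nat.lcmUpto (2 * N) : ℕ) : ℚ) ^ K * Φ i0 (Lv N k α i v) = m ∧
        |(m : ℝ)| ≤ Real.exp (((3 * K + 4 : ℕ) : ℝ) * N) := by
  obtain ⟨C, hC⟩ := hrep
  filter_upwards [lcmV, ev_V C C0 K, eventually_ge_atTop 1] with N hlcm hev hN1 k hk α hα i hi v hv
  obtain ⟨b, hbU, hbz, hbs, hbL⟩ := hC N hN1 k hk α hα i hi v hv
  choose zz hzz using hbz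
  have hdle : (((Nat.lcmUpto (2 * N) : ℕ) : ℝ)) ^ K ≤ Real.exp (3 * K * N) := by
    calc (((Nat.lcmUpto (2 * N) : ℕ) : ℝ)) ^ K ≤ Real.exp (3 * N) ^ K :=
          pow_le_pow_left₀ (Nat.cast_nonneg _) hlcm K
      _ = Real.exp (3 * K * N) := by
        rw [← Real.exp_nat_mul]
        congr 1
        ring
  refine ⟨?_, fun i0 => ?_⟩
  · rw [← hbL]
    refine Submodule.sum_mem _ fun l hl => ?_
    rw [← Rat.smul_def]
    exact Submodule.smul_mem _ _ (Submodule.subset_span ⟨⟨l, hbU hl⟩, rfl⟩)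
  · have hm : ∀ l : List ℕ, ∃ m : ℤ, l ∈ b.support → (q : ℚ) * Φ i0 (T l 0) = m ∧ |m| ≤ (C0 : ℤ) := by
      intro l
      by_cases hl : l ∈ b.support
      · obtain ⟨m, h1, h2⟩ := hq i0 ⟨l, hbU hl⟩
        exact ⟨m, fun _ => ⟨h1, h2⟩⟩
      · exact ⟨0, fun h => absurd h hl⟩
    choose mm hmm using hm
    have hΦ : Φ i0 (Lv N k α i v) = ∑ l ∈ b.support, b l * Φ i0 (T l 0) := by
      rw [← hbL, map_sum]
      refine sum_congr rfl fun l _ => ?_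
      rw [← Rat.smul_def, map_smul, smul_eq_mul]
    refine ⟨∑ l ∈ b.support, zz l * mm l, ?_, ?_⟩
    · rw [hΦ, mul_sum]
      push_cast
      refine sum_congr rfl fun l hl => ?_
      rw [← hzz l, ← (hmm l hl).1]
      ring
    · have hzr : ∀ l, |((zz l : ℤ) : ℝ)| =
          (((Nat.lcmUpto (2 * N) : ℕ) : ℝ)) ^ K * |((b l : ℚ) : ℝ)| := by
        intro l
        have h := congrArg (fun x : ℚ => (x : ℝ)) (hzz l)
        push_cast at h
        rw [← h, abs_mul, abs_of_nonneg (by positivity)]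
      push_cast
      calc |∑ l ∈ b.support, ((zz l : ℤ) : ℝ) * ((mm l : ℤ) : ℝ)|
          ≤ ∑ l ∈ b.support, |((zz l : ℤ) : ℝ) * ((mm l : ℤ) : ℝ)| := abs_sum_le_sum_abs _ _
        _ ≤ ∑ l ∈ b.support, (C0 : ℝ) * ((((Nat.lcmUpto (2 * N) : ℕ) : ℝ)) ^ K *
              |((b l : ℚ) : ℝ)|) := by
            refine sum_le_sum fun l hl => ?_
            rw [abs_mul, hzr, mul_comm]
            refine mul_le_mul_of_nonneg_right ?_ (by positivity)
            have := (hmm l hl).2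
            exact_mod_cast this
        _ = (C0 : ℝ) * (((Nat.lcmUpto (2 * N) : ℕ) : ℝ)) ^ K *
              ∑ l ∈ b.support, |((b l : ℚ) : ℝ)| := by
            rw [mul_sum]
            refine sum_congr rfl fun l _ => ?_
            ring
        _ ≤ (C0 : ℝ) * Real.exp (3 * K * N) * (32 ^ N * (C * ((N : ℝ) + 1) ^ C)) := by
            refine mul_le_mul (mul_le_mul_of_nonneg_left hdle (by positivity)) hbs
              (by positivity) (by positivity)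
        _ ≤ _ := hev.trans (by push_cast; exact le_rfl)

end Pool.MZExp
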