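import Mathlib

/-! MP_301213_nt, EXPONENT 1/3, module `VPig` (190 lines, only Mathlib): the box principle with exact and
approximate conditions.

PROOF. Let `v i p = (ρ i p : ℚ)`, `w g p = (σ g p : ℚ)` as vectors in `Col → ℚ`.
(1) Choose a maximal linearly independent subfamily of `v` with the same span
(`exists_linearIndependent` for `Set.range v`, choose an index for each element: a finite type `E`, an injective
map `E → ι1` with `LinearIndependent ℚ (v ∘ j)` and `span (range (v ∘ j)) = span (range v)`), `e = card E ≤ card ι1`.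
The family `u : E ⊕ ι2 → Col → ℚ`, `Sum.elim (v ∘ j) w`, is linearly independent: if
`∑ c1 v + ∑ c2 w = 0` then `c2 = 0` by `hZ` (extend `c1` by `0`) and then `c1 = 0`.
(2) Columns: the matrix `u` (rows `E ⊕ ι2`, columns `Col`) has linearly independent rows, so its columns
`p ↦ (fun s => u s p)` span `E ⊕ ι2 → ℚ` (rank); choose among the columns a basis: a finite type
`P` with `card P = e + card ι2`, an injective map `q : P → Col`, such that the square matrix
`M s t = u s (q t)` is nonsingular: if `z : P → ℚ` and `∑_t M s t z_t = 0` for all `s` then `z = 0`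
(columns are linearly independent).
(3) Box: for `y : P → Fin (X+1)` the numbers `∑_t ρ (j s) (q t) y_t` (`s ∈ E`) are integers in
`[-n X Q0, n X Q0]`, `n = card Col` (`card P ≤ n`), at most `2 n X Q0 + 1` values; for `k ∈ S` the box
index `⌊(∑_t a (q t) k y_t) / ε⌋₊` has at most `n X M0 / ε + 1` values (see `Pool.MZDim.box`). By
`hcount` and `e ≤ card ι1`, `X + 1 ≤ 2 n X Q0 + 1` (`hQ`), the number `(X+1)^(e + card ι2)` of `y` is larger
than the number of classes: `(2nXQ0+1)^e * (..)^S.card < (X+1)^(e + card ι2)` follows from `hcount` by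
dividing by `(X+1)^(card ι1 - e) ≤ (2nXQ0+1)^(card ι1 - e)`. So there are `y' ≠ y''` in the same class
(`Fintype.exists_ne_map_eq_of_card_lt`; encode the integer values as `Fin (2nXQ0+1)`), `y = y' - y''`,
extended by `0` from `P` to `Col` (`y p = ∑ t, if q t = p then (y' t - y'' t) else 0`).
(4) `|y p| ≤ X`; `∑ ρ i p y p = 0` for `i` in the image of `j`, hence for all `i` (`v i ∈ span`);
`|∑ y p a p k| ≤ ε`; if also `∑ σ g p y p = 0` for all `g` then `M (y on P) = 0`, `y = 0` on `P`,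
contradiction to `y' ≠ y''`. -/

open Finset

namespace Pool.MZExp

private theorem VPig_sel {Col ι1 ι2 : Type*} [Fintype Col] [Fintype ι1] [Fintype ι2]
    (ρ : ι1 → Col → ℤ) (σ : ι2 → Col → ℤ)
    (hZ : ∀ (c1 : ι1 → ℚ) (c2 : ι2 → ℚ),
      (∀ p, ∑ i, c1 i * (ρ i p : ℚ) + ∑ g, c2 g * (σ g p : ℚ) = 0) → c2 = 0) :
    ∃ (E : Finset ι1) (P : Finset Col), P.card = E.card + Fintype.card ι2 ∧
      (∀ y : Col → ℤ, (∀ i ∈ E, ∑ p, ρ i p * y p = 0) → ∀ i, ∑ p, ρ i p * y p = 0) ∧
      (∀ y : Col → ℤ, (∀ p, p ∉ P → y p = 0) → (∀ i ∈ E, ∑ p, ρ i p * y p = 0) →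
        (∀ g, ∑ p, σ g p * y p = 0) → y = 0) := by
  classical
  set v : ι1 → Col → ℚ := fun i p => (ρ i p : ℚ) with hv
  set w : ι2 → Col → ℚ := fun g p => (σ g p : ℚ) with hw
  obtain ⟨κ, j, hj, hsp, hli⟩ := exists_linearIndependent' ℚ v
  haveI : Fintype κ := Fintype.ofInjective j hj
  let u : Matrix (κ ⊕ ι2) Col ℚ := Matrix.of (Sum.elim (v ∘ j) w)
  have hu : LinearIndependent ℚ u.row := by
    rw [Fintype.linearIndependent_iff]
    intro c hc
    have h2 : (fun g => c (Sum.inr g)) = 0 := by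
      refine hZ (fun i => ∑ s, if j s = i then c (Sum.inl s) else 0)
        (fun g => c (Sum.inr g)) ?_
      intro p
      have h3 := congrFun hc p
      rw [Finset.sum_apply, Fintype.sum_sum_type] at h3
      have h4 : ∑ i, (∑ s, if j s = i then c (Sum.inl s) else 0) * (ρ i p : ℚ) =
          ∑ s, c (Sum.inl s) * (ρ (j s) p : ℚ) := by
        simp only [Finset.sum_mul, ite_mul, zero_mul]
        rw [Finset.sum_comm]
        refine Finset.sum_congr rfl fun s _ => ?_
        rw [Finset.sum_ite_eq]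
        simp
      rw [h4]
      exact h3
    have h1 : ∑ s, c (Sum.inl s) • (v ∘ j) s = 0 := by
      funext p
      have h3 := congrFun hc p
      rw [Finset.sum_apply, Fintype.sum_sum_type] at h3
      have h5 : ∑ g, (c (Sum.inr g) • u.row (Sum.inr g)) p = 0 := by
        refine Finset.sum_eq_zero fun g _ => ?_
        have h6 : c (Sum.inr g) = 0 := congrFun h2 g
        rw [h6, zero_smul]
        rfl
      rw [h5, add_zero] at h3
      rw [Finset.sum_apply]
      exact h3
    have h4 := Fintype.linearIndependent_iff.1 hli _ h1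
    intro i
    cases i with
    | inl s => exact h4 s
    | inr g => exact congrFun h2 g
  obtain ⟨π, q, hq, hsp2, hli2⟩ := exists_linearIndependent' ℚ u.col
  haveI : Fintype π := Fintype.ofInjective q hq
  have hcard : Fintype.card π = Fintype.card κ + Fintype.card ι2 := by
    rw [← finrank_span_eq_card hli2, hsp2, ← Matrix.rank_eq_finrank_span_cols, hu.rank_matrix,
      Fintype.card_sum]
  refine ⟨univ.image j, univ.image q, ?_, ?_, ?_⟩
  · rw [card_image_of_injective _ hj, card_image_of_injective _ hq]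
    exact hcard
  · intro y hy i
    let L : (Col → ℚ) →ₗ[ℚ] ℚ :=
      { toFun := fun z => ∑ p, z p * (y p : ℚ)
        map_add' := fun z z' => by
          simp only [Pi.add_apply, add_mul, Finset.sum_add_distrib]
        map_smul' := fun r z => by
          simp only [Pi.smul_apply, smul_eq_mul, RingHom.id_apply, Finset.mul_sum, mul_assoc] }
    have hL : Submodule.span ℚ (Set.range (v ∘ j)) ≤ LinearMap.ker L := by
      rw [Submodule.span_le]
      rintro _ ⟨s, rfl⟩
      have h1 := hy (j s) (mem_image_of_mem j (mem_univ s))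
      have h2 : ∑ p, (ρ (j s) p : ℚ) * (y p : ℚ) = 0 := by exact_mod_cast h1
      exact h2
    have hi : v i ∈ Submodule.span ℚ (Set.range (v ∘ j)) := by
      rw [hsp]
      exact Submodule.subset_span ⟨i, rfl⟩
    have h3 : ∑ p, (ρ i p : ℚ) * (y p : ℚ) = 0 := hL hi
    exact_mod_cast h3
  · intro y hy0 hy1 hy2
    have hsum : ∀ f : Col → ℚ, ∑ t, (y (q t) : ℚ) * f (q t) = ∑ p, (y p : ℚ) * f p := by
      intro f
      refine Fintype.sum_of_injective q hq _ _ ?_ (fun _ => rfl)
      intro p hp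
      have h1 : y p = 0 := hy0 p (by
        intro h2
        obtain ⟨t, -, ht⟩ := mem_image.1 h2
        exact hp ⟨t, ht⟩)
      rw [h1, Int.cast_zero, zero_mul]
    have h1 : ∑ t, (y (q t) : ℚ) • (u.col ∘ q) t = 0 := by
      funext s
      rw [Finset.sum_apply]
      have h2 : ∑ t, ((y (q t) : ℚ) • (u.col ∘ q) t) s = ∑ t, (y (q t) : ℚ) * u s (q t) := rfl
      rw [h2, hsum (fun p => u s p)]
      cases s with
      | inl s =>
        have h3 := hy1 (j s) (mem_image_of_mem j (mem_univ s))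
        have h4 : ∑ p, (ρ (j s) p : ℚ) * (y p : ℚ) = 0 := by exact_mod_cast h3
        rw [Pi.zero_apply, ← h4]
        exact Finset.sum_congr rfl fun p _ => mul_comm _ _
      | inr g =>
        have h3 := hy2 g
        have h4 : ∑ p, (σ g p : ℚ) * (y p : ℚ) = 0 := by exact_mod_cast h3
        rw [Pi.zero_apply, ← h4]
        exact Finset.sum_congr rfl fun p _ => mul_comm _ _
    have h2 := Fintype.linearIndependent_iff.1 hli2 _ h1
    funext p
    by_cases hp : p ∈ univ.image q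
    · obtain ⟨t, -, rfl⟩ := mem_image.1 hp
      have h3 : (y (q t) : ℚ) = 0 := h2 t
      exact_mod_cast h3
    · exact hy0 p hp

theorem pig_V {Col ι1 ι2 κ' : Type*} [Fintype Col] [Fintype ι1] [Fintype ι2]
    (ρ : ι1 → Col → ℤ) (σ : ι2 → Col → ℤ)
    (hZ : ∀ (c1 : ι1 → ℚ) (c2 : ι2 → ℚ),
      (∀ p, ∑ i, c1 i * (ρ i p : ℚ) + ∑ g, c2 g * (σ g p : ℚ) = 0) → c2 = 0)
    (S : Finset κ') (a : Col → κ' → ℝ) (X Q0 : ℕ) {M0 ε : ℝ} (hM0 : 0 ≤ M0) (hε : 0 < ε)
    (ha0 : ∀ p, ∀ k ∈ S, 0 ≤ a p k) (ha : ∀ p, ∀ k ∈ S, a p k ≤ M0)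
    (hρ : ∀ i p, |ρ i p| ≤ (Q0 : ℤ)) (hQ : 1 ≤ Fintype.card Col * Q0)
    (hcount : ((2 * (Fintype.card Col : ℝ) * X * Q0 + 1)) ^ Fintype.card ι1 *
      ((Fintype.card Col : ℝ) * X * M0 / ε + 1) ^ S.card <
        ((X : ℝ) + 1) ^ (Fintype.card ι1 + Fintype.card ι2)) :
    ∃ y : Col → ℤ, (∀ p, |y p| ≤ (X : ℤ)) ∧ (∀ i, ∑ p, ρ i p * y p = 0) ∧
      (∃ g, ∑ p, σ g p * y p ≠ 0) ∧ ∀ k ∈ S, |∑ p, (y p : ℝ) * a p k| ≤ ε := by
  classical
  obtain ⟨E, P, hP, hE, hZ2⟩ := VPig_sel ρ σ hZ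
  set n : ℕ := Fintype.card Col with hn
  set N : ℕ := n * X * Q0 with hN
  set B : ℕ := ⌊(n : ℝ) * X * M0 / ε⌋₊ with hB
  set A : Finset (Col → ℤ) :=
    Fintype.piFinset (fun p => if p ∈ P then Finset.Icc (0 : ℤ) X else {0}) with hA
  have hAcard : A.card = (X + 1) ^ (E.card + Fintype.card ι2) := by
    rw [hA, Fintype.card_piFinset]
    have h1 : ∀ p ∈ (univ : Finset Col), (if p ∈ P then Finset.Icc (0 : ℤ) X else {0}).card =
        if p ∈ P then (X + 1) else 1 := by
      intro p _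
      by_cases hp : p ∈ P
      · rw [if_pos hp, if_pos hp, Int.card_Icc]
        omega
      · rw [if_neg hp, if_neg hp, card_singleton]
    rw [Finset.prod_congr rfl h1, Finset.prod_ite_mem, univ_inter, prod_const, hP]
  have hAmem : ∀ y ∈ A, ∀ p, 0 ≤ y p ∧ y p ≤ X ∧ (p ∉ P → y p = 0) := by
    intro y hy p
    have h1 := (Fintype.mem_piFinset.1 hy) p
    by_cases hp : p ∈ P
    · rw [if_pos hp, Finset.mem_Icc] at h1
      exact ⟨h1.1, h1.2, fun h => absurd hp h⟩
    · rw [if_neg hp, mem_singleton] at h1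
      rw [h1]
      exact ⟨le_rfl, by positivity, fun _ => rfl⟩
  set C : Finset ((E → ℤ) × (S → ℕ)) :=
    (Fintype.piFinset (fun _ : E => Finset.Icc (-(N : ℤ)) N)) ×ˢ
      (Fintype.piFinset (fun _ : S => Finset.range (B + 1))) with hC
  have hCcard : C.card = (2 * N + 1) ^ E.card * (B + 1) ^ S.card := by
    rw [hC, card_product, Fintype.card_piFinset, Fintype.card_piFinset, prod_const, prod_const,
      Int.card_Icc, card_range, card_univ, card_univ, Fintype.card_coe, Fintype.card_coe]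
    congr 2
    omega
  have hX0 : (0 : ℝ) ≤ (n : ℝ) * X * M0 / ε := by positivity
  have hcard : C.card < A.card := by
    rw [hCcard, hAcard]
    by_contra hcon
    push Not at hcon
    have hE1 : E.card ≤ Fintype.card ι1 := by
      rw [← card_univ]
      exact card_le_card (subset_univ E)
    have hle : X + 1 ≤ 2 * N + 1 := by
      have h1 : X * 1 ≤ X * (n * Q0) := Nat.mul_le_mul_left X hQ
      have h2 : X * (n * Q0) = N := by rw [hN]; ring
      omega
    have h2 : (X + 1) ^ (Fintype.card ι1 - E.card) ≤ (2 * N + 1) ^ (Fintype.card ι1 - E.card) :=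
      Nat.pow_le_pow_left hle _
    have h3 := Nat.mul_le_mul h2 hcon
    have h4 : (X + 1) ^ (Fintype.card ι1 - E.card) * (X + 1) ^ (E.card + Fintype.card ι2) =
        (X + 1) ^ (Fintype.card ι1 + Fintype.card ι2) := by
      rw [← pow_add]
      congr 1
      omega
    have h5 : (2 * N + 1) ^ (Fintype.card ι1 - E.card) *
        ((2 * N + 1) ^ E.card * (B + 1) ^ S.card) =
        (2 * N + 1) ^ Fintype.card ι1 * (B + 1) ^ S.card := by
      rw [← mul_assoc, ← pow_add]
      congr 2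
      omega
    rw [h4, h5] at h3
    have h6 : ((X : ℝ) + 1) ^ (Fintype.card ι1 + Fintype.card ι2) ≤
        (2 * (N : ℝ) + 1) ^ Fintype.card ι1 * ((B : ℝ) + 1) ^ S.card := by exact_mod_cast h3
    have h7 : (2 * (N : ℝ) + 1) = 2 * (n : ℝ) * X * Q0 + 1 := by
      rw [hN]
      push_cast
      ring
    have h8 : ((B : ℝ) + 1) ^ S.card ≤ ((n : ℝ) * X * M0 / ε + 1) ^ S.card := by
      refine pow_le_pow_left₀ (by positivity) ?_ _
      have := Nat.floor_le hX0
      linarith
    rw [h7] at h6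
    have h9 : (2 * (n : ℝ) * X * Q0 + 1) ^ Fintype.card ι1 * ((B : ℝ) + 1) ^ S.card ≤
        (2 * (n : ℝ) * X * Q0 + 1) ^ Fintype.card ι1 *
          ((n : ℝ) * X * M0 / ε + 1) ^ S.card :=
      mul_le_mul_of_nonneg_left h8 (by positivity)
    linarith
  let F : (Col → ℤ) → (E → ℤ) × (S → ℕ) := fun y =>
    (fun i => ∑ p, ρ i p * y p, fun k => ⌊(∑ p, (y p : ℝ) * a p k) / ε⌋₊)
  have hF : Set.MapsTo F (A : Set (Col → ℤ)) (C : Set ((E → ℤ) × (S → ℕ))) := by
    intro y hy
    have hy' := hAmem y hy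
    refine mem_coe.2 (mem_product.2 ⟨Fintype.mem_piFinset.2 fun i => ?_,
      Fintype.mem_piFinset.2 fun k => ?_⟩)
    · rw [Finset.mem_Icc, ← abs_le]
      have h1 : ∀ p ∈ (univ : Finset Col), |ρ i p * y p| ≤ (Q0 : ℤ) * X := by
        intro p _
        rw [abs_mul, abs_of_nonneg (hy' p).1]
        exact mul_le_mul (hρ i p) (hy' p).2.1 (hy' p).1 (by positivity)
      have h2 := (Finset.abs_sum_le_sum_abs (fun p => ρ i p * y p) univ).trans
        (Finset.sum_le_card_nsmul univ _ _ h1)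
      have h3 : (univ : Finset Col).card • ((Q0 : ℤ) * X) = (N : ℤ) := by
        rw [card_univ, ← hn, hN, nsmul_eq_mul]
        push_cast
        ring
      rw [h3] at h2
      exact h2
    · rw [mem_range]
      refine Nat.lt_succ_of_le (Nat.floor_le_floor ?_)
      refine div_le_div_of_nonneg_right ?_ hε.le
      have h1 : ∀ p ∈ (univ : Finset Col), (y p : ℝ) * a p k ≤ (X : ℝ) * M0 := by
        intro p _
        have e1 : (0 : ℝ) ≤ (y p : ℝ) := by exact_mod_cast (hy' p).1
        have e2 : (y p : ℝ) ≤ (X : ℝ) := by exact_mod_cast (hy' p).2.1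
        exact mul_le_mul e2 (ha p k k.2) (ha0 p k k.2) (by positivity)
      have h2 := Finset.sum_le_card_nsmul univ _ _ h1
      rw [card_univ, ← hn, nsmul_eq_mul] at h2
      linarith
  obtain ⟨y1, hy1, y2, hy2, hne, heq⟩ := exists_ne_map_eq_of_card_lt_of_maps_to hcard hF
  have hm1 := hAmem y1 hy1
  have hm2 := hAmem y2 hy2
  have heq1 : ∀ i ∈ E, ∑ p, ρ i p * y1 p = ∑ p, ρ i p * y2 p := by
    intro i hi
    exact congrFun (congrArg Prod.fst heq) ⟨i, hi⟩
  have heq2 : ∀ k ∈ S, ⌊(∑ p, (y1 p : ℝ) * a p k) / ε⌋₊ = ⌊(∑ p, (y2 p : ℝ) * a p k) / ε⌋₊ := by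
    intro k hk
    exact congrFun (congrArg Prod.snd heq) ⟨k, hk⟩
  have hρE : ∀ i ∈ E, ∑ p, ρ i p * (y1 p - y2 p) = 0 := by
    intro i hi
    simp only [mul_sub, Finset.sum_sub_distrib]
    rw [heq1 i hi, sub_self]
  refine ⟨fun p => y1 p - y2 p, ?_, hE _ hρE, ?_, ?_⟩
  · intro p
    rw [abs_le]
    have e1 := hm1 p
    have e2 := hm2 p
    constructor <;> linarith [e1.1, e1.2.1, e2.1, e2.2.1]
  · by_contra hcon
    push Not at hcon
    have h0 := hZ2 (fun p => y1 p - y2 p) (fun p hp => by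
      show y1 p - y2 p = 0
      rw [(hm1 p).2.2 hp, (hm2 p).2.2 hp, sub_self]) hρE hcon
    apply hne
    funext p
    exact sub_eq_zero.1 (congrFun h0 p)
  · intro k hk
    have e1 : ∀ y ∈ A, 0 ≤ (∑ p, (y p : ℝ) * a p k) / ε := by
      intro y hy
      refine div_nonneg (Finset.sum_nonneg fun p _ => ?_) hε.le
      have e3 : (0 : ℝ) ≤ (y p : ℝ) := by exact_mod_cast (hAmem y hy p).1
      exact mul_nonneg e3 (ha0 p k hk)
    have h1 := Nat.floor_le (e1 y1 hy1)
    have h2 := Nat.lt_floor_add_one ((∑ p, (y1 p : ℝ) * a p k) / ε)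
    have h3 := Nat.floor_le (e1 y2 hy2)
    have h4 := Nat.lt_floor_add_one ((∑ p, (y2 p : ℝ) * a p k) / ε)
    rw [heq2 k hk] at h1 h2
    have h5 : ∑ p, ((y1 p - y2 p : ℤ) : ℝ) * a p k =
        ((∑ p, (y1 p : ℝ) * a p k) / ε - (∑ p, (y2 p : ℝ) * a p k) / ε) * ε := by
      rw [sub_mul, div_mul_cancel₀ _ hε.ne', div_mul_cancel₀ _ hε.ne',
        ← Finset.sum_sub_distrib]
      refine Finset.sum_congr rfl fun p _ => ?_
      push_cast
      ring
    show |∑ p, ((y1 p - y2 p : ℤ) : ℝ) * a p k| ≤ ε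
    rw [h5, abs_mul, abs_of_pos hε]
    have h6 : |(∑ p, (y1 p : ℝ) * a p k) / ε - (∑ p, (y2 p : ℝ) * a p k) / ε| ≤ 1 := by
      rw [abs_le]
      constructor <;> linarith
    calc _ ≤ 1 * ε := mul_le_mul_of_nonneg_right h6 hε.le
      _ = ε := one_mul ε

end Pool.MZExp
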