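import Pool.Agent.Lib.MZExp.XSmall

/-! MP_301213_nt, EXPONENT 1/3, module `VSmall` (180 lines): `2V` real conditions on the coefficient vector
imply that the function is small everywhere.

COPY of `XSmall.small_e` (and its private lemma `xs_second`) without `pick_e`: there the numbers
`a p k = F p (k + 1)` for `k < v N`, `g p (k - v N)` for `v N ≤ k < 2 v N` (`v = Dl + 2 κ + 10`,
`F p t = ek (N + p.1) t * φ p.2 t`, `g p` the coefficients of the expansion) are given to `pick_e`; here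
they are the `a` of the statement (`0 ≤ a p k ≤ C v (N + 1)` is shown there), and the hypothesis on `y` is
the output of `pick_e` (`2 * (Dl + 2 * κ + 10) * N = v * N + v * N`). -/

open Finset Filter Topology

namespace Pool.MZExp

private theorem vs_second {n0 N1 Y C1 V1 V3 P q t2 E : ℝ} (h : n0 * C1 * N1 * Y * V1 *
    (4 * V3 * P / q) ≤ E) (ht : 0 < t2) {Q ek c : ℝ} (hQ : Q ≤ P) (hn : 0 ≤ n0) (hN : 0 ≤ N1)
    (hY : 0 ≤ Y) (hC : 0 ≤ C1) (hV1 : 0 ≤ V1) (hV3 : 0 ≤ V3) (hq : 0 < q)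
    (hek : ek * c ≤ 4 * V3 * Q / (q * t2)) :
    N1 * n0 * Y * (C1 * V1 * ek) * c ≤ E / t2 := by
  have h1 : N1 * n0 * Y * (C1 * V1 * ek) * c = (N1 * n0 * Y * (C1 * V1)) * (ek * c) := by ring
  have h2 : 0 ≤ N1 * n0 * Y * (C1 * V1) := by positivity
  have h3 : 4 * V3 * Q / (q * t2) ≤ 4 * V3 * P / (q * t2) := by
    refine div_le_div_of_nonneg_right ?_ (by positivity)
    exact mul_le_mul_of_nonneg_left hQ (by positivity)
  rw [h1]
  refine (mul_le_mul_of_nonneg_left (hek.trans h3) h2).trans ?_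
  have h4 : N1 * n0 * Y * (C1 * V1) * (4 * V3 * P / (q * t2)) =
      (n0 * C1 * N1 * Y * V1 * (4 * V3 * P / q)) / t2 := by
    field_simp
  rw [h4]
  exact div_le_div_of_nonneg_right h ht.le

theorem small_V {ι : Type*} [Fintype ι] (φ : ι → ℕ → ℝ) {C : ℝ} (hC : 1 ≤ C)
    (h0 : ∀ a t, 0 ≤ φ a t)
    (hφ : ∀ a k, Expd C k (fun t => ek k t * φ a t)) (Dl κ : ℕ) (hκ : 1 ≤ κ) (hD : Dl ≤ 2 ^ κ) :
    ∀ᶠ N : ℕ in atTop, ∃ a : Fin (N + 1) × ι → ℕ → ℝ,
      (∀ p k, k < 2 * (Dl + 2 * κ + 10) * N →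
        0 ≤ a p k ∧ a p k ≤ C * ((Dl + 2 * κ + 10 : ℕ) : ℝ) * ((N : ℝ) + 1)) ∧
      ∀ y : Fin (N + 1) × ι → ℤ, (∀ p, |(y p : ℝ)| ≤ Real.exp (κ * N)) →
        (∀ k, k < 2 * (Dl + 2 * κ + 10) * N →
          |∑ p, (y p : ℝ) * a p k| ≤ Real.exp (-(((Dl + κ + 10 : ℕ) : ℝ) * N))) →
        ∀ i, i ≤ N / 2 → ∀ t, 1 ≤ t →
          |(∑ p, (y p : ℝ) * (ek (N + p.1) t * φ p.2 t)) * ((t.choose i : ℕ) : ℝ)| ≤
            Real.exp (-((Dl : ℝ) * N)) / (t : ℝ) ^ 2 := by
  set v : ℕ := Dl + 2 * κ + 10 with hv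
  have hC0 : 0 ≤ C := by linarith
  have hv1 : (1 : ℝ) ≤ (v : ℝ) := by
    have : 1 ≤ v := by omega
    exact_mod_cast this
  have hCv : 1 ≤ C * (v : ℝ) := by nlinarith
  filter_upwards [evx_a Dl κ hκ hD, evx_b Dl κ,
    evx_c Dl κ hκ hD ((Fintype.card ι : ℝ) * C) (by positivity), eventually_ge_atTop 2]
    with N ha hb hc hN2
  have hN1 : 1 ≤ N := by omega
  have hNr : (0 : ℝ) ≤ (N : ℝ) := Nat.cast_nonneg _
  choose g hg0 hgk hgC hgV using fun p : Fin (N + 1) × ι => hφ p.2 (N + p.1)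
  set F : Fin (N + 1) × ι → ℕ → ℝ := fun p t => ek (N + p.1) t * φ p.2 t with hF
  have hFpos : ∀ p t, 1 ≤ t → 0 ≤ F p t := fun p t ht => mul_nonneg (ek_pos ht _).le (h0 _ _)
  have hFC : ∀ p t, 1 ≤ t → F p t ≤ C := by
    intro p t ht
    have h1 := hgV p t ht 0
    rw [Finset.range_zero, Finset.sum_empty, sub_zero] at h1
    refine (le_abs_self _).trans (h1.trans ?_)
    have h2 := ek_le_one ht 0
    have h3 := (ek_pos ht 0).le
    push_cast
    nlinarith
  refine ⟨fun p k => if k < v * N then F p (k + 1) else g p (k - v * N), fun p k hk => ⟨?_, ?_⟩,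
    fun y hyb hys i hi t ht => ?_⟩
  · beta_reduce
    split_ifs with h
    · exact hFpos p _ (by omega)
    · exact hg0 p _
  · beta_reduce
    split_ifs with h
    · refine (hFC p _ (by omega)).trans ?_
      have h1 : C * 1 ≤ C * (v : ℝ) := mul_le_mul_of_nonneg_left hv1 hC0
      nlinarith
    · refine (hgC p _).trans ?_
      have h1 : k - v * N + 1 ≤ v * N := by
        have h2 : 2 * v * N = v * N + v * N := by ring
        omega
      have h3 : ((k - v * N : ℕ) : ℝ) + 1 ≤ (v : ℝ) * N := by exact_mod_cast h1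
      have h4 : (((k - v * N : ℕ) : ℝ) + 1) * C ≤ (v : ℝ) * N * C :=
        mul_le_mul_of_nonneg_right h3 hC0
      nlinarith
  have hi1 : i + 1 ≤ N := by omega
  have hiN : i ≤ N := by omega
  have hNV : N ≤ v * N := Nat.le_mul_of_pos_left N (by omega)
  have htr : (0 : ℝ) < (t : ℝ) := by exact_mod_cast ht
  have ht2 : (0 : ℝ) < (t : ℝ) ^ 2 := by positivity
  have hch0 : (0 : ℝ) ≤ ((t.choose i : ℕ) : ℝ) := Nat.cast_nonneg _
  have hVN := choose_exp v hN1
  set ε : ℝ := Real.exp (-(((Dl + κ + 10 : ℕ) : ℝ) * N)) with hε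
  have hε0 : 0 ≤ ε := (Real.exp_pos _).le
  rw [abs_mul, abs_of_nonneg hch0]
  rcases Nat.lt_or_ge (v * N) t with htV | htV
  · have h1 : |∑ p, (y p : ℝ) * F p t| ≤
        ((v * N : ℕ) : ℝ) * ε * ek N t + (Fintype.card (Fin (N + 1) × ι) : ℕ) *
          Real.exp (κ * N) * (C * (((v * N : ℕ) : ℝ) + 1) * ek (v * N) t) := by
      refine comb_bound (fun p => (y p : ℝ)) F g hC0 hε0 hyb (N := N) (V := v * N)
        (fun p i hi => hgk p i (by omega)) (fun p t ht => hgV p t ht (v * N)) ?_ ht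
      intro s hs
      have h2 := hys (v * N + s) (by
        have h2 : 2 * v * N = v * N + v * N := by ring
        omega)
      have h3 : ¬ (v * N + s < v * N) := by omega
      have h4 : v * N + s - v * N = s := by omega
      simp only [h3, if_false, h4] at h2
      exact h2
    refine (mul_le_mul_of_nonneg_right h1 hch0).trans ?_
    rw [add_mul]
    have h5 : ((v * N : ℕ) : ℝ) * ε * ek N t * ((t.choose i : ℕ) : ℝ) ≤
        Real.exp (-((Dl : ℝ) * N)) / 2 / (t : ℝ) ^ 2 := by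
      have h6 := ek_choose_small (N := N) (i := i) hi1 ht
      have h7 : ((v * N : ℕ) : ℝ) * ε * ek N t * ((t.choose i : ℕ) : ℝ) =
          (((v * N : ℕ) : ℝ) * ε) * (ek N t * ((t.choose i : ℕ) : ℝ)) := by ring
      rw [h7]
      refine (mul_le_mul_of_nonneg_left h6 (by positivity)).trans ?_
      have h8 : ((v * N : ℕ) : ℝ) * ε * ((N : ℝ) / (t : ℝ) ^ 2) =
          ((v : ℝ) * N) * ε * N / (t : ℝ) ^ 2 := by
        push_cast
        ring
      rw [h8]
      exact div_le_div_of_nonneg_right hb ht2.le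
    have h9 : ((Fintype.card (Fin (N + 1) × ι) : ℕ) : ℝ) *
          Real.exp (κ * N) * (C * (((v * N : ℕ) : ℝ) + 1) * ek (v * N) t) *
          ((t.choose i : ℕ) : ℝ) ≤ Real.exp (-((Dl : ℝ) * N)) / 2 / (t : ℝ) ^ 2 := by
      rw [Fintype.card_prod, Fintype.card_fin]
      push_cast
      have h10 := ek_choose_big (V := v * N) (N := N) (i := i) (by omega) hiN htV.le
      push_cast at h10
      refine vs_second hc ht2 hVN (by positivity) (by positivity) (Real.exp_pos _).le hC0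
        (by positivity) (by positivity) (by positivity) h10
    refine (add_le_add h5 h9).trans (le_of_eq ?_)
    ring
  · have h1 := hys (t - 1) (by
      have h2 : 2 * v * N = v * N + v * N := by ring
      omega)
    have h3 : t - 1 < v * N := by omega
    have h4 : t - 1 + 1 = t := by omega
    simp only [h3, if_true, h4] at h1
    have h5 := choose_small (V := v * N) (N := N) (i := i) (t := t) htV hiN
    refine (mul_le_mul h1 (h5.trans hVN) hch0 hε0).trans ?_
    rw [le_div_iff₀ ht2]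
    refine le_trans ?_ ha
    refine mul_le_mul_of_nonneg_left ?_ (by positivity)
    refine pow_le_pow_left₀ htr.le ?_ 2
    exact_mod_cast htV

end Pool.MZExp
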