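import Pool.Agent.Lib.MZExp.VDefs

/-! MP_301213_nt, EXPONENT 1/3, module `VDual` (130 lines): from linear relations to polynomials.

PROOFS. `newton_V`: `Δ^m G(0) = ∑_(j ≤ m) (-1)^(m-j) C(m,j) G(j)` (`fwdDiff_iter_eq_sum_shift`, see `ZFwd.sum_w`
for its use), so by `h` `Δ^m G (0) = 0` for `N ≤ m ≤ 2N` (`(-1)^(m-j) = (-1)^m (-1)^j`). Newton's formula
(`shift_eq_sum_fwdDiff_iter` with `h = 1`, `y = 0`): `G(j) = ∑_(m ≤ j) C(j,m) Δ^m G(0)`, for `j ≤ 2N` this is
`∑_(m < N) C(j,m) Δ^m G(0)` (`C(j,m) = 0` for `m > j`). `Q = ∑_(m < N) C (Δ^m G (0) / m!) *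
descPochhammer ℚ m` (`descPochhammer_eval_eq_descFactorial`, `Nat.descFactorial_eq_factorial_mul_choose`,
`descPochhammer_natDegree`), degree `≤ N - 1`.
`bneg_poly`: `P = ∑_(i ≤ M) C (x i * ((-1)^i / i!)) * ascPochhammer ℚ i` (see the private `tp_eval`,
`tp_natDegree`, `tp_lc` of `ZFwd`: `(ascPochhammer ℚ i).eval j = i! C(j+i-1, i)`, `bneg j i = (-1)^i C(j+i-1,i)`).
If `P = 0` then all `x i = 0`: otherwise take the largest `i ≤ M` with `x i ≠ 0`; the coefficient of `X^i` of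
`P` is `x i * (-1)^i / i! ≠ 0` (`monic_ascPochhammer`). -/

open Polynomial Finset

namespace Pool.MZExp

private lemma vdual_desc (m j : ℕ) :
    (descPochhammer ℚ m).eval (j : ℚ) = (m.factorial : ℚ) * ((j.choose m : ℕ) : ℚ) := by
  rw [descPochhammer_eval_eq_descFactorial, Nat.descFactorial_eq_factorial_mul_choose]
  push_cast
  ring

private lemma vdual_diff (G : ℕ → ℚ) (m : ℕ) :
    ((fwdDiff (1 : ℕ))^[m] G) 0 =
      (-1) ^ m * ∑ j ∈ range (m + 1), (-1) ^ j * (m.choose j : ℚ) * G j := by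
  rw [fwdDiff_iter_eq_sum_shift, Finset.mul_sum]
  refine Finset.sum_congr rfl fun j hj => ?_
  have hj' : j ≤ m := by have := Finset.mem_range.1 hj; omega
  have hs : (-1 : ℚ) ^ (m - j) = (-1 : ℚ) ^ m * (-1 : ℚ) ^ j := by
    obtain ⟨d, rfl⟩ := Nat.exists_eq_add_of_le hj'
    rw [Nat.add_sub_cancel_left, pow_add]
    have h1 : (-1 : ℚ) ^ j * (-1 : ℚ) ^ j = 1 := by
      rw [← mul_pow]; simp
    calc (-1 : ℚ) ^ d = ((-1 : ℚ) ^ j * (-1 : ℚ) ^ j) * (-1 : ℚ) ^ d := by rw [h1, one_mul]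
      _ = _ := by ring
  simp only [zsmul_eq_mul, smul_eq_mul, mul_one, zero_add, Int.cast_mul, Int.cast_pow,
    Int.cast_neg, Int.cast_one, Int.cast_natCast]
  rw [hs]
  ring

theorem newton_V (N : ℕ) (hN : 1 ≤ N) (G : ℕ → ℚ)
    (h : ∀ k ≤ N, ∑ j ∈ range (N + k + 1), (-1) ^ j * ((N + k).choose j : ℚ) * G j = 0) :
    ∃ Q : ℚ[X], Q.natDegree ≤ N - 1 ∧ ∀ j ≤ 2 * N, G j = Q.eval (j : ℚ) := by
  set D : ℕ → ℚ := fun m => ((fwdDiff (1 : ℕ))^[m] G) 0 with hD
  have hD0 : ∀ m, N ≤ m → m ≤ 2 * N → D m = 0 := by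
    intro m h1 h2
    obtain ⟨k, rfl⟩ := Nat.exists_eq_add_of_le h1
    rw [hD]
    simp only
    rw [vdual_diff, h k (by omega), mul_zero]
  refine ⟨∑ m ∈ range N, C (D m / (m.factorial : ℚ)) * descPochhammer ℚ m, ?_, ?_⟩
  · refine natDegree_sum_le_of_forall_le _ _ fun m hm => ?_
    refine (natDegree_C_mul_le _ _).trans ?_
    rw [descPochhammer_natDegree]
    have := Finset.mem_range.1 hm
    omega
  · intro j hj
    have h1 : G j = ∑ k ∈ range (j + 1), ((j.choose k : ℕ) : ℚ) * D k := by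
      have h2 := shift_eq_sum_fwdDiff_iter (1 : ℕ) G j 0
      simp only [smul_eq_mul, mul_one, zero_add, nsmul_eq_mul] at h2
      exact h2
    have h3 : ∑ k ∈ range (j + 1), ((j.choose k : ℕ) : ℚ) * D k =
        ∑ k ∈ range (2 * N + 1), ((j.choose k : ℕ) : ℚ) * D k := by
      refine Finset.sum_subset (Finset.range_subset_range.2 (by omega)) fun k _ hk => ?_
      rw [Finset.mem_range, not_lt] at hk
      rw [Nat.choose_eq_zero_of_lt (by omega), Nat.cast_zero, zero_mul]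
    have h4 : ∑ k ∈ range N, ((j.choose k : ℕ) : ℚ) * D k =
        ∑ k ∈ range (2 * N + 1), ((j.choose k : ℕ) : ℚ) * D k := by
      refine Finset.sum_subset (Finset.range_subset_range.2 (by omega)) fun k hk hk' => ?_
      rw [Finset.mem_range] at hk
      rw [Finset.mem_range, not_lt] at hk'
      rw [hD0 k hk' (by omega), mul_zero]
    rw [h1, h3, ← h4, eval_finsetSum]
    refine Finset.sum_congr rfl fun k _ => ?_
    have hf : (k.factorial : ℚ) ≠ 0 := by exact_mod_cast k.factorial_ne_zero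
    rw [eval_mul, eval_C, vdual_desc]
    field_simp

private lemma vdual_asc (i u : ℕ) :
    (-1 : ℚ) ^ i / (i.factorial : ℚ) * (ascPochhammer ℚ i).eval (u : ℚ) = (bneg u i : ℚ) := by
  have hf : (i.factorial : ℚ) ≠ 0 := by exact_mod_cast i.factorial_ne_zero
  have h1 : (ascPochhammer ℚ i).eval (u : ℚ) = ((u.ascFactorial i : ℕ) : ℚ) := by
    rw [ascPochhammer_nat_eq_natCast_ascFactorial]
  have h2 : u.ascFactorial i = i.factorial * (u + i - 1).choose i := by
    rw [Nat.ascFactorial_eq_factorial_mul_choose']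
  rw [h1, h2, bneg]
  push_cast
  field_simp

private lemma vdual_zero (x : ℕ → ℚ) : ∀ M : ℕ,
    (∑ i ∈ range (M + 1), C (x i * ((-1 : ℚ) ^ i / (i.factorial : ℚ))) * ascPochhammer ℚ i) = 0 →
      ∀ i ≤ M, x i = 0 := by
  intro M
  induction M with
  | zero =>
    intro h i hi
    have hi0 : i = 0 := by omega
    subst hi0
    rw [Finset.sum_range_one] at h
    simpa using h
  | succ M ih =>
    intro h i hi
    have hf : (((M + 1).factorial : ℕ) : ℚ) ≠ 0 := by exact_mod_cast (M + 1).factorial_ne_zero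
    have hc : (-1 : ℚ) ^ (M + 1) / (((M + 1).factorial : ℕ) : ℚ) ≠ 0 := div_ne_zero (by simp) hf
    have h0 : x (M + 1) = 0 := by
      have h1 := congrArg (fun q : ℚ[X] => q.coeff (M + 1)) h
      simp only [coeff_zero] at h1
      rw [Finset.sum_range_succ, coeff_add, finsetSum_coeff] at h1
      have h2 : ∑ j ∈ range (M + 1), (C (x j * ((-1 : ℚ) ^ j / (j.factorial : ℚ))) *
          ascPochhammer ℚ j).coeff (M + 1) = 0 := by
        refine Finset.sum_eq_zero fun j hj => ?_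
        have hj' := Finset.mem_range.1 hj
        refine coeff_eq_zero_of_natDegree_lt (lt_of_le_of_lt (natDegree_C_mul_le _ _) ?_)
        rw [ascPochhammer_natDegree]
        exact hj'
      have h3 : (ascPochhammer ℚ (M + 1)).coeff (M + 1) = 1 := by
        have h4 := monic_ascPochhammer ℚ (M + 1)
        rw [Monic, leadingCoeff, ascPochhammer_natDegree] at h4
        exact h4
      rw [h2, zero_add, coeff_C_mul, h3, mul_one] at h1
      rcases mul_eq_zero.1 h1 with h5 | h5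
      · exact h5
      · exact absurd h5 hc
    rcases Nat.lt_or_ge i (M + 1) with h1 | h1
    · refine ih ?_ i (by omega)
      rw [Finset.sum_range_succ, h0] at h
      simpa using h
    · have h2 : i = M + 1 := by omega
      rw [h2]
      exact h0

theorem bneg_poly (M : ℕ) (x : ℕ → ℚ) :
    ∃ P : ℚ[X], P.natDegree ≤ M ∧
      (∀ j : ℕ, P.eval (j : ℚ) = ∑ i ∈ range (M + 1), x i * (bneg j i : ℚ)) ∧
      (P = 0 → ∀ i ≤ M, x i = 0) := by
  refine ⟨∑ i ∈ range (M + 1), C (x i * ((-1 : ℚ) ^ i / (i.factorial : ℚ))) *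
    ascPochhammer ℚ i, ?_, ?_, vdual_zero x M⟩
  · refine natDegree_sum_le_of_forall_le _ _ fun m hm => ?_
    refine (natDegree_C_mul_le _ _).trans ?_
    rw [ascPochhammer_natDegree]
    have := Finset.mem_range.1 hm
    omega
  · intro j
    rw [eval_finsetSum]
    refine Finset.sum_congr rfl fun i _ => ?_
    rw [eval_mul, eval_C, mul_assoc, vdual_asc]

end Pool.MZExp
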