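import Pool.Agent.Lib.MZExp.XDefs

/-! MP_301213_nt, exponential growth, PHASE 2 (helper65): the functions `ek k t` (`t ≥ 1`).
`ef s M = ek s (M + 1)`. -/

open Finset Filter Topology

namespace Pool.MZExp

/-- `e_s(t) = s! / (t (t+1) ⋯ (t+s))`, `t = M + 1` -/
noncomputable def ef (s M : ℕ) : ℝ := (s.factorial : ℝ) / ∏ j ∈ range (s + 1), ((M : ℝ) + 1 + j)

theorem ef_pos (s M : ℕ) : 0 < ef s M := by
  unfold ef
  have h1 : (0 : ℝ) < s.factorial := by exact_mod_cast Nat.factorial_pos s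
  have h2 : 0 < ∏ j ∈ range (s + 1), ((M : ℝ) + 1 + j) := Finset.prod_pos fun j _ => by positivity
  positivity

theorem ef_zero (M : ℕ) : ef 0 M = ((M : ℝ) + 1)⁻¹ := by
  simp [ef]

/-- `(t + s + 1) e_{s+1}(t) = (s + 1) e_s(t)` -/
theorem ef_succ (s M : ℕ) : ((M : ℝ) + 1 + ((s : ℝ) + 1)) * ef (s + 1) M = ((s : ℝ) + 1) * ef s M := by
  unfold ef
  rw [Finset.prod_range_succ _ (s + 1), Nat.factorial_succ]
  have h2 : (∏ j ∈ range (s + 1), ((M : ℝ) + 1 + j)) ≠ 0 :=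
    (Finset.prod_pos fun j _ => by positivity).ne'
  have h3 : ((M : ℝ) + 1 + ((s + 1 : ℕ) : ℝ)) ≠ 0 := by positivity
  push_cast at h3 ⊢
  field_simp

theorem ef_at_zero (s : ℕ) : ef s 0 = ((s : ℝ) + 1)⁻¹ := by
  induction s with
  | zero => simp [ef]
  | succ s ih =>
    have h := ef_succ s 0
    rw [ih, mul_inv_cancel₀ (by positivity)] at h
    have h2 := eq_inv_of_mul_eq_one_right h
    rw [h2]
    push_cast
    congr 1
    ring

/-- `(t + s) / t = e_s(t-1) ...`: `t e_s(t) = (t + s) e_s(t) - s e_s(t)`; here the relation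
`(t + s + 1) e_s(t + 1) = t e_s(t)` -/
theorem ef_shift_rel (s M : ℕ) : ((M : ℝ) + 1 + ((s : ℝ) + 1)) * ef s (M + 1) = ((M : ℝ) + 1) * ef s M := by
  unfold ef
  rw [Finset.prod_range_succ (fun j => ((((M + 1 : ℕ) : ℝ)) + 1 + (j : ℝ))) s,
    Finset.prod_range_succ' (fun j => ((M : ℝ) + 1 + (j : ℝ))) s]
  have h0 : ∀ j ∈ range s, (((M + 1 : ℕ) : ℝ)) + 1 + (j : ℝ) = (M : ℝ) + 1 + ((j + 1 : ℕ) : ℝ) := by
    intro j _
    push_cast
    ring
  rw [Finset.prod_congr rfl h0]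
  have h2 : (∏ j ∈ range s, ((M : ℝ) + 1 + ((j + 1 : ℕ) : ℝ))) ≠ 0 :=
    (Finset.prod_pos fun j _ => by positivity).ne'
  have h3 : ((M : ℝ) + 1 + ((s : ℝ) + 1)) ≠ 0 := by positivity
  have h4 : ((M : ℝ) + 1) ≠ 0 := by positivity
  have h5 : (((M + 1 : ℕ) : ℝ)) + 1 + (s : ℝ) = (M : ℝ) + 1 + ((s : ℝ) + 1) := by
    push_cast
    ring
  rw [h5]
  have h6 : (M : ℝ) + 1 + ((0 : ℕ) : ℝ) = (M : ℝ) + 1 := by push_cast; ring
  rw [h6]
  field_simp

/-- `e_s(t) - e_s(t+1) = e_{s+1}(t)` -/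
theorem ef_sub (s M : ℕ) : ef s M - ef s (M + 1) = ef (s + 1) M := by
  have h1 := ef_succ s M
  have h2 := ef_shift_rel s M
  have h3 : ((M : ℝ) + 1 + ((s : ℝ) + 1)) ≠ 0 := by positivity
  have h4 : ((M : ℝ) + 1 + ((s : ℝ) + 1)) * (ef s M - ef s (M + 1)) =
      ((M : ℝ) + 1 + ((s : ℝ) + 1)) * ef (s + 1) M := by
    rw [mul_sub, h1, h2]
    ring
  exact mul_left_cancel₀ h3 h4

/-- `e_s(t+1) / t = e_{s+1}(t) / (s+1)` -/
theorem ef_shift (s M : ℕ) : ((M : ℝ) + 1)⁻¹ * ef s (M + 1) = ((s : ℝ) + 1)⁻¹ * ef (s + 1) M := by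
  have h1 := ef_succ s M
  have h2 := ef_shift_rel s M
  have h3 : ((M : ℝ) + 1 + ((s : ℝ) + 1)) ≠ 0 := by positivity
  have h4 : ((M : ℝ) + 1) ≠ 0 := by positivity
  have h5 : ((s : ℝ) + 1) ≠ 0 := by positivity
  rw [inv_mul_eq_div, inv_mul_eq_div, div_eq_div_iff h4 h5]
  apply mul_left_cancel₀ h3
  calc ((M : ℝ) + 1 + ((s : ℝ) + 1)) * (ef s (M + 1) * ((s : ℝ) + 1))
      = (((M : ℝ) + 1 + ((s : ℝ) + 1)) * ef s (M + 1)) * ((s : ℝ) + 1) := by ring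
    _ = (((M : ℝ) + 1 + ((s : ℝ) + 1)) * ef (s + 1) M) * ((M : ℝ) + 1) := by rw [h2, h1]; ring
    _ = _ := by ring

theorem ef_anti (s : ℕ) : Antitone (ef s) :=
  antitone_nat_of_succ_le fun M => by
    have h := ef_sub s M
    have h2 := ef_pos (s + 1) M
    linarith

theorem ef_le_zero (s M : ℕ) : ef s M ≤ ((s : ℝ) + 1)⁻¹ := by
  rw [← ef_at_zero]
  exact ef_anti s (Nat.zero_le M)

theorem ef_le_inv (s M : ℕ) : ef s M ≤ ((M : ℝ) + 1)⁻¹ := by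
  induction s with
  | zero => rw [ef_zero]
  | succ s ih =>
    have h := ef_succ s M
    have h1 := ef_pos (s + 1) M
    have h2 := ef_pos s M
    have h3 : (0 : ℝ) ≤ M := Nat.cast_nonneg _
    have h4 : (0 : ℝ) ≤ s := Nat.cast_nonneg _
    refine le_trans ?_ ih
    have h5 : ((s : ℝ) + 1) * ef (s + 1) M ≤ ((s : ℝ) + 1) * ef s M := by
      rw [← h]
      exact mul_le_mul_of_nonneg_right (by linarith) h1.le
    exact le_of_mul_le_mul_left h5 (by positivity)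

/-- `(s+1) e_s(t)` decreases with `s` -/
theorem ef_mono_aux (s M : ℕ) : ((s : ℝ) + 1 + 1) * ef (s + 1) M ≤ ((s : ℝ) + 1) * ef s M := by
  rw [← ef_succ s M]
  have h3 : (0 : ℝ) ≤ M := Nat.cast_nonneg _
  exact mul_le_mul_of_nonneg_right (by linarith) (ef_pos _ _).le

theorem ef_mono {V i : ℕ} (h : V ≤ i) (M : ℕ) :
    ((i : ℝ) + 1) * ef i M ≤ ((V : ℝ) + 1) * ef V M := by
  induction i, h using Nat.le_induction with
  | base => exact le_rfl
  | succ i _ ih =>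
    refine le_trans ?_ ih
    have := ef_mono_aux i M
    push_cast
    exact this

theorem ef_tendsto (s : ℕ) : Tendsto (ef s) atTop (𝓝 0) := by
  refine squeeze_zero (fun M => (ef_pos s M).le) (fun M => ef_le_inv s M) ?_
  have := tendsto_one_div_add_atTop_nhds_zero_nat (𝕜 := ℝ)
  simpa [one_div] using this

theorem ef_tendsto' (M : ℕ) : Tendsto (fun s => ef s M) atTop (𝓝 0) := by
  refine squeeze_zero (fun s => (ef_pos s M).le) (fun s => ef_le_zero s M) ?_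
  have := tendsto_one_div_add_atTop_nhds_zero_nat (𝕜 := ℝ)
  simpa [one_div] using this

/-- tail sums -/
theorem ef_hasSum (s M : ℕ) : HasSum (fun n => ef (s + 1) (M + n)) (ef s M) := by
  rw [hasSum_iff_tendsto_nat_of_nonneg (fun n => (ef_pos _ _).le)]
  have h1 : ∀ n, ∑ i ∈ range n, ef (s + 1) (M + i) = ef s M - ef s (M + n) := by
    intro n
    induction n with
    | zero => simp
    | succ n ih =>
      rw [Finset.sum_range_succ, ih, ← ef_sub s (M + n)]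
      ring_nf
  simp_rw [h1]
  have h2 : Tendsto (fun n => ef s (M + n)) atTop (𝓝 0) := by
    have := (ef_tendsto s).comp (tendsto_add_atTop_nat M)
    refine this.congr fun n => ?_
    simp [Function.comp, add_comm]
  simpa using tendsto_const_nhds.sub h2


/-! ### the same for `ek` -/

theorem ef_eq (s M : ℕ) : ef s M = ek s (M + 1) := by
  unfold ef ek
  congr 1
  refine Finset.prod_congr rfl fun j _ => ?_
  push_cast
  rfl

theorem xc_ek_eq {t : ℕ} (ht : 1 ≤ t) (s : ℕ) : ek s t = ef s (t - 1) := by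
  rw [ef_eq, Nat.sub_add_cancel ht]

theorem xc_ek_pos {t : ℕ} (ht : 1 ≤ t) (s : ℕ) : 0 < ek s t := by
  rw [xc_ek_eq ht]
  exact ef_pos _ _

theorem xc_ek_nonneg (s t : ℕ) : 0 ≤ ek s t := by
  unfold ek
  positivity

theorem xc_ek_one (s : ℕ) : ek s 1 = 1 / ((s : ℝ) + 1) := by
  rw [one_div, ← ef_at_zero, ef_eq]

theorem xc_ek_zero (t : ℕ) : ek 0 t = ((t : ℝ))⁻¹ := by
  simp [ek]

private theorem cast_pred {t : ℕ} (ht : 1 ≤ t) : (((t - 1 : ℕ) : ℝ)) + 1 = t := by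
  rw [Nat.cast_sub ht]
  push_cast
  ring

/-- `(t + s + 1) e_{s+1}(t) = (s + 1) e_s(t)` -/
theorem xc_ek_succ {t : ℕ} (ht : 1 ≤ t) (s : ℕ) :
    ((t : ℝ) + ((s : ℝ) + 1)) * ek (s + 1) t = ((s : ℝ) + 1) * ek s t := by
  have h := ef_succ s (t - 1)
  rwa [cast_pred ht, ← xc_ek_eq ht, ← xc_ek_eq ht] at h

/-- `e_s(t) - e_s(t + 1) = e_{s+1}(t)` -/
theorem xc_ek_sub {t : ℕ} (ht : 1 ≤ t) (s : ℕ) : ek s t - ek s (t + 1) = ek (s + 1) t := by
  have h := ef_sub s (t - 1)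
  rw [ef_eq, ef_eq, ef_eq, Nat.sub_add_cancel ht] at h
  exact h

/-- `(t + s + 1) e_s(t + 1) = t e_s(t)` -/
theorem xc_ek_shift_rel {t : ℕ} (ht : 1 ≤ t) (s : ℕ) :
    ((t : ℝ) + ((s : ℝ) + 1)) * ek s (t + 1) = (t : ℝ) * ek s t := by
  have h := ef_shift_rel s (t - 1)
  rwa [cast_pred ht, ef_eq, ef_eq, Nat.sub_add_cancel ht] at h

/-- `e_s(t + 1) / t = e_{s+1}(t) / (s + 1)` -/
theorem xc_ek_shift {t : ℕ} (ht : 1 ≤ t) (s : ℕ) :
    ((t : ℝ))⁻¹ * ek s (t + 1) = ((s : ℝ) + 1)⁻¹ * ek (s + 1) t := by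
  have h := ef_shift s (t - 1)
  rwa [cast_pred ht, ef_eq, ef_eq, Nat.sub_add_cancel ht] at h

/-- decreasing in `t` -/
theorem xc_ek_anti {t t' : ℕ} (ht : 1 ≤ t) (h : t ≤ t') (s : ℕ) : ek s t' ≤ ek s t := by
  rw [xc_ek_eq ht, xc_ek_eq (ht.trans h)]
  exact ef_anti s (by omega)

/-- decreasing in `s` -/
theorem xc_ek_anti_left {t : ℕ} (ht : 1 ≤ t) {s s' : ℕ} (h : s ≤ s') : ek s' t ≤ ek s t := by
  induction s', h using Nat.le_induction with
  | base => exact le_rfl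
  | succ r _ ih =>
    refine le_trans ?_ ih
    have h1 := xc_ek_succ ht r
    have h2 := xc_ek_pos ht (r + 1)
    have h3 : (0 : ℝ) ≤ t := Nat.cast_nonneg _
    have h4 : ((r : ℝ) + 1) * ek (r + 1) t ≤ ((r : ℝ) + 1) * ek r t := by
      rw [← h1]
      exact mul_le_mul_of_nonneg_right (by linarith) h2.le
    exact le_of_mul_le_mul_left h4 (by positivity)

/-- `(s + 1) e_s(t)` is decreasing in `s` -/
theorem xc_ek_ratio {t : ℕ} (ht : 1 ≤ t) (s : ℕ) :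
    ((s : ℝ) + 2) * ek (s + 1) t ≤ ((s : ℝ) + 1) * ek s t := by
  rw [← xc_ek_succ ht s]
  have h3 : (1 : ℝ) ≤ t := by exact_mod_cast ht
  exact mul_le_mul_of_nonneg_right (by linarith) (xc_ek_pos ht _).le

theorem xc_ek_mono {t : ℕ} (ht : 1 ≤ t) {V i : ℕ} (h : V ≤ i) :
    ((i : ℝ) + 1) * ek i t ≤ ((V : ℝ) + 1) * ek V t := by
  rw [xc_ek_eq ht, xc_ek_eq ht]
  exact ef_mono h _

theorem xc_ek_le_inv {t : ℕ} (ht : 1 ≤ t) (s : ℕ) : ek s t ≤ ((t : ℝ))⁻¹ := by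
  have h := ef_le_inv s (t - 1)
  rwa [cast_pred ht, ← xc_ek_eq ht] at h

theorem xc_ek_le {t : ℕ} (ht : 1 ≤ t) (s : ℕ) : ek s t ≤ ((s : ℝ) + 1)⁻¹ := by
  rw [xc_ek_eq ht]
  exact ef_le_zero _ _

/-- `t C(t + k, k) e_k(t) = 1` -/
theorem xc_ek_choose {t : ℕ} (ht : 1 ≤ t) (k : ℕ) : (t : ℝ) * ((t + k).choose k : ℝ) * ek k t = 1 := by
  have h0 : (0 : ℝ) < t := by exact_mod_cast ht
  induction k with
  | zero => rw [xc_ek_zero]; simp; field_simp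
  | succ k ih =>
    have h1 := xc_ek_succ ht k
    have h2 : (((t + (k + 1)).choose (k + 1) : ℕ) : ℝ) * ((k : ℝ) + 1) =
        ((t + k).choose k : ℝ) * ((t : ℝ) + ((k : ℝ) + 1)) := by
      have h3 := Nat.add_one_mul_choose_eq (t + k) k
      have h4 : ((t + k + 1 : ℕ) : ℝ) * ((t + k).choose k : ℝ) =
          (((t + k + 1).choose (k + 1) : ℕ) : ℝ) * ((k + 1 : ℕ) : ℝ) := by exact_mod_cast h3
      rw [← add_assoc]
      push_cast at h4
      linarith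
    have h5 : ((k : ℝ) + 1) ≠ 0 := by positivity
    apply mul_left_cancel₀ h5
    calc ((k : ℝ) + 1) * ((t : ℝ) * (((t + (k + 1)).choose (k + 1) : ℕ) : ℝ) * ek (k + 1) t)
        = (t : ℝ) * ((((t + (k + 1)).choose (k + 1) : ℕ) : ℝ) * ((k : ℝ) + 1)) * ek (k + 1) t := by
          ring
      _ = (t : ℝ) * ((t + k).choose k : ℝ) * (((t : ℝ) + ((k : ℝ) + 1)) * ek (k + 1) t) := by
          rw [h2]; ring
      _ = ((k : ℝ) + 1) * ((t : ℝ) * ((t + k).choose k : ℝ) * ek k t) := by rw [h1]; ring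
      _ = ((k : ℝ) + 1) * 1 := by rw [ih]

end Pool.MZExp
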