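import Pool.Agent.Lib.MP_301213_nt.Tail
import Pool.Agent.Lib.MZExp.XEk

/-! MP_301213_nt, exponential growth, PHASE 2 (helper65): tails `HofPers.T l t` for all admissible words
(`Adm1`: letters `≥ 1`, the last letter `≥ 2`; the head belongs to the smallest variable). -/

open Finset Filter Topology
open scoped ENNReal

namespace Pool.MZExp

open HofPers

theorem adm1_nil : Adm1 [] := ⟨by simp, by simp⟩

theorem adm1_single {a : ℕ} : Adm1 [a] ↔ 2 ≤ a := by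
  constructor
  · intro h
    exact h.2 a (by simp)
  · intro h
    refine ⟨fun b hb => ?_, fun b hb => ?_⟩
    · rw [List.mem_singleton.1 hb]
      omega
    · simp at hb
      omega

theorem adm1_cons_cons {a b : ℕ} {l : List ℕ} : Adm1 (a :: b :: l) ↔ 1 ≤ a ∧ Adm1 (b :: l) := by
  unfold Adm1
  rw [List.getLast?_cons_cons]
  constructor
  · rintro ⟨h1, h2⟩
    exact ⟨h1 a (by simp), fun c hc => h1 c (List.mem_cons_of_mem _ hc), h2⟩
  · rintro ⟨h0, h1, h2⟩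
    refine ⟨fun c hc => ?_, h2⟩
    rcases List.mem_cons.1 hc with rfl | hc
    · exact h0
    · exact h1 c hc

theorem Adm1.tail {a : ℕ} {l : List ℕ} (h : Adm1 (a :: l)) : Adm1 l := by
  cases l with
  | nil => exact adm1_nil
  | cons b l => exact (adm1_cons_cons.1 h).2

theorem Adm1.head {a : ℕ} {l : List ℕ} (h : Adm1 (a :: l)) : 1 ≤ a := h.1 a (by simp)

theorem adm_adm1 {l : List ℕ} (h : HofPers.Adm l) : Adm1 l :=
  ⟨fun a ha => le_trans (by norm_num) (h a ha), fun a ha => h a (List.mem_of_getLast? ha)⟩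

theorem TE_cons_tail (a : ℕ) (l : List ℕ) (M : ℕ) :
    TE (a :: l) M = ∑' n, ((((M + n + 1 : ℕ) : ℝ≥0∞)) ^ a)⁻¹ * TE l (M + n + 1) := by
  rw [TE, ← Summable.sum_add_tsum_nat_add' (k := M + 1) (f := fun m => kk a M m * TE l m)
    ENNReal.summable]
  have h1 : ∑ i ∈ range (M + 1), kk a M i * TE l i = 0 := by
    refine Finset.sum_eq_zero fun i hi => ?_
    have := Finset.mem_range.1 hi
    rw [kk, if_neg (by omega), zero_mul]
  rw [h1, zero_add]
  refine tsum_congr fun n => ?_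
  have h2 : n + (M + 1) = M + n + 1 := by ring
  rw [h2, kk, if_pos (by omega)]

private theorem ofReal_ef_one (m : ℕ) : ENNReal.ofReal (ef 1 m) =
    ((((m + 1 : ℕ) : ℝ≥0∞)) * (((m + 2 : ℕ) : ℝ≥0∞)))⁻¹ := by
  have h : ef 1 m = (((m + 1 : ℕ) : ℝ) * ((m + 2 : ℕ) : ℝ))⁻¹ := by
    rw [ef]
    simp only [Finset.prod_range_succ, Finset.prod_range_zero, Nat.factorial_one]
    rw [one_mul, Nat.cast_one, one_div]
    congr 1
    push_cast
    ring
  rw [h, ENNReal.ofReal_inv_of_pos (by positivity), ENNReal.ofReal_mul (by positivity),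
    ENNReal.ofReal_natCast, ENNReal.ofReal_natCast]

/-- `T l M ≤ 2 / (M + 1)` for `l ≠ []` -/
theorem TE_le_two : ∀ {l : List ℕ} (_ : Adm1 l) (_ : l ≠ []) (M : ℕ),
    TE l M ≤ 2 * ENNReal.ofReal (ef 0 M)
  | [], _, h0, _ => absurd rfl h0
  | (a :: l), h, _, M => by
    have hs : ∑' n, ENNReal.ofReal (ef 1 (M + n)) = ENNReal.ofReal (ef 0 M) := by
      have h2 := ef_hasSum 0 M
      rw [← h2.tsum_eq, ENNReal.ofReal_tsum_of_nonneg (fun n => (ef_pos _ _).le) h2.summable]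
    rw [TE_cons_tail, ← hs, ← ENNReal.tsum_mul_left]
    refine ENNReal.tsum_le_tsum fun n => ?_
    rw [ofReal_ef_one]
    set m := M + n with hm
    have hm1 : (((m + 1 : ℕ) : ℝ≥0∞)) ≠ 0 := by simp
    have hm2 : (((m + 1 : ℕ) : ℝ≥0∞)) ≠ ∞ := ENNReal.natCast_ne_top _
    have hm3 : (((m + 2 : ℕ) : ℝ≥0∞)) ≠ 0 := by simp
    have hm4 : (((m + 2 : ℕ) : ℝ≥0∞)) ≠ ∞ := ENNReal.natCast_ne_top _
    rw [ENNReal.mul_inv (Or.inl hm1) (Or.inl hm2)]
    cases l with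
    | nil =>
      have ha : 2 ≤ a := adm1_single.1 h
      have h1 : (1 : ℝ≥0∞) ≤ ((m + 1 : ℕ) : ℝ≥0∞) := by exact_mod_cast Nat.succ_pos m
      have h2 : ((((m + 1 : ℕ) : ℝ≥0∞)) ^ a)⁻¹ ≤ ((((m + 1 : ℕ) : ℝ≥0∞)) ^ 2)⁻¹ := by
        rw [ENNReal.inv_le_inv]
        exact pow_le_pow_right₀ h1 ha
      rw [TE, mul_one]
      refine h2.trans ?_
      rw [sq, ENNReal.mul_inv (Or.inl hm1) (Or.inl hm2), mul_left_comm]
      refine mul_le_mul' le_rfl ?_
      -- (m+1)⁻¹ ≤ 2 (m+2)⁻¹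
      rw [← div_eq_mul_inv, ENNReal.le_div_iff_mul_le (Or.inl hm3) (Or.inl hm4), mul_comm,
        ← div_eq_mul_inv, ENNReal.div_le_iff_le_mul (Or.inl hm1) (Or.inl hm2)]
      have h3 : m + 2 ≤ 2 * (m + 1) := by omega
      exact_mod_cast h3
    | cons b l =>
      have h3 := TE_le_two h.tail (by simp) (m + 1)
      have h4 : ENNReal.ofReal (ef 0 (m + 1)) = (((m + 2 : ℕ) : ℝ≥0∞))⁻¹ := by
        rw [ef_zero]
        have h5 : (((m + 1 : ℕ) : ℝ) + 1) = ((m + 2 : ℕ) : ℝ) := by push_cast; ring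
        rw [h5, ENNReal.ofReal_inv_of_pos (by positivity), ENNReal.ofReal_natCast]
      rw [h4] at h3
      have h1 : (1 : ℝ≥0∞) ≤ ((m + 1 : ℕ) : ℝ≥0∞) := by exact_mod_cast Nat.succ_pos m
      have h2 : ((((m + 1 : ℕ) : ℝ≥0∞)) ^ a)⁻¹ ≤ ((((m + 1 : ℕ) : ℝ≥0∞)))⁻¹ := by
        rw [ENNReal.inv_le_inv]
        calc (((m + 1 : ℕ) : ℝ≥0∞)) = (((m + 1 : ℕ) : ℝ≥0∞)) ^ 1 := (pow_one _).symm
          _ ≤ _ := pow_le_pow_right₀ h1 h.head
      calc ((((m + 1 : ℕ) : ℝ≥0∞)) ^ a)⁻¹ * TE (b :: l) (m + 1)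
          ≤ ((((m + 1 : ℕ) : ℝ≥0∞)))⁻¹ * (2 * (((m + 2 : ℕ) : ℝ≥0∞))⁻¹) := mul_le_mul' h2 h3
        _ = _ := by ring

theorem TE_ne_top1 {l : List ℕ} (h : Adm1 l) (M : ℕ) : TE l M ≠ ∞ := by
  cases l with
  | nil => simp [TE]
  | cons a l =>
    exact ne_top_of_le_ne_top (ENNReal.mul_ne_top (by norm_num) ENNReal.ofReal_ne_top)
      (TE_le_two h (by simp) M)

theorem T_le_two {l : List ℕ} (h : Adm1 l) (h0 : l ≠ []) (M : ℕ) : T l M ≤ 2 / ((M : ℝ) + 1) := by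
  have h1 := TE_le_two h h0 M
  have h2 : 2 * ENNReal.ofReal (ef 0 M) ≠ ∞ := ENNReal.mul_ne_top (by norm_num) ENNReal.ofReal_ne_top
  have h3 := ENNReal.toReal_mono h2 h1
  rw [ENNReal.toReal_mul, ENNReal.toReal_ofReal (ef_pos _ _).le, ef_zero] at h3
  rw [T]
  simpa [div_eq_mul_inv] using h3

theorem T_le_one {l : List ℕ} (h : Adm1 l) {t : ℕ} (ht : 1 ≤ t) : T l t ≤ 1 := by
  rcases eq_or_ne l [] with rfl | h0
  · rw [T_nil]
  · refine (T_le_two h h0 t).trans ?_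
    have h1 : (1 : ℝ) ≤ t := by exact_mod_cast ht
    rw [div_le_one (by positivity)]
    linarith

/-- `T l t ≤ 2 / t` for `t ≥ 1`, `l ≠ []` -/
theorem T_le_div {l : List ℕ} (h : Adm1 l) (h0 : l ≠ []) {t : ℕ} (ht : 1 ≤ t) : T l t ≤ 2 / (t : ℝ) := by
  refine (T_le_two h h0 t).trans ?_
  have h1 : (1 : ℝ) ≤ t := by exact_mod_cast ht
  exact div_le_div_of_nonneg_left (by norm_num) (by linarith) (by linarith)

theorem T_step1 {a : ℕ} {l : List ℕ} (h : Adm1 (a :: l)) (M : ℕ) :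
    T (a :: l) M = (((M : ℝ) + 1) ^ a)⁻¹ * T l (M + 1) + T (a :: l) (M + 1) := by
  rw [T, TE_step, ENNReal.toReal_add, ENNReal.toReal_mul, ENNReal.toReal_inv, ENNReal.toReal_pow,
    ENNReal.toReal_natCast, T, T]
  · push_cast; rfl
  · refine ENNReal.mul_ne_top ?_ (TE_ne_top1 h.tail _)
    rw [Ne, ENNReal.inv_eq_top, pow_eq_zero_iff']
    rintro ⟨h1, _⟩
    have : M + 1 = 0 := by exact_mod_cast h1
    omega
  · exact TE_ne_top1 h _

theorem T_pos1 : ∀ {l : List ℕ} (_ : Adm1 l) (M : ℕ), 0 < T l M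
  | [], _, M => by rw [T_nil]; exact one_pos
  | (a :: l), h, M => by
    rw [T_step1 h]
    have h1 := T_pos1 h.tail (M + 1)
    have h2 := T_nonneg (a :: l) (M + 1)
    positivity

theorem T_anti1 {l : List ℕ} (h : Adm1 l) {M m : ℕ} (hM : M ≤ m) : T l m ≤ T l M := by
  induction m, hM using Nat.le_induction with
  | base => exact le_rfl
  | succ m _ IH =>
    refine le_trans ?_ IH
    cases l with
    | nil => rw [T_nil, T_nil]
    | cons a l =>
      rw [T_step1 h m]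
      have h1 := T_nonneg l (m + 1)
      have : 0 ≤ (((m : ℝ) + 1) ^ a)⁻¹ * T l (m + 1) := by positivity
      linarith

theorem T_tsum1 {a : ℕ} {l : List ℕ} (h : Adm1 (a :: l)) (M : ℕ) :
    (Summable fun m : ℕ => (if M < m then ((m : ℝ) ^ a)⁻¹ else 0) * T l m) ∧
    T (a :: l) M = ∑' m : ℕ, (if M < m then ((m : ℝ) ^ a)⁻¹ else 0) * T l m := by
  have hne := TE_ne_top1 h M
  rw [TE] at hne
  have hterm : ∀ m : ℕ, (kk a M m * TE l m).toReal =
      (if M < m then ((m : ℝ) ^ a)⁻¹ else 0) * T l m := by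
    intro m
    rw [ENNReal.toReal_mul, kk_toReal, T]
  constructor
  · have := ENNReal.summable_toReal hne
    simpa only [hterm] using this
  · rw [T, TE, ENNReal.tsum_toReal_eq]
    · exact tsum_congr hterm
    · intro m
      exact ENNReal.mul_ne_top (kk_ne_top _ _ _) (TE_ne_top1 h.tail m)

/-- `T l M → 0` for `l ≠ []` -/
theorem T_tendsto1 {l : List ℕ} (h : Adm1 l) (h0 : l ≠ []) : Tendsto (T l) atTop (𝓝 0) := by
  refine squeeze_zero (fun M => T_nonneg l M) (fun M => T_le_two h h0 M) ?_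
  have := (tendsto_one_div_add_atTop_nhds_zero_nat (𝕜 := ℝ)).const_mul 2
  rw [mul_zero] at this
  refine this.congr fun n => ?_
  ring

end Pool.MZExp
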