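import Pool.Agent.Lib.MZExp.VDefs
import Pool.Agent.Lib.MZExp.ZRec
import Pool.Agent.Lib.MZExp.XTE

/-! MP_301213_nt, EXPONENT 1/3, module `VEnc`: a family `c_0, ..., c_(r-1)` of solutions of
the shift recursion as ONE solution on the words `v ++ [i + 1]`.

`c1 (v ++ [i + 1]) α j = c_i v α j`, `c1 [] = 0`; the shift acts on `v ++ [i + 1]` by acting on `v`
because the value at `[]` is `0`. Then `c' = -(c1 + F1 / j)` and `R' = X * TT F1 - R1`, as in
`UMain.zero_estU`. -/

open Polynomial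

namespace Pool.MZExp

theorem encf_nil {β : Type*} [Zero β] (g : ℕ → List ℕ → β) : encf g [] = 0 := by
  simp [encf]

theorem encf_concat {β : Type*} [Zero β] (g : ℕ → List ℕ → β) (v : List ℕ) (i : ℕ) :
    encf g (v ++ [i + 1]) = g i v := by
  have h1 : v ++ [i + 1] ≠ [] := by simp
  have h2 : (v ++ [i + 1]).getLastD 0 = i + 1 := by
    simp
  have h3 : (v ++ [i + 1]).dropLast = v := by simp
  unfold encf
  rw [if_neg h1, h2, h3]
  rfl

theorem mem_encW {S : Finset (List ℕ)} {r : ℕ} {u : List ℕ} :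
    u ∈ encW S r ↔ u = [] ∨ ∃ v ∈ S, ∃ i < r, u = v ++ [i + 1] := by
  unfold encW
  rw [Finset.mem_insert, Finset.mem_image]
  constructor
  · rintro (h | ⟨p, hp, h⟩)
    · exact Or.inl h
    · rw [Finset.mem_product, Finset.mem_range] at hp
      exact Or.inr ⟨p.1, hp.1, p.2, hp.2, h.symm⟩
  · rintro (h | ⟨v, hv, i, hi, h⟩)
    · exact Or.inl h
    · refine Or.inr ⟨(v, i), ?_, h.symm⟩
      rw [Finset.mem_product, Finset.mem_range]
      exact ⟨hv, hi⟩

theorem encW_card (S : Finset (List ℕ)) (r : ℕ) : (encW S r).card = r * S.card + 1 := by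
  unfold encW
  rw [Finset.card_insert_of_notMem, Finset.card_image_of_injective, Finset.card_product,
    Finset.card_range, mul_comm]
  · rintro ⟨v, i⟩ ⟨w, k⟩ h
    have h1 : v ++ [i + 1] = w ++ [k + 1] := h
    have h2 := List.append_inj' h1 rfl
    have h3 : i + 1 = k + 1 := by
      have := h2.2
      simpa using this
    have h4 : i = k := by omega
    rw [h2.1, h4]
  · intro h
    obtain ⟨p, _, hp⟩ := Finset.mem_image.1 h
    simp at hp

theorem encW_tail {S : Finset (List ℕ)} (hS : TC1 S) (r : ℕ) :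
    ∀ a l, a :: l ∈ encW S r → l ∈ encW S r := by
  intro a l h
  rw [mem_encW] at h ⊢
  rcases h with h | ⟨v, hv, i, hi, h⟩
  · exact absurd h (List.cons_ne_nil a l)
  · rcases v with _ | ⟨b, v'⟩
    · rw [List.nil_append, List.cons.injEq] at h
      exact Or.inl h.2
    · rw [List.cons_append, List.cons.injEq] at h
      exact Or.inr ⟨v', hS.2.2 b v' hv, i, hi, h.2⟩

theorem encW_pos {S : Finset (List ℕ)} (hS : TC1 S) (r : ℕ) :
    ∀ l ∈ encW S r, ∀ a ∈ l, 1 ≤ a := by
  intro l hl a ha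
  rw [mem_encW] at hl
  rcases hl with h | ⟨v, hv, i, hi, h⟩
  · rw [h] at ha
    simp at ha
  · rw [h, List.mem_append, List.mem_singleton] at ha
    rcases ha with ha | ha
    · exact (hS.2.1 v hv).1 a ha
    · omega

theorem encW_top {S : Finset (List ℕ)} {r : ℕ} {v0 : List ℕ} (h : ∀ u, v0 ++ u ∈ S → u = []) :
    ∀ u, v0 ++ u ∈ encW S r → u.length ≤ 1 := by
  intro u hu
  rcases List.eq_nil_or_concat u with h0 | ⟨u', b, h0⟩
  · rw [h0]
    simp
  · rw [mem_encW] at hu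
    rcases hu with h1 | ⟨v, hv, i, hi, h1⟩
    · rw [h0] at h1
      simp at h1
    · rw [h0, List.concat_eq_append, ← List.append_assoc] at h1
      have h2 := List.append_inj' h1 rfl
      rw [← h2.1] at hv
      have h3 := h u' hv
      rw [h0, h3]
      simp

private noncomputable def tpXV (f : List ℕ → ℚ[X]) : List ℕ → ℚ[X]
  | [] => f []
  | a :: u => f (a :: u) + (-X) ^ a * f u

private theorem negXV_deg (a : ℕ) : ((-X : ℚ[X]) ^ a).natDegree ≤ a := by
  refine natDegree_pow_le.trans ?_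
  rw [natDegree_neg, natDegree_X, mul_one]

private theorem tpXV_deg (f : List ℕ → ℚ[X]) (n : ℕ) (hf : ∀ u, (f u).natDegree ≤ n)
    (u : List ℕ) : (tpXV f u).natDegree ≤ u.sum + n := by
  rcases u with _ | ⟨a, u⟩
  · simpa [tpXV] using hf []
  · rw [tpXV, List.sum_cons]
    refine (natDegree_add_le _ _).trans (max_le ((hf _).trans (by omega)) ?_)
    refine natDegree_mul_le.trans ?_
    have h1 := negXV_deg a
    have h2 := hf u
    omega

private theorem tpXV_eval (f : List ℕ → ℚ[X]) (x : ℚ) (u : List ℕ) :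
    (tpXV f u).eval x = tp (-x) (fun u' => (f u').eval x) u := by
  rcases u with _ | ⟨a, u⟩
  · rfl
  · simp [tpXV, tp]

private theorem tpV_lin (x : ℚ) (f g : List ℕ → List ℕ → ℚ) (y : ℚ) (u v : List ℕ) :
    tp x (fun u' => tp x (fun v' => -(f u' v' + g u' v' * y)) v) u =
      -(tp x (fun u' => tp x (fun v' => f u' v') v) u +
        tp x (fun u' => tp x (fun v' => g u' v') v) u * y) := by
  rcases u with _ | ⟨a, u⟩ <;> rcases v with _ | ⟨b, v⟩ <;> simp only [tp] <;> ring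

private theorem tp_zeroV (y : ℚ) (v : List ℕ) : tp y (fun _ => (0 : ℚ)) v = 0 := by
  rcases v with _ | ⟨b, v⟩ <;> simp [tp]

private theorem tp_encfV (y : ℚ) (g : ℕ → List ℕ → ℚ) (w : List ℕ) (i : ℕ) :
    tp y (encf g) (w ++ [i + 1]) = tp y (g i) w := by
  rcases w with _ | ⟨a, w⟩
  · have h1 : encf g [i + 1] = g i [] := encf_concat g [] i
    simp only [List.nil_append, tp]
    rw [h1, encf_nil]
    ring
  · have h1 : encf g (a :: (w ++ [i + 1])) = g i (a :: w) := encf_concat g (a :: w) i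
    simp only [List.cons_append, tp]
    rw [h1, encf_concat]

private theorem tp_encfV2 (y : ℚ) (g : ℕ → List ℕ → List ℕ → ℚ) (v : List ℕ) :
    (fun u' => tp y (fun v' => encf (fun i w => g i w v') u') v) =
      encf (fun i w => tp y (fun v' => g i w v') v) := by
  funext u'
  by_cases h : u' = []
  · subst h
    simp only [encf_nil]
    exact tp_zeroV y v
  · unfold encf
    simp only [if_neg h]

theorem enc_main (S B : Finset (List ℕ)) (hS : TC1 S) (hB : TC1 B) (r : ℕ)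
    (c : ℕ → List ℕ → List ℕ → ℕ → ℚ)
    (hc : ∀ i < r, RecV (if i = 0 then 1 else 0) (c i)) :
    ∃ (c' : List ℕ → List ℕ → ℕ → ℚ) (R' : List ℕ → List ℕ → ℚ[X]) (F' : List ℕ → List ℕ → ℚ),
      (∀ u ∈ encW S r, ∀ v ∈ B, (R' u v).natDegree ≤ S.sup List.sum + r + B.sup List.sum + 1) ∧
      R' [] [] = 0 ∧
      (∀ b, [b] ∈ encW S r → R' [b] [] = if b = 1 then X else 0) ∧
      (∀ v j, c' [] v j = 0) ∧
      (∀ (j : ℕ) (u : encW S r) (v : B), 1 ≤ j → c' u v (j + 1) = (∑ u' : encW S r, ∑ v' : B,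
        Tm (j : ℚ) (encW S r) u' u * Tm (j : ℚ) B v' v * c' u' v' j) + (R' u v).eval (j : ℚ)⁻¹) ∧
      ∀ i < r, ∀ v ∈ S, ∀ α ∈ B, ∀ j : ℕ, 1 ≤ j →
        (j : ℚ) * c' (v ++ [i + 1]) α j = -((j : ℚ) * c i v α j) - F' (v ++ [i + 1]) α := by
  have hc2 : ∀ i, i < r → ∃ (R : List ℕ → List ℕ → ℚ[X]) (F : List ℕ → List ℕ → ℚ),
      R [] [] = 0 ∧ F [] [] = (if i = 0 then 1 else 0) ∧
      (∀ u v, (R u v).natDegree ≤ u.sum + v.sum + 1) ∧
      ∀ (j : ℕ) (u v : List ℕ), 1 ≤ j → Adm1 u → Adm1 v →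
        c i u v (j + 1) = tp (-(j : ℚ)⁻¹) (fun u' => tp (-(j : ℚ)⁻¹) (fun v' => c i u' v' j) v) u
          + (R u v).eval (j : ℚ)⁻¹ - F u v * ((j : ℚ) + 1)⁻¹ := fun i hi => hc i hi
  choose! R F hR0 hF0 hR1 hR2 using hc2
  set c1 : List ℕ → List ℕ → ℕ → ℚ := fun u α j => encf (fun i v => c i v α j) u with hc1
  set F1 : List ℕ → List ℕ → ℚ := fun u α => encf (fun i v => F i v α) u with hF1
  set R1 : List ℕ → List ℕ → ℚ[X] := fun u α => encf (fun i v => R i v α) u with hR1d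
  set R' : List ℕ → List ℕ → ℚ[X] := fun u v =>
    X * tpXV (fun u' => tpXV (fun v' => C (F1 u' v')) v) u - R1 u v with hR'
  set c' : List ℕ → List ℕ → ℕ → ℚ := fun u v j => -(c1 u v j + F1 u v * (j : ℚ)⁻¹) with hc'
  have c1nil : ∀ α j, c1 [] α j = 0 := fun α j => encf_nil _
  have F1nil : ∀ α, F1 [] α = 0 := fun α => encf_nil _
  have R1nil : ∀ α, R1 [] α = 0 := fun α => encf_nil _
  have c1con : ∀ v i α j, c1 (v ++ [i + 1]) α j = c i v α j := fun v i α j => encf_concat _ v i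
  have F1con : ∀ v i α, F1 (v ++ [i + 1]) α = F i v α := fun v i α => encf_concat _ v i
  have R1con : ∀ v i α, R1 (v ++ [i + 1]) α = R i v α := fun v i α => encf_concat _ v i
  -- the recursion of `c1`
  have hrec : ∀ (j : ℕ) (u v : List ℕ), 1 ≤ j → u ∈ encW S r → v ∈ B →
      c1 u v (j + 1) = tp (-(j : ℚ)⁻¹) (fun u' => tp (-(j : ℚ)⁻¹) (fun v' => c1 u' v' j) v) u
        + (R1 u v).eval (j : ℚ)⁻¹ - F1 u v * ((j : ℚ) + 1)⁻¹ := by
    intro j u v hj hu hv
    rw [mem_encW] at hu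
    rcases hu with rfl | ⟨w, hw, i, hi, rfl⟩
    · rw [c1nil, F1nil, R1nil]
      have h1 : tp (-(j : ℚ)⁻¹) (fun u' => tp (-(j : ℚ)⁻¹) (fun v' => c1 u' v' j) v) [] = 0 := by
        show tp (-(j : ℚ)⁻¹) (fun v' => c1 [] v' j) v = 0
        simp only [c1nil]
        exact tp_zeroV _ v
      rw [h1]
      simp
    · rw [c1con, F1con, R1con]
      have h1 : (fun u' => tp (-(j : ℚ)⁻¹) (fun v' => c1 u' v' j) v) =
          encf (fun i w => tp (-(j : ℚ)⁻¹) (fun v' => c i w v' j) v) :=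
        tp_encfV2 (-(j : ℚ)⁻¹) (fun i w v' => c i w v' j) v
      rw [h1, tp_encfV]
      exact hR2 i hi j w v hj (hS.2.1 w hw) (hB.2.1 v hv)
  have hR1deg : ∀ u ∈ encW S r, ∀ v, (R1 u v).natDegree ≤ u.sum + v.sum + 1 := by
    intro u hu v
    rw [mem_encW] at hu
    rcases hu with rfl | ⟨w, hw, i, hi, rfl⟩
    · rw [R1nil]
      simp
    · rw [R1con, List.sum_append]
      have := hR1 i hi w v
      omega
  have hR'deg : ∀ u ∈ encW S r, ∀ v, (R' u v).natDegree ≤ u.sum + v.sum + 1 := by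
    intro u hu v
    refine (natDegree_sub_le _ _).trans (max_le ?_ (hR1deg u hu v))
    refine natDegree_mul_le.trans ?_
    have h1 := tpXV_deg (fun u' => tpXV (fun v' => C (F1 u' v')) v) (v.sum + 0)
      (fun u' => tpXV_deg (fun v' => C (F1 u' v')) 0 (fun v' => by simp) v) u
    rw [natDegree_X]
    omega
  have hsum : ∀ u ∈ encW S r, u.sum ≤ S.sup List.sum + r := by
    intro u hu
    rw [mem_encW] at hu
    rcases hu with rfl | ⟨w, hw, i, hi, rfl⟩
    · simp
    · have h1 : w.sum ≤ S.sup List.sum := Finset.le_sup (f := List.sum) hw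
      rw [List.sum_append, List.sum_singleton]
      omega
  refine ⟨c', R', F1, ?_, ?_, ?_, ?_, ?_, ?_⟩
  · intro u hu v hv
    have h1 := hR'deg u hu v
    have h2 := hsum u hu
    have h3 : v.sum ≤ B.sup List.sum := Finset.le_sup (f := List.sum) hv
    omega
  · simp [hR', tpXV, F1nil, R1nil]
  · intro b hb
    rw [mem_encW] at hb
    rcases hb with h | ⟨w, hw, i, hi, h⟩
    · simp at h
    · rcases w with _ | ⟨a, w⟩
      · rw [List.nil_append, List.cons.injEq] at h
        obtain ⟨rfl, _⟩ := h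
        have h1 : F1 [i + 1] [] = if i = 0 then 1 else 0 := (F1con [] i []).trans (hF0 i hi)
        have h2 : R1 [i + 1] [] = 0 := (R1con [] i []).trans (hR0 i hi)
        simp only [hR', tpXV, F1nil, h1, h2, map_zero, mul_zero, add_zero, sub_zero]
        by_cases h3 : i = 0
        · simp [h3]
        · rw [if_neg h3, if_neg (by omega)]
          simp
      · exfalso
        have := congrArg List.length h
        simp at this
  · intro v j
    simp only [hc', c1nil, F1nil]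
    ring
  · intro j u v hj
    rw [rec_matrix (j : ℚ) (encW S r) B (encW_tail hS r) hB.2.2 (fun u' v' => c' u' v' j) u v]
    have h1 := hrec j u v hj u.2 v.2
    have h2 : c' u v (j + 1) = -(c1 u v (j + 1) + F1 u v * ((j : ℚ) + 1)⁻¹) := by
      simp only [hc']
      push_cast
      rfl
    have h3 : tp (-(j : ℚ)⁻¹) (fun u' => tp (-(j : ℚ)⁻¹) (fun v' => c' u' v' j) v) u =
        -(tp (-(j : ℚ)⁻¹) (fun u' => tp (-(j : ℚ)⁻¹) (fun v' => c1 u' v' j) v) u +
        tp (-(j : ℚ)⁻¹) (fun u' => tp (-(j : ℚ)⁻¹) (fun v' => F1 u' v') v) u * (j : ℚ)⁻¹) :=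
      tpV_lin _ (fun u' v' => c1 u' v' j) F1 _ u v
    have h4 : (R' u v).eval (j : ℚ)⁻¹ = (j : ℚ)⁻¹ *
        tp (-(j : ℚ)⁻¹) (fun u' => tp (-(j : ℚ)⁻¹) (fun v' => F1 u' v') v) u -
        (R1 u v).eval (j : ℚ)⁻¹ := by
      simp only [hR', eval_sub, eval_mul, eval_X, tpXV_eval, eval_C]
    rw [h2, h3, h4, h1]
    ring
  · intro i hi v hv α hα j hj
    have hj0 : (j : ℚ) ≠ 0 := by
      have : j ≠ 0 := by omega
      exact_mod_cast this
    simp only [hc', c1con]
    field_simp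
    ring

end Pool.MZExp
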