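import Pool.Agent.Lib.MZExp.VAlg
import Pool.Agent.Lib.MZExp.VEnc
import Pool.Agent.Lib.MZExp.VDual

/-! MP_301213_nt, EXPONENT 1/3, module `VZero` (130 lines): the ZERO ESTIMATE.

PROOF. `N0` from `zero_algV (encW S r) B ... (d := S.sup List.sum + r + B.sup List.sum + 1)`
(`encW_card`, `encW_tail hS r`, `encW_pos hS r`), plus `2`. Let `N ≥ N0`, `c`, `x`, `hx` be given. `enc_main` gives
`c'`, `R'`, `F'`. `P i v` = the polynomial of `bneg_poly (N / 2) (fun i' => x i i' v)` (choose). Put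
`g i v = if v ∈ Top then X * P i v else 0`, `a u = encf g u` for `u ∈ encW S r`, degree `≤ N / 2 + 1`.
For `α ∈ B`: `G j = ∑_(i < r) ∑_(v ∈ Top) (P i v).eval j * c i v α j`. By `hx` (exchange the sums, unfold `LC`)
`∑_j (-1)^j C(N+k,j) G j = 0` for `k ≤ N`; `newton_V` gives `Q`, degree `≤ N - 1`, `G j = Q.eval j` for `j ≤ 2N`.
Put `b = -(X * Q) - ∑ i ∈ range r, ∑ v ∈ Top, C (F' (v ++ [i + 1]) α) * P i v`, degree `≤ N`. For
`1 ≤ j ≤ 2N`: `∑ u, (a u).eval j * c' u α j = ∑_(i<r) ∑_(v ∈ Top) j * (P i v).eval j * c' (v ++ [i+1]) α j`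
(the sum over `encW S r`: `Finset.sum_insert`, `Finset.sum_image`, `Finset.sum_product`; `v ∉ Top` and
`u = []` give `0`) `= ∑ (P i v).eval j * (-(j * c i v α j) - F' ..) = -j Q(j) - ∑ F' P = b.eval j`. `zero_algV`
gives, for `v0 ∈ Top` (`encW_top (hT v0 hv0).2`, `v0 ++ [1] ∈ encW S r` because `0 < r`):
`a (v0 ++ [1]) = X * P 0 v0 = 0`, so `P 0 v0 = 0` and `x 0 i' v0 = 0` for `i' ≤ N / 2`. -/

open Polynomial Finset

namespace Pool.MZExp

private theorem VZero_sum (S : Finset (List ℕ)) (r : ℕ) (f : List ℕ → ℚ) (h0 : f [] = 0) :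
    ∑ u : encW S r, f u = ∑ v ∈ S, ∑ i ∈ range r, f (v ++ [i + 1]) := by
  rw [Finset.sum_coe_sort (encW S r) f, encW, Finset.sum_insert, h0, zero_add,
    Finset.sum_image, Finset.sum_product]
  · rintro ⟨v, i⟩ - ⟨v', i'⟩ - hEq
    simp only at hEq
    obtain ⟨h1, h2⟩ := List.append_inj' hEq rfl
    simp only [List.cons.injEq, and_true, Nat.add_right_cancel_iff] at h2
    rw [h1, h2]
  · simp

private theorem VZero_top (S Top : Finset (List ℕ)) (hT : Top ⊆ S) (f : List ℕ → ℚ)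
    (hf : ∀ v, v ∉ Top → f v = 0) : ∑ v ∈ S, f v = ∑ v ∈ Top, f v :=
  (Finset.sum_subset hT fun v _ hv => hf v hv).symm

theorem zero_estV (S B Top : Finset (List ℕ)) (hS : TC1 S) (hB : TC1 B)
    (hT : ∀ v ∈ Top, v ∈ S ∧ ∀ u, v ++ u ∈ S → u = []) (r : ℕ) (hr : 1 ≤ r)
    (h : 2 * (r * S.card + 1) < B.card) :
    ∃ N0 : ℕ, ∀ N : ℕ, N0 ≤ N → ∀ c : ℕ → List ℕ → List ℕ → ℕ → ℚ,
      (∀ i < r, RecV (if i = 0 then 1 else 0) (c i)) → ∀ x : ℕ → ℕ → List ℕ → ℚ,
      (∀ k ≤ N, ∀ α ∈ B, ∑ i ∈ range r, ∑ i' ∈ range (N / 2 + 1), ∑ v ∈ Top,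
        x i i' v * LC N (c i v α) k i' = 0) →
      ∀ i' ≤ N / 2, ∀ v ∈ Top, x 0 i' v = 0 := by
  classical
  obtain ⟨N0, hN0⟩ := zero_algV (encW S r) B (encW_tail hS r) (fun a l h => hB.2.2 a l h)
    (encW_pos hS r) (fun l hl a ha => (hB.2.1 l hl).1 a ha) (mem_encW.2 (Or.inl rfl)) hB.1
    (S.sup List.sum + r + B.sup List.sum + 1) (by rw [encW_card]; exact h)
  refine ⟨N0 + 2, fun N hN c hc x hx => ?_⟩
  obtain ⟨c', R', F', hdeg, hR0, hR1, hc0, hrec, hrel⟩ := enc_main S B hS hB r c hc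
  choose P hPdeg hPev hP0 using fun (i : ℕ) (v : List ℕ) => bneg_poly (N / 2) (fun i' => x i i' v)
  have hTS : Top ⊆ S := fun v hv => (hT v hv).1
  set g : ℕ → List ℕ → ℚ[X] := fun i v => if v ∈ Top then X * P i v else 0 with hg
  have hgdeg : ∀ i v, (g i v).natDegree ≤ N / 2 + 1 := by
    intro i v
    simp only [hg]
    split_ifs with hv
    · refine natDegree_mul_le.trans ?_
      have h1 := hPdeg i v
      have h2 : (X : ℚ[X]).natDegree = 1 := natDegree_X
      omega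
    · simp
  have hadeg : ∀ u : encW S r, (encf g (u : List ℕ)).natDegree ≤ N / 2 + 1 := by
    intro u
    unfold encf
    split_ifs with hu
    · simp
    · exact hgdeg _ _
  have hkey : ∀ v : B, ∃ b : ℚ[X], b.natDegree ≤ N ∧ ∀ j : ℕ, 1 ≤ j → j ≤ 2 * N →
      ∑ u : encW S r, (encf g (u : List ℕ)).eval (j : ℚ) * c' u v j = b.eval (j : ℚ) := by
    rintro ⟨α, hα⟩
    obtain ⟨Q, hQdeg, hQ⟩ := newton_V N (by omega)
      (fun j => ∑ i ∈ range r, ∑ v ∈ Top, (P i v).eval (j : ℚ) * c i v α j) (by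
        intro k hk
        have h1 := hx k hk α hα
        rw [← h1]
        simp only [LC, hPev, Finset.mul_sum, Finset.sum_mul]
        rw [Finset.sum_comm]
        refine Finset.sum_congr rfl fun i _ => ?_
        rw [Finset.sum_comm]
        rw [Finset.sum_comm (s := range (N / 2 + 1))]
        refine Finset.sum_congr rfl fun v _ => ?_
        rw [Finset.sum_comm]
        refine Finset.sum_congr rfl fun i' _ => ?_
        refine Finset.sum_congr rfl fun j _ => ?_
        ring)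
    refine ⟨-(X * Q) - ∑ i ∈ range r, ∑ v ∈ Top, C (F' (v ++ [i + 1]) α) * P i v, ?_, ?_⟩
    · refine (natDegree_sub_le _ _).trans (max_le ?_ ?_)
      · rw [natDegree_neg]
        refine natDegree_mul_le.trans ?_
        have h2 : (X : ℚ[X]).natDegree = 1 := natDegree_X
        omega
      · refine natDegree_sum_le_of_forall_le _ _ fun i _ => ?_
        refine natDegree_sum_le_of_forall_le _ _ fun v _ => ?_
        refine (natDegree_C_mul_le _ _).trans ?_
        have h1 := hPdeg i v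
        omega
    · intro j hj1 hj
      have h0 : (encf g ([] : List ℕ)).eval (j : ℚ) * c' [] α j = 0 := by
        rw [encf_nil]; simp
      rw [VZero_sum S r (fun u => (encf g u).eval (j : ℚ) * c' u α j) h0,
        VZero_top S Top hTS _ (by
          intro v hv
          refine Finset.sum_eq_zero fun i _ => ?_
          rw [encf_concat]
          simp [hg, hv])]
      have hQj := hQ j hj
      rw [eval_sub, eval_neg, eval_mul, eval_X, ← hQj, eval_finsetSum, Finset.mul_sum,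
        ← Finset.sum_neg_distrib, ← Finset.sum_sub_distrib, Finset.sum_comm]
      refine Finset.sum_congr rfl fun i hi => ?_
      rw [eval_finsetSum, Finset.mul_sum, ← Finset.sum_neg_distrib, ← Finset.sum_sub_distrib]
      refine Finset.sum_congr rfl fun v hv => ?_
      rw [encf_concat]
      simp only [hg, if_pos hv, eval_mul, eval_X, eval_C]
      have h3 := hrel i (Finset.mem_range.1 hi) v (hTS hv) α hα j hj1
      calc (j : ℚ) * eval (j : ℚ) (P i v) * c' (v ++ [i + 1]) α j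
          = eval (j : ℚ) (P i v) * ((j : ℚ) * c' (v ++ [i + 1]) α j) := by ring
        _ = _ := by rw [h3]; ring
  intro i' hi' v0 hv0
  have hmem : v0 ++ [1] ∈ encW S r :=
    mem_encW.2 (Or.inr ⟨v0, hTS hv0, 0, by omega, rfl⟩)
  have h4 := hN0 N (by omega) c' R' hdeg hR0 hR1 hc0 hrec (fun u => encf g (u : List ℕ)) hadeg hkey
    v0 hmem (encW_top (hT v0 hv0).2)
  have h5 : encf g (v0 ++ [0 + 1]) = 0 := h4
  rw [encf_concat] at h5
  simp only [hg, if_pos hv0] at h5
  have h6 : P 0 v0 = 0 := by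
    rcases mul_eq_zero.1 h5 with h7 | h7
    · exact absurd h7 X_ne_zero
    · exact h7
  exact hP0 0 v0 h6 i' hi'

end Pool.MZExp
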