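import Pool.Agent.Lib.MZExp.XLower
import Pool.Agent.Lib.MZExp.VInt
import Pool.Agent.Lib.MZExp.VForm
import Pool.Agent.Lib.MZExp.VZero
import Pool.Agent.Lib.MZExp.VPig
import Pool.Agent.Lib.MZExp.VCnt
import Pool.Agent.Lib.MZExp.VSmall
import Pool.Agent.Lib.MZExp.VBas

/-! MP_301213_nt, EXPONENT 1/3, module `VKey`: the main inequality, for general sets of words.

Box principle with exact conditions for the coordinates `1, ..., r - 1` of the linear forms and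
approximate conditions for the size of the functions; the zero estimate says that the coordinate `0`
of one of the forms does not vanish, so the form is a nonzero rational number which is too small. -/

open HofPers Finset Pool.MZDim Filter Topology

namespace Pool.MZExp

private theorem vkey_expd_mono {C C' : ℝ} (h : C ≤ C') {k : ℕ} {F : ℕ → ℝ} (hF : Expd C k F) :
    Expd C' k F := by
  obtain ⟨g, h1, h2, h3, h4⟩ := hF
  refine ⟨g, h1, h2, fun i => (h3 i).trans ?_, fun t ht V => (h4 t ht V).trans ?_⟩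
  · exact mul_le_mul_of_nonneg_left h (by positivity)
  · have := xc_ek_nonneg V t
    have hV : (0 : ℝ) ≤ (V : ℝ) + 1 := by positivity
    exact mul_le_mul_of_nonneg_right (mul_le_mul_of_nonneg_right h hV) this

private theorem vkey_T_le2 {l : List ℕ} (h : Adm1 l) (M : ℕ) : HofPers.T l M ≤ 2 := by
  rcases eq_or_ne l [] with rfl | h0
  · rw [HofPers.T_nil]
    norm_num
  · refine (T_le_two h h0 M).trans ?_
    have : (0 : ℝ) ≤ M := Nat.cast_nonneg M
    rw [div_le_iff₀ (by positivity)]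
    linarith

private theorem vkey_T_nn (l : List ℕ) (M : ℕ) : 0 ≤ HofPers.T l M := ENNReal.toReal_nonneg

/-- extension by zero of a function on `Fin n × Top` -/
private def vkey_ext {n : ℕ} {Top : Finset (List ℕ)} (f : Fin n × Top → ℚ) (i : ℕ) (v : List ℕ) : ℚ := by
  classical
  exact if h : i < n ∧ v ∈ Top then f (⟨i, h.1⟩, ⟨v, h.2⟩) else 0

private theorem vkey_ext_val {n : ℕ} {Top : Finset (List ℕ)} (f : Fin n × Top → ℚ) (g : Fin n × Top) :
    vkey_ext f (g.1 : ℕ) (g.2 : List ℕ) = f g := by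
  unfold vkey_ext
  rw [dif_pos ⟨g.1.2, g.2.2⟩]

private theorem vkey_sum {n : ℕ} {Top : Finset (List ℕ)} (f : Fin n × Top → ℚ)
    (F : ℕ → List ℕ → ℚ) :
    ∑ i ∈ range n, ∑ v ∈ Top, vkey_ext f i v * F i v = ∑ g : Fin n × Top, f g * F g.1 g.2 := by
  rw [Fintype.sum_prod_type, Finset.sum_range]
  refine Finset.sum_congr rfl fun i _ => ?_
  rw [← Finset.sum_coe_sort Top]
  refine Finset.sum_congr rfl fun v _ => ?_
  rw [vkey_ext_val f (i, v)]

/-- the function `x` in the zero estimate -/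
private def vkey_x {n s : ℕ} {Top : Finset (List ℕ)} (c1 : Fin s × (Fin n × Top) → ℚ)
    (c2 : Fin n × Top → ℚ) : ℕ → ℕ → List ℕ → ℚ
  | 0, i', v => vkey_ext c2 i' v
  | i + 1, i', v => if h : i < s then vkey_ext (fun g => c1 (⟨i, h⟩, g)) i' v else 0

private theorem vkey_xsum {n s : ℕ} {Top : Finset (List ℕ)} (c1 : Fin s × (Fin n × Top) → ℚ)
    (c2 : Fin n × Top → ℚ) (F : ℕ → ℕ → List ℕ → ℚ) :
    ∑ i ∈ range (s + 1), ∑ i' ∈ range n, ∑ v ∈ Top, vkey_x c1 c2 i i' v * F i i' v =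
      ∑ i : Fin s × (Fin n × Top), c1 i * F (i.1 + 1) i.2.1 i.2.2 +
        ∑ g : Fin n × Top, c2 g * F 0 g.1 g.2 := by
  rw [Finset.sum_range_succ']
  congr 1
  · rw [Finset.sum_range]
    rw [Fintype.sum_prod_type]
    refine Finset.sum_congr rfl fun i _ => ?_
    have h1 : ∀ i' v, vkey_x c1 c2 ((i : ℕ) + 1) i' v = vkey_ext (fun g => c1 (i, g)) i' v := by
      intro i' v
      show (if h : (i : ℕ) < s then vkey_ext (fun g => c1 (⟨(i : ℕ), h⟩, g)) i' v else 0) = _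
      rw [dif_pos i.2]
    simp only [h1]
    exact vkey_sum (fun g => c1 (i, g)) (F ((i : ℕ) + 1))
  · exact vkey_sum c2 (F 0)

/-- arithmetic of the parameters -/
private theorem vkey_arith (r K m : ℕ) (hr : 1 ≤ r) (hK : 1 ≤ K) (h : 144 * r * (3 * K + 5) ≤ m) :
    2 * (2 * ((3 * K + 2) + 2 * (2 * r * (3 * K + 5)) + 10) ^ 2 + 1) + m * (r - 1) * ((3 * K + 4) + 1) ≤
      m * (2 * r * (3 * K + 5)) := by
  obtain ⟨s, rfl⟩ : ∃ s, r = s + 1 := ⟨r - 1, by omega⟩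
  rw [Nat.add_sub_cancel]
  set c : ℕ := 3 * K + 5 with hc
  have hc8 : 8 ≤ c := by omega
  have h1 : (3 * K + 2) + 2 * (2 * (s + 1) * c) + 10 = 4 * ((s + 1) * c) + (c + 7) := by
    rw [show 3 * K + 2 = c - 3 by omega]
    have : 2 * (2 * (s + 1) * c) = 4 * ((s + 1) * c) := by ring
    omega
  rw [h1]
  have h3 : c + 7 ≤ 2 * ((s + 1) * c) := by nlinarith
  set p : ℕ := (s + 1) * c with hp
  have h4 : 4 * p + (c + 7) ≤ 6 * p := by omega
  have h5 : (4 * p + (c + 7)) ^ 2 ≤ (6 * p) ^ 2 := Nat.pow_le_pow_left h4 2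
  have h6 : 144 * p ≤ m := by
    have : 144 * (s + 1) * c = 144 * p := by rw [hp]; ring
    omega
  have h7 : m * (2 * (s + 1) * c) = m * s * c + m * (s + 2) * c := by ring
  rw [h7]
  have h8 : 144 * p * ((s + 2) * c) ≤ m * ((s + 2) * c) := Nat.mul_le_mul_right _ h6
  have h9 : m * (s + 2) * c = m * ((s + 2) * c) := by ring
  have h10 : (s + 2) * c = p + c := by rw [hp]; ring
  rw [h9, h10] at *
  have h11 : 2 * (2 * (6 * p) ^ 2 + 1) ≤ 144 * p * (p + c) := by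
    have : 1 ≤ p := by
      rw [hp]; nlinarith
    nlinarith
  nlinarith

theorem key_U (A S Top U : Finset (List ℕ)) (K : ℕ) (hK : 1 ≤ K) (hA : TC1 A) (hS : TC1 S)
    (hT : ∀ v ∈ Top, v ∈ S ∧ ∀ u, v ++ u ∈ S → u = []) (hU : [] ∈ U) (hrep : RepU A S U K)
    (h : 2 * (Module.finrank ℚ (HU U) * S.card + 1) < A.card) :
    Top.card < 144 * Module.finrank ℚ (HU U) * (3 * K + 5) := by
  classical
  by_contra hcon
  push Not at hcon
  set z : U → ℝ := fun l : U => HofPers.T (l : List ℕ) 0 with hz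
  have h1 : (1 : ℝ) ∈ Submodule.span ℚ (Set.range z) := by
    refine Submodule.subset_span ⟨⟨[], hU⟩, ?_⟩
    show HofPers.T [] 0 = 1
    exact HofPers.T_nil 0
  have hHU : HU U = Submodule.span ℚ (Set.range z) := rfl
  set r : ℕ := Module.finrank ℚ (HU U) with hr
  have hr1 : 1 ≤ r := by
    have : Module.Finite ℚ (HU U) := FiniteDimensional.span_of_finite ℚ (Set.finite_range _)
    have : Nontrivial (HU U) := ⟨⟨⟨1, h1⟩, 0, fun h0 => one_ne_zero (congrArg Subtype.val h0)⟩⟩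
    exact Module.finrank_pos
  obtain ⟨Φ, q, C0, hq1, hΦ1, hΦs, hΦi⟩ := exists_coord z h1
  have hΦs' : ∀ x ∈ HU U, (∀ i, 1 ≤ i → i < r → Φ i x = 0) → x = ((Φ 0 x : ℚ) : ℝ) := hΦs
  have hm1 : 1 ≤ Top.card := by
    refine le_trans ?_ hcon
    have : 1 ≤ 144 * r := by omega
    calc 1 = 1 * 1 := rfl
      _ ≤ 144 * r * (3 * K + 5) := Nat.mul_le_mul this (by omega)
  have hG1 : 1 ≤ A.card := Finset.card_pos.2 ⟨[], hA.1⟩
  set κ : ℕ := 2 * r * (3 * K + 5) with hκ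
  set Dl : ℕ := 3 * K + 2 with hDl
  have hκ1 : 1 ≤ κ := by
    have : 1 ≤ 2 * r := by omega
    calc 1 = 1 * 1 := rfl
      _ ≤ 2 * r * (3 * K + 5) := Nat.mul_le_mul this (by omega)
  have hD2 : Dl ≤ 2 ^ κ := by
    have h2 : Dl ≤ κ := by
      have : 1 ≤ 2 * r := by omega
      calc Dl ≤ 1 * (3 * K + 5) := by omega
        _ ≤ 2 * r * (3 * K + 5) := Nat.mul_le_mul_right _ this
    exact h2.trans (Nat.lt_two_pow_self).le
  -- the eventual facts
  have e1 := int_V A S U K hrep Φ q C0 hΦi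
  have e2 := small_V (ι := A) (fun a t => HofPers.T (a : List ℕ) t) (C := 2) (by norm_num)
    (fun a t => vkey_T_nn _ _)
    (fun a k => vkey_expd_mono (vkey_T_le2 (hA.2.1 a a.2) 1) (expd_T (hA.2.1 a a.2) k)) Dl κ hκ1 hD2
  have e3 := count_V A.card Top.card (r - 1) (3 * K + 4) Dl κ (2 * ((Dl + 2 * κ + 10 : ℕ) : ℝ))
    (by
      have : (1 : ℝ) ≤ ((Dl + 2 * κ + 10 : ℕ) : ℝ) := by exact_mod_cast (by omega : 1 ≤ Dl + 2 * κ + 10)
      linarith) hG1 hm1 hκ1 (vkey_arith r K Top.card hr1 hK hcon)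
  obtain ⟨N0, hN0⟩ := zero_estV S A Top hS hA hT r hr1 h
  have e6 : ∀ᶠ N : ℕ in atTop, 4 * (q : ℝ) < Real.exp (2 * N) := by
    have h2 : Tendsto (fun N : ℕ => Real.exp (2 * (N : ℝ))) atTop atTop :=
      Real.tendsto_exp_atTop.comp
        (tendsto_natCast_atTop_atTop.const_mul_atTop (by norm_num : (0 : ℝ) < 2))
    exact h2.eventually_gt_atTop _
  obtain ⟨N, f1, f2, f3, f4, f5, f6, f7⟩ := (e1.and (e2.and (e3.and ((eventually_ge_atTop N0).and
    (lcmV.and (e6.and (eventually_ge_atTop 2))))))).exists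
  obtain ⟨a, ha, hsm⟩ := f2
  set D : ℕ := Nat.lcmUpto (2 * N) with hD
  have hDpos : 0 < D := Nat.lcmUpto_pos (2 * N)
  set E : ℚ := (q : ℚ) * (D : ℚ) ^ K with hE
  have hEpos : 0 < E := by
    have : (0 : ℚ) < q := by exact_mod_cast hq1
    positivity
  -- the integer coordinates
  have hint : ∀ (i0 : ℕ) (g : Fin (N / 2 + 1) × Top) (p : Fin (N + 1) × A), ∃ m : ℤ,
      E * Φ i0 (Lv N p.1 p.2 g.1 g.2) = m ∧ |(m : ℝ)| ≤ Real.exp (((3 * K + 4 : ℕ) : ℝ) * N) := by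
    intro i0 g p
    exact (f1 p.1 (by omega) p.2 p.2.2 g.1 (by omega) g.2 (hT _ g.2.2).1).2 i0
  choose M hM1 hM2 using hint
  have hLphi : ∀ (i0 : ℕ) (g : Fin (N / 2 + 1) × Top) (p : Fin (N + 1) × A),
      Φ i0 (Lv N p.1 p.2 g.1 g.2) =
        LC N (fun j => Φ i0 (ct (g.2 : List ℕ) (p.2 : List ℕ) j)) p.1 g.1 := by
    intro i0 g p
    exact Lv_phi (Φ i0) N p.1 p.2 g.2 (hA.2.1 _ p.2.2) (hS.2.1 _ (hT _ g.2.2).1) g.1 (by omega)
  -- the zero estimate
  have hZ : ∀ (c1 : Fin (r - 1) × (Fin (N / 2 + 1) × Top) → ℚ) (c2 : Fin (N / 2 + 1) × Top → ℚ),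
      (∀ p : Fin (N + 1) × A, ∑ i, c1 i * ((M ((i.1 : ℕ) + 1) i.2 p : ℤ) : ℚ) +
        ∑ g, c2 g * ((M 0 g p : ℤ) : ℚ) = 0) → c2 = 0 := by
    intro c1 c2 hrel
    have hmain := hN0 N f4 (fun i v α j => Φ i (ct v α j))
      (fun i _ => by
        have := ct_recV (Φ i)
        rw [hΦ1 i] at this
        exact this) (vkey_x c1 c2) (by
        intro k hk α hα
        have hx := vkey_xsum c1 c2 (fun i i' v => LC N (fun j => Φ i (ct v α j)) k i')
        rw [show r - 1 + 1 = r by omega] at hx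
        refine hx.trans ?_
        have hp := hrel (⟨k, by omega⟩, ⟨α, hα⟩)
        have hEne : E ≠ 0 := hEpos.ne'
        apply mul_left_cancel₀ hEne
        rw [mul_zero, ← hp, mul_add, Finset.mul_sum, Finset.mul_sum]
        congr 1
        · refine Finset.sum_congr rfl fun i _ => ?_
          rw [← hM1 ((i.1 : ℕ) + 1) i.2 (⟨k, by omega⟩, ⟨α, hα⟩),
            hLphi ((i.1 : ℕ) + 1) i.2 (⟨k, by omega⟩, ⟨α, hα⟩)]
          ring
        · refine Finset.sum_congr rfl fun g _ => ?_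
          rw [← hM1 0 g (⟨k, by omega⟩, ⟨α, hα⟩), hLphi 0 g (⟨k, by omega⟩, ⟨α, hα⟩)]
          ring)
    funext g
    have h2 := hmain g.1 (by omega) g.2 g.2.2
    have h3 : vkey_x c1 c2 0 (g.1 : ℕ) (g.2 : List ℕ) = c2 g := vkey_ext_val c2 g
    rw [h3] at h2
    exact h2
  -- the box principle
  have hQ0 : (1 : ℝ) ≤ Real.exp (((3 * K + 4 : ℕ) : ℝ) * N) := Real.one_le_exp (by positivity)
  have hcardCol : Fintype.card (Fin (N + 1) × A) = (N + 1) * A.card := by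
    rw [Fintype.card_prod, Fintype.card_fin, Fintype.card_coe]
  have hcard2 : Fintype.card (Fin (N / 2 + 1) × Top) = (N / 2 + 1) * Top.card := by
    rw [Fintype.card_prod, Fintype.card_fin, Fintype.card_coe]
  have hcard1 : Fintype.card (Fin (r - 1) × (Fin (N / 2 + 1) × Top)) =
      (r - 1) * ((N / 2 + 1) * Top.card) := by
    rw [Fintype.card_prod, Fintype.card_fin, hcard2]
  obtain ⟨y, hy1, hy2, ⟨g, hg⟩, hy4⟩ := pig_V
    (fun (i : Fin (r - 1) × (Fin (N / 2 + 1) × Top)) (p : Fin (N + 1) × A) => M ((i.1 : ℕ) + 1) i.2 p)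
    (fun g p => M 0 g p) hZ (Finset.range (2 * (Dl + 2 * κ + 10) * N)) a
    ⌊Real.exp (κ * N)⌋₊ ⌊Real.exp (((3 * K + 4 : ℕ) : ℝ) * N)⌋₊
    (M0 := 2 * ((Dl + 2 * κ + 10 : ℕ) : ℝ) * ((N : ℝ) + 1))
    (ε := Real.exp (-(((Dl + κ + 10 : ℕ) : ℝ) * N))) (by positivity) (Real.exp_pos _)
    (fun p k hk => (ha p k (Finset.mem_range.1 hk)).1)
    (fun p k hk => (ha p k (Finset.mem_range.1 hk)).2)
    (by
      intro i p
      have h2 := hM2 ((i.1 : ℕ) + 1) i.2 p
      have h3 : ((M ((i.1 : ℕ) + 1) i.2 p).natAbs : ℝ) ≤ Real.exp (((3 * K + 4 : ℕ) : ℝ) * N) := by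
        rw [Nat.cast_natAbs, Int.cast_abs]
        exact h2
      have h4 := Nat.le_floor h3
      rw [Int.abs_eq_natAbs]
      exact_mod_cast h4)
    (by
      have h2 : 1 ≤ ⌊Real.exp (((3 * K + 4 : ℕ) : ℝ) * N)⌋₊ := by
        apply Nat.le_floor
        simpa using hQ0
      have h3 : 1 ≤ Fintype.card (Fin (N + 1) × A) := by
        rw [hcardCol]
        exact Nat.one_le_iff_ne_zero.2 (by positivity)
      calc 1 = 1 * 1 := rfl
        _ ≤ _ := Nat.mul_le_mul h3 h2)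
    (by
      rw [hcardCol, hcard1, hcard2, Finset.card_range]
      exact f3)
  -- the functions are small
  have hy1' : ∀ p, |(y p : ℝ)| ≤ Real.exp (κ * N) := by
    intro p
    have h2 : ((|y p| : ℤ) : ℝ) ≤ ((⌊Real.exp (κ * N)⌋₊ : ℤ) : ℝ) := by exact_mod_cast hy1 p
    rw [Int.cast_abs] at h2
    refine h2.trans ?_
    have := Nat.floor_le (Real.exp_pos ((κ : ℝ) * N)).le
    exact_mod_cast this
  have hsm1 := hsm y hy1' (fun k hk => hy4 k (Finset.mem_range.2 hk)) g.1 (by omega)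
  have hL := Lv_sum A hA.2.1 N y g.1 (by omega) g.2 (hS.2.1 _ (hT _ g.2.2).1)
    (Real.exp (-((Dl : ℝ) * N))) (Real.exp_pos _).le hsm1
  set Λ : ℝ := ∑ p, (y p : ℝ) * Lv N p.1 p.2 g.1 g.2 with hΛ
  have hmem : Λ ∈ HU U := by
    rw [hΛ]
    refine Submodule.sum_mem _ fun p _ => ?_
    have h2 := (f1 p.1 (by omega) p.2 p.2.2 g.1 (by omega) g.2 (hT _ g.2.2).1).1
    have h3 : (y p : ℝ) * Lv N p.1 p.2 g.1 g.2 = ((y p : ℚ)) • Lv N p.1 p.2 g.1 g.2 := by
      rw [Rat.smul_def]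
      push_cast
      rfl
    rw [h3]
    exact Submodule.smul_mem _ _ h2
  have hcoord : ∀ i0, E * Φ i0 Λ = ((∑ p, M i0 g p * y p : ℤ) : ℚ) := by
    intro i0
    rw [hΛ, map_sum, Finset.mul_sum]
    push_cast
    refine Finset.sum_congr rfl fun p _ => ?_
    have h3 : (y p : ℝ) * Lv N p.1 p.2 g.1 g.2 = ((y p : ℚ)) • Lv N p.1 p.2 g.1 g.2 := by
      rw [Rat.smul_def]
      push_cast
      rfl
    rw [h3, map_smul, smul_eq_mul, ← hM1 i0 g p]
    ring
  have hzero : ∀ i, 1 ≤ i → i < r → Φ i Λ = 0 := by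
    intro i hi1 hi2
    have h2 := hcoord i
    have h3 : ∑ p, M i g p * y p = 0 := by
      have h4 := hy2 (⟨i - 1, by omega⟩, g)
      have h5 : i - 1 + 1 = i := by omega
      simp only [h5] at h4
      exact h4
    rw [h3, Int.cast_zero] at h2
    exact (mul_eq_zero.1 h2).resolve_left hEpos.ne'
  have hrat := hΦs' Λ hmem hzero
  have h0 := hcoord 0
  have hne : (1 : ℝ) ≤ |((∑ p, M 0 g p * y p : ℤ) : ℝ)| := by
    have h2 : (∑ p, M 0 g p * y p : ℤ) ≠ 0 := hg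
    have h3 := Int.one_le_abs h2
    exact_mod_cast h3
  have h0' : (E : ℝ) * Λ = ((∑ p, M 0 g p * y p : ℤ) : ℝ) := by
    have h2 : ((E * Φ 0 Λ : ℚ) : ℝ) = (((∑ p, M 0 g p * y p : ℤ) : ℚ) : ℝ) := by rw [h0]
    rw [hrat]
    rw [Rat.cast_mul] at h2
    rw [h2]
    norm_cast
  rw [← h0', abs_mul] at hne
  have hEle : |((E : ℚ) : ℝ)| ≤ q * Real.exp (3 * K * N) := by
    have hEr : ((E : ℚ) : ℝ) = (q : ℝ) * (D : ℝ) ^ K := by
      rw [hE]
      push_cast
      rfl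
    rw [hEr, abs_of_nonneg (by positivity)]
    apply mul_le_mul_of_nonneg_left _ (Nat.cast_nonneg q)
    calc (D : ℝ) ^ K ≤ Real.exp (3 * N) ^ K := pow_le_pow_left₀ (Nat.cast_nonneg _) f5 K
      _ = Real.exp (3 * K * N) := by
        rw [← Real.exp_nat_mul]
        congr 1
        ring
  have hfin : (1 : ℝ) ≤ (q * Real.exp (3 * K * N)) * (4 * Real.exp (-((Dl : ℝ) * N))) :=
    hne.trans (mul_le_mul hEle hL (abs_nonneg _) (by positivity))
  have h8 : Real.exp (3 * K * N) * Real.exp (-((Dl : ℝ) * N)) * Real.exp (2 * N) = 1 := by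
    rw [← Real.exp_add, ← Real.exp_add, hDl]
    have : (3 * (K : ℝ) * N + -(((3 * K + 2 : ℕ) : ℝ) * N) + 2 * N) = 0 := by
      push_cast
      ring
    rw [this, Real.exp_zero]
  have h9 : 0 < Real.exp (3 * K * N) * Real.exp (-((Dl : ℝ) * N)) := by positivity
  have h10 := mul_lt_mul_of_pos_left f6 h9
  rw [h8] at h10
  nlinarith

end Pool.MZExp
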