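import Pool.Agent.Lib.MZExp.XGrow
import Pool.Agent.Lib.MZDim.CDefs

/-! MP_c511df_nt (Zagier's identity `a_k = D_k - D_(k-2)`): the right side. `D_k = dimD k` is the
dimension exactly as in the frozen statement S18415. -/

open Finset

namespace Pool.MZExp

theorem ZT_eq (k : ℕ) : ZT k = Pool.MZDim.Zk k := by
  unfold ZT Pool.MZDim.Zk
  congr 1
  ext x
  constructor
  · rintro ⟨l, ⟨⟨h1, h2⟩, h3⟩, rfl⟩
    refine ⟨l.reverse, ⟨fun a ha => h1 a (List.mem_reverse.1 ha), fun a ha => h2 a ?_, ?_⟩, ?_⟩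
    · rw [List.head?_reverse] at ha
      exact ha
    · rw [List.sum_reverse, h3]
    · rw [Pool.MZDim.mzv_eq]
      unfold Pool.MZDim.zv
      rw [List.reverse_reverse]
  · rintro ⟨s, ⟨h1, h2, h3⟩, rfl⟩
    refine ⟨s.reverse, ⟨⟨fun a ha => h1 a (List.mem_reverse.1 ha), fun a ha => h2 a ?_⟩, ?_⟩, ?_⟩
    · rw [List.getLast?_reverse] at ha
      exact ha
    · rw [List.sum_reverse, h3]
    · rw [Pool.MZDim.mzv_eq]
      rfl

/-- `2^k ≤ 4718592 k^6 D_k^4`, i.e. `D_k ≥ 2^(k/4) / (47 k^(3/2))`, for all `k ≥ 2` -/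
theorem dimD_int {k : ℕ} (hk : 2 ≤ k) : 2 ^ k ≤ 4718592 * k ^ 6 * Pool.MZDim.dimD k ^ 4 := by
  rw [Pool.MZDim.dimD_eq, ← ZT_eq]
  exact dim_int hk

theorem dimD_real {k : ℕ} (hk : 2 ≤ k) :
    (2 : ℝ) ^ ((k : ℝ) / 4) ≤ 47 * (k : ℝ) ^ ((3 : ℝ) / 2) * (Pool.MZDim.dimD k : ℝ) := by
  rw [Pool.MZDim.dimD_eq, ← ZT_eq]
  exact dim_real hk

theorem two_le_dimD {k : ℕ} (hk : 58 ≤ k) : 2 ≤ Pool.MZDim.dimD k := by
  rw [Pool.MZDim.dimD_eq, ← ZT_eq]
  exact dim_ge_two hk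

/-- a sequence with `D_k ≥ 2^(k/4)/poly(k)` has jumps `D_k - D_(k-2) ≥ 2^(k/5)` for infinitely many
`k` of each parity -/
theorem exists_jump {D : ℕ → ℕ} (h : ∀ k, 2 ≤ k → 2 ^ k ≤ 4718592 * k ^ 6 * D k ^ 4) (e n : ℕ)
    (he : e < 2) :
    ∃ k, n ≤ k ∧ 2 ≤ k ∧ k % 2 = e ∧ (D (k - 2) : ℝ) + 2 ^ ((k : ℝ) / 5) ≤ D k := by
  by_contra hcon
  push Not at hcon
  set n0 := n + 1 with hn0
  have key : ∀ j : ℕ, (D (2 * (n0 + j) + e) : ℝ) ≤
      D (2 * n0 + e) + j * 2 ^ (((2 * (n0 + j) + e : ℕ) : ℝ) / 5) := by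
    intro j
    induction j with
    | zero => simp
    | succ j ih =>
      have h1 := hcon (2 * (n0 + (j + 1)) + e) (by omega) (by omega) (by omega)
      have h2 : 2 * (n0 + (j + 1)) + e - 2 = 2 * (n0 + j) + e := by omega
      rw [h2] at h1
      have h3 : (2 : ℝ) ^ (((2 * (n0 + j) + e : ℕ) : ℝ) / 5) ≤
          2 ^ (((2 * (n0 + (j + 1)) + e : ℕ) : ℝ) / 5) := by
        apply Real.rpow_le_rpow_of_exponent_le (by norm_num)
        apply div_le_div_of_nonneg_right _ (by norm_num)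
        exact_mod_cast (by omega : 2 * (n0 + j) + e ≤ 2 * (n0 + (j + 1)) + e)
      have h4 : (0 : ℝ) ≤ j := Nat.cast_nonneg j
      have h5 := mul_le_mul_of_nonneg_left h3 h4
      push_cast at h1 h3 h5 ih ⊢
      nlinarith
  -- choose `j` large
  set C : ℕ := D (2 * n0 + e) with hC
  -- `D k ≤ (C + k) 2^(k/5)`, so `2^k ≤ 4718592 k^6 (C + k)^4 2^(4k/5)`
  have key2 : ∀ j : ℕ, 1 ≤ j → ∀ k : ℕ, k = 2 * (n0 + j) + e →
      (2 : ℝ) ^ ((k : ℝ) / 5) ≤ 4718592 * (k : ℝ) ^ 6 * ((C : ℝ) + k) ^ 4 := by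
    intro j hj k hk
    have h1 := key j
    rw [← hk] at h1
    have h2 := h k (by omega)
    have h3 : (2 : ℝ) ^ k ≤ 4718592 * (k : ℝ) ^ 6 * (D k : ℝ) ^ 4 := by exact_mod_cast h2
    set E : ℝ := (2 : ℝ) ^ ((k : ℝ) / 5) with hE
    have hE0 : 0 < E := by positivity
    have hE1 : 1 ≤ E := by
      rw [hE]
      exact Real.one_le_rpow (by norm_num) (by positivity)
    have hE5 : E ^ 5 = 2 ^ k := by
      rw [hE, ← Real.rpow_natCast ((2 : ℝ) ^ ((k : ℝ) / 5)) 5, ← Real.rpow_mul (by norm_num),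
        ← Real.rpow_natCast (2 : ℝ) k]
      congr 1
      push_cast
      ring
    have hjk : (j : ℝ) ≤ k := by exact_mod_cast (by omega : j ≤ k)
    have hC0 : (0 : ℝ) ≤ C := Nat.cast_nonneg _
    have h4 : (D k : ℝ) ≤ ((C : ℝ) + k) * E := by nlinarith
    have h5 : (D k : ℝ) ^ 4 ≤ (((C : ℝ) + k) * E) ^ 4 :=
      pow_le_pow_left₀ (Nat.cast_nonneg _) h4 4
    have h6 : E ^ 5 ≤ 4718592 * (k : ℝ) ^ 6 * (((C : ℝ) + k) ^ 4 * E ^ 4) := by
      rw [hE5]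
      refine h3.trans ?_
      have h7 : (0 : ℝ) ≤ 4718592 * (k : ℝ) ^ 6 := by positivity
      calc 4718592 * (k : ℝ) ^ 6 * (D k : ℝ) ^ 4
          ≤ 4718592 * (k : ℝ) ^ 6 * (((C : ℝ) + k) * E) ^ 4 := mul_le_mul_of_nonneg_left h5 h7
        _ = _ := by ring
    have h8 : E * E ^ 4 ≤ (4718592 * (k : ℝ) ^ 6 * ((C : ℝ) + k) ^ 4) * E ^ 4 := by
      calc E * E ^ 4 = E ^ 5 := by ring
        _ ≤ _ := h6
        _ = _ := by ring
    exact le_of_mul_le_mul_right h8 (by positivity)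
  -- contradiction for large `k`
  have hlim : Filter.Tendsto (fun x : ℝ => 4718592 * x ^ 6 * ((C : ℝ) + x) ^ 4 *
      Real.exp (-(Real.log 2 / 5) * x)) Filter.atTop (nhds 0) := by
    have hb : 0 < Real.log 2 / 5 := by
      have := Real.log_pos (by norm_num : (1 : ℝ) < 2)
      positivity
    have hp : ∀ m : ℕ, Filter.Tendsto (fun x : ℝ => x ^ m * Real.exp (-(Real.log 2 / 5) * x))
        Filter.atTop (nhds 0) := by
      intro m
      have h1 := (Real.tendsto_pow_mul_exp_neg_atTop_nhds_zero m).comp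
        (Filter.Tendsto.const_mul_atTop hb Filter.tendsto_id)
      have h2 := h1.const_mul ((Real.log 2 / 5) ^ m)⁻¹
      rw [mul_zero] at h2
      refine h2.congr fun x => ?_
      simp only [Function.comp, id]
      rw [mul_pow]
      field_simp
    have h1 : (fun x : ℝ => 4718592 * x ^ 6 * ((C : ℝ) + x) ^ 4 *
        Real.exp (-(Real.log 2 / 5) * x)) = fun x : ℝ =>
        4718592 * (C : ℝ) ^ 4 * (x ^ 6 * Real.exp (-(Real.log 2 / 5) * x)) +
        4718592 * 4 * (C : ℝ) ^ 3 * (x ^ 7 * Real.exp (-(Real.log 2 / 5) * x)) +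
        4718592 * 6 * (C : ℝ) ^ 2 * (x ^ 8 * Real.exp (-(Real.log 2 / 5) * x)) +
        4718592 * 4 * (C : ℝ) * (x ^ 9 * Real.exp (-(Real.log 2 / 5) * x)) +
        4718592 * (x ^ 10 * Real.exp (-(Real.log 2 / 5) * x)) := by
      funext x
      ring
    rw [h1]
    have h2 := ((((hp 6).const_mul (4718592 * (C : ℝ) ^ 4)).add
      ((hp 7).const_mul (4718592 * 4 * (C : ℝ) ^ 3))).add
      ((hp 8).const_mul (4718592 * 6 * (C : ℝ) ^ 2))).add
      ((hp 9).const_mul (4718592 * 4 * (C : ℝ))) |>.add ((hp 10).const_mul 4718592)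
    simpa using h2
  have h9 := (hlim.comp tendsto_natCast_atTop_atTop).eventually (gt_mem_nhds (zero_lt_one' ℝ))
  obtain ⟨k0, hk0⟩ := Filter.eventually_atTop.1 h9
  have h10 := key2 (k0 + 1) (by omega) (2 * (n0 + (k0 + 1)) + e) rfl
  have h11 := hk0 (2 * (n0 + (k0 + 1)) + e) (by omega)
  simp only [Function.comp] at h11
  set K : ℝ := ((2 * (n0 + (k0 + 1)) + e : ℕ) : ℝ) with hK
  have h12 : (2 : ℝ) ^ (K / 5) = Real.exp (Real.log 2 / 5 * K) := by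
    rw [Real.rpow_def_of_pos (by norm_num)]
    congr 1
    ring
  rw [h12] at h10
  have h13 : Real.exp (Real.log 2 / 5 * K) * Real.exp (-(Real.log 2 / 5) * K) = 1 := by
    rw [← Real.exp_add]
    ring_nf
    exact Real.exp_zero
  have h14 : 0 < Real.exp (-(Real.log 2 / 5) * K) := Real.exp_pos _
  nlinarith

/-- `D_k - D_(k-2) ≥ 2^(k/5)` for infinitely many `k` of each parity -/
theorem dimD_jump (e n : ℕ) (he : e < 2) : ∃ k, n ≤ k ∧ 2 ≤ k ∧ k % 2 = e ∧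
    (Pool.MZDim.dimD (k - 2) : ℝ) + 2 ^ ((k : ℝ) / 5) ≤ Pool.MZDim.dimD k :=
  exists_jump (fun _ hk => dimD_int hk) e n he

end Pool.MZExp
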