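import Pool.Agent.Lib.MZExp.Defs
import Pool.Agent.Lib.MZExp.ZDefs
import Pool.Agent.Lib.MZDim.RTel
import Pool.Agent.Lib.MZDim.RPf

/-! MODULE CcRec (E6). Exponential growth (MP_301213_nt): the shift recursion of the numbers `c_j(α,v)`.

With `t = M + 1`: `h_(a::l)(t+1) = h_(a::l)(t) + t^(-a) h_l(t)`; so
`∑_t F(t) (1/(t+j) - 1/t) = F(1) (1/(1+j) - 1) + ∑_t F(t+1) (1/(t+1+j) - 1/(t+1))`, and in the terms
`t^(-m) G(t) (1/(t+1+j) - 1/(t+1))` of the last sum the partial fractions of `t^(-m)/(t+j+1)` give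
`(-1/(j+1))^m c_(j+1)(G)` plus a polynomial in `1/(j+1)`. -/

open HofPers Finset Pool.MZDim

namespace Pool.MZExp

/-- `∑_t G(t) t^(-i)`, `G = h_p h_q` -/
noncomputable def GZ (p q : List ℕ) (i : ℕ) : ℝ :=
  ∑' M : ℕ, sR p M * sR q M * (((M : ℝ) + 1) ^ i)⁻¹

/-- the constant term -/
noncomputable def Ge (p q : List ℕ) (m : ℕ) : ℝ :=
  ∑' M : ℕ, sR p M * sR q M *
    ((if m = 0 then ((M : ℝ) + 1)⁻¹ else 0) - (((M : ℝ) + 1) ^ m)⁻¹ * ((M : ℝ) + 2)⁻¹)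

private theorem base2 : Summable fun M : ℕ => (((M : ℝ) + 1) ^ 2)⁻¹ := by
  have h := (summable_nat_add_iff 1).2 (Real.summable_nat_pow_inv.2 one_lt_two)
  refine h.congr fun M => ?_
  push_cast
  rfl

private theorem summ_G {p q : List ℕ} (hp : Adm p) (hq : Adm q) (r : ℕ → ℝ) (K : ℝ)
    (hr : ∀ M : ℕ, |r M| ≤ K * (((M : ℝ) + 1) ^ 2)⁻¹) :
    Summable fun M : ℕ => sR p M * sR q M * r M := by
  refine Summable.of_norm_bounded (base2.mul_left (zv p * zv q * K)) fun M => ?_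
  rw [Real.norm_eq_abs, abs_mul, abs_mul, abs_of_nonneg (sR_nonneg p M),
    abs_of_nonneg (sR_nonneg q M), mul_assoc (zv p * zv q)]
  have h1 := sR_le_zv hp M
  have h2 := sR_le_zv hq M
  have h3 := sR_nonneg p M
  have h4 := sR_nonneg q M
  have h5 := (zv_pos hp).le
  exact mul_le_mul (mul_le_mul h1 h2 h4 h5) (hr M) (abs_nonneg _) (mul_nonneg h5 (zv_pos hq).le)

private theorem inv_pow_le (M : ℕ) {i : ℕ} (hi : 2 ≤ i) :
    |(((M : ℝ) + 1) ^ i)⁻¹| ≤ 1 * (((M : ℝ) + 1) ^ 2)⁻¹ := by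
  have hM : (0 : ℝ) ≤ M := Nat.cast_nonneg M
  rw [abs_of_nonneg (by positivity), one_mul]
  exact inv_anti₀ (by positivity) (pow_le_pow_right₀ (by linarith) hi)

private theorem e_le (M m : ℕ) :
    |(if m = 0 then ((M : ℝ) + 1)⁻¹ else 0) - (((M : ℝ) + 1) ^ m)⁻¹ * ((M : ℝ) + 2)⁻¹| ≤
      1 * (((M : ℝ) + 1) ^ 2)⁻¹ := by
  have hM : (0 : ℝ) ≤ M := Nat.cast_nonneg M
  by_cases hm : m = 0
  · subst hm
    rw [if_pos rfl, pow_zero, inv_one, one_mul, one_mul]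
    have e : ((M : ℝ) + 1)⁻¹ - ((M : ℝ) + 2)⁻¹ = (((M : ℝ) + 1) * ((M : ℝ) + 2))⁻¹ := by
      field_simp
      ring
    rw [e, abs_of_nonneg (by positivity)]
    exact inv_anti₀ (by positivity) (by nlinarith)
  · rw [if_neg hm, zero_sub, abs_neg, abs_of_nonneg (by positivity), one_mul, ← mul_inv]
    refine inv_anti₀ (by positivity) ?_
    rw [sq]
    refine mul_le_mul ?_ (by linarith) (by positivity) (by positivity)
    exact le_self_pow₀ (by linarith) hm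

private theorem c_le (M j : ℕ) :
    |((M : ℝ) + 1 + j)⁻¹ - ((M : ℝ) + 1)⁻¹| ≤ j * (((M : ℝ) + 1) ^ 2)⁻¹ := by
  have hM : (0 : ℝ) ≤ M := Nat.cast_nonneg M
  have hj : (0 : ℝ) ≤ j := Nat.cast_nonneg j
  have e : ((M : ℝ) + 1 + j)⁻¹ - ((M : ℝ) + 1)⁻¹ =
      -(j * (((M : ℝ) + 1 + j) * ((M : ℝ) + 1))⁻¹) := by
    field_simp
    ring
  rw [e, abs_neg, abs_of_nonneg (by positivity)]
  refine mul_le_mul_of_nonneg_left (inv_anti₀ (by positivity) ?_) hj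
  nlinarith

private theorem key_M (m j M : ℕ) :
    (((M : ℝ) + 1) ^ m)⁻¹ * (((M : ℝ) + 2 + j)⁻¹ - ((M : ℝ) + 2)⁻¹) =
      (-((j : ℝ) + 1)⁻¹) ^ m * (((M : ℝ) + 1 + (j + 1 : ℕ))⁻¹ - ((M : ℝ) + 1)⁻¹) +
      (∑ i ∈ Ico 1 m, (-1) ^ (m - 1 - i) * (((j : ℝ) + 1)⁻¹) ^ (m - i) *
        (((M : ℝ) + 1) ^ (i + 1))⁻¹) +
      ((if m = 0 then ((M : ℝ) + 1)⁻¹ else 0) - (((M : ℝ) + 1) ^ m)⁻¹ * ((M : ℝ) + 2)⁻¹) := by
  have hM : (0 : ℝ) < (M : ℝ) + 1 := by positivity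
  have hv : (0 : ℝ) < (j : ℝ) + 1 := by positivity
  have h1 := pf_one m hM hv
  have e1 : (M : ℝ) + 2 + j = (M : ℝ) + 1 + ((j : ℝ) + 1) := by ring
  have e2 : (M : ℝ) + 1 + (j + 1 : ℕ) = (M : ℝ) + 1 + ((j : ℝ) + 1) := by push_cast; ring
  rw [e1, e2, mul_sub, h1]
  rcases m with _ | k
  · simp
  · rw [Finset.range_eq_Ico, Finset.sum_eq_sum_Ico_succ_bot (by omega), if_neg (by omega)]
    have h2 : ∀ i, (((j : ℝ) + 1) ^ i)⁻¹ = (((j : ℝ) + 1)⁻¹) ^ i := fun i => (inv_pow _ _).symm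
    simp only [h2, Nat.add_sub_cancel, Nat.sub_zero, zero_add, pow_one]
    have h3 : (-((j : ℝ) + 1)⁻¹) ^ (k + 1) = (-1) ^ (k + 1) * (((j : ℝ) + 1)⁻¹) ^ (k + 1) := by
      rw [← mul_pow]; ring
    rw [h3, pow_succ (-1 : ℝ) k]
    ring

/-- the shift of one term -/
private theorem key_sum {p q : List ℕ} (hp : Adm p) (hq : Adm q) (m j : ℕ) :
    HasSum (fun M : ℕ => (((M : ℝ) + 1) ^ m)⁻¹ * (sR p M * sR q M) *
        (((M : ℝ) + 2 + j)⁻¹ - ((M : ℝ) + 2)⁻¹))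
      ((-((j : ℝ) + 1)⁻¹) ^ m * cc p q (j + 1) +
        (∑ i ∈ Ico 1 m, (-1) ^ (m - 1 - i) * (((j : ℝ) + 1)⁻¹) ^ (m - i) * GZ p q (i + 1)) +
        Ge p q m) := by
  have h1 : HasSum (fun M : ℕ => sR p M * sR q M *
      (((M : ℝ) + 1 + (j + 1 : ℕ))⁻¹ - ((M : ℝ) + 1)⁻¹)) (cc p q (j + 1)) :=
    (summ_G hp hq _ _ fun M => c_le M (j + 1)).hasSum
  have h2 : ∀ i ∈ Ico 1 m, HasSum (fun M : ℕ => (-1) ^ (m - 1 - i) * (((j : ℝ) + 1)⁻¹) ^ (m - i) *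
      (sR p M * sR q M * (((M : ℝ) + 1) ^ (i + 1))⁻¹))
      ((-1) ^ (m - 1 - i) * (((j : ℝ) + 1)⁻¹) ^ (m - i) * GZ p q (i + 1)) := by
    intro i hi
    refine HasSum.mul_left _ ?_
    have hi1 := (Finset.mem_Ico.1 hi).1
    exact (summ_G hp hq _ _ fun M => inv_pow_le M (by omega : 2 ≤ i + 1)).hasSum
  have h3 : HasSum (fun M : ℕ => sR p M * sR q M *
      ((if m = 0 then ((M : ℝ) + 1)⁻¹ else 0) - (((M : ℝ) + 1) ^ m)⁻¹ * ((M : ℝ) + 2)⁻¹))
      (Ge p q m) := (summ_G hp hq _ _ fun M => e_le M m).hasSum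
  have h4 := ((h1.mul_left ((-((j : ℝ) + 1)⁻¹) ^ m)).add (hasSum_sum h2)).add h3
  have h5 : (fun M : ℕ => (((M : ℝ) + 1) ^ m)⁻¹ * (sR p M * sR q M) *
      (((M : ℝ) + 2 + j)⁻¹ - ((M : ℝ) + 2)⁻¹)) = fun M : ℕ =>
      (-((j : ℝ) + 1)⁻¹) ^ m * (sR p M * sR q M *
      (((M : ℝ) + 1 + (j + 1 : ℕ))⁻¹ - ((M : ℝ) + 1)⁻¹)) +
      (∑ i ∈ Ico 1 m, (-1) ^ (m - 1 - i) * (((j : ℝ) + 1)⁻¹) ^ (m - i) *
      (sR p M * sR q M * (((M : ℝ) + 1) ^ (i + 1))⁻¹)) +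
      sR p M * sR q M *
      ((if m = 0 then ((M : ℝ) + 1)⁻¹ else 0) - (((M : ℝ) + 1) ^ m)⁻¹ * ((M : ℝ) + 2)⁻¹) := by
    funext M
    have h6 : (((M : ℝ) + 1) ^ m)⁻¹ * (sR p M * sR q M) *
      (((M : ℝ) + 2 + j)⁻¹ - ((M : ℝ) + 2)⁻¹) = (sR p M * sR q M) * ((((M : ℝ) + 1) ^ m)⁻¹ *
      (((M : ℝ) + 2 + j)⁻¹ - ((M : ℝ) + 2)⁻¹)) := by ring
    rw [h6, key_M, mul_add, mul_add, Finset.mul_sum]
    congr 1
    congr 1
    · ring
    · refine Finset.sum_congr rfl fun i _ => ?_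
      ring
  rw [h5]
  exact h4

/-- the first step of the recursion: the shift `t ↦ t + 1` -/
private theorem cc_shift {l v : List ℕ} (hl : Adm l) (hv : Adm v) (j : ℕ) :
    cc l v j = sR l 0 * sR v 0 * (((j : ℝ) + 1)⁻¹ - 1) +
      ∑' M : ℕ, sR l (M + 1) * sR v (M + 1) * (((M : ℝ) + 2 + j)⁻¹ - ((M : ℝ) + 2)⁻¹) := by
  have hs : Summable fun M : ℕ => sR l M * sR v M * (((M : ℝ) + 1 + j)⁻¹ - ((M : ℝ) + 1)⁻¹) :=
    summ_G hl hv _ _ fun M => c_le M j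
  rw [cc, hs.tsum_eq_zero_add]
  congr 1
  · norm_num [add_comm]
  · refine tsum_congr fun M => ?_
    push_cast
    have e1 : (M : ℝ) + 1 + 1 + j = (M : ℝ) + 2 + j := by ring
    have e2 : (M : ℝ) + 1 + 1 = (M : ℝ) + 2 := by ring
    rw [e1, e2]

/-- the polynomial in `1/(j+1)` of one term -/
noncomputable def Rm (φ : ℝ →ₗ[ℚ] ℚ) (p q : List ℕ) (m : ℕ) : Polynomial ℚ :=
  (∑ i ∈ Ico 1 m, Polynomial.C ((-1) ^ (m - 1 - i) * φ (GZ p q (i + 1))) *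
    Polynomial.X ^ (m - i)) + Polynomial.C (φ (Ge p q m))

private theorem Rm_deg (φ : ℝ →ₗ[ℚ] ℚ) (p q : List ℕ) (m : ℕ) : (Rm φ p q m).natDegree ≤ m := by
  unfold Rm
  refine (Polynomial.natDegree_add_le _ _).trans (max_le ?_ ?_)
  · refine Polynomial.natDegree_sum_le_of_forall_le _ _ fun i _ => ?_
    exact (Polynomial.natDegree_C_mul_X_pow_le _ _).trans (by omega)
  · rw [Polynomial.natDegree_C]
    omega

private theorem phi_mul (φ : ℝ →ₗ[ℚ] ℚ) (r : ℚ) (x : ℝ) : φ ((r : ℝ) * x) = r * φ x := by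
  rw [← Rat.smul_def, φ.map_smul, smul_eq_mul]

/-- the value of one term under `φ` -/
private theorem phi_term (φ : ℝ →ₗ[ℚ] ℚ) (p q : List ℕ) (m j : ℕ) :
    φ ((-((j : ℝ) + 1)⁻¹) ^ m * cc p q (j + 1) +
        (∑ i ∈ Ico 1 m, (-1) ^ (m - 1 - i) * (((j : ℝ) + 1)⁻¹) ^ (m - i) * GZ p q (i + 1)) +
        Ge p q m) =
      (-((j : ℚ) + 1)⁻¹) ^ m * φ (cc p q (j + 1)) + (Rm φ p q m).eval ((j : ℚ) + 1)⁻¹ := by
  rw [map_add, map_add, map_sum, Rm, Polynomial.eval_add, Polynomial.eval_finsetSum,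
    Polynomial.eval_C, add_assoc]
  congr 1
  · have := phi_mul φ ((-((j : ℚ) + 1)⁻¹) ^ m) (cc p q (j + 1))
    push_cast at this
    exact this
  · congr 1
    refine Finset.sum_congr rfl fun i _ => ?_
    have := phi_mul φ ((-1) ^ (m - 1 - i) * (((j : ℚ) + 1)⁻¹) ^ (m - i)) (GZ p q (i + 1))
    push_cast at this
    rw [this]
    simp only [Polynomial.eval_mul, Polynomial.eval_C, Polynomial.eval_pow, Polynomial.eval_X]
    ring

/-- the remainder polynomials -/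
noncomputable def RR (φ : ℝ →ₗ[ℚ] ℚ) : List ℕ → List ℕ → Polynomial ℚ
  | [], [] => Polynomial.X
  | a :: l, [] => Rm φ (a :: l) [] 0 + Rm φ l [] a
  | [], b :: v => Rm φ [] (b :: v) 0 + Rm φ [] v b
  | a :: l, b :: v => Rm φ (a :: l) (b :: v) 0 + Rm φ l (b :: v) a + Rm φ (a :: l) v b +
      Rm φ l v (a + b)

private theorem RR_deg (φ : ℝ →ₗ[ℚ] ℚ) (l v : List ℕ) :
    (RR φ l v).natDegree ≤ l.sum + v.sum + 1 := by
  rcases l with _ | ⟨a, l⟩ <;> rcases v with _ | ⟨b, v⟩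
  · simp [RR]
  · simp only [RR, List.sum_nil, List.sum_cons]
    refine (Polynomial.natDegree_add_le _ _).trans (max_le ?_ ?_)
    · exact (Rm_deg _ _ _ _).trans (by omega)
    · exact (Rm_deg _ _ _ _).trans (by omega)
  · simp only [RR, List.sum_nil, List.sum_cons]
    refine (Polynomial.natDegree_add_le _ _).trans (max_le ?_ ?_)
    · exact (Rm_deg _ _ _ _).trans (by omega)
    · exact (Rm_deg _ _ _ _).trans (by omega)
  · simp only [RR, List.sum_cons]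
    refine (Polynomial.natDegree_add_le _ _).trans (max_le ?_ ?_)
    · refine (Polynomial.natDegree_add_le _ _).trans (max_le ?_ ?_)
      · refine (Polynomial.natDegree_add_le _ _).trans (max_le ?_ ?_)
        · exact (Rm_deg _ _ _ _).trans (by omega)
        · exact (Rm_deg _ _ _ _).trans (by omega)
      · exact (Rm_deg _ _ _ _).trans (by omega)
    · exact (Rm_deg _ _ _ _).trans (by omega)

private theorem sR_c0 (c : ℕ) (l : List ℕ) : sR (c :: l) 0 = 0 := by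
  simp [sR, aR]

private theorem adm_nil : Adm [] := fun a ha => absurd ha (by simp)

private theorem Ge_nil : Ge [] [] 0 = 1 := by
  have h1 : Ge [] [] 0 = ∑' M : ℕ, (((M : ℝ) + 1)⁻¹ - (((M + 1 : ℕ) : ℝ) + 1)⁻¹) := by
    refine tsum_congr fun M => ?_
    rw [sR_nil, if_pos rfl, pow_zero, inv_one, one_mul, one_mul, one_mul]
    push_cast
    congr 2
    ring
  have hs : Summable fun M : ℕ => (((M : ℝ) + 1)⁻¹ - (((M + 1 : ℕ) : ℝ) + 1)⁻¹) := by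
    have := summ_G adm_nil adm_nil _ _ fun M => e_le M 0
    refine this.congr fun M => ?_
    rw [sR_nil, if_pos rfl, pow_zero, inv_one, one_mul, one_mul, one_mul]
    push_cast
    congr 2
    ring
  have h2 := hs.hasSum.tendsto_sum_nat
  simp only [Finset.sum_range_sub'] at h2
  have h3 : Filter.Tendsto (fun n : ℕ => (((0 : ℕ) : ℝ) + 1)⁻¹ - ((n : ℝ) + 1)⁻¹) Filter.atTop
      (nhds ((((0 : ℕ) : ℝ) + 1)⁻¹ - 0)) := by
    refine tendsto_const_nhds.sub ?_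
    have := tendsto_one_div_add_atTop_nhds_zero_nat (𝕜 := ℝ)
    simpa using this
  rw [h1, tendsto_nhds_unique h2 h3]
  norm_num

theorem cc_rec (φ : ℝ →ₗ[ℚ] ℚ) (h : φ 1 = 1) : RecC (fun l v j => φ (cc l v j)) := by
  refine ⟨RR φ, by simp [RR], RR_deg φ, ?_⟩
  intro j u v hu hv
  simp only []
  rcases u with _ | ⟨a, l⟩ <;> rcases v with _ | ⟨b, w⟩
  · have h1 := key_sum hu hv 0 j
    have h2 := cc_shift hu hv j
    have h3 : ∑' M : ℕ, sR [] (M + 1) * sR [] (M + 1) * (((M : ℝ) + 2 + j)⁻¹ - ((M : ℝ) + 2)⁻¹) =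
        (-((j : ℝ) + 1)⁻¹) ^ 0 * cc [] [] (j + 1) +
        (∑ i ∈ Ico 1 0, (-1) ^ (0 - 1 - i) * (((j : ℝ) + 1)⁻¹) ^ (0 - i) * GZ [] [] (i + 1)) +
        Ge [] [] 0 := by
      rw [← h1.tsum_eq]
      refine tsum_congr fun M => ?_
      simp [sR_nil]
    rw [h3] at h2
    rw [h2]
    simp only [tp, RR, Polynomial.eval_X, sR_nil, Ge_nil]
    rw [map_add, show Ico 1 0 = (∅ : Finset ℕ) from rfl, Finset.sum_empty, pow_zero, one_mul,
      add_zero, map_add, h]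
    have h5 : φ (((j : ℝ) + 1)⁻¹ - 1) = ((j : ℚ) + 1)⁻¹ - 1 := by
      have := phi_mul φ (((j : ℚ) + 1)⁻¹ - 1) 1
      push_cast at this
      rw [h, mul_one, mul_one] at this
      exact this
    simp only [one_mul]
    rw [h5]
    ring
  · have hw : Adm w := fun x hx => hv x (List.mem_cons_of_mem _ hx)
    have h1 := (key_sum hu hv 0 j).add (key_sum hu hw b j)
    have h2 := cc_shift hu hv j
    have h3 := h1.tsum_eq
    rw [tsum_congr (g := fun M : ℕ => sR [] (M + 1) * sR (b :: w) (M + 1) *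
        (((M : ℝ) + 2 + j)⁻¹ - ((M : ℝ) + 2)⁻¹)) (fun M => by
      rw [sR_nil, sR_nil, sR_cons]
      ring)] at h3
    rw [h3, sR_c0, mul_zero, zero_mul, zero_add] at h2
    rw [h2, map_add, phi_term, phi_term]
    simp only [tp, RR, Polynomial.eval_add]
    ring
  · have hl : Adm l := fun x hx => hu x (List.mem_cons_of_mem _ hx)
    have h1 := (key_sum hu hv 0 j).add (key_sum hl hv a j)
    have h2 := cc_shift hu hv j
    have h3 := h1.tsum_eq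
    rw [tsum_congr (g := fun M : ℕ => sR (a :: l) (M + 1) * sR [] (M + 1) *
        (((M : ℝ) + 2 + j)⁻¹ - ((M : ℝ) + 2)⁻¹)) (fun M => by
      rw [sR_nil, sR_nil, sR_cons]
      ring)] at h3
    rw [h3, sR_c0, zero_mul, zero_mul, zero_add] at h2
    rw [h2, map_add, phi_term, phi_term]
    simp only [tp, RR, Polynomial.eval_add]
    ring
  · have hl : Adm l := fun x hx => hu x (List.mem_cons_of_mem _ hx)
    have hw : Adm w := fun x hx => hv x (List.mem_cons_of_mem _ hx)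
    have h1 := (((key_sum hu hv 0 j).add (key_sum hl hv a j)).add (key_sum hu hw b j)).add
      (key_sum hl hw (a + b) j)
    have h2 := cc_shift hu hv j
    have h3 := h1.tsum_eq
    rw [tsum_congr (g := fun M : ℕ => sR (a :: l) (M + 1) * sR (b :: w) (M + 1) *
        (((M : ℝ) + 2 + j)⁻¹ - ((M : ℝ) + 2)⁻¹)) (fun M => by
      rw [sR_cons, sR_cons, pow_add, mul_inv]
      ring)] at h3
    rw [h3, sR_c0, zero_mul, zero_mul, zero_add] at h2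
    rw [h2, map_add, map_add, map_add, phi_term, phi_term, phi_term, phi_term]
    simp only [tp, RR, Polynomial.eval_add, pow_add]
    ring

end Pool.MZExp
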