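import Pool.Agent.Lib.MZExp.Defs
import Pool.Agent.Lib.MZDim.BBound

/-! MODULE EB (about 150 lines). MP_301213_nt, exponential growth. Bounds of beta_l(t) C(t,i), i ≤ N.

btC i z = ∏_{k < i} (z - k) / i! is the complex extension of bt.
PROOFS.
* btC_nat: (M+1)(M)...(M+2-i)/i! = choose (M+1) i: Nat.descFactorial / `Nat.cast_choose`-type: ∏_{k<i} ((M+1) - k) = descFactorial (M+1) i (also when
  i > M+1: a factor vanishes), Nat.choose_eq_descFactorial_div_factorial, or induction on i with Nat.choose_succ_right_eq; cast to ℂ.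
* btC_diff: a polynomial.
* norm_betaC_btC (i ≤ N, Re z ≥ 1/2): ‖z - k‖ ≤ ‖z + k‖ and ‖z + l + j‖ ≥ ‖z + j‖ for Re z ≥ 0, k, l, j ≥ 0 (compare squares: normSq). So
  ‖betaC N l z * btC i z‖ ≤ (N!/i!) ∏_{k<i} ‖z+k‖ / ∏_{j ≤ N} ‖z+j‖ = (N!/i!) / ∏_{j=i}^{N} ‖z+j‖ ≤ (N!/i!) / ∏_{j=i}^{N} (j + 1/2) (‖z + j‖ ≥ Re z + j ≥ j + 1/2).
  If i = 0 the product is ≥ N!/2 (that is betaC_norm of BBound). If i ≥ 1 it is ≥ ∏_{j=i}^N j = N!/(i-1)!, so the bound is (i-1)!/i! = 1/i ≤ 1.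
  (An easy way: prove ∏_{j=i}^{N} (j+1/2) ≥ N! / (2 i!) by induction on N ≥ i, base N = i: i + 1/2 ≥ 1/2, step factor N + 1 + 1/2 ≥ N + 1.)
* beta_bt_le: the real case z = M + 1 (betaC_nat, btC_nat, nonnegativity).
* beta_bt_tail (i ≤ N): bt i M ≤ (M+1)^i / i! (Nat.choose_le_pow_div) and beta N l M ≤ N! / (M+1)^(N+1); N!/i! ≤ N^(N-i) (Nat.factorial_lt / induction:
  N! = i! * ascFactorial.. ≤ i! N^(N-i), Nat.factorial_mul_pow_sub_le_factorial is the other direction; use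
  `Nat.factorial_le_pow`-like induction on N from i: (N+1)!/i! = (N+1) N!/i! ≤ (N+1) N^(N-i) ≤ (N+1)^(N+1-i)). So the product is ≤ (N/(M+1))^(N-i) / (M+1). -/

open HofPers Finset Pool.MZDim

namespace Pool.MZExp

/-- complex extension of `bt` -/
noncomputable def btC (i : ℕ) (z : ℂ) : ℂ := (∏ k ∈ range i, (z - k)) / (i.factorial : ℂ)

theorem bt_zero (M : ℕ) : bt 0 M = 1 := by
  simp [bt]

theorem bt_nonneg (i M : ℕ) : 0 ≤ bt i M := by
  unfold bt
  positivity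

private theorem eb_desc (n i : ℕ) :
    (∏ k ∈ range i, ((n : ℂ) - k)) = ((n.descFactorial i : ℕ) : ℂ) := by
  induction i with
  | zero => simp
  | succ i ih =>
    rw [Finset.prod_range_succ, ih, Nat.descFactorial_succ, Nat.cast_mul]
    rcases Nat.lt_or_ge n i with h | h
    · have h0 : n.descFactorial i = 0 := Nat.descFactorial_eq_zero_iff_lt.2 h
      rw [h0]
      simp
    · rw [Nat.cast_sub h]
      ring

theorem btC_nat (i M : ℕ) : btC i ((M : ℂ) + 1) = ((bt i M : ℝ) : ℂ) := by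
  unfold btC bt
  have h := eb_desc (M + 1) i
  push_cast at h
  rw [h]
  have h2 : ((M + 1).descFactorial i : ℂ) = (i.factorial : ℂ) * (((M + 1).choose i : ℕ) : ℂ) := by
    rw [Nat.descFactorial_eq_factorial_mul_choose]
    push_cast
    ring
  rw [h2]
  have h3 : (i.factorial : ℂ) ≠ 0 := by
    exact_mod_cast Nat.factorial_ne_zero i
  rw [mul_div_cancel_left₀ _ h3]
  simp

theorem btC_diff (i : ℕ) : Differentiable ℂ (btC i) := by
  unfold btC
  refine Differentiable.div_const ?_ _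
  exact Differentiable.fun_finsetProd fun k _ => (differentiable_id.sub_const _)

private theorem eb_norm_mono {z : ℂ} (hz : 0 ≤ z.re) {a b : ℝ} (h1 : -b ≤ a) (h2 : a ≤ b) :
    ‖z + (a : ℂ)‖ ≤ ‖z + (b : ℂ)‖ := by
  rw [← Real.sqrt_sq (norm_nonneg (z + (a : ℂ))), ← Real.sqrt_sq (norm_nonneg (z + (b : ℂ)))]
  refine Real.sqrt_le_sqrt ?_
  rw [← Complex.normSq_eq_norm_sq, ← Complex.normSq_eq_norm_sq, Complex.normSq_apply,
    Complex.normSq_apply]
  simp only [Complex.add_re, Complex.ofReal_re, Complex.add_im, Complex.ofReal_im, add_zero]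
  have hb : 0 ≤ b := by linarith
  have h3 : a * a ≤ b * b := by nlinarith
  nlinarith [mul_le_mul_of_nonneg_left h2 hz]

private theorem eb_prod (i : ℕ) : ∀ m : ℕ,
    ((i + m).factorial : ℝ) ≤ 2 * (i.factorial : ℝ) * ∏ j ∈ Ico i (i + m + 1), ((j : ℝ) + 1 / 2) := by
  intro m
  induction m with
  | zero =>
    have h1 : Ico i (i + 0 + 1) = {i} := by
      simp
    rw [h1, Finset.prod_singleton, Nat.add_zero]
    have h2 : (0 : ℝ) ≤ i.factorial := Nat.cast_nonneg _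
    have h3 : (0 : ℝ) ≤ i := Nat.cast_nonneg _
    nlinarith [mul_nonneg h2 h3]
  | succ m ih =>
    have h0 : i + (m + 1) + 1 = (i + m + 1) + 1 := by ring
    rw [h0, Finset.prod_Ico_succ_top (by omega)]
    have h1 : (i + (m + 1)).factorial = (i + m + 1) * (i + m).factorial := by
      rw [← Nat.factorial_succ]
      rfl
    rw [h1]
    push_cast
    have h2 : (0 : ℝ) ≤ ((i + m).factorial : ℝ) := Nat.cast_nonneg _
    have h3 : (0 : ℝ) ≤ (i : ℝ) + m + 1 := by positivity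
    calc ((i : ℝ) + m + 1) * ((i + m).factorial : ℝ)
        ≤ ((i : ℝ) + m + 1 + 1 / 2) * ((i + m).factorial : ℝ) := by nlinarith
      _ ≤ ((i : ℝ) + m + 1 + 1 / 2) *
          (2 * (i.factorial : ℝ) * ∏ j ∈ Ico i (i + m + 1), ((j : ℝ) + 1 / 2)) :=
          mul_le_mul_of_nonneg_left ih (by positivity)
      _ = _ := by ring

theorem norm_betaC_btC {N i : ℕ} (hi : i ≤ N) (l : ℕ) {z : ℂ} (hz : 1 / 2 ≤ z.re) :
    ‖betaC N l z * btC i z‖ ≤ 2 := by
  have hz0 : 0 ≤ z.re := by linarith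
  unfold betaC btC
  rw [norm_mul, norm_div, norm_div, norm_prod, norm_prod, Complex.norm_natCast,
    Complex.norm_natCast]
  have hj : ∀ j : ℕ, (j : ℝ) + 1 / 2 ≤ ‖z + (j : ℂ)‖ := by
    intro j
    refine le_trans ?_ ((le_abs_self _).trans (Complex.abs_re_le_norm _))
    rw [Complex.add_re, Complex.natCast_re]
    linarith
  have hjpos : ∀ j : ℕ, 0 < ‖z + (j : ℂ)‖ := by
    intro j
    refine lt_of_lt_of_le ?_ (hj j)
    positivity
  have hP1 : ∏ k ∈ range i, ‖z - (k : ℂ)‖ ≤ ∏ k ∈ range i, ‖z + (k : ℂ)‖ := by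
    refine Finset.prod_le_prod (fun k _ => norm_nonneg _) fun k _ => ?_
    have := eb_norm_mono hz0 (a := -(k : ℝ)) (b := (k : ℝ)) le_rfl (by
      have : (0 : ℝ) ≤ k := Nat.cast_nonneg _
      linarith)
    push_cast at this
    rwa [← sub_eq_add_neg] at this
  have hP2 : ∏ j ∈ range (N + 1), ‖z + (j : ℂ)‖ ≤ ∏ j ∈ range (N + 1), ‖z + (l : ℂ) + (j : ℂ)‖ := by
    refine Finset.prod_le_prod (fun k _ => norm_nonneg _) fun k _ => ?_
    have hl : (0 : ℝ) ≤ l := Nat.cast_nonneg _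
    have hk : (0 : ℝ) ≤ k := Nat.cast_nonneg _
    have := eb_norm_mono hz0 (a := (k : ℝ)) (b := (l : ℝ) + (k : ℝ)) (by linarith) (by linarith)
    push_cast at this
    rwa [← add_assoc] at this
  have hsplit : (∏ j ∈ range i, ‖z + (j : ℂ)‖) * ∏ j ∈ Ico i (N + 1), ‖z + (j : ℂ)‖ =
      ∏ j ∈ range (N + 1), ‖z + (j : ℂ)‖ :=
    Finset.prod_range_mul_prod_Ico _ (by omega)
  have hA : 0 < ∏ j ∈ range i, ‖z + (j : ℂ)‖ := Finset.prod_pos fun j _ => hjpos j
  have hQ : ∏ j ∈ Ico i (N + 1), ((j : ℝ) + 1 / 2) ≤ ∏ j ∈ Ico i (N + 1), ‖z + (j : ℂ)‖ :=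
    Finset.prod_le_prod (fun j _ => by positivity) fun j _ => hj j
  have hQpos : 0 < ∏ j ∈ Ico i (N + 1), ‖z + (j : ℂ)‖ := Finset.prod_pos fun j _ => hjpos j
  obtain ⟨m, rfl⟩ := Nat.exists_eq_add_of_le hi
  have hf := eb_prod i m
  have hif : (0 : ℝ) < i.factorial := by exact_mod_cast Nat.factorial_pos i
  have hD : 0 < ∏ j ∈ range (i + m + 1), ‖z + (l : ℂ) + (j : ℂ)‖ := by
    refine lt_of_lt_of_le ?_ hP2
    rw [← hsplit]
    exact mul_pos hA hQpos
  rw [div_mul_div_comm, div_le_iff₀ (mul_pos hD hif)]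
  calc ((i + m).factorial : ℝ) * ∏ k ∈ range i, ‖z - (k : ℂ)‖
      ≤ (2 * (i.factorial : ℝ) * ∏ j ∈ Ico i (i + m + 1), ((j : ℝ) + 1 / 2)) *
        ∏ k ∈ range i, ‖z + (k : ℂ)‖ :=
        mul_le_mul hf hP1 (Finset.prod_nonneg fun _ _ => norm_nonneg _)
          (mul_nonneg (by positivity) (Finset.prod_nonneg fun j _ => by positivity))
    _ ≤ (2 * (i.factorial : ℝ) * ∏ j ∈ Ico i (i + m + 1), ‖z + (j : ℂ)‖) *
        ∏ k ∈ range i, ‖z + (k : ℂ)‖ :=
        mul_le_mul_of_nonneg_right (mul_le_mul_of_nonneg_left hQ (by positivity)) hA.le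
    _ = 2 * ((∏ j ∈ range (i + m + 1), ‖z + (j : ℂ)‖) * (i.factorial : ℝ)) := by
        rw [← hsplit]
        ring
    _ ≤ 2 * ((∏ j ∈ range (i + m + 1), ‖z + (l : ℂ) + (j : ℂ)‖) * (i.factorial : ℝ)) :=
        mul_le_mul_of_nonneg_left (mul_le_mul_of_nonneg_right hP2 hif.le) (by norm_num)

theorem beta_bt_le {N i : ℕ} (hi : i ≤ N) (l M : ℕ) : beta N l M * bt i M ≤ 2 := by
  have h := norm_betaC_btC hi l (z := (M : ℂ) + 1) (by
    rw [Complex.add_re, Complex.natCast_re, Complex.one_re]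
    have : (0 : ℝ) ≤ M := Nat.cast_nonneg _
    linarith)
  rw [betaC_nat, btC_nat, ← Complex.ofReal_mul, Complex.norm_real, Real.norm_eq_abs] at h
  exact (le_abs_self _).trans h

theorem beta_bt_tail {N i : ℕ} (hi : i ≤ N) (l M : ℕ) :
    beta N l M * bt i M ≤ ((N : ℝ) / ((M : ℝ) + 1)) ^ (N - i) / ((M : ℝ) + 1) := by
  have hM : (0 : ℝ) < (M : ℝ) + 1 := by positivity
  have hif : (0 : ℝ) < i.factorial := by exact_mod_cast Nat.factorial_pos i
  have h1 : bt i M ≤ ((M : ℝ) + 1) ^ i / (i.factorial : ℝ) := by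
    unfold bt
    have := Nat.choose_le_pow_div (α := ℝ) i (M + 1)
    push_cast at this
    exact this
  have h2 : beta N l M ≤ (N.factorial : ℝ) / ((M : ℝ) + 1) ^ (N + 1) := by
    unfold beta
    have h1 : ((M : ℝ) + 1) ^ (N + 1) ≤ ∏ j ∈ range (N + 1), ((M : ℝ) + 1 + l + j) := by
      have h2 : ((M : ℝ) + 1) ^ (N + 1) = ∏ _j ∈ range (N + 1), ((M : ℝ) + 1) := by
        rw [Finset.prod_const, Finset.card_range]
      rw [h2]
      refine Finset.prod_le_prod (fun j _ => hM.le) fun j _ => ?_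
      have h3 : (0 : ℝ) ≤ l := Nat.cast_nonneg _
      have h4 : (0 : ℝ) ≤ j := Nat.cast_nonneg _
      linarith
    exact div_le_div_of_nonneg_left (Nat.cast_nonneg _) (by positivity) h1
  have h3 : (N.factorial : ℝ) ≤ (i.factorial : ℝ) * (N : ℝ) ^ (N - i) := by
    have h4 := Nat.factorial_mul_descFactorial (n := N) (k := N - i) (Nat.sub_le _ _)
    have h5 : N - (N - i) = i := by omega
    rw [h5] at h4
    rw [← h4]
    push_cast
    refine mul_le_mul_of_nonneg_left ?_ hif.le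
    exact_mod_cast Nat.descFactorial_le_pow N (N - i)
  have h4 : beta N l M * bt i M ≤ ((N.factorial : ℝ) / ((M : ℝ) + 1) ^ (N + 1)) *
      (((M : ℝ) + 1) ^ i / (i.factorial : ℝ)) :=
    mul_le_mul h2 h1 (bt_nonneg _ _) (by positivity)
  refine h4.trans ?_
  obtain ⟨m, rfl⟩ := Nat.exists_eq_add_of_le hi
  have h5 : i + m - i = m := by omega
  rw [h5] at h3 ⊢
  rw [div_pow, div_div, ← pow_succ, div_mul_div_comm, div_le_div_iff₀ (by positivity) (by positivity)]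
  calc ((i + m).factorial : ℝ) * ((M : ℝ) + 1) ^ i * ((M : ℝ) + 1) ^ (m + 1)
      = ((i + m).factorial : ℝ) * (((M : ℝ) + 1) ^ (i + m + 1)) := by
        rw [mul_assoc, ← pow_add]
        congr 2
    _ ≤ ((i.factorial : ℝ) * ((i + m : ℕ) : ℝ) ^ m) * (((M : ℝ) + 1) ^ (i + m + 1)) :=
        mul_le_mul_of_nonneg_right h3 (by positivity)
    _ = ((i + m : ℕ) : ℝ) ^ m * (((M : ℝ) + 1) ^ (i + m + 1) * (i.factorial : ℝ)) := by ring

end Pool.MZExp
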