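import Mathlib

/-! MODULE EEvn (about 80 lines, ONLY MATHLIB). MP_301213_nt, exponential growth: numerical estimates for large N.

PROOFS. ev5: for N ≥ 2: N - i ≥ N - N/2 ≥ N/2 ≥ 1. Let s ≥ T = 2^(4Δ+9) (Δ+2) N, so x := N/s ≤ 2^-(4Δ+9) ≤ 1, and x^(N-i) ≤ x^(N-N/2) ≤ x * x^(N - N/2 - 1) ≤
 (N/s) * (2^-(4Δ+9))^(N/2 - 1) (natural exponents; N - N/2 - 1 ≥ N/2 - 1). Now (2^-(4Δ+9))^(N/2-1) ≤ 2^(2(4Δ+9)) * 2^(-(4Δ+9) N/2) (real exponent N/2; N/2 - 1 ≥ (N-3)/2), and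
 2^(-(4Δ+9)N/2) = exp(-(2Δ+4.5) N log 2) ≤ exp(-(1.38Δ + 3.1)N) (log 2 > 0.69). So the left side C (N+1) e^N * (x^(N-i)/s) ≤ C (N+1) N 2^(8Δ+18) exp((1 - 1.38Δ - 3.1)N) / s^2
 ≤ exp(-ΔN)/s^2 once C (N+1) N 2^(8Δ+18) ≤ exp(2N).
ev6: 2^(4Δ+9) (Δ+2) N + 2 times C ≤ exp N for large N (linear against exponential). -/

open Finset Filter Topology

namespace Pool.MZExp

private lemma evn_exp_big (K : ℝ) : ∀ᶠ N : ℕ in atTop, K ≤ Real.exp N := by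
  filter_upwards [eventually_ge_atTop (Nat.ceil K)] with N hN
  have h1 : K ≤ N := (Nat.le_ceil K).trans (by exact_mod_cast hN)
  have h2 := Real.add_one_le_exp (N : ℝ)
  linarith

private lemma evn_qpow (Dl N m : ℕ) (hm : N ≤ 2 * m) :
    ((2 : ℝ) ^ (4 * Dl + 8 + 1))⁻¹ ^ m ≤ Real.exp (-((1.38 * (Dl : ℝ) + 3.1) * N)) := by
  have h2 : (2 : ℝ) = Real.exp (Real.log 2) := (Real.exp_log (by norm_num)).symm
  have hl := Real.log_two_gt_d9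
  have hm' : (N : ℝ) ≤ 2 * m := by exact_mod_cast hm
  have hD : (0 : ℝ) ≤ Dl := Nat.cast_nonneg _
  have hN : (0 : ℝ) ≤ N := Nat.cast_nonneg _
  have e1 : ((2 : ℝ) ^ (4 * Dl + 8 + 1))⁻¹ ^ m =
      Real.exp (-(((4 * Dl + 9 : ℝ)) * m * Real.log 2)) := by
    rw [h2, ← Real.exp_nat_mul, ← Real.exp_neg, ← Real.exp_nat_mul, Real.log_exp]
    congr 1
    push_cast
    ring
  rw [e1]
  apply Real.exp_le_exp.2
  have h3 : (4 * Dl + 9 : ℝ) * (N / 2) * 0.69 ≤ (4 * Dl + 9 : ℝ) * m * Real.log 2 := by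
    have h4 : (4 * Dl + 9 : ℝ) * (N / 2) ≤ (4 * Dl + 9 : ℝ) * m := by
      apply mul_le_mul_of_nonneg_left _ (by positivity)
      linarith
    apply mul_le_mul h4 (by linarith) (by norm_num) (by positivity)
  nlinarith [mul_nonneg hD hN]

theorem ev5 (Dl : ℕ) (C : ℝ) (hC : 0 ≤ C) : ∀ᶠ N : ℕ in atTop, ∀ i : ℕ, i ≤ N / 2 →
    ∀ s : ℕ, 2 ^ (4 * Dl + 8 + 1) * ((Dl + 2) * N) ≤ s →
    C * (N + 1) * Real.exp N * (((N : ℝ) / s) ^ (N - i) / s) ≤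
      Real.exp (-((Dl : ℝ) * N)) / (s : ℝ) ^ 2 := by
  filter_upwards [evn_exp_big (C * 2 * 2 ^ (4 * Dl + 8 + 1)), eventually_ge_atTop 2] with N hN hN2
  intro i hi s hs
  have hN0 : (0 : ℝ) < N := by
    have : 0 < N := by omega
    exact_mod_cast this
  have hQ : (0 : ℝ) < (2 : ℝ) ^ (4 * Dl + 8 + 1) := by positivity
  have hD : (0 : ℝ) ≤ Dl := Nat.cast_nonneg _
  have hs' : (2 : ℝ) ^ (4 * Dl + 8 + 1) * N ≤ s := by
    have h1 : 2 ^ (4 * Dl + 8 + 1) * N ≤ s := by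
      refine le_trans ?_ hs
      apply Nat.mul_le_mul_left
      nlinarith
    exact_mod_cast h1
  have hs0 : (0 : ℝ) < s := lt_of_lt_of_le (mul_pos hQ hN0) hs'
  set x : ℝ := (N : ℝ) / s with hx
  have hx0 : 0 ≤ x := by positivity
  have hxq : x ≤ ((2 : ℝ) ^ (4 * Dl + 8 + 1))⁻¹ := by
    rw [hx, div_le_iff₀ hs0, inv_mul_eq_div, le_div_iff₀ hQ]
    linarith
  have hx1 : x ≤ 1 := hxq.trans (inv_le_one_of_one_le₀ (one_le_pow₀ (by norm_num)))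
  have hm1 : N - N / 2 ≤ N - i := by omega
  have hpow : x ^ (N - i) ≤ x * (((2 : ℝ) ^ (4 * Dl + 8 + 1)) *
      ((2 : ℝ) ^ (4 * Dl + 8 + 1))⁻¹ ^ (N - N / 2)) := by
    have h1 : x ^ (N - i) ≤ x ^ (N - N / 2) := pow_le_pow_of_le_one hx0 hx1 hm1
    obtain ⟨k, hk⟩ : ∃ k, N - N / 2 = k + 1 := ⟨N - N / 2 - 1, by omega⟩
    rw [hk] at h1 ⊢
    have h2 : x ^ (k + 1) ≤ x * ((2 : ℝ) ^ (4 * Dl + 8 + 1))⁻¹ ^ k := by
      rw [pow_succ']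
      apply mul_le_mul_of_nonneg_left _ hx0
      exact pow_le_pow_left₀ hx0 hxq k
    refine h1.trans (h2.trans (le_of_eq ?_))
    rw [pow_succ' _ k, ← mul_assoc ((2 : ℝ) ^ (4 * Dl + 8 + 1)), mul_inv_cancel₀ hQ.ne', one_mul]
  have hq := evn_qpow Dl N (N - N / 2) (by omega)
  have hNN : ((N : ℝ) + 1) * N ≤ 2 * Real.exp N := by
    have := Real.quadratic_le_exp_of_nonneg hN0.le
    nlinarith
  have hexp : Real.exp N * Real.exp N * Real.exp (N : ℝ) *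
      Real.exp (-((1.38 * (Dl : ℝ) + 3.1) * N)) ≤ Real.exp (-((Dl : ℝ) * N)) := by
    rw [← Real.exp_add, ← Real.exp_add, ← Real.exp_add]
    apply Real.exp_le_exp.2
    nlinarith [mul_nonneg hD hN0.le]
  have hmain : C * (N + 1) * Real.exp N * (x ^ (N - i) / s) ≤
      C * (N + 1) * Real.exp N * ((x * (((2 : ℝ) ^ (4 * Dl + 8 + 1)) *
        Real.exp (-((1.38 * (Dl : ℝ) + 3.1) * N)))) / s) := by
    apply mul_le_mul_of_nonneg_left _ (by positivity)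
    apply div_le_div_of_nonneg_right _ hs0.le
    refine hpow.trans ?_
    apply mul_le_mul_of_nonneg_left _ hx0
    exact mul_le_mul_of_nonneg_left hq hQ.le
  refine hmain.trans ?_
  have e2 : C * (N + 1) * Real.exp N * ((x * (((2 : ℝ) ^ (4 * Dl + 8 + 1)) *
        Real.exp (-((1.38 * (Dl : ℝ) + 3.1) * N)))) / s) =
      (C * (2 : ℝ) ^ (4 * Dl + 8 + 1) * (((N : ℝ) + 1) * N) * (Real.exp N *
        Real.exp (-((1.38 * (Dl : ℝ) + 3.1) * N)))) / (s : ℝ) ^ 2 := by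
    rw [hx]
    field_simp
  rw [e2]
  apply div_le_div_of_nonneg_right _ (by positivity)
  have h5 : C * (2 : ℝ) ^ (4 * Dl + 8 + 1) * (((N : ℝ) + 1) * N) ≤ Real.exp N * Real.exp N := by
    calc C * (2 : ℝ) ^ (4 * Dl + 8 + 1) * (((N : ℝ) + 1) * N)
        ≤ C * (2 : ℝ) ^ (4 * Dl + 8 + 1) * (2 * Real.exp N) := by
          apply mul_le_mul_of_nonneg_left hNN (by positivity)
      _ = (C * 2 * 2 ^ (4 * Dl + 8 + 1)) * Real.exp N := by ring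
      _ ≤ Real.exp N * Real.exp N := mul_le_mul_of_nonneg_right hN (Real.exp_pos _).le
  calc C * (2 : ℝ) ^ (4 * Dl + 8 + 1) * (((N : ℝ) + 1) * N) * (Real.exp N *
        Real.exp (-((1.38 * (Dl : ℝ) + 3.1) * N)))
      ≤ (Real.exp N * Real.exp N) * (Real.exp N *
        Real.exp (-((1.38 * (Dl : ℝ) + 3.1) * N))) := by
        apply mul_le_mul_of_nonneg_right h5 (by positivity)
    _ = Real.exp N * Real.exp N * Real.exp (N : ℝ) *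
        Real.exp (-((1.38 * (Dl : ℝ) + 3.1) * N)) := by ring
    _ ≤ _ := hexp

theorem ev6 (Dl : ℕ) (C : ℝ) (hC : 0 ≤ C) : ∀ᶠ N : ℕ in atTop,
    C * ((2 : ℝ) ^ (4 * Dl + 8 + 1) * ((Dl + 2 : ℕ) * N) + 2) ≤ Real.exp N := by
  filter_upwards [eventually_ge_atTop (Nat.ceil (2 * (C * (2 : ℝ) ^ (4 * Dl + 8 + 1) * (Dl + 2 : ℕ)))),
    eventually_ge_atTop (Nat.ceil (2 * C))] with N h1 h2
  have h3 : 2 * (C * (2 : ℝ) ^ (4 * Dl + 8 + 1) * (Dl + 2 : ℕ)) ≤ N :=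
    (Nat.le_ceil _).trans (by exact_mod_cast h1)
  have h4 : 2 * C ≤ N := (Nat.le_ceil _).trans (by exact_mod_cast h2)
  have hN0 : (0 : ℝ) ≤ N := Nat.cast_nonneg _
  have h5 := Real.quadratic_le_exp_of_nonneg hN0
  have h6 : (C * (2 : ℝ) ^ (4 * Dl + 8 + 1) * (Dl + 2 : ℕ)) * N ≤ (N / 2 : ℝ) * N :=
    mul_le_mul_of_nonneg_right (by linarith) hN0
  calc C * ((2 : ℝ) ^ (4 * Dl + 8 + 1) * ((Dl + 2 : ℕ) * N) + 2)
      = (C * (2 : ℝ) ^ (4 * Dl + 8 + 1) * (Dl + 2 : ℕ)) * N + 2 * C := by ring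
    _ ≤ (N / 2 : ℝ) * N + N := by linarith
    _ ≤ Real.exp N := by nlinarith

end Pool.MZExp
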