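import Pool.Agent.Lib.MZExp.EB
import Pool.Agent.Lib.MZDim.GExt

/-! MODULE EExt (about 100 lines, copy of MZDim/FExt.lean). MP_301213_nt, exponential growth: analytic extension of f_y(t) C(t,i).

PROOF. As in MZDim/FExt.lean with g(z) = ∑_{i' ≤ N} ∑_{l ∈ A} y i' l * ((betaC N i' z * btC i z) * G_l z); bound of each term 2 Y C_l (norm_betaC_btC, i ≤ N). -/

open HofPers Finset Filter Topology Pool.MZDim

namespace Pool.MZExp

theorem exists_fext_bt (A : Finset (List ℕ)) (hA : ∀ l ∈ A, Adm l) :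
    ∃ C : ℝ, 1 ≤ C ∧ ∀ (N : ℕ) (y : ℕ → List ℕ → ℤ) (Y : ℝ), 0 ≤ Y →
      (∀ i l, |(y i l : ℝ)| ≤ Y) → ∀ i, i ≤ N →
      ∃ g : ℂ → ℂ, DifferentiableOn ℂ g {z : ℂ | 0 < z.re} ∧
        (∀ M : ℕ, g ((M : ℂ) + 1) = ((fy A N y M * bt i M : ℝ) : ℂ)) ∧
        ∀ z : ℂ, 1 / 2 ≤ z.re → ‖g z‖ ≤ C * (N + 1) * Y := by
  classical
  have key : ∀ l : List ℕ, ∃ (G : ℂ → ℂ) (C : ℝ), 1 ≤ C ∧
      DifferentiableOn ℂ G {z : ℂ | 0 < z.re} ∧
      (l ∈ A → ∀ M : ℕ, G ((M : ℂ) + 1) = ((sR l M : ℝ) : ℂ)) ∧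
      ∀ z : ℂ, 1 / 2 ≤ z.re → ‖G z‖ ≤ C := by
    intro l
    by_cases hl : l ∈ A
    · obtain ⟨G, C, h1, h2, h3, h4⟩ := exists_ext l (hA l hl)
      exact ⟨G, C, h1, h2, fun _ => h3, h4⟩
    · exact ⟨fun _ => 0, 1, le_rfl, differentiableOn_const _, fun h => absurd h hl,
        fun z _ => by simp⟩
  choose G C hC hG hv hb using key
  have hS : 0 ≤ ∑ l ∈ A, C l := Finset.sum_nonneg fun l _ => le_trans zero_le_one (hC l)
  refine ⟨2 * ∑ l ∈ A, C l + 1, by linarith, ?_⟩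
  intro N y Y hY hy i0 hi0
  refine ⟨fun z => ∑ i ∈ range (N + 1), ∑ l ∈ A,
    ((y i l : ℤ) : ℂ) * ((betaC N i z * btC i0 z) * G l z), ?_, ?_, ?_⟩
  · refine DifferentiableOn.fun_sum fun i _ => DifferentiableOn.fun_sum fun l _ => ?_
    exact ((((betaC_diff N i).mul (btC_diff i0).differentiableOn).mul (hG l)).const_mul _)
  · intro M
    unfold fy
    rw [Finset.sum_mul, Complex.ofReal_sum]
    refine Finset.sum_congr rfl fun i _ => ?_
    rw [Finset.sum_mul, Complex.ofReal_sum]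
    refine Finset.sum_congr rfl fun l hl => ?_
    rw [betaC_nat, btC_nat, hv l hl M]
    push_cast
    ring
  · intro z hz
    have h1 : ‖∑ i ∈ range (N + 1), ∑ l ∈ A,
        ((y i l : ℤ) : ℂ) * ((betaC N i z * btC i0 z) * G l z)‖ ≤
        ∑ i ∈ range (N + 1), ∑ l ∈ A, Y * (2 * C l) := by
      refine (norm_sum_le _ _).trans (Finset.sum_le_sum fun i _ => ?_)
      refine (norm_sum_le _ _).trans (Finset.sum_le_sum fun l _ => ?_)
      rw [norm_mul, norm_mul]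
      have e : ‖((y i l : ℤ) : ℂ)‖ = |((y i l : ℤ) : ℝ)| := by
        rw [Complex.norm_intCast]
      rw [e]
      exact mul_le_mul (hy i l) (mul_le_mul (norm_betaC_btC hi0 i hz) (hb l z hz) (norm_nonneg _)
        (by norm_num)) (by positivity) hY
    refine h1.trans ?_
    rw [Finset.sum_const, Finset.card_range, ← Finset.mul_sum, ← Finset.mul_sum, nsmul_eq_mul]
    push_cast
    have hN : (0 : ℝ) ≤ (N : ℝ) + 1 := by positivity
    have hNY : 0 ≤ ((N : ℝ) + 1) * Y := mul_nonneg hN hY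
    nlinarith

end Pool.MZExp
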