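import Pool.Agent.Lib.MZExp.EPtw

/-! MODULE EForm (about 90 lines). MP_301213_nt, exponential growth: smallness of the forms (E4).

PROOF. C2 = a bound ≥ 0 of zv v over v ∈ B (0 ≤ sR v M ≤ zv v: sR_nonneg, sR_le_zv). With T = 2^(4Δ+9) (Δ+2) N, δ = exp(-ΔN) the terms of the series satisfy
|fy M bt i M sR v M| ≤ C2 δ for M + 1 < T and ≤ C2 δ / (M+1)^2 for M + 1 ≥ T, so (comparison with u M = C2 δ ([M + 1 < T] + 1/(M+1)^2), norm_tsum_le_tsum_norm / tsum_of_norm_bounded)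
|form| ≤ C2 δ (T + 2) ≤ exp(N) δ for large N by ev6 (C = C2). ∑ 1/(M+1)^2 ≤ 2 (see MZDim/Sqs.lean, private lemma there, or π^2/6 with π < 3.15). -/

open HofPers Finset Filter Topology Pool.MZDim

namespace Pool.MZExp

private lemma ef_hasSum_sq : HasSum (fun M : ℕ => 1 / ((M : ℝ) + 1) ^ 2) (Real.pi ^ 2 / 6) := by
  have h := (hasSum_nat_add_iff' 1).mpr hasSum_zeta_two
  simp only [Finset.sum_range_one, Nat.cast_zero, Nat.cast_add, Nat.cast_one] at h
  simpa using h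

private lemma ef_sum (g : ℕ → ℝ) (T : ℕ) {δ : ℝ} (hδ : 0 ≤ δ)
    (h1 : ∀ M : ℕ, M + 1 < T → |g M| ≤ δ)
    (h2 : ∀ M : ℕ, T ≤ M + 1 → |g M| ≤ δ * (1 / ((M : ℝ) + 1) ^ 2)) :
    |∑' M, g M| ≤ δ * ((T : ℝ) + 2) := by
  have ha : HasSum (fun M : ℕ => if M + 1 < T then δ else 0)
      (∑ M ∈ range T, if M + 1 < T then δ else 0) := by
    refine hasSum_sum_of_ne_finset_zero fun M hM => ?_
    rw [mem_range] at hM
    rw [if_neg (by omega)]
  have hb : HasSum (fun M : ℕ => δ * (1 / ((M : ℝ) + 1) ^ 2)) (δ * (Real.pi ^ 2 / 6)) :=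
    ef_hasSum_sq.mul_left _
  have hab := ha.add hb
  have hle : ∀ M, ‖g M‖ ≤
      (if M + 1 < T then δ else 0) + δ * (1 / ((M : ℝ) + 1) ^ 2) := by
    intro M
    have hp : 0 ≤ δ * (1 / ((M : ℝ) + 1) ^ 2) := by positivity
    rw [Real.norm_eq_abs]
    by_cases h : M + 1 < T
    · rw [if_pos h]
      have h3 := h1 M h
      linarith
    · rw [if_neg h, zero_add]
      exact h2 M (by omega)
  have h3 := tsum_of_norm_bounded hab hle
  rw [Real.norm_eq_abs] at h3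
  refine h3.trans ?_
  have h4 : (∑ M ∈ range T, if M + 1 < T then δ else 0) ≤ (T : ℝ) * δ := by
    have h5 : ∀ M ∈ range T, (if M + 1 < T then δ else 0) ≤ δ := by
      intro M _
      split_ifs
      · exact le_rfl
      · exact hδ
    have h6 := Finset.sum_le_sum h5
    rw [Finset.sum_const, Finset.card_range, nsmul_eq_mul] at h6
    exact h6
  have h7 : Real.pi ^ 2 / 6 ≤ 2 := by
    have h8 := Real.pi_lt_d2
    have h9 := Real.pi_pos
    nlinarith
  have h10 : δ * (Real.pi ^ 2 / 6) ≤ δ * 2 := mul_le_mul_of_nonneg_left h7 hδ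
  linarith

theorem form_small (A B : Finset (List ℕ)) (hA : ∀ l ∈ A, Adm l) (hB : ∀ l ∈ B, Adm l) (Dl : ℕ) :
    ∀ᶠ N : ℕ in atTop, ∀ y : ℕ → List ℕ → ℤ, SmallS A N Dl y → ∀ i, i ≤ N / 2 → ∀ v ∈ B,
      |form A N y i v| ≤ Real.exp (-(((Dl : ℝ) - 1) * N)) := by
  have hC : ∃ C2 : ℝ, 0 ≤ C2 ∧ ∀ v ∈ B, zv v ≤ C2 := by
    refine ⟨2 ^ (B.sup List.length), by positivity, fun v hv => (zv_le (hB v hv)).trans ?_⟩
    exact pow_le_pow_right₀ (by norm_num) (Finset.le_sup (f := List.length) hv)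
  obtain ⟨C2, hC2, hz⟩ := hC
  filter_upwards [pointwise_bt A hA Dl, ev6 Dl C2 hC2] with N hp he y hS i hi v hv
  obtain ⟨ha, hb⟩ := hp y hS i hi
  have hsv : ∀ M, |sR v M| ≤ C2 := by
    intro M
    rw [abs_of_nonneg (sR_nonneg v M)]
    exact (sR_le_zv (hB v hv) M).trans (hz v hv)
  have hδ : (0 : ℝ) ≤ C2 * Real.exp (-((Dl : ℝ) * N)) := by positivity
  have key := ef_sum (fun M => fy A N y M * bt i M * sR v M)
    (2 ^ (4 * Dl + 8 + 1) * ((Dl + 2) * N)) hδ (fun M hM => by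
      have h1 := ha (M + 1) (by omega) hM
      rw [Nat.add_sub_cancel] at h1
      rw [abs_mul, mul_comm C2]
      exact mul_le_mul h1 (hsv M) (abs_nonneg _) (Real.exp_pos _).le) (fun M hM => by
      have h1 := hb (M + 1) (by omega) hM
      rw [Nat.add_sub_cancel] at h1
      push_cast at h1
      rw [abs_mul]
      have h2 : Real.exp (-((Dl : ℝ) * N)) / ((M : ℝ) + 1) ^ 2 * C2 =
          C2 * Real.exp (-((Dl : ℝ) * N)) * (1 / ((M : ℝ) + 1) ^ 2) := by ring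
      rw [← h2]
      exact mul_le_mul h1 (hsv M) (abs_nonneg _) (by positivity))
  unfold form
  refine key.trans ?_
  have h3 : C2 * Real.exp (-((Dl : ℝ) * N)) *
      (((2 ^ (4 * Dl + 8 + 1) * ((Dl + 2) * N) : ℕ) : ℝ) + 2) =
      Real.exp (-((Dl : ℝ) * N)) *
        (C2 * (((2 ^ (4 * Dl + 8 + 1) * ((Dl + 2) * N) : ℕ) : ℝ) + 2)) := by ring
  rw [h3]
  have h4 : Real.exp (-(((Dl : ℝ) - 1) * N)) = Real.exp (-((Dl : ℝ) * N)) * Real.exp N := by
    rw [← Real.exp_add]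
    congr 1
    ring
  rw [h4]
  refine mul_le_mul_of_nonneg_left ?_ (Real.exp_pos _).le
  refine le_trans (le_of_eq ?_) he
  push_cast
  ring

end Pool.MZExp
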