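import Pool.Agent.Lib.MZExp.EB
import Pool.Agent.Lib.MZDim.WBasic
import Pool.Agent.Lib.MZDim.Box
import Pool.Agent.Lib.MZDim.Smp

/-! MODULE EPick (about 180 lines, copy of MZDim/Pick.lean). MP_301213_nt, exponential growth: a nonzero small y.

PROOF. Copy MZDim/Pick.lean (its private lemmas pick_ev, pick_count are generic: copy them) with p = Dl+2, A0 = 4 Dl + 8, dl = 4 Dl + 6 (so (A0+2) p (1+dl) + 1 = rho Dl) and the
entries a (i',l) s = beta N i' (s-1) * sR l (s-1) * cs (s-1), cs M = max over i ≤ N/2 of bt i M (Finset.sup' over range (N/2+1); ≥ 0, and attained). Entries are ≤ 2 * 2^L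
because beta N i' M * bt i M ≤ 2 for each i ≤ N/2 ≤ N (beta_bt_le): take M0 = 2 * 2^L. The y obtained satisfies |fy (s-1)| * cs (s-1) ≤ exp(-dl N), and bt i ≤ cs for i ≤ N/2
(fy A N y (s-1) * cs (s-1) = ∑ y * entry). -/

open HofPers Finset Filter Topology Pool.MZDim

namespace Pool.MZExp

private theorem epick_ev {K c : ℝ} (hK : 0 < K) (hc : 0 < c) :
    ∀ᶠ N : ℕ in atTop, K * Real.log (c * ((N : ℝ) + 1)) ≤ N := by
  have h1 : ∀ᶠ x : ℝ in atTop, ‖Real.log x‖ ≤ 1 / (2 * K * c) * ‖id x‖ :=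
    Real.isLittleO_log_id_atTop.bound (by positivity)
  have h2 : Tendsto (fun N : ℕ => c * ((N : ℝ) + 1)) atTop atTop :=
    Tendsto.const_mul_atTop hc (tendsto_atTop_add_const_right _ _ tendsto_natCast_atTop_atTop)
  filter_upwards [h2.eventually h1, eventually_ge_atTop 1] with N hN hN1
  have h3 : (1 : ℝ) ≤ N := by exact_mod_cast hN1
  rw [id, Real.norm_eq_abs, Real.norm_eq_abs, abs_of_pos (show 0 < c * ((N : ℝ) + 1) by positivity)]
    at hN
  have h4 := (le_abs_self _).trans hN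
  calc K * Real.log (c * ((N : ℝ) + 1)) ≤ K * (1 / (2 * K * c) * (c * ((N : ℝ) + 1))) :=
        mul_le_mul_of_nonneg_left h4 hK.le
    _ = ((N : ℝ) + 1) / 2 := by field_simp
    _ ≤ N := by linarith

private theorem epick_count {N n m dl T A0 p a : ℕ} {M0 : ℝ} (hM0 : 1 ≤ M0) (hN : 1 ≤ N) (ha : 1 ≤ a)
    (hn : n = (N + 1) * a) (hm : m ≤ T * N) (_hT : T = (A0 + 2) * p)
    (hcard : T * (1 + dl) + 1 ≤ a)
    (hlog : (T : ℝ) * Real.log (2 * a * M0 * ((N : ℝ) + 1)) ≤ N) :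
    ((n : ℝ) * ((⌊Real.exp N⌋₊ : ℕ) : ℝ) * M0 / Real.exp (-((dl : ℝ) * N)) + 1) ^ m <
      (((⌊Real.exp N⌋₊ : ℕ) : ℝ) + 1) ^ n := by
  have hNr : (1 : ℝ) ≤ N := by exact_mod_cast hN
  have har : (1 : ℝ) ≤ a := by exact_mod_cast ha
  have hX : ((⌊Real.exp N⌋₊ : ℕ) : ℝ) ≤ Real.exp N := Nat.floor_le (Real.exp_pos _).le
  have hX1 : Real.exp N < ((⌊Real.exp N⌋₊ : ℕ) : ℝ) + 1 := Nat.lt_floor_add_one _
  have hnr : (n : ℝ) = ((N : ℝ) + 1) * a := by rw [hn]; push_cast; ring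
  have hn1 : (1 : ℝ) ≤ n := by
    rw [hnr]
    nlinarith
  set B : ℝ := 2 * a * M0 * ((N : ℝ) + 1) * Real.exp ((1 + dl) * N) with hB
  have hE : (1 : ℝ) ≤ Real.exp ((1 + dl) * N) := Real.one_le_exp (by positivity)
  have hbase : (n : ℝ) * ((⌊Real.exp N⌋₊ : ℕ) : ℝ) * M0 / Real.exp (-((dl : ℝ) * N)) + 1 ≤ B := by
    have h1 : (n : ℝ) * ((⌊Real.exp N⌋₊ : ℕ) : ℝ) * M0 / Real.exp (-((dl : ℝ) * N)) ≤
        n * M0 * Real.exp ((1 + dl) * N) := by
      rw [Real.exp_neg, div_inv_eq_mul]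
      have h2 : Real.exp ((1 + dl) * N) = Real.exp N * Real.exp ((dl : ℝ) * N) := by
        rw [← Real.exp_add]
        congr 1
        ring
      rw [h2]
      calc (n : ℝ) * ((⌊Real.exp N⌋₊ : ℕ) : ℝ) * M0 * Real.exp ((dl : ℝ) * N)
          ≤ n * Real.exp N * M0 * Real.exp ((dl : ℝ) * N) := by gcongr
        _ = n * M0 * (Real.exp N * Real.exp ((dl : ℝ) * N)) := by ring
    have h3 : (1 : ℝ) ≤ n * M0 * Real.exp ((1 + dl) * N) := by
      have h4 : (1 : ℝ) ≤ n * M0 := by nlinarith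
      nlinarith
    have h5 : B = 2 * (n * M0 * Real.exp ((1 + dl) * N)) := by
      rw [hB, hnr]
      ring
    rw [h5]
    linarith
  have hB1 : 1 ≤ B := by
    refine le_trans ?_ hbase
    have : 0 ≤ (n : ℝ) * ((⌊Real.exp N⌋₊ : ℕ) : ℝ) * M0 / Real.exp (-((dl : ℝ) * N)) := by
      positivity
    linarith
  have hc0 : 0 < 2 * (a : ℝ) * M0 * ((N : ℝ) + 1) := by positivity
  have hBe : B = Real.exp (Real.log (2 * a * M0 * ((N : ℝ) + 1)) + (1 + dl) * N) := by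
    rw [Real.exp_add, Real.exp_log hc0]
  have hTN : (0 : ℝ) ≤ (T : ℝ) * N := by positivity
  calc ((n : ℝ) * ((⌊Real.exp N⌋₊ : ℕ) : ℝ) * M0 / Real.exp (-((dl : ℝ) * N)) + 1) ^ m
      ≤ B ^ m := pow_le_pow_left₀ (by positivity) hbase _
    _ ≤ B ^ (T * N) := pow_le_pow_right₀ hB1 hm
    _ = Real.exp (((T * N : ℕ) : ℝ) *
          (Real.log (2 * a * M0 * ((N : ℝ) + 1)) + (1 + dl) * N)) := by
        rw [hBe, ← Real.exp_nat_mul]
    _ ≤ Real.exp ((n : ℝ) * N) := by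
        rw [Real.exp_le_exp]
        have h6 : ((T * (1 + dl) + 1 : ℕ) : ℝ) ≤ a := by exact_mod_cast hcard
        push_cast at h6 ⊢
        have h7 : (N : ℝ) * ((T : ℝ) * Real.log (2 * a * M0 * ((N : ℝ) + 1))) ≤ N * N :=
          mul_le_mul_of_nonneg_left hlog (by linarith)
        have h8 : (N : ℝ) * N * ((T : ℝ) * (1 + dl) + 1) ≤ N * N * a :=
          mul_le_mul_of_nonneg_left h6 (by positivity)
        have h9 : (N : ℝ) * N * a ≤ n * N := by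
          rw [hnr]
          nlinarith
        nlinarith
    _ = Real.exp N ^ n := by rw [← Real.exp_nat_mul]
    _ < (((⌊Real.exp N⌋₊ : ℕ) : ℝ) + 1) ^ n := by
        refine pow_lt_pow_left₀ hX1 (Real.exp_pos _).le ?_
        rintro rfl
        norm_num at hn1

theorem pick2 (A : Finset (List ℕ)) (hA : ∀ l ∈ A, Adm l) (Dl : ℕ)
    (h : rho Dl ≤ A.card) :
    ∀ᶠ N : ℕ in atTop, ∃ y : ℕ → List ℕ → ℤ, SmallS A N Dl y ∧
      ∃ i ≤ N, ∃ l ∈ A, y i l ≠ 0 := by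
  classical
  obtain ⟨p, hpd⟩ : ∃ p : ℕ, p = Dl + 2 := ⟨_, rfl⟩
  obtain ⟨A0, hA0d⟩ : ∃ A0 : ℕ, A0 = 4 * Dl + 8 := ⟨_, rfl⟩
  obtain ⟨dl, hdld⟩ : ∃ dl : ℕ, dl = 4 * Dl + 6 := ⟨_, rfl⟩
  have hp : 1 ≤ p := by omega
  have hcard : (A0 + 2) * p * (1 + dl) + 1 ≤ A.card := by
    refine le_trans (le_of_eq ?_) h
    unfold rho
    rw [hpd, hA0d, hdld]
    ring
  set M0 : ℝ := 2 * 2 ^ (A.sup List.length) with hM0
  have hM1' : (1 : ℝ) ≤ 2 ^ (A.sup List.length) := one_le_pow₀ (by norm_num)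
  have hM1 : 1 ≤ M0 := by
    rw [hM0]
    linarith
  have ha1 : 1 ≤ A.card := le_trans (Nat.le_add_left _ _) hcard
  have ha1' : (1 : ℝ) ≤ A.card := by exact_mod_cast ha1
  have hK : (0 : ℝ) < (((A0 + 2) * p : ℕ) : ℝ) := by
    have : 0 < (A0 + 2) * p := Nat.mul_pos (by omega) hp
    exact_mod_cast this
  filter_upwards [epick_ev hK (show (0 : ℝ) < 2 * A.card * M0 by positivity),
    eventually_ge_atTop 1] with N hN hN1
  let cs : ℕ → ℝ := fun M => (range (N / 2 + 1)).sup' ⟨0, Finset.mem_range.2 (by omega)⟩ fun i => bt i M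
  have hcs : ∀ i ≤ N / 2, ∀ M, bt i M ≤ cs M := fun i hi M =>
    Finset.le_sup' (fun i => bt i M) (Finset.mem_range.2 (by omega))
  have hcs0 : ∀ M, 0 ≤ cs M := fun M => (bt_nonneg 0 M).trans (hcs 0 (Nat.zero_le _) M)
  have hcsa : ∀ M, ∃ i ≤ N / 2, cs M = bt i M := by
    intro M
    obtain ⟨i, hi, he⟩ := Finset.exists_mem_eq_sup' (s := range (N / 2 + 1))
      ⟨0, Finset.mem_range.2 (by omega)⟩ (fun i => bt i M)
    exact ⟨i, by have := Finset.mem_range.1 hi; omega, he⟩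
  have hbcs : ∀ l M, beta N l M * cs M ≤ 2 := by
    intro l M
    obtain ⟨i, hi, he⟩ := hcsa M
    rw [he]
    exact beta_bt_le (by omega) l M
  let a : Fin (N + 1) × A → ℕ → ℝ := fun il s =>
    beta N il.1 (s - 1) * sR il.2 (s - 1) * cs (s - 1)
  have ha0 : ∀ i, ∀ k ∈ smp (p * N) A0, 0 ≤ a i k := fun i k _ =>
    mul_nonneg (mul_nonneg (beta_nonneg _ _ _) (sR_nonneg _ _)) (hcs0 _)
  have haM : ∀ i, ∀ k ∈ smp (p * N) A0, a i k ≤ M0 := by
    rintro ⟨i, l, hl⟩ k _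
    have h1 : sR l (k - 1) ≤ 2 ^ (A.sup List.length) := by
      refine (sR_le_zv (hA l hl) _).trans ((zv_le (hA l hl)).trans ?_)
      exact pow_le_pow_right₀ (by norm_num) (Finset.le_sup (f := List.length) hl)
    calc a (i, ⟨l, hl⟩) k = beta N i (k - 1) * sR l (k - 1) * cs (k - 1) := rfl
      _ = (beta N i (k - 1) * cs (k - 1)) * sR l (k - 1) := by ring
      _ ≤ 2 * 2 ^ (A.sup List.length) :=
          mul_le_mul (hbcs _ _) h1 (sR_nonneg _ _) (by norm_num)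
      _ = M0 := rfl
  have hcι : Fintype.card (Fin (N + 1) × A) = (N + 1) * A.card := by
    rw [Fintype.card_prod, Fintype.card_fin, Fintype.card_coe]
  have hcount := epick_count (N := N) (n := Fintype.card (Fin (N + 1) × A))
    (m := (smp (p * N) A0).card) (dl := dl) (T := (A0 + 2) * p) (A0 := A0) (p := p)
    (a := A.card) (M0 := M0) hM1 hN1 ha1 hcι
    ((card_smp _ _).trans_eq (by ring)) rfl hcard hN
  obtain ⟨y, hy0, hyX, hyS⟩ := box (smp (p * N) A0) a ⌊Real.exp N⌋₊ (M0 := M0)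
    (ε := Real.exp (-((dl : ℝ) * N))) (by linarith) (Real.exp_pos _) ha0 haM hcount
  have hX : ((⌊Real.exp N⌋₊ : ℕ) : ℝ) ≤ Real.exp N := Nat.floor_le (Real.exp_pos _).le
  let Y : ℕ → List ℕ → ℤ := fun i l =>
    if h : i < N + 1 ∧ l ∈ A then y (⟨i, h.1⟩, ⟨l, h.2⟩) else 0
  have hY : ∀ (i : Fin (N + 1)) (l : A), Y i l = y (i, l) := by
    intro i l
    have h : (i : ℕ) < N + 1 ∧ (l : List ℕ) ∈ A := ⟨i.2, l.2⟩
    change (if h : (i : ℕ) < N + 1 ∧ (l : List ℕ) ∈ A then y (⟨i, h.1⟩, ⟨l, h.2⟩) else 0) = _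
    rw [dif_pos h]
  refine ⟨Y, ⟨fun i l => ?_, fun s hs i hi => ?_⟩, ?_⟩
  · by_cases h : i < N + 1 ∧ l ∈ A
    · have h1 : Y i l = y (⟨i, h.1⟩, ⟨l, h.2⟩) := dif_pos h
      rw [h1]
      exact (hyX _).trans hX
    · have h1 : Y i l = 0 := dif_neg h
      rw [h1, Int.cast_zero, abs_zero]
      exact (Real.exp_pos _).le
  · rw [← hpd, ← hA0d] at hs
    have h1 : fy A N Y (s - 1) * cs (s - 1) = ∑ i, (y i : ℝ) * a i s := by
      unfold fy
      rw [Finset.sum_range, Fintype.sum_prod_type, Finset.sum_mul]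
      refine Finset.sum_congr rfl fun i _ => ?_
      rw [← Finset.sum_coe_sort A, Finset.sum_mul]
      refine Finset.sum_congr rfl fun l _ => ?_
      rw [hY]
      simp only [a]
      ring
    have h2 : |fy A N Y (s - 1) * bt i (s - 1)| ≤ |fy A N Y (s - 1) * cs (s - 1)| := by
      rw [abs_mul, abs_mul, abs_of_nonneg (bt_nonneg _ _), abs_of_nonneg (hcs0 _)]
      exact mul_le_mul_of_nonneg_left (hcs i hi _) (abs_nonneg _)
    refine h2.trans ?_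
    rw [h1, ← hdld]
    exact hyS s hs
  · obtain ⟨⟨i, l⟩, hil⟩ := Function.ne_iff.1 hy0
    refine ⟨i, Nat.lt_succ_iff.1 i.2, l, l.2, ?_⟩
    rw [hY]
    exact hil

end Pool.MZExp
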