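import Pool.Agent.Lib.MZExp.EExt
import Pool.Agent.Lib.MZExp.EEvn
import Pool.Agent.Lib.MZDim.Evn
import Pool.Agent.Lib.MZDim.Blk
import Pool.Agent.Lib.MZDim.Smp

/-! MODULE EPtw (about 180 lines, copy of MZDim/Ptw.lean). MP_301213_nt, exponential growth: pointwise smallness of f_y(t) C(t,i).

PROOF. As MZDim/Ptw.lean, for fixed i ≤ N/2 with the function f_y(t) C(t,i) (extension exists_fext_bt, bound B = C1 (N+1) exp N), A0 = 4Δ+8, T = 2^(A0+1) (Δ+2) N,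
δ = exp(-ΔN), ε = exp(-(4Δ+6)N); ev1, ev2 of MZDim/Evn (they do not involve A0).
(a) 1 ≤ s < T: smp_cover and block exactly as in Ptw: ≤ δ.
(b) s ≥ T: |fy (s-1) bt i (s-1)| ≤ ∑_{i',l} exp N * (beta N i' (s-1) bt i (s-1)) * sR l (s-1) ≤ |A| M0 (N+1) exp N ((N/s)^(N-i) / s) (beta_bt_tail with M + 1 = s) ≤ δ / s^2 by
ev5 (C = |A| M0). -/

open HofPers Finset Filter Topology Pool.MZDim

namespace Pool.MZExp

private theorem bnd_sR' (A : Finset (List ℕ)) (hA : ∀ l ∈ A, Adm l) :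
    ∃ M0 : ℝ, 0 ≤ M0 ∧ ∀ l ∈ A, ∀ M, sR l M ≤ M0 := by
  refine ⟨2 ^ (A.sup List.length), by positivity, fun l hl M => ?_⟩
  refine (sR_le_zv (hA l hl) M).trans ((zv_le (hA l hl)).trans ?_)
  exact pow_le_pow_right₀ (by norm_num) (Finset.le_sup (f := List.length) hl)

private theorem tail_bound' (A : Finset (List ℕ)) (M0 : ℝ)
    (hs : ∀ l ∈ A, ∀ M, sR l M ≤ M0) (N : ℕ) (y : ℕ → List ℕ → ℤ) (Y : ℝ)
    (hY : 0 ≤ Y) (hy : ∀ i l, |(y i l : ℝ)| ≤ Y) (i : ℕ) (hi : i ≤ N) (M : ℕ) :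
    |fy A N y M * bt i M| ≤
      (A.card : ℝ) * M0 * (N + 1) * Y *
        (((N : ℝ) / ((M : ℝ) + 1)) ^ (N - i) / ((M : ℝ) + 1)) := by
  have hM : (0 : ℝ) < (M : ℝ) + 1 := by positivity
  have hb := bt_nonneg i M
  have h1 : ∀ i' ∈ range (N + 1), ∀ l ∈ A, |(y i' l : ℝ) * (beta N i' M * sR l M)| * bt i M ≤
      Y * (((N : ℝ) / ((M : ℝ) + 1)) ^ (N - i) / ((M : ℝ) + 1) * M0) := by
    intro i' _ l hl
    have h2 := beta_nonneg N i' M
    have h3 := sR_nonneg l M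
    have e : |(y i' l : ℝ) * (beta N i' M * sR l M)| * bt i M =
        |(y i' l : ℝ)| * (beta N i' M * bt i M * sR l M) := by
      rw [abs_mul, abs_of_nonneg (mul_nonneg h2 h3)]
      ring
    rw [e]
    have h4 := beta_bt_tail hi i' M
    have h5 : 0 ≤ beta N i' M * bt i M := mul_nonneg h2 hb
    exact mul_le_mul (hy i' l) (mul_le_mul h4 (hs l hl M) h3 (h5.trans h4))
      (mul_nonneg h5 h3) hY
  have h4 : |fy A N y M * bt i M| ≤ ∑ _i ∈ range (N + 1), ∑ _l ∈ A,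
      Y * (((N : ℝ) / ((M : ℝ) + 1)) ^ (N - i) / ((M : ℝ) + 1) * M0) := by
    rw [abs_mul, abs_of_nonneg hb]
    unfold fy
    have h5 : |∑ i' ∈ range (N + 1), ∑ l ∈ A, (y i' l : ℝ) * (beta N i' M * sR l M)| ≤
        ∑ i' ∈ range (N + 1), ∑ l ∈ A, |(y i' l : ℝ) * (beta N i' M * sR l M)| := by
      refine (Finset.abs_sum_le_sum_abs _ _).trans (Finset.sum_le_sum fun i hi => ?_)
      exact Finset.abs_sum_le_sum_abs _ _
    refine (mul_le_mul_of_nonneg_right h5 hb).trans ?_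
    rw [Finset.sum_mul]
    refine Finset.sum_le_sum fun i' hi' => ?_
    rw [Finset.sum_mul]
    exact Finset.sum_le_sum fun l hl => h1 i' hi' l hl
  refine h4.trans (le_of_eq ?_)
  rw [Finset.sum_const, Finset.sum_const, Finset.card_range, nsmul_eq_mul, nsmul_eq_mul]
  push_cast
  ring

theorem pointwise_bt (A : Finset (List ℕ)) (hA : ∀ l ∈ A, Adm l) (Dl : ℕ) :
    ∀ᶠ N : ℕ in atTop, ∀ y : ℕ → List ℕ → ℤ, SmallS A N Dl y → ∀ i, i ≤ N / 2 →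
      (∀ s : ℕ, 1 ≤ s → s < 2 ^ (4 * Dl + 8 + 1) * ((Dl + 2) * N) →
        |fy A N y (s - 1) * bt i (s - 1)| ≤ Real.exp (-((Dl : ℝ) * N))) ∧
      (∀ s : ℕ, 1 ≤ s → 2 ^ (4 * Dl + 8 + 1) * ((Dl + 2) * N) ≤ s →
        |fy A N y (s - 1) * bt i (s - 1)| ≤ Real.exp (-((Dl : ℝ) * N)) / (s : ℝ) ^ 2) := by
  obtain ⟨C1, hC1, hext⟩ := exists_fext_bt A hA
  obtain ⟨M0, hM0, hsR⟩ := bnd_sR' A hA
  filter_upwards [ev1 Dl, ev2 Dl C1 (by linarith), ev5 Dl ((A.card : ℝ) * M0) (by positivity),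
    eventually_ge_atTop 1] with N h1 h2 h3 hN y hS i hi
  obtain ⟨hy, hsm'⟩ := hS
  have hiN : i ≤ N := hi.trans (Nat.div_le_self N 2)
  have hsm : ∀ s ∈ smp ((Dl + 2) * N) (4 * Dl + 8),
      |fy A N y (s - 1) * bt i (s - 1)| ≤ Real.exp (-(((4 * Dl + 6 : ℕ) : ℝ) * N)) :=
    fun s hs => hsm' s hs i hi
  have hP : 1 ≤ (Dl + 2) * N := Nat.mul_pos (by omega) hN
  have hδ : 0 < Real.exp (-((Dl : ℝ) * N)) := Real.exp_pos _
  have hε : 0 ≤ Real.exp (-(((4 * Dl + 6 : ℕ) : ℝ) * N)) := (Real.exp_pos _).le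
  have hεδ : Real.exp (-(((4 * Dl + 6 : ℕ) : ℝ) * N)) ≤ Real.exp (-((Dl : ℝ) * N)) := by
    refine Real.exp_le_exp.2 (neg_le_neg ?_)
    refine mul_le_mul_of_nonneg_right ?_ (Nat.cast_nonneg N)
    push_cast
    have : (0 : ℝ) ≤ Dl := Nat.cast_nonneg _
    linarith
  constructor
  · intro s hs1 hs2
    rcases smp_cover hP hs1 hs2 with hmem | ⟨a, ha1, ha2, hsa, hsb, hm⟩
    · exact (hsm s hmem).trans hεδ
    · obtain ⟨g, hgd, hgv, hgb⟩ := hext N y (Real.exp N) (Real.exp_pos _).le hy i hiN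
      have hval : ∀ t : ℕ, 1 ≤ t →
          g (t : ℂ) = ((fy A N y (t - 1) * bt i (t - 1) : ℝ) : ℂ) := by
        intro t ht
        rw [← hgv (t - 1)]
        congr 1
        have h4 : ((t - 1 : ℕ) : ℂ) + 1 = ((t - 1 + 1 : ℕ) : ℂ) := by
          push_cast
          rfl
        rw [h4, Nat.sub_add_cancel ht]
      have hv : ∀ m ∈ Ico ((Dl + 2) * N) (2 * ((Dl + 2) * N)),
          ‖g (((2 ^ a : ℕ) : ℂ) * m)‖ ≤ Real.exp (-(((4 * Dl + 6 : ℕ) : ℝ) * N)) := by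
        intro m hmm
        have h4 := hm m hmm
        have h5 : (((2 ^ a : ℕ) : ℂ) * m) = ((2 ^ a * m : ℕ) : ℂ) := by
          push_cast
          rfl
        rw [h5, hval _ (smp_pos hP h4), Complex.norm_real, Real.norm_eq_abs]
        exact hsm _ h4
      have hb := block ((Dl + 2) * N) (2 ^ a) hP Nat.one_le_two_pow hgd hε hgb hv s hsa hsb
      rw [hval s hs1, Complex.norm_real, Real.norm_eq_abs] at hb
      have hfac : (((Dl + 2) * N).factorial : ℝ) / (((Dl + 2) * N : ℕ) : ℝ) ^ ((Dl + 2) * N) ≤ 1 :=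
        fact_div_le_one hP
      have h2' : C1 * (N + 1) * Real.exp N *
          (2 * (((Dl + 2) * N).factorial : ℝ) / (((Dl + 2) * N : ℕ) : ℝ) ^ ((Dl + 2) * N)) ≤
          Real.exp (-((Dl : ℝ) * N)) / 4 := h2
      have hfac0 : 0 ≤ (((Dl + 2) * N).factorial : ℝ) /
          (((Dl + 2) * N : ℕ) : ℝ) ^ ((Dl + 2) * N) := by positivity
      have hr : 2 * (((Dl + 2) * N).factorial : ℝ) / (((Dl + 2) * N : ℕ) : ℝ) ^ ((Dl + 2) * N) =
          2 * ((((Dl + 2) * N).factorial : ℝ) /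
            (((Dl + 2) * N : ℕ) : ℝ) ^ ((Dl + 2) * N)) := by ring
      rw [hr] at h2' hb
      set r := (((Dl + 2) * N).factorial : ℝ) / (((Dl + 2) * N : ℕ) : ℝ) ^ ((Dl + 2) * N) with hrdef
      set x := (16 : ℝ) ^ ((Dl + 2) * N) * Real.exp (-(((4 * Dl + 6 : ℕ) : ℝ) * N)) with hx
      have hx0 : 0 ≤ x := by positivity
      have hxr : x * (2 * r) ≤ 2 * x := by nlinarith
      calc |fy A N y (s - 1) * bt i (s - 1)|
          ≤ x + (C1 * (N + 1) * Real.exp N + x) * (2 * r) := hb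
        _ = x + C1 * (N + 1) * Real.exp N * (2 * r) + x * (2 * r) := by ring
        _ ≤ Real.exp (-((Dl : ℝ) * N)) := by linarith
  · intro s hs1 hs2
    have h4 := tail_bound' A M0 hsR N y (Real.exp N) (Real.exp_pos _).le hy i hiN (s - 1)
    have h5 : ((s - 1 : ℕ) : ℝ) + 1 = s := by
      have h6 : ((s - 1 : ℕ) : ℝ) + 1 = ((s - 1 + 1 : ℕ) : ℝ) := by
        push_cast
        rfl
      rw [h6, Nat.sub_add_cancel hs1]
    rw [h5] at h4
    exact h4.trans (h3 i hi s hs2)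

end Pool.MZExp
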