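import Pool.Agent.Lib.MZExp.Defs
import Pool.Agent.Lib.MZDim.RExp
import Pool.Agent.Lib.MZDim.RTel

/-! MODULE FormEq (E1, about 150 lines). Exponential growth (MP_301213_nt): the linear form as a combination of the c_j(α,v).

PROOF. (1) `beta_pf` (MZDim/RExp): β_l(M+1) = ∑_{j ≤ N} (-1)^j C(N,j) / (t+l+j), t = M+1. (2) Partial fractions with the numerator: for i + 1 ≤ N,
t real ≥ 1: C(t,i) β_l(t) = ∑_j (-1)^j C(N,j) C(-(l+j),i) / (t+l+j), and ∑_j (-1)^j C(N,j) C(-(l+j),i) = 0. Proof: P(x) = x(x-1)..(x-i+1)/i! is a polynomial of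
degree i < N; for a polynomial P of degree ≤ N: P(t) N!/∏_{j≤N}(t+l+j) = ∑_j (-1)^j C(N,j) P(-(l+j))/(t+l+j) + (0, as deg P < N+1) [from (1): P(t) - P(-(l+j)) is
divisible by (t+l+j), the quotients sum to ∑_j (-1)^j C(N,j) Q_t(l+j) with Q_t of degree ≤ i-1 < N in j: N-th difference of a polynomial of degree < N is 0;
Mathlib: `fwdDiff_iter_eq_sum_shift`, `Finset.sum_range_choose_mul_..`, or induction on i: C(t,i+1) (i+1) = C(t,i) (t-i), and with
(t - i)/(t+u) = 1 - (i+u)/(t+u), C(-u,i+1)(i+1) = C(-u,i)(-u-i)]. INDUCTION on i is the easy way: claim S(i): for all i ≤ N: C(t,i) β_l(t) = ∑_j (-1)^j C(N,j) bneg(l+j,i)/(t+l+j), and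
V(i): for i + 1 ≤ N, ∑_j (-1)^j C(N,j) bneg(l+j,i) = 0. V(i): bneg(u,i) = (-1)^i C(u+i-1,i) is a polynomial of degree i in u; N-th differences of C(l+j+i-1,i), i < N, vanish
(`Int.alternating_sum_range_choose..`, or Vandermonde/`Finset.sum` induction on N: f(l,N) = ∑_j (-1)^j C(N,j) C(l+j+i-1,i) satisfies f(l,N+1) = f(l,N) - f(l+1,N), so it is ± C(.., i-N)).
S(i+1) from S(i) and V(i). (3) So with e_j = (-1)^j C(N,j) bneg(l+j,i), ∑ e_j = 0: β_l C(t,i) = ∑_j e_j (1/(t+l+j) - 1/t). (4) form = ∑' M fy · bt · sR v; fy = ∑_l ∑_a y (β_l sR a);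
exchange the finite sums with the tsum: each cc a v (l+j) is summable (|sR a sR v| bounded by zv a zv v (`sR_le_zv`), 1/t - 1/(t+u) ≤ u/t^2, see `summable_Df`). -/

/-! MODULE FormEq (E1, about 150 lines). Exponential growth (MP_301213_nt): the linear form as a combination of the c_j(α,v).

PROOF. (1) `beta_pf` (MZDim/RExp): β_l(M+1) = ∑_{j ≤ N} (-1)^j C(N,j) / (t+l+j), t = M+1. (2) Partial fractions with the numerator: for i + 1 ≤ N,
t real ≥ 1: C(t,i) β_l(t) = ∑_j (-1)^j C(N,j) C(-(l+j),i) / (t+l+j), and ∑_j (-1)^j C(N,j) C(-(l+j),i) = 0. Proof: P(x) = x(x-1)..(x-i+1)/i! is a polynomial of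
degree i < N; for a polynomial P of degree ≤ N: P(t) N!/∏_{j≤N}(t+l+j) = ∑_j (-1)^j C(N,j) P(-(l+j))/(t+l+j) + (0, as deg P < N+1) [from (1): P(t) - P(-(l+j)) is
divisible by (t+l+j), the quotients sum to ∑_j (-1)^j C(N,j) Q_t(l+j) with Q_t of degree ≤ i-1 < N in j: N-th difference of a polynomial of degree < N is 0;
Mathlib: `fwdDiff_iter_eq_sum_shift`, `Finset.sum_range_choose_mul_..`, or induction on i: C(t,i+1) (i+1) = C(t,i) (t-i), and with
(t - i)/(t+u) = 1 - (i+u)/(t+u), C(-u,i+1)(i+1) = C(-u,i)(-u-i)]. INDUCTION on i is the easy way: claim S(i): for all i ≤ N: C(t,i) β_l(t) = ∑_j (-1)^j C(N,j) bneg(l+j,i)/(t+l+j), and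
V(i): for i + 1 ≤ N, ∑_j (-1)^j C(N,j) bneg(l+j,i) = 0. V(i): bneg(u,i) = (-1)^i C(u+i-1,i) is a polynomial of degree i in u; N-th differences of C(l+j+i-1,i), i < N, vanish
(`Int.alternating_sum_range_choose..`, or Vandermonde/`Finset.sum` induction on N: f(l,N) = ∑_j (-1)^j C(N,j) C(l+j+i-1,i) satisfies f(l,N+1) = f(l,N) - f(l+1,N), so it is ± C(.., i-N)).
S(i+1) from S(i) and V(i). (3) So with e_j = (-1)^j C(N,j) bneg(l+j,i), ∑ e_j = 0: β_l C(t,i) = ∑_j e_j (1/(t+l+j) - 1/t). (4) form = ∑' M fy · bt · sR v; fy = ∑_l ∑_a y (β_l sR a);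
exchange the finite sums with the tsum: each cc a v (l+j) is summable (|sR a sR v| bounded by zv a zv v (`sR_le_zv`), 1/t - 1/(t+u) ≤ u/t^2, see `summable_Df`). -/

open HofPers Finset Pool.MZDim
namespace Pool.MZExp

private theorem formeq_pascal (N : ℕ) (h : ℕ → ℝ) :
    ∑ j ∈ range (N + 1 + 1), (-1 : ℝ) ^ j * ((N + 1).choose j : ℝ) * h j =
      ∑ j ∈ range (N + 1), (-1 : ℝ) ^ j * (N.choose j : ℝ) * (h j - h (j + 1)) := by
  rw [Finset.sum_range_succ' _ (N + 1)]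
  have e4 : ∑ j ∈ range (N + 1), (-1 : ℝ) ^ j * (N.choose j : ℝ) * h j =
      ∑ j ∈ range (N + 1), (-1 : ℝ) ^ (j + 1) * (N.choose (j + 1) : ℝ) * h (j + 1) +
        (-1 : ℝ) ^ 0 * (N.choose 0 : ℝ) * h 0 := by
    rw [← Finset.sum_range_succ' (fun j => (-1 : ℝ) ^ j * (N.choose j : ℝ) * h j) (N + 1),
      Finset.sum_range_succ _ (N + 1), Nat.choose_succ_self]
    simp
  have e5 : ∑ j ∈ range (N + 1), (-1 : ℝ) ^ j * (N.choose j : ℝ) * (h j - h (j + 1)) =
      ∑ j ∈ range (N + 1), (-1 : ℝ) ^ j * (N.choose j : ℝ) * h j -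
        ∑ j ∈ range (N + 1), (-1 : ℝ) ^ j * (N.choose j : ℝ) * h (j + 1) := by
    rw [← Finset.sum_sub_distrib]
    exact Finset.sum_congr rfl fun j _ => by ring
  have e6 : ∑ j ∈ range (N + 1), (-1 : ℝ) ^ (j + 1) * ((N + 1).choose (j + 1) : ℝ) * h (j + 1) =
      ∑ j ∈ range (N + 1), (-1 : ℝ) ^ (j + 1) * (N.choose (j + 1) : ℝ) * h (j + 1) -
        ∑ j ∈ range (N + 1), (-1 : ℝ) ^ j * (N.choose j : ℝ) * h (j + 1) := by
    rw [← Finset.sum_sub_distrib]
    refine Finset.sum_congr rfl fun j _ => ?_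
    rw [Nat.choose_succ_succ]
    push_cast
    ring
  rw [e5, e4, e6]
  simp only [Nat.choose_zero_right, pow_zero, Nat.cast_one]
  ring

/-- `V(i)` without sign -/
private theorem formeq_V (N : ℕ) : ∀ (i l : ℕ), i < N →
    ∑ j ∈ range (N + 1), (-1 : ℝ) ^ j * (N.choose j : ℝ) * ((l + j + i - 1).choose i : ℝ) = 0 := by
  induction N with
  | zero => intro i l h; omega
  | succ N ih =>
    intro i l h
    rw [formeq_pascal N (fun j => ((l + j + i - 1).choose i : ℝ))]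
    rcases Nat.eq_zero_or_pos i with rfl | hi
    · simp
    · obtain ⟨k, rfl⟩ : ∃ k, i = k + 1 := ⟨i - 1, by omega⟩
      have h1 := ih k (l + 1) (by omega)
      have h2 : ∀ j ∈ range (N + 1), (-1 : ℝ) ^ j * (N.choose j : ℝ) *
          (((l + j + (k + 1) - 1).choose (k + 1) : ℝ) - ((l + (j + 1) + (k + 1) - 1).choose (k + 1) : ℝ)) =
          -((-1 : ℝ) ^ j * (N.choose j : ℝ) * ((l + 1 + j + k - 1).choose k : ℝ)) := by
        intro j _
        have a1 : l + j + (k + 1) - 1 = l + j + k := by omega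
        have a2 : l + (j + 1) + (k + 1) - 1 = l + j + k + 1 := by omega
        have a3 : l + 1 + j + k - 1 = l + j + k := by omega
        rw [a1, a2, a3, Nat.choose_succ_succ]
        push_cast
        ring
      rw [Finset.sum_congr rfl h2, Finset.sum_neg_distrib, h1, neg_zero]

private theorem formeq_V' (N i l : ℕ) (h : i < N) :
    ∑ j ∈ range (N + 1), (-1 : ℝ) ^ j * (N.choose j : ℝ) * (bneg (l + j) i : ℝ) = 0 := by
  have h1 := formeq_V N i l h
  have h2 : ∀ j ∈ range (N + 1), (-1 : ℝ) ^ j * (N.choose j : ℝ) * (bneg (l + j) i : ℝ) =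
      (-1) ^ i * ((-1 : ℝ) ^ j * (N.choose j : ℝ) * ((l + j + i - 1).choose i : ℝ)) := by
    intro j _
    unfold bneg
    push_cast
    ring
  rw [Finset.sum_congr rfl h2, ← Finset.mul_sum, h1, mul_zero]

private theorem formeq_bneg (u i : ℕ) :
    ((i : ℝ) + 1) * (bneg u (i + 1) : ℝ) = (bneg u i : ℝ) * (-(u : ℝ) - i) := by
  unfold bneg
  push_cast
  rcases Nat.eq_zero_or_pos (u + i) with h0 | hpos
  · have hu : u = 0 := by omega
    have hi : i = 0 := by omega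
    subst hu; subst hi
    simp
  · have h1 : (u + i).choose (i + 1) * (i + 1) = (u + i) * (u + i - 1).choose i := by
      obtain ⟨k, hk⟩ : ∃ k, u + i = k + 1 := ⟨u + i - 1, by omega⟩
      rw [hk, Nat.add_sub_cancel]
      exact (Nat.add_one_mul_choose_eq k i).symm
    have h2 : u + (i + 1) - 1 = u + i := by omega
    rw [h2]
    have h3 : (((u + i).choose (i + 1) : ℕ) : ℝ) * ((i : ℝ) + 1) =
        ((u : ℝ) + i) * (((u + i - 1).choose i : ℕ) : ℝ) := by
      exact_mod_cast h1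
    linear_combination ((-1 : ℝ) ^ (i + 1)) * h3

private theorem formeq_bt (i M : ℕ) :
    ((i : ℝ) + 1) * bt (i + 1) M = bt i M * (((M : ℝ) + 1) - i) := by
  unfold bt
  rcases Nat.lt_or_ge (M + 1) i with h | h
  · rw [Nat.choose_eq_zero_of_lt h, Nat.choose_eq_zero_of_lt (by omega)]
    simp
  · have h1 := Nat.choose_succ_right_eq (M + 1) i
    have h2 : (((M + 1).choose (i + 1) : ℕ) : ℝ) * ((i : ℝ) + 1) =
        (((M + 1).choose i : ℕ) : ℝ) * (((M + 1 - i : ℕ)) : ℝ) := by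
      exact_mod_cast h1
    rw [Nat.cast_sub h] at h2
    push_cast at h2 ⊢
    linear_combination h2

private theorem formeq_S (N l M : ℕ) : ∀ i : ℕ, i ≤ N →
    bt i M * beta N l M = ∑ j ∈ range (N + 1), (-1 : ℝ) ^ j * (N.choose j : ℝ) *
      (bneg (l + j) i : ℝ) * ((M : ℝ) + 1 + l + j)⁻¹ := by
  intro i
  induction i with
  | zero =>
    intro _
    have h1 : bt 0 M = 1 := by simp [bt]
    rw [h1, one_mul, beta_pf]
    refine Finset.sum_congr rfl fun j _ => ?_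
    have h2 : bneg (l + j) 0 = 1 := by simp [bneg]
    rw [h2, Int.cast_one, mul_one]
  | succ i ih =>
    intro hi
    have h1 := ih (by omega)
    have h2 := formeq_V' N i l (by omega)
    have h3 : ((i : ℝ) + 1) ≠ 0 := by positivity
    apply mul_left_cancel₀ h3
    rw [← mul_assoc, formeq_bt, mul_right_comm, h1, Finset.mul_sum, Finset.sum_mul]
    rw [← sub_eq_zero, ← Finset.sum_sub_distrib]
    rw [← h2]
    refine Finset.sum_congr rfl fun j _ => ?_
    have h4 := formeq_bneg (l + j) i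
    have h5 : ((M : ℝ) + 1 + l + j) ≠ 0 := by positivity
    push_cast at h4
    have h6 : ((M : ℝ) + 1 - i) * ((M : ℝ) + 1 + l + j)⁻¹ =
        1 - ((i : ℝ) + (l + j)) * ((M : ℝ) + 1 + l + j)⁻¹ := by
      field_simp
      ring
    linear_combination ((-1 : ℝ) ^ j * (N.choose j : ℝ) * (bneg (l + j) i : ℝ)) * h6 -
      ((-1 : ℝ) ^ j * (N.choose j : ℝ) * ((M : ℝ) + 1 + l + j)⁻¹) * h4

private theorem formeq_S' (N l M i : ℕ) (hi : i + 1 ≤ N) :
    bt i M * beta N l M = ∑ j ∈ range (N + 1), (-1 : ℝ) ^ j * (N.choose j : ℝ) *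
      (bneg (l + j) i : ℝ) * (((M : ℝ) + 1 + (l + j : ℕ))⁻¹ - ((M : ℝ) + 1)⁻¹) := by
  have h1 := formeq_S N l M i (by omega)
  have h2 := formeq_V' N i l (by omega)
  have h3 : ∀ j ∈ range (N + 1), (-1 : ℝ) ^ j * (N.choose j : ℝ) *
      (bneg (l + j) i : ℝ) * (((M : ℝ) + 1 + (l + j : ℕ))⁻¹ - ((M : ℝ) + 1)⁻¹) =
      (-1 : ℝ) ^ j * (N.choose j : ℝ) * (bneg (l + j) i : ℝ) * ((M : ℝ) + 1 + l + j)⁻¹ -
      (-1 : ℝ) ^ j * (N.choose j : ℝ) * (bneg (l + j) i : ℝ) * ((M : ℝ) + 1)⁻¹ := by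
    intro j _
    push_cast
    rw [← add_assoc, mul_sub]
  rw [Finset.sum_congr rfl h3, Finset.sum_sub_distrib, ← Finset.sum_mul, h2, h1]
  ring

private theorem formeq_base2 : Summable fun M : ℕ => (((M : ℝ) + 1) ^ 2)⁻¹ := by
  have h := (summable_nat_add_iff 1).2 (Real.summable_nat_pow_inv.2 one_lt_two)
  refine h.congr fun M => ?_
  push_cast
  rfl

private theorem formeq_summable {a v : List ℕ} (ha : Adm a) (hv : Adm v) (u : ℕ) :
    Summable fun M : ℕ => sR a M * sR v M * (((M : ℝ) + 1 + u)⁻¹ - ((M : ℝ) + 1)⁻¹) := by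
  have hu : (0 : ℝ) ≤ u := Nat.cast_nonneg u
  have key : ∀ M : ℕ, ((M : ℝ) + 1)⁻¹ - ((M : ℝ) + 1 + u)⁻¹ =
      u * (((M : ℝ) + 1)⁻¹ * ((M : ℝ) + 1 + u)⁻¹) := by
    intro M
    have hM : (0 : ℝ) ≤ M := Nat.cast_nonneg M
    have h1 : ((M : ℝ) + 1) ≠ 0 := by positivity
    have h2 : ((M : ℝ) + 1 + u) ≠ 0 := by positivity
    field_simp
    ring
  have h0 : Summable fun M : ℕ => sR a M * sR v M * (((M : ℝ) + 1)⁻¹ - ((M : ℝ) + 1 + u)⁻¹) := by
    refine Summable.of_nonneg_of_le (fun M => ?_) (fun M => ?_)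
      (formeq_base2.mul_left (zv a * zv v * u))
    · rw [key]
      have h1 := sR_nonneg a M
      have h2 := sR_nonneg v M
      positivity
    · rw [key, mul_assoc (zv a * zv v)]
      have hM : (0 : ℝ) ≤ M := Nat.cast_nonneg M
      have h1 := sR_nonneg a M
      have h2 := sR_nonneg v M
      refine mul_le_mul (mul_le_mul (sR_le_zv ha M) (sR_le_zv hv M) h2 (zv_pos ha).le) ?_
        (by positivity) (mul_nonneg (zv_pos ha).le (zv_pos hv).le)
      refine mul_le_mul_of_nonneg_left ?_ hu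
      rw [sq, mul_inv]
      refine mul_le_mul_of_nonneg_left ?_ (by positivity)
      exact inv_anti₀ (by positivity) (by linarith)
  refine h0.neg.congr fun M => ?_
  ring

theorem form_eq (A : Finset (List ℕ)) (hA : ∀ l ∈ A, Adm l) (N : ℕ) (y : ℕ → List ℕ → ℤ) (i : ℕ)
    (hi : i + 1 ≤ N) (v : List ℕ) (hv : Adm v) :
    form A N y i v = ∑ l ∈ range (N + 1), ∑ a ∈ A, (y l a : ℝ) *
      ∑ j ∈ range (N + 1), (-1) ^ j * (N.choose j : ℝ) * (bneg (l + j) i : ℝ) * cc a v (l + j) := by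
  have h1 : ∀ M : ℕ, fy A N y M * bt i M * sR v M =
      ∑ l ∈ range (N + 1), ∑ a ∈ A, ∑ j ∈ range (N + 1),
        ((y l a : ℝ) * ((-1) ^ j * (N.choose j : ℝ) * (bneg (l + j) i : ℝ))) *
          (sR a M * sR v M * (((M : ℝ) + 1 + (l + j : ℕ))⁻¹ - ((M : ℝ) + 1)⁻¹)) := by
    intro M
    unfold fy
    rw [Finset.sum_mul, Finset.sum_mul]
    refine Finset.sum_congr rfl fun l _ => ?_
    rw [Finset.sum_mul, Finset.sum_mul]
    refine Finset.sum_congr rfl fun a _ => ?_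
    have h2 := formeq_S' N l M i hi
    have h3 : (y l a : ℝ) * (beta N l M * sR a M) * bt i M * sR v M =
        (bt i M * beta N l M) * ((y l a : ℝ) * (sR a M * sR v M)) := by ring
    rw [h3, h2, Finset.sum_mul]
    refine Finset.sum_congr rfl fun j _ => ?_
    ring
  have hs : ∀ l, ∀ a ∈ A, ∀ j, Summable fun M : ℕ =>
      ((y l a : ℝ) * ((-1) ^ j * (N.choose j : ℝ) * (bneg (l + j) i : ℝ))) *
          (sR a M * sR v M * (((M : ℝ) + 1 + (l + j : ℕ))⁻¹ - ((M : ℝ) + 1)⁻¹)) :=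
    fun l a ha j => (formeq_summable (hA a ha) hv (l + j)).mul_left _
  unfold form
  rw [tsum_congr h1]
  rw [Summable.tsum_finsetSum fun l _ => summable_sum fun a ha => summable_sum fun j _ => hs l a ha j]
  refine Finset.sum_congr rfl fun l _ => ?_
  rw [Summable.tsum_finsetSum fun a ha => summable_sum fun j _ => hs l a ha j]
  refine Finset.sum_congr rfl fun a ha => ?_
  rw [Summable.tsum_finsetSum fun j _ => hs l a ha j, Finset.mul_sum]
  refine Finset.sum_congr rfl fun j _ => ?_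
  rw [tsum_mul_left, cc]
  ring

end Pool.MZExp
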