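import Pool.Agent.Lib.MZExp.GenCount

/-! Analytic part: a family of subspaces `Z k` of dimension at least `β^k / (A k^B)` is not
contained in the space spanned by the products of weight at most `λ k` of few generators. -/

open Finset Filter Topology

namespace Pool.MZExp.Gen

/-- `dim Z_k ≥ β^k / (A k^B)` -/
def Grows (Z : ℕ → Submodule ℚ ℝ) (β : ℝ) : Prop :=
  ∃ (A : ℝ) (B : ℕ), 0 < A ∧ ∀ k : ℕ, 2 ≤ k → β ^ k ≤ A * (k : ℝ) ^ B * (Module.finrank ℚ (Z k) : ℝ)

theorem inv_le_exp {u : ℝ} (h1 : u < 1) : (1 - u)⁻¹ ≤ Real.exp (u / (1 - u)) := by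
  have h2 : 0 < 1 - u := by linarith
  have h3 : (1 - u)⁻¹ = u / (1 - u) + 1 := by
    field_simp
    ring
  rw [h3]
  exact Real.add_one_le_exp _

/-- dimension bound for at most `C ρ^j` generators of weight `j` -/
theorem finrank_Mon_exp (G : ℕ → Finset ℝ) (M : ℕ) {C ρ y : ℝ} (hC : 0 ≤ C) (hρ : 0 ≤ ρ)
    (hy : 1 < y) (hρy : ρ < y) (hG : ∀ j, 1 ≤ j → ((G j).card : ℝ) ≤ C * ρ ^ j) :
    (Module.finrank ℚ (Submodule.span ℚ (Mon (fun j => (G j : Set ℝ)) M)) : ℝ) ≤
      y ^ M * Real.exp (C / ((1 - y⁻¹) * (1 - ρ * y⁻¹))) := by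
  have hy0 : 0 < y := by linarith
  set x := y⁻¹ with hx
  have h0 : 0 < x := by positivity
  have h1 : x < 1 := inv_lt_one_of_one_lt₀ hy
  have hρx : ρ * x < 1 := by
    rw [hx, ← div_eq_mul_inv, div_lt_one hy0]
    exact hρy
  have hρx0 : 0 ≤ ρ * x := by positivity
  have h2 := finrank_Mon_le G M h0 h1
  have h3 : ∏ j ∈ Icc 1 M, (1 - x ^ j)⁻¹ ^ (G j).card ≤
      Real.exp (C / ((1 - x) * (1 - ρ * x))) := by
    have h4 : ∀ j ∈ Icc 1 M, (1 - x ^ j)⁻¹ ^ (G j).card ≤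
        Real.exp (C / (1 - x) * (ρ * x) ^ j) := by
      intro j hj
      have hj1 := (mem_Icc.1 hj).1
      have h5 : x ^ j ≤ x := pow_le_of_le_one h0.le h1.le (by omega)
      have h6 : 0 < x ^ j := by positivity
      calc (1 - x ^ j)⁻¹ ^ (G j).card ≤ Real.exp (x ^ j / (1 - x ^ j)) ^ (G j).card := by
            have : 0 ≤ (1 - x ^ j)⁻¹ := inv_nonneg.2 (by linarith)
            exact pow_le_pow_left₀ this (inv_le_exp (by linarith)) _
        _ = Real.exp ((G j).card * (x ^ j / (1 - x ^ j))) := by rw [← Real.exp_nat_mul]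
        _ ≤ Real.exp (C / (1 - x) * (ρ * x) ^ j) := by
            apply Real.exp_le_exp.2
            have h7 : x ^ j / (1 - x ^ j) ≤ x ^ j / (1 - x) := by
              apply div_le_div_of_nonneg_left h6.le (by linarith) (by linarith)
            have h8 : 0 ≤ x ^ j / (1 - x) := div_nonneg h6.le (by linarith)
            calc ((G j).card : ℝ) * (x ^ j / (1 - x ^ j)) ≤ (C * ρ ^ j) * (x ^ j / (1 - x)) :=
                  mul_le_mul (hG j hj1) h7 (div_nonneg h6.le (by linarith)) (by positivity)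
              _ = C / (1 - x) * (ρ * x) ^ j := by rw [mul_pow]; ring
    calc ∏ j ∈ Icc 1 M, (1 - x ^ j)⁻¹ ^ (G j).card
        ≤ ∏ j ∈ Icc 1 M, Real.exp (C / (1 - x) * (ρ * x) ^ j) := by
          refine Finset.prod_le_prod (fun j hj => ?_) h4
          have h5 : x ^ j ≤ 1 := pow_le_one₀ h0.le h1.le
          exact pow_nonneg (inv_nonneg.2 (by linarith)) _
      _ = Real.exp (∑ j ∈ Icc 1 M, C / (1 - x) * (ρ * x) ^ j) := by rw [Real.exp_sum]
      _ ≤ Real.exp (C / ((1 - x) * (1 - ρ * x))) := by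
          apply Real.exp_le_exp.2
          rw [← Finset.mul_sum]
          have h5 : ∑ j ∈ Icc 1 M, (ρ * x) ^ j ≤ (1 - ρ * x)⁻¹ := by
            refine le_trans (Finset.sum_le_sum_of_subset_of_nonneg (t := range (M + 1)) ?_ ?_)
              (geom_le hρx0 hρx (M + 1))
            · intro j hj
              have := (mem_Icc.1 hj).2
              exact mem_range.2 (by omega)
            · intro j _ _
              positivity
          have h6 : 0 ≤ C / (1 - x) := div_nonneg hC (by linarith)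
          calc C / (1 - x) * ∑ j ∈ Icc 1 M, (ρ * x) ^ j ≤ C / (1 - x) * (1 - ρ * x)⁻¹ := by gcongr
            _ = C / ((1 - x) * (1 - ρ * x)) := by
              rw [← div_div, div_eq_mul_inv (C / (1 - x))]
  have h4 := h2.trans h3
  have h5 : x ^ M = (y ^ M)⁻¹ := by rw [hx, inv_pow]
  rw [h5, inv_mul_le_iff₀ (by positivity)] at h4
  exact h4

/-- Few generators: if `#G_j ≤ C ρ^j` and `ρ^λ < β` then for all large `k` the space `Z k` is not
contained in the span of the products of total weight at most `λ k`. -/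
theorem few_generators {Z : ℕ → Submodule ℚ ℝ} {β : ℝ} (hZ : Grows Z β)
    {C ρ lam : ℝ} (hC : 0 ≤ C) (hρ : 1 ≤ ρ) (hβ1 : 1 < β) (h : ρ ^ lam < β) :
    ∃ k0 : ℕ, ∀ k : ℕ, k0 ≤ k → ∀ G : ℕ → Finset ℝ,
      (∀ j, 1 ≤ j → ((G j).card : ℝ) ≤ C * ρ ^ j) → ∀ M : ℕ, (M : ℝ) ≤ lam * k →
      ¬ Z k ≤ Submodule.span ℚ (Mon (fun j => (G j : Set ℝ)) M) := by
  obtain ⟨A, B, hA, hgr⟩ := hZ
  have hβ0 : 0 < β := by linarith
  -- choose y with ρ < y, 1 < y and y ^ lam < β
  obtain ⟨y, hρy, hyβ⟩ : ∃ y : ℝ, ρ < y ∧ y ^ lam < β := by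
    have hcont : ContinuousAt (fun t : ℝ => t ^ lam) ρ :=
      Real.continuousAt_rpow_const ρ lam (Or.inl (by linarith))
    have hev : ∀ᶠ t in 𝓝 ρ, t ^ lam < β := hcont.eventually_lt continuousAt_const h
    have hev2 : ∀ᶠ t in 𝓝[>] ρ, t ^ lam < β := nhdsWithin_le_nhds hev
    obtain ⟨y, hy1, hy2⟩ := (hev2.and self_mem_nhdsWithin).exists
    exact ⟨y, hy2, hy1⟩
  have hy1 : 1 < y := by linarith
  have hy0 : 0 < y := by linarith
  set E := Real.exp (C / ((1 - y⁻¹) * (1 - ρ * y⁻¹))) with hE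
  have hE0 : 0 < E := Real.exp_pos _
  set q := y ^ lam / β with hq
  have hyl : 0 < y ^ lam := Real.rpow_pos_of_pos hy0 _
  have hq0 : 0 < q := by positivity
  have hq1 : q < 1 := by rwa [hq, div_lt_one hβ0]
  have hlim := tendsto_pow_const_mul_const_pow_of_abs_lt_one B
    (show |q| < 1 by rw [abs_of_pos hq0]; exact hq1)
  have hev := (tendsto_order.1 hlim).2 ((A * E)⁻¹) (by positivity)
  obtain ⟨k0, hk0⟩ := (hev.and (eventually_ge_atTop 2)).exists_forall_of_atTop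
  refine ⟨k0, fun k hk G hG M hM hle => ?_⟩
  obtain ⟨h1, h2⟩ := hk0 k hk
  have := span_Mon_finite G M
  have h3 : (Module.finrank ℚ (Z k) : ℝ) ≤ y ^ M * E := by
    refine le_trans ?_ (finrank_Mon_exp G M hC (by linarith) hy1 hρy hG)
    exact_mod_cast Submodule.finrank_mono hle
  have h4 : y ^ M ≤ (y ^ lam) ^ k := by
    rw [← Real.rpow_natCast, ← Real.rpow_natCast, ← Real.rpow_mul hy0.le]
    exact Real.rpow_le_rpow_of_exponent_le hy1.le hM
  have h5 := hgr k h2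
  have hk1 : (0 : ℝ) ≤ (k : ℝ) ^ B := by positivity
  have h6 : β ^ k ≤ A * (k : ℝ) ^ B * ((y ^ lam) ^ k * E) := by
    refine h5.trans ?_
    have : (Module.finrank ℚ (Z k) : ℝ) ≤ (y ^ lam) ^ k * E :=
      h3.trans (mul_le_mul_of_nonneg_right h4 hE0.le)
    exact mul_le_mul_of_nonneg_left this (by positivity)
  have h7 : (y ^ lam) ^ k = q ^ k * β ^ k := by
    rw [hq, div_pow, div_mul_cancel₀]
    positivity
  rw [h7] at h6
  have hβk : 0 < β ^ k := by positivity
  have h8 : 1 ≤ A * E * ((k : ℝ) ^ B * q ^ k) := by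
    have h9 : β ^ k * 1 ≤ β ^ k * (A * E * ((k : ℝ) ^ B * q ^ k)) := by
      rw [mul_one]
      refine h6.trans (le_of_eq ?_)
      ring
    exact le_of_mul_le_mul_left h9 hβk
  have h10 : A * E * ((k : ℝ) ^ B * q ^ k) < A * E * (A * E)⁻¹ :=
    mul_lt_mul_of_pos_left h1 (by positivity)
  rw [mul_inv_cancel₀ (by positivity)] at h10
  linarith

end Pool.MZExp.Gen
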