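import Mathlib

/-! Counting products of generators. `Mon G M` is the set of all products of elements of the sets
`G j` (an element of `G j` has weight `j`), `j ≥ 1`, of total weight at most `M`. -/

open Finset

namespace Pool.MZExp.Gen

/-- products of elements of the sets `G j` (weight `j ≥ 1`), total weight at most `M` -/
def Mon (G : ℕ → Set ℝ) (M : ℕ) : Set ℝ :=
  {x | ∃ L : List (ℕ × ℝ), (∀ p ∈ L, 1 ≤ p.1 ∧ p.2 ∈ G p.1) ∧ (L.map Prod.fst).sum ≤ M ∧
    x = (L.map Prod.snd).prod}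

theorem Mon_mono {G H : ℕ → Set ℝ} (h : ∀ j, 1 ≤ j → G j ⊆ H j) {M N : ℕ} (hMN : M ≤ N) :
    Mon G M ⊆ Mon H N := by
  rintro x ⟨L, h1, h2, rfl⟩
  exact ⟨L, fun p hp => ⟨(h1 p hp).1, h _ (h1 p hp).1 (h1 p hp).2⟩, h2.trans hMN, rfl⟩

theorem Mon_mul {G : ℕ → Set ℝ} {M N : ℕ} {x y : ℝ} (hx : x ∈ Mon G M) (hy : y ∈ Mon G N) :
    x * y ∈ Mon G (M + N) := by
  obtain ⟨L, h1, h2, rfl⟩ := hx
  obtain ⟨L', h1', h2', rfl⟩ := hy
  refine ⟨L ++ L', ?_, ?_, ?_⟩
  · intro p hp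
    rcases List.mem_append.1 hp with hp | hp
    · exact h1 p hp
    · exact h1' p hp
  · rw [List.map_append, List.sum_append]
    exact Nat.add_le_add h2 h2'
  · rw [List.map_append, List.prod_append]

theorem mem_Mon {G : ℕ → Set ℝ} {j : ℕ} {x : ℝ} (hj : 1 ≤ j) (hx : x ∈ G j) : x ∈ Mon G j :=
  ⟨[(j, x)], by simpa using ⟨hj, hx⟩, by simp, by simp⟩

theorem geom_le {u : ℝ} (h0 : 0 ≤ u) (h1 : u < 1) (m : ℕ) : ∑ n ∈ range m, u ^ n ≤ (1 - u)⁻¹ := by
  have h2 : 0 < 1 - u := by linarith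
  have h3 := geom_sum_mul_neg u m
  have h4 : (0 : ℝ) ≤ u ^ m := pow_nonneg h0 m
  rw [← mul_le_mul_iff_left₀ h2, inv_mul_cancel₀ h2.ne', h3]
  linarith

open Classical in
/-- the finite set of generators with their weights -/
noncomputable def gens (G : ℕ → Finset ℝ) (M : ℕ) : Finset (ℕ × ℝ) :=
  (Icc 1 M).biUnion fun j => (G j).image (Prod.mk j)

theorem mem_gens {G : ℕ → Finset ℝ} {M : ℕ} {p : ℕ × ℝ} :
    p ∈ gens G M ↔ (1 ≤ p.1 ∧ p.1 ≤ M) ∧ p.2 ∈ G p.1 := by
  classical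
  unfold gens
  simp only [mem_biUnion, mem_image, mem_Icc]
  constructor
  · rintro ⟨j, hj, x, hx, rfl⟩
    exact ⟨hj, hx⟩
  · rintro ⟨hj, hx⟩
    exact ⟨p.1, hj, p.2, hx, rfl⟩

open Classical in
/-- exponent vectors of total weight at most `M` -/
noncomputable def expo (G : ℕ → Finset ℝ) (M : ℕ) : Finset (gens G M → ℕ) :=
  (Fintype.piFinset fun _ : gens G M => range (M + 1)).filter
    fun f => ∑ p, f p * p.1.1 ≤ M

theorem Mon_subset (G : ℕ → Finset ℝ) (M : ℕ) :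
    Mon (fun j => (G j : Set ℝ)) M ⊆
      ((expo G M : Set (gens G M → ℕ)).image fun f => ∏ p, p.1.2 ^ f p) := by
  classical
  rintro x ⟨L, h1, h2, rfl⟩
  have hle : ∀ p ∈ L, p.1 ≤ M := fun p hp =>
    (List.single_le_sum (fun _ _ => Nat.zero_le _) _ (List.mem_map_of_mem hp)).trans h2
  let s : Multiset (ℕ × ℝ) := (L : Multiset (ℕ × ℝ))
  have hs1 : (s.map Prod.fst).sum = (L.map Prod.fst).sum := by simp [s]
  have hs2 : (s.map Prod.snd).prod = (L.map Prod.snd).prod := by simp [s]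
  have hmem : ∀ p, p ∈ s ↔ p ∈ L := fun p => by simp [s]
  have hsub : s.toFinset ⊆ gens G M := by
    intro p hp
    have hp' : p ∈ L := (hmem p).1 (Multiset.mem_toFinset.1 hp)
    exact mem_gens.2 ⟨⟨(h1 p hp').1, hle p hp'⟩, (h1 p hp').2⟩
  have hsum : ∑ p ∈ gens G M, s.count p * p.1 = (L.map Prod.fst).sum := by
    rw [← hs1, Finset.sum_multiset_map_count s Prod.fst]
    symm
    refine Finset.sum_subset (f := fun p : ℕ × ℝ => s.count p * p.1) hsub fun p _ hp => ?_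
    rw [Multiset.mem_toFinset] at hp
    show s.count p * p.1 = 0
    rw [Multiset.count_eq_zero.2 hp, zero_mul]
  refine ⟨fun p => s.count p.1, ?_, ?_⟩
  · show (fun p : gens G M => s.count p.1) ∈ (expo G M : Set (gens G M → ℕ))
    rw [Finset.mem_coe]
    unfold expo
    rw [Finset.mem_filter, Fintype.mem_piFinset]
    have h3 : ∑ p : gens G M, s.count p.1 * p.1.1 = (L.map Prod.fst).sum := by
      rw [← hsum]
      exact Finset.sum_coe_sort (gens G M) (fun p => s.count p * p.1)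
    refine ⟨fun p => ?_, by rw [h3]; exact h2⟩
    rw [mem_range]
    have h4 : s.count p.1 * p.1.1 ≤ ∑ p : gens G M, s.count p.1 * p.1.1 :=
      Finset.single_le_sum (f := fun p : gens G M => s.count p.1 * p.1.1)
        (fun _ _ => Nat.zero_le _) (Finset.mem_univ p)
    have h5 : 1 ≤ p.1.1 := (mem_gens.1 p.2).1.1
    have h6 : s.count p.1 ≤ s.count p.1 * p.1.1 := Nat.le_mul_of_pos_right _ h5
    omega
  · show ∏ p : gens G M, p.1.2 ^ s.count p.1 = (L.map Prod.snd).prod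
    rw [← hs2, Finset.prod_multiset_map_count s Prod.snd,
      Finset.prod_coe_sort (gens G M) (fun p => p.2 ^ s.count p)]
    symm
    refine Finset.prod_subset (f := fun p : ℕ × ℝ => p.2 ^ s.count p) hsub fun p _ hp => ?_
    rw [Multiset.mem_toFinset] at hp
    show p.2 ^ s.count p = 1
    rw [Multiset.count_eq_zero.2 hp, pow_zero]

theorem card_expo_le (G : ℕ → Finset ℝ) (M : ℕ) {x : ℝ} (h0 : 0 < x) (h1 : x < 1) :
    x ^ M * ((expo G M).card : ℝ) ≤ ∏ p ∈ gens G M, (1 - x ^ p.1)⁻¹ := by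
  classical
  have hx : ∀ p : gens G M, 0 ≤ x ^ p.1.1 ∧ x ^ p.1.1 < 1 := fun p =>
    ⟨by positivity, pow_lt_one₀ h0.le h1 (by have := (mem_gens.1 p.2).1.1; omega)⟩
  calc x ^ M * ((expo G M).card : ℝ) = ∑ _f ∈ expo G M, x ^ M := by
        rw [Finset.sum_const, nsmul_eq_mul, mul_comm]
    _ ≤ ∑ f ∈ expo G M, ∏ p, (x ^ p.1.1) ^ f p := by
        refine Finset.sum_le_sum fun f hf => ?_
        unfold expo at hf
        have h2 := (Finset.mem_filter.1 hf).2
        have h3 : ∏ p : gens G M, (x ^ p.1.1) ^ f p = x ^ ∑ p, f p * p.1.1 := by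
          rw [← Finset.prod_pow_eq_pow_sum]
          refine Finset.prod_congr rfl fun p _ => ?_
          rw [← pow_mul, mul_comm]
        rw [h3]
        exact pow_le_pow_of_le_one h0.le h1.le h2
    _ ≤ ∑ f ∈ Fintype.piFinset fun _ : gens G M => range (M + 1), ∏ p, (x ^ p.1.1) ^ f p := by
        refine Finset.sum_le_sum_of_subset_of_nonneg (Finset.filter_subset _ _) fun f _ _ => ?_
        positivity
    _ = ∏ p : gens G M, ∑ n ∈ range (M + 1), (x ^ p.1.1) ^ n := by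
        rw [Finset.prod_univ_sum]
    _ ≤ ∏ p : gens G M, (1 - x ^ p.1.1)⁻¹ := by
        refine Finset.prod_le_prod (fun p _ => ?_) fun p _ => geom_le (hx p).1 (hx p).2 _
        exact Finset.sum_nonneg fun n _ => pow_nonneg (hx p).1 n
    _ = ∏ p ∈ gens G M, (1 - x ^ p.1)⁻¹ :=
        Finset.prod_coe_sort (gens G M) (fun p => (1 - x ^ p.1)⁻¹)

theorem prod_gens_le (G : ℕ → Finset ℝ) (M : ℕ) {h : ℕ → ℝ} (hh : ∀ j, 1 ≤ j → 1 ≤ h j) :
    ∏ p ∈ gens G M, h p.1 ≤ ∏ j ∈ Icc 1 M, h j ^ (G j).card := by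
  classical
  have hm : ∀ p ∈ gens G M, p.1 ∈ Icc 1 M := fun p hp => mem_Icc.2 (mem_gens.1 hp).1
  rw [← Finset.prod_fiberwise_of_maps_to hm]
  refine Finset.prod_le_prod (fun j _ => Finset.prod_nonneg fun p hp => ?_) fun j hj => ?_
  · have h1 := (mem_gens.1 (Finset.mem_filter.1 hp).1).1.1
    exact zero_le_one.trans (hh _ h1)
  · have h2 : ∏ p ∈ gens G M with p.1 = j, h p.1 = h j ^ ((gens G M).filter fun p => p.1 = j).card := by
      rw [Finset.prod_congr rfl (g := fun _ => h j)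
        (fun p hp => by rw [(Finset.mem_filter.1 hp).2]), Finset.prod_const]
    rw [h2]
    refine pow_le_pow_right₀ (hh _ (mem_Icc.1 hj).1) ?_
    refine Finset.card_le_card_of_injOn Prod.snd (fun p hp => ?_) fun p hp q hq hpq => ?_
    · have hp' := Finset.mem_filter.1 (Finset.mem_coe.1 hp)
      have := (mem_gens.1 hp'.1).2
      rw [hp'.2] at this
      exact Finset.mem_coe.2 this
    · have hp' := (Finset.mem_filter.1 (Finset.mem_coe.1 hp)).2
      have hq' := (Finset.mem_filter.1 (Finset.mem_coe.1 hq)).2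
      exact Prod.ext (hp'.trans hq'.symm) hpq

/-- `x^M · dim (span of the products of weight ≤ M) ≤ ∏_{j ≤ M} (1 - x^j)^(-#G_j)` -/
theorem finrank_Mon_le (G : ℕ → Finset ℝ) (M : ℕ) {x : ℝ} (h0 : 0 < x) (h1 : x < 1) :
    x ^ M * (Module.finrank ℚ (Submodule.span ℚ (Mon (fun j => (G j : Set ℝ)) M)) : ℝ) ≤
      ∏ j ∈ Icc 1 M, (1 - x ^ j)⁻¹ ^ (G j).card := by
  classical
  let I : Finset ℝ := (expo G M).image fun f => ∏ p, p.1.2 ^ f p
  have hI : Mon (fun j => (G j : Set ℝ)) M ⊆ (I : Set ℝ) := by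
    have := Mon_subset G M
    rwa [← Finset.coe_image] at this
  have h2 : Module.finrank ℚ (Submodule.span ℚ (Mon (fun j => (G j : Set ℝ)) M)) ≤ (expo G M).card := by
    refine le_trans (Submodule.finrank_mono (Submodule.span_mono hI)) ?_
    exact (finrank_span_finset_le_card I).trans Finset.card_image_le
  have hge : ∀ j, 1 ≤ j → 1 ≤ (1 - x ^ j)⁻¹ := by
    intro j hj
    have h3 : x ^ j < 1 := pow_lt_one₀ h0.le h1 (by omega)
    have h4 : 0 < x ^ j := by positivity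
    rw [one_le_inv₀ (by linarith)]
    linarith
  calc x ^ M * (Module.finrank ℚ (Submodule.span ℚ (Mon (fun j => (G j : Set ℝ)) M)) : ℝ)
      ≤ x ^ M * ((expo G M).card : ℝ) := by
        have : (Module.finrank ℚ (Submodule.span ℚ (Mon (fun j => (G j : Set ℝ)) M)) : ℝ) ≤
            ((expo G M).card : ℝ) := by exact_mod_cast h2
        gcongr
    _ ≤ ∏ p ∈ gens G M, (1 - x ^ p.1)⁻¹ := card_expo_le G M h0 h1
    _ ≤ ∏ j ∈ Icc 1 M, (1 - x ^ j)⁻¹ ^ (G j).card :=
        prod_gens_le G M (h := fun j => (1 - x ^ j)⁻¹) hge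

theorem span_Mon_finite (G : ℕ → Finset ℝ) (M : ℕ) :
    Module.Finite ℚ (Submodule.span ℚ (Mon (fun j => (G j : Set ℝ)) M)) := by
  classical
  exact FiniteDimensional.span_of_finite ℚ
    (((expo G M).finite_toSet.image _).subset (Mon_subset G M))

end Pool.MZExp.Gen
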