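import Pool.Agent.Lib.MZExp.XLower
import Pool.Agent.Lib.MP_301213_nt.Main
import Pool.Agent.Lib.MZDim.LinW

/-! MP_301213_nt, PHASE 2: `2^k ≤ 4718592 k^6 (dim Z_k)^4` for all `k ≥ 2`. -/

open Finset Pool.MZDim Filter Topology

namespace Pool.MZExp

/-- the span of all multiple zeta values of weight `k` -/
noncomputable def ZT (k : ℕ) : Submodule ℚ ℝ :=
  Submodule.span ℚ ((fun l : List ℕ => HofPers.T l 0) '' {l | Adm1 l ∧ l.sum = k})

theorem adm1_finite (k : ℕ) : {l : List ℕ | Adm1 l ∧ l.sum = k}.Finite :=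
  (WT k).finite_toSet.subset fun _ hl => mem_WT.2 ⟨hl.1, hl.2.le⟩

instance finite_ZT (k : ℕ) : Module.Finite ℚ (ZT k) := by
  unfold ZT
  exact FiniteDimensional.span_of_finite ℚ ((adm1_finite k).image _)

theorem T_mem_ZT {l : List ℕ} (h : Adm1 l) : HofPers.T l 0 ∈ ZT l.sum :=
  Submodule.subset_span ⟨l, ⟨h, rfl⟩, rfl⟩

private theorem mul_mem_ZT {k m : ℕ} {x y : ℝ} (hx : x ∈ ZT k) (hy : y ∈ ZT m) : x * y ∈ ZT (k + m) := by
  induction hx using Submodule.span_induction with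
  | zero =>
    rw [zero_mul]
    exact Submodule.zero_mem _
  | add x x' _ _ h h' =>
    rw [add_mul]
    exact Submodule.add_mem _ h h'
  | smul q x _ h =>
    rw [smul_mul_assoc]
    exact Submodule.smul_mem _ _ h
  | mem x hx =>
    obtain ⟨l, ⟨h1, h2⟩, rfl⟩ := hx
    induction hy using Submodule.span_induction with
    | zero =>
      rw [mul_zero]
      exact Submodule.zero_mem _
    | add x x' _ _ h h' =>
      rw [mul_add]
      exact Submodule.add_mem _ h h'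
    | smul q x _ h =>
      rw [mul_smul_comm]
      exact Submodule.smul_mem _ _ h
    | mem y hy =>
      obtain ⟨v, ⟨h3, h4⟩, rfl⟩ := hy
      obtain ⟨L, hL1, hL2⟩ := stuffle_t l v h1 h3
      show HofPers.T l 0 * HofPers.T v 0 ∈ ZT (k + m)
      rw [hL2]
      have key : ∀ L : List (List ℕ), (∀ g ∈ L, Adm1 g ∧ g.sum = l.sum + v.sum) →
          (L.map fun g => HofPers.T g 0).sum ∈ ZT (k + m) := by
        intro L
        induction L with
        | nil =>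
          intro _
          simp
        | cons g L ih =>
          intro h
          rw [List.map_cons, List.sum_cons]
          refine Submodule.add_mem _ ?_ (ih fun g' hg' => h g' (List.mem_cons_of_mem _ hg'))
          obtain ⟨h5, h6⟩ := h g List.mem_cons_self
          have := T_mem_ZT h5
          rw [h6, h2, h4] at this
          exact this
      exact key L hL1

private theorem finrank_add {k m : ℕ} {c : ℝ} (hc : c ∈ ZT m) (hc0 : c ≠ 0) :
    Module.finrank ℚ (ZT k) ≤ Module.finrank ℚ (ZT (k + m)) := by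
  let f : ZT k →ₗ[ℚ] ZT (k + m) :=
    { toFun := fun x => ⟨x.1 * c, mul_mem_ZT x.2 hc⟩
      map_add' := fun x y => Subtype.ext (by simp [add_mul])
      map_smul' := fun q x => Subtype.ext (by simp) }
  refine LinearMap.finrank_le_finrank_of_injective (f := f) ?_
  intro x y h
  have h1 : x.1 * c = y.1 * c := congrArg Subtype.val h
  exact Subtype.ext (mul_right_cancel₀ hc0 h1)

theorem finrank_mono_T {k m : ℕ} (h : k + 2 ≤ m) :
    Module.finrank ℚ (ZT k) ≤ Module.finrank ℚ (ZT m) := by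
  have h1 : Adm1 [m - k] := adm1_single.2 (by omega)
  have h2 := T_mem_ZT h1
  have h3 : ([m - k] : List ℕ).sum = m - k := by simp
  rw [h3] at h2
  have h4 := finrank_add (k := k) h2 (T_pos1 h1 0).ne'
  have h5 : k + (m - k) = m := by omega
  rwa [h5] at h4

theorem one_le_finrank {k : ℕ} (h : 2 ≤ k) : 1 ≤ Module.finrank ℚ (ZT k) := by
  have h1 : Adm1 [k] := adm1_single.2 h
  have h2 := T_mem_ZT h1
  have h3 : ([k] : List ℕ).sum = k := by simp
  rw [h3] at h2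
  have : 0 < Module.finrank ℚ (ZT k) := by
    rw [Module.finrank_pos_iff]
    exact ⟨⟨⟨_, h2⟩, 0, fun h0 => (T_pos1 h1 0).ne' (congrArg Subtype.val h0)⟩⟩
  exact this

private theorem HT_succ_le (K : ℕ) : HT (K + 1) ≤ HT K ⊔ ZT (K + 1) := by
  unfold HT
  rw [Submodule.span_le]
  rintro x ⟨⟨l, hl⟩, rfl⟩
  obtain ⟨h1, h2⟩ := mem_WT.1 hl
  rcases Nat.lt_or_ge K l.sum with h3 | h3
  · have h4 : l.sum = K + 1 := by omega
    have h5 := T_mem_ZT h1
    rw [h4] at h5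
    exact Submodule.mem_sup_right h5
  · exact Submodule.mem_sup_left (Submodule.subset_span ⟨⟨l, mem_WT.2 ⟨h1, h3⟩⟩, rfl⟩)

instance finite_HT (K : ℕ) : Module.Finite ℚ (HT K) := by
  unfold HT
  exact FiniteDimensional.span_of_finite ℚ (Set.finite_range _)

theorem finrank_HT_le (K : ℕ) :
    Module.finrank ℚ (HT K) ≤ ∑ k ∈ range (K + 1), Module.finrank ℚ (ZT k) := by
  induction K with
  | zero =>
    rw [Finset.sum_range_one]
    have hle : HT 0 ≤ ZT 0 := by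
      unfold HT
      rw [Submodule.span_le]
      rintro x ⟨⟨l, hl⟩, rfl⟩
      obtain ⟨h1, h2⟩ := mem_WT.1 hl
      have h4 : l.sum = 0 := by omega
      have := T_mem_ZT h1
      rw [h4] at this
      exact this
    exact Submodule.finrank_mono hle
  | succ K ih =>
    rw [Finset.sum_range_succ]
    calc Module.finrank ℚ (HT (K + 1)) ≤ Module.finrank ℚ ((HT K ⊔ ZT (K + 1) : Submodule ℚ ℝ)) :=
          Submodule.finrank_mono (HT_succ_le K)
      _ ≤ Module.finrank ℚ (HT K) + Module.finrank ℚ (ZT (K + 1)) :=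
          Submodule.finrank_add_le_finrank_add_finrank _ _
      _ ≤ _ := by omega

theorem finrank_HT_le_mul {K k : ℕ} (h : K + 2 ≤ k) :
    Module.finrank ℚ (HT K) ≤ (K + 1) * Module.finrank ℚ (ZT k) := by
  refine (finrank_HT_le K).trans ?_
  calc ∑ k' ∈ range (K + 1), Module.finrank ℚ (ZT k')
      ≤ ∑ _k' ∈ range (K + 1), Module.finrank ℚ (ZT k) := by
        refine Finset.sum_le_sum fun k' hk' => finrank_mono_T ?_
        rw [Finset.mem_range] at hk'
        omega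
    _ = (K + 1) * Module.finrank ℚ (ZT k) := by
        rw [Finset.sum_const, Finset.card_range, smul_eq_mul]

/-- the lower bound for one choice of `W` -/
private theorem lower_W {W k : ℕ} (hW : 1 ≤ W) (hk : 2 * W + 6 ≤ k) :
    (Nat.sqrt ((3 * (2 * W + 4) * 2 ^ (W - 1) - 1) / 2)) + 1 ≤
      (12 * (2 * W + 4) ^ 2 + 23 * (2 * W + 4) + 16) * Module.finrank ℚ (ZT k) := by
  set K : ℕ := 2 * W + 4 with hK
  set d : ℕ := Module.finrank ℚ (ZT k) with hd
  have hd1 : 1 ≤ d := one_le_finrank (by omega)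
  set m : ℕ := 3 * K * 2 ^ (W - 1) with hm
  set X : ℕ := Nat.sqrt ((m - 1) / 2) with hX
  have hm1 : 1 ≤ m := by
    have : 0 < 2 ^ (W - 1) := by positivity
    have : 0 < 3 * K * 2 ^ (W - 1) := by positivity
    omega
  rcases Nat.lt_or_ge X (6 * K + 10) with h1 | h1
  · calc X + 1 ≤ 6 * K + 10 := h1
      _ ≤ (12 * K ^ 2 + 23 * K + 16) * 1 := by nlinarith
      _ ≤ _ := Nat.mul_le_mul_left _ hd1
  · obtain ⟨Dl, hDl⟩ : ∃ Dl, X = Dl + 2 * (3 * K) + 10 := ⟨X - 6 * K - 10, by omega⟩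
    have hX2 : X * X ≤ (m - 1) / 2 := Nat.sqrt_le _
    have h2 : 2 * X ^ 2 + 1 ≤ m := by
      have : 2 * (X * X) ≤ m - 1 := by omega
      rw [sq]
      omega
    have hcard : 2 * (Dl + 2 * (3 * K) + 10) ^ 2 + 1 ≤ 3 * K * (WT W).card := by
      rw [card_WT, ← hDl]
      exact h2
    have hD : Dl ≤ 2 ^ (3 * K) := by
      have h3 : 3 * K ≤ 2 ^ (3 * K) := (Nat.lt_two_pow_self).le
      have h4 : 2 ^ (W - 1) ≤ 2 ^ (3 * K) := Nat.pow_le_pow_right (by norm_num) (by omega)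
      have h5 : m ≤ 2 ^ (3 * K) * 2 ^ (3 * K) := Nat.mul_le_mul h3 h4
      by_contra hcon
      push Not at hcon
      have h6 : 2 ^ (3 * K) ≤ X := by omega
      have h7 := Nat.mul_le_mul h6 h6
      have h8 : X * X < m := by rw [sq] at h2; omega
      omega
    have h3 := lowerT (WT W) (WT (W + 3)) W (W + 3) Dl (3 * K) (TC1_WT W) (TC1_WT (W + 3))
      (fun l hl => (mem_WT.1 hl).2) (fun l hl => (mem_WT.1 hl).2) (by omega) hD hcard
      (by
        rw [card_WT, card_WT]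
        have : W + 3 - 1 = (W - 1) + 3 := by omega
        rw [this, pow_add]
        have : 0 < 2 ^ (W - 1) := by positivity
        omega)
    have hKK : W + (W + 3) + 1 = K := by omega
    rw [hKK] at h3
    have h4 := finrank_HT_le_mul (K := K) (k := k) (by omega)
    rw [← hd] at h4
    set r : ℕ := Module.finrank ℚ (HT K)
    have h5 : (Dl : ℝ) + 3 * K + 3 ≤ (12 * (K : ℝ) + 8) * r := by
      push_cast at h3
      nlinarith
    have h6 : Dl + 3 * K + 3 ≤ (12 * K + 8) * r := by exact_mod_cast h5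
    have h7 : (12 * K + 8) * r ≤ (12 * K + 8) * ((K + 1) * d) := Nat.mul_le_mul_left _ h4
    calc X + 1 = (Dl + 3 * K + 3) + (3 * K + 8) * 1 := by omega
      _ ≤ (12 * K + 8) * ((K + 1) * d) + (3 * K + 8) * d :=
          Nat.add_le_add (h6.trans h7) (Nat.mul_le_mul_left _ hd1)
      _ = _ := by ring

private theorem lower_int {k : ℕ} (hk : 8 ≤ k) :
    2 ^ k ≤ 4718592 * k ^ 6 * Module.finrank ℚ (ZT k) ^ 4 := by
  obtain ⟨W, hW⟩ : ∃ W, W = (k - 6) / 2 := ⟨_, rfl⟩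
  have h1 := lower_W (W := W) (k := k) (by omega) (by omega)
  set K : ℕ := 2 * W + 4 with hK
  set d : ℕ := Module.finrank ℚ (ZT k) with hd
  set m : ℕ := 3 * K * 2 ^ (W - 1) with hm
  set X : ℕ := Nat.sqrt ((m - 1) / 2) with hX
  have hX2 : (m - 1) / 2 < (X + 1) * (X + 1) := Nat.lt_succ_sqrt _
  have h2 : 3 * K * 2 ^ W ≤ 4 * ((X + 1) * (X + 1)) := by
    have h3 : m ≤ 2 * ((X + 1) * (X + 1)) := by omega
    have h4 : 2 ^ W = 2 * 2 ^ (W - 1) := by
      rw [← pow_succ']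
      congr 1
      omega
    calc 3 * K * 2 ^ W = 2 * m := by rw [h4, hm]; ring
      _ ≤ 2 * (2 * ((X + 1) * (X + 1))) := Nat.mul_le_mul_left 2 h3
      _ = _ := by ring
  have h3 : (12 * K ^ 2 + 23 * K + 16) ^ 2 ≤ 144 * (K * (K + 2) ^ 3) := by
    have hK1 : 1 ≤ K := by omega
    nlinarith [Nat.zero_le (K ^ 3), Nat.zero_le (K ^ 2), Nat.mul_le_mul hK1 hK1, sq_nonneg K]
  have h4 : (X + 1) * (X + 1) ≤ 144 * (K * (K + 2) ^ 3) * d ^ 2 := by
    calc (X + 1) * (X + 1) ≤ ((12 * K ^ 2 + 23 * K + 16) * d) * ((12 * K ^ 2 + 23 * K + 16) * d) :=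
          Nat.mul_le_mul h1 h1
      _ = (12 * K ^ 2 + 23 * K + 16) ^ 2 * d ^ 2 := by ring
      _ ≤ _ := Nat.mul_le_mul_right _ h3
  have h5 : 2 ^ W ≤ 192 * (K + 2) ^ 3 * d ^ 2 := by
    have hK1 : 0 < 3 * K := by omega
    have h6 : 3 * K * 2 ^ W ≤ 3 * K * (192 * (K + 2) ^ 3 * d ^ 2) := by
      calc 3 * K * 2 ^ W ≤ 4 * ((X + 1) * (X + 1)) := h2
        _ ≤ 4 * (144 * (K * (K + 2) ^ 3) * d ^ 2) := Nat.mul_le_mul_left 4 h4
        _ = _ := by ring
    exact Nat.le_of_mul_le_mul_left h6 hK1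
  have h6 : K + 2 ≤ k := by omega
  calc 2 ^ k ≤ 2 ^ (2 * W + 7) := Nat.pow_le_pow_right (by norm_num) (by omega)
    _ = 128 * (2 ^ W * 2 ^ W) := by rw [pow_add, two_mul, pow_add]; ring
    _ ≤ 128 * ((192 * (K + 2) ^ 3 * d ^ 2) * (192 * (K + 2) ^ 3 * d ^ 2)) :=
        Nat.mul_le_mul_left _ (Nat.mul_le_mul h5 h5)
    _ = 4718592 * (K + 2) ^ 6 * d ^ 4 := by ring
    _ ≤ 4718592 * k ^ 6 * d ^ 4 :=
        Nat.mul_le_mul_right _ (Nat.mul_le_mul_left _ (Nat.pow_le_pow_left h6 6))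

/-- EXPONENTIAL GROWTH, integer form -/
theorem dim_int {k : ℕ} (hk : 2 ≤ k) :
    2 ^ k ≤ 4718592 * k ^ 6 * Module.finrank ℚ (ZT k) ^ 4 := by
  rcases Nat.lt_or_ge k 8 with h | h
  · have h1 : 1 ≤ Module.finrank ℚ (ZT k) ^ 4 := Nat.one_le_pow _ _ (one_le_finrank hk)
    have h2 : 1 ≤ k ^ 6 := Nat.one_le_pow _ _ (by omega)
    calc 2 ^ k ≤ 2 ^ 8 := Nat.pow_le_pow_right (by norm_num) h.le
      _ ≤ 4718592 * 1 * 1 := by norm_num
      _ ≤ _ := Nat.mul_le_mul (Nat.mul_le_mul_left _ h2) h1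
  · exact lower_int h

/-- EXPONENTIAL GROWTH: `dim Z_k ≥ 2^(k/4) / (47 k^(3/2))` for all `k ≥ 2` -/
theorem dim_real {k : ℕ} (hk : 2 ≤ k) :
    (2 : ℝ) ^ ((k : ℝ) / 4) ≤ 47 * (k : ℝ) ^ ((3 : ℝ) / 2) * (Module.finrank ℚ (ZT k) : ℝ) := by
  have h1 := dim_int hk
  set d : ℕ := Module.finrank ℚ (ZT k) with hd
  have h2 : (2 : ℝ) ^ k ≤ 4718592 * (k : ℝ) ^ 6 * (d : ℝ) ^ 4 := by exact_mod_cast h1
  have hk0 : (0 : ℝ) ≤ k := Nat.cast_nonneg k
  have hd0 : (0 : ℝ) ≤ d := Nat.cast_nonneg d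
  have h3 : ((2 : ℝ) ^ ((k : ℝ) / 4)) ^ 4 = 2 ^ k := by
    rw [← Real.rpow_natCast ((2 : ℝ) ^ ((k : ℝ) / 4)) 4, ← Real.rpow_mul (by norm_num),
      ← Real.rpow_natCast]
    congr 1
    push_cast
    ring
  have h4 : (47 * (k : ℝ) ^ ((3 : ℝ) / 2) * (d : ℝ)) ^ 4 = 47 ^ 4 * (k : ℝ) ^ 6 * (d : ℝ) ^ 4 := by
    rw [mul_pow, mul_pow]
    congr 2
    rw [← Real.rpow_natCast ((k : ℝ) ^ ((3 : ℝ) / 2)) 4, ← Real.rpow_mul hk0, ← Real.rpow_natCast]
    congr 1
    norm_num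
  refine le_of_pow_le_pow_left₀ (n := 4) (by norm_num) (by positivity) ?_
  rw [h3, h4]
  refine h2.trans ?_
  gcongr
  norm_num

/-- `dim Z_k ≥ 2` for all `k ≥ 58` -/
theorem dim_ge_two {k : ℕ} (hk : 58 ≤ k) : 2 ≤ Module.finrank ℚ (ZT k) := by
  by_contra hcon
  have h1 := dim_int (k := k) (by omega)
  have h2 : Module.finrank ℚ (ZT k) = 1 := by
    have := one_le_finrank (k := k) (by omega)
    omega
  rw [h2, one_pow, mul_one] at h1
  have key : ∀ n : ℕ, 58 ≤ n → 4718592 * n ^ 6 < 2 ^ n := by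
    intro n hn
    induction n, hn using Nat.le_induction with
    | base => norm_num
    | succ n hn ih =>
      have h3 : (n + 1) ^ 6 ≤ 2 * n ^ 6 := by
        have h4 : (58 * (n + 1)) ^ 6 ≤ (59 * n) ^ 6 := Nat.pow_le_pow_left (by omega) 6
        rw [mul_pow, mul_pow] at h4
        have h5 : 59 ^ 6 ≤ 2 * 58 ^ 6 := by norm_num
        have h6 : 58 ^ 6 * (n + 1) ^ 6 ≤ 58 ^ 6 * (2 * n ^ 6) := by
          calc 58 ^ 6 * (n + 1) ^ 6 ≤ 59 ^ 6 * n ^ 6 := h4
            _ ≤ (2 * 58 ^ 6) * n ^ 6 := Nat.mul_le_mul_right _ h5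
            _ = _ := by ring
        exact Nat.le_of_mul_le_mul_left h6 (by norm_num)
      calc 4718592 * (n + 1) ^ 6 ≤ 4718592 * (2 * n ^ 6) := Nat.mul_le_mul_left _ h3
        _ = 2 * (4718592 * n ^ 6) := by ring
        _ < 2 * 2 ^ n := by omega
        _ = 2 ^ (n + 1) := by ring
  have := key k hk
  omega

end Pool.MZExp
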