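import Pool.Agent.Lib.MZExp.VKey
import Pool.Agent.Lib.MZExp.XGrow

/-! MP_301213_nt, EXPONENT 1/3, module `VGrow` (150 lines): the lower bound for `dim Z_k`, all `k ≥ 2`.

PROOF. `card_Wtop`: `WT K = WT (K - 1) ∪ Wtop K` (disjoint, `mem_WT`), `card_WT`. `Wtop_top`: `v ++ u ∈ WT K` gives
`v.sum + u.sum ≤ K`, `u.sum = 0`, all letters of `u` are `≥ 1` (`Adm1 (v ++ u)`), so `u = []`.
`cube_HT`: `r = finrank (HT K) ≥ 1` (`1 ∈ HT K`), `c' = 3K + 5`. `W'` minimal with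
`144 r c' ≤ 2^(W'-2)` (`Nat.find`); `W' ≥ 3` as `144 r c' ≥ 720`, and by minimality `2^(W'-3) < 144 r c'`, so
`2^W' < 1152 r c'`. If `W' ≥ K - 1`: `2^K ≤ 2 * 2^W' < 2304 r c'`. Otherwise `W = K - 1 - W' ≥ 1`,
`W + W' + 1 = K`, and `key_U` for `A = WT W`, `S = WT W'`, `Top = Wtop W'`, `U = WT K` (`TC1_WT`, `Lv_rep`,
`HT K = HU (WT K)` by `rfl`) shows that `h` fails: `2^(W-1) ≤ r 2^W' + 2`; times `2^W'`:
`2^(K-2) ≤ r (2^W')^2 + 2 * 2^W' ≤ r (1152 r c')^2 + 2304 r c'`, `2^K ≤ 5308416 r^3 c'^2 + 9216 r c' ≤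
5310260 r^3 c'^2` (`c' ≥ 5`).
`dim_cube`: `K = k - 2`, `2^k = 4 * 2^K`, `r ≤ (k - 1) d` (`finrank_HT_le_mul`), `(3k - 1)^2 ≤ 9 k^2`:
`2^k ≤ 4 * 5310260 * 9 k^2 (k-1)^3 d^3 ≤ 191169360 k^5 d^3`.
`cube_real`: third roots (`XGrow.dim_real` shows how): `(585 k^(5/3) d)^3 = 585^3 k^5 d^3`, `585^3 > 2 * 10^8`.
`cube_two`: if `d = 1` then `2^k ≤ 2 * 10^8 k^5`, false for `k ≥ 57` (induction, `2^57 > 2 * 10^8 * 57^5`,
`(k+1)^5 ≤ 2 k^5`); `d ≥ 1` by `one_le_finrank`. -/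

open Finset Pool.MZDim Filter Topology

namespace Pool.MZExp

/-- the admissible words of weight exactly `K` -/
noncomputable def Wtop (K : ℕ) : Finset (List ℕ) := (WT K).filter fun l => l.sum = K

theorem card_Wtop {K : ℕ} (hK : 2 ≤ K) : (Wtop K).card = 2 ^ (K - 2) := by
  have h1 : (WT K).card = (Wtop K).card + (WT (K - 1)).card := by
    have h2 : (WT K).filter (fun l => ¬ l.sum = K) = WT (K - 1) := by
      ext l
      rw [mem_filter, mem_WT, mem_WT]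
      constructor
      · rintro ⟨⟨h3, h4⟩, h5⟩
        exact ⟨h3, by omega⟩
      · rintro ⟨h3, h4⟩
        exact ⟨⟨h3, by omega⟩, by omega⟩
    rw [← h2, Wtop, Finset.card_filter_add_card_filter_not]
  rw [card_WT, card_WT] at h1
  obtain ⟨m, rfl⟩ : ∃ m, K = m + 2 := ⟨K - 2, by omega⟩
  have e1 : m + 2 - 1 = m + 1 := by omega
  have e2 : m + 2 - 2 = m := by omega
  rw [e1, Nat.add_sub_cancel, pow_succ] at h1
  rw [e2]
  omega

theorem Wtop_top (K : ℕ) : ∀ v ∈ Wtop K, v ∈ WT K ∧ ∀ u, v ++ u ∈ WT K → u = [] := by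
  intro v hv
  unfold Wtop at hv
  obtain ⟨h1, h2⟩ := mem_filter.1 hv
  refine ⟨h1, fun u hu => ?_⟩
  obtain ⟨h3, h4⟩ := mem_WT.1 hu
  rw [List.sum_append, h2] at h4
  cases u with
  | nil => rfl
  | cons a u =>
    have h5 := h3.1 a (List.mem_append_right _ List.mem_cons_self)
    rw [List.sum_cons] at h4
    omega

private theorem vgrow_pos (K : ℕ) : 1 ≤ Module.finrank ℚ (HT K) := by
  have h1 : (1 : ℝ) ∈ HT K := by
    unfold HT
    refine Submodule.subset_span ⟨⟨[], (TC1_WT K).1⟩, ?_⟩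
    exact HofPers.T_nil 0
  have : 0 < Module.finrank ℚ (HT K) := by
    rw [Module.finrank_pos_iff]
    exact ⟨⟨⟨1, h1⟩, 0, fun h0 => one_ne_zero (congrArg Subtype.val h0)⟩⟩
  exact this

private theorem vgrow_arith (r c : ℕ) (hr : 1 ≤ r) (hc : 5 ≤ c) :
    4 * (r * (1152 * r * c) ^ 2 + 2 * (1152 * r * c)) ≤ 5310260 * c ^ 2 * r ^ 3 := by
  have h1 : r ≤ r ^ 3 := by
    calc r = r * 1 := (mul_one r).symm
      _ ≤ r * r ^ 2 := Nat.mul_le_mul_left _ (Nat.one_le_pow _ _ hr)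
      _ = r ^ 3 := by ring
  have h2 : 9216 * c ≤ 1844 * c ^ 2 := by nlinarith
  have h3 : 9216 * c * r ≤ 1844 * c ^ 2 * r ^ 3 := Nat.mul_le_mul h2 h1
  have h4 : 4 * (r * (1152 * r * c) ^ 2 + 2 * (1152 * r * c)) =
      5308416 * c ^ 2 * r ^ 3 + 9216 * c * r := by ring
  have h5 : 5310260 * c ^ 2 * r ^ 3 = 5308416 * c ^ 2 * r ^ 3 + 1844 * c ^ 2 * r ^ 3 := by ring
  omega

theorem cube_HT (K : ℕ) :
    2 ^ K ≤ 5310260 * (3 * K + 5) ^ 2 * Module.finrank ℚ (HT K) ^ 3 := by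
  classical
  obtain ⟨r, hr⟩ : ∃ r, r = Module.finrank ℚ (HT K) := ⟨_, rfl⟩
  have hr1 : 1 ≤ r := hr ▸ vgrow_pos K
  rw [← hr]
  obtain ⟨c, hc⟩ : ∃ c, c = 3 * K + 5 := ⟨_, rfl⟩
  have hc5 : 5 ≤ c := by omega
  rw [← hc]
  have hex : ∃ n : ℕ, 144 * r * c ≤ 2 ^ n := ⟨144 * r * c, Nat.lt_two_pow_self.le⟩
  obtain ⟨n0, hn0⟩ : ∃ n0, n0 = Nat.find hex := ⟨_, rfl⟩
  have h1 : 144 * r * c ≤ 2 ^ n0 := by
    rw [hn0]
    exact Nat.find_spec hex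
  have h144 : 720 ≤ 144 * r * c := by nlinarith
  have hn9 : 1 ≤ n0 := by
    by_contra hlt
    have h2 : n0 = 0 := by omega
    rw [h2] at h1
    omega
  have h2 : 2 ^ (n0 - 1) < 144 * r * c := by
    have h3 := Nat.find_min hex (m := n0 - 1) (by omega)
    exact not_le.1 h3
  have h3 : 2 ^ (n0 + 2) ≤ 1152 * r * c := by
    have h4 : 2 ^ (n0 + 2) = 8 * 2 ^ (n0 - 1) := by
      obtain ⟨m, rfl⟩ : ∃ m, n0 = m + 1 := ⟨n0 - 1, by omega⟩
      rw [Nat.add_sub_cancel]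
      ring
    calc 2 ^ (n0 + 2) = 8 * 2 ^ (n0 - 1) := h4
      _ ≤ 8 * (144 * r * c) := Nat.mul_le_mul_left _ h2.le
      _ = _ := by ring
  refine le_trans ?_ (vgrow_arith r c hr1 hc5)
  rcases Nat.lt_or_ge K (n0 + 4) with hlt | hge
  · calc 2 ^ K ≤ 2 ^ (n0 + 2 + 1) := Nat.pow_le_pow_right (by norm_num) (by omega)
      _ = 2 * 2 ^ (n0 + 2) := by ring
      _ ≤ 2 * (1152 * r * c) := Nat.mul_le_mul_left _ h3
      _ ≤ 4 * (r * (1152 * r * c) ^ 2 + 2 * (1152 * r * c)) := by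
          have : 0 ≤ r * (1152 * r * c) ^ 2 := Nat.zero_le _
          omega
  · obtain ⟨W, hW⟩ : ∃ W, W = K - 1 - (n0 + 2) := ⟨_, rfl⟩
    have hWK : W + (n0 + 2) + 1 = K := by omega
    have hrep : RepU (WT W) (WT (n0 + 2)) (WT K) K := by
      have h4 := Lv_rep W (n0 + 2)
      rw [hWK] at h4
      exact h4
    have hrU : Module.finrank ℚ (HU (WT K)) = r := by
      rw [hr]
      rfl
    have hnot : ¬ 2 * (r * (WT (n0 + 2)).card + 1) < (WT W).card := by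
      intro h
      have h4 := key_U (WT W) (WT (n0 + 2)) (Wtop (n0 + 2)) (WT K) K (by omega) (TC1_WT W)
        (TC1_WT (n0 + 2)) (Wtop_top (n0 + 2)) (TC1_WT K).1 hrep (by rw [hrU]; exact h)
      rw [hrU, card_Wtop (by omega), Nat.add_sub_cancel, ← hc] at h4
      omega
    rw [card_WT, card_WT] at hnot
    have h4 : 2 ^ (W - 1) ≤ r * 2 ^ (n0 + 2) + 2 := by
      have h5 : 2 ^ (n0 + 2 - 1) * 2 = 2 ^ (n0 + 2) := by
        rw [← pow_succ]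
        congr 1
      have h6 := not_lt.1 hnot
      calc 2 ^ (W - 1) ≤ 2 * (r * 2 ^ (n0 + 2 - 1) + 1) := h6
        _ = r * (2 ^ (n0 + 2 - 1) * 2) + 2 := by ring
        _ = _ := by rw [h5]
    have h5 : 2 ^ K = 4 * (2 ^ (W - 1) * 2 ^ (n0 + 2)) := by
      rw [← pow_add, ← hWK]
      have h6 : W + (n0 + 2) + 1 = (W - 1 + (n0 + 2)) + 2 := by omega
      rw [h6, pow_add]
      ring
    rw [h5]
    refine Nat.mul_le_mul_left _ ?_
    calc 2 ^ (W - 1) * 2 ^ (n0 + 2) ≤ (r * 2 ^ (n0 + 2) + 2) * 2 ^ (n0 + 2) :=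
          Nat.mul_le_mul_right _ h4
      _ ≤ (r * (1152 * r * c) + 2) * (1152 * r * c) :=
          Nat.mul_le_mul (Nat.add_le_add_right (Nat.mul_le_mul_left _ h3) _) h3
      _ = _ := by ring

theorem dim_cube {k : ℕ} (hk : 2 ≤ k) :
    2 ^ k ≤ 200000000 * k ^ 5 * Module.finrank ℚ (ZT k) ^ 3 := by
  obtain ⟨K, rfl⟩ : ∃ K, k = K + 2 := ⟨k - 2, by omega⟩
  have h1 := cube_HT K
  have h2 := finrank_HT_le_mul (K := K) (k := K + 2) le_rfl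
  set r : ℕ := Module.finrank ℚ (HT K)
  set d : ℕ := Module.finrank ℚ (ZT (K + 2))
  have h3 : r ≤ (K + 2) * d := h2.trans (Nat.mul_le_mul_right _ (by omega))
  have h4 : (3 * K + 5) ^ 2 ≤ 9 * (K + 2) ^ 2 := by nlinarith
  calc 2 ^ (K + 2) = 4 * 2 ^ K := by rw [pow_add]; ring
    _ ≤ 4 * (5310260 * (3 * K + 5) ^ 2 * r ^ 3) := Nat.mul_le_mul_left _ h1
    _ ≤ 4 * (5310260 * (9 * (K + 2) ^ 2) * ((K + 2) * d) ^ 3) :=
        Nat.mul_le_mul_left _ (Nat.mul_le_mul (Nat.mul_le_mul_left _ h4) (Nat.pow_le_pow_left h3 3))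
    _ = 191169360 * ((K + 2) ^ 5 * d ^ 3) := by ring
    _ ≤ 200000000 * ((K + 2) ^ 5 * d ^ 3) := Nat.mul_le_mul_right _ (by norm_num)
    _ = _ := by ring

theorem cube_real {k : ℕ} (hk : 2 ≤ k) :
    (2 : ℝ) ^ ((k : ℝ) / 3) ≤ 585 * (k : ℝ) ^ ((5 : ℝ) / 3) * (Module.finrank ℚ (ZT k) : ℝ) := by
  have h1 := dim_cube hk
  set d : ℕ := Module.finrank ℚ (ZT k) with hd
  have h2 : (2 : ℝ) ^ k ≤ 200000000 * (k : ℝ) ^ 5 * (d : ℝ) ^ 3 := by exact_mod_cast h1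
  have hk0 : (0 : ℝ) ≤ k := Nat.cast_nonneg k
  have hd0 : (0 : ℝ) ≤ d := Nat.cast_nonneg d
  have h3 : ((2 : ℝ) ^ ((k : ℝ) / 3)) ^ 3 = 2 ^ k := by
    rw [← Real.rpow_natCast ((2 : ℝ) ^ ((k : ℝ) / 3)) 3, ← Real.rpow_mul (by norm_num),
      ← Real.rpow_natCast]
    congr 1
    push_cast
    ring
  have h4 : (585 * (k : ℝ) ^ ((5 : ℝ) / 3) * (d : ℝ)) ^ 3 = 585 ^ 3 * (k : ℝ) ^ 5 * (d : ℝ) ^ 3 := by
    rw [mul_pow, mul_pow]
    congr 2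
    rw [← Real.rpow_natCast ((k : ℝ) ^ ((5 : ℝ) / 3)) 3, ← Real.rpow_mul hk0, ← Real.rpow_natCast]
    congr 1
    norm_num
  refine le_of_pow_le_pow_left₀ (n := 3) (by norm_num) (by positivity) ?_
  rw [h3, h4]
  refine h2.trans ?_
  gcongr
  norm_num

theorem cube_two {k : ℕ} (hk : 57 ≤ k) : 2 ≤ Module.finrank ℚ (ZT k) := by
  by_contra hcon
  have h1 := dim_cube (k := k) (by omega)
  have h2 : Module.finrank ℚ (ZT k) = 1 := by
    have := one_le_finrank (k := k) (by omega)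
    omega
  rw [h2, one_pow, mul_one] at h1
  have key : ∀ n : ℕ, 57 ≤ n → 200000000 * n ^ 5 < 2 ^ n := by
    intro n hn
    induction n, hn using Nat.le_induction with
    | base => norm_num
    | succ n hn ih =>
      have h3 : (n + 1) ^ 5 ≤ 2 * n ^ 5 := by
        have h4 : (57 * (n + 1)) ^ 5 ≤ (58 * n) ^ 5 := Nat.pow_le_pow_left (by omega) 5
        rw [mul_pow, mul_pow] at h4
        have h5 : 58 ^ 5 ≤ 2 * 57 ^ 5 := by norm_num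
        have h6 : 57 ^ 5 * (n + 1) ^ 5 ≤ 57 ^ 5 * (2 * n ^ 5) := by
          calc 57 ^ 5 * (n + 1) ^ 5 ≤ 58 ^ 5 * n ^ 5 := h4
            _ ≤ (2 * 57 ^ 5) * n ^ 5 := Nat.mul_le_mul_right _ h5
            _ = _ := by ring
        exact Nat.le_of_mul_le_mul_left h6 (by norm_num)
      calc 200000000 * (n + 1) ^ 5 ≤ 200000000 * (2 * n ^ 5) := Nat.mul_le_mul_left _ h3
        _ = 2 * (200000000 * n ^ 5) := by ring
        _ < 2 * 2 ^ n := by omega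
        _ = 2 ^ (n + 1) := by ring
  have := key k hk
  omega

end Pool.MZExp
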