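import Pool.Agent.Lib.MZExp.GenMZ
import Pool.Agent.Lib.MZExp.VGrow

/-! MP_301213_nt. Indecomposables with the exponent `1/3`. -/

open Finset

namespace Pool.MZExp.Gen

theorem grows_ZT : Grows ZT ((2 : ℝ) ^ ((1 : ℝ) / 3)) := by
  refine ⟨585, 2, by norm_num, fun k hk => ?_⟩
  have h1 := cube_real hk
  have hk1 : (1 : ℝ) ≤ k := by exact_mod_cast (by omega : 1 ≤ k)
  have h2 : ((2 : ℝ) ^ ((1 : ℝ) / 3)) ^ k = 2 ^ ((k : ℝ) / 3) := by
    rw [← Real.rpow_natCast, ← Real.rpow_mul (by norm_num)]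
    congr 1
    ring
  have h3 : (k : ℝ) ^ ((5 : ℝ) / 3) ≤ (k : ℝ) ^ 2 := by
    rw [← Real.rpow_natCast]
    exact Real.rpow_le_rpow_of_exponent_le hk1 (by norm_num)
  rw [h2]
  refine h1.trans ?_
  gcongr

theorem log_beta : Real.log ((2 : ℝ) ^ ((1 : ℝ) / 3)) = Real.log 2 / 3 := by
  rw [Real.log_rpow (by norm_num)]
  ring

theorem one_lt_beta : 1 < (2 : ℝ) ^ ((1 : ℝ) / 3) :=
  Real.one_lt_rpow (by norm_num) (by norm_num)

theorem indec_third {δ ρ : ℝ} (h0 : 0 < δ) (h1 : δ ≤ 1 / 2)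
    (h : 3 * Real.binEntropy δ < Real.log 2) (hρ0 : 0 ≤ ρ) (hρ : ρ < 2 ^ ((1 : ℝ) / 3)) (K : ℕ) :
    ∃ k : ℕ, K ≤ k ∧
      (Module.finrank ℚ ↥(Dec ZT k ⊔ Submodule.span ℚ (DT (fun j => δ * j) k)) : ℝ) + ρ ^ k <
        (Module.finrank ℚ (ZT k) : ℝ) :=
  mz_indec grows_ZT one_lt_beta h0 h1 (by rw [log_beta]; linarith) hρ0 hρ K

/-- depth `≤ weight / 17` is admissible -/
theorem entropy_17 : 3 * Real.binEntropy (1 / 17) < Real.log 2 := by
  have h1 : Real.binEntropy (1 / 17) = Real.log 17 - 16 / 17 * Real.log 16 := by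
    rw [Real.binEntropy]
    have e1 : ((1 : ℝ) / 17)⁻¹ = 17 := by norm_num
    have e2 : (1 - (1 : ℝ) / 17)⁻¹ = 17 / 16 := by norm_num
    rw [e1, e2, Real.log_div (by norm_num) (by norm_num)]
    ring
  have h2 : Real.log 16 = 4 * Real.log 2 := by
    rw [show (16 : ℝ) = 2 ^ (4 : ℕ) by norm_num, Real.log_pow]
    norm_num
  have h3 : 51 * Real.log 17 < 209 * Real.log 2 := by
    have h4 : Real.log ((17 : ℝ) ^ 51) < Real.log ((2 : ℝ) ^ 209) := by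
      apply Real.log_lt_log (by positivity)
      norm_num
    rw [Real.log_pow, Real.log_pow] at h4
    push_cast at h4
    exact h4
  rw [h1, h2]
  linarith

end Pool.MZExp.Gen
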