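import Pool.Agent.Lib.MZExp.GenAna

/-! Indecomposables: if `dim Z_k ≥ β^k / (A k^B)` and products of `Z_i` and `Z_j` lie in `Z_(i+j)`,
then for every `ρ < β` the space `Z_k` has, for infinitely many `k`, more than `ρ^k` dimensions
modulo the products of elements of smaller weight. -/

open Finset

namespace Pool.MZExp.Gen

/-- the span of the products of an element of `Z i` and an element of `Z j`, `i, j ≥ 1`,
`i + j = k` -/
noncomputable def Dec (Z : ℕ → Submodule ℚ ℝ) (k : ℕ) : Submodule ℚ ℝ :=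
  Submodule.span ℚ {z | ∃ i j : ℕ, 1 ≤ i ∧ 1 ≤ j ∧ i + j = k ∧ ∃ x ∈ Z i, ∃ y ∈ Z j, z = x * y}

theorem Dec_le {Z : ℕ → Submodule ℚ ℝ} (hmul : ∀ i j, ∀ x ∈ Z i, ∀ y ∈ Z j, x * y ∈ Z (i + j))
    (k : ℕ) : Dec Z k ≤ Z k := by
  unfold Dec
  rw [Submodule.span_le]
  rintro z ⟨i, j, _, _, rfl, x, hx, y, hy, rfl⟩
  exact hmul i j x hx y hy

theorem exists_gens {A D : Submodule ℚ ℝ} [Module.Finite ℚ A] (h : D ≤ A) :
    ∃ G : Finset ℝ, G.card ≤ Module.finrank ℚ A - Module.finrank ℚ D ∧ (G : Set ℝ) ⊆ A ∧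
      A ≤ D ⊔ Submodule.span ℚ (G : Set ℝ) := by
  classical
  obtain ⟨C, hC⟩ := Submodule.exists_isCompl (D.comap A.subtype)
  have h1 := Submodule.finrank_add_eq_of_isCompl hC
  have h2 : Module.finrank ℚ (D.comap A.subtype) = Module.finrank ℚ D :=
    (Submodule.comapSubtypeEquivOfLe h).finrank_eq
  have b := Module.finBasis ℚ C
  refine ⟨univ.image fun i => ((b i : A) : ℝ), ?_, ?_, ?_⟩
  · refine Finset.card_image_le.trans ?_
    rw [Finset.card_univ, Fintype.card_fin]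
    omega
  · intro x hx
    obtain ⟨i, _, rfl⟩ := Finset.mem_image.1 (Finset.mem_coe.1 hx)
    exact (b i : A).2
  · intro x hx
    have h3 : (⟨x, hx⟩ : A) ∈ (D.comap A.subtype) ⊔ C := by
      rw [hC.sup_eq_top]
      trivial
    obtain ⟨d, hd, c, hc, hdc⟩ := Submodule.mem_sup.1 h3
    have h4 : x = (d : ℝ) + (c : ℝ) := by
      have := congrArg (Subtype.val : A → ℝ) hdc
      simpa using this.symm
    rw [h4]
    refine Submodule.add_mem_sup hd ?_
    have h5 : (⟨c, hc⟩ : C) ∈ Submodule.span ℚ (Set.range b) := by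
      rw [b.span_eq]
      trivial
    have h6 : ((⟨c, hc⟩ : C) : A) ∈ (Submodule.span ℚ (Set.range b)).map C.subtype :=
      Submodule.mem_map_of_mem h5
    have h7 : (c : ℝ) ∈ ((Submodule.span ℚ (Set.range b)).map C.subtype).map A.subtype :=
      Submodule.mem_map_of_mem h6
    rw [Submodule.map_span, Submodule.map_span] at h7
    refine Submodule.span_mono ?_ h7
    rintro y ⟨z, ⟨w, ⟨i, rfl⟩, rfl⟩, rfl⟩
    exact Finset.mem_coe.2 (Finset.mem_image_of_mem _ (mem_univ i))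

theorem le_span_Mon {Z : ℕ → Submodule ℚ ℝ} {G : ℕ → Set ℝ}
    (h : ∀ k, 1 ≤ k → Z k ≤ Dec Z k ⊔ Submodule.span ℚ (G k)) :
    ∀ k, 1 ≤ k → Z k ≤ Submodule.span ℚ (Mon G k) := by
  intro k
  induction k using Nat.strong_induction_on with
  | _ k ih =>
    intro hk
    refine (h k hk).trans (sup_le ?_ ?_)
    · unfold Dec
      rw [Submodule.span_le]
      rintro z ⟨i, j, hi, hj, hij, x, hx, y, hy, rfl⟩
      have h1 := ih i (by omega) hi hx
      have h2 := ih j (by omega) hj hy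
      have h3 := Submodule.mul_mem_mul h1 h2
      rw [Submodule.span_mul_span] at h3
      refine Submodule.span_mono ?_ h3
      rintro w ⟨u, hu, v, hv, rfl⟩
      rw [← hij]
      exact Mon_mul hu hv
    · exact Submodule.span_mono fun x hx => mem_Mon hk hx

/-- INDECOMPOSABLES, modulo a family `E` of few elements. -/
theorem indecomposables {Z : ℕ → Submodule ℚ ℝ} {β : ℝ} (hZ : Grows Z β)
    (hfin : ∀ k, Module.Finite ℚ (Z k))
    (hmul : ∀ i j, ∀ x ∈ Z i, ∀ y ∈ Z j, x * y ∈ Z (i + j))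
    (hβ1 : 1 < β) {E : ℕ → Finset ℝ} (hE : ∀ k, (E k : Set ℝ) ⊆ Z k) {C' r' : ℝ} (hC' : 0 ≤ C')
    (hr' : 0 ≤ r') (hr'β : r' < β) (hEc : ∀ j, 1 ≤ j → ((E j).card : ℝ) ≤ C' * r' ^ j)
    {ρ : ℝ} (hρ0 : 0 ≤ ρ) (hρ : ρ < β) (K : ℕ) :
    ∃ k : ℕ, K ≤ k ∧
      (Module.finrank ℚ ↥(Dec Z k ⊔ Submodule.span ℚ (E k : Set ℝ)) : ℝ) + ρ ^ k <
        (Module.finrank ℚ (Z k) : ℝ) := by
  classical
  by_contra hcon
  push Not at hcon
  set r := max (max ρ r') 1 with hr
  have hr1 : 1 ≤ r := le_max_right _ _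
  have hrβ : r ^ (1 : ℝ) < β := by
    rw [Real.rpow_one]
    exact max_lt (max_lt hρ hr'β) hβ1
  have hρr : ρ ≤ r := (le_max_left _ _).trans (le_max_left _ _)
  have hr'r : r' ≤ r := (le_max_right _ _).trans (le_max_left _ _)
  have hD : ∀ k, Dec Z k ⊔ Submodule.span ℚ (E k : Set ℝ) ≤ Z k := fun k =>
    sup_le (Dec_le hmul k) (Submodule.span_le.2 (hE k))
  choose G hG1 hG2 hG3 using fun k => exists_gens (A := Z k) (hD k)
  set C : ℝ := 1 + ∑ k ∈ range K, (Module.finrank ℚ (Z k) : ℝ) with hCdef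
  have hS0 : (0 : ℝ) ≤ ∑ k ∈ range K, (Module.finrank ℚ (Z k) : ℝ) :=
    Finset.sum_nonneg fun _ _ => Nat.cast_nonneg _
  have hC : 0 ≤ C := by linarith
  have hcard : ∀ k, 1 ≤ k → ((G k).card : ℝ) ≤ C * r ^ k := by
    intro k _
    have hrk : 1 ≤ r ^ k := one_le_pow₀ hr1
    rcases lt_or_ge k K with hkK | hkK
    · have h1 : ((G k).card : ℝ) ≤ (Module.finrank ℚ (Z k) : ℝ) := by
        exact_mod_cast (hG1 k).trans (Nat.sub_le _ _)
      have h2 : (Module.finrank ℚ (Z k) : ℝ) ≤ ∑ k ∈ range K, (Module.finrank ℚ (Z k) : ℝ) :=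
        Finset.single_le_sum (f := fun k => (Module.finrank ℚ (Z k) : ℝ))
          (fun _ _ => Nat.cast_nonneg _) (mem_range.2 hkK)
      have h3 : C * 1 ≤ C * r ^ k := mul_le_mul_of_nonneg_left hrk hC
      linarith
    · have h1 := hcon k hkK
      have h2 : Module.finrank ℚ ↥(Dec Z k ⊔ Submodule.span ℚ (E k : Set ℝ)) ≤
          Module.finrank ℚ (Z k) := Submodule.finrank_mono (hD k)
      have h3 : ((G k).card : ℝ) ≤ (Module.finrank ℚ (Z k) : ℝ) -
          (Module.finrank ℚ ↥(Dec Z k ⊔ Submodule.span ℚ (E k : Set ℝ)) : ℝ) := by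
        rw [← Nat.cast_sub h2]
        exact_mod_cast hG1 k
      have h4 : ρ ^ k ≤ r ^ k := pow_le_pow_left₀ hρ0 hρr k
      have h5 : 1 * r ^ k ≤ C * r ^ k := by
        apply mul_le_mul_of_nonneg_right _ (by positivity)
        linarith
      linarith
  have hcard' : ∀ k, 1 ≤ k → ((G k ∪ E k).card : ℝ) ≤ (C + C') * r ^ k := by
    intro k hk
    have h1 : ((G k ∪ E k).card : ℝ) ≤ ((G k).card : ℝ) + ((E k).card : ℝ) := by
      exact_mod_cast Finset.card_union_le _ _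
    have h2 := hcard k hk
    have h3 := hEc k hk
    have h4 : C' * r' ^ k ≤ C' * r ^ k :=
      mul_le_mul_of_nonneg_left (pow_le_pow_left₀ hr' hr'r k) hC'
    rw [add_mul]
    linarith
  obtain ⟨k0, hk0⟩ := few_generators hZ (lam := 1) (add_nonneg hC hC') hr1 hβ1 hrβ
  refine hk0 (max k0 1) (le_max_left _ _) (fun k => G k ∪ E k) hcard' (max k0 1)
    (by rw [one_mul]) ?_
  refine le_span_Mon (G := fun j => ((G j ∪ E j : Finset ℝ) : Set ℝ)) (fun k _ => ?_) _
    (le_max_right _ _)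
  refine (hG3 k).trans (sup_le (sup_le le_sup_left ?_) ?_)
  · refine le_trans (Submodule.span_mono ?_) le_sup_right
    rw [Finset.coe_union]
    exact Set.subset_union_right
  · refine le_trans (Submodule.span_mono ?_) le_sup_right
    rw [Finset.coe_union]
    exact Set.subset_union_left

end Pool.MZExp.Gen
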