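import Pool.Agent.Lib.MZExp.GenAna

/-! Polynomially many generators: if there are at most `C j^n` generators of weight `j`, then for all
large `k` the space `Z k` is not contained in the span of the products of total weight at most
`c k^(1 + 1/(n+1))`. -/

open Finset Filter Topology

namespace Pool.MZExp.Gen

theorem inv_le_exp2 {t : ℝ} (ht : 0 < t) :
    (1 - Real.exp (-t))⁻¹ ≤ Real.exp (2 * (Real.exp (-(t / 2)) / √t)) := by
  have h1 : Real.exp (-t) < 1 := by rw [Real.exp_lt_one_iff]; linarith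
  have h2 : 0 < 1 - Real.exp (-t) := by linarith
  have h0 : 0 < Real.exp (-t) := Real.exp_pos _
  set v := √(1 - Real.exp (-t)) with hv
  have hv0 : 0 < v := Real.sqrt_pos.2 h2
  have hv2 : v * v = 1 - Real.exp (-t) := Real.mul_self_sqrt h2.le
  have hv1 : v ≤ 1 := by nlinarith
  have ht0 : 0 < √t := Real.sqrt_pos.2 ht
  have he : Real.exp (-(t / 2)) * Real.exp (-(t / 2)) = Real.exp (-t) := by
    rw [← Real.exp_add]
    ring_nf
  have hge : √t * Real.exp (-(t / 2)) ≤ v := by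
    rw [hv]
    apply Real.le_sqrt_of_sq_le
    have h3 : (√t * Real.exp (-(t / 2))) ^ 2 = t * Real.exp (-t) := by
      rw [mul_pow, Real.sq_sqrt ht.le, sq, he]
    rw [h3]
    have h4 : t + 1 ≤ Real.exp t := Real.add_one_le_exp t
    have h5 : Real.exp t * Real.exp (-t) = 1 := by rw [← Real.exp_add]; simp
    nlinarith
  have hpos : 0 < √t * Real.exp (-(t / 2)) := mul_pos ht0 (Real.exp_pos _)
  have h3 : v⁻¹ - 1 ≤ Real.exp (-(t / 2)) / √t := by
    have h4 : v⁻¹ - 1 ≤ Real.exp (-t) * v⁻¹ := by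
      have h5 : v⁻¹ - 1 = (1 - v) * v⁻¹ := by
        rw [sub_mul, one_mul, mul_inv_cancel₀ hv0.ne']
      rw [h5]
      apply mul_le_mul_of_nonneg_right _ (inv_nonneg.2 hv0.le)
      nlinarith
    have h6 : v⁻¹ ≤ (√t * Real.exp (-(t / 2)))⁻¹ := inv_anti₀ hpos hge
    have h7 : Real.exp (-t) * v⁻¹ ≤ Real.exp (-t) * (√t * Real.exp (-(t / 2)))⁻¹ :=
      mul_le_mul_of_nonneg_left h6 h0.le
    refine h4.trans (h7.trans (le_of_eq ?_))
    rw [← he]
    have h8 : Real.exp (-(t / 2)) ≠ 0 := (Real.exp_pos _).ne'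
    field_simp
  have h9 : v⁻¹ ≤ Real.exp (Real.exp (-(t / 2)) / √t) := by
    have := Real.add_one_le_exp (Real.exp (-(t / 2)) / √t)
    linarith
  have h10 : (1 - Real.exp (-t))⁻¹ = v⁻¹ * v⁻¹ := by rw [← hv2, mul_inv]
  rw [h10, two_mul, Real.exp_add]
  exact mul_le_mul h9 h9 (inv_nonneg.2 hv0.le) (Real.exp_pos _).le

theorem sum_inv_sqrt (J : ℕ) : ∑ j ∈ Icc 1 J, 1 / √(j : ℝ) ≤ 2 * √(J : ℝ) := by
  induction J with
  | zero => simp
  | succ J ih =>
    rw [Finset.sum_Icc_succ_top (by omega)]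
    refine (add_le_add_left ih _).trans ?_
    have hJ : (0 : ℝ) ≤ J := Nat.cast_nonneg J
    have h1 : 0 ≤ √(J : ℝ) := Real.sqrt_nonneg _
    have h2 : 0 < √((J + 1 : ℕ) : ℝ) := Real.sqrt_pos.2 (by positivity)
    have h3 : √(J : ℝ) * √(J : ℝ) = J := Real.mul_self_sqrt hJ
    have h4 : √((J + 1 : ℕ) : ℝ) * √((J + 1 : ℕ) : ℝ) = J + 1 := by
      rw [Real.mul_self_sqrt (by positivity)]
      push_cast
      ring
    have h5 : 1 / √((J + 1 : ℕ) : ℝ) ≤ 2 * (√((J + 1 : ℕ) : ℝ) - √(J : ℝ)) := by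
      rw [div_le_iff₀ h2]
      nlinarith [sq_nonneg (√((J + 1 : ℕ) : ℝ) - √(J : ℝ))]
    linarith

theorem sum_exp_div_sqrt {a : ℝ} (ha : 0 < a) (ha1 : a ≤ 1) (M : ℕ) :
    ∑ j ∈ Icc 1 M, Real.exp (-(a * j)) / √(j : ℝ) ≤ 4 / √a := by
  obtain ⟨J, hJ⟩ : ∃ J, J = ⌈1 / a⌉₊ := ⟨_, rfl⟩
  have hJ1 : 1 / a ≤ J := by rw [hJ]; exact Nat.le_ceil _
  have ha' : 1 ≤ 1 / a := by rw [le_div_iff₀ ha]; linarith
  have hJ2 : (J : ℝ) ≤ 2 / a := by
    have h1 : (J : ℝ) < 1 / a + 1 := by rw [hJ]; exact Nat.ceil_lt_add_one (by positivity)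
    have h2 : 2 / a = 1 / a + 1 / a := by ring
    rw [h2]
    linarith
  have hJ0 : (0 : ℝ) < J := by linarith
  have hsJ : 0 < √(J : ℝ) := Real.sqrt_pos.2 hJ0
  have hsa : 0 < √a := Real.sqrt_pos.2 ha
  have hsa2 : √a * √a = a := Real.mul_self_sqrt ha.le
  have hpt : ∀ j ∈ Icc 1 M, Real.exp (-(a * j)) / √(j : ℝ) ≤
      (if j ≤ J then 1 / √(j : ℝ) else 0) + Real.exp (-(a * j)) / √(J : ℝ) := by
    intro j hj
    have hj1 : (1 : ℝ) ≤ j := by exact_mod_cast (mem_Icc.1 hj).1
    have hsj : 0 < √(j : ℝ) := Real.sqrt_pos.2 (by linarith)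
    have he0 : 0 < Real.exp (-(a * j)) := Real.exp_pos _
    split_ifs with h
    · have h1 : Real.exp (-(a * j)) ≤ 1 := by
        rw [Real.exp_le_one_iff]
        have : 0 ≤ a * j := by positivity
        linarith
      have h2 : Real.exp (-(a * j)) / √(j : ℝ) ≤ 1 / √(j : ℝ) :=
        div_le_div_of_nonneg_right h1 hsj.le
      have h3 : 0 ≤ Real.exp (-(a * j)) / √(J : ℝ) := by positivity
      linarith
    · rw [zero_add]
      apply div_le_div_of_nonneg_left he0.le hsJ
      apply Real.sqrt_le_sqrt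
      exact_mod_cast (not_le.1 h).le
  refine (Finset.sum_le_sum hpt).trans ?_
  rw [Finset.sum_add_distrib]
  have h1 : ∑ j ∈ Icc 1 M, (if j ≤ J then 1 / √(j : ℝ) else 0) ≤ 2 * √(J : ℝ) := by
    rw [← Finset.sum_filter]
    refine le_trans (Finset.sum_le_sum_of_subset_of_nonneg ?_ ?_) (sum_inv_sqrt J)
    · intro j hj
      rw [Finset.mem_filter, mem_Icc] at hj
      exact mem_Icc.2 ⟨hj.1.1, hj.2⟩
    · intro j _ _
      positivity
  have h2 : ∑ j ∈ Icc 1 M, Real.exp (-(a * j)) / √(J : ℝ) ≤ 1 / a / √(J : ℝ) := by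
    rw [← Finset.sum_div]
    apply div_le_div_of_nonneg_right _ hsJ.le
    set z := Real.exp (-a) with hz
    have hz0 : 0 < z := Real.exp_pos _
    have hz1 : z < 1 := by rw [hz, Real.exp_lt_one_iff]; linarith
    have h3 : ∀ j : ℕ, Real.exp (-(a * j)) = z ^ j := by
      intro j
      rw [hz, ← Real.exp_nat_mul]
      congr 1
      ring
    have h4 : ∑ j ∈ Icc 1 M, Real.exp (-(a * j)) = z * ∑ j ∈ range M, z ^ j := by
      clear hpt h1
      induction M with
      | zero => simp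
      | succ M ih =>
        rw [Finset.sum_Icc_succ_top (by omega), Finset.sum_range_succ, mul_add, ih, h3, pow_succ,
          mul_comm (z ^ M)]
    rw [h4]
    have h5 := geom_le hz0.le hz1 M
    refine (mul_le_mul_of_nonneg_left h5 hz0.le).trans ?_
    rw [← div_eq_mul_inv, div_le_div_iff₀ (by linarith) ha, one_mul]
    have h6 : a + 1 ≤ Real.exp a := Real.add_one_le_exp a
    have h7 : Real.exp a * z = 1 := by rw [hz, ← Real.exp_add]; simp
    nlinarith
  have h3 : √(J : ℝ) ≤ √2 / √a := by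
    rw [← Real.sqrt_div (by norm_num : (0 : ℝ) ≤ 2)]
    exact Real.sqrt_le_sqrt hJ2
  have h4 : 1 / √a ≤ √(J : ℝ) := by
    have : √(1 / a) = 1 / √a := by rw [Real.sqrt_div zero_le_one, Real.sqrt_one]
    rw [← this]
    exact Real.sqrt_le_sqrt hJ1
  have h5 : 1 / a / √(J : ℝ) ≤ 1 / √a := by
    rw [div_le_div_iff₀ hsJ hsa, div_mul_eq_mul_div, one_mul, one_mul]
    calc √a / a = 1 / √a := by
          rw [div_eq_div_iff ha.ne' hsa.ne', hsa2, one_mul]
      _ ≤ √(J : ℝ) := h4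
  have h6 : √2 ≤ 3 / 2 := by
    rw [Real.sqrt_le_left (by norm_num)]
    norm_num
  calc _ ≤ 2 * √(J : ℝ) + 1 / a / √(J : ℝ) := add_le_add h1 h2
    _ ≤ 2 * (√2 / √a) + 1 / √a := by linarith
    _ = (2 * √2 + 1) / √a := by ring
    _ ≤ 4 / √a := by
      apply div_le_div_of_nonneg_right _ hsa.le
      linarith

/-- dimension bound for at most `C j^n` generators of weight `j` -/
theorem finrank_Mon_poly (G : ℕ → Finset ℝ) (M n : ℕ) {C s : ℝ} (hC : 0 ≤ C) (hs : 0 < s)
    (hs1 : s ≤ 1) (hG : ∀ j, 1 ≤ j → ((G j).card : ℝ) ≤ C * (j : ℝ) ^ n) :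
    (Module.finrank ℚ (Submodule.span ℚ (Mon (fun j => (G j : Set ℝ)) M)) : ℝ) ≤
      Real.exp (s * M + C * (16 * (n.factorial * 4 ^ n)) / s ^ (n + 1)) := by
  set x := Real.exp (-s) with hx
  have h0 : 0 < x := Real.exp_pos _
  have h1 : x < 1 := by rw [hx, Real.exp_lt_one_iff]; linarith
  have hxj : ∀ j : ℕ, x ^ j = Real.exp (-(s * j)) := by
    intro j
    rw [hx, ← Real.exp_nat_mul]
    congr 1
    ring
  have h2 := finrank_Mon_le G M h0 h1
  have hs4 : 0 < s / 4 := by positivity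
  have hF : (0 : ℝ) < (n.factorial : ℝ) := by positivity
  have hss : 0 < √s := Real.sqrt_pos.2 hs
  have hss2 : √s * √s = s := Real.mul_self_sqrt hs.le
  have h3 : ∏ j ∈ Icc 1 M, (1 - x ^ j)⁻¹ ^ (G j).card ≤
      Real.exp (C * (16 * (n.factorial * 4 ^ n)) / s ^ (n + 1)) := by
    have h4 : ∀ j ∈ Icc 1 M, (1 - x ^ j)⁻¹ ^ (G j).card ≤
        Real.exp (C * (2 * n.factorial * (4 / s) ^ n / √s) *
          (Real.exp (-(s / 4 * j)) / √(j : ℝ))) := by
      intro j hj
      have hj1 := (mem_Icc.1 hj).1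
      have hj1' : (1 : ℝ) ≤ j := by exact_mod_cast hj1
      have hsj : 0 < s * j := by positivity
      have h5 : (1 - x ^ j)⁻¹ ≤ Real.exp (2 * (Real.exp (-(s * j / 2)) / √(s * j))) := by
        rw [hxj]
        exact inv_le_exp2 hsj
      have h6 : (0 : ℝ) ≤ (1 - x ^ j)⁻¹ :=
        inv_nonneg.2 (by have : x ^ j ≤ 1 := pow_le_one₀ h0.le h1.le; linarith)
      calc (1 - x ^ j)⁻¹ ^ (G j).card
          ≤ Real.exp (2 * (Real.exp (-(s * j / 2)) / √(s * j))) ^ (G j).card :=
            pow_le_pow_left₀ h6 h5 _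
        _ = Real.exp ((G j).card * (2 * (Real.exp (-(s * j / 2)) / √(s * j)))) := by
            rw [← Real.exp_nat_mul]
        _ ≤ _ := by
            apply Real.exp_le_exp.2
            have h7 : (j : ℝ) ^ n ≤ n.factorial * (4 / s) ^ n * Real.exp (s / 4 * j) := by
              have h8 := Real.pow_div_factorial_le_exp (s / 4 * j) (by positivity) n
              rw [div_le_iff₀ hF] at h8
              calc (j : ℝ) ^ n = (4 / s) ^ n * (s / 4 * j) ^ n := by
                    rw [← mul_pow]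
                    congr 1
                    field_simp
                _ ≤ (4 / s) ^ n * (Real.exp (s / 4 * j) * n.factorial) :=
                    mul_le_mul_of_nonneg_left h8 (by positivity)
                _ = _ := by ring
            have h9 : Real.exp (-(s * j / 2)) =
                Real.exp (-(s / 4 * j)) * Real.exp (-(s / 4 * j)) := by
              rw [← Real.exp_add]
              congr 1
              ring
            have h10 : Real.exp (s / 4 * j) * Real.exp (-(s / 4 * j)) = 1 := by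
              rw [← Real.exp_add]
              simp
            have h11 : √(s * j) = √s * √(j : ℝ) := Real.sqrt_mul hs.le _
            have hsj0 : 0 < √(j : ℝ) := Real.sqrt_pos.2 (by linarith)
            set e := Real.exp (-(s / 4 * j)) with he
            have he0 : 0 < e := Real.exp_pos _
            have h12 : (0 : ℝ) ≤ 2 * (e * e / (√s * √(j : ℝ))) := by positivity
            rw [h9, h11]
            calc ((G j).card : ℝ) * (2 * (e * e / (√s * √(j : ℝ))))
                ≤ (C * (j : ℝ) ^ n) * (2 * (e * e / (√s * √(j : ℝ)))) :=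
                  mul_le_mul_of_nonneg_right (hG j hj1) h12
              _ ≤ (C * (n.factorial * (4 / s) ^ n * Real.exp (s / 4 * j))) *
                    (2 * (e * e / (√s * √(j : ℝ)))) :=
                  mul_le_mul_of_nonneg_right (mul_le_mul_of_nonneg_left h7 hC) h12
              _ = C * (2 * n.factorial * (4 / s) ^ n / √s) * ((Real.exp (s / 4 * j) * e) *
                    e / √(j : ℝ)) := by
                  field_simp
              _ = _ := by rw [h10, one_mul]
    calc ∏ j ∈ Icc 1 M, (1 - x ^ j)⁻¹ ^ (G j).card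
        ≤ ∏ j ∈ Icc 1 M, Real.exp (C * (2 * n.factorial * (4 / s) ^ n / √s) *
          (Real.exp (-(s / 4 * j)) / √(j : ℝ))) := by
          refine Finset.prod_le_prod (fun j hj => ?_) h4
          have h5 : x ^ j ≤ 1 := pow_le_one₀ h0.le h1.le
          exact pow_nonneg (inv_nonneg.2 (by linarith)) _
      _ = Real.exp (∑ j ∈ Icc 1 M, C * (2 * n.factorial * (4 / s) ^ n / √s) *
          (Real.exp (-(s / 4 * j)) / √(j : ℝ))) := by rw [Real.exp_sum]
      _ ≤ _ := by
          apply Real.exp_le_exp.2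
          rw [← Finset.mul_sum]
          have h5 := sum_exp_div_sqrt hs4 (by linarith) M
          have h6 : √(s / 4) = √s / 2 := by
            rw [Real.sqrt_div hs.le]
            congr 1
            rw [show (4 : ℝ) = 2 ^ 2 by norm_num, Real.sqrt_sq (by norm_num)]
          rw [h6] at h5
          have h7 : 0 ≤ C * (2 * n.factorial * (4 / s) ^ n / √s) := by positivity
          refine (mul_le_mul_of_nonneg_left h5 h7).trans (le_of_eq ?_)
          rw [div_pow, pow_succ]
          have h8 : s ^ n * s = s ^ n * (√s * √s) := by rw [hss2]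
          rw [h8]
          field_simp
          ring
  have h4 := h2.trans h3
  have h5 : x ^ M = (Real.exp (s * M))⁻¹ := by
    rw [hxj, Real.exp_neg]
  rw [h5, inv_mul_le_iff₀ (Real.exp_pos _), ← Real.exp_add] at h4
  exact h4

/-- Polynomially many generators. -/
theorem poly_generators {Z : ℕ → Submodule ℚ ℝ} {β : ℝ} (hZ : Grows Z β) (hβ1 : 1 < β)
    {C : ℝ} (hC : 0 ≤ C) (n : ℕ) :
    ∃ c : ℝ, 0 < c ∧ ∃ k0 : ℕ, ∀ k : ℕ, k0 ≤ k → ∀ G : ℕ → Finset ℝ,
      (∀ j, 1 ≤ j → ((G j).card : ℝ) ≤ C * (j : ℝ) ^ n) →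
      ∀ M : ℕ, (M : ℝ) ≤ c * (k : ℝ) ^ (1 + 1 / ((n : ℝ) + 1)) →
      ¬ Z k ≤ Submodule.span ℚ (Mon (fun j => (G j : Set ℝ)) M) := by
  obtain ⟨A, B, hA, hgr⟩ := hZ
  have hβ0 : 0 < β := by linarith
  have hlog : 0 < Real.log β := Real.log_pos hβ1
  set η := Real.log β / 4 with hη
  have hη0 : 0 < η := by positivity
  set K := C * (16 * (n.factorial * 4 ^ n)) with hK
  have hK0 : 0 ≤ K := by positivity
  set N : ℝ := (n : ℝ) + 1 with hN
  have hN0 : 0 < N := by positivity
  set a := (K / η + 1) ^ (1 / N) with ha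
  have hb0 : 0 < K / η + 1 := by positivity
  have ha0 : 0 < a := Real.rpow_pos_of_pos hb0 _
  have haN : a ^ (n + 1) = K / η + 1 := by
    rw [ha, ← Real.rpow_natCast, ← Real.rpow_mul hb0.le]
    have : 1 / N * ((n + 1 : ℕ) : ℝ) = 1 := by
      rw [hN]
      push_cast
      field_simp
    rw [this, Real.rpow_one]
  refine ⟨η / a, by positivity, ?_⟩
  set q := β ^ (-(1 / 2) : ℝ) with hq
  have hq0 : 0 < q := Real.rpow_pos_of_pos hβ0 _
  have hq1 : q < 1 := Real.rpow_lt_one_of_one_lt_of_neg hβ1 (by norm_num)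
  have hlim := tendsto_pow_const_mul_const_pow_of_abs_lt_one B
    (show |q| < 1 by rw [abs_of_pos hq0]; exact hq1)
  have hev := (tendsto_order.1 hlim).2 (A⁻¹) (by positivity)
  obtain ⟨k0, hk0⟩ := ((hev.and (eventually_ge_atTop 2)).and
    (eventually_ge_atTop ⌈a ^ (n + 1)⌉₊)).exists_forall_of_atTop
  refine ⟨k0, fun k hk G hG M hM hle => ?_⟩
  obtain ⟨⟨h1, h2⟩, h3⟩ := hk0 k hk
  have hk2 : (2 : ℝ) ≤ k := by exact_mod_cast h2
  have hkpos : (0 : ℝ) < k := by linarith
  have h3' : a ^ (n + 1) ≤ k := (Nat.le_ceil _).trans (by exact_mod_cast h3)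
  set w := (k : ℝ) ^ (-(1 / N)) with hw
  have hw0 : 0 < w := Real.rpow_pos_of_pos hkpos _
  have hwN : w ^ (n + 1) = (k : ℝ)⁻¹ := by
    rw [hw, ← Real.rpow_natCast, ← Real.rpow_mul hkpos.le]
    have : -(1 / N) * ((n + 1 : ℕ) : ℝ) = -1 := by
      rw [hN]
      push_cast
      field_simp
    rw [this, Real.rpow_neg_one]
  obtain ⟨s, hs⟩ : ∃ s, s = a * w := ⟨_, rfl⟩
  have hs0 : 0 < s := by rw [hs]; positivity
  have hsN : s ^ (n + 1) = (K / η + 1) / k := by
    rw [hs, mul_pow, haN, hwN]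
    rfl
  have hs1 : s ≤ 1 := by
    rw [← pow_le_one_iff_of_nonneg hs0.le (n := n + 1) (by omega), hsN, div_le_one hkpos, ← haN]
    exact h3'
  have hsM : s * M ≤ η * k := by
    have h4 : s * M ≤ s * (η / a * (k : ℝ) ^ (1 + 1 / N)) :=
      mul_le_mul_of_nonneg_left hM hs0.le
    refine h4.trans (le_of_eq ?_)
    have h5 : w * (k : ℝ) ^ (1 + 1 / N) = k := by
      rw [hw, ← Real.rpow_add hkpos]
      have : -(1 / N) + (1 + 1 / N) = 1 := by ring
      rw [this, Real.rpow_one]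
    rw [hs]
    calc a * w * (η / a * (k : ℝ) ^ (1 + 1 / N)) = η * (w * (k : ℝ) ^ (1 + 1 / N)) := by
          field_simp
      _ = η * k := by rw [h5]
  have hsK : K / s ^ (n + 1) ≤ η * k := by
    rw [hsN, div_div_eq_mul_div, div_le_iff₀ hb0]
    have h4 : η * k * (K / η + 1) = K * k + η * k := by
      field_simp
    rw [h4]
    have : 0 ≤ η * k := by positivity
    linarith
  have := span_Mon_finite G M
  have h4 : (Module.finrank ℚ (Z k) : ℝ) ≤ Real.exp (s * M + K / s ^ (n + 1)) := by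
    refine le_trans ?_ (finrank_Mon_poly G M n hC hs0 hs1 hG)
    exact_mod_cast Submodule.finrank_mono hle
  have h5 : Real.exp (s * M + K / s ^ (n + 1)) ≤ β ^ ((k : ℝ) / 2) := by
    rw [Real.rpow_def_of_pos hβ0]
    apply Real.exp_le_exp.2
    have : Real.log β * ((k : ℝ) / 2) = η * k + η * k := by rw [hη]; ring
    rw [this]
    linarith
  have h6 := hgr k h2
  have h7 : β ^ ((k : ℝ) / 2) = q ^ k * β ^ k := by
    rw [hq, ← Real.rpow_natCast, ← Real.rpow_natCast, ← Real.rpow_mul hβ0.le,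
      ← Real.rpow_add hβ0]
    congr 1
    ring
  have h8 : β ^ k ≤ A * (k : ℝ) ^ B * (q ^ k * β ^ k) := by
    refine h6.trans ?_
    rw [← h7]
    exact mul_le_mul_of_nonneg_left (h4.trans h5) (by positivity)
  have hβk : 0 < β ^ k := by positivity
  have h9 : 1 ≤ A * ((k : ℝ) ^ B * q ^ k) := by
    have h10 : β ^ k * 1 ≤ β ^ k * (A * ((k : ℝ) ^ B * q ^ k)) := by
      rw [mul_one]
      refine h8.trans (le_of_eq ?_)
      ring
    exact le_of_mul_le_mul_left h10 hβk
  have h10 : A * ((k : ℝ) ^ B * q ^ k) < A * A⁻¹ := mul_lt_mul_of_pos_left h1 hA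
  rw [mul_inv_cancel₀ hA.ne'] at h10
  linarith

end Pool.MZExp.Gen
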