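import Pool.Agent.Lib.MZExp.GenWord
import Pool.Agent.Lib.MZExp.GenInd
import Pool.Agent.Lib.MZExp.GenPoly
import Pool.Agent.Lib.MZExp.XGrow

/-! MP_301213_nt. Generators of the algebra of multiple zeta values, from a lower bound
`dim Z_k ≥ β^k / (A k^B)` (hypothesis `Grows ZT β`). -/

open Finset

namespace Pool.MZExp.Gen

/-- the multiple zeta values of weight `j` and depth at most `f j` -/
def DT (f : ℕ → ℝ) (j : ℕ) : Set ℝ :=
  {x | ∃ s : List ℕ, Adm1 s ∧ s.sum = j ∧ (s.length : ℝ) ≤ f j ∧ x = HofPers.T s 0}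

open Classical in
/-- `DT f j` as a finite set -/
noncomputable def DF (f : ℕ → ℝ) (j : ℕ) : Finset ℝ :=
  ((cw j j).filter fun s => Adm1 s ∧ (s.length : ℝ) ≤ f j).image fun s => HofPers.T s 0

theorem length_le_sum (s : List ℕ) (h : ∀ a ∈ s, 1 ≤ a) : s.length ≤ s.sum := by
  induction s with
  | nil => simp
  | cons a s ih =>
    rw [List.length_cons, List.sum_cons]
    have h1 := h a List.mem_cons_self
    have h2 := ih fun b hb => h b (List.mem_cons_of_mem _ hb)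
    omega

theorem coe_DF (f : ℕ → ℝ) (j : ℕ) : (DF f j : Set ℝ) = DT f j := by
  classical
  ext x
  unfold DF DT
  simp only [Finset.coe_image, Finset.coe_filter, Set.mem_image, Set.mem_ofPred_eq]
  constructor
  · rintro ⟨s, ⟨h1, h2, h3⟩, rfl⟩
    exact ⟨s, h2, (mem_cw.1 h1).2.2, h3, rfl⟩
  · rintro ⟨s, h1, h2, h3, rfl⟩
    refine ⟨s, ⟨mem_cw.2 ⟨?_, h1.1, h2⟩, h1, h3⟩, rfl⟩
    rw [← h2]
    exact length_le_sum s h1.1

theorem DT_subset (f : ℕ → ℝ) (j : ℕ) : DT f j ⊆ ZT j := by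
  rintro x ⟨s, h1, h2, -, rfl⟩
  rw [← h2]
  exact T_mem_ZT h1

theorem card_DF_linear {δ : ℝ} (h0 : 0 < δ) (h1 : δ ≤ 1 / 2) (j : ℕ) :
    ((DF (fun j => δ * j) j).card : ℝ) ≤ Real.exp (Real.binEntropy δ) ^ j := by
  classical
  unfold DF
  refine le_trans (Nat.cast_le.2 Finset.card_image_le) ?_
  exact card_linear_le h0 h1 j j _ (Finset.filter_subset _ _)
    fun l hl => (Finset.mem_filter.1 hl).2.2

theorem card_DF_const (n : ℕ) {j : ℕ} (hj : 1 ≤ j) :
    ((DF (fun _ => ((n + 1 : ℕ) : ℝ)) j).card : ℝ) ≤ 1 * (j : ℝ) ^ n := by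
  classical
  rw [one_mul]
  have h : (DF (fun _ => ((n + 1 : ℕ) : ℝ)) j).card ≤ j ^ n := by
    unfold DF
    refine Finset.card_image_le.trans (le_trans (Finset.card_le_card ?_) (card_cw_le n hj))
    intro s hs
    obtain ⟨h1, h2, h3⟩ := Finset.mem_filter.1 hs
    have h4 : (s.length : ℝ) ≤ ((n + 1 : ℕ) : ℝ) := h3
    exact mem_cw.2 ⟨by exact_mod_cast h4, (mem_cw.1 h1).2⟩
  exact_mod_cast h

theorem mul_mem_ZT' (k m : ℕ) (x : ℝ) (hx : x ∈ ZT k) (y : ℝ) (hy : y ∈ ZT m) :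
    x * y ∈ ZT (k + m) := by
  induction hx using Submodule.span_induction with
  | zero =>
    rw [zero_mul]
    exact Submodule.zero_mem _
  | add x x' _ _ h h' =>
    rw [add_mul]
    exact Submodule.add_mem _ h h'
  | smul q x _ h =>
    rw [smul_mul_assoc]
    exact Submodule.smul_mem _ _ h
  | mem x hx =>
    obtain ⟨l, ⟨h1, h2⟩, rfl⟩ := hx
    induction hy using Submodule.span_induction with
    | zero =>
      rw [mul_zero]
      exact Submodule.zero_mem _
    | add x x' _ _ h h' =>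
      rw [mul_add]
      exact Submodule.add_mem _ h h'
    | smul q x _ h =>
      rw [mul_smul_comm]
      exact Submodule.smul_mem _ _ h
    | mem y hy =>
      obtain ⟨v, ⟨h3, h4⟩, rfl⟩ := hy
      obtain ⟨L, hL1, hL2⟩ := stuffle_t l v h1 h3
      show HofPers.T l 0 * HofPers.T v 0 ∈ ZT (k + m)
      rw [hL2]
      have key : ∀ L : List (List ℕ), (∀ g ∈ L, Adm1 g ∧ g.sum = l.sum + v.sum) →
          (L.map fun g => HofPers.T g 0).sum ∈ ZT (k + m) := by
        intro L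
        induction L with
        | nil =>
          intro _
          simp
        | cons g L ih =>
          intro h
          rw [List.map_cons, List.sum_cons]
          refine Submodule.add_mem _ ?_ (ih fun g' hg' => h g' (List.mem_cons_of_mem _ hg'))
          obtain ⟨h5, h6⟩ := h g List.mem_cons_self
          have := T_mem_ZT h5
          rw [h6, h2, h4] at this
          exact this
      exact key L hL1

theorem Mon_congr {G H : ℕ → Set ℝ} (h : ∀ j, G j = H j) (M : ℕ) : Mon G M = Mon H M := by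
  have : G = H := funext h
  rw [this]

variable {β : ℝ}

/-- depth at most `δ · weight` -/
theorem mz_linear (hZ : Grows ZT β) (hβ1 : 1 < β) {δ lam : ℝ} (h0 : 0 < δ) (h1 : δ ≤ 1 / 2)
    (h : lam * Real.binEntropy δ < Real.log β) :
    ∃ k0 : ℕ, ∀ k : ℕ, k0 ≤ k → ∀ M : ℕ, (M : ℝ) ≤ lam * k →
      ¬ ZT k ≤ Submodule.span ℚ (Mon (DT fun j => δ * j) M) := by
  have hβ0 : 0 < β := by linarith
  have hH : 0 ≤ Real.binEntropy δ := Real.binEntropy_nonneg h0.le (by linarith)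
  have hρ : 1 ≤ Real.exp (Real.binEntropy δ) := Real.one_le_exp hH
  have hρβ : Real.exp (Real.binEntropy δ) ^ lam < β := by
    rw [← Real.exp_mul]
    calc Real.exp (Real.binEntropy δ * lam) < Real.exp (Real.log β) := by
          apply Real.exp_lt_exp.2
          rw [mul_comm]
          exact h
      _ = β := Real.exp_log hβ0
  obtain ⟨k0, hk0⟩ := few_generators hZ (C := 1) (lam := lam) zero_le_one hρ hβ1 hρβ
  refine ⟨k0, fun k hk M hM hle => ?_⟩
  refine hk0 k hk (DF fun j => δ * j) (fun j _ => by rw [one_mul]; exact card_DF_linear h0 h1 j)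
    M hM ?_
  rw [Mon_congr (fun j => coe_DF _ j)]
  exact hle

/-- depth at most `n + 1` -/
theorem mz_const (hZ : Grows ZT β) (hβ1 : 1 < β) (n : ℕ) :
    ∃ c : ℝ, 0 < c ∧ ∃ k0 : ℕ, ∀ k : ℕ, k0 ≤ k → ∀ M : ℕ,
      (M : ℝ) ≤ c * (k : ℝ) ^ (1 + 1 / ((n : ℝ) + 1)) →
      ¬ ZT k ≤ Submodule.span ℚ (Mon (DT fun _ => ((n + 1 : ℕ) : ℝ)) M) := by
  obtain ⟨c, hc, k0, hk0⟩ := poly_generators hZ hβ1 (C := 1) zero_le_one n
  refine ⟨c, hc, k0, fun k hk M hM hle => ?_⟩
  refine hk0 k hk (DF fun _ => ((n + 1 : ℕ) : ℝ)) (fun j hj => card_DF_const n hj) M hM ?_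
  rw [Mon_congr (fun j => coe_DF _ j)]
  exact hle

/-- indecomposables of depth greater than `δ · weight` -/
theorem mz_indec (hZ : Grows ZT β) (hβ1 : 1 < β) {δ ρ : ℝ} (h0 : 0 < δ) (h1 : δ ≤ 1 / 2)
    (h : Real.binEntropy δ < Real.log β) (hρ0 : 0 ≤ ρ) (hρ : ρ < β) (K : ℕ) :
    ∃ k : ℕ, K ≤ k ∧
      (Module.finrank ℚ ↥(Dec ZT k ⊔ Submodule.span ℚ (DT (fun j => δ * j) k)) : ℝ) + ρ ^ k <
        (Module.finrank ℚ (ZT k) : ℝ) := by
  have hβ0 : 0 < β := by linarith
  have hr : Real.exp (Real.binEntropy δ) < β := by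
    calc Real.exp (Real.binEntropy δ) < Real.exp (Real.log β) := Real.exp_lt_exp.2 h
      _ = β := Real.exp_log hβ0
  obtain ⟨k, hk, h2⟩ := indecomposables hZ (fun k => finite_ZT k) mul_mem_ZT' hβ1
    (E := DF fun j => δ * j) (fun k => by rw [coe_DF]; exact DT_subset _ _) (C' := 1)
    zero_le_one (Real.exp_pos _).le hr
    (fun j _ => by rw [one_mul]; exact card_DF_linear h0 h1 j) hρ0 hρ K
  rw [coe_DF] at h2
  exact ⟨k, hk, h2⟩

end Pool.MZExp.Gen
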