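import Mathlib

/-! Counting words of bounded length. -/

open Finset

namespace Pool.MZExp.Gen

/-- words with positive letters, sum `j`, length at most `D` -/
def cw : ℕ → ℕ → Finset (List ℕ)
  | 0, j => if j = 0 then {[]} else ∅
  | D + 1, j => if j = 0 then {[]} else (Icc 1 j).biUnion fun a => (cw D (j - a)).image (List.cons a)

theorem mem_cw {D j : ℕ} {l : List ℕ} :
    l ∈ cw D j ↔ l.length ≤ D ∧ (∀ a ∈ l, 1 ≤ a) ∧ l.sum = j := by
  induction D generalizing j l with
  | zero =>
    unfold cw
    split_ifs with h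
    · rw [mem_singleton]
      constructor
      · rintro rfl
        simp [h]
      · rintro ⟨h1, -, -⟩
        exact List.length_eq_zero_iff.1 (by omega)
    · constructor
      · intro h2
        exact absurd h2 (Finset.notMem_empty _)
      · rintro ⟨h1, -, h3⟩
        have := List.length_eq_zero_iff.1 (Nat.le_zero.1 h1)
        subst this
        exact absurd h3.symm h
  | succ D ih =>
    unfold cw
    split_ifs with h
    · rw [mem_singleton]
      constructor
      · rintro rfl
        simp [h]
      · rintro ⟨-, h2, h3⟩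
        rcases l with _ | ⟨a, l⟩
        · rfl
        · have h4 := h2 a List.mem_cons_self
          rw [List.sum_cons] at h3
          omega
    · simp only [mem_biUnion, mem_image, mem_Icc]
      constructor
      · rintro ⟨a, ⟨ha1, ha2⟩, l', hl', rfl⟩
        obtain ⟨h1, h2, h3⟩ := ih.1 hl'
        refine ⟨by rw [List.length_cons]; omega, ?_, by rw [List.sum_cons]; omega⟩
        intro b hb
        rcases List.mem_cons.1 hb with rfl | hb
        · exact ha1
        · exact h2 b hb
      · rintro ⟨h1, h2, h3⟩
        rcases l with _ | ⟨a, l⟩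
        · exact absurd h3.symm h
        · rw [List.length_cons] at h1
          rw [List.sum_cons] at h3
          refine ⟨a, ⟨h2 a List.mem_cons_self, by omega⟩, l, ih.2 ⟨by omega, fun b hb =>
            h2 b (List.mem_cons_of_mem _ hb), by omega⟩, rfl⟩

theorem cw_zero_right (D : ℕ) : cw D 0 = {[]} := by
  cases D <;> simp [cw]

theorem card_cw_le (n : ℕ) {j : ℕ} (hj : 1 ≤ j) : (cw (n + 1) j).card ≤ j ^ n := by
  induction n generalizing j with
  | zero =>
    rw [pow_zero, Finset.card_le_one]
    intro l hl l' hl'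
    obtain ⟨h1, -, h3⟩ := mem_cw.1 hl
    obtain ⟨h1', -, h3'⟩ := mem_cw.1 hl'
    rcases l with _ | ⟨a, l⟩
    · rw [List.sum_nil] at h3
      omega
    · rcases l' with _ | ⟨a', l'⟩
      · rw [List.sum_nil] at h3'
        omega
      · rw [List.length_cons] at h1 h1'
        have e1 := List.length_eq_zero_iff.1 (show l.length = 0 by omega)
        have e2 := List.length_eq_zero_iff.1 (show l'.length = 0 by omega)
        subst e1 e2
        simp only [List.sum_cons, List.sum_nil, add_zero] at h3 h3'
        rw [h3, h3']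
  | succ n ih =>
    have h : cw (n + 1 + 1) j =
        (Icc 1 j).biUnion fun a => (cw (n + 1) (j - a)).image (List.cons a) := by
      conv_lhs => rw [cw]
      rw [if_neg (by omega)]
    rw [h]
    refine Finset.card_biUnion_le.trans ?_
    have h1 : ∀ a ∈ Icc 1 j, ((cw (n + 1) (j - a)).image (List.cons a)).card ≤ j ^ n := by
      intro a ha
      obtain ⟨ha1, ha2⟩ := mem_Icc.1 ha
      refine Finset.card_image_le.trans ?_
      rcases Nat.eq_zero_or_pos (j - a) with h0 | h0
      · rw [h0, cw_zero_right, card_singleton]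
        exact Nat.one_le_pow _ _ hj
      · exact (ih h0).trans (Nat.pow_le_pow_left (Nat.sub_le _ _) _)
    refine (Finset.sum_le_sum h1).trans ?_
    rw [Finset.sum_const, Nat.card_Icc, smul_eq_mul, pow_succ, mul_comm]
    simp

theorem sum_cw_le (D j : ℕ) {t : ℝ} (ht : 0 ≤ t) :
    ∑ l ∈ cw D j, t ^ l.length ≤ (1 + t) ^ j := by
  induction D generalizing j with
  | zero =>
    rcases Nat.eq_zero_or_pos j with rfl | hj
    · simp [cw]
    · have : cw 0 j = ∅ := by
        unfold cw
        rw [if_neg (by omega)]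
      rw [this, Finset.sum_empty]
      positivity
  | succ D ih =>
    rcases Nat.eq_zero_or_pos j with rfl | hj
    · rw [cw_zero_right]
      simp
    · have h : cw (D + 1) j = (Icc 1 j).biUnion fun a => (cw D (j - a)).image (List.cons a) := by
        conv_lhs => rw [cw]
        rw [if_neg (by omega)]
      have hdisj : Set.PairwiseDisjoint (Icc 1 j : Set ℕ)
          fun a => (cw D (j - a)).image (List.cons a) := by
        intro a _ b _ hab
        show Disjoint ((cw D (j - a)).image (List.cons a)) ((cw D (j - b)).image (List.cons b))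
        rw [Finset.disjoint_left]
        intro l hl hl'
        obtain ⟨u, -, hu⟩ := mem_image.1 hl
        obtain ⟨v, -, hv⟩ := mem_image.1 hl'
        rw [← hv] at hu
        exact hab (List.cons.inj hu).1
      rw [h, Finset.sum_biUnion hdisj]
      have h1 : ∀ a ∈ Icc 1 j, ∑ l ∈ (cw D (j - a)).image (List.cons a), t ^ l.length ≤
          t * (1 + t) ^ (j - a) := by
        intro a _
        rw [Finset.sum_image fun u _ v _ huv => (List.cons.inj huv).2]
        have h2 : ∑ l ∈ cw D (j - a), t ^ (List.cons a l).length =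
            t * ∑ l ∈ cw D (j - a), t ^ l.length := by
          rw [Finset.mul_sum]
          exact Finset.sum_congr rfl fun l _ => by rw [List.length_cons, pow_succ, mul_comm]
        rw [h2]
        exact mul_le_mul_of_nonneg_left (ih _) ht
      refine (Finset.sum_le_sum h1).trans ?_
      have h2 : ∀ m : ℕ, ∑ a ∈ Icc 1 m, t * (1 + t) ^ (m - a) = (1 + t) ^ m - 1 := by
        intro m
        rw [← Finset.mul_sum]
        have h3 : ∑ a ∈ Icc 1 m, (1 + t) ^ (m - a) = ∑ i ∈ range m, (1 + t) ^ i := by
          refine Finset.sum_bij' (fun a _ => m - a) (fun i _ => m - i) ?_ ?_ ?_ ?_ ?_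
          · intro a ha
            have := mem_Icc.1 ha
            exact mem_range.2 (by omega)
          · intro i hi
            have := mem_range.1 hi
            exact mem_Icc.2 (by omega)
          · intro a ha
            have := mem_Icc.1 ha
            omega
          · intro i hi
            have := mem_range.1 hi
            omega
          · intro a _
            rfl
        rw [h3]
        have h4 := geom_sum_mul (1 + t) m
        rw [add_sub_cancel_left] at h4
        rw [mul_comm, h4]
      rw [h2]
      linarith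

/-- the number of words of sum `j` and length `≤ δ j` is at most `exp (j H(δ))` -/
theorem card_linear_le {δ : ℝ} (h0 : 0 < δ) (h1 : δ ≤ 1 / 2) (D j : ℕ)
    (S : Finset (List ℕ)) (hS : S ⊆ cw D j) (hS2 : ∀ l ∈ S, (l.length : ℝ) ≤ δ * j) :
    (S.card : ℝ) ≤ Real.exp (Real.binEntropy δ) ^ j := by
  obtain ⟨t, ht⟩ : ∃ t, t = δ / (1 - δ) := ⟨_, rfl⟩
  have hδ1 : 0 < 1 - δ := by linarith
  have ht0 : 0 < t := by rw [ht]; positivity
  have ht1 : t ≤ 1 := by rw [ht, div_le_one hδ1]; linarith
  have h2 := sum_cw_le D j ht0.le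
  have h3 : ∑ l ∈ S, t ^ (δ * j) ≤ ∑ l ∈ cw D j, t ^ l.length := by
    refine le_trans (Finset.sum_le_sum fun l hl => ?_)
      (Finset.sum_le_sum_of_subset_of_nonneg hS fun l _ _ => by positivity)
    rw [← Real.rpow_natCast t l.length]
    exact Real.rpow_le_rpow_of_exponent_ge ht0 ht1 (hS2 l hl)
  rw [Finset.sum_const, nsmul_eq_mul] at h3
  have h4 : (S.card : ℝ) * t ^ (δ * j) ≤ (1 + t) ^ j := h3.trans h2
  have h5 : 0 < t ^ (δ * j) := Real.rpow_pos_of_pos ht0 _
  rw [← le_div_iff₀ h5] at h4
  refine h4.trans (le_of_eq ?_)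
  have h6 : 1 + t = (1 - δ)⁻¹ := by
    rw [ht]
    field_simp
    ring
  rw [h6, Real.rpow_mul ht0.le, Real.rpow_natCast, ← div_pow]
  congr 1
  rw [Real.binEntropy, Real.exp_add, ht, Real.div_rpow h0.le hδ1.le]
  have e1 : Real.exp (δ * Real.log δ⁻¹) = (δ ^ δ)⁻¹ := by
    rw [Real.log_inv, mul_neg, Real.exp_neg, Real.rpow_def_of_pos h0, mul_comm]
  have e2 : Real.exp ((1 - δ) * Real.log (1 - δ)⁻¹) = (1 - δ)⁻¹ * (1 - δ) ^ δ := by
    rw [Real.log_inv, mul_neg, Real.exp_neg, mul_comm, ← Real.rpow_def_of_pos hδ1,
      Real.rpow_sub hδ1, Real.rpow_one, inv_div, div_eq_mul_inv, mul_comm]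
  rw [e1, e2]
  have h7 : δ ^ δ ≠ 0 := (Real.rpow_pos_of_pos h0 _).ne'
  have h8 : (1 - δ) ^ δ ≠ 0 := (Real.rpow_pos_of_pos hδ1 _).ne'
  field_simp

end Pool.MZExp.Gen
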