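import Pool.Agent.Lib.MZExp.Lower

/-! MP_301213_nt, exponential growth: `dim_ℚ Y_k ≥ (27/25)^k` for all large `k`. -/

open HofPers Finset Pool.MZDim Filter

namespace Pool.MZExp

private def up : List ℕ → List ℕ
  | [] => []
  | (a :: l) => (a + 1) :: l

private theorem up_inj : Function.Injective up := by
  intro x y h
  cases x with
  | nil =>
    cases y with
    | nil => rfl
    | cons b m => simp [up] at h
  | cons a l =>
    cases y with
    | nil => simp [up] at h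
    | cons b m =>
      simp only [up, List.cons.injEq] at h
      obtain ⟨h1, h2⟩ := h
      rw [h2, Nat.add_right_cancel h1]

private theorem WK_step (w : ℕ) : WK (w + 2) = (WK (w + 1)).image up ∪ (WK w).image (fun l => 2 :: l) := by
  ext l
  rw [mem_WK, Finset.mem_union, Finset.mem_image, Finset.mem_image]
  constructor
  · rintro ⟨h1, h2⟩
    cases l with
    | nil => exact Or.inl ⟨[], mem_WK.2 ⟨by simp [Adm], by simp⟩, rfl⟩
    | cons a m =>
      have ha : 2 ≤ a := h1 a List.mem_cons_self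
      rw [List.sum_cons] at h2
      rcases Nat.lt_or_ge 2 a with h3 | h3
      · obtain ⟨b, rfl⟩ : ∃ b, a = b + 1 := ⟨a - 1, by omega⟩
        refine Or.inl ⟨b :: m, mem_WK.2 ⟨?_, ?_⟩, rfl⟩
        · intro c hc
          rw [List.mem_cons] at hc
          rcases hc with rfl | hc
          · omega
          · exact h1 c (List.mem_cons_of_mem _ hc)
        · rw [List.sum_cons]
          omega
      · have : a = 2 := by omega
        subst this
        exact Or.inr ⟨m, mem_WK.2 ⟨h1.tail, by omega⟩, rfl⟩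
  · rintro (⟨m, hm, rfl⟩ | ⟨m, hm, rfl⟩)
    · rw [mem_WK] at hm
      obtain ⟨h1, h2⟩ := hm
      cases m with
      | nil => exact ⟨by simp [Adm, up], by simp [up]⟩
      | cons a m =>
        rw [List.sum_cons] at h2
        refine ⟨?_, by simp only [up, List.sum_cons]; omega⟩
        intro c hc
        simp only [up, List.mem_cons] at hc
        rcases hc with rfl | hc
        · have := h1 a List.mem_cons_self
          omega
        · exact h1 c (List.mem_cons_of_mem _ hc)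
    · rw [mem_WK] at hm
      obtain ⟨h1, h2⟩ := hm
      refine ⟨?_, by rw [List.sum_cons]; omega⟩
      intro c hc
      rw [List.mem_cons] at hc
      rcases hc with rfl | hc
      · exact le_rfl
      · exact h1 c hc

private theorem WK_small (w : ℕ) (hw : w ≤ 1) : WK w = {[]} := by
  ext l
  rw [mem_WK, Finset.mem_singleton]
  constructor
  · rintro ⟨h1, h2⟩
    cases l with
    | nil => rfl
    | cons a m =>
      have ha : 2 ≤ a := h1 a List.mem_cons_self
      rw [List.sum_cons] at h2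
      omega
  · rintro rfl
    exact ⟨by simp [Adm], by simp⟩

theorem card_WK (w : ℕ) : (WK w).card = Nat.fib (w + 1) := by
  induction w using Nat.twoStepInduction with
  | zero => rw [WK_small 0 (by omega)]; simp
  | one => rw [WK_small 1 le_rfl]; simp
  | more w h0 h1 =>
    rw [WK_step, Finset.card_union_of_disjoint, Finset.card_image_of_injective _ up_inj,
      Finset.card_image_of_injective _ (List.cons_injective), h0, h1]
    · exact (add_comm _ _).trans (Nat.fib_add_two (n := w + 1)).symm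
    · rw [Finset.disjoint_left]
      intro x hx hx'
      rw [Finset.mem_image] at hx hx'
      obtain ⟨l, hl, rfl⟩ := hx
      obtain ⟨m, hm, h⟩ := hx'
      cases l with
      | nil => simp [up] at h
      | cons a l =>
        simp only [up, List.cons.injEq] at h
        have := (mem_WK.1 hl).1 a List.mem_cons_self
        omega

theorem TC_WK (w : ℕ) : TC (WK w) := by
  refine ⟨mem_WK.2 ⟨by simp [Adm], by simp⟩, fun l hl => (mem_WK.1 hl).1, fun a l hl => ?_⟩
  obtain ⟨h1, h2⟩ := mem_WK.1 hl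
  rw [List.sum_cons] at h2
  exact mem_WK.2 ⟨h1.tail, by omega⟩

private theorem four_fib {w : ℕ} (hw : 4 ≤ w) : 4 * Nat.fib (w + 1) < Nat.fib (w + 4) := by
  obtain ⟨v, rfl⟩ : ∃ v, w = v + 4 := ⟨w - 4, by omega⟩
  have h1 : Nat.fib (v + 4 + 4) = Nat.fib (v + 6) + Nat.fib (v + 7) := Nat.fib_add_two (n := v + 6)
  have h2 : Nat.fib (v + 7) = Nat.fib (v + 5) + Nat.fib (v + 6) := Nat.fib_add_two (n := v + 5)
  have h3 : Nat.fib (v + 6) = Nat.fib (v + 4) + Nat.fib (v + 5) := Nat.fib_add_two (n := v + 4)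
  have h4 : Nat.fib (v + 5) = Nat.fib (v + 3) + Nat.fib (v + 4) := Nat.fib_add_two (n := v + 3)
  have h5 : Nat.fib (v + 4) = Nat.fib (v + 2) + Nat.fib (v + 3) := Nat.fib_add_two (n := v + 2)
  have h6 : 0 < Nat.fib (v + 2) := Nat.fib_pos.2 (by omega)
  rw [show v + 4 + 1 = v + 5 by ring]
  omega

/-- the sum of the spaces up to weight `K` -/
theorem HK_succ_le (K : ℕ) : HK (K + 1) ≤ HK K ⊔ Yk (K + 1) := by
  unfold HK
  rw [Submodule.span_le]
  rintro x ⟨⟨l, hl⟩, rfl⟩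
  obtain ⟨h1, h2⟩ := mem_WK.1 hl
  rcases Nat.lt_or_ge K l.sum with h3 | h3
  · have h4 : l.sum = K + 1 := by omega
    have h5 := zv_mem_Yk h1
    rw [h4] at h5
    exact Submodule.mem_sup_right h5
  · exact Submodule.mem_sup_left (Submodule.subset_span ⟨⟨l, mem_WK.2 ⟨h1, h3⟩⟩, rfl⟩)

instance finite_HK (K : ℕ) : Module.Finite ℚ (HK K) := by
  unfold HK
  exact FiniteDimensional.span_of_finite ℚ (Set.finite_range _)

theorem finrank_HK_le (K : ℕ) :
    Module.finrank ℚ (HK K) ≤ ∑ k ∈ range (K + 1), Module.finrank ℚ (Yk k) := by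
  induction K with
  | zero =>
    rw [Finset.sum_range_one]
    have hle : HK 0 ≤ Yk 0 := by
      unfold HK
      rw [Submodule.span_le]
      rintro x ⟨⟨l, hl⟩, rfl⟩
      obtain ⟨h1, h2⟩ := mem_WK.1 hl
      have h4 : l.sum = 0 := by omega
      have := zv_mem_Yk h1
      rw [h4] at this
      exact this
    have := finite_Yk 0
    exact Submodule.finrank_mono hle
  | succ K ih =>
    rw [Finset.sum_range_succ]
    have := finite_Yk (K + 1)
    calc Module.finrank ℚ (HK (K + 1)) ≤ Module.finrank ℚ ((HK K ⊔ Yk (K + 1) : Submodule ℚ ℝ)) :=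
          Submodule.finrank_mono (HK_succ_le K)
      _ ≤ Module.finrank ℚ (HK K) + Module.finrank ℚ (Yk (K + 1)) :=
          Submodule.finrank_add_le_finrank_add_finrank _ _
      _ ≤ _ := by omega

theorem exists_big (K : ℕ) : ∃ k, k ≤ K ∧
    Module.finrank ℚ (HK K) ≤ (K + 1) * Module.finrank ℚ (Yk k) := by
  by_contra hcon
  push Not at hcon
  have h1 := finrank_HK_le K
  have h2 : ∑ k ∈ range (K + 1), (K + 1) * Module.finrank ℚ (Yk k) <
      ∑ _k ∈ range (K + 1), Module.finrank ℚ (HK K) := by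
    refine Finset.sum_lt_sum_of_nonempty ⟨0, by simp⟩ fun k hk => hcon k ?_
    rw [Finset.mem_range] at hk
    omega
  rw [Finset.sum_const, Finset.card_range, smul_eq_mul, ← Finset.mul_sum] at h2
  exact absurd (Nat.mul_le_mul_left (K + 1) h1) (not_le.2 h2)

private theorem fib_lower (w : ℕ) : (161 / 100 : ℝ) ^ w ≤ 161 / 100 * (Nat.fib (w + 1) : ℝ) := by
  induction w using Nat.twoStepInduction with
  | zero => norm_num
  | one => norm_num
  | more w h0 h1 =>
    have h2 : ((Nat.fib (w + 2 + 1) : ℕ) : ℝ) = Nat.fib (w + 1) + Nat.fib (w + 1 + 1) := by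
      rw [show w + 2 + 1 = (w + 1) + 2 by ring, Nat.fib_add_two]
      push_cast
      ring
    rw [h2, pow_add]
    have h3 : (0 : ℝ) < (161 / 100 : ℝ) ^ w := by positivity
    rw [pow_succ] at h1
    norm_num
    nlinarith

private theorem ev_rho : ∀ᶠ w : ℕ in atTop, rho ⌊(117 / 100 : ℝ) ^ w⌋₊ ≤ Nat.fib (w + 1) := by
  have hr : (1 : ℝ) < (161 / 100) / (117 / 100) ^ 3 := by norm_num
  filter_upwards [(tendsto_pow_atTop_atTop_of_one_lt hr).eventually_ge_atTop (161 / 100 * 463)] with w hw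
  have hx1 : (1 : ℝ) ≤ (117 / 100 : ℝ) ^ w := one_le_pow₀ (by norm_num)
  have hfl : ((⌊(117 / 100 : ℝ) ^ w⌋₊ : ℕ) : ℝ) ≤ (117 / 100 : ℝ) ^ w := Nat.floor_le (by positivity)
  set d : ℕ := ⌊(117 / 100 : ℝ) ^ w⌋₊
  have hd0 : (0 : ℝ) ≤ d := Nat.cast_nonneg d
  have h1 : ((rho d : ℕ) : ℝ) ≤ 463 * ((117 / 100 : ℝ) ^ w) ^ 3 := by
    set x : ℝ := (117 / 100 : ℝ) ^ w
    unfold rho
    push_cast
    have h2 : (4 * (d : ℝ) + 10) * (d + 2) * (4 * d + 7) + 1 ≤
        (4 * x + 10) * (x + 2) * (4 * x + 7) + 1 := by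
      gcongr
    have h3 : (4 * x + 10) * (x + 2) * (4 * x + 7) + 1 =
        16 * x ^ 3 + 100 * x ^ 2 + 206 * x + 141 := by ring
    have h4 : x ^ 2 ≤ x ^ 3 := pow_le_pow_right₀ hx1 (by norm_num)
    have h5 : x ≤ x ^ 3 := le_self_pow₀ hx1 (by norm_num)
    have h6 : 1 ≤ x ^ 3 := one_le_pow₀ hx1
    linarith
  have h2 : (161 / 100 : ℝ) * 463 * ((117 / 100 : ℝ) ^ w) ^ 3 ≤ (161 / 100 : ℝ) ^ w := by
    rw [div_pow, ← pow_mul, mul_comm 3 w, pow_mul, le_div_iff₀ (by positivity)] at hw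
    exact hw
  have h3 := fib_lower w
  have h4 : ((rho d : ℕ) : ℝ) ≤ Nat.fib (w + 1) := by linarith
  exact_mod_cast h4

theorem lower_w : ∀ᶠ w : ℕ in atTop, ∀ k, 2 * w + 6 ≤ k →
    (117 / 100 : ℝ) ^ w ≤ 24 * (k : ℝ) ^ 2 * (Module.finrank ℚ (Yk k) : ℝ) := by
  filter_upwards [ev_rho, eventually_ge_atTop 4] with w h1 h2 k hk
  have hlow := lower (WK w) (WK (w + 3)) w (w + 3) ⌊(117 / 100 : ℝ) ^ w⌋₊ (TC_WK w) (TC_WK (w + 3))
    (fun l hl => (mem_WK.1 hl).2) (fun l hl => (mem_WK.1 hl).2) (by rw [card_WK]; exact h1)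
    (by rw [card_WK, card_WK]; exact four_fib h2)
  set K : ℕ := w + (w + 3) + 1 with hK
  set r : ℕ := Module.finrank ℚ (HK K) with hr
  obtain ⟨k', hk', hbig⟩ := exists_big K
  have hmono := finrank_mono (show k' + 2 ≤ k by omega)
  have hfl : (117 / 100 : ℝ) ^ w < (⌊(117 / 100 : ℝ) ^ w⌋₊ : ℝ) + 1 := Nat.lt_floor_add_one _
  have h3 : ((r : ℕ) : ℝ) ≤ ((K : ℝ) + 1) * (Module.finrank ℚ (Yk k) : ℝ) := by
    have h4 : r ≤ (K + 1) * Module.finrank ℚ (Yk k) := hbig.trans (Nat.mul_le_mul_left _ hmono)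
    exact_mod_cast h4
  have hKk : ((K : ℝ) + 1) ≤ k := by
    have : K + 1 ≤ k := by omega
    exact_mod_cast this
  have hK0 : (0 : ℝ) ≤ K := Nat.cast_nonneg K
  set f : ℝ := (Module.finrank ℚ (Yk k) : ℝ) with hf
  have hf0 : 0 ≤ f := Nat.cast_nonneg _
  have hr0 : (0 : ℝ) ≤ (r : ℝ) := Nat.cast_nonneg r
  have h5 : (117 / 100 : ℝ) ^ w ≤ (24 * (K : ℝ) + 8) * r := by linarith
  have h6 : (24 * (K : ℝ) + 8) * r ≤ (24 * (K : ℝ) + 8) * (((K : ℝ) + 1) * f) :=
    mul_le_mul_of_nonneg_left h3 (by positivity)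
  have h7 : (24 * (K : ℝ) + 8) * (((K : ℝ) + 1) * f) ≤ 24 * (k : ℝ) * ((k : ℝ) * f) := by
    have h8 : 24 * (K : ℝ) + 8 ≤ 24 * k := by linarith
    have h9 : ((K : ℝ) + 1) * f ≤ k * f := mul_le_mul_of_nonneg_right hKk hf0
    exact mul_le_mul h8 h9 (by positivity) (by positivity)
  calc _ ≤ _ := h5
    _ ≤ _ := h6
    _ ≤ _ := h7
    _ = _ := by ring

/-- EXPONENTIAL GROWTH: `dim_ℚ Y_k ≥ (27/25)^k` for all large `k` -/
theorem dim_exp : ∀ᶠ k : ℕ in atTop, (27 / 25 : ℝ) ^ k ≤ (Module.finrank ℚ (Yk k) : ℝ) := by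
  have hr : (1 : ℝ) < (117 / 100) / (27 / 25) ^ 2 := by norm_num
  have h1 : ∀ᶠ w : ℕ in atTop, 24 * (27 / 25 : ℝ) ^ 7 * (2 * (w : ℝ) + 7) ^ 2 * ((27 / 25 : ℝ) ^ 2) ^ w ≤
      (117 / 100 : ℝ) ^ w := by
    have h2 := (isLittleO_pow_const_const_pow_of_one_lt (R := ℝ) 2 hr).bound
      (c := 1 / (24 * (27 / 25 : ℝ) ^ 7 * 81)) (by positivity)
    filter_upwards [h2, eventually_ge_atTop 1] with w hw hw1
    have hwr : (1 : ℝ) ≤ w := by exact_mod_cast hw1
    rw [Real.norm_of_nonneg (by positivity), Real.norm_of_nonneg (by positivity)] at hw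
    set C : ℝ := 24 * (27 / 25 : ℝ) ^ 7 with hC
    have hC0 : 0 < C := by positivity
    set x : ℝ := ((117 / 100 : ℝ) / (27 / 25) ^ 2) ^ w with hx
    have e1 : x * ((27 / 25 : ℝ) ^ 2) ^ w = (117 / 100 : ℝ) ^ w := by
      rw [hx, ← mul_pow, div_mul_cancel₀ _ (by positivity)]
    have e2 : C * 81 * (w : ℝ) ^ 2 ≤ x := by
      have := mul_le_mul_of_nonneg_left hw (show 0 ≤ C * 81 by positivity)
      rw [← mul_assoc, mul_one_div_cancel (by positivity), one_mul] at this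
      exact this
    have e3 : (2 * (w : ℝ) + 7) ^ 2 ≤ 81 * (w : ℝ) ^ 2 := by nlinarith
    rw [← e1]
    refine mul_le_mul_of_nonneg_right ?_ (by positivity)
    calc C * (2 * (w : ℝ) + 7) ^ 2 ≤ C * (81 * (w : ℝ) ^ 2) := mul_le_mul_of_nonneg_left e3 hC0.le
      _ = C * 81 * (w : ℝ) ^ 2 := by ring
      _ ≤ x := e2
  have ht : Tendsto (fun k : ℕ => (k - 6) / 2) atTop atTop :=
    (Nat.tendsto_div_const_atTop (by norm_num)).comp (tendsto_sub_atTop_nat 6)
  filter_upwards [ht.eventually h1, ht.eventually lower_w, eventually_ge_atTop 6] with k h2 h3 h4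
  have h5 := h3 k (by omega)
  set w : ℕ := (k - 6) / 2 with hw
  have hk7 : k ≤ 2 * w + 7 := by omega
  have hkr : (k : ℝ) ≤ 2 * (w : ℝ) + 7 := by exact_mod_cast hk7
  have hk0 : (0 : ℝ) < k := by
    have : 0 < k := by omega
    exact_mod_cast this
  have h6 : (27 / 25 : ℝ) ^ k ≤ (27 / 25 : ℝ) ^ 7 * ((27 / 25 : ℝ) ^ 2) ^ w := by
    calc (27 / 25 : ℝ) ^ k ≤ (27 / 25 : ℝ) ^ (2 * w + 7) := pow_le_pow_right₀ (by norm_num) hk7
      _ = _ := by rw [pow_add, pow_mul, mul_comm]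
  have h7 : 24 * (k : ℝ) ^ 2 * (27 / 25 : ℝ) ^ k ≤ 24 * (k : ℝ) ^ 2 * (Module.finrank ℚ (Yk k) : ℝ) := by
    calc 24 * (k : ℝ) ^ 2 * (27 / 25 : ℝ) ^ k
        ≤ 24 * (2 * (w : ℝ) + 7) ^ 2 * ((27 / 25 : ℝ) ^ 7 * ((27 / 25 : ℝ) ^ 2) ^ w) := by
          refine mul_le_mul ?_ h6 (by positivity) (by positivity)
          gcongr
      _ = 24 * (27 / 25 : ℝ) ^ 7 * (2 * (w : ℝ) + 7) ^ 2 * ((27 / 25 : ℝ) ^ 2) ^ w := by ring
      _ ≤ _ := h2
      _ ≤ _ := h5
  exact le_of_mul_le_mul_left h7 (by positivity)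

end Pool.MZExp
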