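import Pool.Agent.Lib.MZExp.ZAlg
import Pool.Agent.Lib.MZExp.ZFwd
import Pool.Agent.Lib.MZExp.ZLF
import Pool.Agent.Lib.MZExp.ZRec

/-! MP_301213_nt, exponential growth of `dim Z_k`, module `ZMain`: the ZERO ESTIMATE, interface (E5). -/

open Polynomial

namespace Pool.MZExp

theorem zero_est (A B : Finset (List ℕ)) (hA : TC A) (hB : TC B) (h : 4 * A.card < B.card) :
    ∃ N0 : ℕ, ∀ N : ℕ, N0 ≤ N → ∀ c : List ℕ → List ℕ → ℕ → ℚ, RecC c →
      ∀ x : Fin (N + 1) × A → ℚ, x ≠ 0 → ∃ i, i ≤ N / 2 ∧ ∃ v ∈ B, LF A N c x i v ≠ 0 := by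
  obtain ⟨hA0, hA1, hA2⟩ := hA
  obtain ⟨hB0, hB1, hB2⟩ := hB
  obtain ⟨N0, hN0⟩ := zero_alg A B hA2 hB2 (fun l hl a ha => one_le_two.trans (hA1 l hl a ha))
    (fun l hl a ha => one_le_two.trans (hB1 l hl a ha)) hA0 hB0
    (A.sup List.sum + B.sup List.sum + 1) h
  refine ⟨N0 + 2, fun N hN c hc x hx => ?_⟩
  by_contra hcon
  push Not at hcon
  obtain ⟨R, hR0, hR1, hR2⟩ := hc
  refine hN0 N (by omega) c R (fun u hu v hv => ?_) hR0 (fun j u v => ?_) (aP A N x)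
    (aP_ne_zero A N x hx) (aP_natDegree A N x) (fun v => ?_)
  · have h1 : u.sum ≤ A.sup List.sum := Finset.le_sup (f := List.sum) hu
    have h2 : v.sum ≤ B.sup List.sum := Finset.le_sup (f := List.sum) hv
    exact (hR1 u v).trans (by omega)
  · rw [rec_matrix ((j : ℚ) + 1) A B hA2 hB2 (fun u' v' => c u' v' (j + 1)) u v]
    exact hR2 j u v (hA1 u u.2) (hB1 v v.2)
  · have h3 : N / 2 + 1 ≤ 2 * N := by omega
    obtain ⟨b, hb1, hb2⟩ := dual N (N / 2)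
      (fun u => ∑ α : A, (aP A N x α).eval (u : ℚ) * c α v u) h3
      (fun i hi => (LF_eq A N c x i v).symm.trans (hcon i hi v v.2))
    exact ⟨b, hb1, fun j hj => hb2 j hj⟩

end Pool.MZExp
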