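import Pool.Agent.Lib.MZExp.FormEq
import Pool.Agent.Lib.MZExp.FormRep
import Pool.Agent.Lib.MZExp.EPick
import Pool.Agent.Lib.MZExp.EForm
import Pool.Agent.Lib.MZExp.ZMain
import Pool.Agent.Lib.MZExp.CcRec
import Pool.Agent.Lib.MZExp.Cram
import Pool.Agent.Lib.MZDim.YFin
import Pool.Agent.Lib.MZDim.DBd

/-! MP_301213_nt, exponential growth: from the small linear forms and the zero estimate to a lower bound of the dimension of
the span of all multiple zeta values (letters at least `2`) of weight at most `K`. -/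

open HofPers Finset Pool.MZDim Filter

namespace Pool.MZExp

/-- all words with letters at least `2` and weight at most `K` -/
noncomputable def WK (K : ℕ) : Finset (List ℕ) := (range (K + 1)).biUnion fun k => (words_finite k).toFinset

theorem mem_WK {K : ℕ} {l : List ℕ} : l ∈ WK K ↔ Adm l ∧ l.sum ≤ K := by
  unfold WK
  rw [Finset.mem_biUnion]
  constructor
  · rintro ⟨k, hk, hl⟩
    rw [Set.Finite.mem_toFinset] at hl
    rw [Finset.mem_range] at hk
    exact ⟨hl.1, by have := hl.2; omega⟩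
  · rintro ⟨h1, h2⟩
    exact ⟨l.sum, Finset.mem_range.2 (by omega), by rw [Set.Finite.mem_toFinset]; exact ⟨h1, rfl⟩⟩

/-- the span of all values of words of weight at most `K` -/
noncomputable def HK (K : ℕ) : Submodule ℚ ℝ := Submodule.span ℚ (Set.range fun l : WK K => zv l)

private theorem LF_vec (A : Finset (List ℕ)) (hA : ∀ l ∈ A, Adm l) (N : ℕ) (y : ℕ → List ℕ → ℤ) (i : ℕ)
    (hi : i + 1 ≤ N) (v : List ℕ) (hv : Adm v) (φ : ℝ →ₗ[ℚ] ℚ) :
    φ (form A N y i v) = LF A N (fun l v j => φ (cc l v j)) (vec A N y) i v := by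
  have key : ∀ (q : ℚ) (x : ℝ), φ ((q : ℝ) * x) = q * φ x := by
    intro q x
    have : (q : ℝ) * x = q • x := by rw [Rat.smul_def]
    rw [this, map_smul, smul_eq_mul]
  rw [form_eq A hA N y i hi v hv]
  unfold LF vec
  rw [Fintype.sum_prod_type]
  have h1 : ∀ l a, (y l a : ℝ) *
      ∑ j ∈ range (N + 1), (-1) ^ j * (N.choose j : ℝ) * (bneg (l + j) i : ℝ) * cc a v (l + j) =
      ∑ j ∈ range (N + 1),
        (((y l a : ℚ) * ((-1) ^ j * (N.choose j : ℚ) * (bneg (l + j) i : ℚ)) : ℚ) : ℝ) * cc a v (l + j) := by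
    intro l a
    rw [Finset.mul_sum]
    refine Finset.sum_congr rfl fun j _ => ?_
    push_cast
    ring
  simp only [h1, map_sum, key]
  rw [Finset.sum_range]
  refine Finset.sum_congr rfl fun l _ => ?_
  rw [← Finset.sum_coe_sort A]
  refine Finset.sum_congr rfl fun a _ => ?_
  rw [Finset.mul_sum]
  refine Finset.sum_congr rfl fun j _ => ?_
  ring

private theorem ev_coeff (C : ℕ) :
    ∀ᶠ N : ℕ in atTop, (16 : ℝ) ^ N * Real.exp N * (C * ((N : ℝ) + 1) ^ C) ≤ Real.exp (4 * N) := by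
  have h1 : (fun x : ℝ => x ^ C) =o[atTop] fun x => Real.exp (1 / 10 * x) :=
    isLittleO_pow_exp_pos_mul_atTop C (by norm_num)
  have h2 : ∀ᶠ x : ℝ in atTop, ‖x ^ C‖ ≤ 1 / ((C : ℝ) + 1) * ‖Real.exp (1 / 10 * x)‖ :=
    h1.bound (by positivity)
  have h3 : Tendsto (fun N : ℕ => (N : ℝ) + 1) atTop atTop :=
    tendsto_atTop_add_const_right _ _ tendsto_natCast_atTop_atTop
  filter_upwards [h3.eventually h2, eventually_ge_atTop 1] with N hN hN1
  have hNr : (1 : ℝ) ≤ N := by exact_mod_cast hN1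
  have hC0 : (0 : ℝ) ≤ C := Nat.cast_nonneg C
  rw [Real.norm_of_nonneg (by positivity), Real.norm_of_nonneg (Real.exp_pos _).le] at hN
  have h4 : (C : ℝ) * ((N : ℝ) + 1) ^ C ≤ Real.exp (1 / 10 * ((N : ℝ) + 1)) := by
    calc (C : ℝ) * ((N : ℝ) + 1) ^ C ≤ ((C : ℝ) + 1) * ((N : ℝ) + 1) ^ C :=
          mul_le_mul_of_nonneg_right (by linarith) (by positivity)
      _ ≤ ((C : ℝ) + 1) * (1 / ((C : ℝ) + 1) * Real.exp (1 / 10 * ((N : ℝ) + 1))) :=
          mul_le_mul_of_nonneg_left hN (by positivity)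
      _ = _ := by field_simp
  have h5 : (16 : ℝ) ^ N = Real.exp (N * (4 * Real.log 2)) := by
    rw [Real.exp_nat_mul]
    congr 1
    rw [show (4 : ℝ) * Real.log 2 = ((4 : ℕ) : ℝ) * Real.log 2 by norm_num, Real.exp_nat_mul,
      Real.exp_log (by norm_num)]
    norm_num
  have hlog := Real.log_two_lt_d9
  calc (16 : ℝ) ^ N * Real.exp N * (C * ((N : ℝ) + 1) ^ C)
      ≤ Real.exp (N * (4 * Real.log 2)) * Real.exp N * Real.exp (1 / 10 * ((N : ℝ) + 1)) := by
        rw [h5]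
        exact mul_le_mul_of_nonneg_left h4 (by positivity)
    _ = Real.exp (N * (4 * Real.log 2) + N + 1 / 10 * ((N : ℝ) + 1)) := by
        rw [← Real.exp_add, ← Real.exp_add]
    _ ≤ Real.exp (4 * N) := by
        rw [Real.exp_le_exp]
        nlinarith

theorem lower (A B : Finset (List ℕ)) (w w' Dl : ℕ) (hA : TC A) (hB : TC B)
    (hAw : ∀ l ∈ A, l.sum ≤ w) (hBw : ∀ l ∈ B, l.sum ≤ w') (h1 : rho Dl ≤ A.card)
    (h2 : 4 * A.card < B.card) :
    (Dl : ℝ) - 1 - 12 * ((w + w' + 1 : ℕ) : ℝ) ≤ (12 * ((w + w' + 1 : ℕ) : ℝ) + 4) *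
      (2 * (Module.finrank ℚ (HK (w + w' + 1)) : ℝ) - 1) := by
  set K : ℕ := w + w' + 1 with hK
  obtain ⟨C, hC⟩ := form_rep A B w w' (fun l hl => ⟨hA.2.1 l hl, hAw l hl⟩)
    (fun l hl => ⟨hB.2.1 l hl, hBw l hl⟩)
  obtain ⟨N0, hN0⟩ := zero_est A B hA hB h2
  refine cramer_dim (fun l : WK K => zv l) _ _ (by positivity) ?_
  filter_upwards [ev_coeff C, pick2 A hA.2.1 Dl h1, form_small A B hA.2.1 hB.2.1 Dl,
    eventually_ge_atTop N0, eventually_ge_atTop 1] with N e1 e2 e3 e4 e5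
  obtain ⟨y, hy, hyne⟩ := e2
  have hrep := hC N e5 y (Real.exp N) (Real.one_le_exp (Nat.cast_nonneg N)) hy.1
  set D : ℕ := Nat.lcmUpto (2 * N) with hD
  have hDle : (D : ℝ) ^ K ≤ Real.exp (12 * K * N) := by
    have h3 := lcmUpto_le N
    calc (D : ℝ) ^ K ≤ Real.exp (12 * N) ^ K := pow_le_pow_left₀ (Nat.cast_nonneg _) h3 K
      _ = Real.exp (12 * K * N) := by
        rw [← Real.exp_nat_mul]
        congr 1
        ring
  refine ⟨{u | ∃ i, i ≤ N / 2 ∧ ∃ v ∈ B, (∀ l, |((u l : ℤ) : ℝ)| ≤ Real.exp ((12 * K + 4) * N)) ∧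
    ∑ l, ((u l : ℤ) : ℝ) * zv l = (D : ℝ) ^ K * form A N y i v}, ?_, ?_, ?_⟩
  · rintro u ⟨i, hi, v, hv, h3, h4⟩ l
    exact h3 l
  · rintro u ⟨i, hi, v, hv, h3, h4⟩
    rw [h4, abs_mul, abs_of_nonneg (by positivity)]
    calc (D : ℝ) ^ K * |form A N y i v|
        ≤ Real.exp (12 * K * N) * Real.exp (-(((Dl : ℝ) - 1) * N)) :=
          mul_le_mul hDle (e3 y hy i hi v hv) (abs_nonneg _) (Real.exp_pos _).le
      _ = Real.exp (-(((Dl : ℝ) - 1 - 12 * K) * N)) := by
          rw [← Real.exp_add]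
          congr 1
          ring
  · by_contra hcon
    obtain ⟨φ, hφ1, hφ2⟩ : ∃ φ : ℝ →ₗ[ℚ] ℚ, φ 1 = 1 ∧ ∀ x ∈ Submodule.span ℚ {x : ℝ | ∃ u ∈
        {u : WK K → ℤ | ∃ i, i ≤ N / 2 ∧ ∃ v ∈ B, (∀ l, |((u l : ℤ) : ℝ)| ≤ Real.exp ((12 * K + 4) * N)) ∧
          ∑ l, ((u l : ℤ) : ℝ) * zv l = (D : ℝ) ^ K * form A N y i v},
        x = ∑ l, ((u l : ℤ) : ℝ) * zv l}, φ x = 0 := by
      obtain ⟨f, hf1, hf2⟩ := Submodule.exists_le_ker_of_notMem hcon
      refine ⟨(f 1)⁻¹ • f, ?_, ?_⟩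
      · rw [LinearMap.smul_apply, smul_eq_mul, inv_mul_cancel₀ hf1]
      · intro x hx
        rw [LinearMap.smul_apply, smul_eq_mul]
        have := hf2 hx
        rw [LinearMap.mem_ker] at this
        rw [this, mul_zero]
    have hx : vec A N y ≠ 0 := by
      obtain ⟨i, hi, l, hl, hne⟩ := hyne
      intro h0
      have := congrFun h0 (⟨i, by omega⟩, ⟨l, hl⟩)
      simp [vec] at this
      exact hne this
    obtain ⟨i, hi, v, hv, hLF⟩ := hN0 N e4 _ (cc_rec φ hφ1) (vec A N y) hx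
    apply hLF
    have hi' : i + 1 ≤ N := by omega
    rw [← LF_vec A hA.2.1 N y i hi' v (hB.2.1 v hv) φ]
    obtain ⟨b, hb1, hb2, hb3, hb4⟩ := hrep i hi v hv
    choose zz hzz using hb2
    have hsupp : b.support ⊆ WK K := fun l hl => mem_WK.2 (hb1 l hl)
    have hval : ∑ l : WK K, ((zz l : ℤ) : ℝ) * zv l = (D : ℝ) ^ K * form A N y i v := by
      rw [← hb4, Finset.mul_sum]
      rw [Finset.sum_coe_sort (WK K) (fun l => ((zz l : ℤ) : ℝ) * zv l)]
      rw [← Finset.sum_subset hsupp]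
      · refine Finset.sum_congr rfl fun l _ => ?_
        have := hzz l
        have h5 : ((zz l : ℤ) : ℝ) = (D : ℝ) ^ K * ((b l : ℚ) : ℝ) := by
          have h6 : (((zz l : ℤ) : ℚ) : ℝ) = (((D : ℚ) ^ K * b l : ℚ) : ℝ) := by rw [← this]
          push_cast at h6
          exact_mod_cast h6
        rw [h5]
        ring
      · intro l _ hl
        rw [Finsupp.notMem_support_iff] at hl
        have := hzz l
        rw [hl, mul_zero] at this
        have h6 : zz l = 0 := by exact_mod_cast this.symm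
        rw [h6]
        simp
    have hbd : ∀ l : WK K, |((zz l : ℤ) : ℝ)| ≤ Real.exp ((12 * K + 4) * N) := by
      intro l
      have h5 : ((zz l : ℤ) : ℝ) = (D : ℝ) ^ K * ((b l : ℚ) : ℝ) := by
        have := hzz l
        have h6 : (((zz l : ℤ) : ℚ) : ℝ) = (((D : ℚ) ^ K * b l : ℚ) : ℝ) := by rw [← this]
        push_cast at h6
        exact_mod_cast h6
      have h7 : |((b l : ℚ) : ℝ)| ≤ 16 ^ N * Real.exp N * (C * ((N : ℝ) + 1) ^ C) := by
        by_cases hl : (l : List ℕ) ∈ b.support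
        · exact (Finset.single_le_sum (f := fun l => |((b l : ℚ) : ℝ)|) (fun _ _ => abs_nonneg _) hl).trans hb3
        · rw [Finsupp.notMem_support_iff] at hl
          rw [hl]
          simp
          positivity
      rw [h5, abs_mul, abs_of_nonneg (by positivity)]
      calc (D : ℝ) ^ K * |((b l : ℚ) : ℝ)| ≤ Real.exp (12 * K * N) * Real.exp (4 * N) :=
            mul_le_mul hDle (h7.trans e1) (abs_nonneg _) (Real.exp_pos _).le
        _ = Real.exp ((12 * K + 4) * N) := by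
            rw [← Real.exp_add]
            congr 1
            ring
    have h8 : φ ((D : ℝ) ^ K * form A N y i v) = 0 := by
      refine hφ2 _ (Submodule.subset_span ⟨fun l => zz l, ⟨i, hi, v, hv, hbd, hval⟩, hval.symm⟩)
    have h9 : (D : ℝ) ^ K * form A N y i v = ((D : ℚ) ^ K) • form A N y i v := by
      rw [Rat.smul_def]
      push_cast
      rfl
    rw [h9, map_smul, smul_eq_mul] at h8
    have h10 : ((D : ℚ) ^ K) ≠ 0 := by
      have : 0 < D := Nat.lcmUpto_pos (2 * N)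
      positivity
    exact (mul_eq_zero.1 h8).resolve_left h10

end Pool.MZExp
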