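import Pool.Agent.Lib.MZExp.CReal

/-! MP_c511df_nt. The right side `D_k - D_(k-2)` of Zagier's identity `a_k = D_k - D_(k-2)` is
exponentially large for infinitely many `k` of each parity. -/

open Finset

namespace Pool.MZExp.RightSideJumps

/-- `D_k`, the dimension over `ℚ` of the span of the multiple zeta values of weight `k`, exactly as in
the frozen statement. -/
noncomputable def D (k : ℕ) : ℕ :=
  Module.finrank ℚ (Submodule.span ℚ {x : ℝ | ∃ r : ℕ, ∃ kk : Fin r → ℕ,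
    (∀ i, 1 ≤ kk i) ∧ (∑ i, kk i = k) ∧ (∀ h : 0 < r, 2 ≤ kk ⟨0, h⟩) ∧
    x = ∑' m : {m : Fin r → ℕ // StrictAnti m ∧ ∀ i, 0 < m i},
          ∏ i, (((m.1 i : ℕ) : ℝ) ^ kk i)⁻¹})

/-- `d` is the dimension `a_k` of the space of finite multiple zeta values of weight `k`, exactly as
in the frozen statement. -/
def IsDim (k d : ℕ) : Prop :=
  (∃ len : Fin d → ℕ, ∃ kk : (j : Fin d) → Fin (len j) → ℕ,
    (∀ j, (∀ a, 1 ≤ kk j a) ∧ ∑ a, kk j a = k) ∧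
    ∀ c : Fin d → ℚ,
      (∃ N : ℕ, ∀ p : ℕ, p.Prime → N < p →
        ∑ j : Fin d, ((c j).num : ZMod p) * ((c j).den : ZMod p)⁻¹ *
          ∑ m : Fin (len j) → Fin p,
            (if (∀ a b : Fin (len j), a < b → m b < m a) ∧ (∀ a, 0 < (m a : ℕ))
              then ∏ a, ((((m a : ℕ) : ZMod p)) ^ kk j a)⁻¹ else 0) = 0) → ∀ j, c j = 0) ∧
  (∀ len : Fin (d + 1) → ℕ, ∀ kk : (j : Fin (d + 1)) → Fin (len j) → ℕ,
    (∀ j, (∀ a, 1 ≤ kk j a) ∧ ∑ a, kk j a = k) →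
    ∃ c : Fin (d + 1) → ℚ,
      (∃ N : ℕ, ∀ p : ℕ, p.Prime → N < p →
        ∑ j : Fin (d + 1), ((c j).num : ZMod p) * ((c j).den : ZMod p)⁻¹ *
          ∑ m : Fin (len j) → Fin p,
            (if (∀ a b : Fin (len j), a < b → m b < m a) ∧ (∀ a, 0 < (m a : ℕ))
              then ∏ a, ((((m a : ℕ) : ZMod p)) ^ kk j a)⁻¹ else 0) = 0) ∧ ∃ j, c j ≠ 0)

/-- `D_k - D_(k-2) ≥ 2^(k/5)` for infinitely many `k` of each parity. Hence Zagier's identity (the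
frozen statement) would imply `a_k ≥ 2^(k/5)` for infinitely many `k` of each parity. -/
theorem result :
    (∀ e N : ℕ, e < 2 → ∃ k, N ≤ k ∧ 2 ≤ k ∧ k % 2 = e ∧
      (D (k - 2) : ℝ) + 2 ^ ((k : ℝ) / 5) ≤ D k) ∧
    ((∀ k, 2 ≤ k → ∃ d, d + D (k - 2) = D k ∧ IsDim k d) →
      ∀ e N : ℕ, e < 2 → ∃ k, N ≤ k ∧ k % 2 = e ∧ ∃ d, IsDim k d ∧ (2 : ℝ) ^ ((k : ℝ) / 5) ≤ d) := by
  have h1 : ∀ e N : ℕ, e < 2 → ∃ k, N ≤ k ∧ 2 ≤ k ∧ k % 2 = e ∧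
      (D (k - 2) : ℝ) + 2 ^ ((k : ℝ) / 5) ≤ D k := fun e N he => Pool.MZExp.dimD_jump e N he
  refine ⟨h1, fun hZ e N he => ?_⟩
  obtain ⟨k, hk1, hk2, hk3, hk4⟩ := h1 e N he
  obtain ⟨d, hd1, hd2⟩ := hZ k hk2
  refine ⟨k, hk1, hk3, d, hd2, ?_⟩
  have h2 : (d : ℝ) + D (k - 2) = D k := by exact_mod_cast hd1
  linarith

end Pool.MZExp.RightSideJumps
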