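import Mathlib

/-! MP_301213_nt, exponential growth of `dim Z_k`, ZERO ESTIMATE, module `ZPole` (80 lines).

ONLY MATHLIB. A difference `A(X) - A(X-1)` of rational functions is not a nonzero polynomial in `1/X`
without constant term.
PROOF. Suppose equality. Let `Z` be the set of integers `m` with `q.eval m = 0`; finite
(`q ≠ 0`; e.g. it injects into `q.roots.toFinset` by the cast; `Set.Finite.preimage`).
At `X = 0` (`s ≥ 1`): `g(0) q(0) q(-1) = 0`, so `0 ∈ Z` or `-1 ∈ Z`; `Z` is nonempty.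
Let `n = max Z`. Evaluate at `n + 1`: `q(X-1)` has the value `q(n) = 0`, so
`(n+1)^s * p(n) * q(n+1) = 0`; `q(n+1) ≠ 0` (maximality), `p(n) ≠ 0` (coprime: evaluate
`u p + v q = 1` at `n`), so `n = -1`. Let `m = min Z ≤ n = -1`. Evaluate at `m`: `q(m) = 0`, so
`m^s * p(m) * q(m-1) = 0`; `q(m-1) ≠ 0`, `p(m) ≠ 0`, so `m = 0`, contradiction. -/

open Polynomial

namespace Pool.MZExp

theorem no_pole (p q g : ℚ[X]) (s : ℕ) (hs : 1 ≤ s) (hq : q ≠ 0) (hc : IsCoprime p q)
    (hg : g.eval 0 ≠ 0) :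
    X ^ s * (p * q.comp (X - 1) - p.comp (X - 1) * q) ≠ g * q * q.comp (X - 1) := by
  intro h
  have key : ∀ m : ℚ, m ^ s * (p.eval m * q.eval (m - 1) - p.eval (m - 1) * q.eval m)
      = g.eval m * q.eval m * q.eval (m - 1) := by
    intro m
    have := congrArg (eval m) h
    simpa [eval_mul, eval_sub, eval_comp, eval_pow] using this
  have hpq : ∀ m : ℚ, q.eval m = 0 → p.eval m ≠ 0 := by
    intro m hm hp
    obtain ⟨u, v, huv⟩ := hc
    have := congrArg (eval m) huv
    simp [hm, hp] at this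
  have hfin : {m : ℤ | q.eval (m : ℚ) = 0}.Finite := by
    have h1 : {x : ℚ | q.eval x = 0}.Finite := by
      refine (q.roots.toFinset.finite_toSet).subset ?_
      intro x hx
      simp only [Set.mem_ofPred_eq] at hx
      simp [hq, hx]
    have h2 := Set.Finite.preimage (f := fun m : ℤ => (m : ℚ)) (s := {x : ℚ | q.eval x = 0})
      (Int.cast_injective.injOn) h1
    exact h2
  have hne : hfin.toFinset.Nonempty := by
    have h0 := key 0
    rw [zero_pow (by omega), zero_mul] at h0
    have h1 := h0.symm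
    rcases mul_eq_zero.1 h1 with h2 | h2
    · rcases mul_eq_zero.1 h2 with h3 | h3
      · exact absurd h3 hg
      · exact ⟨0, by simpa using h3⟩
    · exact ⟨-1, by simpa using h2⟩
  set F := hfin.toFinset with hF
  have memF : ∀ m : ℤ, m ∈ F ↔ q.eval (m : ℚ) = 0 := by
    intro m
    simp [hF]
  have hn := F.max'_mem hne
  have hm := F.min'_mem hne
  set n := F.max' hne with hndef
  set m := F.min' hne with hmdef
  have hn1 : q.eval ((n + 1 : ℤ) : ℚ) ≠ 0 := by
    intro hc'
    have := F.le_max' (n + 1) ((memF _).2 hc')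
    omega
  have hm1 : q.eval ((m - 1 : ℤ) : ℚ) ≠ 0 := by
    intro hc'
    have := F.min'_le (m - 1) ((memF _).2 hc')
    omega
  have hmn : m ≤ n := F.min'_le n hn
  rw [memF] at hn hm
  have e1 := key ((n + 1 : ℤ) : ℚ)
  have e1' : (((n + 1 : ℤ) : ℚ) - 1) = (n : ℚ) := by push_cast; ring
  rw [e1', hn, mul_zero, mul_zero, zero_sub] at e1
  have hn0 : n = -1 := by
    rcases mul_eq_zero.1 e1 with h2 | h2
    · have h3 : ((n + 1 : ℤ) : ℚ) = 0 := by
        by_contra h4
        exact (pow_ne_zero s h4) h2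
      have h4 : n + 1 = 0 := by exact_mod_cast h3
      omega
    · have h3 := neg_eq_zero.1 h2
      rcases mul_eq_zero.1 h3 with h4 | h4
      · exact absurd h4 (hpq _ hn)
      · exact absurd h4 hn1
  have e2 := key (m : ℚ)
  have e2' : ((m : ℚ) - 1) = ((m - 1 : ℤ) : ℚ) := by push_cast; ring
  rw [e2', hm, mul_zero, mul_zero, zero_mul, sub_zero] at e2
  rcases mul_eq_zero.1 e2 with h2 | h2
  · have h3 : (m : ℚ) = 0 := by
      by_contra h4
      exact (pow_ne_zero s h4) h2
    have h4 : m = 0 := by exact_mod_cast h3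
    omega
  · rcases mul_eq_zero.1 h2 with h4 | h4
    · exact absurd h4 (hpq _ hm)
    · exact absurd h4 hm1

end Pool.MZExp
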