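import Pool.Agent.Lib.MZExp.ZCon
import Pool.Agent.Lib.MZExp.ZPole

/-! MP_301213_nt, exponential growth of `dim Z_k`, ZERO ESTIMATE, module `ZNo`.

A difference `A - tau A` is a sum `∑ κ_m (-1/X)^m`, `m ≥ 1`, with constants `κ_m` only if all the
`κ_m` vanish. With `s` the largest `m` with `κ_m ≠ 0` the sum is `g / X^s`, `g` a polynomial with
`g(0) ≠ 0`; for `A = p / q` reduced, `X^s (p q(X-1) - p(X-1) q) = g q q(X-1)`, which contradicts
`no_pole`. -/

open Polynomial

namespace Pool.MZExp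

theorem noSol : NoSol tau xx := by
  intro κ A hκ h0 hA
  by_contra hne
  have hr0 : ∀ m, ∃ r : ℚ, κ m = algebraMap ℚ[X] KK (C r) := fun m => tau_fixed _ (hκ m)
  choose r hr using hr0
  have hsupp : κ.support.Nonempty := Finsupp.support_nonempty_iff.2 hne
  obtain ⟨s, hsmem, hle⟩ : ∃ s ∈ κ.support, ∀ m ∈ κ.support, m ≤ s :=
    ⟨κ.support.max' hsupp, Finset.max'_mem _ _, fun m hm => Finset.le_max' _ _ hm⟩
  have hks : κ s ≠ 0 := Finsupp.mem_support_iff.1 hsmem
  have hs1 : 1 ≤ s := by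
    rcases Nat.eq_zero_or_pos s with h | h
    · exact absurd h0 (h ▸ hks)
    · exact h
  have hrs : r s ≠ 0 := by
    intro h
    apply hks
    rw [hr s, h, C_0, map_zero]
  obtain ⟨g, hgdef⟩ : ∃ g : ℚ[X], g = ∑ m ∈ κ.support, C (r m * (-1) ^ m) * X ^ (s - m) := ⟨_, rfl⟩
  have hg : g.eval 0 ≠ 0 := by
    have h1 : g.eval 0 = r s * (-1) ^ s := by
      rw [hgdef, eval_finsetSum, Finset.sum_eq_single s]
      · simp
      · intro m hm hms
        have h2 : s - m ≠ 0 := by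
          have := hle m hm
          omega
        simp [h2]
      · intro h
        exact absurd hsmem h
    rw [h1]
    exact mul_ne_zero hrs (pow_ne_zero _ (by norm_num))
  have hx : xx ≠ 0 := xx_ne_zero
  have hsum : (κ.sum (fun m k => k * (-xx⁻¹) ^ m)) * xx ^ s = algebraMap ℚ[X] KK g := by
    rw [Finsupp.sum, Finset.sum_mul, hgdef, map_sum]
    refine Finset.sum_congr rfl fun m hm => ?_
    have h2 : xx ^ s = xx ^ m * xx ^ (s - m) := by
      rw [← pow_add, Nat.add_sub_cancel' (hle m hm)]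
    have h3 : (-xx⁻¹) ^ m * xx ^ m = (-1) ^ m := by
      rw [← mul_pow, neg_mul, inv_mul_cancel₀ hx]
    have h4 : algebraMap ℚ[X] KK (C ((-1 : ℚ) ^ m)) = (-1) ^ m := by
      rw [map_pow, map_pow, map_neg, map_neg, map_one, map_one]
    rw [hr m, map_mul (algebraMap ℚ[X] KK), map_pow (algebraMap ℚ[X] KK), map_mul C,
      map_mul (algebraMap ℚ[X] KK), h4, h2]
    calc algebraMap ℚ[X] KK (C (r m)) * (-xx⁻¹) ^ m * (xx ^ m * xx ^ (s - m))
        = algebraMap ℚ[X] KK (C (r m)) * ((-xx⁻¹) ^ m * xx ^ m) * xx ^ (s - m) := by ring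
      _ = algebraMap ℚ[X] KK (C (r m)) * (-1) ^ m * (algebraMap ℚ[X] KK X) ^ (s - m) := by
          rw [h3]; rfl
  obtain ⟨p, q, hq, hc, hpq⟩ : ∃ p q : ℚ[X], q ≠ 0 ∧ IsCoprime p q ∧
      A * algebraMap ℚ[X] KK q = algebraMap ℚ[X] KK p := by
    refine ⟨IsFractionRing.num ℚ[X] A, (IsFractionRing.den ℚ[X] A : ℚ[X]),
      nonZeroDivisors.ne_zero (IsFractionRing.den ℚ[X] A).2, ?_, ?_⟩
    · exact (IsFractionRing.num_den_reduced ℚ[X] A).isCoprime
    · have h1 := IsFractionRing.mk'_num_den ℚ[X] A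
      have h2 := IsLocalization.mk'_spec KK (IsFractionRing.num ℚ[X] A) (IsFractionRing.den ℚ[X] A)
      rw [h1] at h2
      exact h2
  refine no_pole p q g s hs1 hq hc hg ?_
  apply IsFractionRing.injective ℚ[X] KK
  have hq' : algebraMap ℚ[X] KK q ≠ 0 := by
    intro h
    exact hq ((map_eq_zero_iff _ (IsFractionRing.injective ℚ[X] KK)).1 h)
  have ht : tau A * algebraMap ℚ[X] KK (q.comp (X - 1)) = algebraMap ℚ[X] KK (p.comp (X - 1)) := by
    rw [← tau_algebraMap, ← tau_algebraMap, ← map_mul, hpq]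
  rw [← hA] at hsum
  rw [map_mul, map_sub, map_mul, map_mul, map_mul, map_mul, map_pow, ← hsum, ← hpq, ← ht]
  change xx ^ s * _ = _
  ring

end Pool.MZExp
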