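import Pool.Agent.Lib.MZExp.ZUnip

/-! MP_301213_nt, exponential growth of `dim Z_k`, ZERO ESTIMATE, module `ZPol` (240 lines): the shifted
pair as polynomials (only Mathlib, ZDefs, ZUnip). `s = d + w + 1`.

PROOF. Write `p⁻ = p.comp (X - 1)` (`natDegree p⁻ ≤ natDegree p`).
A: `A u = X^s * (a u)⁻ + ∑ w' : S0, if w' = headI w' :: u then C ((-1)^a) * X^(s-a) * (a w')⁻ else 0`
with `a = headI w' ≤ w ≤ s` (`hw0`). Degree `≤ y + s`. `eval 0 = 0` because `s ≥ 1`, `s - a ≥ 1`.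
Under `φ` (`φ X = x ≠ 0`): `φ (C ((-1)^a) * X^(s-a)) = x^s * (-x⁻¹)^a`, so `φ (A u)` is
`x^s * (Tm x S0 *ᵥ (φ ∘ a⁻)) u` (`Tm_mulVec`).
B: put `Rd u v = ∑ k ∈ range (d+1), C ((R u v).coeff k) * X^(d-k)` (so
`φ (Rd u v) = x^d * (R u v).eval₂ (φ.comp C) x⁻¹`: `eval₂_eq_sum_range'` with `natDegree < d+1`),
`H v = X^d * (b v)⁻ - ∑ u : S0, (a u)⁻ * Rd u v` for `v ∈ S1` and `H v = 0` for other words;
`natDegree (H v) ≤ z + d` (`y ≤ z`). Define `P : List ℕ → ℚ[X]` by recursion: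
`P [] = H []`, `P (l :: v') = X^(l + v'.sum) * H (l :: v') - C ((-1)^l) * P v'`;
`natDegree (P v) ≤ z + d + v.sum`. `B v = X^(w + 1 - v.sum) * P v` (`v.sum ≤ w` by `hw1`), degree
`≤ z + s`, `eval 0 = 0`. Claim: `vecMul (φ ∘ B) (Tm x S1) v = x^(w+1) * φ (H v)`. For `v = []`:
`Tm_vecMul_nil`, `B [] = X^(w+1) * H []`. For `v = l :: v'` (`v' ∈ S1` by `hS1`): `Tm_vecMul_cons`:
`φ (B v) + (-x⁻¹)^l φ (B v')
= x^(w+1-|v|) (x^|v| φ (H v) - (-1)^l φ (P v')) + (-1)^l x^(-l) x^(w+1-|v'|) φ (P v')`, and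
`|v| = l + |v'|`: the last two terms cancel. Finally `x^(w+1) * φ (H v)
= x^s * (φ (b v)⁻ - ∑ u, φ (a u)⁻ * (R u v).eval₂ (φ.comp C) x⁻¹)`. -/

open Polynomial

namespace Pool.MZExp

/-- the recursion for the polynomials `P` -/
private noncomputable def zpolP (H : List ℕ → ℚ[X]) : List ℕ → ℚ[X]
  | [] => H []
  | l :: v => X ^ (l + v.sum) * H (l :: v) - C ((-1) ^ l) * zpolP H v

private theorem zpol_comp (p : ℚ[X]) (n : ℕ) (hp : p.natDegree ≤ n) :
    (p.comp (X - 1)).natDegree ≤ n := by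
  have h1 : (X - 1 : ℚ[X]).natDegree = 1 := by
    have : (X - 1 : ℚ[X]) = X - C 1 := by rw [C_1]
    rw [this, natDegree_X_sub_C]
  rw [natDegree_comp, h1, mul_one]
  exact hp

private theorem zpol_mono (n : ℕ) (p : ℚ[X]) (m : ℕ) (hp : p.natDegree ≤ m) :
    (X ^ n * p).natDegree ≤ n + m := by
  refine natDegree_mul_le.trans ?_
  rw [natDegree_X_pow]
  omega

private theorem zpol_P_deg (H : List ℕ → ℚ[X]) (n : ℕ) (hH : ∀ v, (H v).natDegree ≤ n)
    (v : List ℕ) : (zpolP H v).natDegree ≤ n + v.sum := by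
  induction v with
  | nil => exact (hH []).trans (Nat.le_add_right _ _)
  | cons l v ih =>
    have e : zpolP H (l :: v) = X ^ (l + v.sum) * H (l :: v) - C ((-1) ^ l) * zpolP H v := rfl
    rw [e]
    refine (natDegree_sub_le _ _).trans (max_le ?_ ?_)
    · refine (zpol_mono _ _ _ (hH _)).trans ?_
      rw [List.sum_cons]
      omega
    · refine (natDegree_C_mul_le _ _).trans (ih.trans ?_)
      rw [List.sum_cons]
      omega

private theorem zpol_eval (n : ℕ) (hn : 1 ≤ n) (p : ℚ[X]) : (X ^ n * p).eval 0 = 0 := by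
  rw [eval_mul, eval_pow, eval_X, zero_pow (by omega), zero_mul]

private theorem zpol_inv {K : Type} [Field K] (x : K) (hx : x ≠ 0) (s h : ℕ) (hs : h ≤ s) :
    (-1) ^ h * x ^ (s - h) = x ^ s * (-x⁻¹) ^ h := by
  rw [neg_pow x⁻¹ h, pow_sub₀ x hx hs, inv_pow]
  ring

private theorem zpol_inv2 {K : Type} [Field K] (x : K) (hx : x ≠ 0) (s h : ℕ) (hs : h ≤ s) :
    x ^ (s - h) = x ^ s * (x⁻¹) ^ h := by
  rw [pow_sub₀ x hx hs, inv_pow]

theorem exists_polys (S0 S1 : Finset (List ℕ)) (hS1 : ∀ a l, a :: l ∈ S1 → l ∈ S1) (d w : ℕ)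
    (hw0 : ∀ u ∈ S0, u.headI ≤ w) (hw1 : ∀ v ∈ S1, v.sum ≤ w)
    (R : List ℕ → List ℕ → ℚ[X]) (hR : ∀ u ∈ S0, ∀ v ∈ S1, (R u v).natDegree ≤ d)
    (y z : ℕ) (hyz : y ≤ z) (a : S0 → ℚ[X]) (b : S1 → ℚ[X]) (ha : ∀ u, (a u).natDegree ≤ y)
    (hb : ∀ v, (b v).natDegree ≤ z) :
    ∃ (A : S0 → ℚ[X]) (B : S1 → ℚ[X]),
      (∀ u, (A u).natDegree ≤ y + (d + w + 1)) ∧ (∀ v, (B v).natDegree ≤ z + (d + w + 1)) ∧
      (∀ u, (A u).eval 0 = 0) ∧ (∀ v, (B v).eval 0 = 0) ∧
      ∀ (K : Type) [Field K] (φ : ℚ[X] →+* K), φ X ≠ 0 →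
        (∀ u, φ (A u) = φ X ^ (d + w + 1) *
          (Tm (φ X) S0).mulVec (fun u' => φ ((a u').comp (X - 1))) u) ∧
        (∀ v, Matrix.vecMul (fun v' => φ (B v')) (Tm (φ X) S1) v = φ X ^ (d + w + 1) *
          (φ ((b v).comp (X - 1)) -
            ∑ u : S0, φ ((a u).comp (X - 1)) * (R u v).eval₂ (φ.comp C) (φ X)⁻¹)) := by
  classical
  obtain ⟨s, hs⟩ : ∃ s, s = d + w + 1 := ⟨_, rfl⟩
  -- the polynomials `R`
  let Rd : List ℕ → List ℕ → ℚ[X] := fun u v =>
    ∑ k ∈ Finset.range (d + 1), C ((R u v).coeff k) * X ^ (d - k)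
  have hRd : ∀ u v, (Rd u v).natDegree ≤ d := by
    intro u v
    refine natDegree_sum_le_of_forall_le _ _ fun k _ => ?_
    refine (natDegree_C_mul_le _ _).trans ?_
    rw [natDegree_X_pow]
    omega
  let H : List ℕ → ℚ[X] := fun v => if h : v ∈ S1 then
    X ^ d * (b ⟨v, h⟩).comp (X - 1) - ∑ u : S0, (a u).comp (X - 1) * Rd u v else 0
  have hH : ∀ v, (H v).natDegree ≤ z + d := by
    intro v
    by_cases h : v ∈ S1
    · have e : H v = X ^ d * (b ⟨v, h⟩).comp (X - 1) - ∑ u : S0, (a u).comp (X - 1) * Rd u v :=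
        dif_pos h
      rw [e]
      refine (natDegree_sub_le _ _).trans (max_le ?_ ?_)
      · refine (zpol_mono _ _ z (zpol_comp _ _ (hb _))).trans ?_
        omega
      · refine natDegree_sum_le_of_forall_le _ _ fun u _ => ?_
        refine natDegree_mul_le.trans ?_
        have h1 := zpol_comp _ _ (ha u)
        have h2 := hRd u v
        omega
    · have e : H v = 0 := dif_neg h
      rw [e, natDegree_zero]
      omega
  let A : S0 → ℚ[X] := fun u => X ^ s * (a u).comp (X - 1) +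
    ∑ w' : S0, if w'.1 = w'.1.headI :: u.1 then
      X ^ (s - w'.1.headI) * (C ((-1) ^ w'.1.headI) * (a w').comp (X - 1)) else 0
  let B : S1 → ℚ[X] := fun v => X ^ (w + 1 - v.1.sum) * zpolP H v.1
  refine ⟨A, B, ?_, ?_, ?_, ?_, ?_⟩
  · intro u
    refine (natDegree_add_le _ _).trans (max_le ?_ ?_)
    · refine (zpol_mono _ _ y (zpol_comp _ _ (ha _))).trans ?_
      omega
    · refine natDegree_sum_le_of_forall_le _ _ fun w' _ => ?_
      split_ifs
      · refine (zpol_mono _ _ y ((natDegree_C_mul_le _ _).trans (zpol_comp _ _ (ha _)))).trans ?_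
        omega
      · rw [natDegree_zero]
        omega
  · intro v
    have h1 := hw1 v.1 v.2
    refine (zpol_mono _ _ _ (zpol_P_deg H (z + d) hH v.1)).trans ?_
    omega
  · intro u
    show (X ^ s * (a u).comp (X - 1) + ∑ w' : S0, if w'.1 = w'.1.headI :: u.1 then
      X ^ (s - w'.1.headI) * (C ((-1) ^ w'.1.headI) * (a w').comp (X - 1)) else 0).eval 0 = 0
    rw [eval_add, zpol_eval s (by omega), zero_add, eval_finsetSum]
    refine Finset.sum_eq_zero fun w' _ => ?_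
    have h1 := hw0 w'.1 w'.2
    split_ifs
    · exact zpol_eval _ (by omega) _
    · exact eval_zero
  · intro v
    have h1 := hw1 v.1 v.2
    exact zpol_eval _ (by omega) _
  · intro K _ φ hx
    obtain ⟨x, hxd⟩ : ∃ x, x = φ X := ⟨_, rfl⟩
    rw [← hxd] at hx
    have hC1 : ∀ h : ℕ, φ (C ((-1) ^ h)) = (-1) ^ h := by
      intro h
      rw [C_pow, C_neg, C_1, map_pow, map_neg, map_one]
    refine ⟨fun u => ?_, fun v => ?_⟩
    · rw [← hxd, ← hs, Tm_mulVec, mul_add, Finset.mul_sum]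
      show φ (X ^ s * (a u).comp (X - 1) + ∑ w' : S0, if w'.1 = w'.1.headI :: u.1 then
        X ^ (s - w'.1.headI) * (C ((-1) ^ w'.1.headI) * (a w').comp (X - 1)) else 0) = _
      rw [map_add, map_mul, map_pow, ← hxd, map_sum]
      congr 1
      refine Finset.sum_congr rfl fun w' _ => ?_
      have h1 := hw0 w'.1 w'.2
      split_ifs
      · rw [map_mul, map_mul, map_pow, ← hxd, hC1, ← mul_assoc, mul_comm (x ^ _), ← mul_assoc,
          zpol_inv x hx s _ (by omega)]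
      · rw [map_zero]
        ring
    · have hRφ : ∀ u : S0, φ (Rd u v) = x ^ d * (R u v).eval₂ (φ.comp C) x⁻¹ := by
        intro u
        have h1 : (R u v).natDegree < d + 1 := by
          have := hR u.1 u.2 v.1 v.2
          omega
        show φ (∑ k ∈ Finset.range (d + 1), C ((R u v).coeff k) * X ^ (d - k)) = _
        rw [eval₂_eq_sum_range' _ h1, map_sum, Finset.mul_sum]
        refine Finset.sum_congr rfl fun k hk => ?_
        rw [Finset.mem_range] at hk
        rw [map_mul, map_pow, ← hxd, zpol_inv2 x hx d k (by omega), RingHom.comp_apply]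
        ring
      have hHφ : φ (H v.1) = x ^ d * (φ ((b v).comp (X - 1)) -
          ∑ u : S0, φ ((a u).comp (X - 1)) * (R u v).eval₂ (φ.comp C) x⁻¹) := by
        have e : H v.1 = X ^ d * (b v).comp (X - 1) - ∑ u : S0, (a u).comp (X - 1) * Rd u v :=
          dif_pos v.2
        rw [e, map_sub, map_mul, map_pow, ← hxd, map_sum, mul_sub, Finset.mul_sum]
        congr 1
        refine Finset.sum_congr rfl fun u _ => ?_
        rw [map_mul, hRφ]
        ring
      have key : Matrix.vecMul (fun v' => φ (B v')) (Tm x S1) v = x ^ (w + 1) * φ (H v.1) := by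
        rcases hv : v.1 with _ | ⟨l, v'⟩
        · rw [Tm_vecMul_nil x S1 _ v hv]
          show φ (X ^ (w + 1 - v.1.sum) * zpolP H v.1) = _
          rw [hv, map_mul, map_pow, ← hxd]
          rfl
        · have hv' : v' ∈ S1 := hS1 l v' (hv ▸ v.2)
          rw [Tm_vecMul_cons x S1 _ v ⟨v', hv'⟩ l hv]
          show φ (X ^ (w + 1 - v.1.sum) * zpolP H v.1) +
            (-x⁻¹) ^ l * φ (X ^ (w + 1 - v'.sum) * zpolP H v') = _
          have h1 := hw1 v.1 v.2
          rw [hv] at h1 ⊢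
          rw [List.sum_cons] at h1 ⊢
          have e : zpolP H (l :: v') = X ^ (l + v'.sum) * H (l :: v') - C ((-1) ^ l) * zpolP H v' :=
            rfl
          have hφX : ∀ n : ℕ, φ (X ^ n) = x ^ n := fun n => by rw [map_pow, ← hxd]
          rw [e, map_mul, map_sub, map_mul, map_mul, map_mul, hC1, hφX, hφX, hφX]
          have e1 : x ^ (w + 1) = x ^ (w + 1 - (l + v'.sum)) * x ^ (l + v'.sum) := by
            rw [← pow_add]
            congr 1
            omega
          have e2 : (-x⁻¹) ^ l * x ^ (w + 1 - v'.sum) =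
              (-1) ^ l * x ^ (w + 1 - (l + v'.sum)) := by
            have e3 : w + 1 - (l + v'.sum) = (w + 1 - v'.sum) - l := by omega
            rw [e3, zpol_inv x hx _ l (by omega), mul_comm]
          rw [← mul_assoc ((-x⁻¹) ^ l), e2, e1]
          ring
      rw [← hxd, key, hHφ, ← mul_assoc, ← pow_add]
      congr 2
      omega

end Pool.MZExp
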