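import Pool.Agent.Lib.MZExp.UUp
import Pool.Agent.Lib.MZExp.ZPol
import Pool.Agent.Lib.MZExp.ZNo

/-! MP_301213_nt, exponential growth of `dim Z_k`, PHASE 2, ZERO ESTIMATE, module `UShift`: the shift
`X ↦ X + 1` acts on the spaces `QU`. Copy of `ZShift`: the equation at `j + 1` gives the equation at `j`;
at the last point `j = M` the factor `X - M` helps. -/

open Polynomial

namespace Pool.MZExp

theorem noSolU : NoSol tau.symm xx := by
  intro κ A hκ h0 h
  have hκ' : ∀ m, tau ((-κ) m) = (-κ) m := by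
    intro m
    have h1 : tau (κ m) = κ m := by
      rw [← RingEquiv.eq_symm_apply]
      exact (hκ m).symm
    simp [h1]
  have h1 : tau.symm A - tau (tau.symm A) = (-κ).sum (fun m k => k * (-xx⁻¹) ^ m) := by
    rw [RingEquiv.apply_symm_apply]
    have e : (-κ).sum (fun m k => k * (-xx⁻¹) ^ m) = -(κ.sum (fun m k => k * (-xx⁻¹) ^ m)) := by
      rw [Finsupp.sum_neg_index (by intro i; simp), Finsupp.sum, Finsupp.sum, ← Finset.sum_neg_distrib]
      refine Finset.sum_congr rfl fun i _ => ?_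
      ring
    rw [e, ← h]
    ring
  have h2 := noSol (-κ) (tau.symm A) hκ' (by simp [h0]) h1
  exact neg_eq_zero.1 h2

theorem tau_symm_algebraMap (p : ℚ[X]) :
    tau.symm (algebraMap ℚ[X] KK p) = algebraMap ℚ[X] KK (p.comp (X + 1)) := by
  rw [RingEquiv.symm_apply_eq, tau_algebraMap, comp_assoc]
  simp

theorem exists_shiftU (S0 S1 : Finset (List ℕ)) (hS1 : ∀ a l, a :: l ∈ S1 → l ∈ S1) (d : ℕ) :
    ∃ s : ℕ, ∀ (c : List ℕ → List ℕ → ℕ → ℚ) (R : List ℕ → List ℕ → ℚ[X]),
      (∀ u ∈ S0, ∀ v ∈ S1, (R u v).natDegree ≤ d) →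
      (∀ (j : ℕ) (u : S0) (v : S1), 1 ≤ j → c u v (j + 1) = (∑ u' : S0, ∑ v' : S1,
        Tm (j : ℚ) S0 u' u * Tm (j : ℚ) S1 v' v * c u' v' j) +
          (R u v).eval (j : ℚ)⁻¹) →
      ∀ M y z : ℕ, y ≤ z → ∀ p ∈ QU S0 S1 c M y z,
        ∃ q : (S0 → KK) × (S1 → KK),
          Rel tau.symm xx S0 S1 (fun u v => (R u v).eval₂ (algebraMap ℚ KK) xx⁻¹) p q ∧
          (algebraMap ℚ[X] KK (X ^ s * (X - C (M : ℚ)))) • q ∈
            QU S0 S1 c M (y + (s + 1)) (z + (s + 1)) := by
  classical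
  obtain ⟨w, hw⟩ : ∃ w, w = max (S0.sup List.headI) (S1.sup List.sum) := ⟨_, rfl⟩
  have hw0 : ∀ u ∈ S0, u.headI ≤ w := fun u hu => by
    rw [hw]
    exact (Finset.le_sup (f := List.headI) hu).trans (le_max_left _ _)
  have hw1 : ∀ v ∈ S1, v.sum ≤ w := fun v hv => by
    rw [hw]
    exact (Finset.le_sup (f := List.sum) hv).trans (le_max_right _ _)
  refine ⟨d + w + 1, fun c R hR hrec M y z hyz p hp => ?_⟩
  obtain ⟨a, b, ha, hb, hab, rfl⟩ := hp
  have hdeg : ∀ {n : ℕ} (p : ℚ[X]), p.natDegree ≤ n → (p.comp (X + C 2)).natDegree ≤ n := by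
    intro n p hp
    rw [natDegree_comp, natDegree_X_add_C, mul_one]
    exact hp
  have hcomp2 : ∀ p : ℚ[X], (p.comp (X + C 2)).comp (X - 1) = p.comp (X + 1) := by
    intro p
    rw [comp_assoc]
    congr 1
    rw [add_comp, X_comp, C_comp]
    have : (C 2 : ℚ[X]) = 1 + 1 := by
      rw [show (2 : ℚ) = 1 + 1 by norm_num, C_add, C_1]
    rw [this]
    ring
  obtain ⟨A, B, hA, hB, -, -, hφ⟩ := exists_polys S0 S1 hS1 d w hw0 hw1 R hR y z hyz
    (fun u => (a u).comp (X + C 2)) (fun v => (b v).comp (X + C 2)) (fun u => hdeg _ (ha u))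
    (fun v => hdeg _ (hb v))
  simp only [hcomp2] at hφ
  obtain ⟨s, hs⟩ : ∃ s, s = d + w + 1 := ⟨_, rfl⟩
  rw [← hs] at hA hB hφ ⊢
  have hxs : xx ^ s ≠ 0 := pow_ne_zero _ xx_ne_zero
  refine ⟨(fun u => (xx ^ s)⁻¹ * algebraMap ℚ[X] KK (A u),
    fun v => (xx ^ s)⁻¹ * algebraMap ℚ[X] KK (B v)), ⟨?_, ?_⟩, ?_⟩
  · have hk := (hφ KK (algebraMap ℚ[X] KK) xx_ne_zero).1
    funext u
    have h1 := hk u
    show (xx ^ s)⁻¹ * algebraMap ℚ[X] KK (A u) =
      (Tm xx S0).mulVec (fun u' => tau.symm (algebraMap ℚ[X] KK (a u'))) u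
    simp only [tau_symm_algebraMap]
    rw [h1]
    exact inv_mul_cancel_left₀ hxs _
  · have hk := (hφ KK (algebraMap ℚ[X] KK) xx_ne_zero).2
    intro v
    have h1 := hk v
    have hcomp : (algebraMap ℚ[X] KK).comp C = algebraMap ℚ KK := RingHom.ext_rat _ _
    rw [hcomp] at h1
    show Matrix.vecMul (fun v' => (xx ^ s)⁻¹ * algebraMap ℚ[X] KK (B v')) (Tm xx S1) v =
      tau.symm (algebraMap ℚ[X] KK (b v)) - ∑ u : S0, tau.symm (algebraMap ℚ[X] KK (a u)) *
        (R u v).eval₂ (algebraMap ℚ KK) xx⁻¹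
    have h2 : Matrix.vecMul (fun v' => (xx ^ s)⁻¹ * algebraMap ℚ[X] KK (B v')) (Tm xx S1) v =
        (xx ^ s)⁻¹ * Matrix.vecMul (fun v' => algebraMap ℚ[X] KK (B v')) (Tm xx S1) v := by
      simp only [Matrix.vecMul, dotProduct, mul_assoc, Finset.mul_sum]
    rw [h2]
    simp only [tau_symm_algebraMap]
    have h3 : Matrix.vecMul (fun v' => algebraMap ℚ[X] KK (B v')) (Tm xx S1) v =
        xx ^ s * (algebraMap ℚ[X] KK ((b v).comp (X + 1)) -
          ∑ u : S0, algebraMap ℚ[X] KK ((a u).comp (X + 1)) *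
            (R u v).eval₂ (algebraMap ℚ KK) xx⁻¹) := h1
    rw [h3]
    exact inv_mul_cancel_left₀ hxs _
  · have hdeg2 : ∀ {n : ℕ} (p : ℚ[X]), p.natDegree ≤ n + s →
        ((X - C (M : ℚ)) * p).natDegree ≤ n + (s + 1) := by
      intro n p hp
      refine natDegree_mul_le.trans ?_
      rw [natDegree_X_sub_C]
      omega
    refine ⟨fun u => (X - C (M : ℚ)) * A u, fun v => (X - C (M : ℚ)) * B v,
      fun u => hdeg2 _ (hA u), fun v => hdeg2 _ (hB v), ?_, ?_⟩
    · intro j hj1 hj v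
      simp only [eval_mul, mul_assoc, ← Finset.mul_sum]
      rcases Nat.lt_or_ge j M with hjM | hjM
      · congr 1
        have hx : (j : ℚ) ≠ 0 := by
          have : j ≠ 0 := by omega
          exact_mod_cast this
        have hne : (evalRingHom (j : ℚ)) X ≠ 0 := by
          rw [coe_evalRingHom, eval_X]
          exact hx
        have hAj := (hφ ℚ (evalRingHom (j : ℚ)) hne).1
        have hBj := (hφ ℚ (evalRingHom (j : ℚ)) hne).2
        have hcomp : (evalRingHom (j : ℚ)).comp C = RingHom.id ℚ := RingHom.ext_rat _ _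
        rw [hcomp] at hBj
        simp only [coe_evalRingHom, eval_X, eval_comp, eval_add, eval_one] at hAj hBj
        have h2 : (fun v : S1 => ∑ u : S0, (A u).eval (j : ℚ) * c u v j) =
            fun v : S1 => (B v).eval (j : ℚ) := by
          apply Matrix.vecMul_injective_of_isUnit (Tm_isUnit (j : ℚ) S1)
          funext v
          show Matrix.vecMul (fun v : S1 => ∑ u : S0, (A u).eval (j : ℚ) * c u v j)
            (Tm (j : ℚ) S1) v =
            Matrix.vecMul (fun v : S1 => (B v).eval (j : ℚ)) (Tm (j : ℚ) S1) v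
          rw [hBj v]
          have h3 : Matrix.vecMul (fun v : S1 => ∑ u : S0, (A u).eval (j : ℚ) *
              c u v j) (Tm (j : ℚ) S1) v =
              (j : ℚ) ^ s * ∑ u' : S0, (a u').eval ((j : ℚ) + 1) *
                ∑ u : S0, ∑ v' : S1, Tm (j : ℚ) S0 u u' * Tm (j : ℚ) S1 v' v *
                  c u v' j := by
            simp only [Matrix.vecMul, dotProduct, hAj, Matrix.mulVec, Finset.mul_sum,
              Finset.sum_mul]
            rw [Finset.sum_comm]
            have e1 : ∀ u : S0, ∑ v' : S1, ∑ u' : S0,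
                (j : ℚ) ^ s * (Tm (j : ℚ) S0 u u' * (a u').eval ((j : ℚ) + 1)) *
                  c u v' j * Tm (j : ℚ) S1 v' v =
                ∑ u' : S0, ∑ v' : S1,
                (j : ℚ) ^ s * (Tm (j : ℚ) S0 u u' * (a u').eval ((j : ℚ) + 1)) *
                  c u v' j * Tm (j : ℚ) S1 v' v := fun u => Finset.sum_comm
            rw [Finset.sum_congr rfl fun u _ => e1 u, Finset.sum_comm]
            refine Finset.sum_congr rfl fun u' _ => Finset.sum_congr rfl fun u _ =>
              Finset.sum_congr rfl fun v' _ => ?_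
            ring
          rw [h3]
          congr 1
          have h4 : ∀ u' : S0, ∑ u : S0, ∑ v' : S1, Tm (j : ℚ) S0 u u' *
              Tm (j : ℚ) S1 v' v * c u v' j =
              c u' v (j + 1) - (R u' v).eval (j : ℚ)⁻¹ := by
            intro u'
            rw [hrec j u' v hj1]
            ring
          have h5 := hab (j + 1) (by omega) (by omega) v
          push_cast at h5
          simp only [h4, mul_sub, Finset.sum_sub_distrib]
          rw [h5]
          rfl
        exact congrFun h2 v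
      · have hjM' : j = M := le_antisymm hj hjM
        rw [hjM']
        simp
    · refine Prod.ext ?_ ?_
      · funext u
        show algebraMap ℚ[X] KK (X ^ s * (X - C (M : ℚ))) *
          ((xx ^ s)⁻¹ * algebraMap ℚ[X] KK (A u)) = algebraMap ℚ[X] KK ((X - C (M : ℚ)) * A u)
        rw [map_mul, map_mul, map_pow]
        have : (algebraMap ℚ[X] KK X) ^ s * (xx ^ s)⁻¹ = 1 := mul_inv_cancel₀ hxs
        linear_combination (algebraMap ℚ[X] KK (X - C (M : ℚ)) * algebraMap ℚ[X] KK (A u)) * this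
      · funext v
        show algebraMap ℚ[X] KK (X ^ s * (X - C (M : ℚ))) *
          ((xx ^ s)⁻¹ * algebraMap ℚ[X] KK (B v)) = algebraMap ℚ[X] KK ((X - C (M : ℚ)) * B v)
        rw [map_mul, map_mul, map_pow]
        have : (algebraMap ℚ[X] KK X) ^ s * (xx ^ s)⁻¹ = 1 := mul_inv_cancel₀ hxs
        linear_combination (algebraMap ℚ[X] KK (X - C (M : ℚ)) * algebraMap ℚ[X] KK (B v)) * this

end Pool.MZExp
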