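import Mathlib

/-! MP_301213_nt, exponential growth of `dim Z_k`, ZERO ESTIMATE, module `ZGrow` (60 lines).

ONLY MATHLIB (pigeonhole for increasing subspaces).
PROOF. If `s = 0` take `i = 0`. Otherwise suppose not; then `J (k*s) < J ((k+1)*s)` for all `k ≤ R`
(`J` is monotone: `monotone_nat_of_le_succ`; put `i = k*s`, `i + s = (k+1)*s ≤ (R+1)*s ≤ n`), so
`k ≤ finrank (J (k*s))` for `k ≤ R+1` by induction (`Submodule.finrank_lt_finrank_of_lt`), and
`finrank (J ((R+1)*s)) ≥ R+1 > R`, contradiction to `hR`. -/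

namespace Pool.MZExp

theorem exists_stable {K V : Type*} [Field K] [AddCommGroup V] [Module K V]
    [FiniteDimensional K V] (J : ℕ → Submodule K V) (hmono : ∀ i, J i ≤ J (i + 1)) (s R n : ℕ)
    (hR : ∀ i ≤ n, Module.finrank K (J i) ≤ R) (hn : s * (R + 1) ≤ n) :
    ∃ i, i + s ≤ n ∧ J (i + s) = J i := by
  have hm : Monotone J := monotone_nat_of_le_succ hmono
  by_contra hcon
  push Not at hcon
  have hle : ∀ k, k ≤ R + 1 → k * s ≤ n := by
    intro k hk
    calc k * s ≤ (R + 1) * s := Nat.mul_le_mul_right s hk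
      _ = s * (R + 1) := Nat.mul_comm _ _
      _ ≤ n := hn
  have key : ∀ k, k ≤ R + 1 → k ≤ Module.finrank K (J (k * s)) := by
    intro k
    induction k with
    | zero => exact fun _ => Nat.zero_le _
    | succ k ih =>
      intro hk
      have h1 := ih (by omega)
      have h2 : k * s + s ≤ n := by
        have := hle (k + 1) hk
        rwa [Nat.succ_mul] at this
      have h3 := hcon (k * s) h2
      have h4 : J (k * s) < J (k * s + s) := lt_of_le_of_ne (hm (Nat.le_add_right _ _)) (Ne.symm h3)
      have h5 := Submodule.finrank_lt_finrank_of_lt h4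
      rw [Nat.succ_mul]
      omega
  have h1 := key (R + 1) le_rfl
  have h2 := hR _ (hle (R + 1) le_rfl)
  omega

end Pool.MZExp
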