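import Pool.Agent.Lib.MZExp.ZUni

/-! MP_301213_nt, exponential growth of `dim Z_k`, ZERO ESTIMATE, module `ZLem` (240 lines): LEMMA Z.

PROOF. Suppose `finrank K J < S1.card`.
(Z1) `A = J.map (LinearMap.fst ..)`, `A ≠ ⊥` by `hne`. `hst` says: for `f = p.1 ∈ A` there is
`q ∈ J` with `q.1 = Tm *ᵥ (τ ∘ f) ∈ A`. `uni_min` gives `e ∈ A`, `e = (1 at [], 0 elsewhere)`:
there is `p0 ∈ J` with `p0.1 = e`.
(Z2) `B = {b | (0, b) ∈ J}` (`J.comap (LinearMap.inr ..)`), `finrank B ≤ finrank J < S1.card`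
(`LinearMap.finrank_le_finrank_of_injective`). For `b ∈ B` there is `b' ∈ B` with
`vecMul b' (Tm x S1) = τ ∘ b` (`hst` for `(0, b)`: `q.1 = Tm *ᵥ 0 = 0`, `τ 0 = 0`).
`Bp = {μ : S1 → K | ∀ b ∈ B, ∑ v, μ v * b v = 0}` is a submodule, `Bp ≠ ⊥` because
`finrank B < card` (e.g. `Submodule.exists_le_ker_of_lt_top` or `Submodule.exists_dual_map_eq_bot..`:
a proper subspace is in the kernel of a nonzero functional `φ`, `μ v = φ (Pi.single v 1)`).
Stability: `μ ∈ Bp`. `Tm x S1` is a unit (`Tm_isUnit`), so there is `ν` with `Tm *ᵥ ν = μ`. For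
`b ∈ B` take `b'`: `0 = ∑ μ v * b' v = ∑ (Tm *ᵥ ν) v * b' v = ∑ ν u * (vecMul b' Tm) u
= ∑ ν u * τ (b u)` (`Matrix.dotProduct_mulVec`). Apply `τ.symm`: `∑ τ.symm (ν u) * b u = 0`. So
`g = τ.symm ∘ ν ∈ Bp` and `Tm *ᵥ (τ ∘ g) = Tm *ᵥ ν = μ`: second alternative of `uni_min`. Hence
`e' = (1 at [], 0 elsewhere) ∈ Bp`, i.e. `b [] = 0` for all `b ∈ B`.
(Z3) Take `q ∈ J` for `p0`: `q.1 = Tm *ᵥ (τ ∘ e) = Tm *ᵥ e = e` (`Tm_mulVec`: the extra term at
`u` involves `e w` with `w = a :: u ≠ []`, zero). So `(0, q.2 - p0.2) = q - p0 ∈ J`,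
`q.2 - p0.2 ∈ B`, `q.2 [] = p0.2 []`. The second part of `Rel` at `v = []` (`Tm_vecMul_nil`):
`q.2 [] = τ (p0.2 []) - ∑ u, τ (e u) * Rx u [] = τ (p0.2 []) - x⁻¹` (only `u = []`). So with
`b = p0.2 []`: `b - τ b = -x⁻¹ = 1 * (-x⁻¹)^1`; `hNo (Finsupp.single 1 1) b` gives
`Finsupp.single 1 1 = 0`, contradiction. -/

open Polynomial

namespace Pool.MZExp

private theorem zl_Bp_ne {K : Type*} [Field K] (S1 : Finset (List ℕ))
    (B : Submodule K (S1 → K)) (hB : Module.finrank K B < S1.card) :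
    ∃ μ : S1 → K, μ ≠ 0 ∧ ∀ b ∈ B, ∑ v, μ v * b v = 0 := by
  classical
  have hlt : B < ⊤ := by
    rw [lt_top_iff_ne_top]
    intro h
    rw [h, finrank_top, Module.finrank_fintype_fun_eq_card, Fintype.card_coe] at hB
    exact lt_irrefl _ hB
  obtain ⟨φ, hφ, hle⟩ := Submodule.exists_le_ker_of_lt_top B hlt
  have hsum : ∀ b : S1 → K, φ b = ∑ v, φ (fun j => if v = j then 1 else 0) * b v := by
    intro b
    rw [LinearMap.pi_apply_eq_sum_univ φ b]
    apply Finset.sum_congr rfl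
    intro v _
    rw [smul_eq_mul, mul_comm]
  refine ⟨fun v => φ (fun j => if v = j then 1 else 0), ?_, ?_⟩
  · intro h
    apply hφ
    apply LinearMap.ext
    intro b
    rw [hsum b, LinearMap.zero_apply]
    apply Finset.sum_eq_zero
    intro v _
    have h1 : φ (fun j => if v = j then 1 else 0) = 0 := congrFun h v
    rw [h1, zero_mul]
  · intro b hb
    have h1 : φ b = 0 := hle hb
    exact (hsum b).symm.trans h1

private def zlBp {K : Type*} [Field K] {S1 : Finset (List ℕ)} (B : Submodule K (S1 → K)) :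
    Submodule K (S1 → K) where
  carrier := {μ | ∀ b ∈ B, ∑ v, μ v * b v = 0}
  add_mem' := by
    intro μ ν hμ hν b hb
    have h : ∑ v, (μ + ν) v * b v = ∑ v, μ v * b v + ∑ v, ν v * b v := by
      rw [← Finset.sum_add_distrib]
      apply Finset.sum_congr rfl
      intro v _
      rw [Pi.add_apply, add_mul]
    rw [h, hμ b hb, hν b hb, add_zero]
  zero_mem' := by
    intro b _
    apply Finset.sum_eq_zero
    intro v _
    rw [Pi.zero_apply, zero_mul]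
  smul_mem' := by
    intro k μ hμ b hb
    have h : ∑ v, (k • μ) v * b v = k * ∑ v, μ v * b v := by
      rw [Finset.mul_sum]
      apply Finset.sum_congr rfl
      intro v _
      rw [Pi.smul_apply, smul_eq_mul, mul_assoc]
    rw [h, hμ b hb, mul_zero]

private theorem zl_stab {K : Type*} [Field K] (τ : K ≃+* K) (x : K) (S1 : Finset (List ℕ))
    (B : Submodule K (S1 → K))
    (hB : ∀ b ∈ B, ∃ b' ∈ B, ∀ v : S1, Matrix.vecMul b' (Tm x S1) v = τ (b v))
    (μ : S1 → K) (hμ : μ ∈ zlBp B) :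
    ∃ g ∈ zlBp B, (Tm x S1).mulVec (fun u => τ (g u)) = μ := by
  obtain ⟨U, hU⟩ := Tm_isUnit x S1
  obtain ⟨ν, hν⟩ : ∃ ν : S1 → K, (Tm x S1).mulVec ν = μ := by
    refine ⟨(U⁻¹).val.mulVec μ, ?_⟩
    rw [← hU, Matrix.mulVec_mulVec, Units.mul_inv, Matrix.one_mulVec]
  refine ⟨fun v => τ.symm (ν v), ?_, ?_⟩
  · intro b hb
    obtain ⟨b', hb', hv⟩ := hB b hb
    have h1 : ∑ v, μ v * b' v = 0 := hμ b' hb'
    have h2 : b' ⬝ᵥ (Tm x S1).mulVec ν = 0 := by
      rw [hν, dotProduct_comm]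
      exact h1
    rw [Matrix.dotProduct_mulVec] at h2
    have h3 : ∑ v, τ (b v) * ν v = 0 := by
      rw [← h2]
      apply Finset.sum_congr rfl
      intro v _
      rw [hv v]
    have h4 := congrArg τ.symm h3
    rw [map_sum, map_zero] at h4
    rw [← h4]
    apply Finset.sum_congr rfl
    intro v _
    rw [map_mul, RingEquiv.symm_apply_apply, mul_comm]
  · rw [← hν]
    congr 1
    funext u
    exact RingEquiv.apply_symm_apply τ (ν u)

private theorem zl_nil {K : Type*} [Field K] (S1 : Finset (List ℕ)) (h1 : [] ∈ S1)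
    (e : S1 → K) (he : ∀ u : S1, e u = if u.1 = [] then 1 else 0) (b : S1 → K) :
    ∑ v, e v * b v = b ⟨[], h1⟩ := by
  rw [Finset.sum_eq_single (⟨[], h1⟩ : S1)]
  · rw [he, if_pos rfl, one_mul]
  · intro v _ hv
    rw [he, if_neg (fun h => hv (Subtype.ext h)), zero_mul]
  · intro h
    exact absurd (Finset.mem_univ _) h

private theorem zl_fix {K : Type*} [Field K] (τ : K ≃+* K) (x : K) (S0 : Finset (List ℕ))
    (e : S0 → K) (he : ∀ u : S0, e u = if u.1 = [] then 1 else 0) :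
    (Tm x S0).mulVec (fun u => τ (e u)) = e := by
  funext u
  rw [Tm_mulVec]
  have h1 : ∑ w : S0, (if w.1 = w.1.headI :: u.1 then (-x⁻¹) ^ w.1.headI else 0) * τ (e w) = 0 := by
    apply Finset.sum_eq_zero
    intro w _
    by_cases hw : w.1 = []
    · have h2 : ¬ (w.1 = w.1.headI :: u.1) := by
        rw [hw]
        exact (List.cons_ne_nil _ _).symm
      rw [if_neg h2, zero_mul]
    · rw [he w, if_neg hw, map_zero, mul_zero]
  rw [h1, add_zero, he u]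
  split_ifs
  · exact map_one τ
  · exact map_zero τ

theorem lemZ {K : Type*} [Field K] (τ : K ≃+* K) (x : K) (hNo : NoSol τ x)
    (S0 S1 : Finset (List ℕ)) (hS0 : ∀ a l, a :: l ∈ S0 → l ∈ S0)
    (hS1 : ∀ a l, a :: l ∈ S1 → l ∈ S1) (hp0 : ∀ l ∈ S0, ∀ a ∈ l, 1 ≤ a)
    (hp1 : ∀ l ∈ S1, ∀ a ∈ l, 1 ≤ a) (h0 : [] ∈ S0) (h1 : [] ∈ S1)
    (Rx : List ℕ → List ℕ → K) (hR : Rx [] [] = x⁻¹)
    (J : Submodule K ((S0 → K) × (S1 → K)))
    (hst : ∀ p ∈ J, ∃ q ∈ J, Rel τ x S0 S1 Rx p q) (hne : ∃ p ∈ J, p.1 ≠ 0) :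
    S1.card ≤ Module.finrank K J := by
  classical
  by_contra hlt
  rw [not_le] at hlt
  -- (Z1)
  have hA : J.map (LinearMap.fst K (S0 → K) (S1 → K)) ≠ ⊥ := by
    obtain ⟨p, hp, hp1'⟩ := hne
    intro h
    apply hp1'
    have h2 : p.1 ∈ J.map (LinearMap.fst K (S0 → K) (S1 → K)) := ⟨p, hp, rfl⟩
    rw [h, Submodule.mem_bot] at h2
    exact h2
  obtain ⟨e, heA, he⟩ := uni_min τ x hNo S0 hS0 hp0 _ hA (by
    rintro f ⟨p, hp, rfl⟩
    obtain ⟨q, hq, hrel⟩ := hst p hp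
    exact ⟨q.1, ⟨q, hq, rfl⟩, Or.inl hrel.1⟩)
  obtain ⟨p0, hp0J, hp0e⟩ := heA
  have hp0e' : p0.1 = e := hp0e
  -- (Z2)
  obtain ⟨B, hBdef⟩ : ∃ B : Submodule K (S1 → K), B = J.comap (LinearMap.inr K (S0 → K) (S1 → K)) :=
    ⟨_, rfl⟩
  have hBmem : ∀ b : S1 → K, b ∈ B ↔ ((0 : S0 → K), b) ∈ J := by
    intro b
    rw [hBdef, Submodule.mem_comap]
    exact Iff.rfl
  have hBfin : Module.finrank K B < S1.card := by
    refine lt_of_le_of_lt ?_ hlt
    have hf : ∀ b ∈ B, (LinearMap.inr K (S0 → K) (S1 → K)) b ∈ J := fun b hb => (hBmem b).1 hb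
    refine LinearMap.finrank_le_finrank_of_injective
      (f := (LinearMap.inr K (S0 → K) (S1 → K)).restrict hf) ?_
    intro b b' hbb
    apply Subtype.ext
    have h2 := congrArg (fun y : J => y.1.2) hbb
    exact h2
  have hBst : ∀ b ∈ B, ∃ b' ∈ B, ∀ v : S1, Matrix.vecMul b' (Tm x S1) v = τ (b v) := by
    intro b hb
    obtain ⟨q, hq, hrel1, hrel2⟩ := hst _ ((hBmem b).1 hb)
    have hq1 : q.1 = 0 := by
      rw [hrel1]
      have h2 : (fun u => τ (((0 : S0 → K), b).1 u)) = (0 : S0 → K) := by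
        funext u
        exact map_zero τ
      rw [h2, Matrix.mulVec_zero]
    refine ⟨q.2, ?_, ?_⟩
    · rw [hBmem, ← hq1]
      exact hq
    · intro v
      rw [hrel2 v]
      have h2 : ∑ u : S0, τ (((0 : S0 → K), b).1 u) * Rx u v = 0 := by
        apply Finset.sum_eq_zero
        intro u _
        have h3 : τ (((0 : S0 → K), b).1 u) = 0 := map_zero τ
        rw [h3, zero_mul]
      rw [h2, sub_zero]
  have hBp : zlBp B ≠ ⊥ := by
    obtain ⟨μ, hμ, hμB⟩ := zl_Bp_ne S1 B hBfin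
    intro h
    apply hμ
    have h2 : μ ∈ zlBp B := hμB
    rw [h, Submodule.mem_bot] at h2
    exact h2
  obtain ⟨e', he'B, he'⟩ := uni_min τ x hNo S1 hS1 hp1 (zlBp B) hBp (by
    intro μ hμ
    obtain ⟨g, hg, hgm⟩ := zl_stab τ x S1 B hBst μ hμ
    exact ⟨g, hg, Or.inr hgm⟩)
  have hBnil : ∀ b ∈ B, b ⟨[], h1⟩ = 0 := by
    intro b hb
    rw [← zl_nil S1 h1 e' he' b]
    exact he'B b hb
  -- (Z3)
  obtain ⟨q, hq, hrel1, hrel2⟩ := hst p0 hp0J
  have hq1 : q.1 = p0.1 := by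
    rw [hrel1, hp0e', zl_fix τ x S0 e he]
  have hdiff : q.2 - p0.2 ∈ B := by
    rw [hBmem]
    have h2 : q - p0 ∈ J := J.sub_mem hq hp0J
    have h3 : q - p0 = ((0 : S0 → K), q.2 - p0.2) := by
      apply Prod.ext
      · rw [Prod.fst_sub, hq1, sub_self]
      · rw [Prod.snd_sub]
    rw [← h3]
    exact h2
  have h2 : q.2 ⟨[], h1⟩ = p0.2 ⟨[], h1⟩ := by
    have h3 := hBnil _ hdiff
    rw [Pi.sub_apply] at h3
    exact sub_eq_zero.1 h3
  have h3 := hrel2 ⟨[], h1⟩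
  rw [Tm_vecMul_nil x S1 q.2 ⟨[], h1⟩ rfl, h2] at h3
  have h4 : ∑ u : S0, τ (p0.1 u) * Rx u (⟨[], h1⟩ : S1) = x⁻¹ := by
    rw [Finset.sum_eq_single (⟨[], h0⟩ : S0)]
    · rw [hp0e', he, if_pos rfl, map_one, one_mul]
      exact hR
    · intro v _ hv
      rw [hp0e', he, if_neg (fun h => hv (Subtype.ext h)), map_zero, zero_mul]
    · intro h
      exact absurd (Finset.mem_univ _) h
  rw [h4] at h3
  have h5 : p0.2 ⟨[], h1⟩ - τ (p0.2 ⟨[], h1⟩) = (Finsupp.single 1 (1 : K)).sum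
      (fun m k => k * (-x⁻¹) ^ m) := by
    rw [Finsupp.sum_single_index (by rw [zero_mul]), one_mul, pow_one]
    nth_rewrite 1 [h3]
    ring
  have h6 := hNo (Finsupp.single 1 1) (p0.2 ⟨[], h1⟩) (by
    intro m
    rw [Finsupp.single_apply]
    split_ifs
    · exact map_one τ
    · exact map_zero τ) (by
    rw [Finsupp.single_apply, if_neg (by norm_num)]) h5
  have h7 := DFunLike.congr_fun h6 1
  rw [Finsupp.single_eq_same, Finsupp.zero_apply] at h7
  exact one_ne_zero h7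

end Pool.MZExp
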