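import Pool.Agent.Lib.MZExp.ZNo
import Pool.Agent.Lib.MZExp.ZLem
import Pool.Agent.Lib.MZExp.ZGrow
import Pool.Agent.Lib.MZExp.UCnt
import Pool.Agent.Lib.MZExp.UShift

/-! MP_301213_nt, exponential growth of `dim Z_k`, PHASE 2, module `UAlg`: the ZERO ESTIMATE for
polynomial vectors in the version for tails. Copy of `ZAlg` for the shift `X ↦ X + 1`. -/

open Polynomial

namespace Pool.MZExp

private lemma rel_zero {K : Type*} [Field K] (τ : K ≃+* K) (x : K) (S0 S1 : Finset (List ℕ))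
    (Rx : List ℕ → List ℕ → K) : Rel τ x S0 S1 Rx 0 0 := by
  refine ⟨?_, fun v => ?_⟩
  · ext u
    simp [Matrix.mulVec, dotProduct]
  · simp [Matrix.vecMul, dotProduct]

private lemma rel_add {K : Type*} [Field K] (τ : K ≃+* K) (x : K) (S0 S1 : Finset (List ℕ))
    (Rx : List ℕ → List ℕ → K) {p q p' q' : (S0 → K) × (S1 → K)}
    (h : Rel τ x S0 S1 Rx p q) (h' : Rel τ x S0 S1 Rx p' q') :
    Rel τ x S0 S1 Rx (p + p') (q + q') := by
  obtain ⟨h1, h2⟩ := h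
  obtain ⟨h1', h2'⟩ := h'
  refine ⟨?_, fun v => ?_⟩
  · have e : (fun u => τ ((p + p').1 u)) = (fun u => τ (p.1 u)) + (fun u => τ (p'.1 u)) := by
      ext u
      simp
    rw [e, Matrix.mulVec_add, ← h1, ← h1']
    rfl
  · have e : Matrix.vecMul (q + q').2 (Tm x S1) v
        = Matrix.vecMul q.2 (Tm x S1) v + Matrix.vecMul q'.2 (Tm x S1) v := by
      have e2 : (q + q').2 = q.2 + q'.2 := rfl
      rw [e2, Matrix.add_vecMul]
      rfl
    rw [e, h2 v, h2' v]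
    have e3 : ∑ u : S0, τ ((p + p').1 u) * Rx u v
        = ∑ u : S0, τ (p.1 u) * Rx u v + ∑ u : S0, τ (p'.1 u) * Rx u v := by
      rw [← Finset.sum_add_distrib]
      refine Finset.sum_congr rfl fun u _ => ?_
      have : (p + p').1 u = p.1 u + p'.1 u := rfl
      rw [this, map_add, add_mul]
    rw [e3]
    have e4 : (p + p').2 v = p.2 v + p'.2 v := rfl
    rw [e4, map_add]
    ring

private lemma rel_smul {K : Type*} [Field K] (τ : K ≃+* K) (x : K) (S0 S1 : Finset (List ℕ))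
    (Rx : List ℕ → List ℕ → K) (k : K) {p q : (S0 → K) × (S1 → K)}
    (h : Rel τ x S0 S1 Rx p q) : Rel τ x S0 S1 Rx (k • p) (τ k • q) := by
  obtain ⟨h1, h2⟩ := h
  refine ⟨?_, fun v => ?_⟩
  · have e : (fun u => τ ((k • p).1 u)) = τ k • (fun u => τ (p.1 u)) := by
      ext u
      have : (k • p).1 u = k * p.1 u := rfl
      rw [this, map_mul]
      rfl
    rw [e, Matrix.mulVec_smul, ← h1]
    rfl
  · have e : Matrix.vecMul (τ k • q).2 (Tm x S1) v
        = τ k * Matrix.vecMul q.2 (Tm x S1) v := by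
      have e2 : (τ k • q).2 = τ k • q.2 := rfl
      rw [e2, Matrix.smul_vecMul]
      rfl
    rw [e, h2 v]
    have e3 : ∑ u : S0, τ ((k • p).1 u) * Rx u v = τ k * ∑ u : S0, τ (p.1 u) * Rx u v := by
      rw [Finset.mul_sum]
      refine Finset.sum_congr rfl fun u _ => ?_
      have : (k • p).1 u = k * p.1 u := rfl
      rw [this, map_mul, mul_assoc]
    rw [e3]
    have e4 : (k • p).2 v = k * p.2 v := rfl
    rw [e4, map_mul]
    ring

private lemma fin_arithU (N i r cd : ℕ) (hi : i ≤ N / 8) (hN : 12 * cd + 40 ≤ N)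
    (h : (3 * N / 8) * r ≤ (N + i + 3 * N / 8 + 1) * cd) : r ≤ 4 * cd := by
  by_contra hr
  push Not at hr
  have a1 : 3 * N ≤ 8 * (3 * N / 8) + 7 := by omega
  have a2 : 8 * (N + i + 3 * N / 8 + 1) ≤ 12 * N + 8 := by omega
  have a3 : (8 * (3 * N / 8)) * (4 * cd + 1) ≤ (12 * N + 8) * cd := by
    calc (8 * (3 * N / 8)) * (4 * cd + 1) ≤ (8 * (3 * N / 8)) * r := Nat.mul_le_mul_left _ hr
      _ = 8 * ((3 * N / 8) * r) := by ring
      _ ≤ 8 * ((N + i + 3 * N / 8 + 1) * cd) := Nat.mul_le_mul_left _ h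
      _ = (8 * (N + i + 3 * N / 8 + 1)) * cd := by ring
      _ ≤ (12 * N + 8) * cd := Nat.mul_le_mul_right _ a2
  nlinarith

theorem zero_algU (S0 S1 : Finset (List ℕ)) (hS0 : ∀ a l, a :: l ∈ S0 → l ∈ S0)
    (hS1 : ∀ a l, a :: l ∈ S1 → l ∈ S1) (hp0 : ∀ l ∈ S0, ∀ a ∈ l, 1 ≤ a)
    (hp1 : ∀ l ∈ S1, ∀ a ∈ l, 1 ≤ a) (h0 : [] ∈ S0) (h1 : [] ∈ S1) (d : ℕ)
    (hcard : 4 * S0.card < S1.card) :
    ∃ N0 : ℕ, ∀ N : ℕ, N0 ≤ N → ∀ (c : List ℕ → List ℕ → ℕ → ℚ) (R : List ℕ → List ℕ → ℚ[X]),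
      (∀ u ∈ S0, ∀ v ∈ S1, (R u v).natDegree ≤ d) → R [] [] = X →
      (∀ (j : ℕ) (u : S0) (v : S1), 1 ≤ j → c u v (j + 1) = (∑ u' : S0, ∑ v' : S1,
        Tm (j : ℚ) S0 u' u * Tm (j : ℚ) S1 v' v * c u' v' j) +
          (R u v).eval (j : ℚ)⁻¹) →
      ∀ a : S0 → ℚ[X], a ≠ 0 → (∀ u, (a u).natDegree ≤ N + 1) →
      (∀ v : S1, ∃ b : ℚ[X], b.natDegree ≤ 2 * N - N / 2 ∧
        ∀ j : ℕ, 1 ≤ j → j ≤ 2 * N → ∑ u : S0, (a u).eval (j : ℚ) * c u v j = b.eval (j : ℚ)) →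
      False := by
  classical
  obtain ⟨s, hs⟩ := exists_shiftU S0 S1 hS1 d
  refine ⟨8 * ((s + 1) * (4 * S0.card + 1)) + 12 * S0.card + 40, ?_⟩
  intro N hN c R hRd hR0 hrec a ha haN hab
  choose b hb1 hb2 using hab
  set z0 : ℕ := 2 * N - N / 2 with hz0
  let Q : ℕ → Submodule ℚ ((S0 → KK) × (S1 → KK)) := fun i =>
    QU S0 S1 c (2 * N) (N + 1 + i) (z0 + i)
  let J : ℕ → Submodule KK ((S0 → KK) × (S1 → KK)) := fun i => Submodule.span KK (Q i : Set _)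
  have hfin : ∀ i, i ≤ N / 8 → Module.finrank KK (J i) ≤ 4 * S0.card := by
    intro i hi
    have h1 := rank_countU (S0 := S0) (S1 := S1) (c := c) (M := 2 * N) (y := N + 1 + i)
      (z := z0 + i) (3 * N / 8 - 1)
    have h2 : Module.finrank ℚ (QU S0 S1 c (2 * N) (N + 1 + i + (3 * N / 8 - 1))
        (z0 + i + (3 * N / 8 - 1))) ≤ (N + 1 + i + (3 * N / 8 - 1) + 1) * S0.card :=
      QU_finrank_le (by omega)
    refine fin_arithU N i _ S0.card hi (by omega) ?_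
    have e1 : 3 * N / 8 - 1 + 1 = 3 * N / 8 := by omega
    have e2 : N + 1 + i + (3 * N / 8 - 1) + 1 = N + i + 3 * N / 8 + 1 := by omega
    rw [e1] at h1
    rw [e2] at h2
    exact h1.trans h2
  have hmono : ∀ i, J i ≤ J (i + 1) := by
    intro i
    exact Submodule.span_mono (QU_mono (by omega) (by omega))
  obtain ⟨i, hi1, hi2⟩ := exists_stable J hmono (s + 1) (4 * S0.card) (N / 8) hfin (by omega)
  have hiN : i ≤ N / 8 := by omega
  have hst : ∀ p ∈ J i, ∃ q ∈ J i, Rel tau.symm xx S0 S1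
      (fun u v => (R u v).eval₂ (algebraMap ℚ KK) xx⁻¹) p q := by
    intro p hp
    induction hp using Submodule.span_induction with
    | mem p hp =>
      obtain ⟨q, hq1, hq2⟩ := hs c R hRd hrec (2 * N) (N + 1 + i) (z0 + i) (by omega) p hp
      refine ⟨q, ?_, hq1⟩
      rw [← hi2]
      have hx : algebraMap ℚ[X] KK (X ^ s * (X - C ((2 * N : ℕ) : ℚ))) ≠ 0 := by
        refine (map_ne_zero_iff _ (IsFractionRing.injective ℚ[X] KK)).2 ?_
        exact mul_ne_zero (pow_ne_zero _ X_ne_zero) (X_sub_C_ne_zero _)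
      have e : q = (algebraMap ℚ[X] KK (X ^ s * (X - C ((2 * N : ℕ) : ℚ))))⁻¹ •
          (algebraMap ℚ[X] KK (X ^ s * (X - C ((2 * N : ℕ) : ℚ))) • q) := by
        rw [smul_smul, inv_mul_cancel₀ hx, one_smul]
      rw [e]
      refine Submodule.smul_mem _ _ (Submodule.subset_span ?_)
      have e1 : N + 1 + i + (s + 1) = N + 1 + (i + (s + 1)) := by ring
      have e2 : z0 + i + (s + 1) = z0 + (i + (s + 1)) := by ring
      rw [e1, e2] at hq2
      exact hq2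
    | zero => exact ⟨0, Submodule.zero_mem _, rel_zero _ _ _ _ _⟩
    | add p p' _ _ h h' =>
      obtain ⟨q, hq, hr⟩ := h
      obtain ⟨q', hq', hr'⟩ := h'
      exact ⟨q + q', Submodule.add_mem _ hq hq', rel_add _ _ _ _ _ hr hr'⟩
    | smul k p _ h =>
      obtain ⟨q, hq, hr⟩ := h
      exact ⟨tau.symm k • q, Submodule.smul_mem _ _ hq, rel_smul _ _ _ _ _ k hr⟩
  have hne : ∃ p ∈ J i, p.1 ≠ 0 := by
    refine ⟨(fun u => algebraMap ℚ[X] KK (a u), fun v => algebraMap ℚ[X] KK (b v)), ?_, ?_⟩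
    · refine Submodule.subset_span ?_
      have h0 : ((fun u => algebraMap ℚ[X] KK (a u), fun v => algebraMap ℚ[X] KK (b v)) :
          (S0 → KK) × (S1 → KK)) ∈ QU S0 S1 c (2 * N) (N + 1) z0 :=
        ⟨a, b, haN, hb1, fun j hj1 hj v => hb2 v j hj1 hj, rfl⟩
      exact QU_mono (by omega) (by omega) h0
    · intro h
      apply ha
      ext1 u
      have hu : algebraMap ℚ[X] KK (a u) = 0 := congrFun h u
      exact (map_eq_zero_iff _ (IsFractionRing.injective ℚ[X] KK)).1 hu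
  have hRx : (fun u v => (R u v).eval₂ (algebraMap ℚ KK) xx⁻¹) [] [] = xx⁻¹ := by
    show (R [] []).eval₂ (algebraMap ℚ KK) xx⁻¹ = xx⁻¹
    rw [hR0, eval₂_X]
  have hfinal := lemZ tau.symm xx noSolU S0 S1 hS0 hS1 hp0 hp1 h0 h1
    (fun u v => (R u v).eval₂ (algebraMap ℚ KK) xx⁻¹) hRx (J i) hst hne
  have := hfin i hiN
  omega

end Pool.MZExp
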