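import Mathlib

/-! MP_301213_nt, PHASE 2 (all admissible words, inverse factorial series): definitions of the
analytic part. Paper: team store `MP_301213_nt_note53.md`, `MP_301213_part1_helper65.md`.

* `ek k t = k! / (t (t+1) ... (t+k)) = 1 / (t * C(t+k,k))`, used for integers `t ≥ 1`.
* `Cone m F` : `F(t) = ∑_{s ≥ m} g_s e_s(t)` for all `t ≥ 1` with nonnegative coefficients.
* words: lists, the HEAD of the list is the exponent of the SMALLEST variable (the convention of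
  `HofPers.T`, `HofPers.TE`): `T (a :: l) M = ∑_{m > M} m^(-a) T l m`. `Adm1 l`: all letters `≥ 1`, the
  last letter (largest variable) `≥ 2`; the empty word is admissible. -/

open Finset

namespace Pool.MZExp

/-- `e_k(t) = k! / (t (t+1) ... (t+k))` -/
noncomputable def ek (k t : ℕ) : ℝ := (k.factorial : ℝ) / ∏ j ∈ range (k + 1), ((t : ℝ) + j)

/-- inverse factorial series with nonnegative coefficients which starts at `e_m` -/
def Cone (m : ℕ) (F : ℕ → ℝ) : Prop :=
  ∃ g : ℕ → ℝ, (∀ s, 0 ≤ g s) ∧ (∀ s, s < m → g s = 0) ∧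
    ∀ t, 1 ≤ t → HasSum (fun s => g s * ek s t) (F t)

/-- truncated expansions: coefficients `0 ≤ g i ≤ (i+1) C`, `g i = 0` for `i < k`, the rest after `V` terms
is at most `C (V+1) e_V(t)` (for `V = 0`: `|F t| ≤ C / t`) -/
def Expd (C : ℝ) (k : ℕ) (F : ℕ → ℝ) : Prop :=
  ∃ g : ℕ → ℝ, (∀ i, 0 ≤ g i) ∧ (∀ i, i < k → g i = 0) ∧ (∀ i, g i ≤ ((i : ℝ) + 1) * C) ∧
    ∀ t, 1 ≤ t → ∀ V, |F t - ∑ i ∈ range V, g i * ek i t| ≤ C * ((V : ℝ) + 1) * ek V t

/-- admissible words with letters `≥ 1`; the last letter belongs to the largest variable -/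
def Adm1 (l : List ℕ) : Prop := (∀ a ∈ l, 1 ≤ a) ∧ ∀ a ∈ l.getLast?, 2 ≤ a

end Pool.MZExp
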