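import Pool.Agent.Lib.MZExp.ZDefs
import Pool.Agent.Lib.MZExp.XDefs

/-! MP_301213_nt, exponential growth of `dim Z_k`, PHASE 2 (tails, letters `≥ 1`): definitions of the
zero estimate. The head of a word is the exponent of the SMALLEST variable,
`c_j(α,v) = ∑_{t ≥ 1} T α t T v t (1/(t+j) - 1/t)`. -/

open Polynomial

namespace Pool.MZExp

/-- tail closed sets of admissible words (letters at least `1`), containing the empty word -/
def TC1 (A : Finset (List ℕ)) : Prop :=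
  [] ∈ A ∧ (∀ l ∈ A, Adm1 l) ∧ ∀ a l, a :: l ∈ A → l ∈ A

/-- the shift recursion `c_(j+1)(u, v) = c_j(T u, T v) + R_{u,v}(1/j) - F_{u,v}/(j+1)`, `j ≥ 1`,
`T (a :: u) = a :: u + (-1/j)^a u` -/
def RecU (c : List ℕ → List ℕ → ℕ → ℚ) : Prop :=
  ∃ (R : List ℕ → List ℕ → ℚ[X]) (F : List ℕ → List ℕ → ℚ), R [] [] = 0 ∧ F [] [] = 1 ∧
    (∀ u v, (R u v).natDegree ≤ u.sum + v.sum + 1) ∧
    ∀ (j : ℕ) (u v : List ℕ), 1 ≤ j → Adm1 u → Adm1 v →
      c u v (j + 1) = tp (-(j : ℚ)⁻¹) (fun u' => tp (-(j : ℚ)⁻¹) (fun v' => c u' v' j) v) u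
        + (R u v).eval (j : ℚ)⁻¹ - F u v * ((j : ℚ) + 1)⁻¹

/-- the pairs `(a, b)` of vectors of polynomials of degrees `≤ y`, `≤ z` with
`∑ a_u(j) c_j(u, v) = b_v(j)` for `1 ≤ j ≤ M`, as a subspace of the vectors of rational functions -/
noncomputable def QU (S0 S1 : Finset (List ℕ)) (c : List ℕ → List ℕ → ℕ → ℚ) (M y z : ℕ) :
    Submodule ℚ ((S0 → KK) × (S1 → KK)) where
  carrier := {p | ∃ (a : S0 → ℚ[X]) (b : S1 → ℚ[X]), (∀ u, (a u).natDegree ≤ y) ∧
    (∀ v, (b v).natDegree ≤ z) ∧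
    (∀ j : ℕ, 1 ≤ j → j ≤ M → ∀ v : S1,
      ∑ u : S0, (a u).eval (j : ℚ) * c u v j = (b v).eval (j : ℚ)) ∧
    p = (fun u => algebraMap ℚ[X] KK (a u), fun v => algebraMap ℚ[X] KK (b v))}
  add_mem' := by
    rintro p q ⟨a, b, ha, hb, hc, rfl⟩ ⟨a', b', ha', hb', hc', rfl⟩
    refine ⟨a + a', b + b', fun u => ?_, fun v => ?_, fun j hj1 hj v => ?_, ?_⟩
    · exact (natDegree_add_le _ _).trans (max_le (ha u) (ha' u))
    · exact (natDegree_add_le _ _).trans (max_le (hb v) (hb' v))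
    · simp only [Pi.add_apply, eval_add, add_mul, Finset.sum_add_distrib, hc j hj1 hj v,
        hc' j hj1 hj v]
    · ext i <;> simp
  zero_mem' := by
    refine ⟨0, 0, fun u => ?_, fun v => ?_, fun j hj1 hj v => ?_, ?_⟩ <;> simp
    rfl
  smul_mem' := by
    rintro k p ⟨a, b, ha, hb, hc, rfl⟩
    refine ⟨k • a, k • b, fun u => ?_, fun v => ?_, fun j hj1 hj v => ?_, ?_⟩
    · exact (natDegree_smul_le k _).trans (ha u)
    · exact (natDegree_smul_le k _).trans (hb v)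
    · simp only [Pi.smul_apply, eval_smul, smul_eq_mul, mul_assoc, ← Finset.mul_sum,
        hc j hj1 hj v]
    · ext i
      · exact (map_rat_smul (algebraMap ℚ[X] KK) k (a i)).symm
      · exact (map_rat_smul (algebraMap ℚ[X] KK) k (b i)).symm

end Pool.MZExp
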