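import Pool.Agent.Lib.MZExp.XFRec
import Pool.Agent.Lib.MZExp.UDefs

/-! MP_301213_nt, exponential growth, PHASE 2: the numbers `φ (c_j(α,v))` satisfy `RecU`. -/

open HofPers Finset Pool.MZDim

namespace Pool.MZExp

theorem ct_recU (φ : ℝ →ₗ[ℚ] ℚ) (h : φ 1 = 1) : RecU (fun u v j => φ (ct u v j)) := by
  obtain ⟨R, h1, -, h3, h4⟩ := ct_rec φ
  refine ⟨R, fun u v => φ (T u 0 * T v 0), h1, ?_, fun u v => (h3 u v).trans (by omega),
    fun j u v hj hu hv => h4 j hj u v hu hv⟩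
  show φ (T [] 0 * T [] 0) = 1
  rw [T_nil, mul_one, h]

end Pool.MZExp
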