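import Pool.Agent.Lib.MZExp.ZDefs

/-! MP_301213_nt, exponential growth of `dim Z_k`, ZERO ESTIMATE, module `ZTau` (70 lines).

ONLY MATHLIB + ZDefs. The shift of rational functions on polynomials.
PROOF. `tau_algebraMap`: `IsFractionRing.ringEquivOfRingEquiv_algebraMap` (unfold `tau`), then
`algEquivAevalXAddC (-1) p = aeval (X + C (-1)) p = p.comp (X - 1)` (`algEquivAevalXAddC_apply`,
`Polynomial.comp`, `aeval_def`, `eval₂`; `C (-1) = -1`). `tau_xx`: `p = X`. `xx_ne_zero`: injectivity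
of `algebraMap` (`IsFractionRing.injective`). `xx_transc`: `q.eval₂ (algebraMap ℚ KK) xx =
algebraMap ℚ[X] KK q` because both sides are ring homomorphisms `ℚ[X] → KK` in `q` with the same
value at `X` and on constants (ring homomorphisms from `ℚ` are unique: `Subsingleton`,
`RingHom.ext_rat`; `Polynomial.ringHom_ext'`), nonzero for `q ≠ 0`. -/

open Polynomial

namespace Pool.MZExp

theorem tau_algebraMap (p : ℚ[X]) :
    tau (algebraMap ℚ[X] KK p) = algebraMap ℚ[X] KK (p.comp (X - 1)) := by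
  unfold tau
  rw [IsFractionRing.ringEquivOfRingEquiv_algebraMap]
  congr 1
  show algEquivAevalXAddC (-1 : ℚ) p = p.comp (X - 1)
  rw [algEquivAevalXAddC_apply]
  have h : (X + C (-1 : ℚ)) = X - 1 := by
    rw [C_neg, C_1, sub_eq_add_neg]
  rw [h]
  rfl

theorem tau_xx : tau xx = xx - 1 := by
  unfold xx
  rw [tau_algebraMap, X_comp, map_sub, map_one]

theorem xx_ne_zero : xx ≠ 0 := by
  unfold xx
  exact (map_ne_zero_iff _ (IsFractionRing.injective ℚ[X] KK)).mpr X_ne_zero

theorem eval₂_xx (q : ℚ[X]) : q.eval₂ (algebraMap ℚ KK) xx = algebraMap ℚ[X] KK q := by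
  have h : (eval₂RingHom (algebraMap ℚ KK) xx) = algebraMap ℚ[X] KK := by
    apply Polynomial.ringHom_ext'
    · exact RingHom.ext_rat _ _
    · simp [xx]
  exact congrArg (fun f : ℚ[X] →+* KK => f q) h

theorem xx_transc (q : ℚ[X]) (hq : q ≠ 0) : q.eval₂ (algebraMap ℚ KK) xx ≠ 0 := by
  rw [eval₂_xx]
  exact (map_ne_zero_iff _ (IsFractionRing.injective ℚ[X] KK)).mpr hq

end Pool.MZExp
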