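import Pool.Agent.Lib.MZExp.VDefs

/-! MP_301213_nt, EXPONENT 1/3, module `VRet` (60 lines, only Mathlib + the structure `Retr`).

PROOF. `k = {a | τ a = a}` is a subfield of `K` (`Subfield` with carrier `{a | τ a = a}`, the closure
properties by `map_add`, `map_mul`, `map_inv₀`, ...). `K` is a `k`-vector space, the inclusion `k → K`
(`Algebra.linearMap k K`, injective) has a left inverse `g : K →ₗ[k] k`
(`LinearMap.exists_leftInverse_of_injective`, kernel `⊥`). `ρ a = (g a : K)`: additive; for `κ ∈ k`:
`ρ (κ a) = κ ρ a` (`κ * a = (⟨κ, _⟩ : k) • a`, `Subfield.smul_def`, `map_smul`); `τ (ρ a) = ρ a` because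
`g a ∈ k`; `ρ 1 = 1` because `1 = Algebra.linearMap k K 1`. -/

namespace Pool.MZExp

theorem exists_retr {K : Type*} [Field K] (τ : K ≃+* K) : ∃ ρ : K → K, Retr τ ρ := by
  let k : Subfield K :=
    { carrier := {a | τ a = a}
      mul_mem' := fun {a b} ha hb => by
        show τ (a * b) = a * b
        rw [map_mul, show τ a = a from ha, show τ b = b from hb]
      one_mem' := map_one τ
      add_mem' := fun {a b} ha hb => by
        show τ (a + b) = a + b
        rw [map_add, show τ a = a from ha, show τ b = b from hb]
      zero_mem' := map_zero τ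
      neg_mem' := fun {a} ha => by
        show τ (-a) = -a
        rw [map_neg, show τ a = a from ha]
      inv_mem' := fun a ha => by
        show τ a⁻¹ = a⁻¹
        rw [map_inv₀, show τ a = a from ha] }
  have hker : LinearMap.ker (Algebra.linearMap k K) = ⊥ := by
    rw [LinearMap.ker_eq_bot]
    exact Subtype.val_injective
  obtain ⟨g, hg⟩ := (Algebra.linearMap k K).exists_leftInverse_of_injective hker
  refine ⟨fun a => (g a : K), ?_, ?_, ?_, ?_⟩
  · intro a b
    show ((g (a + b) : k) : K) = g a + g b
    rw [map_add]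
    rfl
  · intro c a hc
    show ((g (c * a) : k) : K) = c * g a
    have h1 : c * a = (⟨c, hc⟩ : k) • a := rfl
    rw [h1, map_smul]
    rfl
  · intro a
    exact (g a).2
  · show ((g 1 : k) : K) = 1
    have h1 : (Algebra.linearMap k K) 1 = 1 := map_one (algebraMap k K)
    have h2 := congrArg (fun f : k →ₗ[k] k => f 1) hg
    have h3 : g ((Algebra.linearMap k K) 1) = 1 := h2
    rw [h1] at h3
    rw [h3]
    rfl

end Pool.MZExp
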