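import Pool.Agent.Lib.MZExp.ZUnip

/-! MP_301213_nt, exponential growth of `dim Z_k`, ZERO ESTIMATE, module `ZUni` (200 lines).

MINIMAL ELEMENT ARGUMENT (only Mathlib, ZDefs, ZUnip). Write `G f = Tm x S *ᵥ (τ ∘ f)`.
PROOF. For `f ≠ 0` let `d f` be the maximal length of a word in the support of `f` and `n f` the
number of words of length `d f` in the support. Choose `f ∈ A`, `f ≠ 0`, with `d f` minimal and,
among those, `n f` minimal (e.g. minimise `d f * (S.card + 1) + n f`, `n f ≤ S.card`; `Nat.find` or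
`WellFounded.min`). Multiply by a scalar: `f w = 1` for some word `w` of length `d = d f`.
CLAIM `G f = f`. Note `(G f) u = τ (f u) + ∑_(w = a :: u) (-1/x)^a τ (f w)` (`Tm_mulVec`), so for
`length u ≥ d`: `(G f) u = τ (f u)`.
Case 1: `g = G f ∈ A`. `g - f ∈ A` vanishes on words of length `> d`, on words of length `d` where
`f` vanishes, and at `w` (`τ 1 - 1 = 0`). So if `g - f ≠ 0` then `d (g-f) < d`, or `d (g-f) = d` and
`n (g-f) < n f`: contradiction, `g = f`.
Case 2: `g ∈ A`, `G g = f`. If `g` had support of maximal length `d' > d`, then for `u` of length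
`d'` in the support `f u = (G g) u = τ (g u) ≠ 0`, impossible. So `g` vanishes on lengths `> d`, and
`f u = τ (g u)` for `length u = d`, so `g - f` is as in case 1 and `g = f`, `G f = f`.
So for `length u = d`: `τ (f u) = f u`. Suppose `d ≥ 1`: `w = a :: u0`, `u0 ∈ S` (`hS`), length
`d - 1`. The coordinate `u0` of `G f = f`: `f u0 - τ (f u0) = ∑_(w' = a' :: u0) (-1/x)^a' * f w'`
(`τ (f w') = f w'`). Let `κ : ℕ →₀ K`, `κ a' = f (a' :: u0)` if `a' :: u0 ∈ S` and `0` otherwise
(finite support: letters of words of `S` are bounded; e.g. `Finsupp.onFinset` or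
`∑ w' , Finsupp.single w'.headI (f w')` over the `w'` with `w' = headI w' :: u0`); `κ 0 = 0` since
letters are `≥ 1`; all values are invariant. `hNo` gives `κ = 0`, but `κ a = f w = 1`.
Contradiction, so `d = 0`: `f` is supported on `[]`, `f [] = 1`. -/

open Polynomial

namespace Pool.MZExp

open Classical in
private noncomputable def zuSupp {K : Type*} [Field K] {S : Finset (List ℕ)} (f : S → K) :
    Finset S := Finset.univ.filter (fun u : S => f u ≠ 0)

private noncomputable def zuD {K : Type*} [Field K] {S : Finset (List ℕ)} (f : S → K) : ℕ :=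
  (zuSupp f).sup (fun u => u.1.length)

open Classical in
private noncomputable def zuTop {K : Type*} [Field K] {S : Finset (List ℕ)} (f : S → K) :
    Finset S := (zuSupp f).filter (fun u : S => u.1.length = zuD f)

private noncomputable def zuMu {K : Type*} [Field K] {S : Finset (List ℕ)} (f : S → K) : ℕ :=
  zuD f * (S.card + 1) + (zuTop f).card

private theorem zu_mem {K : Type*} [Field K] {S : Finset (List ℕ)} (f : S → K) (u : S) :
    u ∈ zuSupp f ↔ f u ≠ 0 := by
  classical
  unfold zuSupp
  rw [Finset.mem_filter]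
  exact ⟨fun h => h.2, fun h => ⟨Finset.mem_univ _, h⟩⟩

private theorem zu_mem_top {K : Type*} [Field K] {S : Finset (List ℕ)} (f : S → K) (u : S) :
    u ∈ zuTop f ↔ f u ≠ 0 ∧ u.1.length = zuD f := by
  unfold zuTop
  rw [Finset.mem_filter, zu_mem]

private theorem zu_le {K : Type*} [Field K] {S : Finset (List ℕ)} (f : S → K) (u : S)
    (h : f u ≠ 0) : u.1.length ≤ zuD f :=
  Finset.le_sup (f := fun u : S => u.1.length) ((zu_mem f u).2 h)

private theorem zu_zero {K : Type*} [Field K] {S : Finset (List ℕ)} (f : S → K) (u : S)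
    (h : zuD f < u.1.length) : f u = 0 := by
  by_contra h1
  exact absurd (zu_le f u h1) (not_le.2 h)

private theorem zu_exists {K : Type*} [Field K] {S : Finset (List ℕ)} (f : S → K) (h : f ≠ 0) :
    ∃ w : S, f w ≠ 0 ∧ w.1.length = zuD f := by
  obtain ⟨v, hv⟩ : ∃ v, f v ≠ 0 := by
    by_contra h1
    push Not at h1
    exact h (funext h1)
  have hne : (zuSupp f).Nonempty := ⟨v, (zu_mem f v).2 hv⟩
  obtain ⟨w, hw, hw2⟩ := Finset.exists_mem_eq_sup (zuSupp f) hne (fun u : S => u.1.length)
  exact ⟨w, (zu_mem f w).1 hw, hw2.symm⟩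

private theorem zu_supp_smul {K : Type*} [Field K] {S : Finset (List ℕ)} (f : S → K) (c : K)
    (hc : c ≠ 0) : zuSupp (c • f) = zuSupp f := by
  ext u
  rw [zu_mem, zu_mem, Pi.smul_apply, smul_eq_mul]
  exact ⟨fun h => right_ne_zero_of_mul h, fun h => mul_ne_zero hc h⟩

private theorem zu_D_smul {K : Type*} [Field K] {S : Finset (List ℕ)} (f : S → K) (c : K)
    (hc : c ≠ 0) : zuD (c • f) = zuD f := by
  unfold zuD
  rw [zu_supp_smul f c hc]

private theorem zu_mu_smul {K : Type*} [Field K] {S : Finset (List ℕ)} (f : S → K) (c : K)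
    (hc : c ≠ 0) : zuMu (c • f) = zuMu f := by
  unfold zuMu zuTop
  rw [zu_supp_smul f c hc, zu_D_smul f c hc]

private theorem zu_lt {K : Type*} [Field K] {S : Finset (List ℕ)} (f h : S → K) (hh : h ≠ 0)
    (ha : ∀ u : S, zuD f < u.1.length → h u = 0)
    (hb : ∀ u : S, u.1.length = zuD f → f u = 0 → h u = 0)
    (hc : ∃ w : S, w.1.length = zuD f ∧ f w ≠ 0 ∧ h w = 0) : zuMu h < zuMu f := by
  have h1 : zuD h ≤ zuD f := by
    obtain ⟨w, hw, hw2⟩ := zu_exists h hh
    rw [← hw2]
    by_contra h2
    exact hw (ha w (not_le.1 h2))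
  have h3 : (zuTop h).card ≤ S.card := by
    have h4 := Finset.card_le_univ (zuTop h)
    rwa [Fintype.card_coe] at h4
  rcases lt_or_eq_of_le h1 with h2 | h2
  · have h5 : zuD h * (S.card + 1) + (S.card + 1) ≤ zuD f * (S.card + 1) := by
      have h6 : (zuD h + 1) * (S.card + 1) ≤ zuD f * (S.card + 1) :=
        Nat.mul_le_mul_right _ h2
      rwa [add_mul, one_mul] at h6
    unfold zuMu
    omega
  · have h5 : (zuTop h).card < (zuTop f).card := by
      apply Finset.card_lt_card
      rw [Finset.ssubset_iff_of_subset]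
      · obtain ⟨w, hw1, hw2, hw3⟩ := hc
        exact ⟨w, (zu_mem_top f w).2 ⟨hw2, hw1⟩, fun h6 => ((zu_mem_top h w).1 h6).1 hw3⟩
      · intro u hu
        rw [zu_mem_top] at hu ⊢
        refine ⟨fun h6 => hu.1 (hb u (hu.2.trans h2) h6), hu.2.trans h2⟩
    unfold zuMu
    rw [h2]
    omega

private theorem zu_high {K : Type*} [Field K] (τ : K ≃+* K) (x : K) {S : Finset (List ℕ)}
    (f : S → K) (d : ℕ) (hf : ∀ u : S, d < u.1.length → f u = 0) (u : S) (hu : d ≤ u.1.length) :
    (Tm x S).mulVec (fun u => τ (f u)) u = τ (f u) := by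
  rw [Tm_mulVec, Finset.sum_eq_zero, add_zero]
  intro w _
  split_ifs with h
  · have h1 : w.1.length = u.1.length + 1 := by
      have h2 := congrArg List.length h
      rw [List.length_cons] at h2
      exact h2
    rw [hf w (by omega), map_zero, mul_zero]
  · rw [zero_mul]

private theorem zu_fix {K : Type*} [Field K] (τ : K ≃+* K) (x : K) (S : Finset (List ℕ))
    (A : Submodule K (S → K))
    (hst : ∀ f ∈ A, ∃ g ∈ A, g = (Tm x S).mulVec (fun u => τ (f u)) ∨
      (Tm x S).mulVec (fun u => τ (g u)) = f)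
    (f : S → K) (hf : f ∈ A) (hmin : ∀ h ∈ A, h ≠ 0 → zuMu f ≤ zuMu h)
    (w : S) (hw : f w = 1) (hwd : w.1.length = zuD f) :
    (Tm x S).mulVec (fun u => τ (f u)) = f := by
  have hf0 : f ≠ 0 := by
    intro h
    rw [h] at hw
    exact zero_ne_one hw
  have hfz : ∀ u : S, zuD f < u.1.length → f u = 0 := fun u hu => zu_zero f u hu
  have key : ∀ g ∈ A, (∀ u : S, zuD f < u.1.length → g u = 0) →
      (∀ u : S, u.1.length = zuD f → f u = 0 → g u = 0) → g w = 1 → g = f := by
    intro g hg h1 h2 h3
    by_contra h4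
    have h5 : g - f ≠ 0 := sub_ne_zero.2 h4
    have h6 := hmin (g - f) (A.sub_mem hg hf) h5
    have h7 : zuMu (g - f) < zuMu f := by
      refine zu_lt f (g - f) h5 ?_ ?_ ⟨w, hwd, ?_, ?_⟩
      · intro u hu
        rw [Pi.sub_apply, h1 u hu, hfz u hu, sub_zero]
      · intro u hu hu2
        rw [Pi.sub_apply, h2 u hu hu2, hu2, sub_zero]
      · rw [hw]
        exact one_ne_zero
      · rw [Pi.sub_apply, h3, hw, sub_self]
    exact absurd h6 (not_le.2 h7)
  obtain ⟨g, hg, hgf⟩ := hst f hf
  rcases hgf with hgf | hgf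
  · have h1 : g = f := by
      refine key g hg ?_ ?_ ?_
      · intro u hu
        rw [hgf, zu_high τ x f (zuD f) hfz u hu.le, hfz u hu, map_zero]
      · intro u hu hu2
        rw [hgf, zu_high τ x f (zuD f) hfz u hu.ge, hu2, map_zero]
      · rw [hgf, zu_high τ x f (zuD f) hfz w hwd.ge, hw, map_one]
    rw [← hgf, h1]
  · have hg0 : g ≠ 0 := by
      intro h
      apply hf0
      rw [← hgf, h]
      ext u
      rw [Tm_mulVec]
      simp
    have hgz : ∀ u : S, zuD g < u.1.length → g u = 0 := fun u hu => zu_zero g u hu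
    have hdg : zuD g ≤ zuD f := by
      by_contra h
      obtain ⟨v, hv, hv2⟩ := zu_exists g hg0
      have h1 : f v = τ (g v) := by
        rw [← hgf]
        exact zu_high τ x g (zuD g) hgz v hv2.ge
      have h2 : f v = 0 := hfz v (by omega)
      rw [h2] at h1
      exact hv ((map_eq_zero_iff τ τ.injective).1 h1.symm)
    have hgz2 : ∀ u : S, zuD f < u.1.length → g u = 0 := fun u hu => hgz u (by omega)
    have hfg : ∀ u : S, zuD f ≤ u.1.length → f u = τ (g u) := by
      intro u hu
      have h1 := zu_high τ x g (zuD f) hgz2 u hu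
      rw [hgf] at h1
      exact h1
    have h1 : g = f := by
      refine key g hg hgz2 ?_ ?_
      · intro u hu hu2
        have h2 := hfg u hu.ge
        rw [hu2] at h2
        exact (map_eq_zero_iff τ τ.injective).1 h2.symm
      · have h2 := hfg w hwd.ge
        rw [hw] at h2
        exact τ.injective (h2.symm.trans (map_one τ).symm)
    rw [h1] at hgf
    exact hgf

theorem uni_min {K : Type*} [Field K] (τ : K ≃+* K) (x : K) (hNo : NoSol τ x)
    (S : Finset (List ℕ)) (hS : ∀ a l, a :: l ∈ S → l ∈ S) (hpos : ∀ l ∈ S, ∀ a ∈ l, 1 ≤ a)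
    (A : Submodule K (S → K)) (hA : A ≠ ⊥)
    (hst : ∀ f ∈ A, ∃ g ∈ A, g = (Tm x S).mulVec (fun u => τ (f u)) ∨
      (Tm x S).mulVec (fun u => τ (g u)) = f) :
    ∃ f ∈ A, ∀ u : S, f u = if u.1 = [] then 1 else 0 := by
  classical
  obtain ⟨f1, hf1, hf10⟩ := (Submodule.ne_bot_iff A).1 hA
  have hex : ∃ n, ∃ f ∈ A, f ≠ 0 ∧ zuMu f = n := ⟨zuMu f1, f1, hf1, hf10, rfl⟩
  obtain ⟨f0, hf0, hf00, hmu⟩ := Nat.find_spec hex
  have hmin0 : ∀ h ∈ A, h ≠ 0 → zuMu f0 ≤ zuMu h := by
    intro h hh hh0
    rw [hmu]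
    exact Nat.find_min' hex ⟨h, hh, hh0, rfl⟩
  obtain ⟨w, hw0, hwd0⟩ := zu_exists f0 hf00
  have hinv : (f0 w)⁻¹ ≠ 0 := inv_ne_zero hw0
  obtain ⟨f, hfdef⟩ : ∃ f : S → K, f = (f0 w)⁻¹ • f0 := ⟨_, rfl⟩
  have hf : f ∈ A := by
    rw [hfdef]
    exact A.smul_mem _ hf0
  have hw : f w = 1 := by
    rw [hfdef, Pi.smul_apply, smul_eq_mul]
    exact inv_mul_cancel₀ hw0
  have hwd : w.1.length = zuD f := by
    rw [hfdef, zu_D_smul f0 _ hinv]
    exact hwd0
  have hmin : ∀ h ∈ A, h ≠ 0 → zuMu f ≤ zuMu h := by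
    rw [hfdef, zu_mu_smul f0 _ hinv]
    exact hmin0
  have hG := zu_fix τ x S A hst f hf hmin w hw hwd
  have hfz : ∀ u : S, zuD f < u.1.length → f u = 0 := fun u hu => zu_zero f u hu
  have hti : ∀ u : S, zuD f ≤ u.1.length → τ (f u) = f u := by
    intro u hu
    rw [← zu_high τ x f (zuD f) hfz u hu, hG]
  have hnil : w.1 = [] := by
    rcases hwl : w.1 with _ | ⟨a, u0⟩
    · rfl
    · exfalso
      have hu0 : u0 ∈ S := hS a u0 (hwl ▸ w.2)
      have hlw : w.1.length = u0.length + 1 := by rw [hwl, List.length_cons]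
      obtain ⟨κ, hκ⟩ : ∃ κ : ℕ →₀ K, κ = ∑ v : S, (if v.1 = v.1.headI :: u0 then
        Finsupp.single v.1.headI (f v) else 0) := ⟨_, rfl⟩
      have hap : ∀ m, κ m = ∑ v : S, (if v.1 = v.1.headI :: u0 then
          (if v.1.headI = m then f v else 0) else 0) := by
        intro m
        rw [hκ, Finsupp.finsetSum_apply]
        apply Finset.sum_congr rfl
        intro v _
        split_ifs with h1 h2
        · rw [h2, Finsupp.single_eq_same]
        · exact Finsupp.single_eq_of_ne (fun h3 => h2 h3.symm)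
        · rfl
      have hlen : ∀ v : S, v.1 = v.1.headI :: u0 → zuD f ≤ v.1.length := by
        intro v hv
        have h2 := congrArg List.length hv
        rw [List.length_cons] at h2
        omega
      have hinvk : ∀ m, τ (κ m) = κ m := by
        intro m
        rw [hap m, map_sum]
        apply Finset.sum_congr rfl
        intro v _
        split_ifs with h1 h2
        · exact hti v (hlen v h1)
        · exact map_zero τ
        · exact map_zero τ
      have hk0 : κ 0 = 0 := by
        rw [hap 0]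
        apply Finset.sum_eq_zero
        intro v _
        split_ifs with h1 h2
        · exfalso
          have h3 := hpos v.1 v.2 v.1.headI (by
            rw [h1]
            exact List.mem_cons_self)
          omega
        · rfl
        · rfl
      have heq : f ⟨u0, hu0⟩ - τ (f ⟨u0, hu0⟩) = κ.sum (fun m k => k * (-x⁻¹) ^ m) := by
        have h1 : κ.sum (fun m k => k * (-x⁻¹) ^ m) =
            Finsupp.linearCombination K (fun m => (-x⁻¹) ^ m) κ := by
          rw [Finsupp.linearCombination_apply]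
          rfl
        have h2 := congrFun hG ⟨u0, hu0⟩
        rw [Tm_mulVec] at h2
        rw [h1, hκ, map_sum]
        have h3 : ∀ v : S, Finsupp.linearCombination K (fun m => (-x⁻¹) ^ m)
            (if v.1 = v.1.headI :: u0 then Finsupp.single v.1.headI (f v) else 0) =
            (if v.1 = v.1.headI :: u0 then (-x⁻¹) ^ v.1.headI else 0) * τ (f v) := by
          intro v
          split_ifs with h4
          · rw [Finsupp.linearCombination_single, hti v (hlen v h4), smul_eq_mul, mul_comm]
          · rw [map_zero, zero_mul]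
        rw [Finset.sum_congr rfl (fun v _ => h3 v)]
        exact sub_eq_of_eq_add' h2.symm
      have hz := hNo κ (f ⟨u0, hu0⟩) hinvk hk0 heq
      have h1 : κ a = 1 := by
        rw [hap a, Finset.sum_eq_single w]
        · have h2 : w.1.headI = a := by rw [hwl]; rfl
          rw [if_pos, if_pos h2, hw]
          rw [h2]
          exact hwl
        · intro v _ hv
          split_ifs with h2 h3
          · exfalso
            apply hv
            apply Subtype.ext
            rw [h2, h3, hwl]
          · rfl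
          · rfl
        · intro h2
          exact absurd (Finset.mem_univ _) h2
      rw [hz, Finsupp.zero_apply] at h1
      exact zero_ne_one h1
  refine ⟨f, hf, ?_⟩
  intro u
  split_ifs with h
  · have h1 : u = w := Subtype.ext (h.trans hnil.symm)
    rw [h1, hw]
  · apply hfz
    rw [← hwd, hnil, List.length_nil]
    exact List.length_pos_iff.2 h

end Pool.MZExp
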