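import Pool.Agent.Lib.MZExp.VCon
import Pool.Agent.Lib.MZExp.ZUni

/-! MP_301213_nt, EXPONENT 1/3, module `VTop` (220 lines): the algebraic core of the zero estimate
(replaces `lemZ` of `ZLem`; read `ZLem` first, the parts (Z1), (Z2) are the same: copy its private lemmas).

PROOF. Suppose `finrank K J < S1.card`. As in `ZLem`: `B = {b | (0, b) ∈ J}`, `finrank B < S1.card`, so
`B^⊥ ≠ 0` is stable, `uni_min` gives `e' ∈ B^⊥`, `e' = (1 at [], 0 elsewhere)`, i.e. `b [] = 0` for all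
`b ∈ B` (needs only `hst` for pairs `(0, b)`).
`A = J.map fst` is stable under `G f = Tm x S0 *ᵥ (τ ∘ f)` (`hst`). Let `p ∈ J`, `p.1 (v0 ++ [b0]) ≠ 0`,
`f = (p.1 (v0 ++ [b0]))⁻¹ • p.1 ∈ A`. `f1 = dI S0 v0 f ∈ A` (`inv_stable` (i)): `f1 [b0] = 1`
(`[b0] ∈ S0` since `S0` is closed under tails, induction on `v0`), `f1 u = 0` if `u.length > 1` (`hv0`).
`f2 = ρ ∘ f1 ∈ A` (`inv_stable` (ii)): invariant, `f2 [b0] = ρ 1 = 1`, `f2 u = ρ 0 = 0` if `u.length > 1`.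
`e = (1 at [], 0 elsewhere) ∈ A` (`hnil`), `g = f2 - f2 [] • e ∈ A`: `g [] = 0`, `g u = f2 u` otherwise,
invariant, supported on words of length one. Take `p0 ∈ J` with `p0.1 = g`, and `q ∈ J` with
`Rel p0 q` (`hst`). `q.1 = G g`: `(G g) u = g u + [u = []] s`, `s = ∑_(w ∈ S0 of length 1) (-x⁻¹)^(headI w) g w`
(`Tm_mulVec`; for `u ≠ []` the words `a :: u` have length `≥ 2`). So `q - p0 - s • (e, 0) = (0, q.2 - p0.2)
∈ J`, `q.2 - p0.2 ∈ B`, `q.2 [] = p0.2 []`. The second part of `Rel` at `v = []` (`Tm_vecMul_nil`):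
`q.2 [] = τ (p0.2 []) - ∑ u, τ (g u) * Rx u []`; only words `u = [b]` contribute, `Rx [b] [] = 0` for
`b ≠ b0`, `Rx [b0] [] = x⁻¹`, `g [b0] = 1`: the sum is `x⁻¹`. With `b = p0.2 []`:
`b - τ b = -x⁻¹ = 1 * (-x⁻¹)^1`, and `hNo (Finsupp.single 1 1) b` gives a contradiction (end of `ZLem`). -/

open Polynomial

namespace Pool.MZExp

private theorem vt_Bp_ne {K : Type*} [Field K] (S1 : Finset (List ℕ))
    (B : Submodule K (S1 → K)) (hB : Module.finrank K B < S1.card) :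
    ∃ μ : S1 → K, μ ≠ 0 ∧ ∀ b ∈ B, ∑ v, μ v * b v = 0 := by
  classical
  have hlt : B < ⊤ := by
    rw [lt_top_iff_ne_top]
    intro h
    rw [h, finrank_top, Module.finrank_fintype_fun_eq_card, Fintype.card_coe] at hB
    exact lt_irrefl _ hB
  obtain ⟨φ, hφ, hle⟩ := Submodule.exists_le_ker_of_lt_top B hlt
  have hsum : ∀ b : S1 → K, φ b = ∑ v, φ (fun j => if v = j then 1 else 0) * b v := by
    intro b
    rw [LinearMap.pi_apply_eq_sum_univ φ b]
    apply Finset.sum_congr rfl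
    intro v _
    rw [smul_eq_mul, mul_comm]
  refine ⟨fun v => φ (fun j => if v = j then 1 else 0), ?_, ?_⟩
  · intro h
    apply hφ
    apply LinearMap.ext
    intro b
    rw [hsum b, LinearMap.zero_apply]
    apply Finset.sum_eq_zero
    intro v _
    have h1 : φ (fun j => if v = j then 1 else 0) = 0 := congrFun h v
    rw [h1, zero_mul]
  · intro b hb
    have h1 : φ b = 0 := hle hb
    exact (hsum b).symm.trans h1

private def vtBp {K : Type*} [Field K] {S1 : Finset (List ℕ)} (B : Submodule K (S1 → K)) :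
    Submodule K (S1 → K) where
  carrier := {μ | ∀ b ∈ B, ∑ v, μ v * b v = 0}
  add_mem' := by
    intro μ ν hμ hν b hb
    have h : ∑ v, (μ + ν) v * b v = ∑ v, μ v * b v + ∑ v, ν v * b v := by
      rw [← Finset.sum_add_distrib]
      apply Finset.sum_congr rfl
      intro v _
      rw [Pi.add_apply, add_mul]
    rw [h, hμ b hb, hν b hb, add_zero]
  zero_mem' := by
    intro b _
    apply Finset.sum_eq_zero
    intro v _
    rw [Pi.zero_apply, zero_mul]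
  smul_mem' := by
    intro k μ hμ b hb
    have h : ∑ v, (k • μ) v * b v = k * ∑ v, μ v * b v := by
      rw [Finset.mul_sum]
      apply Finset.sum_congr rfl
      intro v _
      rw [Pi.smul_apply, smul_eq_mul, mul_assoc]
    rw [h, hμ b hb, mul_zero]

private theorem vt_stab {K : Type*} [Field K] (τ : K ≃+* K) (x : K) (S1 : Finset (List ℕ))
    (B : Submodule K (S1 → K))
    (hB : ∀ b ∈ B, ∃ b' ∈ B, ∀ v : S1, Matrix.vecMul b' (Tm x S1) v = τ (b v))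
    (μ : S1 → K) (hμ : μ ∈ vtBp B) :
    ∃ g ∈ vtBp B, (Tm x S1).mulVec (fun u => τ (g u)) = μ := by
  obtain ⟨U, hU⟩ := Tm_isUnit x S1
  obtain ⟨ν, hν⟩ : ∃ ν : S1 → K, (Tm x S1).mulVec ν = μ := by
    refine ⟨(U⁻¹).val.mulVec μ, ?_⟩
    rw [← hU, Matrix.mulVec_mulVec, Units.mul_inv, Matrix.one_mulVec]
  refine ⟨fun v => τ.symm (ν v), ?_, ?_⟩
  · intro b hb
    obtain ⟨b', hb', hv⟩ := hB b hb
    have h1 : ∑ v, μ v * b' v = 0 := hμ b' hb'
    have h2 : b' ⬝ᵥ (Tm x S1).mulVec ν = 0 := by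
      rw [hν, dotProduct_comm]
      exact h1
    rw [Matrix.dotProduct_mulVec] at h2
    have h3 : ∑ v, τ (b v) * ν v = 0 := by
      rw [← h2]
      apply Finset.sum_congr rfl
      intro v _
      rw [hv v]
    have h4 := congrArg τ.symm h3
    rw [map_sum, map_zero] at h4
    rw [← h4]
    apply Finset.sum_congr rfl
    intro v _
    rw [map_mul, RingEquiv.symm_apply_apply, mul_comm]
  · rw [← hν]
    congr 1
    funext u
    exact RingEquiv.apply_symm_apply τ (ν u)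

private theorem vt_nil {K : Type*} [Field K] (S1 : Finset (List ℕ)) (h1 : [] ∈ S1)
    (e : S1 → K) (he : ∀ u : S1, e u = if u.1 = [] then 1 else 0) (b : S1 → K) :
    ∑ v, e v * b v = b ⟨[], h1⟩ := by
  rw [Finset.sum_eq_single (⟨[], h1⟩ : S1)]
  · rw [he, if_pos rfl, one_mul]
  · intro v _ hv
    rw [he, if_neg (fun h => hv (Subtype.ext h)), zero_mul]
  · intro h
    exact absurd (Finset.mem_univ _) h

theorem lemV {K : Type*} [Field K] (τ : K ≃+* K) (x : K) (hNo : NoSol τ x) (ρ : K → K)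
    (hρ : Retr τ ρ) (S0 S1 : Finset (List ℕ)) (hS0 : ∀ a l, a :: l ∈ S0 → l ∈ S0)
    (hS1 : ∀ a l, a :: l ∈ S1 → l ∈ S1) (hp0 : ∀ l ∈ S0, ∀ a ∈ l, 1 ≤ a)
    (hp1 : ∀ l ∈ S1, ∀ a ∈ l, 1 ≤ a) (h1 : [] ∈ S1)
    (Rx : List ℕ → List ℕ → K) (b0 : ℕ) (v0 : List ℕ) (hR0 : Rx [] [] = 0)
    (hR1 : ∀ b, [b] ∈ S0 → Rx [b] [] = if b = b0 then x⁻¹ else 0)
    (hv0 : ∀ u, v0 ++ u ∈ S0 → u.length ≤ 1) (hmem : v0 ++ [b0] ∈ S0)
    (J : Submodule K ((S0 → K) × (S1 → K)))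
    (hst : ∀ p ∈ J, ∃ q ∈ J, Rel τ x S0 S1 Rx p q)
    (hnil : ((fun u => if u.1 = [] then 1 else 0 : S0 → K), (0 : S1 → K)) ∈ J)
    (hne : ∃ p ∈ J, p.1 ⟨v0 ++ [b0], hmem⟩ ≠ 0) :
    S1.card ≤ Module.finrank K J := by
  classical
  by_contra hlt
  rw [not_le] at hlt
  -- (Z2)
  obtain ⟨B, hBdef⟩ : ∃ B : Submodule K (S1 → K), B = J.comap (LinearMap.inr K (S0 → K) (S1 → K)) :=
    ⟨_, rfl⟩
  have hBmem : ∀ b : S1 → K, b ∈ B ↔ ((0 : S0 → K), b) ∈ J := by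
    intro b
    rw [hBdef, Submodule.mem_comap]
    exact Iff.rfl
  have hBfin : Module.finrank K B < S1.card := by
    refine lt_of_le_of_lt ?_ hlt
    have hf : ∀ b ∈ B, (LinearMap.inr K (S0 → K) (S1 → K)) b ∈ J := fun b hb => (hBmem b).1 hb
    refine LinearMap.finrank_le_finrank_of_injective
      (f := (LinearMap.inr K (S0 → K) (S1 → K)).restrict hf) ?_
    intro b b' hbb
    apply Subtype.ext
    have h2 := congrArg (fun y : J => y.1.2) hbb
    exact h2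
  have hBst : ∀ b ∈ B, ∃ b' ∈ B, ∀ v : S1, Matrix.vecMul b' (Tm x S1) v = τ (b v) := by
    intro b hb
    obtain ⟨q, hq, hrel1, hrel2⟩ := hst _ ((hBmem b).1 hb)
    have hq1 : q.1 = 0 := by
      rw [hrel1]
      have h2 : (fun u => τ (((0 : S0 → K), b).1 u)) = (0 : S0 → K) := by
        funext u
        exact map_zero τ
      rw [h2, Matrix.mulVec_zero]
    refine ⟨q.2, ?_, ?_⟩
    · rw [hBmem, ← hq1]
      exact hq
    · intro v
      rw [hrel2 v]
      have h2 : ∑ u : S0, τ (((0 : S0 → K), b).1 u) * Rx u v = 0 := by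
        apply Finset.sum_eq_zero
        intro u _
        have h3 : τ (((0 : S0 → K), b).1 u) = 0 := map_zero τ
        rw [h3, zero_mul]
      rw [h2, sub_zero]
  have hBp : vtBp B ≠ ⊥ := by
    obtain ⟨μ, hμ, hμB⟩ := vt_Bp_ne S1 B hBfin
    intro h
    apply hμ
    have h2 : μ ∈ vtBp B := hμB
    rw [h, Submodule.mem_bot] at h2
    exact h2
  obtain ⟨e', he'B, he'⟩ := uni_min τ x hNo S1 hS1 hp1 (vtBp B) hBp (by
    intro μ hμ
    obtain ⟨g, hg, hgm⟩ := vt_stab τ x S1 B hBst μ hμ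
    exact ⟨g, hg, Or.inr hgm⟩)
  have hBnil : ∀ b ∈ B, b ⟨[], h1⟩ = 0 := by
    intro b hb
    rw [← vt_nil S1 h1 e' he' b]
    exact he'B b hb
  -- the invariant element `g`
  obtain ⟨A, hAdef⟩ : ∃ A : Submodule K (S0 → K), A = J.map (LinearMap.fst K (S0 → K) (S1 → K)) :=
    ⟨_, rfl⟩
  have hAst : ∀ f ∈ A, (Tm x S0).mulVec (fun u => τ (f u)) ∈ A := by
    intro f hf
    rw [hAdef] at hf ⊢
    obtain ⟨p, hp, rfl⟩ := hf
    obtain ⟨q, hq, hrel1, -⟩ := hst p hp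
    exact ⟨q, hq, hrel1⟩
  obtain ⟨hI, hII, -⟩ := inv_stable τ x hNo ρ hρ S0 hS0 hp0 A hAst
  have htail : ∀ v w : List ℕ, v ++ w ∈ S0 → w ∈ S0 := by
    intro v
    induction v with
    | nil => exact fun w h => h
    | cons a v ih => exact fun w h => ih w (hS0 a _ h)
  have hb0 : [b0] ∈ S0 := htail v0 _ hmem
  have hn0 : [] ∈ S0 := hS0 b0 [] hb0
  obtain ⟨p, hpJ, hpne⟩ := hne
  obtain ⟨c, hc⟩ : ∃ c, c = p.1 ⟨v0 ++ [b0], hmem⟩ := ⟨_, rfl⟩
  rw [← hc] at hpne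
  have hfA : c⁻¹ • p.1 ∈ A := by
    rw [hAdef]
    exact Submodule.smul_mem _ _ ⟨p, hpJ, rfl⟩
  obtain ⟨f1, hf1⟩ : ∃ f1, f1 = dI S0 v0 (c⁻¹ • p.1) := ⟨_, rfl⟩
  have hf1A : f1 ∈ A := by
    rw [hf1]
    exact hI v0 _ hfA
  have hf1b : f1 ⟨[b0], hb0⟩ = 1 := by
    rw [hf1]
    unfold dI
    rw [dif_pos hmem, Pi.smul_apply, smul_eq_mul, ← hc]
    exact inv_mul_cancel₀ hpne
  have hf1l : ∀ u : S0, 1 < u.1.length → f1 u = 0 := by
    intro u hu
    rw [hf1]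
    unfold dI
    rw [dif_neg]
    intro h
    have := hv0 _ h
    omega
  have hρ0 : ρ 0 = 0 := by
    have h := hρ.add 0 0
    rw [add_zero] at h
    exact left_eq_add.1 h
  obtain ⟨f2, hf2⟩ : ∃ f2 : S0 → K, f2 = fun u => ρ (f1 u) := ⟨_, rfl⟩
  have hf2A : f2 ∈ A := by
    rw [hf2]
    exact hII f1 hf1A
  have hf2i : ∀ u, τ (f2 u) = f2 u := by
    intro u
    rw [hf2]
    exact hρ.inv _
  have hf2b : f2 ⟨[b0], hb0⟩ = 1 := by
    rw [hf2]
    show ρ (f1 _) = 1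
    rw [hf1b, hρ.one]
  have hf2l : ∀ u : S0, 1 < u.1.length → f2 u = 0 := by
    intro u hu
    rw [hf2]
    show ρ (f1 _) = 0
    rw [hf1l u hu, hρ0]
  obtain ⟨e, he⟩ : ∃ e : S0 → K, e = fun u => if u.1 = [] then 1 else 0 := ⟨_, rfl⟩
  rw [← he] at hnil
  have heA : e ∈ A := by
    rw [hAdef]
    exact ⟨(e, 0), hnil, rfl⟩
  obtain ⟨g, hg⟩ : ∃ g : S0 → K, g = f2 - f2 ⟨[], hn0⟩ • e := ⟨_, rfl⟩
  have hgA : g ∈ A := by
    rw [hg]
    exact A.sub_mem hf2A (A.smul_mem _ heA)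
  have hgnil : g ⟨[], hn0⟩ = 0 := by
    rw [hg, Pi.sub_apply, Pi.smul_apply, he, smul_eq_mul]
    show f2 ⟨[], hn0⟩ - f2 ⟨[], hn0⟩ * (if ([] : List ℕ) = [] then (1 : K) else 0) = 0
    rw [if_pos rfl, mul_one, sub_self]
  have hgne : ∀ u : S0, u.1 ≠ [] → g u = f2 u := by
    intro u hu
    rw [hg, Pi.sub_apply, Pi.smul_apply, he, smul_eq_mul]
    show f2 u - f2 ⟨[], hn0⟩ * (if u.1 = [] then (1 : K) else 0) = f2 u
    rw [if_neg hu, mul_zero, sub_zero]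
  have hgi : ∀ u, τ (g u) = g u := by
    intro u
    by_cases hu : u.1 = []
    · have h2 : u = ⟨[], hn0⟩ := Subtype.ext hu
      rw [h2, hgnil, map_zero]
    · rw [hgne u hu, hf2i]
  have hgl : ∀ u : S0, 1 < u.1.length → g u = 0 := by
    intro u hu
    rw [hgne u (by intro h; rw [h] at hu; simp at hu), hf2l u hu]
  have hgb : g ⟨[b0], hb0⟩ = 1 := by
    rw [hgne _ (by simp), hf2b]
  rw [hAdef] at hgA
  obtain ⟨p0, hp0J, hp0g⟩ := hgA
  have hp0g' : p0.1 = g := hp0g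
  obtain ⟨q, hq, hrel1, hrel2⟩ := hst p0 hp0J
  -- `q.1 = g + s • e`
  obtain ⟨s, hs⟩ : ∃ s : K, s = ∑ w : S0,
    (if w.1 = w.1.headI :: ([] : List ℕ) then (-x⁻¹) ^ w.1.headI else 0) * g w := ⟨_, rfl⟩
  have hq1 : q.1 = g + s • e := by
    rw [hrel1]
    have h2 : (fun u => τ (p0.1 u)) = g := by
      funext u
      rw [hp0g', hgi]
    rw [h2]
    funext u
    rw [Tm_mulVec, Pi.add_apply, Pi.smul_apply, smul_eq_mul, he]
    congr 1
    show _ = s * (if u.1 = [] then (1 : K) else 0)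
    by_cases hu : u.1 = []
    · rw [if_pos hu, mul_one, hs, hu]
    · rw [if_neg hu, mul_zero]
      apply Finset.sum_eq_zero
      intro w _
      by_cases hw : w.1 = w.1.headI :: u.1
      · have h3 : 1 < w.1.length := by
          rw [hw, List.length_cons]
          have := List.length_pos_of_ne_nil hu
          omega
        rw [hgl w h3, mul_zero]
      · rw [if_neg hw, zero_mul]
  have hdiff : q.2 - p0.2 ∈ B := by
    rw [hBmem]
    have h2 : q - p0 - s • (e, (0 : S1 → K)) ∈ J :=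
      J.sub_mem (J.sub_mem hq hp0J) (J.smul_mem s hnil)
    have h3 : q - p0 - s • (e, (0 : S1 → K)) = ((0 : S0 → K), q.2 - p0.2) := by
      apply Prod.ext
      · rw [Prod.fst_sub, Prod.fst_sub, Prod.smul_fst, hq1, hp0g']
        show g + s • e - g - s • e = 0
        abel
      · rw [Prod.snd_sub, Prod.snd_sub, Prod.smul_snd]
        show q.2 - p0.2 - s • (0 : S1 → K) = q.2 - p0.2
        rw [smul_zero, sub_zero]
    rw [← h3]
    exact h2
  have h2 : q.2 ⟨[], h1⟩ = p0.2 ⟨[], h1⟩ := by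
    have h3 := hBnil _ hdiff
    rw [Pi.sub_apply] at h3
    exact sub_eq_zero.1 h3
  have h3 := hrel2 ⟨[], h1⟩
  rw [Tm_vecMul_nil x S1 q.2 ⟨[], h1⟩ rfl, h2] at h3
  have h4 : ∑ u : S0, τ (p0.1 u) * Rx u (⟨[], h1⟩ : S1) = x⁻¹ := by
    rw [Finset.sum_eq_single (⟨[b0], hb0⟩ : S0)]
    · rw [hp0g', hgi, hgb, one_mul]
      show Rx [b0] [] = x⁻¹
      rw [hR1 b0 hb0, if_pos rfl]
    · intro v _ hv
      rw [hp0g', hgi]
      obtain ⟨v, hvS⟩ := v
      match v, hvS, hv with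
      | [], hvS, _ => rw [hgnil, zero_mul]
      | [b], hvS, hv =>
        show g ⟨[b], hvS⟩ * Rx [b] [] = 0
        rw [hR1 b hvS, if_neg, mul_zero]
        intro hb
        apply hv
        subst hb
        rfl
      | a :: b :: l, hvS, _ =>
        rw [hgl ⟨a :: b :: l, hvS⟩ (by simp), zero_mul]
    · intro h
      exact absurd (Finset.mem_univ _) h
  rw [h4] at h3
  have h5 : p0.2 ⟨[], h1⟩ - τ (p0.2 ⟨[], h1⟩) = (Finsupp.single 1 (1 : K)).sum
      (fun m k => k * (-x⁻¹) ^ m) := by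
    rw [Finsupp.sum_single_index (by rw [zero_mul]), one_mul, pow_one]
    nth_rewrite 1 [h3]
    ring
  have h6 := hNo (Finsupp.single 1 1) (p0.2 ⟨[], h1⟩) (by
    intro m
    rw [Finsupp.single_apply]
    split_ifs
    · exact map_one τ
    · exact map_zero τ) (by
    rw [Finsupp.single_apply, if_neg (by norm_num)]) h5
  have h7 := DFunLike.congr_fun h6 1
  rw [Finsupp.single_eq_same, Finsupp.zero_apply] at h7
  exact one_ne_zero h7

end Pool.MZExp
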