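import Pool.Agent.Lib.MZExp.UAlg
import Pool.Agent.Lib.MZExp.VTop
import Pool.Agent.Lib.MZExp.VRet

/-! MP_301213_nt, EXPONENT 1/3, module `VAlg`: the zero estimate for polynomial vectors. -/

open Polynomial

namespace Pool.MZExp

private lemma rel_zero {K : Type*} [Field K] (τ : K ≃+* K) (x : K) (S0 S1 : Finset (List ℕ))
    (Rx : List ℕ → List ℕ → K) : Rel τ x S0 S1 Rx 0 0 := by
  refine ⟨?_, fun v => ?_⟩
  · ext u
    simp [Matrix.mulVec, dotProduct]
  · simp [Matrix.vecMul, dotProduct]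

private lemma rel_add {K : Type*} [Field K] (τ : K ≃+* K) (x : K) (S0 S1 : Finset (List ℕ))
    (Rx : List ℕ → List ℕ → K) {p q p' q' : (S0 → K) × (S1 → K)}
    (h : Rel τ x S0 S1 Rx p q) (h' : Rel τ x S0 S1 Rx p' q') :
    Rel τ x S0 S1 Rx (p + p') (q + q') := by
  obtain ⟨h1, h2⟩ := h
  obtain ⟨h1', h2'⟩ := h'
  refine ⟨?_, fun v => ?_⟩
  · have e : (fun u => τ ((p + p').1 u)) = (fun u => τ (p.1 u)) + (fun u => τ (p'.1 u)) := by
      ext u
      simp
    rw [e, Matrix.mulVec_add, ← h1, ← h1']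
    rfl
  · have e : Matrix.vecMul (q + q').2 (Tm x S1) v
        = Matrix.vecMul q.2 (Tm x S1) v + Matrix.vecMul q'.2 (Tm x S1) v := by
      have e2 : (q + q').2 = q.2 + q'.2 := rfl
      rw [e2, Matrix.add_vecMul]
      rfl
    rw [e, h2 v, h2' v]
    have e3 : ∑ u : S0, τ ((p + p').1 u) * Rx u v
        = ∑ u : S0, τ (p.1 u) * Rx u v + ∑ u : S0, τ (p'.1 u) * Rx u v := by
      rw [← Finset.sum_add_distrib]
      refine Finset.sum_congr rfl fun u _ => ?_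
      have : (p + p').1 u = p.1 u + p'.1 u := rfl
      rw [this, map_add, add_mul]
    rw [e3]
    have e4 : (p + p').2 v = p.2 v + p'.2 v := rfl
    rw [e4, map_add]
    ring

private lemma rel_smul {K : Type*} [Field K] (τ : K ≃+* K) (x : K) (S0 S1 : Finset (List ℕ))
    (Rx : List ℕ → List ℕ → K) (k : K) {p q : (S0 → K) × (S1 → K)}
    (h : Rel τ x S0 S1 Rx p q) : Rel τ x S0 S1 Rx (k • p) (τ k • q) := by
  obtain ⟨h1, h2⟩ := h
  refine ⟨?_, fun v => ?_⟩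
  · have e : (fun u => τ ((k • p).1 u)) = τ k • (fun u => τ (p.1 u)) := by
      ext u
      have : (k • p).1 u = k * p.1 u := rfl
      rw [this, map_mul]
      rfl
    rw [e, Matrix.mulVec_smul, ← h1]
    rfl
  · have e : Matrix.vecMul (τ k • q).2 (Tm x S1) v
        = τ k * Matrix.vecMul q.2 (Tm x S1) v := by
      have e2 : (τ k • q).2 = τ k • q.2 := rfl
      rw [e2, Matrix.smul_vecMul]
      rfl
    rw [e, h2 v]
    have e3 : ∑ u : S0, τ ((k • p).1 u) * Rx u v = τ k * ∑ u : S0, τ (p.1 u) * Rx u v := by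
      rw [Finset.mul_sum]
      refine Finset.sum_congr rfl fun u _ => ?_
      have : (k • p).1 u = k * p.1 u := rfl
      rw [this, map_mul, mul_assoc]
    rw [e3]
    have e4 : (k • p).2 v = k * p.2 v := rfl
    rw [e4, map_mul]
    ring

private lemma fin_arithV (N r s : ℕ) (hN : 4 ≤ N)
    (h : (N - N / 8) * r ≤ (N / 2 + N + 1) * s) : r ≤ 2 * s := by
  by_contra hr
  push Not at hr
  have a1 : 7 * N ≤ 8 * (N - N / 8) := by omega
  have a2 : 8 * (N / 2 + N + 1) ≤ 12 * N + 8 := by omega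
  have a3 : (7 * N) * (2 * s + 1) ≤ (12 * N + 8) * s := by
    calc (7 * N) * (2 * s + 1) ≤ (8 * (N - N / 8)) * r := Nat.mul_le_mul a1 hr
      _ = 8 * ((N - N / 8) * r) := by ring
      _ ≤ 8 * ((N / 2 + N + 1) * s) := Nat.mul_le_mul_left _ h
      _ = (8 * (N / 2 + N + 1)) * s := by ring
      _ ≤ (12 * N + 8) * s := Nat.mul_le_mul_right _ a2
  nlinarith [Nat.mul_le_mul_right s hN]

theorem zero_algV (S0 S1 : Finset (List ℕ)) (hS0 : ∀ a l, a :: l ∈ S0 → l ∈ S0)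
    (hS1 : ∀ a l, a :: l ∈ S1 → l ∈ S1) (hp0 : ∀ l ∈ S0, ∀ a ∈ l, 1 ≤ a)
    (hp1 : ∀ l ∈ S1, ∀ a ∈ l, 1 ≤ a) (h0 : [] ∈ S0) (h1 : [] ∈ S1) (d : ℕ)
    (hcard : 2 * S0.card < S1.card) :
    ∃ N0 : ℕ, ∀ N : ℕ, N0 ≤ N → ∀ (c : List ℕ → List ℕ → ℕ → ℚ) (R : List ℕ → List ℕ → ℚ[X]),
      (∀ u ∈ S0, ∀ v ∈ S1, (R u v).natDegree ≤ d) → R [] [] = 0 →
      (∀ b, [b] ∈ S0 → R [b] [] = if b = 1 then X else 0) →
      (∀ v j, c [] v j = 0) →
      (∀ (j : ℕ) (u : S0) (v : S1), 1 ≤ j → c u v (j + 1) = (∑ u' : S0, ∑ v' : S1,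
        Tm (j : ℚ) S0 u' u * Tm (j : ℚ) S1 v' v * c u' v' j) +
          (R u v).eval (j : ℚ)⁻¹) →
      ∀ a : S0 → ℚ[X], (∀ u, (a u).natDegree ≤ N / 2 + 1) →
      (∀ v : S1, ∃ b : ℚ[X], b.natDegree ≤ N ∧
        ∀ j : ℕ, 1 ≤ j → j ≤ 2 * N → ∑ u : S0, (a u).eval (j : ℚ) * c u v j = b.eval (j : ℚ)) →
      ∀ (v0 : List ℕ) (hmem : v0 ++ [1] ∈ S0), (∀ u, v0 ++ u ∈ S0 → u.length ≤ 1) →
        a ⟨v0 ++ [1], hmem⟩ = 0 := by
  classical
  obtain ⟨s, hs⟩ := exists_shiftU S0 S1 hS1 d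
  refine ⟨8 * ((s + 1) * (2 * S0.card + 1)) + 8 * S0.card + 40, ?_⟩
  intro N hN c R hRd hR0 hR1 hc0 hrec a haN hab v0 hmem hv0
  by_contra hane
  choose b hb1 hb2 using hab
  let Q : ℕ → Submodule ℚ ((S0 → KK) × (S1 → KK)) := fun i =>
    QU S0 S1 c (2 * N) (N / 2 + 1 + i) (N + i)
  let J : ℕ → Submodule KK ((S0 → KK) × (S1 → KK)) := fun i => Submodule.span KK (Q i : Set _)
  have hfin : ∀ i, i ≤ N / 8 → Module.finrank KK (J i) ≤ 2 * S0.card := by
    intro i hi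
    have h1 := rank_countU (S0 := S0) (S1 := S1) (c := c) (M := 2 * N) (y := N / 2 + 1 + i)
      (z := N + i) (N - 1 - N / 8)
    have h2 : Module.finrank ℚ (QU S0 S1 c (2 * N) (N / 2 + 1 + i + (N - 1 - N / 8))
        (N + i + (N - 1 - N / 8))) ≤ (N / 2 + 1 + i + (N - 1 - N / 8) + 1) * S0.card :=
      QU_finrank_le (by omega)
    refine fin_arithV N _ S0.card (by omega) ?_
    have e1 : N - 1 - N / 8 + 1 = N - N / 8 := by omega
    have e2 : N / 2 + 1 + i + (N - 1 - N / 8) + 1 ≤ N / 2 + N + 1 := by omega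
    rw [e1] at h1
    exact h1.trans (h2.trans (Nat.mul_le_mul_right _ e2))
  have hmono : ∀ i, J i ≤ J (i + 1) := by
    intro i
    exact Submodule.span_mono (QU_mono (by omega) (by omega))
  obtain ⟨i, hi1, hi2⟩ := exists_stable J hmono (s + 1) (2 * S0.card) (N / 8) hfin (by omega)
  have hiN : i ≤ N / 8 := by omega
  have hst : ∀ p ∈ J i, ∃ q ∈ J i, Rel tau.symm xx S0 S1
      (fun u v => (R u v).eval₂ (algebraMap ℚ KK) xx⁻¹) p q := by
    intro p hp
    induction hp using Submodule.span_induction with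
    | mem p hp =>
      obtain ⟨q, hq1, hq2⟩ := hs c R hRd hrec (2 * N) (N / 2 + 1 + i) (N + i) (by omega) p hp
      refine ⟨q, ?_, hq1⟩
      rw [← hi2]
      have hx : algebraMap ℚ[X] KK (X ^ s * (X - C ((2 * N : ℕ) : ℚ))) ≠ 0 := by
        refine (map_ne_zero_iff _ (IsFractionRing.injective ℚ[X] KK)).2 ?_
        exact mul_ne_zero (pow_ne_zero _ X_ne_zero) (X_sub_C_ne_zero _)
      have e : q = (algebraMap ℚ[X] KK (X ^ s * (X - C ((2 * N : ℕ) : ℚ))))⁻¹ •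
          (algebraMap ℚ[X] KK (X ^ s * (X - C ((2 * N : ℕ) : ℚ))) • q) := by
        rw [smul_smul, inv_mul_cancel₀ hx, one_smul]
      rw [e]
      refine Submodule.smul_mem _ _ (Submodule.subset_span ?_)
      have e1 : N / 2 + 1 + i + (s + 1) = N / 2 + 1 + (i + (s + 1)) := by ring
      have e2 : N + i + (s + 1) = N + (i + (s + 1)) := by ring
      rw [e1, e2] at hq2
      exact hq2
    | zero => exact ⟨0, Submodule.zero_mem _, rel_zero _ _ _ _ _⟩
    | add p p' _ _ h h' =>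
      obtain ⟨q, hq, hr⟩ := h
      obtain ⟨q', hq', hr'⟩ := h'
      exact ⟨q + q', Submodule.add_mem _ hq hq', rel_add _ _ _ _ _ hr hr'⟩
    | smul k p _ h =>
      obtain ⟨q, hq, hr⟩ := h
      exact ⟨tau.symm k • q, Submodule.smul_mem _ _ hq, rel_smul _ _ _ _ _ k hr⟩
  have hnil : ((fun u => if u.1 = [] then 1 else 0 : S0 → KK), (0 : S1 → KK)) ∈ J i := by
    refine Submodule.subset_span ?_
    refine ⟨fun u => if u.1 = [] then 1 else 0, 0, fun u => ?_, fun v => ?_,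
      fun j hj1 hj v => ?_, ?_⟩
    · show (if u.1 = [] then (1 : ℚ[X]) else 0).natDegree ≤ _
      split_ifs <;> simp
    · simp
    · have e : ∀ u : S0, ((if u.1 = [] then 1 else 0 : ℚ[X])).eval (j : ℚ) * c u v j = 0 := by
        intro u
        by_cases hu : u.1 = []
        · rw [if_pos hu, hu, hc0, mul_zero]
        · rw [if_neg hu, eval_zero, zero_mul]
      rw [Finset.sum_eq_zero fun u _ => e u]
      simp
    · refine Prod.ext ?_ ?_
      · funext u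
        show (if u.1 = [] then (1 : KK) else 0) =
          algebraMap ℚ[X] KK (if u.1 = [] then 1 else 0)
        split_ifs
        · rw [map_one]
        · rw [map_zero]
      · funext v
        show (0 : KK) = algebraMap ℚ[X] KK ((0 : S1 → ℚ[X]) v)
        rw [Pi.zero_apply, map_zero]
  have hne : ∃ p ∈ J i, p.1 ⟨v0 ++ [1], hmem⟩ ≠ 0 := by
    refine ⟨(fun u => algebraMap ℚ[X] KK (a u), fun v => algebraMap ℚ[X] KK (b v)), ?_, ?_⟩
    · refine Submodule.subset_span ?_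
      have h0 : ((fun u => algebraMap ℚ[X] KK (a u), fun v => algebraMap ℚ[X] KK (b v)) :
          (S0 → KK) × (S1 → KK)) ∈ QU S0 S1 c (2 * N) (N / 2 + 1) N :=
        ⟨a, b, haN, hb1, fun j hj1 hj v => hb2 v j hj1 hj, rfl⟩
      exact QU_mono (by omega) (by omega) h0
    · intro h
      exact hane ((map_eq_zero_iff _ (IsFractionRing.injective ℚ[X] KK)).1 h)
  have hRx0 : (fun u v => (R u v).eval₂ (algebraMap ℚ KK) xx⁻¹) [] [] = 0 := by
    show (R [] []).eval₂ (algebraMap ℚ KK) xx⁻¹ = 0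
    rw [hR0, eval₂_zero]
  have hRx1 : ∀ b, [b] ∈ S0 → (fun u v => (R u v).eval₂ (algebraMap ℚ KK) xx⁻¹) [b] [] =
      if b = 1 then xx⁻¹ else 0 := by
    intro b hb
    show (R [b] []).eval₂ (algebraMap ℚ KK) xx⁻¹ = _
    rw [hR1 b hb]
    split_ifs
    · rw [eval₂_X]
    · rw [eval₂_zero]
  obtain ⟨ρ, hρ⟩ := exists_retr tau.symm
  have hfinal := lemV tau.symm xx noSolU ρ hρ S0 S1 hS0 hS1 hp0 hp1 h1
    (fun u v => (R u v).eval₂ (algebraMap ℚ KK) xx⁻¹) 1 v0 hRx0 hRx1 hv0 hmem (J i) hst hnil hne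
  have := hfin i hiN
  omega

end Pool.MZExp
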