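import Pool.Agent.Lib.MZExp.ZDefs

/-! MP_301213_nt, exponential growth of `dim Z_k`, ZERO ESTIMATE, module `ZUnip` (80 lines).

ONLY MATHLIB + ZDefs. `Tm x S = 1 + Dm x S` is invertible: `Dm x S` is nilpotent.
PROOF. Induction on `k`: `(Dm x S ^ k) u w ≠ 0` implies `w.1.length = u.1.length + k`
(`pow_succ`, `Matrix.mul_apply`, a nonzero sum has a nonzero term; `Dm x S u w ≠ 0` implies
`w = w.headI :: u`, so `length w = length u + 1`). With `k` larger than all lengths of words of `S`
(`S.sup List.length + 1`) the power is `0`, so `IsNilpotent (Dm x S)`, and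
`IsNilpotent.isUnit_one_add`. The other statements: `Tm_mulVec`, `Tm_vecMul` unfold the definition:
`(1 + D) *ᵥ f = f + D *ᵥ f`. -/

open Polynomial

namespace Pool.MZExp

private theorem zunip_pow {K : Type*} [Field K] (x : K) (S : Finset (List ℕ)) (k : ℕ) :
    ∀ u w : S, (Dm x S ^ k) u w ≠ 0 → w.1.length = u.1.length + k := by
  induction k with
  | zero =>
    intro u w h
    rw [pow_zero, Matrix.one_apply] at h
    have h1 : u = w := by
      by_contra h2
      exact h (if_neg h2)
    rw [h1, add_zero]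
  | succ k ih =>
    intro u w h
    rw [pow_succ, Matrix.mul_apply] at h
    obtain ⟨v, -, hv⟩ := Finset.exists_ne_zero_of_sum_ne_zero h
    have h1 := ih u v (left_ne_zero_of_mul hv)
    have h2 : Dm x S v w ≠ 0 := right_ne_zero_of_mul hv
    have h3 : w.1 = w.1.headI :: v.1 := by
      by_contra h4
      exact h2 (if_neg h4)
    rw [h3, List.length_cons, h1, add_assoc]

theorem Tm_isUnit {K : Type*} [Field K] (x : K) (S : Finset (List ℕ)) : IsUnit (Tm x S) := by
  have h : IsNilpotent (Dm x S) := by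
    refine ⟨S.sup List.length + 1, ?_⟩
    ext u w
    rw [Matrix.zero_apply]
    by_contra h1
    have h2 := zunip_pow x S _ u w h1
    have h3 : w.1.length ≤ S.sup List.length := Finset.le_sup w.2
    omega
  exact h.isUnit_one_add

theorem Tm_mulVec {K : Type*} [Field K] (x : K) (S : Finset (List ℕ)) (f : S → K) (u : S) :
    (Tm x S).mulVec f u = f u +
      ∑ w : S, (if w.1 = w.1.headI :: u.1 then (-x⁻¹) ^ w.1.headI else 0) * f w := by
  unfold Tm
  rw [Matrix.add_mulVec, Matrix.one_mulVec, Pi.add_apply]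
  rfl

theorem Tm_vecMul_nil {K : Type*} [Field K] (x : K) (S : Finset (List ℕ)) (f : S → K) (v : S)
    (hv : v.1 = []) : Matrix.vecMul f (Tm x S) v = f v := by
  unfold Tm
  rw [Matrix.vecMul_add, Matrix.vecMul_one, Pi.add_apply]
  have h : Matrix.vecMul f (Dm x S) v = ∑ u : S, f u * Dm x S u v := rfl
  rw [h, Finset.sum_eq_zero, add_zero]
  intro u _
  have h1 : Dm x S u v = 0 := by
    refine if_neg ?_
    rw [hv]
    exact List.cons_ne_nil _ _ |>.symm
  rw [h1, mul_zero]

theorem Tm_vecMul_cons {K : Type*} [Field K] (x : K) (S : Finset (List ℕ)) (f : S → K) (v v' : S)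
    (l : ℕ) (hv : v.1 = l :: v'.1) :
    Matrix.vecMul f (Tm x S) v = f v + (-x⁻¹) ^ l * f v' := by
  unfold Tm
  rw [Matrix.vecMul_add, Matrix.vecMul_one, Pi.add_apply]
  have h : Matrix.vecMul f (Dm x S) v = ∑ u : S, f u * Dm x S u v := rfl
  have h0 : v.1.headI = l := by
    rw [hv]
    rfl
  rw [h, Finset.sum_eq_single v']
  · have h1 : Dm x S v' v = (-x⁻¹) ^ l := by
      have h2 : Dm x S v' v = (-x⁻¹) ^ v.1.headI := by
        refine if_pos ?_
        rw [h0, hv]
      rw [h2, h0]
    rw [h1, mul_comm]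
  · intro u _ hu
    have h1 : Dm x S u v = 0 := by
      refine if_neg ?_
      rw [h0, hv]
      intro h2
      exact hu (Subtype.ext (List.cons.inj h2).2.symm)
    rw [h1, mul_zero]
  · intro h1
    exact absurd (Finset.mem_univ _) h1

end Pool.MZExp
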