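import Pool.Agent.Lib.MZExp.VDefs
import Pool.Agent.Lib.MZExp.ZUnip

/-! MP_301213_nt, EXPONENT 1/3, module `VCon` (220 lines): subspaces stable under `G`.

Write `G f = Tm x S *ᵥ (τ ∘ f)`, `y = -x⁻¹`, `D_I = dI S I`: `(D_I f) u = f (I ++ u)`. By `Tm_mulVec`
`(G f) u = τ (f u) + ∑_(w = a :: u ∈ S) y^a τ (f w)`; as `S` is closed under tails,
`D_I (G f) = τ ∘ (D_I f) + ∑_a y^a τ ∘ (D_(a::I) f)` (a sum over `a < L`, `L` larger than all first letters
of words of `S`; `D_(a::I) f = 0` for the other `a`; the word `w = a :: I ++ u` is in `S` only if `I ++ u`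
is), and `D_(b::I) = D_I ∘ D_b` (`D_b = D_[b]`; if `b :: I ++ u ∈ S` then `I ++ u ∈ S`).
`<lam, f> = ∑ u, lam u * f u`; `lam` is called invariant if `τ (lam u) = lam u` for all `u`; then
`<lam, τ ∘ f> = τ <lam, f>`.

PROOF, induction on `n = finrank K A` (for all `A`). If `A = ⊥`: (i), (ii) are clear (`ρ 0 = 0`), (iii)
`h u ≠ 0` for some `u`, `lam = Pi.single u 1`.
Let `A ≠ ⊥`. Choose `w ∈ S` of maximal length such that `f w ≠ 0` for some `f ∈ A`; multiply: `f w = 1`.
All elements of `A` vanish on words longer than `w`. `A'' = {f ∈ A | f w = 0}` (`A ⊓ ker (proj w)`) is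
stable: `(G f) w = τ (f w) + ∑ (values at longer words) = 0`. `finrank A'' < finrank A` (`A'' < A`,
`Submodule.finrank_lt_finrank_of_lt`), so (i), (ii), (iii) hold for `A''`. `g = G f - f ∈ A''`
(`(G f) w = τ 1 = 1`).
CLAIM: for all `I`: (a) `τ ∘ (D_I f) - D_I f ∈ A''`, (b) for all `a`: `D_(a::I) f ∈ A''`.
Downward induction on the length of `I` (i.e. induction on `m` for all `I` with `I.length + m > `
maximal length in `S`; if `I` is longer than all words then `D_I f = 0`). Assume (a) for all `a :: I`. Let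
`lam` be invariant with `<lam, A''> = 0`. `D_I g ∈ A''` by (i), so
`0 = <lam, D_I g> = τ <lam, D_I f> - <lam, D_I f> + ∑_a y^a τ <lam, D_(a::I) f>`. By (a) for `a :: I`:
`τ <lam, D_(a::I) f> = <lam, D_(a::I) f> =: κ_a`, invariant, `κ_a = 0` for `a = 0` (letters `≥ 1`) and
`a ≥ L`. `hNo` with `A := <lam, D_I f>` gives `κ = 0`. So every invariant `lam ⊥ A''` kills
`D_(a::I) f`: by (iii) for `A''` `D_(a::I) f ∈ A''` (b). And then `τ <lam, D_I f> = <lam, D_I f>`, i.e.
`<lam, τ ∘ D_I f - D_I f> = 0` for all these `lam`: (a) by (iii).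
With `I = []` (`D_[] f = f`): `τ ∘ f - f ∈ A''`, `D_a f ∈ A''`.
(i) for `A`: `A = A'' + K f` (`h = (h - h w • f) + h w • f`), `D_a` is `K`-linear, so `D_a A ⊆ A`, and
`D_(b::I) = D_I ∘ D_b` (induction on `I`).
(ii) `f0 = ρ ∘ f`: for invariant `lam ⊥ A''`: `<lam, f>` is invariant (by (a)), so
`<lam, f - ρ ∘ f> = <lam, f> - ρ <lam, f> = <lam, f> - <lam, f> ρ 1 = 0` (`ρ` is additive and commutes
with multiplication by invariants); by (iii) for `A''`: `f - f0 ∈ A''`, `f0 ∈ A`, `f0 w = ρ 1 = 1`.
For `h ∈ A`: `h = c f0 + h''`, `c = h w`, `h'' = h - c f0 ∈ A''`: `ρ ∘ h = ρ (c) f0 + ρ ∘ h''`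
(`ρ (c * f0 u) = f0 u * ρ c`, `f0 u` invariant), in `A` by (ii) for `A''`.
(iii) `h ∉ A`: `h' = h - h w • f0 ∉ A''` (`f0 ∈ A`); (iii) for `A''` gives `lam1`, `<lam1, h'> ≠ 0`;
`lam = lam1 - <lam1, f0> • Pi.single w 1` is invariant, kills `A''` and `f0`, hence `A`;
`<lam, h> = <lam, h'> = <lam1, h'> ≠ 0` since `h' w = 0`. -/

open Polynomial

namespace Pool.MZExp

section

variable {K : Type*} [Field K] {S : Finset (List ℕ)}

private def vcp (lam f : S → K) : K := ∑ u, lam u * f u

private theorem vcp_add (lam f g : S → K) : vcp lam (f + g) = vcp lam f + vcp lam g := by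
  unfold vcp
  rw [← Finset.sum_add_distrib]
  exact Finset.sum_congr rfl fun u _ => by rw [Pi.add_apply, mul_add]

private theorem vcp_sub (lam f g : S → K) : vcp lam (f - g) = vcp lam f - vcp lam g := by
  unfold vcp
  rw [← Finset.sum_sub_distrib]
  exact Finset.sum_congr rfl fun u _ => by rw [Pi.sub_apply, mul_sub]

private theorem vcp_smul (lam : S → K) (c : K) (f : S → K) : vcp lam (c • f) = c * vcp lam f := by
  unfold vcp
  rw [Finset.mul_sum]
  exact Finset.sum_congr rfl fun u _ => by rw [Pi.smul_apply, smul_eq_mul]; ring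

private theorem vcp_tau (τ : K ≃+* K) {lam : S → K} (h : ∀ u, τ (lam u) = lam u) (f : S → K) :
    vcp lam (fun u => τ (f u)) = τ (vcp lam f) := by
  unfold vcp
  rw [map_sum]
  exact Finset.sum_congr rfl fun u _ => by rw [map_mul, h u]

private theorem dI_nil (f : S → K) : dI S [] f = f := by
  funext u
  unfold dI
  rw [dif_pos (show [] ++ u.1 ∈ S from u.2)]
  rfl

private theorem dI_cons (hS : ∀ a l, a :: l ∈ S → l ∈ S) (b : ℕ) (I : List ℕ) (f : S → K) :
    dI S (b :: I) f = dI S I (dI S [b] f) := by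
  funext u
  unfold dI
  by_cases h : (b :: I) ++ u.1 ∈ S
  · have h1 : I ++ u.1 ∈ S := hS b _ h
    rw [dif_pos h, dif_pos h1, dif_pos (show [b] ++ (I ++ u.1) ∈ S from h)]
    rfl
  · rw [dif_neg h]
    by_cases h1 : I ++ u.1 ∈ S
    · rw [dif_pos h1, dif_neg (show ¬ [b] ++ (I ++ u.1) ∈ S from h)]
    · rw [dif_neg h1]

private theorem dI_add (I : List ℕ) (f g : S → K) : dI S I (f + g) = dI S I f + dI S I g := by
  funext u
  rw [Pi.add_apply]
  unfold dI
  split_ifs
  · rfl
  · rw [add_zero]

private theorem dI_smul (I : List ℕ) (c : K) (f : S → K) : dI S I (c • f) = c • dI S I f := by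
  funext u
  rw [Pi.smul_apply]
  unfold dI
  split_ifs
  · rfl
  · rw [smul_zero]

private theorem dI_sub (I : List ℕ) (f g : S → K) : dI S I (f - g) = dI S I f - dI S I g := by
  funext u
  rw [Pi.sub_apply]
  unfold dI
  split_ifs
  · rfl
  · rw [sub_zero]

private theorem dI_long {I : List ℕ} (h : S.sup List.length < I.length) (f : S → K) :
    dI S I f = 0 := by
  funext u
  unfold dI
  rw [dif_neg]
  · rfl
  · intro h1
    have h2 : (I ++ u.1).length ≤ S.sup List.length := Finset.le_sup (f := List.length) h1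
    rw [List.length_append] at h2
    omega

private theorem dI_big {a : ℕ} {I : List ℕ} (h : S.sup List.headI < a) (f : S → K) :
    dI S (a :: I) f = 0 := by
  funext u
  unfold dI
  rw [dif_neg]
  · rfl
  · intro h1
    have h2 : (a :: I ++ u.1).headI ≤ S.sup List.headI := Finset.le_sup (f := List.headI) h1
    have h3 : (a :: I ++ u.1).headI = a := rfl
    omega

private theorem dI_zero (hp : ∀ l ∈ S, ∀ a ∈ l, 1 ≤ a) (I : List ℕ) (f : S → K) :
    dI S (0 :: I) f = 0 := by
  funext u
  unfold dI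
  rw [dif_neg]
  · rfl
  · intro h1
    have := hp _ h1 0 (by simp)
    omega

private noncomputable def vcG (τ : K ≃+* K) (x : K) (f : S → K) : S → K :=
  (Tm x S).mulVec (fun u => τ (f u))

private theorem dI_G (hS : ∀ a l, a :: l ∈ S → l ∈ S) (τ : K ≃+* K) (x : K) (I : List ℕ)
    (f : S → K) (u : S) :
    dI S I (vcG τ x f) u = τ (dI S I f u) +
      ∑ a ∈ Finset.range (S.sup List.headI + 1), (-x⁻¹) ^ a * τ (dI S (a :: I) f u) := by
  classical
  by_cases h : I ++ u.1 ∈ S
  · have h1 : dI S I (vcG τ x f) u = vcG τ x f ⟨I ++ u.1, h⟩ := by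
      unfold dI
      rw [dif_pos h]
    have h2 : dI S I f u = f ⟨I ++ u.1, h⟩ := by
      unfold dI
      rw [dif_pos h]
    rw [h1, h2]
    unfold vcG
    rw [Tm_mulVec]
    congr 1
    have h3 : ∀ w : S, (if w.1 = w.1.headI :: (I ++ u.1) then (-x⁻¹) ^ w.1.headI else 0) * τ (f w) =
        ∑ a ∈ Finset.range (S.sup List.headI + 1),
          (if w.1 = a :: (I ++ u.1) then (-x⁻¹) ^ a * τ (f w) else 0) := by
      intro w
      by_cases hw : w.1 = w.1.headI :: (I ++ u.1)
      · rw [if_pos hw, Finset.sum_eq_single w.1.headI]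
        · rw [if_pos hw]
        · intro a _ ha
          rw [if_neg]
          intro h4
          apply ha
          rw [h4]
          rfl
        · intro h4
          exfalso
          apply h4
          rw [Finset.mem_range]
          have : w.1.headI ≤ S.sup List.headI := Finset.le_sup (f := List.headI) w.2
          omega
      · rw [if_neg hw, zero_mul]
        symm
        apply Finset.sum_eq_zero
        intro a _
        rw [if_neg]
        intro h4
        apply hw
        rw [h4]
        rfl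
    rw [Finset.sum_congr rfl fun w _ => h3 w, Finset.sum_comm]
    refine Finset.sum_congr rfl fun a _ => ?_
    unfold dI
    by_cases h4 : a :: I ++ u.1 ∈ S
    · rw [dif_pos h4, Finset.sum_eq_single ⟨a :: I ++ u.1, h4⟩]
      · rw [if_pos]
        rfl
      · intro w _ hw
        rw [if_neg]
        intro h5
        exact hw (Subtype.ext h5)
      · intro h5
        exact absurd (Finset.mem_univ _) h5
    · rw [dif_neg h4, map_zero, mul_zero]
      apply Finset.sum_eq_zero
      intro w _
      rw [if_neg]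
      intro h5
      apply h4
      have h6 := w.2
      rw [h5] at h6
      exact h6
  · have h1 : dI S I (vcG τ x f) u = 0 := by
      unfold dI
      rw [dif_neg h]
    have h2 : dI S I f u = 0 := by
      unfold dI
      rw [dif_neg h]
    rw [h1, h2, map_zero, zero_add]
    symm
    apply Finset.sum_eq_zero
    intro a _
    have h3 : dI S (a :: I) f u = 0 := by
      unfold dI
      rw [dif_neg]
      intro h4
      exact h (hS a _ h4)
    rw [h3, map_zero, mul_zero]

private def vcC (τ : K ≃+* K) (ρ : K → K) (A : Submodule K (S → K)) : Prop :=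
  (∀ I : List ℕ, ∀ f ∈ A, dI S I f ∈ A) ∧
    (∀ f ∈ A, (fun u => ρ (f u)) ∈ A) ∧
    (∀ h : S → K, h ∉ A → ∃ lam : S → K, (∀ u, τ (lam u) = lam u) ∧
      (∀ f ∈ A, vcp lam f = 0) ∧ vcp lam h ≠ 0)

private theorem retr_zero {τ : K ≃+* K} {ρ : K → K} (hρ : Retr τ ρ) : ρ 0 = 0 := by
  have h := hρ.add 0 0
  rw [add_zero] at h
  exact left_eq_add.1 h

private theorem vcp_rho {τ : K ≃+* K} {ρ : K → K} (hρ : Retr τ ρ) {lam : S → K}
    (h : ∀ u, τ (lam u) = lam u) (f : S → K) : vcp lam (fun u => ρ (f u)) = ρ (vcp lam f) := by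
  classical
  unfold vcp
  have key : ∀ s : Finset S, ρ (∑ u ∈ s, lam u * f u) = ∑ u ∈ s, lam u * ρ (f u) := by
    intro s
    induction s using Finset.induction_on with
    | empty =>
      rw [Finset.sum_empty, Finset.sum_empty]
      exact retr_zero hρ
    | insert a s ha ih =>
      rw [Finset.sum_insert ha, Finset.sum_insert ha, hρ.add, ih, hρ.smul _ _ (h a)]
  exact (key _).symm

private theorem vcC_bot (τ : K ≃+* K) {ρ : K → K} (hρ : Retr τ ρ) :
    vcC τ ρ (⊥ : Submodule K (S → K)) := by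
  classical
  refine ⟨?_, ?_, ?_⟩
  · intro I f hf
    rw [Submodule.mem_bot] at hf ⊢
    rw [hf]
    funext u
    unfold dI
    split_ifs <;> rfl
  · intro f hf
    rw [Submodule.mem_bot] at hf ⊢
    rw [hf]
    funext u
    exact retr_zero hρ
  · intro h hh
    rw [Submodule.mem_bot] at hh
    obtain ⟨u, hu⟩ : ∃ u, h u ≠ 0 := by
      by_contra hcon
      push Not at hcon
      exact hh (funext hcon)
    refine ⟨fun v => if v = u then 1 else 0, ?_, ?_, ?_⟩
    · intro v
      show τ (if v = u then 1 else 0) = if v = u then 1 else 0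
      split_ifs
      · exact map_one τ
      · exact map_zero τ
    · intro f hf
      rw [Submodule.mem_bot] at hf
      rw [hf]
      unfold vcp
      simp
    · unfold vcp
      simp only [ite_mul, one_mul, zero_mul, Finset.sum_ite_eq', Finset.mem_univ, if_true]
      exact hu

private theorem vcC_step (τ : K ≃+* K) (x : K) (hNo : NoSol τ x) {ρ : K → K} (hρ : Retr τ ρ)
    (hS : ∀ a l, a :: l ∈ S → l ∈ S) (hp : ∀ l ∈ S, ∀ a ∈ l, 1 ≤ a)
    (B : Submodule K (S → K)) (hB : vcC τ ρ B) (f : S → K) (hf : vcG τ x f - f ∈ B) :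
    ∀ m : ℕ, ∀ I : List ℕ, S.sup List.length < I.length + m →
      ((fun u => τ (dI S I f u)) - dI S I f ∈ B) ∧ ∀ a, dI S (a :: I) f ∈ B := by
  obtain ⟨hB1, -, hB3⟩ := hB
  have hsep : ∀ h : S → K, (∀ lam : S → K, (∀ u, τ (lam u) = lam u) → (∀ f ∈ B, vcp lam f = 0) →
      vcp lam h = 0) → h ∈ B := by
    intro h hh
    by_contra hcon
    obtain ⟨lam, h1, h2, h3⟩ := hB3 h hcon
    exact h3 (hh lam h1 h2)
  intro m
  induction m with
  | zero =>
    intro I hI
    rw [add_zero] at hI
    have h1 : dI S I f = 0 := dI_long hI f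
    refine ⟨?_, fun a => ?_⟩
    · rw [h1]
      have : (fun u : S => τ ((0 : S → K) u)) - (0 : S → K) = 0 := by
        funext u
        rw [Pi.sub_apply, Pi.zero_apply, map_zero, sub_zero]
      rw [this]
      exact B.zero_mem
    · have h2 : dI S (a :: I) f = 0 := dI_long (by rw [List.length_cons]; omega) f
      rw [h2]
      exact B.zero_mem
  | succ m ih =>
    intro I hI
    have key : ∀ lam : S → K, (∀ u, τ (lam u) = lam u) → (∀ f ∈ B, vcp lam f = 0) →
        τ (vcp lam (dI S I f)) = vcp lam (dI S I f) ∧ ∀ a, vcp lam (dI S (a :: I) f) = 0 := by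
      intro lam hlam1 hlam2
      have hinv : ∀ a, τ (vcp lam (dI S (a :: I) f)) = vcp lam (dI S (a :: I) f) := by
        intro a
        have h1 := hlam2 _ (ih (a :: I) (by rw [List.length_cons]; omega)).1
        rw [vcp_sub, vcp_tau τ hlam1] at h1
        exact sub_eq_zero.1 h1
      have hκ0 : ∀ a, τ (vcp lam (dI S (a :: I) f)) ≠ 0 →
          a ∈ Finset.range (S.sup List.headI + 1) := by
        intro a ha
        rw [Finset.mem_range]
        by_contra hcon
        apply ha
        rw [dI_big (by omega) f]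
        unfold vcp
        simp
      obtain ⟨κ, hκ⟩ : ∃ κ : ℕ →₀ K, κ = Finsupp.onFinset (Finset.range (S.sup List.headI + 1))
        (fun a => τ (vcp lam (dI S (a :: I) f))) hκ0 := ⟨_, rfl⟩
      have hκa : ∀ a, κ a = τ (vcp lam (dI S (a :: I) f)) := by
        intro a
        rw [hκ, Finsupp.onFinset_apply]
      have hsum : κ.sum (fun m k => k * (-x⁻¹) ^ m) =
          ∑ a ∈ Finset.range (S.sup List.headI + 1),
            τ (vcp lam (dI S (a :: I) f)) * (-x⁻¹) ^ a := by
        rw [hκ]
        exact Finsupp.onFinset_sum _ fun a => zero_mul _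
      have h0 : vcp lam (dI S I (vcG τ x f - f)) = 0 := hlam2 _ (hB1 I _ hf)
      rw [dI_sub, vcp_sub] at h0
      have h1 : vcp lam (dI S I (vcG τ x f)) = τ (vcp lam (dI S I f)) +
          ∑ a ∈ Finset.range (S.sup List.headI + 1),
            τ (vcp lam (dI S (a :: I) f)) * (-x⁻¹) ^ a := by
        have h2 : dI S I (vcG τ x f) = (fun u => τ (dI S I f u)) +
            ∑ a ∈ Finset.range (S.sup List.headI + 1), (-x⁻¹) ^ a • (fun u => τ (dI S (a :: I) f u)) := by
          funext u
          rw [dI_G hS, Pi.add_apply, Finset.sum_apply]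
          rfl
        rw [h2, vcp_add, vcp_tau τ hlam1]
        congr 1
        have h3 : ∀ s : Finset ℕ, vcp lam (∑ a ∈ s, (-x⁻¹) ^ a • (fun u => τ (dI S (a :: I) f u))) =
            ∑ a ∈ s, τ (vcp lam (dI S (a :: I) f)) * (-x⁻¹) ^ a := by
          intro s
          classical
          induction s using Finset.induction_on with
          | empty =>
            rw [Finset.sum_empty, Finset.sum_empty]
            unfold vcp
            simp
          | insert a s ha ihs =>
            rw [Finset.sum_insert ha, Finset.sum_insert ha, vcp_add, ihs, vcp_smul,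
              vcp_tau τ hlam1, mul_comm]
        exact h3 _
      rw [h1] at h0
      have h2 : κ = 0 := by
        refine hNo κ (vcp lam (dI S I f)) ?_ ?_ ?_
        · intro a
          rw [hκa, hinv, hinv]
        · rw [hκa, dI_zero hp]
          unfold vcp
          simp
        · rw [hsum]
          linear_combination -h0
      have h3 : ∀ a, vcp lam (dI S (a :: I) f) = 0 := by
        intro a
        have h4 := hκa a
        rw [h2, Finsupp.zero_apply] at h4
        exact (map_eq_zero_iff τ τ.injective).1 h4.symm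
      refine ⟨?_, h3⟩
      rw [Finset.sum_eq_zero (fun a _ => by rw [h3 a, map_zero, zero_mul]), add_zero] at h0
      exact sub_eq_zero.1 h0
    refine ⟨hsep _ fun lam h1 h2 => ?_, fun a => hsep _ fun lam h1 h2 => (key lam h1 h2).2 a⟩
    rw [vcp_sub, vcp_tau τ h1, (key lam h1 h2).1, sub_self]

private theorem vcC_all (τ : K ≃+* K) (x : K) (hNo : NoSol τ x) {ρ : K → K} (hρ : Retr τ ρ)
    (hS : ∀ a l, a :: l ∈ S → l ∈ S) (hp : ∀ l ∈ S, ∀ a ∈ l, 1 ≤ a) :
    ∀ n : ℕ, ∀ A : Submodule K (S → K), Module.finrank K A ≤ n → (∀ f ∈ A, vcG τ x f ∈ A) →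
      vcC τ ρ A := by
  classical
  intro n
  induction n with
  | zero =>
    intro A hn _
    have h1 : A = ⊥ := Submodule.finrank_eq_zero.1 (Nat.le_zero.1 hn)
    rw [h1]
    exact vcC_bot τ hρ
  | succ n ih =>
    intro A hn hA
    rcases eq_or_ne A ⊥ with hbot | hbot
    · rw [hbot]
      exact vcC_bot τ hρ
    -- the word `w`
    have hne : (Finset.univ.filter (fun w : S => ∃ f ∈ A, f w ≠ 0)).Nonempty := by
      obtain ⟨f, hf, hf0⟩ := Submodule.exists_mem_ne_zero_of_ne_bot hbot
      obtain ⟨w, hw⟩ : ∃ w, f w ≠ 0 := by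
        by_contra hcon
        push Not at hcon
        exact hf0 (funext hcon)
      exact ⟨w, Finset.mem_filter.2 ⟨Finset.mem_univ _, f, hf, hw⟩⟩
    obtain ⟨w, hw, hmax⟩ := Finset.exists_max_image _ (fun w : S => w.1.length) hne
    obtain ⟨f', hf', hf'w⟩ := (Finset.mem_filter.1 hw).2
    have hlong : ∀ f ∈ A, ∀ v : S, w.1.length < v.1.length → f v = 0 := by
      intro f hf v hv
      by_contra hcon
      have := hmax v (Finset.mem_filter.2 ⟨Finset.mem_univ _, f, hf, hcon⟩)
      have h2 : v.1.length ≤ w.1.length := this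
      omega
    obtain ⟨f, hfA, hfw⟩ : ∃ f ∈ A, f w = 1 :=
      ⟨(f' w)⁻¹ • f', A.smul_mem _ hf', by rw [Pi.smul_apply, smul_eq_mul, inv_mul_cancel₀ hf'w]⟩
    -- `A''`
    obtain ⟨B, hBdef⟩ : ∃ B : Submodule K (S → K), B = A ⊓ LinearMap.ker (LinearMap.proj w) := ⟨_, rfl⟩
    have hBmem : ∀ g : S → K, g ∈ B ↔ g ∈ A ∧ g w = 0 := by
      intro g
      rw [hBdef, Submodule.mem_inf, LinearMap.mem_ker]
      rfl
    have hGw : ∀ g ∈ A, vcG τ x g w = τ (g w) := by
      intro g hg
      unfold vcG
      rw [Tm_mulVec, Finset.sum_eq_zero, add_zero]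
      intro v _
      by_cases hv : v.1 = v.1.headI :: w.1
      · have h1 : w.1.length < v.1.length := by
          rw [hv, List.length_cons]
          omega
        rw [hlong g hg v h1, map_zero, mul_zero]
      · rw [if_neg hv, zero_mul]
    have hBst : ∀ g ∈ B, vcG τ x g ∈ B := by
      intro g hg
      rw [hBmem] at hg ⊢
      refine ⟨hA g hg.1, ?_⟩
      rw [hGw g hg.1, hg.2, map_zero]
    have hBlt : B < A := by
      refine lt_of_le_of_ne ?_ ?_
      · rw [hBdef]
        exact inf_le_left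
      · intro h
        rw [← h, hBmem, hfw] at hfA
        exact one_ne_zero hfA.2
    have hBn : Module.finrank K B ≤ n := by
      have := Submodule.finrank_lt_finrank_of_lt hBlt
      omega
    have hBC := ih B hBn hBst
    have hg : vcG τ x f - f ∈ B := by
      rw [hBmem]
      refine ⟨A.sub_mem (hA f hfA) hfA, ?_⟩
      rw [Pi.sub_apply, hGw f hfA, hfw, map_one, sub_self]
    have hcl := vcC_step τ x hNo hρ hS hp B hBC f hg (S.sup List.length + 1) [] (by
      rw [List.length_nil]
      omega)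
    rw [dI_nil] at hcl
    obtain ⟨hcl1, hcl2⟩ := hcl
    obtain ⟨hB1, hB2, hB3⟩ := hBC
    have hBA : B ≤ A := hBlt.le
    have hdec : ∀ h ∈ A, h - h w • f ∈ B := by
      intro h hh
      rw [hBmem]
      refine ⟨A.sub_mem hh (A.smul_mem _ hfA), ?_⟩
      rw [Pi.sub_apply, Pi.smul_apply, hfw, smul_eq_mul, mul_one, sub_self]
    -- `ρ f`
    obtain ⟨f0, hf0⟩ : ∃ f0 : S → K, f0 = fun u => ρ (f u) := ⟨_, rfl⟩
    have hff0 : f - f0 ∈ B := by
      by_contra hcon
      obtain ⟨lam, h1, h2, h3⟩ := hB3 _ hcon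
      apply h3
      have h4 := h2 _ hcl1
      rw [vcp_sub, vcp_tau τ h1] at h4
      have h5 := sub_eq_zero.1 h4
      rw [vcp_sub, hf0, vcp_rho hρ h1]
      have h6 : ρ (vcp lam f) = vcp lam f := by
        have := hρ.smul (vcp lam f) 1 h5
        rw [mul_one, hρ.one, mul_one] at this
        exact this
      rw [h6, sub_self]
    have hf0A : f0 ∈ A := by
      have := A.sub_mem hfA (hBA hff0)
      rwa [sub_sub_cancel] at this
    have hf0w : f0 w = 1 := by
      rw [hf0]
      show ρ (f w) = 1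
      rw [hfw, hρ.one]
    have hf0inv : ∀ u, τ (f0 u) = f0 u := by
      intro u
      rw [hf0]
      exact hρ.inv _
    have hdec0 : ∀ h ∈ A, h - h w • f0 ∈ B := by
      intro h hh
      rw [hBmem]
      refine ⟨A.sub_mem hh (A.smul_mem _ hf0A), ?_⟩
      rw [Pi.sub_apply, Pi.smul_apply, hf0w, smul_eq_mul, mul_one, sub_self]
    refine ⟨?_, ?_, ?_⟩
    · -- (i)
      have h1 : ∀ b, ∀ h ∈ A, dI S [b] h ∈ A := by
        intro b h hh
        have h2 : h = (h - h w • f) + h w • f := (sub_add_cancel _ _).symm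
        rw [h2, dI_add, dI_smul]
        exact A.add_mem (hBA (hB1 [b] _ (hdec h hh))) (A.smul_mem _ (hBA (hcl2 b)))
      intro I
      induction I with
      | nil =>
        intro h hh
        rw [dI_nil]
        exact hh
      | cons b I ihI =>
        intro h hh
        rw [dI_cons hS]
        exact ihI _ (h1 b h hh)
    · -- (ii)
      intro h hh
      have h1 : (fun u => ρ (h u)) = (fun u => ρ ((h - h w • f0) u)) + ρ (h w) • f0 := by
        funext u
        rw [Pi.add_apply, Pi.smul_apply, smul_eq_mul]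
        have h2 : h u = (h - h w • f0) u + f0 u * h w := by
          rw [Pi.sub_apply, Pi.smul_apply, smul_eq_mul]
          ring
        conv_lhs => rw [h2]
        rw [hρ.add, hρ.smul _ _ (hf0inv u)]
        ring
      rw [h1]
      exact A.add_mem (hBA (hB2 _ (hdec0 h hh))) (A.smul_mem _ hf0A)
    · -- (iii)
      intro h hh
      have h1 : h - h w • f0 ∉ B := by
        intro h2
        apply hh
        have := A.add_mem (hBA h2) (A.smul_mem (h w) hf0A)
        rwa [sub_add_cancel] at this
      obtain ⟨lam1, h2, h3, h4⟩ := hB3 _ h1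
      obtain ⟨ew, hew⟩ : ∃ ew : S → K, ew = fun v => if v = w then 1 else 0 := ⟨_, rfl⟩
      have hewp : ∀ g : S → K, vcp ew g = g w := by
        intro g
        rw [hew]
        unfold vcp
        simp only [ite_mul, one_mul, zero_mul, Finset.sum_ite_eq', Finset.mem_univ, if_true]
      obtain ⟨lam, hlam⟩ : ∃ lam : S → K, lam = fun v => lam1 v - vcp lam1 f0 * ew v := ⟨_, rfl⟩
      have hlamp : ∀ g : S → K, vcp lam g = vcp lam1 g - vcp lam1 f0 * g w := by
        intro g
        rw [← hewp g, hlam]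
        unfold vcp
        rw [Finset.mul_sum, ← Finset.sum_sub_distrib]
        exact Finset.sum_congr rfl fun u _ => by ring
      refine ⟨lam, ?_, ?_, ?_⟩
      · intro u
        have h5 : τ (vcp lam1 f0) = vcp lam1 f0 := by
          rw [← vcp_tau τ h2]
          congr 1
          funext v
          exact hf0inv v
        have h6 : τ (ew u) = ew u := by
          rw [hew]
          show τ (if u = w then 1 else 0) = if u = w then 1 else 0
          split_ifs
          · exact map_one τ
          · exact map_zero τ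
        rw [hlam]
        show τ (lam1 u - vcp lam1 f0 * ew u) = lam1 u - vcp lam1 f0 * ew u
        rw [map_sub, map_mul, h2, h5, h6]
      · intro g hg
        have h5 := h3 _ (hdec0 g hg)
        rw [vcp_sub, vcp_smul] at h5
        rw [hlamp]
        linear_combination h5
      · rw [hlamp]
        rw [vcp_sub, vcp_smul] at h4
        intro h5
        apply h4
        linear_combination h5

end

theorem inv_stable {K : Type*} [Field K] (τ : K ≃+* K) (x : K) (hNo : NoSol τ x) (ρ : K → K)
    (hρ : Retr τ ρ) (S : Finset (List ℕ)) (hS : ∀ a l, a :: l ∈ S → l ∈ S)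
    (hp : ∀ l ∈ S, ∀ a ∈ l, 1 ≤ a) (A : Submodule K (S → K))
    (hA : ∀ f ∈ A, (Tm x S).mulVec (fun u => τ (f u)) ∈ A) :
    (∀ I : List ℕ, ∀ f ∈ A, dI S I f ∈ A) ∧
    (∀ f ∈ A, (fun u => ρ (f u)) ∈ A) ∧
    (∀ h : S → K, h ∉ A → ∃ lam : S → K, (∀ u, τ (lam u) = lam u) ∧
      (∀ f ∈ A, ∑ u, lam u * f u = 0) ∧ ∑ u, lam u * h u ≠ 0) :=
  vcC_all τ x hNo hρ hS hp (Module.finrank K A) A le_rfl hA

end Pool.MZExp
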