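import Pool.Agent.Lib.MZExp.XBin

/-! MODULE XComb (about 80 lines). MP_301213_nt phase 2: a finite combination of expanded functions whose first coefficients are small.

PROOF. ∑_j c_j F_j(t) = ∑_j c_j ∑_{i<V} g_j(i) e_i(t) + ∑_j c_j (F_j(t) - ∑_{i<V} g_j(i) e_i(t)). First part = ∑_{i<V} (∑_j c_j g_j(i)) e_i(t) (`Finset.sum_comm`): the terms with
i < N vanish (h0), for N ≤ i < V each is at most ε e_i(t) ≤ ε e_N(t) (ek_anti), so it is at most V ε e_N(t). Second part: each term at most Y * (C (V+1) e_V(t)). -/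

open Finset

namespace Pool.MZExp

theorem comb_bound {J : Type*} [Fintype J] (c : J → ℝ) (F : J → ℕ → ℝ) (g : J → ℕ → ℝ)
    {C ε Y : ℝ} (hC : 0 ≤ C) (hε : 0 ≤ ε) (hY : ∀ j, |c j| ≤ Y) {N V : ℕ}
    (h0 : ∀ j i, i < N → g j i = 0)
    (hF : ∀ j t, 1 ≤ t → |F j t - ∑ i ∈ range V, g j i * ek i t| ≤ C * ((V : ℝ) + 1) * ek V t)
    (hc : ∀ i, i < V → |∑ j, c j * g j i| ≤ ε) {t : ℕ} (ht : 1 ≤ t) :
    |∑ j, c j * F j t| ≤
      V * ε * ek N t + Fintype.card J * Y * (C * ((V : ℝ) + 1) * ek V t) := by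
  classical
  have hV0 : 0 ≤ ek V t := (ek_pos ht V).le
  have e1 : ∑ j, c j * F j t =
      ∑ i ∈ range V, (∑ j, c j * g j i) * ek i t +
        ∑ j, c j * (F j t - ∑ i ∈ range V, g j i * ek i t) := by
    have h1 : ∑ i ∈ range V, (∑ j, c j * g j i) * ek i t =
        ∑ j, c j * ∑ i ∈ range V, g j i * ek i t := by
      simp only [Finset.sum_mul, Finset.mul_sum]
      rw [Finset.sum_comm]
      refine Finset.sum_congr rfl fun j _ => Finset.sum_congr rfl fun i _ => ?_
      ring
    rw [h1, ← Finset.sum_add_distrib]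
    refine Finset.sum_congr rfl fun j _ => ?_
    ring
  have e2 : |∑ i ∈ range V, (∑ j, c j * g j i) * ek i t| ≤ V * ε * ek N t := by
    calc |∑ i ∈ range V, (∑ j, c j * g j i) * ek i t|
        ≤ ∑ i ∈ range V, |(∑ j, c j * g j i) * ek i t| := Finset.abs_sum_le_sum_abs _ _
      _ ≤ ∑ _i ∈ range V, ε * ek N t := by
          refine Finset.sum_le_sum fun i hi => ?_
          have hi' : i < V := Finset.mem_range.mp hi
          by_cases hiN : i < N
          · have h2 : ∑ j, c j * g j i = 0 :=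
              Finset.sum_eq_zero fun j _ => by rw [h0 j i hiN, mul_zero]
            rw [h2, zero_mul, abs_zero]
            exact mul_nonneg hε (ek_pos ht N).le
          · rw [abs_mul, abs_of_pos (ek_pos ht i)]
            exact mul_le_mul (hc i hi') (ek_anti ht (not_lt.mp hiN)) (ek_pos ht i).le hε
      _ = V * ε * ek N t := by
          rw [Finset.sum_const, Finset.card_range, nsmul_eq_mul]
          ring
  have e3 : |∑ j, c j * (F j t - ∑ i ∈ range V, g j i * ek i t)| ≤
      Fintype.card J * Y * (C * ((V : ℝ) + 1) * ek V t) := by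
    calc |∑ j, c j * (F j t - ∑ i ∈ range V, g j i * ek i t)|
        ≤ ∑ j, |c j * (F j t - ∑ i ∈ range V, g j i * ek i t)| :=
          Finset.abs_sum_le_sum_abs _ _
      _ ≤ ∑ _j : J, Y * (C * ((V : ℝ) + 1) * ek V t) := by
          refine Finset.sum_le_sum fun j _ => ?_
          rw [abs_mul]
          exact mul_le_mul (hY j) (hF j t ht) (abs_nonneg _) ((abs_nonneg _).trans (hY j))
      _ = Fintype.card J * Y * (C * ((V : ℝ) + 1) * ek V t) := by
          rw [Finset.sum_const, Finset.card_univ, nsmul_eq_mul]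
          ring
  rw [e1]
  exact (abs_add_le _ _).trans (add_le_add e2 e3)

end Pool.MZExp
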