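import Mathlib

/-! MODULE XEvn (about 130 lines, ONLY MATHLIB). MP_301213_nt phase 2: numerical estimates for large N. v = Dl + 2κ + 10, δ = Dl + κ + 10, Dl ≤ 2^κ, κ ≥ 1.

PROOFS. v + 1 = Dl + 2κ + 11 ≤ 2^κ + 11 * 2^κ = 12 * 2^κ (2κ + 11 ≤ 11 * 2^κ for κ ≥ 1, induction). So (v+1) e ≤ exp(5/2) * exp(7κ/10) * e = exp(7/2 + 7κ/10): 12 ≤ exp(5/2)
(exp 1 > 2.718: exp(5/2)^2 = (exp 1)^5 > 2.718^5 = 148.3 > 144), 2 ≤ exp(7/10) (log 2 < 0.6931471808), and ((v+1)e)^N ≤ exp((7/2 + 7κ/10) N).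
* ev_a: left side ≤ (vN)^2 exp((-Dl - κ - 10 + 7/2 + 7κ/10) N) ≤ (vN)^2 exp(-6N) exp(-Dl N); (vN)^2 ≤ exp(6N) for large N (polynomial against exponential, e.g.
  `Real.tendsto_pow_mul_exp_neg_atTop_nhds_zero` or `isLittleO_pow_exp_pos_mul_atTop`).
* ev_b: (vN) N ≤ exp(N)/2 for large N.
* ev_c: 4^(vN) = exp(v log 4 N), log 4 = 2 log 2 > 1.386 (Real.log_two_gt_d9), v log 4 ≥ 1.386 Dl + 2.772 κ + 13.86. The exponents (of N) add up to κ + 7/2 + 7κ/10 - v log 4 ≤ -Dl - 10,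
  the polynomial factor c (N+1)(vN+1) 4 (vN)^3 is ≤ exp(10N)/2 for large N. -/

open Filter Topology

namespace Pool.MZExp

private theorem xevn_nat (κ : ℕ) (hκ : 1 ≤ κ) : 2 * κ + 11 ≤ 11 * 2 ^ κ := by
  induction κ, hκ using Nat.le_induction with
  | base => norm_num
  | succ n hn ih => rw [pow_succ]; omega

/-- Polynomial against exponential. -/
private theorem xevn_poly (a : ℝ) (ha : 0 < a) (c : ℝ) (k : ℕ) :
    ∀ᶠ N : ℕ in atTop, c * (N : ℝ) ^ k ≤ Real.exp (a * N) := by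
  have h := (isLittleO_pow_exp_pos_mul_atTop k ha).comp_tendsto (tendsto_natCast_atTop_atTop (R := ℝ))
  have h2 := h.def (c := 1 / (|c| + 1)) (by positivity)
  filter_upwards [h2] with N hN
  simp only [Function.comp_apply, Real.norm_eq_abs] at hN
  rw [abs_of_nonneg (by positivity), abs_of_nonneg (Real.exp_pos _).le, div_mul_eq_mul_div,
    le_div_iff₀ (by positivity), one_mul] at hN
  have h3 : c ≤ |c| + 1 := by linarith [le_abs_self c]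
  have h4 : (0 : ℝ) ≤ (N : ℝ) ^ k := by positivity
  nlinarith [mul_le_mul_of_nonneg_right h3 h4]

private theorem xevn_twelve : (12 : ℝ) ≤ Real.exp (5 / 2) := by
  have h1 : Real.exp (5 / 2) ^ 2 = Real.exp 1 ^ 5 := by
    rw [← Real.exp_nat_mul, ← Real.exp_nat_mul]
    norm_num
  have h2 : (2.718 : ℝ) < Real.exp 1 := by
    have := Real.exp_one_gt_d9
    linarith
  have h3 : (2.718 : ℝ) ^ 5 ≤ Real.exp 1 ^ 5 := by
    gcongr
  have h4 : (12 : ℝ) ^ 2 ≤ Real.exp (5 / 2) ^ 2 := by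
    rw [h1]
    refine le_trans ?_ h3
    norm_num
  exact le_of_sq_le_sq h4 (Real.exp_pos _).le

private theorem xevn_two : (2 : ℝ) ≤ Real.exp (7 / 10) := by
  have h := Real.log_two_lt_d9
  rw [← Real.log_le_iff_le_exp (by norm_num)]
  linarith

private theorem xevn_base (Dl κ : ℕ) (hκ : 1 ≤ κ) (hD : Dl ≤ 2 ^ κ) :
    (((Dl + 2 * κ + 10 : ℕ) : ℝ) + 1) * Real.exp 1 ≤ Real.exp (7 / 2 + 7 * κ / 10) := by
  have h1 : Dl + 2 * κ + 10 + 1 ≤ 12 * 2 ^ κ := by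
    have := xevn_nat κ hκ
    omega
  have h2 : (((Dl + 2 * κ + 10 : ℕ) : ℝ) + 1) ≤ 12 * 2 ^ κ := by
    exact_mod_cast h1
  have h3 : (2 : ℝ) ^ κ ≤ Real.exp (7 / 10) ^ κ := by
    gcongr
    exact xevn_two
  calc (((Dl + 2 * κ + 10 : ℕ) : ℝ) + 1) * Real.exp 1
      ≤ (12 * 2 ^ κ) * Real.exp 1 := by gcongr
    _ ≤ (Real.exp (5 / 2) * Real.exp (7 / 10) ^ κ) * Real.exp 1 := by
        gcongr
        exact xevn_twelve
    _ = Real.exp (7 / 2 + 7 * κ / 10) := by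
        rw [← Real.exp_nat_mul, ← Real.exp_add, ← Real.exp_add]
        congr 1
        ring

private theorem xevn_pow (Dl κ : ℕ) (hκ : 1 ≤ κ) (hD : Dl ≤ 2 ^ κ) (N : ℕ) :
    ((((Dl + 2 * κ + 10 : ℕ) : ℝ) + 1) * Real.exp 1) ^ N ≤
      Real.exp ((7 / 2 + 7 * κ / 10) * N) := by
  calc ((((Dl + 2 * κ + 10 : ℕ) : ℝ) + 1) * Real.exp 1) ^ N
      ≤ Real.exp (7 / 2 + 7 * κ / 10) ^ N := by
        gcongr
        exact xevn_base Dl κ hκ hD
    _ = Real.exp ((7 / 2 + 7 * κ / 10) * N) := by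
        rw [← Real.exp_nat_mul]
        congr 1
        ring

theorem evx_a (Dl κ : ℕ) (hκ : 1 ≤ κ) (hD : Dl ≤ 2 ^ κ) : ∀ᶠ N : ℕ in atTop,
    Real.exp (-(((Dl + κ + 10 : ℕ) : ℝ) * N)) * ((((Dl + 2 * κ + 10 : ℕ) : ℝ) + 1) * Real.exp 1) ^ N *
      ((((Dl + 2 * κ + 10 : ℕ) : ℝ) * N) ^ 2) ≤ Real.exp (-((Dl : ℝ) * N)) := by
  filter_upwards [xevn_poly 6 (by norm_num) (((Dl + 2 * κ + 10 : ℕ) : ℝ) ^ 2) 2] with N hN
  have h1 := xevn_pow Dl κ hκ hD N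
  have h2 : (((Dl + 2 * κ + 10 : ℕ) : ℝ) * N) ^ 2 ≤ Real.exp (6 * N) := by
    rw [mul_pow]
    exact hN
  have hN0 : (0 : ℝ) ≤ N := by positivity
  have hκ0 : (0 : ℝ) ≤ κ := by positivity
  calc _ ≤ Real.exp (-(((Dl + κ + 10 : ℕ) : ℝ) * N)) * Real.exp ((7 / 2 + 7 * κ / 10) * N) *
        Real.exp (6 * N) := by gcongr
    _ = Real.exp (-(((Dl + κ + 10 : ℕ) : ℝ) * N) + (7 / 2 + 7 * κ / 10) * N + 6 * N) := by
        rw [Real.exp_add, Real.exp_add]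
    _ ≤ _ := by
        apply Real.exp_le_exp.mpr
        push_cast
        nlinarith [mul_nonneg hκ0 hN0]

theorem evx_b (Dl κ : ℕ) : ∀ᶠ N : ℕ in atTop,
    (((Dl + 2 * κ + 10 : ℕ) : ℝ) * N) * Real.exp (-(((Dl + κ + 10 : ℕ) : ℝ) * N)) * N ≤
      Real.exp (-((Dl : ℝ) * N)) / 2 := by
  filter_upwards [xevn_poly 1 (by norm_num) (2 * ((Dl + 2 * κ + 10 : ℕ) : ℝ)) 2] with N hN
  have hN0 : (0 : ℝ) ≤ N := by positivity
  have hκ0 : (0 : ℝ) ≤ κ := by positivity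
  have h2 : (((Dl + 2 * κ + 10 : ℕ) : ℝ) * N) * N ≤ Real.exp (1 * N) / 2 := by
    nlinarith [hN]
  calc _ = Real.exp (-(((Dl + κ + 10 : ℕ) : ℝ) * N)) * ((((Dl + 2 * κ + 10 : ℕ) : ℝ) * N) * N) := by
        ring
    _ ≤ Real.exp (-(((Dl + κ + 10 : ℕ) : ℝ) * N)) * (Real.exp (1 * N) / 2) := by gcongr
    _ = Real.exp (-(((Dl + κ + 10 : ℕ) : ℝ) * N) + 1 * N) / 2 := by
        rw [Real.exp_add]
        ring
    _ ≤ _ := by
        have : Real.exp (-(((Dl + κ + 10 : ℕ) : ℝ) * N) + 1 * N) ≤ Real.exp (-((Dl : ℝ) * N)) := by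
          apply Real.exp_le_exp.mpr
          push_cast
          nlinarith [mul_nonneg hκ0 hN0]
        linarith

theorem evx_c (Dl κ : ℕ) (hκ : 1 ≤ κ) (hD : Dl ≤ 2 ^ κ) (c : ℝ) (hc : 0 ≤ c) : ∀ᶠ N : ℕ in atTop,
    c * ((N : ℝ) + 1) * Real.exp ((κ : ℝ) * N) * (((Dl + 2 * κ + 10 : ℕ) : ℝ) * N + 1) *
      (4 * (((Dl + 2 * κ + 10 : ℕ) : ℝ) * N) ^ 3 *
        ((((Dl + 2 * κ + 10 : ℕ) : ℝ) + 1) * Real.exp 1) ^ N / 4 ^ ((Dl + 2 * κ + 10) * N)) ≤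
      Real.exp (-((Dl : ℝ) * N)) / 2 := by
  set V : ℝ := ((Dl + 2 * κ + 10 : ℕ) : ℝ) with hV
  have hV0 : 0 ≤ V := by positivity
  filter_upwards [xevn_poly 1 (by norm_num) (2 * (c * 2 * (V + 1) * (4 * V ^ 3))) 5,
    eventually_ge_atTop 1] with N hN hN1
  have hN1' : (1 : ℝ) ≤ N := by exact_mod_cast hN1
  have hN0 : (0 : ℝ) ≤ N := by positivity
  have hκ0 : (0 : ℝ) ≤ κ := by positivity
  have hD0 : (0 : ℝ) ≤ Dl := by positivity
  have h1 := xevn_pow Dl κ hκ hD N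
  have h2 : c * ((N : ℝ) + 1) * (V * N + 1) * (4 * (V * N) ^ 3) ≤ Real.exp (1 * N) / 2 := by
    have ha : (N : ℝ) + 1 ≤ 2 * N := by linarith
    have hb : V * N + 1 ≤ (V + 1) * N := by linarith
    calc c * ((N : ℝ) + 1) * (V * N + 1) * (4 * (V * N) ^ 3)
        ≤ c * (2 * N) * ((V + 1) * N) * (4 * (V * N) ^ 3) := by gcongr
      _ = (2 * (c * 2 * (V + 1) * (4 * V ^ 3)) * (N : ℝ) ^ 5) / 2 := by ring
      _ ≤ _ := by linarith
  have h4 : (4 : ℝ) ^ ((Dl + 2 * κ + 10) * N) = Real.exp (V * N * Real.log 4) := by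
    rw [mul_comm (V * N), Real.exp_mul, Real.exp_log (by norm_num)]
    rw [hV, ← Nat.cast_mul, Real.rpow_natCast]
  have hlog : (1.386 : ℝ) ≤ Real.log 4 := by
    have : (4 : ℝ) = 2 ^ 2 := by norm_num
    rw [this, Real.log_pow]
    have := Real.log_two_gt_d9
    push_cast
    linarith
  calc _ = (c * ((N : ℝ) + 1) * (V * N + 1) * (4 * (V * N) ^ 3)) * Real.exp ((κ : ℝ) * N) *
        ((V + 1) * Real.exp 1) ^ N / 4 ^ ((Dl + 2 * κ + 10) * N) := by ring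
    _ ≤ (Real.exp (1 * N) / 2) * Real.exp ((κ : ℝ) * N) * Real.exp ((7 / 2 + 7 * κ / 10) * N) /
        4 ^ ((Dl + 2 * κ + 10) * N) := by gcongr
    _ = Real.exp (1 * N + (κ : ℝ) * N + (7 / 2 + 7 * κ / 10) * N - V * N * Real.log 4) / 2 := by
        rw [h4, Real.exp_sub, Real.exp_add, Real.exp_add]
        ring
    _ ≤ _ := by
        have hVN : 0 ≤ V * N := by positivity
        have h5 : V * N * 1.386 ≤ V * N * Real.log 4 := by gcongr
        have h6 : V * N = Dl * N + 2 * (κ * N) + 10 * N := by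
          rw [hV]
          push_cast
          ring
        have hκN : 0 ≤ (κ : ℝ) * N := by positivity
        have hDN : 0 ≤ (Dl : ℝ) * N := by positivity
        have : Real.exp (1 * N + (κ : ℝ) * N + (7 / 2 + 7 * κ / 10) * N - V * N * Real.log 4) ≤
            Real.exp (-((Dl : ℝ) * N)) := by
          apply Real.exp_le_exp.mpr
          rw [h6] at h5
          have h7 : (7 / 2 + 7 * (κ : ℝ) / 10) * N = 7 / 2 * N + 7 / 10 * (κ * N) := by ring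
          rw [h7]
          rw [h6]
          linarith
        linarith

theorem evx_d : ∀ᶠ N : ℕ in atTop, (2 : ℝ) ^ N * ((N : ℝ) + 1) ≤ Real.exp N := by
  filter_upwards [xevn_poly (3 / 10) (by norm_num) 2 1, eventually_ge_atTop 1] with N hN hN1
  have hN1' : (1 : ℝ) ≤ N := by exact_mod_cast hN1
  have h2 : (2 : ℝ) ^ N ≤ Real.exp (7 / 10) ^ N := by
    gcongr
    exact xevn_two
  have h3 : (N : ℝ) + 1 ≤ Real.exp (3 / 10 * N) := by
    rw [pow_one] at hN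
    linarith
  calc (2 : ℝ) ^ N * ((N : ℝ) + 1) ≤ Real.exp (7 / 10) ^ N * Real.exp (3 / 10 * N) := by gcongr
    _ = Real.exp N := by
        rw [← Real.exp_nat_mul, ← Real.exp_add]
        congr 1
        ring

end Pool.MZExp
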