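import Pool.Agent.Lib.MZExp.XFTel
import Pool.Agent.Lib.MZDim.RPf

/-! MODULE XFPf (about 110 lines). MP_301213_nt, exponential growth, PHASE 2 (helper41). Partial fractions of the sums `Wt`.
TEMPLATES: MZExp/CcRec.lean (key_M, key_sum), MZDim/RW.lean.

PROOF. ct_zero: every term vanishes. Wt_zero: (t^a)⁻¹ * (t+0)⁻¹ = (t^(a+1))⁻¹.
Zt_nil: i ≥ 2, l Adm1, so i :: l is Adm1 (adm1_single / adm1_cons_cons) and T_tsum1 at M = 0 gives T (i :: l) 0 = ∑' m, (if 0 < m then (m^i)⁻¹ else 0) * T l m; the term m = 0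
 is 0 (Summable.tsum_eq_zero_add), the others are m = M + 1; T [] = 1 (T_nil).
Wt_pf: for t = M+1 > 0, u ≥ 1, pf_one a (s := t) (v := u) (MZDim/RPf): (t^a)⁻¹ (t+u)⁻¹ = ∑_{i<a} (-1)^(a-1-i) (u^(a-i))⁻¹ (t^(i+1))⁻¹ + (-1)^a (u^a)⁻¹ (t+u)⁻¹; the term i = 0 is
 (-1)^(a-1) (u^a)⁻¹ t⁻¹ (a ≥ 1; Finset.range_eq_Ico, Finset.sum_eq_sum_Ico_succ_bot), together with the last term (-1)^a (u^a)⁻¹ ((t+u)⁻¹ - t⁻¹).
 Multiply by T l t * T v t and sum over M: summ_ct, summ_Zt (exponents i + 1 ≥ 2 for i ∈ Ico 1 a), tsum_mul_left, Summable.tsum_add, Summable.tsum_finsetSum. -/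

open HofPers Finset Pool.MZDim

namespace Pool.MZExp

theorem ct_zero (l v : List ℕ) : ct l v 0 = 0 := by
  unfold ct
  have h : ∀ M : ℕ, T l (M + 1) * T v (M + 1) *
      (((M : ℝ) + 1 + ((0 : ℕ) : ℝ))⁻¹ - ((M : ℝ) + 1)⁻¹) = 0 := by
    intro M
    rw [Nat.cast_zero, add_zero, sub_self, mul_zero]
  rw [tsum_congr h]
  exact tsum_zero

theorem Wt_zero (a : ℕ) (l v : List ℕ) : Wt a l v 0 = Zt (a + 1) l v := by
  unfold Wt Zt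
  refine tsum_congr fun M => ?_
  rw [Nat.cast_zero, add_zero, pow_succ, mul_inv]

theorem Zt_nil {l : List ℕ} (hl : Adm1 l) {i : ℕ} (hi : 2 ≤ i) : Zt i l [] = T (i :: l) 0 := by
  have h : Adm1 (i :: l) := by
    cases l with
    | nil => exact adm1_single.2 hi
    | cons b l => exact adm1_cons_cons.2 ⟨by omega, hl⟩
  obtain ⟨h1, h2⟩ := T_tsum1 h 0
  rw [h2, h1.tsum_eq_zero_add, if_neg (lt_irrefl 0), zero_mul, zero_add]
  unfold Zt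
  refine tsum_congr fun M => ?_
  rw [T_nil, mul_one, if_pos (Nat.succ_pos M)]
  push_cast
  rfl

/-- the partial fractions of one term -/
private theorem xfpf_key {a : ℕ} (ha : 1 ≤ a) {t u : ℝ} (ht : 0 < t) (hu : 0 < u) :
    (t ^ a)⁻¹ * (t + u)⁻¹ = (-1) ^ a * (u ^ a)⁻¹ * ((t + u)⁻¹ - t⁻¹) +
      ∑ i ∈ Ico 1 a, (-1) ^ (a - 1 - i) * (u ^ (a - i))⁻¹ * (t ^ (i + 1))⁻¹ := by
  rw [pf_one a ht hu]
  obtain ⟨k, rfl⟩ : ∃ k, a = k + 1 := ⟨a - 1, by omega⟩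
  rw [Finset.range_eq_Ico, Finset.sum_eq_sum_Ico_succ_bot (by omega : 0 < k + 1)]
  simp only [Nat.add_sub_cancel, Nat.sub_zero, zero_add, pow_one]
  rw [pow_succ (-1 : ℝ) k]
  ring

theorem Wt_pf {l v : List ℕ} (hl : Adm1 l) (hv : Adm1 v) {a : ℕ} (ha : 1 ≤ a) {u : ℕ} (hu : 1 ≤ u) :
    Wt a l v u = (-1) ^ a * ((u : ℝ) ^ a)⁻¹ * ct l v u +
      ∑ i ∈ Ico 1 a, (-1) ^ (a - 1 - i) * ((u : ℝ) ^ (a - i))⁻¹ * Zt (i + 1) l v := by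
  have hu0 : (0 : ℝ) < u := by exact_mod_cast hu
  have h1 : HasSum (fun M : ℕ => T l (M + 1) * T v (M + 1) *
      (((M : ℝ) + 1 + u)⁻¹ - ((M : ℝ) + 1)⁻¹)) (ct l v u) := (summ_ct hl hv u).hasSum
  have h2 : ∀ i ∈ Ico 1 a, HasSum (fun M : ℕ => (-1) ^ (a - 1 - i) * ((u : ℝ) ^ (a - i))⁻¹ *
      ((((M : ℝ) + 1) ^ (i + 1))⁻¹ * (T l (M + 1) * T v (M + 1))))
      ((-1) ^ (a - 1 - i) * ((u : ℝ) ^ (a - i))⁻¹ * Zt (i + 1) l v) := by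
    intro i hi
    refine HasSum.mul_left _ ?_
    have hi1 := (Finset.mem_Ico.1 hi).1
    exact (summ_Zt hl hv (by omega : 2 ≤ i + 1)).hasSum
  have h4 := (h1.mul_left ((-1) ^ a * ((u : ℝ) ^ a)⁻¹)).add (hasSum_sum h2)
  rw [← h4.tsum_eq]
  unfold Wt
  refine tsum_congr fun M => ?_
  rw [xfpf_key ha (by positivity : (0 : ℝ) < (M : ℝ) + 1) hu0, add_mul, Finset.sum_mul]
  congr 1
  · ring
  · refine Finset.sum_congr rfl fun i _ => ?_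
    ring

end Pool.MZExp
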