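import Pool.Agent.Lib.MZExp.XFDefs

/-! MODULE XFTel (about 150 lines). MP_301213_nt, exponential growth, PHASE 2 (helper41). Summability and Abel summation for
the numbers `c_j(α,v)` of the tails. TEMPLATES: MZDim/RTel.lean (lemmas base2, abel, tele, g1_tendsto), MZExp/CcRec.lean (base2, c_le).

PROOF. Put G M = T l M * T v M ≥ 0. For t = M + 1 ≥ 1: 0 ≤ G t ≤ 1 (T_le_one, T_nonneg).
summ_ct: |1/(t+j) - 1/t| = j/(t(t+j)) ≤ j t^-2. summ_Wt (a ≥ 1): t^-a (t+j)^-1 ≤ t^-2. summ_Zt (i ≥ 2): t^-i ≤ t^-2.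
ct_step: put g M = (M+1+j)⁻¹. For every n, ∑_{M<n} G(M+1) (g(M+1) - g(M)) = ∑_{M<n} (G M - G(M+1)) g M + G n g n - G 0 g 0 (induction on n). Both series converge
(the left one is ct l v (j+1) - ct l v j: (M+1+(j+1))⁻¹ = g (M+1), Summable.tsum_sub), G n g n → 0 (0 ≤ G n ≤ G 1 for n ≥ 1 (T_anti1) or |G n| ≤ 1 for n ≥ 1; g → 0). So
 ct l v (j+1) - ct l v j = -G 0/(1+j) + ∑' (G M - G(M+1)) g M, and by T_step1 (t = M+1, M+1 argument):
 (a::l, b::v): G M - G(M+1) = t^-a T l t T (b::v) t + t^-b T (a::l) t T v t + t^-(a+b) T l t T v t ; (a::l, []) : t^-a T l t ; ([], b::v) : t^-b T v t ; ([],[]) : 0.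
 The letters a, b are ≥ 1 (Adm1.head), the tails l, v are Adm1 (Adm1.tail). The four cases are the four clauses of `Ws`. -/

open HofPers Finset Filter Topology Pool.MZDim

namespace Pool.MZExp

/-- `Z_i(l,v) = ∑_{t ≥ 1} t^(-i) h_l(t) h_v(t)` (used for `i ≥ 2`) -/
noncomputable def Zt (i : ℕ) (l v : List ℕ) : ℝ :=
  ∑' M : ℕ, (((M : ℝ) + 1) ^ i)⁻¹ * (T l (M + 1) * T v (M + 1))

/-- the terms which come from the shift `h(t-1) - h(t)` -/
noncomputable def Ws : List ℕ → List ℕ → ℕ → ℝ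
  | [], [], _ => 0
  | a :: l, [], j => Wt a l [] j
  | [], b :: v, j => Wt b [] v j
  | a :: l, b :: v, j => Wt a l (b :: v) j + Wt b (a :: l) v j + Wt (a + b) l v j

private theorem xftel_base2 : Summable fun M : ℕ => (((M : ℝ) + 1) ^ 2)⁻¹ := by
  have h := (summable_nat_add_iff 1).2 (Real.summable_nat_pow_inv.2 one_lt_two)
  refine h.congr fun M => ?_
  push_cast
  rfl

private theorem xftel_lin_tendsto (u : ℕ) : Tendsto (fun M : ℕ => ((M : ℝ) + 1 + u)) atTop atTop := by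
  have h := tendsto_natCast_atTop_atTop (R := ℝ)
  have h1 := tendsto_atTop_add_const_right atTop ((1 : ℝ) + u) h
  refine h1.congr fun M => ?_
  ring

private theorem xftel_g1_tendsto (u : ℕ) : Tendsto (fun M : ℕ => ((M : ℝ) + 1 + u)⁻¹) atTop (𝓝 0) :=
  (xftel_lin_tendsto u).inv_tendsto_atTop

private theorem xftel_G0 (l v : List ℕ) (t : ℕ) : 0 ≤ T l t * T v t :=
  mul_nonneg (T_nonneg l t) (T_nonneg v t)

private theorem xftel_G1 {l v : List ℕ} (hl : Adm1 l) (hv : Adm1 v) (M : ℕ) :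
    T l (M + 1) * T v (M + 1) ≤ 1 :=
  mul_le_one₀ (T_le_one hl (Nat.succ_le_succ (Nat.zero_le M))) (T_nonneg v _)
    (T_le_one hv (Nat.succ_le_succ (Nat.zero_le M)))

private theorem xftel_abel (f g : ℕ → ℝ) (C : ℝ) (hf : ∀ M, |f M| ≤ C)
    (hg : Tendsto g atTop (𝓝 0)) (s1 : Summable fun M => f (M + 1) * (g (M + 1) - g M))
    (s2 : Summable fun M => (f M - f (M + 1)) * g M) :
    ∑' M, f (M + 1) * (g (M + 1) - g M) = ∑' M, (f M - f (M + 1)) * g M - f 0 * g 0 := by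
  have h1 : ∀ n, ∑ M ∈ range n, f (M + 1) * (g (M + 1) - g M) =
      ∑ M ∈ range n, (f M - f (M + 1)) * g M + f n * g n - f 0 * g 0 := by
    intro n
    induction n with
    | zero => rw [sum_range_zero, sum_range_zero]; ring
    | succ n ih =>
      rw [sum_range_succ, sum_range_succ, ih]
      ring
  have h2 : Tendsto (fun n => f n * g n) atTop (𝓝 0) := by
    have h3 : Tendsto (fun n => C * |g n|) atTop (𝓝 0) := by
      have h4 := (hg.abs).const_mul C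
      rwa [abs_zero, mul_zero] at h4
    refine squeeze_zero_norm (fun n => ?_) h3
    rw [Real.norm_eq_abs, abs_mul]
    exact mul_le_mul_of_nonneg_right (hf n) (abs_nonneg _)
  have h3 := ((s2.hasSum.tendsto_sum_nat).add h2).sub (tendsto_const_nhds (x := f 0 * g 0))
  rw [add_zero] at h3
  have h4 := s1.hasSum.tendsto_sum_nat
  simp only [h1] at h4
  exact tendsto_nhds_unique h4 h3

theorem summ_ct {l v : List ℕ} (hl : Adm1 l) (hv : Adm1 v) (j : ℕ) :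
    Summable fun M : ℕ => T l (M + 1) * T v (M + 1) * (((M : ℝ) + 1 + j)⁻¹ - ((M : ℝ) + 1)⁻¹) := by
  have hu : (0 : ℝ) ≤ j := Nat.cast_nonneg j
  refine Summable.of_norm_bounded (xftel_base2.mul_left (j : ℝ)) fun M => ?_
  have hM : (0 : ℝ) ≤ M := Nat.cast_nonneg M
  have key : ((M : ℝ) + 1 + j)⁻¹ - ((M : ℝ) + 1)⁻¹ =
      -(j * (((M : ℝ) + 1)⁻¹ * ((M : ℝ) + 1 + j)⁻¹)) := by
    have h1 : ((M : ℝ) + 1) ≠ 0 := by positivity
    have h2 : ((M : ℝ) + 1 + j) ≠ 0 := by positivity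
    field_simp
    ring
  have hp : 0 ≤ j * (((M : ℝ) + 1)⁻¹ * ((M : ℝ) + 1 + j)⁻¹) := by positivity
  rw [key, Real.norm_eq_abs, abs_mul, abs_neg, abs_of_nonneg (xftel_G0 l v _), abs_of_nonneg hp]
  refine (mul_le_mul_of_nonneg_right (xftel_G1 hl hv M) hp).trans ?_
  rw [one_mul]
  refine mul_le_mul_of_nonneg_left ?_ hu
  rw [sq, mul_inv]
  refine mul_le_mul_of_nonneg_left ?_ (by positivity)
  exact inv_anti₀ (by positivity) (by linarith)

theorem summ_Wt {l v : List ℕ} (hl : Adm1 l) (hv : Adm1 v) {a : ℕ} (ha : 1 ≤ a) (u : ℕ) :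
    Summable fun M : ℕ => (((M : ℝ) + 1) ^ a)⁻¹ * ((M : ℝ) + 1 + u)⁻¹ * (T l (M + 1) * T v (M + 1)) := by
  have hu : (0 : ℝ) ≤ u := Nat.cast_nonneg u
  refine Summable.of_nonneg_of_le (fun M => ?_) (fun M => ?_) xftel_base2
  · have := xftel_G0 l v (M + 1)
    positivity
  · have hM : (0 : ℝ) ≤ M := Nat.cast_nonneg M
    have h0 : 0 ≤ (((M : ℝ) + 1) ^ a)⁻¹ * ((M : ℝ) + 1 + u)⁻¹ := by positivity
    refine (mul_le_mul_of_nonneg_left (xftel_G1 hl hv M) h0).trans ?_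
    rw [mul_one, sq, mul_inv]
    refine mul_le_mul ?_ ?_ (by positivity) (by positivity)
    · refine inv_anti₀ (by positivity) ?_
      calc (M : ℝ) + 1 = ((M : ℝ) + 1) ^ 1 := (pow_one _).symm
        _ ≤ _ := pow_le_pow_right₀ (by linarith) ha
    · exact inv_anti₀ (by positivity) (by linarith)

theorem summ_Zt {l v : List ℕ} (hl : Adm1 l) (hv : Adm1 v) {i : ℕ} (hi : 2 ≤ i) :
    Summable fun M : ℕ => (((M : ℝ) + 1) ^ i)⁻¹ * (T l (M + 1) * T v (M + 1)) := by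
  refine Summable.of_nonneg_of_le (fun M => ?_) (fun M => ?_) xftel_base2
  · have := xftel_G0 l v (M + 1)
    positivity
  · have hM : (0 : ℝ) ≤ M := Nat.cast_nonneg M
    have h0 : 0 ≤ (((M : ℝ) + 1) ^ i)⁻¹ := by positivity
    refine (mul_le_mul_of_nonneg_left (xftel_G1 hl hv M) h0).trans ?_
    rw [mul_one]
    refine inv_anti₀ (by positivity) ?_
    exact pow_le_pow_right₀ (by linarith) hi

private theorem xftel_W : ∀ {l v : List ℕ} (_ : Adm1 l) (_ : Adm1 v) (j : ℕ),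
    ∃ W : ℕ → ℝ, (∀ M : ℕ, (T l M * T v M - T l (M + 1) * T v (M + 1)) * ((M : ℝ) + 1 + j)⁻¹ =
      W M) ∧ Summable W ∧ ∑' M, W M = Ws l v j
  | [], [], _, _, j => by
    refine ⟨fun _ => 0, fun M => ?_, summable_zero, ?_⟩
    · rw [T_nil, T_nil, sub_self, zero_mul]
    · rw [tsum_zero, Ws]
  | a :: l, [], hl, hv, j => by
    refine ⟨_, fun M => ?_, summ_Wt hl.tail hv hl.head j, ?_⟩
    · rw [T_step1 hl M, T_nil, T_nil]
      ring
    · rw [Ws, Wt]
  | [], b :: v, hl, hv, j => by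
    refine ⟨_, fun M => ?_, summ_Wt hl hv.tail hv.head j, ?_⟩
    · rw [T_step1 hv M, T_nil, T_nil]
      ring
    · rw [Ws, Wt]
  | a :: l, b :: v, hl, hv, j => by
    have w1 := summ_Wt hl.tail hv hl.head j
    have w2 := summ_Wt hl hv.tail hv.head j
    have w3 := summ_Wt hl.tail hv.tail (a := a + b) (le_trans hl.head (Nat.le_add_right a b)) j
    refine ⟨_, fun M => ?_, (w1.add w2).add w3, ?_⟩
    · rw [T_step1 hl M, T_step1 hv M, pow_add, mul_inv]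
      ring
    · rw [(w1.add w2).tsum_add w3, w1.tsum_add w2, Ws, Wt, Wt, Wt]

theorem ct_step {l v : List ℕ} (hl : Adm1 l) (hv : Adm1 v) (j : ℕ) :
    ct l v (j + 1) = ct l v j - T l 0 * T v 0 * ((j : ℝ) + 1)⁻¹ + Ws l v j := by
  obtain ⟨W, hW, sW, tW⟩ := xftel_W hl hv j
  have s1 := summ_ct hl hv j
  have s2 := summ_ct hl hv (j + 1)
  have h1 : ct l v (j + 1) - ct l v j = ∑' M : ℕ, (fun M => T l M * T v M) (M + 1) *
      ((fun M : ℕ => ((M : ℝ) + 1 + j)⁻¹) (M + 1) - (fun M : ℕ => ((M : ℝ) + 1 + j)⁻¹) M) := by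
    rw [ct, ct, ← s2.tsum_sub s1]
    refine tsum_congr fun M => ?_
    push_cast
    have h : ((M : ℝ) + 1 + ((j : ℝ) + 1)) = (M : ℝ) + 1 + 1 + j := by ring
    rw [h]
    ring
  have s3 : Summable fun M : ℕ => (fun M => T l M * T v M) (M + 1) *
      ((fun M : ℕ => ((M : ℝ) + 1 + j)⁻¹) (M + 1) - (fun M : ℕ => ((M : ℝ) + 1 + j)⁻¹) M) := by
    refine (s2.sub s1).congr fun M => ?_
    push_cast
    have h : ((M : ℝ) + 1 + ((j : ℝ) + 1)) = (M : ℝ) + 1 + 1 + j := by ring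
    rw [h]
    ring
  have h2 := xftel_abel (fun M => T l M * T v M) (fun M : ℕ => ((M : ℝ) + 1 + j)⁻¹)
    (T l 0 * T v 0) (fun M => by
      rw [abs_of_nonneg (xftel_G0 l v M)]
      exact mul_le_mul (T_anti1 hl (Nat.zero_le M)) (T_anti1 hv (Nat.zero_le M))
        (T_nonneg _ _) (T_nonneg _ _)) (xftel_g1_tendsto j) s3 (sW.congr fun M => (hW M).symm)
  have h3 : ∑' M : ℕ, ((fun M => T l M * T v M) M - (fun M => T l M * T v M) (M + 1)) *
      (fun M : ℕ => ((M : ℝ) + 1 + j)⁻¹) M = Ws l v j := by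
    rw [← tW]
    exact tsum_congr fun M => hW M
  rw [h3, ← h1] at h2
  have h4 : (((0 : ℕ) : ℝ) + 1 + j)⁻¹ = ((j : ℝ) + 1)⁻¹ := by
    rw [Nat.cast_zero, zero_add, add_comm]
  have h5 : ct l v (j + 1) - ct l v j = Ws l v j - T l 0 * T v 0 * (((0 : ℕ) : ℝ) + 1 + j)⁻¹ := h2
  rw [h4] at h5
  linarith

end Pool.MZExp
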