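import Pool.Agent.Lib.MZDim.Box

/-! MODULE XPick. MP_301213_nt phase 2: the box principle, general form (see MZDim/Pick.lean). -/

open Finset Filter Topology

namespace Pool.MZExp

private theorem xpick_ev {K c : ℝ} (hK : 0 < K) (hc : 0 < c) :
    ∀ᶠ N : ℕ in atTop, K * Real.log (c * ((N : ℝ) + 1)) ≤ N := by
  have h1 : ∀ᶠ x : ℝ in atTop, ‖Real.log x‖ ≤ 1 / (2 * K * c) * ‖id x‖ :=
    Real.isLittleO_log_id_atTop.bound (by positivity)
  have h2 : Tendsto (fun N : ℕ => c * ((N : ℝ) + 1)) atTop atTop :=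
    Tendsto.const_mul_atTop hc (tendsto_atTop_add_const_right _ _ tendsto_natCast_atTop_atTop)
  filter_upwards [h2.eventually h1, eventually_ge_atTop 1] with N hN hN1
  have h3 : (1 : ℝ) ≤ N := by exact_mod_cast hN1
  rw [id, Real.norm_eq_abs, Real.norm_eq_abs, abs_of_pos (show 0 < c * ((N : ℝ) + 1) by positivity)]
    at hN
  have h4 := (le_abs_self _).trans hN
  calc K * Real.log (c * ((N : ℝ) + 1)) ≤ K * (1 / (2 * K * c) * (c * ((N : ℝ) + 1))) :=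
        mul_le_mul_of_nonneg_left h4 hK.le
    _ = ((N : ℝ) + 1) / 2 := by field_simp
    _ ≤ N := by linarith

private theorem xpick_count {N n m u δ κ G : ℕ} {C : ℝ} (hC : 1 ≤ C) (hG : 1 ≤ G)
    (hn : n = (N + 1) * G) (hu : κ + δ = u) (hm : m ≤ 2 * u * N)
    (hcard : 2 * u ^ 2 + 1 ≤ κ * G)
    (hlog : 4 * (u : ℝ) * Real.log (2 * G * C * ((N : ℝ) + 1)) ≤ N) :
    ((n : ℝ) * ((⌊Real.exp (κ * N)⌋₊ : ℕ) : ℝ) * (C * ((N : ℝ) + 1)) /
        Real.exp (-((δ : ℝ) * N)) + 1) ^ m <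
      (((⌊Real.exp (κ * N)⌋₊ : ℕ) : ℝ) + 1) ^ n := by
  have hGr : (1 : ℝ) ≤ G := by exact_mod_cast hG
  have hN0 : (0 : ℝ) ≤ N := Nat.cast_nonneg _
  have hX : ((⌊Real.exp (κ * N)⌋₊ : ℕ) : ℝ) ≤ Real.exp (κ * N) := Nat.floor_le (Real.exp_pos _).le
  have hX1 : Real.exp (κ * N) < ((⌊Real.exp (κ * N)⌋₊ : ℕ) : ℝ) + 1 := Nat.lt_floor_add_one _
  have hnr : (n : ℝ) = ((N : ℝ) + 1) * G := by rw [hn]; push_cast; ring
  have hn1 : (1 : ℝ) ≤ n := by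
    rw [hnr]
    nlinarith
  have hur : (κ : ℝ) + δ = u := by exact_mod_cast hu
  set c : ℝ := 2 * G * C * ((N : ℝ) + 1) with hc
  have hGC : (1 : ℝ) ≤ G * C := by nlinarith
  have hc1 : 1 ≤ c := by
    rw [hc]
    nlinarith [mul_nonneg (by linarith : (0 : ℝ) ≤ G * C) hN0]
  have hE : (1 : ℝ) ≤ Real.exp (u * N) := Real.one_le_exp (by positivity)
  set B : ℝ := 2 * G * C * ((N : ℝ) + 1) * ((N : ℝ) + 1) * Real.exp (u * N) with hB
  have hbase : (n : ℝ) * ((⌊Real.exp (κ * N)⌋₊ : ℕ) : ℝ) * (C * ((N : ℝ) + 1)) /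
      Real.exp (-((δ : ℝ) * N)) + 1 ≤ B := by
    have h1 : (n : ℝ) * ((⌊Real.exp (κ * N)⌋₊ : ℕ) : ℝ) * (C * ((N : ℝ) + 1)) /
        Real.exp (-((δ : ℝ) * N)) ≤ n * (C * ((N : ℝ) + 1)) * Real.exp (u * N) := by
      rw [Real.exp_neg, div_inv_eq_mul]
      have h2 : Real.exp (u * N) = Real.exp (κ * N) * Real.exp ((δ : ℝ) * N) := by
        rw [← Real.exp_add, ← hur]
        congr 1
        ring
      rw [h2]
      calc (n : ℝ) * ((⌊Real.exp (κ * N)⌋₊ : ℕ) : ℝ) * (C * ((N : ℝ) + 1)) * Real.exp ((δ : ℝ) * N)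
          ≤ n * Real.exp (κ * N) * (C * ((N : ℝ) + 1)) * Real.exp ((δ : ℝ) * N) := by gcongr
        _ = n * (C * ((N : ℝ) + 1)) * (Real.exp (κ * N) * Real.exp ((δ : ℝ) * N)) := by ring
    have h3 : (1 : ℝ) ≤ n * (C * ((N : ℝ) + 1)) * Real.exp (u * N) := by
      have h4 : (1 : ℝ) ≤ C * ((N : ℝ) + 1) := by nlinarith
      have h5 : (1 : ℝ) ≤ n * (C * ((N : ℝ) + 1)) := one_le_mul_of_one_le_of_one_le hn1 h4
      exact one_le_mul_of_one_le_of_one_le h5 hE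
    have h5 : B = 2 * (n * (C * ((N : ℝ) + 1)) * Real.exp (u * N)) := by
      rw [hB, hnr]
      ring
    rw [h5]
    linarith
  have hB1 : 1 ≤ B := by
    refine le_trans ?_ hbase
    have : 0 ≤ (n : ℝ) * ((⌊Real.exp (κ * N)⌋₊ : ℕ) : ℝ) * (C * ((N : ℝ) + 1)) /
        Real.exp (-((δ : ℝ) * N)) := by
      positivity
    linarith
  have hBc : B ≤ Real.exp (2 * Real.log c + u * N) := by
    have h1 : Real.exp (2 * Real.log c + u * N) = c * c * Real.exp (u * N) := by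
      rw [Real.exp_add, two_mul, Real.exp_add, Real.exp_log (by linarith)]
    rw [h1, hB]
    refine mul_le_mul_of_nonneg_right ?_ (Real.exp_pos _).le
    have h2 : (1 : ℝ) ≤ 2 * G * C := by linarith
    have h3 : 0 ≤ ((N : ℝ) + 1) * ((N : ℝ) + 1) := by positivity
    have h4 : 2 * G * C * ((N : ℝ) + 1) * ((N : ℝ) + 1) ≤
        (2 * G * C) * (2 * G * C * ((N : ℝ) + 1) * ((N : ℝ) + 1)) :=
      le_mul_of_one_le_left (by positivity) h2
    calc 2 * G * C * ((N : ℝ) + 1) * ((N : ℝ) + 1)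
        ≤ (2 * G * C) * (2 * G * C * ((N : ℝ) + 1) * ((N : ℝ) + 1)) := h4
      _ = c * c := by rw [hc]; ring
  have hl0 : 0 ≤ Real.log c := Real.log_nonneg hc1
  calc ((n : ℝ) * ((⌊Real.exp (κ * N)⌋₊ : ℕ) : ℝ) * (C * ((N : ℝ) + 1)) /
        Real.exp (-((δ : ℝ) * N)) + 1) ^ m
      ≤ B ^ m := pow_le_pow_left₀ (by positivity) hbase _
    _ ≤ B ^ (2 * u * N) := pow_le_pow_right₀ hB1 hm
    _ ≤ Real.exp (2 * Real.log c + u * N) ^ (2 * u * N) :=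
        pow_le_pow_left₀ (by linarith) hBc _
    _ = Real.exp (((2 * u * N : ℕ) : ℝ) * (2 * Real.log c + u * N)) := by
        rw [← Real.exp_nat_mul]
    _ ≤ Real.exp ((n : ℝ) * (κ * N)) := by
        rw [Real.exp_le_exp]
        have h6 : 2 * (u : ℝ) ^ 2 + 1 ≤ κ * G := by exact_mod_cast hcard
        push_cast
        have h7 : (N : ℝ) * (4 * (u : ℝ) * Real.log c) ≤ N * N :=
          mul_le_mul_of_nonneg_left hlog hN0
        have h8 : (N : ℝ) * N * (2 * (u : ℝ) ^ 2 + 1) ≤ N * N * (κ * G) :=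
          mul_le_mul_of_nonneg_left h6 (by positivity)
        have h9 : (N : ℝ) * N * (κ * G) ≤ n * (κ * N) := by
          rw [hnr]
          have h10 : 0 ≤ (G : ℝ) * (κ * N) := by positivity
          nlinarith
        calc 2 * (u : ℝ) * N * (2 * Real.log c + u * N)
            = N * (4 * (u : ℝ) * Real.log c) + N * N * (2 * (u : ℝ) ^ 2) := by ring
          _ ≤ N * N + N * N * (2 * (u : ℝ) ^ 2) := by linarith
          _ = (N : ℝ) * N * (2 * (u : ℝ) ^ 2 + 1) := by ring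
          _ ≤ n * (κ * N) := h8.trans h9
    _ = Real.exp (κ * N) ^ n := by rw [← Real.exp_nat_mul]
    _ < (((⌊Real.exp (κ * N)⌋₊ : ℕ) : ℝ) + 1) ^ n := by
        refine pow_lt_pow_left₀ hX1 (Real.exp_pos _).le ?_
        rintro rfl
        norm_num at hn1

theorem pick_e {ι : Type*} [Fintype ι] (C : ℝ) (hC : 1 ≤ C) (Dl κ : ℕ) (hκ : 1 ≤ κ)
    (hcard : 2 * (Dl + 2 * κ + 10) ^ 2 + 1 ≤ κ * Fintype.card ι) :
    ∀ᶠ N : ℕ in atTop, ∀ (a : Fin (N + 1) × ι → ℕ → ℝ) (S : Finset ℕ),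
      S.card ≤ 2 * (Dl + 2 * κ + 10) * N →
      (∀ p, ∀ k ∈ S, 0 ≤ a p k) → (∀ p, ∀ k ∈ S, a p k ≤ C * ((N : ℝ) + 1)) →
      ∃ y : Fin (N + 1) × ι → ℤ, y ≠ 0 ∧ (∀ p, |(y p : ℝ)| ≤ Real.exp (κ * N)) ∧
        ∀ k ∈ S, |∑ p, (y p : ℝ) * a p k| ≤ Real.exp (-(((Dl + κ + 10 : ℕ) : ℝ) * N)) := by
  classical
  have hG : 1 ≤ Fintype.card ι := by
    rcases Nat.eq_zero_or_pos (Fintype.card ι) with h | h
    · rw [h, Nat.mul_zero] at hcard
      omega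
    · exact h
  have hGr : (1 : ℝ) ≤ Fintype.card ι := by exact_mod_cast hG
  have hu : (0 : ℝ) < ((Dl + 2 * κ + 10 : ℕ) : ℝ) := by
    have : 0 < Dl + 2 * κ + 10 := by omega
    exact_mod_cast this
  filter_upwards [xpick_ev (K := 4 * ((Dl + 2 * κ + 10 : ℕ) : ℝ)) (by positivity)
    (show (0 : ℝ) < 2 * Fintype.card ι * C by positivity)] with N hN
  intro a S hS ha0 haM
  have hcount := xpick_count (N := N) (n := Fintype.card (Fin (N + 1) × ι)) (m := S.card)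
    (u := Dl + 2 * κ + 10) (δ := Dl + κ + 10) (κ := κ) (G := Fintype.card ι) hC hG
    (by rw [Fintype.card_prod, Fintype.card_fin]) (by ring) hS hcard hN
  obtain ⟨y, hy0, hyX, hyS⟩ := Pool.MZDim.box S a ⌊Real.exp (κ * N)⌋₊
    (M0 := C * ((N : ℝ) + 1)) (ε := Real.exp (-(((Dl + κ + 10 : ℕ) : ℝ) * N)))
    (by positivity) (Real.exp_pos _) ha0 haM hcount
  have hX : ((⌊Real.exp (κ * N)⌋₊ : ℕ) : ℝ) ≤ Real.exp (κ * N) := Nat.floor_le (Real.exp_pos _).le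
  exact ⟨y, hy0, fun p => (hyX p).trans hX, hyS⟩

end Pool.MZExp
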