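import Pool.Agent.Lib.MZExp.XComb
import Pool.Agent.Lib.MZExp.XPick
import Pool.Agent.Lib.MZExp.XEvn

/-! MODULE XSmall (about 200 lines). MP_301213_nt phase 2: a nonzero y with f_y small everywhere, in the basis e_{N+k}(t) φ_a(t), k ≤ N.

PROOF. v := Dl + 2κ + 10, V := v N, δ := Dl + κ + 10, ε := exp(-δN), n0 = |ι|. `choose g` from hφ (for p = (k,a): expansion of F_p(t) = ek (N+k) t * φ a t; g_p(i) = 0 for i < N + k, so for
i < N). Bound |F_p(t)| ≤ C for t ≥ 1 (hφ with V = 0: C * 1 * ek 0 t, ek_le_one), F_p(t) ≥ 0. S := range (2V); entries a p k := F_p(k+1) for k < V and g_p(k - V) for V ≤ k < 2V; they are ≥ 0 and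
≤ C v (N+1) (g_p(s) ≤ (s+1) C ≤ V C, V = vN). |S| = 2vN. `pick_e` with the constant C v (≥ 1) gives y, X := exp(κN): |F(t)| ≤ ε for 1 ≤ t ≤ V, |∑_p y_p g_p(s)| ≤ ε for s < V; F := ∑ y_p F_p.
Let i ≤ N/2, N ≥ 2 (so i + 1 ≤ N, i + 1 ≤ V, i ≤ N).
(a) 1 ≤ t ≤ V: |F(t) C(t,i)| ≤ ε C(V+N,N) (choose_small) ≤ ε ((v+1) e)^N (choose_exp) ≤ exp(-Dl N)/V^2 (evx_a; V ≥ 1) ≤ exp(-Dl N)/t^2.
(b) t > V: comb_bound (Y = exp(κN), card = (N+1) n0): |F(t)| ≤ V ε ek N t + (N+1) n0 exp(κN) C (V+1) ek V t; multiply by C(t,i) ≥ 0: ek_choose_small: first part ≤ V ε N/t^2 ≤ exp(-Dl N)/(2t^2)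
(evx_b); ek_choose_big + choose_exp: second part ≤ (N+1) n0 exp(κN) C (V+1) 4 V^3 ((v+1)e)^N/(4^V t^2) ≤ exp(-Dl N)/(2 t^2) (evx_c with c = n0 C). -/

open Finset Filter Topology

namespace Pool.MZExp

private theorem xs_second {n0 N1 Y C1 V1 V3 P q t2 E : ℝ} (h : n0 * C1 * N1 * Y * V1 *
    (4 * V3 * P / q) ≤ E) (ht : 0 < t2) {Q ek c : ℝ} (hQ : Q ≤ P) (hn : 0 ≤ n0) (hN : 0 ≤ N1)
    (hY : 0 ≤ Y) (hC : 0 ≤ C1) (hV1 : 0 ≤ V1) (hV3 : 0 ≤ V3) (hq : 0 < q)
    (hek : ek * c ≤ 4 * V3 * Q / (q * t2)) :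
    N1 * n0 * Y * (C1 * V1 * ek) * c ≤ E / t2 := by
  have h1 : N1 * n0 * Y * (C1 * V1 * ek) * c = (N1 * n0 * Y * (C1 * V1)) * (ek * c) := by ring
  have h2 : 0 ≤ N1 * n0 * Y * (C1 * V1) := by positivity
  have h3 : 4 * V3 * Q / (q * t2) ≤ 4 * V3 * P / (q * t2) := by
    refine div_le_div_of_nonneg_right ?_ (by positivity)
    exact mul_le_mul_of_nonneg_left hQ (by positivity)
  rw [h1]
  refine (mul_le_mul_of_nonneg_left (hek.trans h3) h2).trans ?_
  have h4 : N1 * n0 * Y * (C1 * V1) * (4 * V3 * P / (q * t2)) =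
      (n0 * C1 * N1 * Y * V1 * (4 * V3 * P / q)) / t2 := by
    field_simp
  rw [h4]
  exact div_le_div_of_nonneg_right h ht.le

theorem small_e {ι : Type*} [Fintype ι] (φ : ι → ℕ → ℝ) {C : ℝ} (hC : 1 ≤ C)
    (h0 : ∀ a t, 0 ≤ φ a t)
    (hφ : ∀ a k, Expd C k (fun t => ek k t * φ a t)) (Dl κ : ℕ) (hκ : 1 ≤ κ) (hD : Dl ≤ 2 ^ κ)
    (hcard : 2 * (Dl + 2 * κ + 10) ^ 2 + 1 ≤ κ * Fintype.card ι) :
    ∀ᶠ N : ℕ in atTop, ∃ y : Fin (N + 1) × ι → ℤ, y ≠ 0 ∧
      (∀ p, |(y p : ℝ)| ≤ Real.exp (κ * N)) ∧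
      ∀ i, i ≤ N / 2 → ∀ t, 1 ≤ t →
        |(∑ p, (y p : ℝ) * (ek (N + p.1) t * φ p.2 t)) * ((t.choose i : ℕ) : ℝ)| ≤
          Real.exp (-((Dl : ℝ) * N)) / (t : ℝ) ^ 2 := by
  set v : ℕ := Dl + 2 * κ + 10 with hv
  have hC0 : 0 ≤ C := by linarith
  have hv1 : (1 : ℝ) ≤ (v : ℝ) := by
    have : 1 ≤ v := by omega
    exact_mod_cast this
  have hCv : 1 ≤ C * (v : ℝ) := by nlinarith
  filter_upwards [pick_e (ι := ι) (C * (v : ℝ)) hCv Dl κ hκ hcard, evx_a Dl κ hκ hD, evx_b Dl κ,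
    evx_c Dl κ hκ hD ((Fintype.card ι : ℝ) * C) (by positivity), eventually_ge_atTop 2]
    with N hpick ha hb hc hN2
  have hN1 : 1 ≤ N := by omega
  have hNr : (0 : ℝ) ≤ (N : ℝ) := Nat.cast_nonneg _
  choose g hg0 hgk hgC hgV using fun p : Fin (N + 1) × ι => hφ p.2 (N + p.1)
  set F : Fin (N + 1) × ι → ℕ → ℝ := fun p t => ek (N + p.1) t * φ p.2 t with hF
  have hFpos : ∀ p t, 1 ≤ t → 0 ≤ F p t := fun p t ht => mul_nonneg (ek_pos ht _).le (h0 _ _)
  have hFC : ∀ p t, 1 ≤ t → F p t ≤ C := by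
    intro p t ht
    have h1 := hgV p t ht 0
    rw [Finset.range_zero, Finset.sum_empty, sub_zero] at h1
    refine (le_abs_self _).trans (h1.trans ?_)
    have h2 := ek_le_one ht 0
    have h3 := (ek_pos ht 0).le
    push_cast
    nlinarith
  obtain ⟨y, hy0, hyb, hys⟩ := hpick
    (fun p k => if k < v * N then F p (k + 1) else g p (k - v * N))
    (Finset.range (2 * (Dl + 2 * κ + 10) * N)) (by rw [Finset.card_range])
    (by
      intro p k _
      split_ifs with h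
      · exact hFpos p _ (by omega)
      · exact hg0 p _)
    (by
      intro p k hk
      split_ifs with h
      · refine (hFC p _ (by omega)).trans ?_
        have h1 : C * 1 ≤ C * (v : ℝ) := mul_le_mul_of_nonneg_left hv1 hC0
        nlinarith
      · refine (hgC p _).trans ?_
        rw [Finset.mem_range] at hk
        have h1 : k - v * N + 1 ≤ v * N := by
          have h2 : 2 * (Dl + 2 * κ + 10) * N = v * N + v * N := by rw [← hv]; ring
          omega
        have h3 : ((k - v * N : ℕ) : ℝ) + 1 ≤ (v : ℝ) * N := by exact_mod_cast h1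
        have h4 : (((k - v * N : ℕ) : ℝ) + 1) * C ≤ (v : ℝ) * N * C :=
          mul_le_mul_of_nonneg_right h3 hC0
        nlinarith)
  refine ⟨y, hy0, hyb, fun i hi t ht => ?_⟩
  have hi1 : i + 1 ≤ N := by omega
  have hiN : i ≤ N := by omega
  have hNV : N ≤ v * N := Nat.le_mul_of_pos_left N (by omega)
  have htr : (0 : ℝ) < (t : ℝ) := by exact_mod_cast ht
  have ht2 : (0 : ℝ) < (t : ℝ) ^ 2 := by positivity
  have hch0 : (0 : ℝ) ≤ ((t.choose i : ℕ) : ℝ) := Nat.cast_nonneg _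
  have hVN := choose_exp v hN1
  set ε : ℝ := Real.exp (-(((Dl + κ + 10 : ℕ) : ℝ) * N)) with hε
  have hε0 : 0 ≤ ε := (Real.exp_pos _).le
  rw [abs_mul, abs_of_nonneg hch0]
  rcases Nat.lt_or_ge (v * N) t with htV | htV
  · have h1 : |∑ p, (y p : ℝ) * F p t| ≤
        ((v * N : ℕ) : ℝ) * ε * ek N t + (Fintype.card (Fin (N + 1) × ι) : ℕ) *
          Real.exp (κ * N) * (C * (((v * N : ℕ) : ℝ) + 1) * ek (v * N) t) := by
      refine comb_bound (fun p => (y p : ℝ)) F g hC0 hε0 hyb (N := N) (V := v * N)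
        (fun p i hi => hgk p i (by omega)) (fun p t ht => hgV p t ht (v * N)) ?_ ht
      intro s hs
      have h2 := hys (v * N + s) (by
        rw [Finset.mem_range]
        have h2 : 2 * (Dl + 2 * κ + 10) * N = v * N + v * N := by rw [← hv]; ring
        omega)
      have h3 : ¬ (v * N + s < v * N) := by omega
      have h4 : v * N + s - v * N = s := by omega
      simp only [h3, if_false, h4] at h2
      exact h2
    refine (mul_le_mul_of_nonneg_right h1 hch0).trans ?_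
    rw [add_mul]
    have h5 : ((v * N : ℕ) : ℝ) * ε * ek N t * ((t.choose i : ℕ) : ℝ) ≤
        Real.exp (-((Dl : ℝ) * N)) / 2 / (t : ℝ) ^ 2 := by
      have h6 := ek_choose_small (N := N) (i := i) hi1 ht
      have h7 : ((v * N : ℕ) : ℝ) * ε * ek N t * ((t.choose i : ℕ) : ℝ) =
          (((v * N : ℕ) : ℝ) * ε) * (ek N t * ((t.choose i : ℕ) : ℝ)) := by ring
      rw [h7]
      refine (mul_le_mul_of_nonneg_left h6 (by positivity)).trans ?_
      have h8 : ((v * N : ℕ) : ℝ) * ε * ((N : ℝ) / (t : ℝ) ^ 2) =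
          ((v : ℝ) * N) * ε * N / (t : ℝ) ^ 2 := by
        push_cast
        ring
      rw [h8]
      exact div_le_div_of_nonneg_right hb ht2.le
    have h9 : ((Fintype.card (Fin (N + 1) × ι) : ℕ) : ℝ) *
          Real.exp (κ * N) * (C * (((v * N : ℕ) : ℝ) + 1) * ek (v * N) t) *
          ((t.choose i : ℕ) : ℝ) ≤ Real.exp (-((Dl : ℝ) * N)) / 2 / (t : ℝ) ^ 2 := by
      rw [Fintype.card_prod, Fintype.card_fin]
      push_cast
      have h10 := ek_choose_big (V := v * N) (N := N) (i := i) (by omega) hiN htV.le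
      push_cast at h10
      refine xs_second hc ht2 hVN (by positivity) (by positivity) (Real.exp_pos _).le hC0
        (by positivity) (by positivity) (by positivity) h10
    refine (add_le_add h5 h9).trans (le_of_eq ?_)
    ring
  · have h1 := hys (t - 1) (by
      rw [Finset.mem_range]
      have h2 : 2 * (Dl + 2 * κ + 10) * N = v * N + v * N := by rw [← hv]; ring
      omega)
    have h3 : t - 1 < v * N := by omega
    have h4 : t - 1 + 1 = t := by omega
    simp only [h3, if_true, h4] at h1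
    have h5 := choose_small (V := v * N) (N := N) (i := i) (t := t) htV hiN
    refine (mul_le_mul h1 (h5.trans hVN) hch0 hε0).trans ?_
    rw [le_div_iff₀ ht2]
    refine le_trans ?_ ha
    refine mul_le_mul_of_nonneg_left ?_ (by positivity)
    refine pow_le_pow_left₀ htr.le ?_ 2
    exact_mod_cast htV

end Pool.MZExp
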