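import Pool.Agent.Lib.MZExp.ZUp

/-! MP_301213_nt, exponential growth of `dim Z_k`, ZERO ESTIMATE, module `ZCnt` (120 lines): rank count.

PROOF. Let `R = finrank KK (span KK QQ)` (finite: `(S0 → KK) × (S1 → KK)` is finite dimensional).
There are `f : Fin R → V` with `f k ∈ QQ` linearly independent over `KK` (a basis of the span can be
chosen inside a spanning set: `exists_linearIndependent`, `exists_linearIndepOn_extension`,
`Submodule.exists_fun_fin_finrank_span_eq`: `∃ f : Fin (finrank K (span K s)) → V, (∀ i, f i ∈ s) ∧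
span K (range f) = span K s ∧ LinearIndependent K f`). The `(i'+1) * R` vectors
`xx^j • f k` (`j < i'+1`, `k < R`) lie in `QQ (y+i') (z+i')` (`QQ_pow`, `QQ_mono`) and are linearly
independent over `ℚ`: if `∑ r j k • xx^j • f k = 0` with rational `r j k`, then
`∑_k (∑_j r j k xx^j) • f k = 0`, so for every `k`: `∑_j r j k xx^j = 0` in `KK`, i.e.
`algebraMap (∑_j C (r j k) X^j) = 0`, so all `r j k = 0` (injectivity, coefficients). (Rational
scalars: `Rat.cast_smul_eq_qsmul`-type lemma or `Rat.smul_def`; `map_rat_smul`.) Conclude with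
`LinearIndependent.fintype_card_le_finrank` in the subspace `QQ (y+i') (z+i')` (finite dimensional by
`QQ_finite`), `Fintype.card (Fin (i'+1) × Fin R) = (i'+1) * R`. -/

open Polynomial

namespace Pool.MZExp

variable {S0 S1 : Finset (List ℕ)} {c : List ℕ → List ℕ → ℕ → ℚ} {M y z : ℕ}

private lemma smulC (q : ℚ) (p : (S0 → KK) × (S1 → KK)) :
    algebraMap ℚ[X] KK (C q) • p = q • p := by
  have h : ∀ x : KK, algebraMap ℚ[X] KK (C q) * x = q • x := by
    intro x
    rw [← smul_one_mul q x]
    congr 1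
    have h1 : (algebraMap ℚ[X] KK) (q • (1 : ℚ[X])) = q • (algebraMap ℚ[X] KK) 1 :=
      map_rat_smul (algebraMap ℚ[X] KK) q 1
    rw [map_one] at h1
    rw [← h1, smul_eq_C_mul, mul_one]
  ext i
  · simp only [Prod.smul_fst, Pi.smul_apply, smul_eq_mul]
    exact h _
  · simp only [Prod.smul_snd, Pi.smul_apply, smul_eq_mul]
    exact h _

theorem rank_count (i' : ℕ) :
    (i' + 1) * Module.finrank KK (Submodule.span KK (QQ S0 S1 c M y z : Set ((S0 → KK) × (S1 → KK))))
      ≤ Module.finrank ℚ (QQ S0 S1 c M (y + i') (z + i')) := by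
  classical
  have := QQ_finite (S0 := S0) (S1 := S1) (c := c) (M := M) (y := y + i') (z := z + i')
  suffices key : ∀ (R : ℕ) (f : Fin R → (S0 → KK) × (S1 → KK)),
      (∀ i, f i ∈ QQ S0 S1 c M y z) → LinearIndependent KK f →
      (i' + 1) * R ≤ Module.finrank ℚ (QQ S0 S1 c M (y + i') (z + i')) by
    obtain ⟨f, hf, -, hli⟩ := Submodule.exists_fun_fin_finrank_span_eq KK
      (QQ S0 S1 c M y z : Set ((S0 → KK) × (S1 → KK)))
    exact key _ f hf hli
  intro R f hf hli
  have hmem : ∀ p : Fin (i' + 1) × Fin R,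
      xx ^ (p.1 : ℕ) • f p.2 ∈ QQ S0 S1 c M (y + i') (z + i') := fun p =>
    QQ_mono (Nat.add_le_add_left (Nat.lt_succ_iff.1 p.1.2) y)
      (Nat.add_le_add_left (Nat.lt_succ_iff.1 p.1.2) z) (QQ_pow (hf p.2) p.1)
  let g : Fin (i' + 1) × Fin R → QQ S0 S1 c M (y + i') (z + i') := fun p =>
    ⟨xx ^ (p.1 : ℕ) • f p.2, hmem p⟩
  have hg : LinearIndependent ℚ g := by
    rw [Fintype.linearIndependent_iff]
    intro r hr
    have h1 : ∑ p : Fin (i' + 1) × Fin R, r p • (xx ^ (p.1 : ℕ) • f p.2) = 0 := by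
      have h0 := congrArg (Subtype.val) hr
      rw [Submodule.coe_sum] at h0
      exact h0
    have h2 : ∑ k : Fin R, (∑ j : Fin (i' + 1),
        algebraMap ℚ[X] KK (C (r (j, k))) * xx ^ (j : ℕ)) • f k = 0 := by
      rw [← h1, Fintype.sum_prod_type_right]
      refine Finset.sum_congr rfl fun k _ => ?_
      rw [Finset.sum_smul]
      refine Finset.sum_congr rfl fun j _ => ?_
      rw [mul_smul]
      exact smulC _ _
    have h3 := Fintype.linearIndependent_iff.1 hli _ h2
    intro p
    have h4 := h3 p.2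
    have h5 : (∑ j : Fin (i' + 1), C (r (j, p.2)) * X ^ (j : ℕ) : ℚ[X]) = 0 := by
      apply IsFractionRing.injective ℚ[X] KK
      rw [map_sum, map_zero]
      simpa only [map_mul, map_pow, xx] using h4
    have h6 := congrArg (fun q => q.coeff (p.1 : ℕ)) h5
    simp only [finsetSum_coeff, coeff_C_mul, coeff_X_pow, coeff_zero] at h6
    rw [Finset.sum_eq_single p.1] at h6
    · simpa using h6
    · intro j _ hj
      rw [if_neg (fun h => hj (Fin.ext h.symm)), mul_zero]
    · intro h
      exact absurd (Finset.mem_univ _) h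
  have h7 := hg.fintype_card_le_finrank
  simpa using h7

end Pool.MZExp
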