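import Pool.Agent.Lib.MZExp.ZTau
import Pool.Agent.Lib.MZExp.ZPol

/-! MP_301213_nt, exponential growth of `dim Z_k`, ZERO ESTIMATE, module `ZShift` (200 lines): the shift
acts on the spaces `QQ`.

PROOF. `s = d + w + 1` with `w` a bound for all `u.headI` (`u ∈ S0`) and all `v.sum` (`v ∈ S1`)
(`Finset.sup`). Given `p ∈ QQ .. M y z` with polynomials `a, b`, take `A, B` from `exists_polys`.
Put `q.1 u = (xx^s)⁻¹ * algebraMap (A u)`, `q.2 v = (xx^s)⁻¹ * algebraMap (B v)`.
(1) `Rel tau xx S0 S1 _ p q`: the last part of `exists_polys` with `φ = algebraMap ℚ[X] KK`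
(`φ X = xx ≠ 0`, `tau (algebraMap p) = algebraMap (p.comp (X-1))` by `tau_algebraMap`; `φ.comp C` and
`algebraMap ℚ KK` are the same ring homomorphism, `RingHom.ext_rat`), divide by `xx^s`
(`Matrix.mulVec`, `vecMul` are linear: `Matrix.mulVec_smul`, `Matrix.smul_vecMul`).
(2) `xx^s • q = (algebraMap ∘ A, algebraMap ∘ B) ∈ QQ .. M (y+s) (z+s)`: degrees by
`exists_polys`. For `j = 0` both sides of the equation vanish (`eval 0 = 0`). For `j + 1 ≤ M`: put
`φ = evalRingHom ((j : ℚ) + 1)`, `φ X = j + 1 ≠ 0`, `φ (p.comp (X-1)) = p.eval j` (`eval_comp`).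
Let `C v = ∑ u, (A u).eval (j+1) * c u v (j+1)`. The claim is `C v = (B v).eval (j+1)` for all `v`;
as `Tm (j+1) S1` is a unit (`Tm_isUnit`, `Matrix.vecMul_injective_of_isUnit`) it is enough that
`vecMul C Tm = vecMul (eval B) Tm`. Left side at `v`: `(A u).eval (j+1)
= (j+1)^s * ∑ u', Tm u u' * (a u').eval j`, so it is
`(j+1)^s * ∑ u', (a u').eval j * (∑ u, ∑ v', Tm0 u u' * Tm1 v' v * c u v' (j+1))
= (j+1)^s * ∑ u', (a u').eval j * (c u' v j - (R u' v).eval (j+1)⁻¹)` by `hrec`, and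
`∑ u', (a u').eval j * c u' v j = (b v).eval j` (`j ≤ M`): this is the right side
(`eval₂ (φ.comp C) = eval`). -/

open Polynomial

namespace Pool.MZExp

theorem exists_shift (S0 S1 : Finset (List ℕ)) (hS1 : ∀ a l, a :: l ∈ S1 → l ∈ S1) (d : ℕ) :
    ∃ s : ℕ, ∀ (c : List ℕ → List ℕ → ℕ → ℚ) (R : List ℕ → List ℕ → ℚ[X]),
      (∀ u ∈ S0, ∀ v ∈ S1, (R u v).natDegree ≤ d) →
      (∀ (j : ℕ) (u : S0) (v : S1), c u v j = (∑ u' : S0, ∑ v' : S1,
        Tm ((j : ℚ) + 1) S0 u' u * Tm ((j : ℚ) + 1) S1 v' v * c u' v' (j + 1)) +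
          (R u v).eval ((j : ℚ) + 1)⁻¹) →
      ∀ M y z : ℕ, y ≤ z → ∀ p ∈ QQ S0 S1 c M y z,
        ∃ q : (S0 → KK) × (S1 → KK),
          Rel tau xx S0 S1 (fun u v => (R u v).eval₂ (algebraMap ℚ KK) xx⁻¹) p q ∧
          xx ^ s • q ∈ QQ S0 S1 c M (y + s) (z + s) := by
  classical
  obtain ⟨w, hw⟩ : ∃ w, w = max (S0.sup List.headI) (S1.sup List.sum) := ⟨_, rfl⟩
  have hw0 : ∀ u ∈ S0, u.headI ≤ w := fun u hu => by
    rw [hw]
    exact (Finset.le_sup (f := List.headI) hu).trans (le_max_left _ _)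
  have hw1 : ∀ v ∈ S1, v.sum ≤ w := fun v hv => by
    rw [hw]
    exact (Finset.le_sup (f := List.sum) hv).trans (le_max_right _ _)
  refine ⟨d + w + 1, fun c R hR hrec M y z hyz p hp => ?_⟩
  obtain ⟨a, b, ha, hb, hab, rfl⟩ := hp
  obtain ⟨A, B, hA, hB, hA0, hB0, hφ⟩ := exists_polys S0 S1 hS1 d w hw0 hw1 R hR y z hyz a b ha hb
  obtain ⟨s, hs⟩ : ∃ s, s = d + w + 1 := ⟨_, rfl⟩
  rw [← hs] at hA hB hφ ⊢
  have hxs : xx ^ s ≠ 0 := pow_ne_zero _ xx_ne_zero
  refine ⟨(fun u => (xx ^ s)⁻¹ * algebraMap ℚ[X] KK (A u),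
    fun v => (xx ^ s)⁻¹ * algebraMap ℚ[X] KK (B v)), ⟨?_, ?_⟩, ?_⟩
  · have hk := (hφ KK (algebraMap ℚ[X] KK) xx_ne_zero).1
    funext u
    have h1 := hk u
    show (xx ^ s)⁻¹ * algebraMap ℚ[X] KK (A u) =
      (Tm xx S0).mulVec (fun u' => tau (algebraMap ℚ[X] KK (a u'))) u
    simp only [tau_algebraMap]
    rw [h1]
    exact inv_mul_cancel_left₀ hxs _
  · have hk := (hφ KK (algebraMap ℚ[X] KK) xx_ne_zero).2
    intro v
    have h1 := hk v
    have hcomp : (algebraMap ℚ[X] KK).comp C = algebraMap ℚ KK := RingHom.ext_rat _ _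
    rw [hcomp] at h1
    show Matrix.vecMul (fun v' => (xx ^ s)⁻¹ * algebraMap ℚ[X] KK (B v')) (Tm xx S1) v =
      tau (algebraMap ℚ[X] KK (b v)) - ∑ u : S0, tau (algebraMap ℚ[X] KK (a u)) *
        (R u v).eval₂ (algebraMap ℚ KK) xx⁻¹
    have h2 : Matrix.vecMul (fun v' => (xx ^ s)⁻¹ * algebraMap ℚ[X] KK (B v')) (Tm xx S1) v =
        (xx ^ s)⁻¹ * Matrix.vecMul (fun v' => algebraMap ℚ[X] KK (B v')) (Tm xx S1) v := by
      simp only [Matrix.vecMul, dotProduct, mul_assoc, Finset.mul_sum]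
    rw [h2]
    simp only [tau_algebraMap]
    have h3 : Matrix.vecMul (fun v' => algebraMap ℚ[X] KK (B v')) (Tm xx S1) v =
        xx ^ s * (algebraMap ℚ[X] KK ((b v).comp (X - 1)) -
          ∑ u : S0, algebraMap ℚ[X] KK ((a u).comp (X - 1)) *
            (R u v).eval₂ (algebraMap ℚ KK) xx⁻¹) := h1
    rw [h3]
    exact inv_mul_cancel_left₀ hxs _
  · refine ⟨A, B, hA, hB, ?_, ?_⟩
    · intro j hj v
      cases j with
      | zero => simp [hA0, hB0]
      | succ j =>
        have hx : ((j : ℚ) + 1) ≠ 0 := by positivity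
        have hne : (evalRingHom ((j : ℚ) + 1)) X ≠ 0 := by
          rw [coe_evalRingHom, eval_X]
          exact hx
        have hAj := (hφ ℚ (evalRingHom ((j : ℚ) + 1)) hne).1
        have hBj := (hφ ℚ (evalRingHom ((j : ℚ) + 1)) hne).2
        have hcomp : (evalRingHom ((j : ℚ) + 1)).comp C = RingHom.id ℚ := RingHom.ext_rat _ _
        rw [hcomp] at hBj
        simp only [coe_evalRingHom, eval_X, eval_comp, eval_sub, eval_one,
          add_sub_cancel_right] at hAj hBj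
        have h2 : (fun v : S1 => ∑ u : S0, (A u).eval ((j : ℚ) + 1) * c u v (j + 1)) =
            fun v : S1 => (B v).eval ((j : ℚ) + 1) := by
          apply Matrix.vecMul_injective_of_isUnit (Tm_isUnit ((j : ℚ) + 1) S1)
          funext v
          show Matrix.vecMul (fun v : S1 => ∑ u : S0, (A u).eval ((j : ℚ) + 1) * c u v (j + 1))
            (Tm ((j : ℚ) + 1) S1) v =
            Matrix.vecMul (fun v : S1 => (B v).eval ((j : ℚ) + 1)) (Tm ((j : ℚ) + 1) S1) v
          rw [hBj v]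
          have h3 : Matrix.vecMul (fun v : S1 => ∑ u : S0, (A u).eval ((j : ℚ) + 1) *
              c u v (j + 1)) (Tm ((j : ℚ) + 1) S1) v =
              ((j : ℚ) + 1) ^ s * ∑ u' : S0, (a u').eval (j : ℚ) *
                ∑ u : S0, ∑ v' : S1, Tm ((j : ℚ) + 1) S0 u u' * Tm ((j : ℚ) + 1) S1 v' v *
                  c u v' (j + 1) := by
            simp only [Matrix.vecMul, dotProduct, hAj, Matrix.mulVec, Finset.mul_sum,
              Finset.sum_mul]
            rw [Finset.sum_comm]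
            have e1 : ∀ u : S0, ∑ v' : S1, ∑ u' : S0,
                ((j : ℚ) + 1) ^ s * (Tm ((j : ℚ) + 1) S0 u u' * (a u').eval (j : ℚ)) *
                  c u v' (j + 1) * Tm ((j : ℚ) + 1) S1 v' v =
                ∑ u' : S0, ∑ v' : S1,
                ((j : ℚ) + 1) ^ s * (Tm ((j : ℚ) + 1) S0 u u' * (a u').eval (j : ℚ)) *
                  c u v' (j + 1) * Tm ((j : ℚ) + 1) S1 v' v := fun u => Finset.sum_comm
            rw [Finset.sum_congr rfl fun u _ => e1 u, Finset.sum_comm]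
            refine Finset.sum_congr rfl fun u' _ => Finset.sum_congr rfl fun u _ =>
              Finset.sum_congr rfl fun v' _ => ?_
            ring
          rw [h3]
          congr 1
          have h4 : ∀ u' : S0, ∑ u : S0, ∑ v' : S1, Tm ((j : ℚ) + 1) S0 u u' *
              Tm ((j : ℚ) + 1) S1 v' v * c u v' (j + 1) =
              c u' v j - (R u' v).eval ((j : ℚ) + 1)⁻¹ := by
            intro u'
            rw [hrec j u' v]
            ring
          have h5 := hab j (by omega) v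
          simp only [h4, mul_sub, Finset.sum_sub_distrib]
          rw [h5]
          rfl
        have h6 := congrFun h2 v
        push_cast
        exact h6
    · refine Prod.ext ?_ ?_
      · funext u
        show xx ^ s * ((xx ^ s)⁻¹ * algebraMap ℚ[X] KK (A u)) = algebraMap ℚ[X] KK (A u)
        exact mul_inv_cancel_left₀ hxs _
      · funext v
        show xx ^ s * ((xx ^ s)⁻¹ * algebraMap ℚ[X] KK (B v)) = algebraMap ℚ[X] KK (B v)
        exact mul_inv_cancel_left₀ hxs _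

end Pool.MZExp
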