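import Pool.Agent.Lib.MZExp.ZTau

/-! MP_301213_nt, exponential growth of `dim Z_k`, ZERO ESTIMATE, module `ZCon`.

The constants of the shift are the rational numbers: write `k = p / q` with `p, q` coprime; then
`q ∣ q(X-1)` and both have the same degree and leading coefficient, so `q(X-1) = q` and
`p(X-1) = p`; a polynomial invariant under the shift is constant. -/

open Polynomial

namespace Pool.MZExp

private lemma comp_sub_one_natDegree (p : ℚ[X]) : (p.comp (X - 1)).natDegree = p.natDegree := by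
  have h1 : (X - 1 : ℚ[X]) = X - C 1 := by simp
  rw [natDegree_comp, h1, natDegree_X_sub_C, mul_one]

private lemma comp_sub_one_leadingCoeff (p : ℚ[X]) :
    (p.comp (X - 1)).leadingCoeff = p.leadingCoeff := by
  have h1 : (X - 1 : ℚ[X]) = X - C 1 := by simp
  rw [leadingCoeff_comp (by rw [h1, natDegree_X_sub_C]; exact one_ne_zero), h1,
    leadingCoeff_X_sub_C, one_pow, mul_one]

private lemma shift_const (p : ℚ[X]) (h : p.comp (X - 1) = p) : p = C (p.eval 0) := by
  have key : ∀ n : ℕ, p.eval (-(n : ℚ)) = p.eval 0 := by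
    intro n
    induction n with
    | zero => simp
    | succ n ih =>
      rw [← ih]
      have := congrArg (fun f => f.eval (-(n : ℚ))) h
      simp only [eval_comp, eval_sub, eval_X, eval_one] at this
      rw [← this]
      congr 1
      push_cast; ring
  apply eq_of_infinite_eval_eq
  apply Set.infinite_of_injective_forall_mem (f := fun n : ℕ => (-(n : ℚ)))
  · intro a b hab
    simpa using hab
  · intro n
    simp [key n]

theorem tau_fixed (k : KK) (h : tau k = k) : ∃ r : ℚ, k = algebraMap ℚ[X] KK (C r) := by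
  obtain ⟨p, q, hcop, hk⟩ := IsFractionRing.exists_reduced_fraction (A := ℚ[X]) k
  have Ainj : Function.Injective (algebraMap ℚ[X] KK) := IsFractionRing.injective ℚ[X] KK
  have hq0 : (q : ℚ[X]) ≠ 0 := nonZeroDivisors.ne_zero q.2
  have hAq : algebraMap ℚ[X] KK (q : ℚ[X]) ≠ 0 := (map_ne_zero_iff _ Ainj).mpr hq0
  have hk' : k * algebraMap ℚ[X] KK (q : ℚ[X]) = algebraMap ℚ[X] KK p := by
    rw [← hk, IsLocalization.mk'_spec]
  have hk2 : k * algebraMap ℚ[X] KK ((q : ℚ[X]).comp (X - 1)) =
      algebraMap ℚ[X] KK (p.comp (X - 1)) := by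
    rw [← tau_algebraMap, ← tau_algebraMap, ← hk', map_mul, h]
  have hid : p * (q : ℚ[X]).comp (X - 1) = p.comp (X - 1) * (q : ℚ[X]) := by
    apply Ainj
    rw [map_mul, map_mul, ← hk', ← hk2]
    ring
  have hdvd : (q : ℚ[X]) ∣ (q : ℚ[X]).comp (X - 1) :=
    hcop.symm.dvd_of_dvd_mul_left (Dvd.intro_left _ hid.symm)
  have hqq : (q : ℚ[X]).comp (X - 1) = (q : ℚ[X]) := by
    obtain ⟨s, hs⟩ := hdvd
    have hs0 : s ≠ 0 := by
      rintro rfl
      rw [mul_zero] at hs
      have h1 := comp_sub_one_leadingCoeff (q : ℚ[X])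
      rw [hs, leadingCoeff_zero] at h1
      exact hq0 (leadingCoeff_eq_zero.1 h1.symm)
    have hdeg : s.natDegree = 0 := by
      have h1 := comp_sub_one_natDegree (q : ℚ[X])
      rw [hs, natDegree_mul hq0 hs0] at h1
      omega
    have hs1 : s = C (s.coeff 0) := eq_C_of_natDegree_eq_zero hdeg
    have hlc := comp_sub_one_leadingCoeff (q : ℚ[X])
    rw [hs, hs1, leadingCoeff_mul, leadingCoeff_C] at hlc
    have hlq : (q : ℚ[X]).leadingCoeff ≠ 0 := leadingCoeff_ne_zero.2 hq0
    have hc : s.coeff 0 = 1 := mul_left_cancel₀ hlq (by rw [hlc, mul_one])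
    rw [hs, hs1, hc, C_1, mul_one]
  have hpp : p.comp (X - 1) = p := by
    rw [hqq] at hid
    exact (mul_right_cancel₀ hq0 hid).symm
  have hqc := shift_const _ hqq
  have hpc := shift_const _ hpp
  refine ⟨p.eval 0 / (q : ℚ[X]).eval 0, ?_⟩
  have hq00 : (q : ℚ[X]).eval 0 ≠ 0 := by
    intro h0
    rw [h0, C_0] at hqc
    exact hq0 hqc
  apply mul_right_cancel₀ hAq
  rw [hk', ← map_mul]
  congr 1
  calc p = C (p.eval 0) := hpc
    _ = C (p.eval 0 / (q : ℚ[X]).eval 0) * C ((q : ℚ[X]).eval 0) := by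
        rw [← C_mul, div_mul_cancel₀ _ hq00]
    _ = C (p.eval 0 / (q : ℚ[X]).eval 0) * (q : ℚ[X]) := by rw [← hqc]

end Pool.MZExp
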