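import Pool.Agent.Lib.MZExp.ZTau

/-! MP_301213_nt, exponential growth of `dim Z_k`, ZERO ESTIMATE, module `ZUp` (200 lines): the spaces
`QQ` (finite dimension, upper bound, monotonicity, multiplication by `X`).

PROOF. `QQ_finite`: `QQ` is contained in the range of the `ℚ`-linear map
`(S0 → degreeLT ℚ (y+1)) × (S1 → degreeLT ℚ (z+1)) → (S0 → KK) × (S1 → KK)` (coordinatewise
inclusion and `algebraMap`; `ℚ`-linear because additive: `AddMonoidHom.toRatLinearMap`), the source
is finite dimensional (`Polynomial.degreeLT` is: `degreeLTEquiv`), `FiniteDimensional` of the range,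
`Submodule.finiteDimensional_of_le`. (`natDegree p ≤ y` implies `p ∈ degreeLT ℚ (y+1)`:
`mem_degreeLT`, `degree_lt_iff_coeff_zero`.)
`QQ_inj`: `p.1 = 0` gives `a u = 0` for all `u` (injectivity of `algebraMap`), so
`(b v).eval j = 0` for `j = 0, .., M`: `M + 1` roots (casts of distinct naturals),
`natDegree (b v) ≤ z ≤ M`, so `b v = 0` (`Polynomial.eq_zero_of_natDegree_lt_card_of_eval_eq_zero'`
or `card_roots'`).
`QQ_finrank_le`: the `ℚ`-linear map `p ↦ p.1` on `QQ` is injective (`QQ_inj`) and has its values in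
the range of `(S0 → degreeLT ℚ (y+1)) → (S0 → KK)`, of dimension
`≤ S0.card * (y+1)` (`Module.finrank_pi_fintype`, `finrank_range_le`, `degreeLTEquiv`,
`Module.finrank_fin_fun`).
`QQ_mono`: same `a, b`. `QQ_pow`: `a ↦ X^j * a`, `b ↦ X^j * b` (`natDegree_mul_le`,
`natDegree_X_pow_le`), evaluation at `j'` multiplies both sides by `j'^j`. -/

open Polynomial

namespace Pool.MZExp

variable {S0 S1 : Finset (List ℕ)} {c : List ℕ → List ℕ → ℕ → ℚ} {M y z : ℕ}

private theorem mem_dlt {n : ℕ} {p : ℚ[X]} (h : p.natDegree ≤ n) : p ∈ degreeLT ℚ (n + 1) := by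
  rw [mem_degreeLT, degree_lt_iff_coeff_zero]
  intro m hm
  exact coeff_eq_zero_of_natDegree_lt (by omega)

private noncomputable def Lz (S : Finset (List ℕ)) (n : ℕ) :
    (S → degreeLT ℚ n) →ₗ[ℚ] (S → KK) where
  toFun p := fun u => algebraMap ℚ[X] KK (p u).1
  map_add' p q := by
    ext i
    simp
  map_smul' k p := by
    ext i
    exact map_rat_smul (algebraMap ℚ[X] KK) k (p i).1

private theorem dlt_fin (n : ℕ) : FiniteDimensional ℚ (degreeLT ℚ n) :=
  (degreeLTEquiv ℚ n).symm.finiteDimensional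

private theorem dlt_rank (n : ℕ) : Module.finrank ℚ (degreeLT ℚ n) = n := by
  rw [(degreeLTEquiv ℚ n).finrank_eq, Module.finrank_fin_fun]

private theorem Lz_rank (S : Finset (List ℕ)) (n : ℕ) :
    Module.finrank ℚ (LinearMap.range (Lz S n)) ≤ n * S.card := by
  have := dlt_fin n
  refine (LinearMap.finrank_range_le (Lz S n)).trans ?_
  rw [Module.finrank_pi_fintype]
  simp only [dlt_rank, Finset.sum_const, Finset.card_univ, Fintype.card_coe, smul_eq_mul]
  exact (mul_comm _ _).le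

private theorem Lz_fin (S : Finset (List ℕ)) (n : ℕ) :
    FiniteDimensional ℚ (LinearMap.range (Lz S n)) := by
  have := dlt_fin n
  infer_instance

theorem QQ_finite : FiniteDimensional ℚ (QQ S0 S1 c M y z) := by
  have h0 := dlt_fin (y + 1)
  have h1 := dlt_fin (z + 1)
  have hle : QQ S0 S1 c M y z ≤
      LinearMap.range ((Lz S0 (y + 1)).prodMap (Lz S1 (z + 1))) := by
    rintro p ⟨a, b, ha, hb, -, rfl⟩
    exact ⟨(fun u => ⟨a u, mem_dlt (ha u)⟩, fun v => ⟨b v, mem_dlt (hb v)⟩), rfl⟩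
  exact Submodule.finiteDimensional_of_le hle

theorem QQ_inj (hz : z ≤ M) {p : (S0 → KK) × (S1 → KK)} (hp : p ∈ QQ S0 S1 c M y z)
    (h : p.1 = 0) : p = 0 := by
  obtain ⟨a, b, ha, hb, hc, rfl⟩ := hp
  have ha0 : ∀ u, a u = 0 := by
    intro u
    have h1 := congrFun h u
    exact (IsFractionRing.injective ℚ[X] KK) (by simpa using h1)
  have hb0 : ∀ v, b v = 0 := by
    intro v
    refine Polynomial.eq_zero_of_natDegree_lt_card_of_eval_eq_zero' (b v)
      ((Finset.range (M + 1)).image (fun j : ℕ => (j : ℚ))) ?_ ?_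
    · intro r hr
      obtain ⟨j, hj, rfl⟩ := Finset.mem_image.1 hr
      rw [← hc j (by have := Finset.mem_range.1 hj; omega) v]
      simp [ha0]
    · rw [Finset.card_image_of_injective _ Nat.cast_injective, Finset.card_range]
      have := hb v
      omega
  refine Prod.ext ?_ ?_
  · ext u
    simp [ha0]
  · ext v
    simp [hb0]

theorem QQ_finrank_le (hz : z ≤ M) :
    Module.finrank ℚ (QQ S0 S1 c M y z) ≤ (y + 1) * S0.card := by
  have := Lz_fin S0 (y + 1)
  set f : QQ S0 S1 c M y z →ₗ[ℚ] (S0 → KK) :=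
    (LinearMap.fst ℚ (S0 → KK) (S1 → KK)).comp (QQ S0 S1 c M y z).subtype with hf
  have hinj : Function.Injective f := by
    rw [← LinearMap.ker_eq_bot, LinearMap.ker_eq_bot']
    intro p hp
    exact Subtype.ext (QQ_inj hz p.2 hp)
  have hle : LinearMap.range f ≤ LinearMap.range (Lz S0 (y + 1)) := by
    rintro _ ⟨⟨p, a, b, ha, hb, -, rfl⟩, rfl⟩
    exact ⟨fun u => ⟨a u, mem_dlt (ha u)⟩, rfl⟩
  rw [← LinearMap.finrank_range_of_inj hinj]
  exact (Submodule.finrank_mono hle).trans (Lz_rank S0 (y + 1))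

theorem QQ_mono {y' z' : ℕ} (hy : y ≤ y') (hz : z ≤ z') :
    QQ S0 S1 c M y z ≤ QQ S0 S1 c M y' z' := by
  rintro p ⟨a, b, ha, hb, hc, rfl⟩
  exact ⟨a, b, fun u => (ha u).trans hy, fun v => (hb v).trans hz, hc, rfl⟩

theorem QQ_pow {p : (S0 → KK) × (S1 → KK)} (hp : p ∈ QQ S0 S1 c M y z) (j : ℕ) :
    xx ^ j • p ∈ QQ S0 S1 c M (y + j) (z + j) := by
  obtain ⟨a, b, ha, hb, hc, rfl⟩ := hp
  have hX : ∀ {n : ℕ} (q : ℚ[X]), q.natDegree ≤ n → (X ^ j * q).natDegree ≤ n + j := by
    intro n q hq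
    refine (natDegree_mul_le).trans ?_
    have := natDegree_X_pow_le (R := ℚ) j
    omega
  refine ⟨fun u => X ^ j * a u, fun v => X ^ j * b v, fun u => hX _ (ha u), fun v => hX _ (hb v),
    fun i hi v => ?_, ?_⟩
  · simp only [eval_mul, eval_pow, eval_X, mul_assoc, ← Finset.mul_sum]
    rw [hc i hi v]
  · refine Prod.ext ?_ ?_
    · ext u
      simp [xx, smul_eq_mul]
    · ext v
      simp [xx, smul_eq_mul]

end Pool.MZExp
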